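import Pool.Agent.Work.MP_0ac1ea_ag.RC.Defs

/-!
# Basic API for `Lam`, `W`, `Out`, `Ann`
-/

open Polynomial

namespace RC

theorem jL_injective : Function.Injective jL := HahnSeries.ofPowerSeries_injective

theorem jL_C (c : ℂ) : jL (PowerSeries.C c) = cL c := rfl

theorem jL_X : jL PowerSeries.X = lam := rfl

theorem lam_ne_zero : lam ≠ 0 := by
  intro h
  have : (PowerSeries.X : PowerSeries ℂ) = 0 := jL_injective (by rw [jL_X, h, map_zero])
  exact PowerSeries.X_ne_zero this

theorem cL_injective : Function.Injective cL := RingHom.injective _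

instance : CharZero Lam := charZero_of_injective_ringHom cL_injective

theorem iS_C (c : ℂ) : iS (Polynomial.C c) = cL c := by simp [iS]

theorem iS_X : iS Polynomial.X = lam⁻¹ := by simp [iS]

/-- every Laurent series is `λ^{-n}` times a power series -/
theorem exists_pow_mul (f : Lam) : ∃ (n : ℕ) (p : PowerSeries ℂ), lam ^ n * f = jL p := by
  have hX : ∀ n : ℕ, (HahnSeries.single (n : ℤ) (1 : ℂ) : LaurentSeries ℂ)
      = HahnSeries.ofPowerSeries ℤ ℂ (PowerSeries.X ^ n) := by
    intro n
    rw [HahnSeries.ofPowerSeries_X_pow]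
  let g : LaurentSeries ℂ := f
  have h1 : HahnSeries.single g.order 1 * (g.powerSeriesPart : LaurentSeries ℂ) = g :=
    LaurentSeries.single_order_mul_powerSeriesPart g
  rcases le_total 0 g.order with h | h
  · obtain ⟨n, hn⟩ := Int.eq_ofNat_of_zero_le h
    refine ⟨0, PowerSeries.X ^ n * g.powerSeriesPart, ?_⟩
    rw [pow_zero, one_mul]
    change g = HahnSeries.ofPowerSeries ℤ ℂ _
    rw [map_mul, ← hX, ← hn, h1]
  · obtain ⟨n, hn⟩ := Int.eq_ofNat_of_zero_le (neg_nonneg.mpr h)
    refine ⟨n, g.powerSeriesPart, ?_⟩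
    change (HahnSeries.ofPowerSeries ℤ ℂ PowerSeries.X) ^ n * g = HahnSeries.ofPowerSeries ℤ ℂ _
    rw [← map_pow, ← hX, ← hn]
    conv_lhs => rw [← h1]
    rw [← mul_assoc, HahnSeries.single_mul_single]
    simp

/-- `ℂ((λ)) = ℂ[[λ]] + λ⁻¹ℂ[λ⁻¹]` -/
theorem split (f : Lam) : ∃ (p : PowerSeries ℂ) (q : ℂ[X]), f = jL p + iS q ∧ q.coeff 0 = 0 := by
  obtain ⟨n, p, hp⟩ := exists_pow_mul f
  induction n generalizing f p with
  | zero => exact ⟨p, 0, by simpa using hp, by simp⟩
  | succ n ih =>
    have hpX : p = PowerSeries.C (PowerSeries.constantCoeff p)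
        + PowerSeries.X * PowerSeries.mk (fun i => PowerSeries.coeff (i + 1) p) := by
      rw [add_comm]; exact PowerSeries.eq_X_mul_shift_add_const p
    set c := PowerSeries.constantCoeff p with hc
    set p' := PowerSeries.mk (fun i => PowerSeries.coeff (i + 1) p) with hp'
    -- f = λ^{-(n+1)} c + λ^{-n} p'
    have hf : lam ^ n * (f - cL c * (lam⁻¹) ^ (n + 1)) = jL p' := by
      have h2 : lam * (lam ^ n * (f - cL c * (lam⁻¹) ^ (n + 1))) = lam * jL p' := by
        have h3 : lam * (lam ^ n * (f - cL c * (lam⁻¹) ^ (n + 1)))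
            = lam ^ (n + 1) * f - cL c * (lam ^ (n + 1) * (lam⁻¹) ^ (n + 1)) := by ring
        rw [h3, hp, ← mul_pow, mul_inv_cancel₀ lam_ne_zero, one_pow, mul_one]
        conv_lhs => rw [hpX]
        rw [map_add, map_mul, jL_X, jL_C]
        ring
      exact mul_left_cancel₀ lam_ne_zero h2
    obtain ⟨p1, q1, h1, h2⟩ := ih _ _ hf
    refine ⟨p1, q1 + Polynomial.C c * Polynomial.X ^ (n + 1), ?_, ?_⟩
    · rw [map_add, map_mul, map_pow, iS_C, iS_X]
      rw [← add_assoc, ← h1]; ring
    · simp [h2]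

theorem lam_pow_mul_iS (q : ℂ[X]) (n : ℕ) (hn : q.natDegree ≤ n) :
    lam ^ n * iS q = jL (∑ i ∈ Finset.range (n + 1),
      PowerSeries.C (q.coeff i) * PowerSeries.X ^ (n - i)) := by
  conv_lhs => rw [Polynomial.as_sum_range' q (n + 1) (Nat.lt_succ_of_le hn)]
  rw [map_sum, map_sum, Finset.mul_sum]
  refine Finset.sum_congr rfl fun i hi => ?_
  have hi' : i ≤ n := Nat.lt_succ_iff.mp (Finset.mem_range.mp hi)
  rw [← Polynomial.C_mul_X_pow_eq_monomial, map_mul, map_pow, iS_C, iS_X, map_mul, map_pow, jL_X,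
    jL_C]
  have : lam ^ n = lam ^ (n - i) * lam ^ i := by rw [← pow_add, Nat.sub_add_cancel hi']
  rw [this]
  have h2 : lam ^ i * (lam⁻¹) ^ i = 1 := by
    rw [← mul_pow, mul_inv_cancel₀ lam_ne_zero, one_pow]
  calc lam ^ (n - i) * lam ^ i * (cL (q.coeff i) * lam⁻¹ ^ i)
      = cL (q.coeff i) * lam ^ (n - i) * (lam ^ i * lam⁻¹ ^ i) := by ring
    _ = _ := by rw [h2, mul_one]

/-- `ℂ[[λ]] ∩ ℂ[λ⁻¹] = ℂ` -/
theorem split_unique (p : PowerSeries ℂ) (q : ℂ[X]) (h : jL p = iS q) :
    ∃ c : ℂ, p = PowerSeries.C c ∧ q = Polynomial.C c := by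
  have h1 := lam_pow_mul_iS q q.natDegree le_rfl
  rw [← h, ← jL_X, ← map_pow, ← map_mul] at h1
  have h2 := jL_injective h1
  have h3 : ∀ i, 1 ≤ i → q.coeff i = 0 := by
    intro i hi
    by_cases hin : i ≤ q.natDegree
    · have h4 := congrArg (PowerSeries.coeff (q.natDegree - i)) h2
      rw [PowerSeries.coeff_X_pow_mul', if_neg (by omega), map_sum,
        Finset.sum_eq_single i] at h4
      · simpa [PowerSeries.coeff_C_mul, PowerSeries.coeff_X_pow] using h4.symm
      · intro b hb hbi
        rw [PowerSeries.coeff_C_mul, PowerSeries.coeff_X_pow, if_neg, mul_zero]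
        have := Finset.mem_range.mp hb
        omega
      · intro hni
        exact absurd (Finset.mem_range.mpr (Nat.lt_succ_of_le hin)) hni
    · exact Polynomial.coeff_eq_zero_of_natDegree_lt (not_le.mp hin)
  have hq : q = Polynomial.C (q.coeff 0) := by
    ext i
    rcases Nat.eq_zero_or_pos i with rfl | hi
    · simp
    · rw [h3 i hi, Polynomial.coeff_C, if_neg hi.ne']
  refine ⟨q.coeff 0, jL_injective ?_, hq⟩
  rw [h, jL_C]
  conv_lhs => rw [hq]
  rw [iS_C]

theorem iS_injective : Function.Injective iS := by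
  rw [injective_iff_map_eq_zero]
  intro q hq
  obtain ⟨c, hc, hq'⟩ := split_unique 0 q (by rw [map_zero, hq])
  have : c = 0 := by
    have := congrArg PowerSeries.constantCoeff hc
    simpa using this.symm
  rw [hq', this, map_zero]

theorem iW_injective : Function.Injective iW := by
  intro f g h
  ext n : 1
  have := congrArg (PowerSeries.coeff n) h
  rw [iW, PowerSeries.coeff_map, PowerSeries.coeff_map] at this
  exact jL_injective this

theorem iO_injective : Function.Injective iO := by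
  intro f g h
  ext n : 1
  have := congrArg (PowerSeries.coeff n) h
  rw [iO, PowerSeries.coeff_map, PowerSeries.coeff_map] at this
  exact iS_injective this

theorem coeff_iW (n : ℕ) (w : W) : PowerSeries.coeff n (iW w) = jL (PowerSeries.coeff n w) := by
  rw [iW, PowerSeries.coeff_map]

theorem coeff_iO (n : ℕ) (w : Out) : PowerSeries.coeff n (iO w) = iS (PowerSeries.coeff n w) := by
  rw [iO, PowerSeries.coeff_map]

theorem constantCoeff_iW (w : W) :
    PowerSeries.constantCoeff (iW w) = jL (PowerSeries.constantCoeff w) := by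
  rw [← PowerSeries.coeff_zero_eq_constantCoeff_apply, coeff_iW,
    PowerSeries.coeff_zero_eq_constantCoeff_apply]

theorem constantCoeff_iO (w : Out) :
    PowerSeries.constantCoeff (iO w) = iS (PowerSeries.constantCoeff w) := by
  rw [← PowerSeries.coeff_zero_eq_constantCoeff_apply, coeff_iO,
    PowerSeries.coeff_zero_eq_constantCoeff_apply]

theorem iW_C (p : PowerSeries ℂ) : iW (PowerSeries.C p) = PowerSeries.C (jL p) := by
  simp [iW]

theorem iO_C (q : ℂ[X]) : iO (PowerSeries.C q) = PowerSeries.C (iS q) := by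
  simp [iO]

theorem iW_X : iW PowerSeries.X = PowerSeries.X := by simp [iW]

theorem iO_X : iO PowerSeries.X = PowerSeries.X := by simp [iO]

theorem iW_lamW : iW lamW = PowerSeries.C lam := by rw [lamW, iW_C, jL_X]

theorem modLam_C (p : PowerSeries ℂ) :
    modLam (PowerSeries.C p) = PowerSeries.C (PowerSeries.constantCoeff p) := by
  simp [modLam]

theorem modLam_X : modLam PowerSeries.X = PowerSeries.X := by simp [modLam]

theorem modLam_lamW : modLam lamW = 0 := by
  rw [lamW, modLam_C]; simp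

theorem coeff_modLam (n : ℕ) (w : W) :
    PowerSeries.coeff n (modLam w) = PowerSeries.constantCoeff (PowerSeries.coeff n w) := by
  rw [modLam, PowerSeries.coeff_map]

/-- `w ≡ 0` modulo `λ` iff `λ` divides `w` -/
theorem lamW_dvd_iff (w : W) : lamW ∣ w ↔ modLam w = 0 := by
  constructor
  · rintro ⟨v, rfl⟩
    rw [map_mul, modLam_lamW, zero_mul]
  · intro h
    refine ⟨PowerSeries.mk fun n => PowerSeries.mk fun i =>
      PowerSeries.coeff (i + 1) (PowerSeries.coeff n w), ?_⟩
    ext n : 1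
    rw [lamW, PowerSeries.coeff_C_mul, PowerSeries.coeff_mk]
    have h0 : PowerSeries.constantCoeff (PowerSeries.coeff n w) = 0 := by
      rw [← coeff_modLam, h, map_zero]
    have := PowerSeries.eq_X_mul_shift_add_const (PowerSeries.coeff n w)
    rw [h0, map_zero, add_zero] at this
    exact this

theorem lamW_ne_zero : lamW ≠ 0 := by
  intro h
  have := congrArg PowerSeries.constantCoeff h
  rw [lamW, PowerSeries.constantCoeff_C, map_zero] at this
  exact PowerSeries.X_ne_zero this

theorem evS_C (σ : ℂ) (q : ℂ[X]) : evS σ (PowerSeries.C q) = PowerSeries.C (q.eval σ) := by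
  simp [evS]

theorem evS_X (σ : ℂ) : evS σ PowerSeries.X = PowerSeries.X := by simp [evS]

theorem coeff_evS (σ : ℂ) (n : ℕ) (w : Out) :
    PowerSeries.coeff n (evS σ w) = (PowerSeries.coeff n w).eval σ := by
  simp [evS, PowerSeries.coeff_map]

/-- a nonzero Laurent series is `λ^e` times a unit power series -/
theorem unit_form (f : Lam) (hf : f ≠ 0) :
    ∃ (e : ℤ) (p : PowerSeries ℂ), PowerSeries.constantCoeff p ≠ 0 ∧ f = lam ^ e * jL p := by
  obtain ⟨n, p, hp⟩ := exists_pow_mul f
  have hp0 : p ≠ 0 := by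
    rintro rfl
    rw [map_zero] at hp
    exact (mul_ne_zero (pow_ne_zero n lam_ne_zero) hf) hp
  obtain ⟨m, q, hq, hpq⟩ : ∃ (m : ℕ) (q : PowerSeries ℂ),
      PowerSeries.constantCoeff q ≠ 0 ∧ p = PowerSeries.X ^ m * q := by
    have hfin : FiniteMultiplicity (PowerSeries.X : PowerSeries ℂ) p :=
      FiniteMultiplicity.of_not_isUnit (by
        intro h
        have := h.map (PowerSeries.constantCoeff (R := ℂ))
        simp at this) hp0
    obtain ⟨q, h1, h2⟩ := hfin.exists_eq_pow_mul_and_not_dvd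
    exact ⟨_, q, fun h => h2 (PowerSeries.X_dvd_iff.mpr h), h1⟩
  refine ⟨(m : ℤ) - n, q, hq, ?_⟩
  have h1 : lam ^ n * f = lam ^ n * (lam ^ ((m : ℤ) - n) * jL q) := by
    rw [hp, hpq, map_mul, map_pow, jL_X, ← mul_assoc, ← zpow_natCast lam n, ← zpow_add₀ lam_ne_zero]
    rw [add_sub_cancel, zpow_natCast]
  exact mul_left_cancel₀ (pow_ne_zero n lam_ne_zero) h1

end RC
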