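import Pool.Agent.Work.MP_0ac1ea_ag.RC.CStmts5
import Pool.Agent.Work.MP_0ac1ea_ag.RC.Basic

/-!
# Assembly of the core step and of the core theorem
-/

open Polynomial

namespace RC

/-- the Newton lemma (d') -/
def S_NEWT0 : Prop := ∀ (k₁ : Subfield ℂ) (L : Type) [Field L] [Algebra k₁ L] (M n : ℕ)
  (y : Fin M → L) (t : Fin n → L) (_ : IsTranscendenceBasis k₁ t) (y0 : L →+* ℂ)
  (_ : Ov k₁ (RingHom.id ℂ) y0) (G : L →+* Ann) (_ : Ov k₁ cA G)
  (_ : ∀ l, PowerSeries.constantCoeff (G l) = cL (y0 l))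
  (_ : ∀ l, ∃ H w : W, PowerSeries.constantCoeff H ≠ 0 ∧ iW H * G l = iW w),
  ∃ (H : W) (q : ℕ), PowerSeries.constantCoeff H ≠ 0 ∧ ∀ (F : L →+* Ann), Ov k₁ cA F →
    (∀ l, ∃ p : PowerSeries ℂ, PowerSeries.constantCoeff (F l) = jL p ∧
      PowerSeries.constantCoeff p = y0 l) →
    (∀ i, ∃ ζ : W, F (t i) = G (t i) + iW (lamW * H ^ q * ζ)) →
    ∀ j, ∃ w : W, F (y j) = G (y j) + iW (lamW * w)

/-- countability -/
def S_CNT : Prop := ∀ (k₁ : Subfield ℂ) [Countable k₁] (L : Type) [Field L] [Algebra k₁ L]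
  (M : ℕ) (y : Fin M → L) (_ : IntermediateField.adjoin k₁ (Set.range y) = ⊤)
  (k : Subfield ℂ) [Countable k] (x : L →+* ℂ), ∃ k' : Subfield ℂ, Countable k' ∧ k ≤ k' ∧
    ∀ l, x l ∈ k'

theorem mem_of_isAlgebraic (k : Subfield ℂ) [IsAlgClosed k] {z : ℂ} (h : IsAlgebraic ℚ z) :
    z ∈ k := by
  have h2 : IsIntegral k z := h.isIntegral.tower_top
  have h3 := minpoly.mem_range_of_degree_eq_one k z
    (IsAlgClosed.degree_eq_one_of_irreducible k (minpoly.irreducible h2))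
  obtain ⟨b, hb⟩ := h3
  rw [← hb]; exact b.2

theorem exists_X_pow (p : PowerSeries ℂ) (hp : p ≠ 0) :
    ∃ (m : ℕ) (w : PowerSeries ℂ), PowerSeries.X ^ m = p * w := by
  obtain ⟨m, q, hq, hpq⟩ : ∃ (m : ℕ) (q : PowerSeries ℂ),
      PowerSeries.constantCoeff q ≠ 0 ∧ p = PowerSeries.X ^ m * q := by
    have hfin : FiniteMultiplicity (PowerSeries.X : PowerSeries ℂ) p :=
      FiniteMultiplicity.of_not_isUnit (by
        intro h
        have := h.map (PowerSeries.constantCoeff (R := ℂ))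
        simp at this) hp
    obtain ⟨q, h1, h2⟩ := hfin.exists_eq_pow_mul_and_not_dvd
    exact ⟨_, q, fun h => h2 (PowerSeries.X_dvd_iff.mpr h), h1⟩
  refine ⟨m, q⁻¹, ?_⟩
  rw [hpq, mul_assoc, PowerSeries.mul_inv_cancel _ hq, mul_one]

theorem asm_STEP (hARC : S_ARC) (hG : S_G) (hNEWT : S_NEWT0) (hDER : S_DER) (hGENAI : S_GENAI)
    (hEPS : S_EPS) (hDEXT : S_DEXT) (hEVU : S_EVU) (hTH : S_TH) (hJ1 : S_J1) (hJ2 : S_J2)
    (hJ3 : S_J3) (hEQ : S_EQ) (hO1 : S_O1) (hO2 : S_O2) (hO3 : S_O3) (hO4 : S_O4)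
    (hPSI : S_PSI) (hPCERT : S_PCERT) (hPVAL : S_PVAL) (hPIN : S_PIN) (hEMB : S_EMB)
    (hMAPK : S_MAPK) (hMOB : S_MOB) (hTB : S_TB) (hROOT : S_ROOT) (hCNT : S_CNT) : S_STEP := by
  intro k₁ k hk hk1 hkc hkcount L _ _ ι _ M y hy S y0 x hy0 hx hy0k hxg r ci zz hzz hC i0 z hz
  obtain ⟨f, ν, hf, hcert, h0, hinf, halg, hmarks⟩ := hC
  obtain ⟨n, c, htb⟩ := hTB k₁ L M y hy
  have hai : AlgebraicIndependent k (fun i => x (y (c i))) :=
    hGENAI k₁ k hk L x hx hxg n _ htb.1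
  have hDex : ∀ j : Fin n, ∃ D : Derivation ℤ ℂ ℂ, (∀ c ∈ k, D c = 0) ∧
      ∀ i, D (x (y (c i))) = if i = j then 1 else 0 := fun j => hDER k n _ hai _
  choose D hDk hDx using hDex
  obtain ⟨ε, hε⟩ := hEPS k n D hDk
  obtain ⟨Da, Xi, hDaOv, hDaC, hDa0, hDaInf, hDaz⟩ := hARC k₁ k hk L ι M y hy S y0 x hy0 hx hy0k
    hxg f hf hcert h0 hinf i0 z hz
  obtain ⟨G, hGOv, hG0, hGden, ⟨e, he, hez⟩, ⟨N, d, hd, hdc⟩⟩ := hG k₁ L ι M y S y0 Da Xi hDaOv
    hDaC hDa0 hDaInf i0 z hDaz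
  obtain ⟨H, q, hH, hNewt⟩ := hNEWT k₁ L M n y (fun i => y (c i)) htb y0 hy0 G hGOv hG0 hGden
  -- the modulus
  have hω0 : PowerSeries.constantCoeff (lamW * H ^ q) ≠ 0 := by
    rw [map_mul, map_pow, lamW, PowerSeries.constantCoeff_C]
    exact mul_ne_zero PowerSeries.X_ne_zero (pow_ne_zero _ hH)
  obtain ⟨m, hm1, w0, hw0⟩ : ∃ m, 1 ≤ m ∧ ∃ w0 : PowerSeries ℂ,
      PowerSeries.X ^ m = PowerSeries.constantCoeff (lamW * H ^ q) * w0 := by
    obtain ⟨m, w, hw⟩ := exists_X_pow _ hω0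
    refine ⟨m + 1, Nat.le_add_left 1 m, PowerSeries.X * w, ?_⟩
    rw [pow_succ, hw]; ring
  obtain ⟨ev, hevC, hevX⟩ := hEVU m hm1
  choose D' hD'C hD'X using fun i => hDEXT (D i)
  obtain ⟨θ, hθC, hθX, hθred, hθdiff⟩ := hTH k n D ε hε m hm1 ev hevC hevX D' hD'C hD'X
  have hJdet : (Matrix.of fun i j => ev (D' j (f (y (c i)))) : Matrix (Fin n) (Fin n) Lam).det
      ≠ 0 := by
    have h1 := hJ1 n D D' hD'C hD'X (fun i => f (y (c i))) (fun i => x (y (c i)))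
      (fun i => hinf _) (fun i j => hDx j i)
    have h2 : (Matrix.of fun i j => ev (D' j (f (y (c i)))) : Matrix (Fin n) (Fin n) Lam)
        = ev.mapMatrix (Matrix.of fun i j => D' j (f (y (c i)))) := by
      ext i j; simp
    rw [h2, ← RingHom.map_det]
    intro h
    exact h1 (ev.injective (by rw [h, map_zero]))
  have hJω : ∀ i j, ∃ w : PowerSeries ℂ, (Matrix.of fun i j => ev (D' j (f (y (c i)))) :
      Matrix (Fin n) (Fin n) Lam) i j = jL (PowerSeries.constantCoeff (lamW * H ^ q) * w) := by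
    intro i j
    have h1 := hJ2 (D j) (D' j) (hD'C j) (hD'X j) (f (y (c i))) _ (h0 (y (c i)))
    rw [hDk j _ (hy0k _)] at h1
    obtain ⟨p, hp⟩ := hJ3 m hm1 ev hevC hevX _ _ h1
    refine ⟨w0 * p, ?_⟩
    rw [Matrix.of_apply, hp, map_zero, zero_add, ← mul_assoc, ← hw0]
  have hP0 : ∀ (a : Small n) (i : Fin n), ∃ w : PowerSeries ℂ,
      PowerSeries.constantCoeff (θ a (f (y (c i)))) - PowerSeries.constantCoeff (G (y (c i)))
        = jL (PowerSeries.constantCoeff (lamW * H ^ q) * w) := by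
    intro a i
    obtain ⟨p, hp⟩ := hJ3 m hm1 ev hevC hevX _ _ (h0 (y (c i)))
    refine ⟨w0 * p, ?_⟩
    rw [hθred, hp, hG0, ← mul_assoc, ← hw0]
    ring
  obtain ⟨a, ζ, ha0, haeq⟩ := hEQ n (fun a i => θ a (f (y (c i))))
    (Matrix.of fun i j => ev (D' j (f (y (c i))))) hJdet
    (fun a a' N hN haa i => by
      have := hθdiff (f (y (c i))) a a' N hN haa
      simpa using this)
    (lamW * H ^ q) hω0 hJω (fun i => G (y (c i))) hP0
  -- the outside curve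
  have hΨOv : Ov k₁ cA ((θ a).comp f) := by
    intro cc
    rw [RingHom.comp_apply, hf cc]
    have : cR (cc : ℂ) = RatFunc.C (cc : ℂ) := rfl
    rw [this, hθC, hε.const a _ (hk cc.2), iO_C, iS_C]
    rfl
  have hΨres : ∀ l, ∃ p : PowerSeries ℂ,
      PowerSeries.constantCoeff (((θ a).comp f) l) = jL p ∧ PowerSeries.constantCoeff p = y0 l := by
    intro l
    obtain ⟨p, hp⟩ := hJ3 m hm1 ev hevC hevX _ _ (h0 l)
    refine ⟨PowerSeries.C (y0 l) + PowerSeries.X ^ m * p, ?_, ?_⟩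
    · rw [RingHom.comp_apply, hθred, hp, map_add, jL_C]
    · rw [map_add, map_mul, map_pow, PowerSeries.constantCoeff_X, PowerSeries.constantCoeff_C,
        zero_pow (by omega), zero_mul, add_zero]
  have hN2 : ∀ j, ∃ w : W, ((θ a).comp f) (y j) = G (y j) + iW (lamW * w) :=
    hNewt _ hΨOv hΨres (fun i => ⟨ζ i, haeq i⟩)
  have hTP : ThProps (ε a) m (θ a) := ⟨hθC a, hθX a, hε.red a⟩
  have hin : ∀ j, ∃ H w : W, PowerSeries.constantCoeff H ≠ 0 ∧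
      iW H * ((θ a).comp f) (y j) = iW w := by
    intro j
    obtain ⟨H', w', h1, h2⟩ := hGden (y j)
    obtain ⟨w, hw⟩ := hN2 j
    refine ⟨H', w' + H' * (lamW * w), h1, ?_⟩
    rw [hw, mul_add, h2, ← map_mul, ← map_add]
  have hout : ∀ j, ∃ Q q : Out, PowerSeries.constantCoeff Q ≠ 0 ∧
      iO Q * ((θ a).comp f) (y j) = iO q :=
    fun j => hO1 (ε a) m hm1 (θ a) hTP (f (y j))
  obtain ⟨ψ, hψOv, hRel⟩ := hPSI k₁ L M y hy _ hΨOv hin hout
  have hψC : Cert y S ψ := by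
    refine hPCERT L ι M y S _ ψ hRel ⟨N, d, hd, ?_⟩ (hO2 (ε a) m hm1 (θ a) hTP L ι M y S f hcert)
    intro i j hj
    obtain ⟨w', h2⟩ := hdc i j hj
    obtain ⟨w, hw⟩ := hN2 j
    refine ⟨w' + d i * (lamW * w), ?_⟩
    rw [hw, mul_add, h2, ← map_mul, ← map_add]
  have hψinf : ∀ l, RegValInf (ψ l) (cL (x l)) := fun l =>
    (hPVAL _ _ (hRel l) 0 (x l) (hO4 (ε a) (hε.inf a ha0) m hm1 (θ a) hTP (f l) _ (hinf l))).2 rfl
  have hψ1 : ∀ l, RegVal (ψ l) (cL 1) (cL (y0 l)) := by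
    intro l
    have h1 := hO3 k (ε a) (hε.const a) m hm1 (θ a) hTP (f l) 0 (y0 l) 1 k.zero_mem (hy0k l) (h0 l)
      one_ne_zero (by simp)
    have h2 := (hPVAL _ _ (hRel l) 1 (y0 l) h1).1 one_ne_zero
    simpa using h2
  choose μ hμalg hμ0 hμν using fun t => hROOT m hm1 (ν t) (halg t)
  have hνk : ∀ t, ν t ∈ k := by
    intro t
    exact mem_of_isAlgebraic k (halg t)
  have hψmarks : ∀ t, ∀ j ∈ S (ci t), RegVal (ψ (y j)) (cL (μ t)) (cL (zz t j)) := by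
    intro t j hj
    have h1 := hO3 k (ε a) (hε.const a) m hm1 (θ a) hTP (f (y j)) (ν t) (zz t j) (μ t)⁻¹ (hνk t)
      (hk ((hzz t).1 j hj)) (hmarks t j hj) (inv_ne_zero (hμ0 t)) (by rw [inv_inv]; exact hμν t)
    have h2 := (hPVAL _ _ (hRel (y j)) _ _ h1).1 (inv_ne_zero (hμ0 t))
    rwa [inv_inv] at h2
  have hψz : ∀ j ∈ S i0, RegVal (ψ (y j)) 0 (cL (z j)) := by
    intro j hj
    obtain ⟨w', h1, h2⟩ := hez j hj
    obtain ⟨w, hw⟩ := hN2 j
    refine hPIN _ _ (hRel (y j)) (z j) e (w' + e * (lamW * w)) he ?_ ?_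
    · rw [hw, mul_add, h1, ← map_mul, ← map_add]
    · rw [map_add, map_mul, map_mul, modLam_lamW, zero_mul, mul_zero, add_zero, h2]
  -- embedding into ℂ
  have : Countable k₁ := Set.Countable.mono (s₁ := (k₁ : Set ℂ)) (s₂ := (k : Set ℂ)) hk
    (Set.countable_coe_iff.mp hkcount)
  obtain ⟨k', hk'c, hkk', hxk'⟩ := hCNT k₁ L M y hy k x
  have := hk'c
  obtain ⟨θE, hθE⟩ := hEMB k'
  obtain ⟨g, hgC, hgV, hgI, hgK⟩ := hMAPK L ι M y S Lam ℂ θE ψ hψC
  obtain ⟨g', hg'C, hg'V, hg'I, hg'K⟩ := hMOB L ι M y S g hgC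
  refine ⟨g', Fin.snoc (fun t => 1 - μ t) 1, ?_, hg'C, ?_, ?_, ?_, ?_⟩
  · intro cc
    have h1 := hψOv cc
    have h2 := hgK _ _ (h1.trans (rfl : cRL (cc : ℂ) = RatFunc.C (cL (cc : ℂ))))
    rw [hθE _ (hkk' (hk cc.2))] at h2
    exact hg'K _ _ h2
  · intro l
    have h1 := hgV _ _ _ (hψ1 l)
    rw [hθE _ (hkk' (hy0k l)), hθE _ k'.one_mem] at h1
    have h2 := hg'V _ _ _ h1
    simpa using h2
  · intro l
    have h1 := hgI _ _ (hψinf l)
    rw [hθE _ (hxk' l)] at h1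
    exact hg'I _ _ h1
  · intro t
    refine Fin.lastCases ?_ (fun t => ?_) t
    · simpa using isAlgebraic_one
    · simpa using (isAlgebraic_one (R := ℚ) (A := ℂ)).sub (hμalg t)
  · intro t
    refine Fin.lastCases ?_ (fun t => ?_) t
    · intro j hj
      simp only [Fin.snoc_last] at hj ⊢
      have h1 := hgV _ _ _ (hψz j hj)
      rw [hθE _ (hkk' (hk (hz.1 j hj))), map_zero] at h1
      have h2 := hg'V _ _ _ h1
      simpa using h2
    · intro j hj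
      simp only [Fin.snoc_castSucc] at hj ⊢
      have h1 := hgV _ _ _ (hψmarks t j hj)
      have hμk : μ t ∈ k := by
        exact mem_of_isAlgebraic k (hμalg t)
      rw [hθE _ (hkk' hμk), hθE _ (hkk' (hk ((hzz t).1 j hj)))] at h1
      exact hg'V _ _ _ h1

/-- the core theorem from the core step -/
theorem asm_CORE (hSTEP : S_STEP) : S_CORE := by
  intro k₁ k hk hk1 hkc hkcount L _ _ ι _ M y hy S y0 x hy0 hx hy0k hxg hC0 r
  induction r with
  | zero =>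
    intro ci zz _
    have h1 : ci = Fin.elim0 := funext fun i => i.elim0
    have h2 : zz = Fin.elim0 := funext fun i => i.elim0
    rw [h1, h2]; exact hC0
  | succ r ih =>
    intro ci zz hzz
    have h1 := hSTEP k₁ k hk L ι M y hy S y0 x hy0 hx hy0k hxg r (Fin.init ci) (Fin.init zz)
      (fun t => hzz t.castSucc) (ih _ _ (fun t => hzz t.castSucc)) (ci (Fin.last r))
      (zz (Fin.last r)) (hzz (Fin.last r))
    rwa [Fin.snoc_init_self, Fin.snoc_init_self] at h1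

end RC
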