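import Pool.Agent.Work.MP_0ac1ea_ag.RC.CStmts6
import Pool.Agent.Work.MP_0ac1ea_ag.RC.AsmStep

namespace RC

theorem NEWT0_of_NEWT (h : S_NEWT) : S_NEWT0 := by
  intro k₁ L _ _ M n y t ht y0 _ G hG hG0 hGd
  obtain ⟨H, q, hH, hF⟩ := h k₁ L M n y t ht y0 G hG hG0 hGd
  refine ⟨H, q, hH, fun F hFO hFr hFt j => ?_⟩
  choose ζ hζ using hFt
  exact hF F hFO hFr ζ hζ j

end RC
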