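import Pool.Agent.Work.MP_0ac1ea_ag.RC.CStmts3

/-!
# Item ARC: the degenerating family (assembly)
-/

open Polynomial

namespace RC

namespace ARC_aux

theorem fgField_of_fg {k : Subfield ℂ} {F : IntermediateField k ℂ} (h : F.FG) : FGField k F := by
  have h1 : Algebra.EssFiniteType k F := IntermediateField.essFiniteType_iff.2 h
  have h2 : (⊤ : IntermediateField k F).FG := IntermediateField.fg_top_iff.2 h1
  exact h2

end ARC_aux

open ARC_aux in
theorem pr_ARC (hF0 : S_F0) (hMAPK : S_MAPK) (hZREL : S_ZREL) (hLEMV : S_LEMV) : S_ARC := by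
  intro k₁ k hk _ _ _ L _ _ ι _ M y hy S y0 x hy0 hx hy0k hgen f hf hcert hreg hinf i0 z hz
  obtain ⟨F, f0, hFG, hf0c, hf0cert, hf0reg, hf0inf⟩ :=
    hF0 k₁ k hk L ι M y hy S y0 x hy0 hx hy0k f hf hcert hreg hinf
  have hFF : FGField k F := fgField_of_fg hFG
  have hxF : ∀ l, x l ∈ F := by
    intro l
    obtain ⟨v, hv, _⟩ := hf0inf l
    rw [← hv]
    exact v.2
  let xF : L →+* F := x.codRestrict F.toSubfield hxF
  have hxFv : ∀ l, ((xF l : F) : ℂ) = x l := fun l => rfl
  -- the map from the polynomial ring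
  let A := MvPolynomial {j // j ∈ S i0} k
  let φ : A →ₐ[k] F := MvPolynomial.aeval (fun j : {j // j ∈ S i0} => xF (y j))
  have hφX : ∀ j : {j // j ∈ S i0}, φ (MvPolynomial.X j) = xF (y j) :=
    fun j => MvPolynomial.aeval_X _ j
  let R : Subalgebra k F := φ.range
  have hR : R.FG := by
    have h1 : R = Algebra.adjoin k (Set.range (fun j : {j // j ∈ S i0} => xF (y j))) :=
      (Algebra.adjoin_range_eq_range_aeval k _).symm
    rw [h1]
    exact Subalgebra.fg_def.2 ⟨_, Set.finite_range _, rfl⟩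
  let zk : {j // j ∈ S i0} → k := fun j => ⟨z j, hk (hz.1 j j.2)⟩
  let χ : A →ₐ[k] k := MvPolynomial.aeval zk
  have hχX : ∀ j : {j // j ∈ S i0}, χ (MvPolynomial.X j) = zk j :=
    fun j => MvPolynomial.aeval_X _ j
  have hker : RingHom.ker φ.rangeRestrict.toRingHom ≤ RingHom.ker χ.toRingHom := by
    intro P hP
    rw [RingHom.mem_ker] at hP ⊢
    have h1 : φ P = 0 := by
      have : (φ.rangeRestrict P : R) = 0 := hP
      have h2 := congrArg (Subtype.val) this
      simpa using h2
    have h3 : MvPolynomial.eval₂ k.subtype (fun j : {j // j ∈ S i0} => x (y j)) P = 0 := by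
      have h4 : ((φ P : F) : ℂ)
          = MvPolynomial.eval₂ k.subtype (fun j : {j // j ∈ S i0} => x (y j)) P := by
        have h5 : ((algebraMap F ℂ).comp φ.toRingHom)
            = MvPolynomial.eval₂Hom k.subtype (fun j : {j // j ∈ S i0} => x (y j)) := by
          refine MvPolynomial.ringHom_ext (fun c => ?_) (fun j => ?_)
          · simp only [RingHom.comp_apply, MvPolynomial.eval₂Hom_C]
            change algebraMap F ℂ (φ (MvPolynomial.C c)) = _
            rw [← MvPolynomial.algebraMap_eq, φ.commutes]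
            rfl
          · simp only [RingHom.comp_apply, MvPolynomial.eval₂Hom_X']
            change algebraMap F ℂ (φ (MvPolynomial.X j)) = _
            rw [hφX]
            rfl
        exact congrArg (fun g => g P) h5
      rw [← h4, h1]
      rfl
    have h6 := hZREL k₁ k hk L M y (S i0) x hx hgen z hz P h3
    have h7 : ((χ P : k) : ℂ)
        = MvPolynomial.eval₂ k.subtype (fun j : {j // j ∈ S i0} => z j) P := by
      have h5 : (k.subtype.comp χ.toRingHom)
          = MvPolynomial.eval₂Hom k.subtype (fun j : {j // j ∈ S i0} => z j) := by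
        refine MvPolynomial.ringHom_ext (fun c => ?_) (fun j => ?_)
        · simp only [RingHom.comp_apply, MvPolynomial.eval₂Hom_C]
          change k.subtype (χ (MvPolynomial.C c)) = _
          rw [← MvPolynomial.algebraMap_eq, χ.commutes]
          rfl
        · simp only [RingHom.comp_apply, MvPolynomial.eval₂Hom_X']
          change k.subtype (χ (MvPolynomial.X j)) = _
          rw [hχX]
          rfl
      exact congrArg (fun g => g P) h5
    rw [h6] at h7
    exact Subtype.ext h7
  let m : R →ₐ[k] k :=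
    AlgHom.liftOfSurjective φ.rangeRestrict φ.rangeRestrict_surjective χ hker
  have hm : ∀ P, m (φ.rangeRestrict P) = χ P := fun P =>
    AlgHom.liftOfSurjective_apply φ.rangeRestrict φ.rangeRestrict_surjective χ hker P
  obtain ⟨θ, hθk, hθ⟩ := hLEMV k F hFF R hR m
  obtain ⟨D, hDcert, hDreg, hDinf, hDc⟩ := hMAPK L ι M y S F Lam θ f0 hf0cert
  refine ⟨D, θ.comp xF, ?_, hDcert, ?_, ?_, ?_⟩
  · intro c
    rw [hDc _ _ (hf0c c)]
    have h1 := hθk ⟨c, hk c.2⟩
    rw [h1]
    rfl
  · intro l
    obtain ⟨v, hv, hvr⟩ := hf0reg l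
    have h1 := hDreg l 0 v hvr
    have h2 : v = algebraMap k F ⟨y0 l, hy0k l⟩ := Subtype.ext hv
    rw [h2, hθk, map_zero] at h1
    exact h1
  · intro l
    obtain ⟨v, hv, hvr⟩ := hf0inf l
    have h1 := hDinf l v hvr
    have h2 : v = xF l := Subtype.ext hv
    rw [h2] at h1
    exact h1
  · intro j hj
    obtain ⟨p, hp1, hp2⟩ := hθ (φ.rangeRestrict (MvPolynomial.X ⟨j, hj⟩))
    refine ⟨p, ?_, ?_⟩
    · rw [← hp1]
      have h1 : ((φ.rangeRestrict (MvPolynomial.X ⟨j, hj⟩) : R) : F) = xF (y j) := by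
        exact hφX ⟨j, hj⟩
      rw [h1]
      rfl
    · rw [hp2, hm, hχX]

end RC
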