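import Pool.Agent.Work.MP_0ac1ea_ag.RC.AsmStep

namespace RC

namespace NCNT

open Cardinal

theorem countable_top (k₁ : Subfield ℂ) [Countable k₁] (L : Type) [Field L] [Algebra k₁ L]
    (M : ℕ) (y : Fin M → L) (h : IntermediateField.adjoin k₁ (Set.range y) = ⊤) :
    Countable L := by
  have h1 := IntermediateField.cardinalMk_adjoin_le k₁ (E := L) (Set.range y)
  have h2 : #(IntermediateField.adjoin k₁ (Set.range y)) ≤ ℵ₀ := by
    refine h1.trans ?_
    refine max_le (max_le ?_ ?_) le_rfl
    · exact mk_le_aleph0_iff.mpr inferInstance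
    · exact mk_le_aleph0_iff.mpr (Set.countable_range y).to_subtype
  rw [h] at h2
  have h3 : #L ≤ ℵ₀ := by
    have : #(⊤ : IntermediateField k₁ L) = #L := mk_congr IntermediateField.topEquiv.toEquiv
    rw [← this]; exact h2
  exact mk_le_aleph0_iff.mp h3

end NCNT

open Cardinal in
theorem pr_CNT : S_CNT := by
  intro k₁ _ L _ _ M y h k _ x
  have hL := NCNT.countable_top k₁ L M y h
  refine ⟨Subfield.closure ((k : Set ℂ) ∪ Set.range x), ?_, ?_, ?_⟩
  · have h1 := Subfield.cardinalMk_closure_le_max ((k : Set ℂ) ∪ Set.range x)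
    have h2 : ((k : Set ℂ) ∪ Set.range x).Countable :=
      (Set.to_countable (k : Set ℂ)).union (Set.countable_range x)
    have h3 : #((k : Set ℂ) ∪ Set.range x : Set ℂ) ≤ ℵ₀ := mk_le_aleph0_iff.mpr h2.to_subtype
    exact mk_le_aleph0_iff.mp (h1.trans (max_le h3 le_rfl))
  · intro c hc
    exact Subfield.subset_closure (Or.inl hc)
  · intro l
    exact Subfield.subset_closure (Or.inr ⟨l, rfl⟩)

end RC
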