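import Pool.Agent.Work.MP_0ac1ea_ag.RC.CStmts3

/-!
# Formal parametrisation of a point on a curve
-/

set_option autoImplicit false

open Polynomial nonZeroDivisors

namespace RC

namespace CURVE_aux

/-- a curve is dominated by a Dedekind domain which is integral over `ℂ[X]` -/
theorem exists_dedekind (T : Type) [CommRing T] [IsDomain T] [Algebra ℂ[X] T]
    [Module.Finite ℂ[X] T] [FaithfulSMul ℂ[X] T] :
    ∃ (B : Type) (_ : CommRing B) (_ : IsDomain B) (_ : IsDedekindDomain B) (_ : Algebra ℂ[X] B)
      (_ : Algebra.IsIntegral ℂ[X] B) (f : T →+* B), Function.Injective f ∧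
      ∀ p : ℂ[X], f (algebraMap ℂ[X] T p) = algebraMap ℂ[X] B p := by
  let : Algebra (FractionRing ℂ[X]) (FractionRing T) := FractionRing.liftAlgebra ℂ[X] (FractionRing T)
  have : IsScalarTower ℂ[X] (FractionRing ℂ[X]) (FractionRing T) :=
    FractionRing.isScalarTower_liftAlgebra ℂ[X] (FractionRing T)
  have : FiniteDimensional (FractionRing ℂ[X]) (FractionRing T) :=
    .of_isLocalization ℂ[X] T ℂ[X]⁰
  have : CharZero (FractionRing ℂ[X]) :=
    charZero_of_injective_algebraMap (IsFractionRing.injective ℂ[X] (FractionRing ℂ[X]))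
  have : Algebra.IsSeparable (FractionRing ℂ[X]) (FractionRing T) := inferInstance
  have hD : IsDedekindDomain (integralClosure ℂ[X] (FractionRing T)) := inferInstance
  let f : T →+* integralClosure ℂ[X] (FractionRing T) :=
    (algebraMap T (FractionRing T)).codRestrict (integralClosure ℂ[X] (FractionRing T))
      (fun t => (Algebra.IsIntegral.isIntegral (R := ℂ[X]) t).algebraMap)
  refine ⟨integralClosure ℂ[X] (FractionRing T), inferInstance, inferInstance, hD, inferInstance,
    inferInstance, f, ?_, ?_⟩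
  · intro a b hab
    exact IsFractionRing.injective T (FractionRing T) (congrArg Subtype.val hab)
  · intro p
    apply Subtype.ext
    exact (IsScalarTower.algebraMap_apply ℂ[X] T (FractionRing T) p).symm

end CURVE_aux

theorem pr_CURVE (hDVRX : S_DVRX) : S_CURVE := by
  intro T _ _ _ _ _ r hr
  obtain ⟨B, _, _, _, _, hBint, f, hf, hfp⟩ := CURVE_aux.exists_dedekind T
  let : Algebra T B := f.toAlgebra
  have hTB : IsScalarTower ℂ[X] T B := IsScalarTower.of_algebraMap_eq (fun p => (hfp p).symm)
  have hint : Algebra.IsIntegral T B := Algebra.IsIntegral.tower_top ℂ[X]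
  have hsurj : Function.Surjective r := fun c =>
    ⟨algebraMap ℂ[X] T (Polynomial.C c), by rw [hr, Polynomial.eval_C]⟩
  have hN : (RingHom.ker r).IsMaximal := RingHom.ker_isMaximal_of_surjective r hsurj
  obtain ⟨q, hq, hqN⟩ := Ideal.exists_ideal_over_maximal_of_isIntegral (S := B) (RingHom.ker r)
    (by rw [(RingHom.injective_iff_ker_eq_bot (algebraMap T B)).1 hf]; exact bot_le)
  have hmem : ∀ t : T, r t = 0 → f t ∈ q := by
    intro t ht
    have h1 : t ∈ RingHom.ker r := ht
    rw [← hqN] at h1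
    exact h1
  have hXq : algebraMap ℂ[X] B X ∈ q := by
    rw [← hfp]
    exact hmem _ (by rw [hr, Polynomial.eval_X])
  have hinj : Function.Injective (algebraMap ℂ[X] B) := by
    intro a b hab
    rw [← hfp, ← hfp] at hab
    exact FaithfulSMul.algebraMap_injective ℂ[X] T (hf hab)
  have hq0 : q ≠ ⊥ := by
    rintro rfl
    rw [Ideal.mem_bot] at hXq
    exact Polynomial.X_ne_zero (hinj (hXq.trans (map_zero _).symm))
  let : Algebra ℂ B := ((algebraMap ℂ[X] B).comp Polynomial.C).toAlgebra
  have hcomp : (Ideal.Quotient.mk q).comp (algebraMap ℂ[X] B) =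
      (algebraMap ℂ (B ⧸ q)).comp (Polynomial.evalRingHom 0) := by
    refine Polynomial.ringHom_ext (fun c => ?_) ?_
    · simp only [RingHom.comp_apply, Polynomial.coe_evalRingHom, Polynomial.eval_C]
      rfl
    · simp only [RingHom.comp_apply, Polynomial.coe_evalRingHom, Polynomial.eval_X, map_zero]
      exact Ideal.Quotient.eq_zero_iff_mem.2 hXq
  have hint2 : Algebra.IsIntegral ℂ (B ⧸ q) := by
    refine ⟨fun x => ?_⟩
    obtain ⟨b, rfl⟩ := Ideal.Quotient.mk_surjective x
    obtain ⟨P, hP, hPb⟩ := Algebra.IsIntegral.isIntegral (R := ℂ[X]) b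
    refine ⟨P.map (Polynomial.evalRingHom 0), hP.map _, ?_⟩
    rw [Polynomial.eval₂_map, ← hcomp, ← Polynomial.hom_eval₂, hPb, map_zero]
  have hbij : Function.Bijective (algebraMap ℂ (B ⧸ q)) :=
    IsAlgClosed.algebraMap_bijective_of_isIntegral
  obtain ⟨ρ, hρ⟩ : ∃ ρ : B →+* ℂ, ρ = ((RingEquiv.ofBijective (algebraMap ℂ (B ⧸ q)) hbij).symm :
    B ⧸ q →+* ℂ).comp (Ideal.Quotient.mk q) := ⟨_, rfl⟩
  have hρ1 : ∀ b, ρ b = 0 ↔ b ∈ q := by
    intro b
    rw [hρ, RingHom.comp_apply, ← Ideal.Quotient.eq_zero_iff_mem]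
    exact map_eq_zero_iff _ (RingEquiv.injective _)
  have hρ2 : ∀ c : ℂ, ρ (algebraMap ℂ B c) = c := by
    intro c
    rw [hρ, RingHom.comp_apply]
    exact RingEquiv.symm_apply_apply (RingEquiv.ofBijective (algebraMap ℂ (B ⧸ q)) hbij) c
  have hDVR : IsDiscreteValuationRing (Localization.AtPrime q) :=
    IsLocalization.AtPrime.isDiscreteValuationRing_of_dedekind_domain B hq0 (Localization.AtPrime q)
  have hunit : ∀ y : q.primeCompl, IsUnit (ρ y) := by
    intro y
    exact isUnit_iff_ne_zero.2 (fun h => y.2 ((hρ1 _).1 h))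
  let r' : Localization.AtPrime q →ₐ[ℂ] ℂ :=
    { toRingHom := IsLocalization.lift (M := q.primeCompl) hunit
      commutes' := by
        intro c
        show IsLocalization.lift (M := q.primeCompl) hunit (algebraMap ℂ (Localization.AtPrime q) c)
          = c
        rw [IsScalarTower.algebraMap_apply ℂ B (Localization.AtPrime q), IsLocalization.lift_eq,
          hρ2] }
  have hr' : ∀ b : B, r' (algebraMap B (Localization.AtPrime q) b) = ρ b := fun b =>
    IsLocalization.lift_eq (M := q.primeCompl) hunit b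
  obtain ⟨ψ, hψ1, hψ2, hψ3⟩ := hDVRX (Localization.AtPrime q) r'
  refine ⟨ψ.comp ((algebraMap B (Localization.AtPrime q)).comp f), ?_, ?_, ?_⟩
  · exact hψ1.comp ((IsLocalization.injective (Localization.AtPrime q)
      q.primeCompl_le_nonZeroDivisors).comp hf)
  · intro c
    have h1 : (algebraMap B (Localization.AtPrime q)) (f (algebraMap ℂ[X] T (Polynomial.C c))) =
        algebraMap ℂ (Localization.AtPrime q) c := by
      rw [hfp, IsScalarTower.algebraMap_apply ℂ B (Localization.AtPrime q)]
      rfl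
    rw [RingHom.comp_apply, RingHom.comp_apply, h1, hψ2]
  · intro a
    rw [RingHom.comp_apply, RingHom.comp_apply, hψ3, hr']
    have h1 : f (a - algebraMap ℂ[X] T (Polynomial.C (r a))) ∈ q := by
      refine hmem _ ?_
      rw [map_sub, hr, Polynomial.eval_C, sub_self]
    have h2 := (hρ1 _).2 h1
    rw [map_sub, map_sub, hfp, sub_eq_zero] at h2
    rw [h2]
    exact hρ2 (r a)

end RC
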