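import Pool.Agent.Work.MP_0ac1ea_ag.RC.CStmts2

namespace RC

namespace DER_aux

universe u

open TensorProduct KaehlerDifferential

/-- extension of a derivation along a formally etale extension -/
theorem ext_etale (R P E : Type u) [CommRing R] [CommRing P] [CommRing E] [Algebra R P]
    [Algebra R E] [Algebra P E] [IsScalarTower R P E] [Algebra.FormallyEtale P E]
    (d : Derivation R P E) :
    ∃ D : Derivation R E E, ∀ p : P, D (algebraMap P E p) = d p := by
  let g : E ⊗[P] Ω[P⁄R] →ₗ[E] E := LinearMap.liftBaseChange E d.liftKaehlerDifferential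
  let e := KaehlerDifferential.tensorKaehlerEquivOfFormallyEtale R P E
  refine ⟨(g ∘ₗ e.symm.toLinearMap).compDer (KaehlerDifferential.D R E), fun p => ?_⟩
  have h1 : e.symm (KaehlerDifferential.D R E (algebraMap P E p)) =
      (1 : E) ⊗ₜ[P] KaehlerDifferential.D R P p :=
    KaehlerDifferential.tensorKaehlerEquivOfFormallyEtale_symm_D_algebraMap R P E p
  change g (e.symm (KaehlerDifferential.D R E (algebraMap P E p))) = d p
  rw [h1]
  simp [g]

theorem etale_of_trb (k E : Type u) [Field k] [Field E] [CharZero k] [Algebra k E] {ι : Type u}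
    (x : ι → E) (hx : IsTranscendenceBasis k x) [Algebra (MvPolynomial ι k) E]
    [IsScalarTower k (MvPolynomial ι k) E]
    (hal : ∀ p : MvPolynomial ι k, algebraMap (MvPolynomial ι k) E p = MvPolynomial.aeval x p) :
    Algebra.FormallyEtale (MvPolynomial ι k) E := by
  have hinj : Function.Injective (algebraMap (MvPolynomial ι k) E) := by
    intro p q hpq
    rw [hal, hal] at hpq
    exact hx.1 hpq
  have : FaithfulSMul (MvPolynomial ι k) E :=
    (faithfulSMul_iff_algebraMap_injective _ _).mpr hinj
  let : Algebra (FractionRing (MvPolynomial ι k)) E := FractionRing.liftAlgebra _ _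
  have : IsScalarTower (MvPolynomial ι k) (FractionRing (MvPolynomial ι k)) E :=
    FractionRing.isScalarTower_liftAlgebra _ _
  have h1 := hx.isAlgebraic
  have h2 : Algebra.IsAlgebraic (MvPolynomial ι k) E := by
    refine (Algebra.isAlgebraic_ringHom_iff_of_comp_eq (R := MvPolynomial ι k)
      (S := Algebra.adjoin k (Set.range x)) (A := E) (B := E)
      hx.1.aevalEquiv.toRingEquiv (RingEquiv.refl E) ?_).mp h1
    refine RingHom.ext fun p => ?_
    change algebraMap (Algebra.adjoin k (Set.range x)) E (hx.1.aevalEquiv p) =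
      algebraMap (MvPolynomial ι k) E p
    rw [hx.1.algebraMap_aevalEquiv, hal]
  have h3 : Algebra.IsAlgebraic (FractionRing (MvPolynomial ι k)) E :=
    (IsFractionRing.comap_isAlgebraic_iff (A := MvPolynomial ι k)
      (K := FractionRing (MvPolynomial ι k)) (C := E)).mp h2
  have : CharZero (FractionRing (MvPolynomial ι k)) := inferInstance
  have : Algebra.IsSeparable (FractionRing (MvPolynomial ι k)) E := inferInstance
  have : Algebra.FormallyEtale (FractionRing (MvPolynomial ι k)) E :=
    Algebra.FormallyEtale.of_isSeparable _ _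
  have : Algebra.FormallyEtale (MvPolynomial ι k) (FractionRing (MvPolynomial ι k)) :=
    Algebra.FormallyEtale.of_isLocalization (nonZeroDivisors _)
  exact Algebra.FormallyEtale.comp (MvPolynomial ι k) (FractionRing (MvPolynomial ι k)) E

/-- general lemma: derivations with prescribed values on algebraically independent elements -/
theorem exists_der (k E : Type u) [Field k] [Field E] [CharZero k] [Algebra k E] {n : ℕ}
    (t : Fin n → E) (ht : AlgebraicIndependent k t) (v : Fin n → E) :
    ∃ D : Derivation k E E, ∀ i, D (t i) = v i := by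
  classical
  obtain ⟨s, hs, hb⟩ := exists_isTranscendenceBasis_superset (R := k) (s := Set.range t)
    ((algebraicIndependent_subtype_range ht.injective).mpr ht)
  let : Algebra (MvPolynomial s k) E :=
    (MvPolynomial.aeval (R := k) ((↑) : s → E)).toRingHom.toAlgebra
  have : IsScalarTower k (MvPolynomial s k) E := by
    refine IsScalarTower.of_algebraMap_eq (fun a => ?_)
    change _ = MvPolynomial.aeval (R := k) ((↑) : s → E) (algebraMap k (MvPolynomial s k) a)
    simp
  have := etale_of_trb k E ((↑) : s → E) hb (fun p => rfl)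
  let w : s → E := fun j => if h : ∃ i, t i = j then v h.choose else 0
  obtain ⟨D, hD⟩ := ext_etale k (MvPolynomial s k) E (MvPolynomial.mkDerivation k w)
  refine ⟨D, fun i => ?_⟩
  have hi : t i ∈ s := hs ⟨i, rfl⟩
  have h := hD (MvPolynomial.X ⟨t i, hi⟩)
  have e1 : algebraMap (MvPolynomial s k) E (MvPolynomial.X ⟨t i, hi⟩) = t i := by
    change MvPolynomial.aeval (R := k) ((↑) : s → E) (MvPolynomial.X ⟨t i, hi⟩) = t i
    simp
  rw [e1, MvPolynomial.mkDerivation_X] at h
  rw [h]
  have hex : ∃ i', t i' = ((⟨t i, hi⟩ : s) : E) := ⟨i, rfl⟩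
  have : w ⟨t i, hi⟩ = v hex.choose := dif_pos hex
  rw [this]
  congr 1
  exact ht.injective hex.choose_spec

end DER_aux

theorem pr_DER : S_DER := by
  intro k n t ht v
  obtain ⟨D, hD⟩ := DER_aux.exists_der k ℂ t ht v
  refine ⟨D.restrictScalars ℤ, ?_, fun i => hD i⟩
  intro c hc
  exact D.map_algebraMap (⟨c, hc⟩ : k)

end RC
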