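import Pool.Agent.Work.MP_0ac1ea_ag.RC.CStmts3

/-!
# Item DVRX: power series expansion in a discrete valuation ring
-/

open Polynomial

namespace RC

namespace DVRX_aux

variable {O : Type} [CommRing O] [IsDomain O] [IsDiscreteValuationRing O] [Algebra ℂ O]

theorem ker_eq (r : O →ₐ[ℂ] ℂ) : RingHom.ker r = IsLocalRing.maximalIdeal O := by
  have hs : Function.Surjective r := fun c => ⟨algebraMap ℂ O c, by simp⟩
  have : (RingHom.ker r).IsMaximal := RingHom.ker_isMaximal_of_surjective r hs
  exact IsLocalRing.eq_maximalIdeal this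

theorem ex_q (r : O →ₐ[ℂ] ℂ) (p : O) (hp : Irreducible p) (a : O) :
    ∃ q : O, a = algebraMap ℂ O (r a) + p * q := by
  have h1 : a - algebraMap ℂ O (r a) ∈ RingHom.ker r := by
    rw [RingHom.mem_ker, map_sub, AlgHom.commutes]
    simp
  rw [ker_eq r, hp.maximalIdeal_eq, Ideal.mem_span_singleton] at h1
  obtain ⟨q, hq⟩ := h1
  exact ⟨q, by rw [← hq]; ring⟩

end DVRX_aux

open DVRX_aux in
theorem pr_DVRX : S_DVRX := by
  intro O _ _ _ _ r
  obtain ⟨p, hp⟩ := IsDiscreteValuationRing.exists_irreducible O
  choose q hq using ex_q r p hp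
  have hp0 : p ≠ 0 := hp.ne_zero
  have rp : r p = 0 := by
    have : p ∈ RingHom.ker r := by
      rw [ker_eq r, hp.maximalIdeal_eq]
      exact Ideal.mem_span_singleton_self p
    exact this
  -- uniqueness
  have huniq : ∀ (a : O) (c : ℂ) (b : O), a = algebraMap ℂ O c + p * b → r a = c ∧ q a = b := by
    intro a c b h
    have h1 : r a = c := by
      rw [h, map_add, map_mul, rp, zero_mul, add_zero, AlgHom.commutes]; rfl
    refine ⟨h1, ?_⟩
    have h2 := hq a
    rw [h1] at h2
    have h3 : p * q a = p * b := by
      have := h2.symm.trans h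
      exact add_left_cancel this
    exact mul_left_cancel₀ hp0 h3
  have qadd : ∀ a b, q (a + b) = q a + q b := by
    intro a b
    refine (huniq (a + b) (r a + r b) (q a + q b) ?_).2
    conv_lhs => rw [hq a, hq b]
    rw [map_add]; ring
  have qmul : ∀ a b, q (a * b) = algebraMap ℂ O (r a) * q b + q a * b := by
    intro a b
    refine (huniq (a * b) (r a * r b) _ ?_).2
    have e1 : a * b = (algebraMap ℂ O (r a) + p * q a) * b := by rw [← hq a]
    have e2 : algebraMap ℂ O (r a) * b
        = algebraMap ℂ O (r a) * (algebraMap ℂ O (r b) + p * q b) := by rw [← hq b]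
    rw [e1, add_mul, e2, map_mul]; ring
  have qconst : ∀ c : ℂ, q (algebraMap ℂ O c) = 0 := by
    intro c
    exact (huniq (algebraMap ℂ O c) c 0 (by simp)).2
  have qsmul : ∀ (c : ℂ) (b : O), q (algebraMap ℂ O c * b) = algebraMap ℂ O c * q b := by
    intro c b
    rw [qmul, qconst, zero_mul, add_zero, AlgHom.commutes]; rfl
  -- iterates
  have itadd : ∀ n a b, q^[n] (a + b) = q^[n] a + q^[n] b := by
    intro n
    induction n with
    | zero => intro a b; rfl
    | succ n ih => intro a b; rw [Function.iterate_succ_apply, Function.iterate_succ_apply,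
        Function.iterate_succ_apply, qadd, ih]
  have itsmul : ∀ n (c : ℂ) b, q^[n] (algebraMap ℂ O c * b) = algebraMap ℂ O c * q^[n] b := by
    intro n
    induction n with
    | zero => intro a b; rfl
    | succ n ih => intro a b; rw [Function.iterate_succ_apply, Function.iterate_succ_apply,
        qsmul, ih]
  let F : O → PowerSeries ℂ := fun a => PowerSeries.mk fun n => r (q^[n] a)
  have F0 : ∀ a, PowerSeries.constantCoeff (F a) = r a := by
    intro a
    rw [← PowerSeries.coeff_zero_eq_constantCoeff_apply, PowerSeries.coeff_mk]; rfl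
  have Fs : ∀ a n, PowerSeries.coeff (n + 1) (F a) = PowerSeries.coeff n (F (q a)) := by
    intro a n
    rw [PowerSeries.coeff_mk, PowerSeries.coeff_mk, Function.iterate_succ_apply]
  have Fdec : ∀ a, F a = PowerSeries.C (r a) + PowerSeries.X * F (q a) := by
    intro a
    ext n
    rcases n with _ | n
    · rw [PowerSeries.coeff_zero_eq_constantCoeff_apply, F0]; simp
    · rw [Fs, map_add, PowerSeries.coeff_succ_X_mul, PowerSeries.coeff_C, if_neg (by omega),
        zero_add]
  have Fadd : ∀ a b, F (a + b) = F a + F b := by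
    intro a b
    ext n
    rw [map_add, PowerSeries.coeff_mk, PowerSeries.coeff_mk, PowerSeries.coeff_mk, itadd, map_add]
  have Fsmul : ∀ (c : ℂ) b, F (algebraMap ℂ O c * b) = PowerSeries.C c * F b := by
    intro c b
    ext n
    rw [PowerSeries.coeff_C_mul, PowerSeries.coeff_mk, PowerSeries.coeff_mk, itsmul, map_mul,
      AlgHom.commutes]; rfl
  have Fmul : ∀ n, ∀ a b, PowerSeries.coeff n (F (a * b)) = PowerSeries.coeff n (F a * F b) := by
    intro n
    induction n with
    | zero => intro a b; rw [PowerSeries.coeff_zero_eq_constantCoeff_apply,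
        PowerSeries.coeff_zero_eq_constantCoeff_apply, map_mul, F0, F0, F0, map_mul]
    | succ n ih =>
      intro a b
      rw [Fs, qmul, Fadd, Fsmul]
      have h1 : F a * F b = PowerSeries.C (r a) * F b + PowerSeries.X * (F (q a) * F b) := by
        conv_lhs => rw [Fdec a]
        ring
      rw [h1, map_add, map_add, PowerSeries.coeff_succ_X_mul, PowerSeries.coeff_C_mul,
        PowerSeries.coeff_C_mul, Fs, ih]
  have Fconst : ∀ c : ℂ, F (algebraMap ℂ O c) = PowerSeries.C c := by
    intro c
    rw [Fdec, qconst]
    have hz : F 0 = 0 := by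
      have := Fadd 0 0
      rw [add_zero] at this
      exact left_eq_add.mp this
    rw [hz, mul_zero, add_zero, AlgHom.commutes]; rfl
  have Fone : F 1 = 1 := by
    have := Fconst 1
    rwa [map_one, map_one] at this
  have Fzero : F 0 = 0 := by
    have := Fadd 0 0
    rw [add_zero] at this
    exact left_eq_add.mp this
  let ψ : O →+* PowerSeries ℂ :=
    { toFun := F
      map_one' := Fone
      map_mul' := fun a b => by ext n; exact Fmul n a b
      map_zero' := Fzero
      map_add' := Fadd }
  refine ⟨ψ, ?_, Fconst, F0⟩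
  rw [injective_iff_map_eq_zero]
  intro a ha
  have hFa : F a = 0 := ha
  by_contra hne
  have key : ∀ n, ∀ b : O, F b = 0 → p ^ n ∣ b := by
    intro n
    induction n with
    | zero => intro b _; simp
    | succ n ih =>
      intro b hb
      have h0 : r b = 0 := by rw [← F0, hb, map_zero]
      have h1 : F (q b) = 0 := by
        ext m
        rw [← Fs, hb, map_zero, map_zero]
      obtain ⟨c, hc⟩ := ih _ h1
      refine ⟨c, ?_⟩
      rw [hq b, h0, map_zero, zero_add, hc]; ring
  obtain ⟨n, hn⟩ := IsDiscreteValuationRing.associated_pow_irreducible hne hp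
  have h1 : p ^ (n + 1) ∣ p ^ n := (key (n + 1) a hFa).trans hn.dvd
  have h2 := (pow_dvd_pow_iff hp0 hp.not_isUnit).mp h1
  omega

end RC
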