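import Pool.Agent.Work.MP_0ac1ea_ag.RC.CStmts5
import Pool.Agent.Work.MP_0ac1ea_ag.RC.Basic

/-!
# An embedding of `ℂ((η))` into `ℂ` over a countable subfield
-/

set_option autoImplicit false

open Cardinal

namespace RC

namespace NEMB

theorem embed {k E F : Type} [Field k] [Field E] [Field F] [Algebra k E] [Algebra k F]
    [IsAlgClosed F] {ι κ : Type} (x : ι → E) (hx : IsTranscendenceBasis k x) (w : κ → F)
    (hw : AlgebraicIndependent k w) (e : ι ↪ κ) : Nonempty (E →ₐ[k] F) := by
  have hw' : AlgebraicIndependent k (w ∘ e) := hw.comp e e.injective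
  let f : IntermediateField.adjoin k (Set.range x) →ₐ[k] F :=
    (IsFractionRing.liftAlgHom (K := FractionRing (MvPolynomial ι k))
      (algebraicIndependent_iff_injective_aeval.2 hw')).comp
      (hx.1.aevalEquivField.symm : _ →ₐ[k] FractionRing (MvPolynomial ι k))
  let : Algebra (IntermediateField.adjoin k (Set.range x)) F := f.toRingHom.toAlgebra
  have : IsScalarTower k (IntermediateField.adjoin k (Set.range x)) F :=
    IsScalarTower.of_algebraMap_eq (fun r => (f.commutes r).symm)
  have := hx.isAlgebraic_field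
  let g : E →ₐ[IntermediateField.adjoin k (Set.range x)] F := IsAlgClosed.lift
  exact ⟨g.restrictScalars k⟩

theorem card_Lam : #Lam ≤ 𝔠 := by
  have hinj : Function.Injective (fun (f : LaurentSeries ℂ) => (f.coeff : ℤ → ℂ)) :=
    HahnSeries.coeff_injective
  have h1 : #(LaurentSeries ℂ) ≤ #(ℤ → ℂ) := Cardinal.mk_le_of_injective hinj
  refine le_trans h1 ?_
  have h2 : #(ℤ → ℂ) = 𝔠 := by
    rw [← Cardinal.power_def, Cardinal.mk_complex, Cardinal.mk_int, Cardinal.continuum_power_aleph0]
  rw [h2]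

end NEMB

theorem pr_EMB : S_EMB := by
  intro k hk
  let : Algebra k Lam := (cL.comp k.subtype).toAlgebra
  have : FaithfulSMul k Lam :=
    (faithfulSMul_iff_algebraMap_injective k Lam).2 (algebraMap k Lam).injective
  obtain ⟨ι, x, hx⟩ := exists_isTranscendenceBasis' k Lam
  obtain ⟨κ, w, hw⟩ := exists_isTranscendenceBasis' k ℂ
  have hκ : #ℂ = #κ :=
    IsAlgClosed.cardinal_eq_cardinal_transcendence_basis_of_aleph0_lt' w hw
      (Cardinal.mk_le_aleph0) (by rw [Cardinal.mk_complex]; exact Cardinal.aleph0_lt_continuum)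
  have hι : #ι ≤ #κ := by
    rw [← hκ, Cardinal.mk_complex]
    exact le_trans (Cardinal.mk_le_of_injective hx.1.injective) NEMB.card_Lam
  obtain ⟨e⟩ := (Cardinal.le_def _ _).1 hι
  obtain ⟨θ⟩ := NEMB.embed x hx w hw.1 e
  refine ⟨θ.toRingHom, fun c hc => ?_⟩
  exact θ.commutes ⟨c, hc⟩

end RC
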