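import Pool.Agent.Work.MP_0ac1ea_ag.RC.CStmts2

/-!
# Item EVU: evaluation `C(u) → C((λ))` at `u = λ^m (1 - λ)`
-/

open Polynomial

namespace RC

theorem EVU_jL_inj : Function.Injective jL := HahnSeries.ofPowerSeries_injective

theorem EVU_inj (U : PowerSeries ℂ) (hU : U ≠ 0) (hU0 : PowerSeries.constantCoeff U = 0) :
    ∀ (n : ℕ) (p : ℂ[X]), p.natDegree ≤ n →
      Polynomial.eval₂ (PowerSeries.C (R := ℂ)) U p = 0 → p = 0 := by
  intro n
  induction n with
  | zero =>
    intro p hp h
    have h1 := Polynomial.eq_C_of_natDegree_le_zero hp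
    rw [h1, Polynomial.eval₂_C] at h
    have h2 : p.coeff 0 = 0 := by
      have := congrArg PowerSeries.constantCoeff h
      simpa using this
    rw [h1, h2, map_zero]
  | succ n ih =>
    intro p hp h
    have h1 := Polynomial.divX_mul_X_add p
    have h2 : PowerSeries.constantCoeff (Polynomial.eval₂ (PowerSeries.C (R := ℂ)) U p) =
        p.coeff 0 := by
      rw [← h1, Polynomial.eval₂_add, Polynomial.eval₂_mul, Polynomial.eval₂_X,
        Polynomial.eval₂_C, map_add, map_mul, hU0, mul_zero, zero_add]
      simp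
    have h3 : p.coeff 0 = 0 := by
      rw [← h2, h, map_zero]
    have h4 : Polynomial.eval₂ (PowerSeries.C (R := ℂ)) U p.divX * U = 0 := by
      rw [← h1, h3, map_zero, add_zero, Polynomial.eval₂_mul, Polynomial.eval₂_X] at h
      exact h
    have h5 : p.divX = 0 := by
      refine ih p.divX ?_ ((mul_eq_zero.1 h4).resolve_right hU)
      rw [Polynomial.natDegree_divX_eq_natDegree_tsub_one]
      omega
    rw [← h1, h3, h5, zero_mul, map_zero, add_zero]

theorem pr_EVU : S_EVU := by
  intro m hm
  set U : PowerSeries ℂ := PowerSeries.X ^ m * (1 - PowerSeries.X) with hUdef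
  have hUL : uLam m = jL U := by
    rw [hUdef, map_mul, map_pow, map_sub, map_one]
    rfl
  have hU0 : PowerSeries.constantCoeff U = 0 := by
    rw [hUdef, map_mul, map_pow, PowerSeries.constantCoeff_X, zero_pow (by omega), zero_mul]
  have hU : U ≠ 0 := by
    rw [hUdef]
    refine mul_ne_zero (pow_ne_zero _ PowerSeries.X_ne_zero) ?_
    intro h
    have := congrArg PowerSeries.constantCoeff h
    rw [map_sub, PowerSeries.constantCoeff_X, map_one, map_zero, sub_zero] at this
    exact one_ne_zero this
  have hφ : ∀ p : ℂ[X], Polynomial.eval₂RingHom cL (uLam m) p =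
      jL (Polynomial.eval₂ (PowerSeries.C (R := ℂ)) U p) := by
    intro p
    rw [Polynomial.hom_eval₂, ← hUL]
    rfl
  have hinj : Function.Injective (Polynomial.eval₂RingHom cL (uLam m)) := by
    rw [injective_iff_map_eq_zero]
    intro p hp
    rw [hφ] at hp
    have h1 : Polynomial.eval₂ (PowerSeries.C (R := ℂ)) U p = 0 :=
      EVU_jL_inj (hp.trans (map_zero jL).symm)
    exact EVU_inj U hU hU0 p.natDegree p le_rfl h1
  refine ⟨IsFractionRing.lift (K := RatFunc ℂ) hinj, ?_, ?_⟩
  · intro c
    rw [← RatFunc.algebraMap_C, IsFractionRing.lift_algebraMap]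
    simp
  · rw [← RatFunc.algebraMap_X, IsFractionRing.lift_algebraMap]
    simp

end RC
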