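import Pool.Agent.Work.MP_0ac1ea_ag.RC.CStmts3

/-! Item F0: the field of definition of a curve -/

open Polynomial

namespace RC

theorem F0_aux_lift (k : Subfield ℂ) (F : IntermediateField k ℂ) (p : ℂ[X])
    (hp : ∀ n, p.coeff n ∈ F) : ∃ P : F[X], P.map (algebraMap F ℂ) = p := by
  have h : p ∈ Polynomial.lifts (algebraMap F ℂ) := by
    rw [Polynomial.lifts_iff_coeff_lifts]
    intro n
    exact ⟨⟨p.coeff n, hp n⟩, rfl⟩
  rwa [Polynomial.mem_lifts] at h

theorem pr_F0 (hMAPR : S_MAPR) : S_F0 := by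
  classical
  intro k₁ k hk L _ _ ι _ M y hy S y0 x hy0 hx hyk f hf hC hR hI
  obtain ⟨d, hd, hn⟩ := hC
  choose! nn hnn using hn
  -- the coefficients
  let T0 : Finset ℂ := (Finset.univ.biUnion fun j : Fin M => (f (y j)).num.coeffs ∪
    (f (y j)).denom.coeffs) ∪ (Finset.univ.biUnion fun i : ι => (d i).coeffs) ∪
    (Finset.univ.biUnion fun i : ι => Finset.univ.biUnion fun j : Fin M => (nn i j).coeffs)
  let F : IntermediateField k ℂ := IntermediateField.adjoin k (T0 : Set ℂ)
  have hFG : F.FG := ⟨T0, rfl⟩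
  have hsub : ∀ z ∈ T0, z ∈ F := fun z hz => IntermediateField.subset_adjoin k _ hz
  have hco : ∀ p : ℂ[X], p.coeffs ⊆ T0 → ∃ P : F[X], P.map (algebraMap F ℂ) = p := by
    intro p hp
    refine F0_aux_lift k F p fun n => ?_
    by_cases h : p.coeff n = 0
    · rw [h]; exact F.zero_mem
    · exact hsub _ (hp (Polynomial.coeff_mem_coeffs h))
  have hnum : ∀ j, (f (y j)).num.coeffs ⊆ T0 := fun j z hz => by
    refine Finset.mem_union_left _ (Finset.mem_union_left _ ?_)
    exact Finset.mem_biUnion.2 ⟨j, Finset.mem_univ _, Finset.mem_union_left _ hz⟩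
  have hden : ∀ j, (f (y j)).denom.coeffs ⊆ T0 := fun j z hz => by
    refine Finset.mem_union_left _ (Finset.mem_union_left _ ?_)
    exact Finset.mem_biUnion.2 ⟨j, Finset.mem_univ _, Finset.mem_union_right _ hz⟩
  have hdc : ∀ i, (d i).coeffs ⊆ T0 := fun i z hz => by
    refine Finset.mem_union_left _ (Finset.mem_union_right _ ?_)
    exact Finset.mem_biUnion.2 ⟨i, Finset.mem_univ _, hz⟩
  have hnc : ∀ i j, (nn i j).coeffs ⊆ T0 := fun i j z hz => by
    refine Finset.mem_union_right _ ?_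
    exact Finset.mem_biUnion.2 ⟨i, Finset.mem_univ _,
      Finset.mem_biUnion.2 ⟨j, Finset.mem_univ _, hz⟩⟩
  choose A hA using fun j => hco _ (hnum j)
  choose B hB using fun j => hco _ (hden j)
  choose D hD using fun i => hco _ (hdc i)
  choose N hN using fun i j => hco _ (hnc i j)
  obtain ⟨Θ, h1, -, -, h4, h5⟩ := hMAPR F ℂ (algebraMap F ℂ)
  have hΘC : ∀ v : F, Θ (RatFunc.C v) = RatFunc.C (v : ℂ) := by
    intro v
    rw [← RatFunc.algebraMap_C, h1, Polynomial.map_C, RatFunc.algebraMap_C]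
    rfl
  -- `f` has values in the range of `Θ`
  have hrange : ∀ l, ∃ r, Θ r = f l := by
    let E : Subfield L := Θ.fieldRange.comap f
    have hE : ∀ c : k₁, algebraMap k₁ L c ∈ E := by
      intro c
      refine Subfield.mem_comap.2 ⟨RatFunc.C (algebraMap k F ⟨c, hk c.2⟩), ?_⟩
      rw [hΘC, hf c]
      rfl
    have hle : IntermediateField.adjoin k₁ (Set.range y) ≤ E.toIntermediateField hE := by
      rw [IntermediateField.adjoin_le_iff]
      rintro _ ⟨j, rfl⟩
      show f (y j) ∈ Θ.fieldRange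
      refine ⟨algebraMap F[X] (RatFunc F) (A j) / algebraMap F[X] (RatFunc F) (B j), ?_⟩
      rw [map_div₀, h1, h1, hA, hB, RatFunc.num_div_denom]
    intro l
    have hl : l ∈ E.toIntermediateField hE := hle (by rw [hy]; trivial)
    exact hl
  choose g hg using hrange
  have hinj : Function.Injective Θ := Θ.injective
  let f0 : L →+* RatFunc F :=
    { toFun := g
      map_one' := hinj (by rw [hg, map_one, map_one])
      map_mul' := fun a b => hinj (by rw [map_mul, hg, hg, hg, map_mul])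
      map_zero' := hinj (by rw [hg, map_zero, map_zero])
      map_add' := fun a b => hinj (by rw [map_add, hg, hg, hg, map_add]) }
  have hf0 : ∀ l, Θ (f0 l) = f l := hg
  refine ⟨F, f0, hFG, ?_, ?_, ?_, ?_⟩
  · intro c
    apply hinj
    rw [hf0, hf c, hΘC]
    rfl
  · refine ⟨D, ?_, ?_⟩
    · apply Polynomial.map_injective (algebraMap F ℂ) (algebraMap F ℂ).injective
      rw [Polynomial.map_sum, Polynomial.map_one]
      simp only [hD]
      exact hd
    · intro i j hj
      refine ⟨N i j, hinj ?_⟩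
      rw [map_mul, hf0, h1, h1, hD, hN]
      exact hnn i j hj
  · intro l
    obtain ⟨v, hv1, hv2⟩ := h4 (f0 l) 0 (y0 l) (by rw [hf0, map_zero]; exact hR l)
    exact ⟨v, hv1, hv2⟩
  · intro l
    obtain ⟨v, hv1, hv2⟩ := h5 (f0 l) (x l) (by rw [hf0]; exact hI l)
    exact ⟨v, hv1, hv2⟩

end RC
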