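import Pool.Agent.Work.MP_0ac1ea_ag.RC.CStmts2

/-!
# Step (c): the punctured surface
-/

open Polynomial

namespace RC

theorem G_aux_infty {L : Type} [Field L] {ι : Type} {M : ℕ} (y : Fin M → L)
    (S : ι → Finset (Fin M)) (D : L →+* RatFunc Lam) (X : L →+* Lam)
    (hinf : ∀ l, RegValInf (D l) (X l)) (i0 : ι) (z : Fin M → ℂ)
    (hz : ∀ j ∈ S i0, ∃ p : PowerSeries ℂ, X (y j) = jL p ∧ PowerSeries.constantCoeff p = z j)
    (j : Fin M) : ∃ (a b : Polynomial Lam) (p : PowerSeries ℂ), b ≠ 0 ∧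
      a.natDegree ≤ b.natDegree ∧ a.coeff b.natDegree = jL p * b.leadingCoeff ∧
      (j ∉ S i0 → a = 0) ∧
      (j ∈ S i0 → D (y j) * algebraMap (Polynomial Lam) (RatFunc Lam) b
        = algebraMap (Polynomial Lam) (RatFunc Lam) a ∧ PowerSeries.constantCoeff p = z j) := by
  by_cases hj : j ∈ S i0
  · obtain ⟨p, hp, hpz⟩ := hz j hj
    obtain ⟨a, b, hb, hab, hD, hc⟩ := hinf (y j)
    rw [hp] at hc
    exact ⟨a, b, p, hb, hab, hc, fun h => absurd hj h, fun _ => ⟨hD, hpz⟩⟩
  · exact ⟨0, 1, 0, one_ne_zero, by simp, by simp, fun _ => rfl, fun h => absurd h hj⟩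

theorem pr_G (hGSUB : S_GSUB) (hGDEN : S_GDEN) (hGINF : S_GINF) (hGCER0 : S_GCER0)
    (hGCOMB : S_GCOMB) : S_G := by
  intro k₁ L _ _ ι _ M y S y0 D X hOv hCert h0 hinf i0 z hz
  classical
  choose a b p hb hab hc ha0 hD using G_aux_infty y S D X hinf i0 z hz
  obtain ⟨N, hN⟩ := hGINF M a b p hb hab hc
  obtain ⟨G, hG1, hG2⟩ := hGSUB L N D (fun l => cL (y0 l)) h0
  -- the denominator at infinity
  obtain ⟨E, c, dd, hc0, hE, hEg⟩ := hN N le_rfl
    (fun j => if j ∈ S i0 then G (y j) else 0) (by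
      intro j
      by_cases hj : j ∈ S i0
      · simp only [if_pos hj]
        exact hG2 _ _ _ (hD j hj).1
      · simp only [if_neg hj, zero_mul]
        rw [ha0 j hj, map_zero])
  have hEj : ∀ j ∈ S i0, ∃ w : W, iW E * G (y j) = iW w ∧
      modLam w = PowerSeries.C (z j) * modLam E := by
    intro j hj
    obtain ⟨w, hw, hw2⟩ := hEg j
    simp only [if_pos hj] at hw
    exact ⟨w, hw, by rw [hw2, (hD j hj).2]⟩
  have hE0 : modLam E ≠ 0 := by
    rw [hE]
    refine mul_ne_zero ?_ (pow_ne_zero _ PowerSeries.X_ne_zero)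
    intro h
    apply hc0
    have := congrArg PowerSeries.constantCoeff h
    simpa using this
  -- the certificate
  obtain ⟨d, hd, hdn⟩ := hCert
  have hn : ∀ i j, ∃ n : Polynomial Lam, j ∈ S i →
      D (y j) * algebraMap (Polynomial Lam) (RatFunc Lam) (d i)
        = algebraMap (Polynomial Lam) (RatFunc Lam) n := by
    intro i j
    by_cases hj : j ∈ S i
    · obtain ⟨n, hn⟩ := hdn i j hj
      exact ⟨n, fun _ => hn⟩
    · exact ⟨0, fun h => absurd h hj⟩
  choose n hn using hn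
  obtain ⟨c', e, he, hew⟩ := hGCER0 ι M S d hd n N (fun j => G (y j))
    (fun i j hj => hG2 _ _ _ (hn i j hj))
  obtain ⟨N', u, v, huv⟩ := hGCOMB ι e c' he E c hc0 dd hE
  refine ⟨G, ?_, hG1, ?_, ⟨E, hE0, hEj⟩, N', fun i => u i * e i + (if i = i0 then v * E else 0),
    ?_, ?_⟩
  · intro r
    have h1 := hG2 (algebraMap k₁ L r) (Polynomial.C (cL (r : ℂ))) 1 (by
      rw [map_one, mul_one, hOv r]
      rfl)
    rw [map_one, mul_one] at h1
    rw [h1]
    simp [sigN, cA]
  · intro l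
    obtain ⟨a', b', hb', hab', -⟩ := h0 l
    exact hGDEN N a' b' hb' (G l) (hG2 _ _ _ hab')
  · rw [Finset.sum_add_distrib, Finset.sum_ite_eq' Finset.univ i0, if_pos (Finset.mem_univ _)]
    exact huv
  · intro i j hj
    obtain ⟨w, hw⟩ := hew i j hj
    have hw1 : iW (u i * e i) * G (y j) = iW (u i * w) := by
      rw [map_mul, mul_assoc, hw, map_mul]
    by_cases hi : i = i0
    · subst hi
      obtain ⟨w', hw', -⟩ := hEj j hj
      refine ⟨u i * w + v * w', ?_⟩
      have hw2 : iW (v * E) * G (y j) = iW (v * w') := by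
        rw [map_mul, mul_assoc, hw', map_mul]
      simp only [if_true]
      rw [map_add, add_mul, hw1, hw2, map_add]
    · refine ⟨u i * w, ?_⟩
      simp only [if_neg hi, add_zero]
      exact hw1

end RC
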