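import Pool.Agent.Work.MP_0ac1ea_ag.RC.CStmts5
import Pool.Agent.Work.MP_0ac1ea_ag.RC.Basic

/-!
# Item GCD: gcd lemma
-/

open Polynomial

namespace RC

namespace NGCD

/-- `ℂ[[η]][X]` -/
abbrev PP : Type := Polynomial (PowerSeries ℂ)

/-- the reversed polynomial, an element of `Out` -/
noncomputable def rev (n : ℕ) (A : PP) : Out :=
  ∑ i ∈ Finset.range (n + 1), PowerSeries.map Polynomial.C (A.coeff i) *
    PowerSeries.C (Polynomial.X ^ (n - i))

theorem iO_mapC (c : PowerSeries ℂ) :
    iO (PowerSeries.map Polynomial.C c) = PowerSeries.map cL c := by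
  ext n : 1
  rw [coeff_iO, PowerSeries.coeff_map, PowerSeries.coeff_map, iS_C]

theorem jP_eq (n : ℕ) (A : PP) (hn : A.natDegree ≤ n) :
    jP A = ∑ i ∈ Finset.range (n + 1), PowerSeries.map cL (A.coeff i) *
      PowerSeries.C (lam ^ i) := by
  conv_lhs => rw [A.as_sum_range' (n + 1) (Nat.lt_succ_of_le hn)]
  rw [map_sum]
  refine Finset.sum_congr rfl fun i _ => ?_
  rw [jP, Polynomial.coe_eval₂RingHom, Polynomial.eval₂_monomial, ← map_pow]

theorem iO_rev (n : ℕ) (A : PP) (hn : A.natDegree ≤ n) :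
    iO (rev n A) * PowerSeries.C (lam ^ n) = jP A := by
  rw [jP_eq n A hn, rev, map_sum, Finset.sum_mul]
  refine Finset.sum_congr rfl fun i hi => ?_
  have hi' : i ≤ n := Nat.lt_succ_iff.mp (Finset.mem_range.mp hi)
  rw [map_mul, iO_mapC, iO_C, map_pow, iS_X, mul_assoc, ← map_mul]
  congr 2
  have h1 : lam ^ n = lam ^ (n - i) * lam ^ i := by rw [← pow_add, Nat.sub_add_cancel hi']
  rw [h1, ← mul_assoc, ← mul_pow, inv_mul_cancel₀ lam_ne_zero, one_pow, one_mul]

theorem cc_jP (A : PP) : PowerSeries.constantCoeff (jP A)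
    = jL ((A.map PowerSeries.constantCoeff : ℂ[X]) : PowerSeries ℂ) := by
  have h : (PowerSeries.constantCoeff (R := Lam)).comp jP
      = (jL.comp (Polynomial.coeToPowerSeries.ringHom)).comp
        (Polynomial.mapRingHom (PowerSeries.constantCoeff (R := ℂ))) := by
    apply Polynomial.ringHom_ext
    · intro c
      simp only [RingHom.comp_apply, jP, Polynomial.coe_eval₂RingHom, Polynomial.eval₂_C,
        Polynomial.coe_mapRingHom, Polynomial.map_C]
      rw [← PowerSeries.coeff_zero_eq_constantCoeff_apply, PowerSeries.coeff_map,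
        PowerSeries.coeff_zero_eq_constantCoeff_apply, Polynomial.coeToPowerSeries.ringHom_apply,
        Polynomial.coe_C, jL_C]
    · simp only [RingHom.comp_apply, jP, Polynomial.coe_eval₂RingHom, Polynomial.eval₂_X,
        Polynomial.coe_mapRingHom, Polynomial.map_X]
      rw [PowerSeries.constantCoeff_C, Polynomial.coeToPowerSeries.ringHom_apply,
        Polynomial.coe_X, jL_X]
  exact congrArg (fun f => f A) (congrArg DFunLike.coe h)

theorem cc_rev_coeff (n : ℕ) (A : PP) :
    (PowerSeries.constantCoeff (rev n A)).coeff n = PowerSeries.constantCoeff (A.coeff 0) := by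
  rw [rev, map_sum, Polynomial.finsetSum_coeff, Finset.sum_eq_single 0]
  · rw [map_mul, PowerSeries.constantCoeff_C, Nat.sub_zero,
      ← PowerSeries.coeff_zero_eq_constantCoeff_apply, PowerSeries.coeff_map,
      Polynomial.coeff_C_mul, Polynomial.coeff_X_pow_self, mul_one,
      PowerSeries.coeff_zero_eq_constantCoeff_apply]
  · intro i hi hi0
    rw [map_mul, PowerSeries.constantCoeff_C,
      ← PowerSeries.coeff_zero_eq_constantCoeff_apply, PowerSeries.coeff_map,
      Polynomial.coeff_C_mul, Polynomial.coeff_X_pow, if_neg, mul_zero]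
    have := Finset.mem_range.mp hi
    omega
  · intro h
    exact absurd (Finset.mem_range.mpr (Nat.succ_pos n)) h

theorem evS_rev (n : ℕ) (A : PP) : evS 0 (rev n A) = A.coeff n := by
  rw [rev, map_sum, Finset.sum_eq_single n]
  · rw [map_mul, evS_C, Nat.sub_self, pow_zero, Polynomial.eval_one, map_one, mul_one]
    ext k
    rw [coeff_evS, PowerSeries.coeff_map, Polynomial.eval_C]
  · intro i hi hin
    rw [map_mul, evS_C, Polynomial.eval_pow, Polynomial.eval_X, zero_pow, map_zero, mul_zero]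
    have := Finset.mem_range.mp hi
    omega
  · intro h
    exact absurd (Finset.mem_range.mpr (Nat.lt_succ_self n)) h

theorem isUnit_of_mul_eq (P : Out) (hP : evS 0 P ≠ 0) (E : ℕ) :
    ∀ t : Out, P * t = PowerSeries.C (Polynomial.X ^ E) → IsUnit P := by
  induction E with
  | zero =>
    intro t ht
    rw [pow_zero, map_one] at ht
    exact IsUnit.of_mul_eq_one t ht
  | succ E ih =>
    intro t ht
    have h1 : evS 0 P * evS 0 t = 0 := by
      rw [← map_mul, ht, evS_C, Polynomial.eval_pow, Polynomial.eval_X,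
        zero_pow (Nat.succ_ne_zero E), map_zero]
    have h2 : evS 0 t = 0 := (mul_eq_zero.mp h1).resolve_left hP
    have h3 : ∀ k, ∃ q : ℂ[X], PowerSeries.coeff k t = Polynomial.X * q := by
      intro k
      have h4 : (PowerSeries.coeff k t).eval 0 = 0 := by
        rw [← coeff_evS, h2, map_zero]
      have h6 : Polynomial.X ∣ PowerSeries.coeff k t :=
        Polynomial.X_dvd_iff.mpr (by rw [Polynomial.coeff_zero_eq_eval_zero]; exact h4)
      exact h6
    choose q hq using h3
    have h5 : t = PowerSeries.C Polynomial.X * PowerSeries.mk q := by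
      ext k : 1
      rw [PowerSeries.coeff_C_mul, PowerSeries.coeff_mk, hq k]
    have hX : (PowerSeries.C Polynomial.X : Out) ≠ 0 := by
      intro h
      have := congrArg PowerSeries.constantCoeff h
      rw [PowerSeries.constantCoeff_C, map_zero] at this
      exact Polynomial.X_ne_zero this
    refine ih (PowerSeries.mk q) ?_
    apply mul_left_cancel₀ hX
    rw [← map_mul, ← pow_succ', ← ht, h5]
    ring

/-- clearing denominators in `ℂ((η))[X]` -/
theorem clear (g : Polynomial Lam) : ∃ (n : ℕ) (G : PP),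
    Polynomial.C (lam ^ n) * g = G.map jL := by
  induction g using Polynomial.induction_on' with
  | add p q hp hq =>
    obtain ⟨n, G, h1⟩ := hp
    obtain ⟨m, H, h2⟩ := hq
    refine ⟨n + m, Polynomial.C (PowerSeries.X ^ m) * G + Polynomial.C (PowerSeries.X ^ n) * H, ?_⟩
    rw [Polynomial.map_add, Polynomial.map_mul, Polynomial.map_mul, ← h1, ← h2, Polynomial.map_C,
      Polynomial.map_C]
    simp only [map_pow, jL_X, pow_add, map_mul]
    ring
  | monomial k a =>
    obtain ⟨n, p, hp⟩ := exists_pow_mul a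
    refine ⟨n, Polynomial.monomial k p, ?_⟩
    rw [Polynomial.map_monomial, ← hp, Polynomial.C_mul_monomial]

theorem map_jL_injective : Function.Injective (Polynomial.map jL) :=
  Polynomial.map_injective jL jL_injective

/-- the prime `η` of `ℂ[[η]][X]` -/
theorem prime_eta : Prime (Polynomial.C (PowerSeries.X) : PP) :=
  Polynomial.prime_C_iff.mpr PowerSeries.X_prime

/-- Gauss' lemma for divisibility by a polynomial not divisible by `η` -/
theorem dvd_of_dvd (π δ : PP) (hπ : ¬ (Polynomial.C (PowerSeries.X) : PP) ∣ π)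
    (h : π.map jL ∣ δ.map jL) : π ∣ δ := by
  obtain ⟨R, hR⟩ := h
  obtain ⟨m, R', hR'⟩ := clear R
  have h1 : (Polynomial.C PowerSeries.X : PP) ^ m * δ = π * R' := by
    apply map_jL_injective
    rw [Polynomial.map_mul, Polynomial.map_mul, Polynomial.map_pow, Polynomial.map_C, jL_X, hR,
      ← hR', map_pow]
    ring
  obtain ⟨R'', hR''⟩ := prime_eta.pow_dvd_of_dvd_mul_left m hπ ⟨δ, h1.symm⟩
  refine ⟨R'', ?_⟩
  have hne : (Polynomial.C PowerSeries.X : PP) ^ m ≠ 0 := pow_ne_zero m prime_eta.ne_zero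
  apply mul_left_cancel₀ hne
  rw [h1, hR'']
  ring

/-- removing the content -/
theorem primitive (G : PP) (hG : G ≠ 0) : ∃ (c : ℕ) (π : PP),
    ¬ (Polynomial.C (PowerSeries.X) : PP) ∣ π ∧ G = (Polynomial.C (PowerSeries.X) : PP) ^ c * π := by
  have hfin : FiniteMultiplicity (Polynomial.C (PowerSeries.X) : PP) G :=
    FiniteMultiplicity.of_not_isUnit prime_eta.not_isUnit hG
  obtain ⟨q, h1, h2⟩ := hfin.exists_eq_pow_mul_and_not_dvd
  exact ⟨_, q, h2, h1⟩

theorem key (ι : Type) [Fintype ι] (δ : ι → PP) (hδ : ∀ i, δ i ≠ 0)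
    (jW : PP →+* W) (hjW : ∀ A, iW (jW A) = jP A)
    (N : ℕ) (u : ι → W) (hu : ∑ i, u i * jW (δ i) = PowerSeries.X ^ N)
    (N' E : ℕ) (v : ι → Out) (δ' : ι → Out)
    (hδ' : ∀ i, iO (δ' i) * PowerSeries.C (lam ^ (δ i).natDegree) = jP (δ i))
    (hv : ∑ i, v i * δ' i = PowerSeries.X ^ N' * PowerSeries.C (Polynomial.X ^ E))
    (π : PP) (hπ : ¬ (Polynomial.C (PowerSeries.X) : PP) ∣ π) (hd : 1 ≤ π.natDegree)
    (hdvd : ∀ i, π ∣ δ i) : False := by
  have hπ0 : π ≠ 0 := by
    rintro rfl
    exact hπ (dvd_zero _)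
  have hcc : π.map (PowerSeries.constantCoeff (R := ℂ)) ≠ 0 := by
    intro h
    apply hπ
    rw [Polynomial.C_dvd_iff_dvd_coeff]
    intro i
    rw [PowerSeries.X_dvd_iff]
    have := congrArg (fun p => Polynomial.coeff p i) h
    simpa [Polynomial.coeff_map] using this
  have hccc : ((π.map (PowerSeries.constantCoeff (R := ℂ)) : ℂ[X]) : PowerSeries ℂ) ≠ 0 := by
    intro h
    exact hcc (Polynomial.coe_injective ℂ (by rw [h, Polynomial.coe_zero]))
  -- inside
  have hin : PowerSeries.constantCoeff (π.coeff 0) ≠ 0 := by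
    have h1 : PowerSeries.constantCoeff (jW π)
        = ((π.map (PowerSeries.constantCoeff (R := ℂ)) : ℂ[X]) : PowerSeries ℂ) := by
      apply jL_injective
      rw [← constantCoeff_iW, hjW, cc_jP]
    have h2 : ¬ (PowerSeries.X : W) ∣ jW π := by
      rw [PowerSeries.X_dvd_iff, h1]
      exact hccc
    have h3 : jW π ∣ (PowerSeries.X : W) ^ N := by
      rw [← hu]
      refine Finset.dvd_sum fun i _ => ?_
      exact Dvd.dvd.mul_left (map_dvd jW (hdvd i)) _
    obtain ⟨t, ht⟩ := h3
    obtain ⟨s, hs⟩ := (PowerSeries.X_prime (R := PowerSeries ℂ)).pow_dvd_of_dvd_mul_left N h2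
      (by rw [← ht])
    have h4 : jW π * s = 1 := by
      have hne : (PowerSeries.X : W) ^ N ≠ 0 := pow_ne_zero N PowerSeries.X_ne_zero
      apply mul_left_cancel₀ hne
      rw [mul_one]
      conv_rhs => rw [ht, hs]
      ring
    intro h5
    have h6 := congrArg (fun w : W => PowerSeries.constantCoeff (PowerSeries.constantCoeff w)) h4
    simp only [map_mul, map_one, h1] at h6
    have h7 : PowerSeries.constantCoeff
        ((π.map (PowerSeries.constantCoeff (R := ℂ)) : ℂ[X]) : PowerSeries ℂ) = 0 := by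
      rw [← PowerSeries.coeff_zero_eq_constantCoeff_apply, Polynomial.coeff_coe,
        Polynomial.coeff_map, h5]
    rw [h7, zero_mul] at h6
    exact zero_ne_one h6
  -- outside
  set n := π.natDegree with hn
  set P : Out := rev n π with hPdef
  have hP1 : iO P * PowerSeries.C (lam ^ n) = jP π := iO_rev n π le_rfl
  have hP2 : evS 0 P ≠ 0 := by
    rw [hPdef, evS_rev, hn, Polynomial.coeff_natDegree]
    exact Polynomial.leadingCoeff_ne_zero.mpr hπ0
  have hP3 : ¬ (PowerSeries.X : Out) ∣ P := by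
    rw [PowerSeries.X_dvd_iff]
    intro h
    have h8 := congrArg PowerSeries.constantCoeff hP1
    rw [map_mul, constantCoeff_iO, h, map_zero, zero_mul, cc_jP] at h8
    exact (map_ne_zero_iff _ jL_injective).mpr hccc h8.symm
  have hP4 : ∀ i, P ∣ δ' i := by
    intro i
    obtain ⟨ρ, hρ⟩ := hdvd i
    have hρ0 : ρ ≠ 0 := by
      rintro rfl
      exact hδ i (by rw [hρ, mul_zero])
    refine ⟨rev ρ.natDegree ρ, ?_⟩
    have h9 : (δ i).natDegree = n + ρ.natDegree := by
      rw [hρ, Polynomial.natDegree_mul hπ0 hρ0]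
    have h10 := hδ' i
    rw [h9] at h10
    apply iO_injective
    have hne : (PowerSeries.C (lam ^ (n + ρ.natDegree)) : Ann) ≠ 0 := by
      rw [Ne, ← map_zero (PowerSeries.C (R := Lam)), PowerSeries.C_injective.eq_iff]
      exact pow_ne_zero _ lam_ne_zero
    apply mul_right_cancel₀ hne
    rw [h10, hρ, map_mul jP, map_mul iO, ← hP1, ← iO_rev ρ.natDegree ρ le_rfl, pow_add, map_mul]
    ring
  have hP5 : P ∣ (PowerSeries.X : Out) ^ N' * PowerSeries.C (Polynomial.X ^ E) := by
    rw [← hv]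
    exact Finset.dvd_sum fun i _ => Dvd.dvd.mul_left (hP4 i) _
  obtain ⟨t, ht⟩ := hP5
  obtain ⟨s, hs⟩ := (PowerSeries.X_prime (R := ℂ[X])).pow_dvd_of_dvd_mul_left N' hP3
    ⟨_, ht.symm⟩
  have h11 : P * s = PowerSeries.C (Polynomial.X ^ E) := by
    have hne : (PowerSeries.X : Out) ^ N' ≠ 0 := pow_ne_zero N' PowerSeries.X_ne_zero
    apply mul_left_cancel₀ hne
    rw [ht, hs]
    ring
  have h12 : IsUnit P := isUnit_of_mul_eq P hP2 E s h11
  have h13 : IsUnit (PowerSeries.constantCoeff P) := h12.map _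
  obtain ⟨c, -, hc⟩ := Polynomial.isUnit_iff.mp h13
  have h14 := cc_rev_coeff n π
  rw [← hPdef, ← hc, Polynomial.coeff_C, if_neg (by omega)] at h14
  exact hin h14.symm

end NGCD

open NGCD in
theorem pr_GCD : S_GCD := by
  intro ι _ δ hδ jW hjW N u hu N' E v δ' hδ' hv
  by_contra hcon
  have hι : Nonempty ι := by
    by_contra h
    rw [not_nonempty_iff] at h
    rw [Finset.univ_eq_empty, Finset.sum_empty] at hu
    exact pow_ne_zero N (PowerSeries.X_ne_zero (R := PowerSeries ℂ)) hu.symm
  set I : Ideal (Polynomial Lam) := Ideal.span (Set.range fun i => (δ i).map jL) with hI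
  have hI1 : I ≠ ⊤ := by
    intro h
    apply hcon
    have h1 : (1 : Polynomial Lam) ∈ I := by rw [h]; exact Submodule.mem_top
    rw [hI, Ideal.mem_span_range_iff_exists_fun] at h1
    exact h1
  obtain ⟨g, hg⟩ : ∃ g, I = Ideal.span {g} :=
    ⟨_, (Ideal.span_singleton_generator I).symm⟩
  have hgd : ∀ i, g ∣ (δ i).map jL := by
    intro i
    rw [← Ideal.mem_span_singleton, ← hg, hI]
    exact Ideal.subset_span ⟨i, rfl⟩
  have hgu : ¬ IsUnit g := by
    intro h
    apply hI1
    rw [hg, Ideal.span_singleton_eq_top]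
    exact h
  obtain ⟨i0⟩ := hι
  have hg0 : g ≠ 0 := by
    rintro rfl
    have := zero_dvd_iff.mp (hgd i0)
    exact hδ i0 (map_jL_injective (by rw [this, Polynomial.map_zero]))
  obtain ⟨m, G, hG⟩ := clear g
  have hlm : (Polynomial.C (lam ^ m) : Polynomial Lam) ≠ 0 :=
    Polynomial.C_ne_zero.mpr (pow_ne_zero _ lam_ne_zero)
  have hG0 : G ≠ 0 := by
    rintro rfl
    rw [Polynomial.map_zero] at hG
    exact mul_ne_zero hlm hg0 hG
  obtain ⟨c, π, hπ, hGπ⟩ := primitive G hG0
  have hπ0 : π ≠ 0 := by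
    rintro rfl
    exact hπ (dvd_zero _)
  have hdeg : g.natDegree = π.natDegree := by
    have h1 := congrArg Polynomial.natDegree hG
    rw [Polynomial.natDegree_C_mul (pow_ne_zero _ lam_ne_zero),
      Polynomial.natDegree_map_eq_of_injective jL_injective, hGπ,
      Polynomial.natDegree_mul (pow_ne_zero _ prime_eta.ne_zero) hπ0, Polynomial.natDegree_pow,
      Polynomial.natDegree_C, mul_zero, zero_add] at h1
    exact h1
  have hd : 1 ≤ π.natDegree := by
    rw [← hdeg]
    by_contra h
    apply hgu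
    have h2 : g.natDegree = 0 := by omega
    rw [Polynomial.eq_C_of_natDegree_eq_zero h2]
    rw [Polynomial.isUnit_C]
    refine isUnit_iff_ne_zero.mpr fun h3 => hg0 ?_
    rw [Polynomial.eq_C_of_natDegree_eq_zero h2, h3, map_zero]
  refine key ι δ hδ jW hjW N u hu N' E v δ' hδ' hv π hπ hd fun i => dvd_of_dvd π (δ i) hπ ?_
  refine dvd_trans ?_ (hgd i)
  -- `π.map jL` divides `g`
  refine ⟨Polynomial.C ((lam ^ m)⁻¹ * lam ^ c), ?_⟩
  apply mul_left_cancel₀ hlm
  rw [hG, hGπ, Polynomial.map_mul, Polynomial.map_pow, Polynomial.map_C, jL_X, map_mul]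
  have h4 : (Polynomial.C (lam ^ m) : Polynomial Lam) * Polynomial.C ((lam ^ m)⁻¹) = 1 := by
    rw [← map_mul, mul_inv_cancel₀ (pow_ne_zero _ lam_ne_zero), map_one]
  rw [map_pow Polynomial.C lam c]
  linear_combination -(π.map jL * Polynomial.C lam ^ c) * h4

end RC
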