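import Pool.Agent.Work.MP_0ac1ea_ag.RC.CStmts2
import Pool.Agent.Work.MP_0ac1ea_ag.RC.Basic

/-!
# Item GCER0: certificate up to a power of `λ`
-/

open Polynomial

namespace RC

namespace GCER0_aux

/-- a large power of `λ` clears the denominators of `sigN N P` -/
theorem clear (N : ℕ) (P : Polynomial Lam) :
    ∃ c : ℕ, ∀ c' ≥ c, ∃ w : W, PowerSeries.C (lam ^ c') * sigN N P = iW w := by
  induction P using Polynomial.induction_on with
  | C a =>
    obtain ⟨n, p, hp⟩ := exists_pow_mul a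
    refine ⟨n, fun c' hc' => ⟨PowerSeries.C (PowerSeries.X ^ (c' - n) * p), ?_⟩⟩
    have h1 : sigN N (Polynomial.C a) = PowerSeries.C a := by simp [sigN]
    have h2 : jL (PowerSeries.X ^ (c' - n) * p) = lam ^ c' * a := by
      rw [map_mul, map_pow, jL_X, ← hp, ← mul_assoc, ← pow_add, Nat.sub_add_cancel hc']
    rw [h1, iW_C, h2, map_mul]
  | add P Q hP hQ =>
    obtain ⟨c1, h1⟩ := hP
    obtain ⟨c2, h2⟩ := hQ
    refine ⟨max c1 c2, fun c' hc' => ?_⟩
    obtain ⟨w1, hw1⟩ := h1 c' (le_trans (le_max_left _ _) hc')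
    obtain ⟨w2, hw2⟩ := h2 c' (le_trans (le_max_right _ _) hc')
    exact ⟨w1 + w2, by rw [map_add, mul_add, hw1, hw2, map_add]⟩
  | monomial n a h =>
    obtain ⟨c, hc⟩ := h
    refine ⟨c + N, fun c' hc' => ?_⟩
    obtain ⟨w, hw⟩ := hc (c' - N) (by omega)
    refine ⟨w * PowerSeries.X, ?_⟩
    have hX : sigN N Polynomial.X = PowerSeries.C (lam⁻¹ ^ N) * PowerSeries.X := by
      simp [sigN]
    have h1 : sigN N (Polynomial.C a * Polynomial.X ^ (n + 1)) =
        sigN N (Polynomial.C a * Polynomial.X ^ n) *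
          (PowerSeries.C (lam⁻¹ ^ N) * PowerSeries.X) := by
      rw [pow_succ, ← mul_assoc, map_mul, hX]
    have h2 : (PowerSeries.C (lam ^ c') : Ann) * PowerSeries.C (lam⁻¹ ^ N) =
        PowerSeries.C (lam ^ (c' - N)) := by
      rw [← map_mul]
      congr 1
      have : lam ^ c' = lam ^ (c' - N) * lam ^ N := by
        rw [← pow_add]; congr 1; omega
      rw [this, mul_assoc, ← mul_pow, mul_inv_cancel₀ lam_ne_zero, one_pow, mul_one]
    have h3 : iW (w * PowerSeries.X) = iW w * PowerSeries.X := by rw [map_mul, iW_X]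
    rw [h1, h3, ← hw, ← h2]
    ring

end GCER0_aux

open GCER0_aux in
theorem pr_GCER0 : S_GCER0 := by
  intro ι _ M S d hd n N g hg
  choose cd hcd using fun i => clear N (d i)
  choose cn hcn using fun (ij : ι × Fin M) => clear N (n ij.1 ij.2)
  set c : ℕ := max (Finset.univ.sup cd) (Finset.univ.sup cn) with hc
  have hc1 : ∀ i, c ≥ cd i := fun i =>
    le_trans (Finset.le_sup (Finset.mem_univ i)) (le_max_left _ _)
  have hc2 : ∀ ij, c ≥ cn ij := fun ij =>
    le_trans (Finset.le_sup (Finset.mem_univ ij)) (le_max_right _ _)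
  choose e he using fun i => hcd i c (hc1 i)
  refine ⟨c, e, ?_, ?_⟩
  · apply iW_injective
    rw [map_sum, map_pow, iW_lamW, ← map_pow]
    calc ∑ i, iW (e i) = ∑ i, PowerSeries.C (lam ^ c) * sigN N (d i) :=
          Finset.sum_congr rfl fun i _ => (he i).symm
      _ = PowerSeries.C (lam ^ c) * sigN N (∑ i, d i) := by rw [map_sum, Finset.mul_sum]
      _ = _ := by rw [hd, map_one, mul_one]
  · intro i j hj
    obtain ⟨w, hw⟩ := hcn (i, j) c (hc2 _)
    refine ⟨w, ?_⟩
    rw [← hw, ← he i, mul_assoc, mul_comm (sigN N (d i)), hg i j hj]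

end RC
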