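import Pool.Agent.Work.MP_0ac1ea_ag.RC.CStmts2

/-!
# Item GCOMB: combination of certificates
-/

open Polynomial

namespace RC

theorem GCOMB_dvd (f : W) (h : modLam f = 0) : ∃ g : W, f = lamW * g := by
  have h1 : ∀ n : ℕ, ∃ q : PowerSeries ℂ, PowerSeries.coeff n f = PowerSeries.X * q := by
    intro n
    have h2 := congrArg (PowerSeries.coeff n) h
    rw [modLam, PowerSeries.coeff_map, map_zero] at h2
    exact PowerSeries.X_dvd_iff.mpr h2
  choose q hq using h1
  refine ⟨PowerSeries.mk q, ?_⟩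
  ext n : 1
  rw [hq n, lamW, PowerSeries.coeff_C_mul, PowerSeries.coeff_mk]

theorem pr_GCOMB : S_GCOMB := by
  intro ι _ e c hsum E a ha d hE
  set A : W := PowerSeries.C (PowerSeries.C a) with hA
  set B : W := PowerSeries.C (PowerSeries.C a⁻¹) with hB
  have hAB : B * A = 1 := by
    rw [hA, hB, ← map_mul, ← map_mul, inv_mul_cancel₀ ha, map_one, map_one]
  have h0 : modLam (E - A * PowerSeries.X ^ d) = 0 := by
    rw [map_sub, map_mul, map_pow, hE]
    have h1 : modLam A = PowerSeries.C a := by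
      rw [hA, modLam, PowerSeries.map_C, PowerSeries.constantCoeff_C]
    have h2 : modLam (PowerSeries.X : W) = PowerSeries.X := by
      rw [modLam, PowerSeries.map_X]
    rw [h1, h2, sub_self]
  obtain ⟨g, hg⟩ := GCOMB_dvd _ h0
  have h3 : A * PowerSeries.X ^ d = E - lamW * g := by rw [← hg]; ring
  obtain ⟨v0, hv0⟩ := sub_dvd_pow_sub_pow (E - lamW * g) (-(lamW * g)) c
  have h4 : E - lamW * g - -(lamW * g) = E := by ring
  rw [h4] at hv0
  have h5 : (A * PowerSeries.X ^ d) ^ c = E * v0 + (-g) ^ c * ∑ i, e i := by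
    rw [h3, hsum, ← mul_pow]
    have h6 : -g * lamW = -(lamW * g) := by ring
    rw [h6, ← hv0]; ring
  refine ⟨d * c, fun i => B ^ c * (-g) ^ c, B ^ c * v0, ?_⟩
  rw [← Finset.mul_sum]
  have h7 : B ^ c * (-g) ^ c * ∑ i, e i + B ^ c * v0 * E =
      B ^ c * (E * v0 + (-g) ^ c * ∑ i, e i) := by ring
  rw [h7, ← h5, mul_pow, ← mul_assoc, ← mul_pow, hAB, one_pow, one_mul, ← pow_mul]

end RC
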