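import Pool.Agent.Work.MP_0ac1ea_ag.RC.CStmts2

/-!
# Item GENAI: generic points preserve algebraic independence
-/

open Polynomial

namespace RC

theorem GENAI_lin {k₁ : Subfield ℂ} {L : Type} [Field L] [Algebra k₁ L] {n : ℕ} {t : Fin n → L}
    (ht : AlgebraicIndependent k₁ t) :
    LinearIndependent k₁ (fun μ : Fin n →₀ ℕ => ∏ i, t i ^ μ i) := by
  have h0 := (MvPolynomial.basisMonomials (Fin n) k₁).linearIndependent
  have hker : LinearMap.ker (MvPolynomial.aeval (R := k₁) t).toLinearMap = ⊥ := by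
    rw [LinearMap.ker_eq_bot]
    exact ht
  have h1 := h0.map' _ hker
  have e : (fun μ : Fin n →₀ ℕ => ∏ i, t i ^ μ i) =
      ⇑(MvPolynomial.aeval (R := k₁) t).toLinearMap ∘ ⇑(MvPolynomial.basisMonomials (Fin n) k₁) := by
    funext μ
    simp only [Function.comp_apply, MvPolynomial.coe_basisMonomials, AlgHom.toLinearMap_apply]
    rw [MvPolynomial.aeval_monomial, map_one, one_mul, Finsupp.prod_fintype]
    intro i
    exact pow_zero _
  rw [e]
  exact h1

theorem pr_GENAI : S_GENAI := by
  intro k₁ k hk L _ _ x hx hgen n t ht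
  rw [algebraicIndependent_iff]
  intro P hP
  have h2 : LinearIndependent k₁ (fun j : Fin P.support.card =>
      ∏ i, t i ^ ((P.support.equivFin.symm j : Fin n →₀ ℕ)) i) :=
    (GENAI_lin ht).comp (fun j : Fin P.support.card => (P.support.equivFin.symm j : Fin n →₀ ℕ))
      (fun a b h => P.support.equivFin.symm.injective (Subtype.ext h))
  have h3 := hgen _ _ h2
  have h4 : ∑ j : Fin P.support.card, P.coeff (P.support.equivFin.symm j : Fin n →₀ ℕ) •
      x (∏ i, t i ^ ((P.support.equivFin.symm j : Fin n →₀ ℕ)) i) = 0 := by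
    have h7 : ∀ F : (Fin n →₀ ℕ) → ℂ, ∑ d ∈ P.support, F d =
        ∑ j : Fin P.support.card, F (P.support.equivFin.symm j : Fin n →₀ ℕ) := by
      intro F
      rw [← Finset.sum_coe_sort]
      exact (Equiv.sum_comp P.support.equivFin.symm (fun d : P.support => F d)).symm
    rw [← hP, MvPolynomial.aeval_def, MvPolynomial.eval₂_eq', h7]
    refine Finset.sum_congr rfl fun j _ => ?_
    rw [Algebra.smul_def, map_prod]
    congr 1
    refine Finset.prod_congr rfl fun i _ => ?_
    rw [map_pow]
  have h5 := Fintype.linearIndependent_iff.1 h3 _ h4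
  by_contra hne
  obtain ⟨μ, hμ⟩ := MvPolynomial.support_nonempty.2 hne
  have h6 := h5 (P.support.equivFin ⟨μ, hμ⟩)
  rw [Equiv.symm_apply_apply] at h6
  exact (MvPolynomial.mem_support_iff.1 hμ) h6

end RC
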