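import Pool.Agent.Work.MP_0ac1ea_ag.RC.CStmts2
import Pool.Agent.Work.MP_0ac1ea_ag.RC.Basic

open Polynomial

namespace RC

namespace GINF_aux

theorem small (x : Lam) (k : ℕ) (hk : 0 < k) : ∃ N0 : ℕ, ∀ N ≥ N0, ∃ q : PowerSeries ℂ,
    PowerSeries.constantCoeff q = 0 ∧ x * lam ^ (N * k) = jL q := by
  obtain ⟨n, p, hp⟩ := exists_pow_mul x
  refine ⟨n + 1, fun N hN => ⟨PowerSeries.X ^ (N * k - n) * p, ?_, ?_⟩⟩
  · have h1 : 0 < N * k - n := by
      have : N ≤ N * k := Nat.le_mul_of_pos_right N hk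
      omega
    rw [map_mul, map_pow, PowerSeries.constantCoeff_X, zero_pow h1.ne', zero_mul]
  · have h1 : n ≤ N * k := by
      have : N ≤ N * k := Nat.le_mul_of_pos_right N hk
      omega
    rw [map_mul, map_pow, jL_X, ← hp, ← mul_assoc, ← pow_add, Nat.sub_add_cancel h1, mul_comm]

theorem sig_mono (N d i : ℕ) (hi : i ≤ d) (a : Lam) :
    PowerSeries.C (lam ^ (N * d)) * sigN N (Polynomial.monomial i a) =
      PowerSeries.C (a * lam ^ (N * (d - i))) * PowerSeries.X ^ i := by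
  rw [sigN, Polynomial.coe_eval₂RingHom, Polynomial.eval₂_monomial, mul_pow, ← map_pow]
  have h1 : lam ^ (N * d) * (lam⁻¹ ^ N) ^ i = lam ^ (N * (d - i)) := by
    obtain ⟨k, rfl⟩ := Nat.exists_eq_add_of_le hi
    rw [Nat.add_sub_cancel_left, Nat.mul_add, pow_add, ← pow_mul, inv_pow, mul_right_comm,
      mul_inv_cancel₀ (pow_ne_zero _ lam_ne_zero), one_mul]
  rw [← h1, map_mul, map_mul]
  ring

theorem key (f : Polynomial Lam) (d : ℕ) (β : Lam) (hβ : β ≠ 0) (hf : f.natDegree ≤ d)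
    (p : PowerSeries ℂ) (hp : f.coeff d = jL p * β) :
    ∃ N0 : ℕ, ∀ N ≥ N0, ∃ w : W, iW w = PowerSeries.C (β⁻¹ * lam ^ (N * d)) * sigN N f ∧
      modLam w = PowerSeries.C (PowerSeries.constantCoeff p) * PowerSeries.X ^ d := by
  have h1 : ∀ i : ℕ, ∃ N0 : ℕ, i < d → ∀ N ≥ N0, ∃ q : PowerSeries ℂ,
      PowerSeries.constantCoeff q = 0 ∧ β⁻¹ * f.coeff i * lam ^ (N * (d - i)) = jL q := by
    intro i
    by_cases hi : i < d
    · obtain ⟨N0, h⟩ := small (β⁻¹ * f.coeff i) (d - i) (by omega)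
      exact ⟨N0, fun _ => h⟩
    · exact ⟨0, fun h => absurd h hi⟩
  choose N1 hN1 using h1
  refine ⟨(Finset.range d).sup N1, fun N hN => ?_⟩
  have h2 : ∀ i : ℕ, ∃ q : PowerSeries ℂ, i < d → PowerSeries.constantCoeff q = 0 ∧
      β⁻¹ * f.coeff i * lam ^ (N * (d - i)) = jL q := by
    intro i
    by_cases hi : i < d
    · obtain ⟨q, hq⟩ := hN1 i hi N (le_trans (Finset.le_sup (Finset.mem_range.2 hi)) hN)
      exact ⟨q, fun _ => hq⟩
    · exact ⟨0, fun h => absurd h hi⟩
  choose q hq using h2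
  refine ⟨(∑ i ∈ Finset.range d, PowerSeries.C (q i) * PowerSeries.X ^ i) +
    PowerSeries.C p * PowerSeries.X ^ d, ?_, ?_⟩
  · rw [Polynomial.as_sum_range' f (d + 1) (Nat.lt_succ_of_le hf), map_sum, map_mul, mul_assoc,
      Finset.mul_sum, Finset.sum_range_succ, map_add, map_sum, mul_add, Finset.mul_sum]
    congr 1
    · refine Finset.sum_congr rfl fun i hi => ?_
      have hi' := Finset.mem_range.1 hi
      rw [sig_mono N d i hi'.le, map_mul, iW_C, map_pow, iW_X, ← (hq i hi').2, ← mul_assoc,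
        ← map_mul, ← mul_assoc]
    · rw [sig_mono N d d le_rfl, map_mul, iW_C, map_pow, iW_X, ← mul_assoc, ← map_mul, hp,
        Nat.sub_self, Nat.mul_zero, pow_zero, mul_one]
      congr 2
      field_simp
  · rw [map_add, map_sum, map_mul, modLam_C, map_pow, modLam_X]
    rw [Finset.sum_eq_zero, zero_add]
    intro i hi
    rw [map_mul, modLam_C, (hq i (Finset.mem_range.1 hi)).1, map_zero, zero_mul]

end GINF_aux

open GINF_aux in
theorem pr_GINF : S_GINF := by
  classical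
  intro q a b p hb hdeg hcoef
  have h1 : ∀ t, ∃ N0 : ℕ, ∀ N ≥ N0,
      (∃ e : W, iW e = PowerSeries.C ((b t).leadingCoeff⁻¹ * lam ^ (N * (b t).natDegree)) *
        sigN N (b t) ∧ modLam e = PowerSeries.X ^ (b t).natDegree) ∧
      ∃ w : W, iW w = PowerSeries.C ((b t).leadingCoeff⁻¹ * lam ^ (N * (b t).natDegree)) *
        sigN N (a t) ∧ modLam w = PowerSeries.C (PowerSeries.constantCoeff (p t)) *
          PowerSeries.X ^ (b t).natDegree := by
    intro t
    have hβ : (b t).leadingCoeff ≠ 0 := Polynomial.leadingCoeff_ne_zero.2 (hb t)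
    obtain ⟨N1, h1⟩ := key (b t) (b t).natDegree _ hβ le_rfl 1 (by
      rw [map_one, one_mul, Polynomial.coeff_natDegree])
    obtain ⟨N2, h2⟩ := key (a t) (b t).natDegree _ hβ (hdeg t) (p t) (hcoef t)
    refine ⟨max N1 N2, fun N hN => ⟨?_, h2 N (le_trans (le_max_right _ _) hN)⟩⟩
    obtain ⟨e, he, he'⟩ := h1 N (le_trans (le_max_left _ _) hN)
    refine ⟨e, he, ?_⟩
    rw [he', map_one, map_one, one_mul]
  choose N0 hN0 using h1
  refine ⟨Finset.univ.sup N0, fun N hN g hg => ?_⟩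
  have h2 : ∀ t, _ := fun t => hN0 t N (le_trans (Finset.le_sup (Finset.mem_univ t)) hN)
  choose h3 h4 using h2
  choose e he he' using h3
  choose w hw hw' using h4
  have hmod : modLam (∏ t, e t) = PowerSeries.X ^ (∑ t, (b t).natDegree) := by
    rw [map_prod, ← Finset.prod_pow_eq_pow_sum]
    exact Finset.prod_congr rfl fun t _ => he' t
  refine ⟨∏ t, e t, 1, ∑ t, (b t).natDegree, one_ne_zero, ?_, fun t => ?_⟩
  · rw [hmod, map_one, one_mul]
  · refine ⟨w t * ∏ t' ∈ Finset.univ.erase t, e t', ?_, ?_⟩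
    · rw [← Finset.mul_prod_erase Finset.univ e (Finset.mem_univ t), map_mul, map_mul]
      have h5 : iW (e t) * g t = iW (w t) := by
        rw [he t, hw t, ← hg t]
        ring
      rw [← h5]
      ring
    · rw [← Finset.mul_prod_erase Finset.univ e (Finset.mem_univ t), map_mul, map_mul, hw' t,
        he' t]
      ring

end RC
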