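import Pool.Agent.Work.MP_0ac1ea_ag.RC.CStmts3

/-!
# Item GODOWN: going down (Mathlib has it)
-/

open Polynomial

namespace RC

theorem pr_GODOWN : S_GODOWN := by
  intro A B _ _ _ _ _ _ _ _ p q _ _ hpq Q _ hQ
  have hover : Q.LiesOver q := ⟨hQ.symm⟩
  obtain ⟨P, hPQ, hP, hPp⟩ := Ideal.exists_ideal_le_liesOver_of_le (p := p) (q := q) Q hpq
  exact ⟨P, hP, hPQ, hPp.over.symm⟩

end RC
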