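import Pool.Agent.Work.MP_0ac1ea_ag.RC.CStmts2
import Pool.Agent.Work.MP_0ac1ea_ag.RC.Basic

/-!
# Item GSUB: substitution in the degenerating family (helper39)
-/

open Polynomial

namespace RC

theorem GSUB_cc (N : ℕ) (b : Polynomial Lam) :
    PowerSeries.constantCoeff (sigN N b) = b.eval 0 := by
  have h : (PowerSeries.constantCoeff (R := Lam)).comp (sigN N) = Polynomial.evalRingHom 0 := by
    apply Polynomial.ringHom_ext
    · intro a
      simp [sigN]
    · simp [sigN]
  exact congrFun (congrArg DFunLike.coe h) b

theorem pr_GSUB : S_GSUB := by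
  intro L _ N D v hv
  choose a b hb hab hval using hv
  have hbu : ∀ l, PowerSeries.constantCoeff (sigN N (b l)) ≠ 0 := by
    intro l
    rw [GSUB_cc]
    exact hb l
  have hb0 : ∀ l, sigN N (b l) ≠ 0 := by
    intro l h
    apply hbu l
    rw [h, map_zero]
  have hinj : Function.Injective (algebraMap (Polynomial Lam) (RatFunc Lam)) :=
    IsFractionRing.injective _ _
  let g : L → Ann := fun l => sigN N (a l) * (sigN N (b l))⁻¹
  have hg : ∀ l, g l * sigN N (b l) = sigN N (a l) := by
    intro l
    change sigN N (a l) * (sigN N (b l))⁻¹ * sigN N (b l) = _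
    rw [mul_assoc, PowerSeries.inv_mul_cancel _ (hbu l), mul_one]
  have key : ∀ (l : L) (a' b' : Polynomial Lam),
      D l * algebraMap (Polynomial Lam) (RatFunc Lam) b'
        = algebraMap (Polynomial Lam) (RatFunc Lam) a' → g l * sigN N b' = sigN N a' := by
    intro l a' b' h
    have h1 : a' * b l = a l * b' := by
      apply hinj
      rw [map_mul, map_mul, ← h, ← hab l]
      ring
    have h2 : sigN N a' * sigN N (b l) = sigN N (a l) * sigN N b' := by
      rw [← map_mul, h1, map_mul]
    apply mul_right_cancel₀ (hb0 l)
    rw [h2, ← hg l]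
    ring
  refine ⟨{ toFun := g
            map_one' := ?_
            map_mul' := ?_
            map_zero' := ?_
            map_add' := ?_ }, ?_, key⟩
  · have := key 1 1 1 (by rw [map_one, map_one, mul_one])
    simpa using this
  · intro l l'
    have h := key (l * l') (a l * a l') (b l * b l') (by
      rw [map_mul, map_mul, map_mul, ← hab l, ← hab l']
      ring)
    rw [map_mul, map_mul, ← hg l, ← hg l'] at h
    apply mul_right_cancel₀ (mul_ne_zero (hb0 l) (hb0 l'))
    rw [h]
    ring
  · have := key 0 0 1 (by rw [map_zero, map_zero, zero_mul])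
    simpa using this
  · intro l l'
    have h := key (l + l') (a l * b l' + a l' * b l) (b l * b l') (by
      rw [map_add, map_add, map_mul, map_mul, map_mul, ← hab l, ← hab l']
      ring)
    rw [map_add, map_mul, map_mul, map_mul, ← hg l, ← hg l'] at h
    apply mul_right_cancel₀ (mul_ne_zero (hb0 l) (hb0 l'))
    change g (l + l') * _ = (g l + g l') * _
    rw [h]
    ring
  · intro l
    change PowerSeries.constantCoeff (g l) = v l
    have h := congrArg PowerSeries.constantCoeff (hg l)
    rw [map_mul, GSUB_cc, GSUB_cc, hval l] at h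
    exact mul_right_cancel₀ (hb l) h

end RC
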