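import Pool.Agent.Work.MP_0ac1ea_ag.RC.CStmts2

/-!
# Item J1: the Jacobian matrix is invertible
-/

open Polynomial

namespace RC

namespace J1_aux

/-- a derivation of `ℂ(u)` extending `D` coefficientwise acts coefficientwise on polynomials -/
theorem exists_coeff (D : Derivation ℤ ℂ ℂ) (D' : Derivation ℤ (RatFunc ℂ) (RatFunc ℂ))
    (h1 : ∀ c, D' (RatFunc.C c) = RatFunc.C (D c)) (h2 : D' RatFunc.X = 0) (a : ℂ[X]) :
    ∃ a' : ℂ[X], (∀ n, a'.coeff n = D (a.coeff n)) ∧
      D' (algebraMap ℂ[X] (RatFunc ℂ) a) = algebraMap ℂ[X] (RatFunc ℂ) a' := by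
  induction a using Polynomial.induction_on' with
  | add p q hp hq =>
    obtain ⟨p', hp1, hp2⟩ := hp
    obtain ⟨q', hq1, hq2⟩ := hq
    refine ⟨p' + q', fun n => ?_, ?_⟩
    · rw [Polynomial.coeff_add, Polynomial.coeff_add, hp1, hq1, map_add]
    · rw [map_add, map_add, map_add, hp2, hq2]
  | monomial n c =>
    refine ⟨Polynomial.monomial n (D c), fun k => ?_, ?_⟩
    · rw [Polynomial.coeff_monomial, Polynomial.coeff_monomial]
      split_ifs with h
      · rfl
      · exact (map_zero D).symm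
    · have e : ∀ x : ℂ, algebraMap ℂ[X] (RatFunc ℂ) (Polynomial.monomial n x)
          = RatFunc.C x * RatFunc.X ^ n := by
        intro x
        rw [← Polynomial.C_mul_X_pow_eq_monomial, map_mul, map_pow, RatFunc.algebraMap_C,
          RatFunc.algebraMap_X]
      rw [e, e, Derivation.leibniz, Derivation.leibniz_pow, h1, h2]
      simp only [smul_eq_mul]
      ring

theorem natDegree_le_of_coeff (D : Derivation ℤ ℂ ℂ) (a a' : ℂ[X])
    (h : ∀ n, a'.coeff n = D (a.coeff n)) : a'.natDegree ≤ a.natDegree := by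
  rw [Polynomial.natDegree_le_iff_coeff_eq_zero]
  intro N hN
  rw [h, Polynomial.coeff_eq_zero_of_natDegree_lt hN, map_zero]

theorem regValInf_deriv (D : Derivation ℤ ℂ ℂ) (D' : Derivation ℤ (RatFunc ℂ) (RatFunc ℂ))
    (h1 : ∀ c, D' (RatFunc.C c) = RatFunc.C (D c)) (h2 : D' RatFunc.X = 0)
    (r : RatFunc ℂ) (c : ℂ) (hr : RegValInf r c) : RegValInf (D' r) (D c) := by
  obtain ⟨a, b, hb, hab, hrb, hc⟩ := hr
  obtain ⟨a', ha1, ha2⟩ := exists_coeff D D' h1 h2 a
  obtain ⟨b', hb1, hb2⟩ := exists_coeff D D' h1 h2 b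
  have da := natDegree_le_of_coeff D a a' ha1
  have db := natDegree_le_of_coeff D b b' hb1
  have hdb : (b * b).natDegree = b.natDegree + b.natDegree := Polynomial.natDegree_mul hb hb
  refine ⟨a' * b - a * b', b * b, mul_ne_zero hb hb, ?_, ?_, ?_⟩
  · rw [hdb]
    refine (Polynomial.natDegree_sub_le _ _).trans (max_le ?_ ?_)
    · exact Polynomial.natDegree_mul_le.trans (Nat.add_le_add (da.trans hab) le_rfl)
    · exact Polynomial.natDegree_mul_le.trans (Nat.add_le_add hab db)
  · have h3 : D' (r * algebraMap ℂ[X] (RatFunc ℂ) b) = D' (algebraMap ℂ[X] (RatFunc ℂ) a) := by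
      rw [hrb]
    rw [Derivation.leibniz, ha2, hb2, smul_eq_mul, smul_eq_mul] at h3
    rw [map_mul, map_sub, map_mul, map_mul, ← h3, ← hrb]
    ring
  · rw [hdb, Polynomial.coeff_sub,
      Polynomial.coeff_mul_add_eq_of_natDegree_le (da.trans hab) le_rfl,
      Polynomial.coeff_mul_add_eq_of_natDegree_le hab db, Polynomial.leadingCoeff_mul,
      ha1, hb1, hc, Polynomial.leadingCoeff, Derivation.leibniz, smul_eq_mul, smul_eq_mul]
    ring

theorem regValInf_const (c : ℂ) : RegValInf (RatFunc.C c) c := by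
  refine ⟨Polynomial.C c, 1, one_ne_zero, ?_, ?_, ?_⟩
  · simp
  · rw [map_one, mul_one, RatFunc.algebraMap_C]
  · simp

theorem regValInf_add {r r' : RatFunc ℂ} {c c' : ℂ} (h : RegValInf r c) (h' : RegValInf r' c') :
    RegValInf (r + r') (c + c') := by
  obtain ⟨a, b, hb, hab, hrb, hc⟩ := h
  obtain ⟨a', b', hb', hab', hrb', hc'⟩ := h'
  have hdb : (b * b').natDegree = b.natDegree + b'.natDegree := Polynomial.natDegree_mul hb hb'
  refine ⟨a * b' + b * a', b * b', mul_ne_zero hb hb', ?_, ?_, ?_⟩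
  · rw [hdb]
    refine (Polynomial.natDegree_add_le _ _).trans (max_le ?_ ?_)
    · exact Polynomial.natDegree_mul_le.trans (Nat.add_le_add hab le_rfl)
    · exact Polynomial.natDegree_mul_le.trans (Nat.add_le_add le_rfl hab')
  · rw [map_mul, map_add, map_mul, map_mul, ← hrb, ← hrb']
    ring
  · rw [hdb, Polynomial.coeff_add, Polynomial.coeff_mul_add_eq_of_natDegree_le hab le_rfl,
      Polynomial.coeff_mul_add_eq_of_natDegree_le le_rfl hab', Polynomial.leadingCoeff_mul, hc, hc',
      Polynomial.leadingCoeff, Polynomial.leadingCoeff]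
    ring

theorem regValInf_mul {r r' : RatFunc ℂ} {c c' : ℂ} (h : RegValInf r c) (h' : RegValInf r' c') :
    RegValInf (r * r') (c * c') := by
  obtain ⟨a, b, hb, hab, hrb, hc⟩ := h
  obtain ⟨a', b', hb', hab', hrb', hc'⟩ := h'
  have hdb : (b * b').natDegree = b.natDegree + b'.natDegree := Polynomial.natDegree_mul hb hb'
  refine ⟨a * a', b * b', mul_ne_zero hb hb', ?_, ?_, ?_⟩
  · rw [hdb]
    exact Polynomial.natDegree_mul_le.trans (Nat.add_le_add hab hab')
  · rw [map_mul, map_mul, ← hrb, ← hrb']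
    ring
  · rw [hdb, Polynomial.coeff_mul_add_eq_of_natDegree_le hab hab', Polynomial.leadingCoeff_mul, hc, hc']
    ring

theorem regValInf_zero {c : ℂ} (h : RegValInf (0 : RatFunc ℂ) c) : c = 0 := by
  obtain ⟨a, b, hb, hab, hrb, hc⟩ := h
  rw [zero_mul] at hrb
  have ha : a = 0 := by
    apply RatFunc.algebraMap_injective ℂ
    rw [← hrb, map_zero]
  rw [ha, Polynomial.coeff_zero] at hc
  rcases mul_eq_zero.1 hc.symm with h | h
  · exact h
  · exact absurd (Polynomial.leadingCoeff_eq_zero.1 h) hb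

/-- the ring of pairs (function regular at infinity, value) -/
def pairs : Subring (RatFunc ℂ × ℂ) where
  carrier := {x | RegValInf x.1 x.2}
  mul_mem' := fun h h' => regValInf_mul h h'
  one_mem' := by
    have := regValInf_const 1
    rw [map_one] at this
    exact this
  add_mem' := fun h h' => regValInf_add h h'
  zero_mem' := by
    have := regValInf_const 0
    rw [map_zero] at this
    exact this
  neg_mem' := by
    intro x hx
    have h1 := regValInf_mul (regValInf_const (-1)) hx
    rw [map_neg, map_one, neg_one_mul, neg_one_mul] at h1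
    exact h1

end J1_aux

open J1_aux in
theorem pr_J1 : S_J1 := by
  intro n D D' h1 h2 r v hr hv h0
  have hmem : ∀ i j, ((D' j (r i), D j (v i)) : RatFunc ℂ × ℂ) ∈ pairs := fun i j =>
    regValInf_deriv (D j) (D' j) (h1 j) (h2 j) (r i) (v i) (hr i)
  have hdet : (Matrix.of fun i j => ((D' j (r i), D j (v i)) : RatFunc ℂ × ℂ)).det ∈ pairs := by
    rw [Matrix.det_apply]
    refine Subring.sum_mem _ fun σ _ => ?_
    rw [Units.smul_def]
    exact Subring.zsmul_mem _ (Subring.prod_mem _ fun i _ => hmem _ _) _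
  have e1 : ((Matrix.of fun i j => ((D' j (r i), D j (v i)) : RatFunc ℂ × ℂ)).det).1
      = (Matrix.of fun i j => D' j (r i)).det := by
    have := RingHom.map_det (RingHom.fst (RatFunc ℂ) ℂ)
      (Matrix.of fun i j => ((D' j (r i), D j (v i)) : RatFunc ℂ × ℂ))
    exact this
  have e2 : ((Matrix.of fun i j => ((D' j (r i), D j (v i)) : RatFunc ℂ × ℂ)).det).2 = 1 := by
    have := RingHom.map_det (RingHom.snd (RatFunc ℂ) ℂ)
      (Matrix.of fun i j => ((D' j (r i), D j (v i)) : RatFunc ℂ × ℂ))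
    have h3 : (RingHom.snd (RatFunc ℂ) ℂ).mapMatrix
        (Matrix.of fun i j => ((D' j (r i), D j (v i)) : RatFunc ℂ × ℂ)) = 1 := by
      ext i j
      rw [RingHom.mapMatrix_apply, Matrix.map_apply, Matrix.of_apply, Matrix.one_apply]
      exact hv i j
    rw [h3, Matrix.det_one] at this
    exact this
  have h4 : RegValInf (0 : RatFunc ℂ) 1 := by
    have h5 : RegValInf _ _ := hdet
    rw [e1, e2, h0] at h5
    exact h5
  exact one_ne_zero (regValInf_zero h4)

end RC
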