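import Pool.Agent.Work.MP_0ac1ea_ag.RC.CStmts2

open Polynomial

namespace RC

namespace J2_aux

/-- coefficientwise application of `D` -/
noncomputable def dco (D : Derivation ℤ ℂ ℂ) : ℂ[X] →+ ℂ[X] where
  toFun p := p.sum fun i a => Polynomial.monomial i (D a)
  map_zero' := by simp
  map_add' p q := by
    rw [Polynomial.sum_add_index]
    · intro i; simp
    · intro i a b; simp

theorem dco_monomial (D : Derivation ℤ ℂ ℂ) (i : ℕ) (a : ℂ) :
    dco D (Polynomial.monomial i a) = Polynomial.monomial i (D a) := by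
  change (Polynomial.monomial i a).sum (fun i a => Polynomial.monomial i (D a)) = _
  rw [Polynomial.sum_monomial_index]
  simp

theorem coeff_dco (D : Derivation ℤ ℂ ℂ) (p : ℂ[X]) (i : ℕ) : (dco D p).coeff i = D (p.coeff i) := by
  induction p using Polynomial.induction_on' with
  | add p q hp hq => simp only [map_add, Polynomial.coeff_add, hp, hq]
  | monomial j a =>
    rw [dco_monomial, Polynomial.coeff_monomial, Polynomial.coeff_monomial]
    split_ifs <;> simp

theorem eval_dco (D : Derivation ℤ ℂ ℂ) (p : ℂ[X]) : (dco D p).eval 0 = D (p.eval 0) := by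
  rw [← Polynomial.coeff_zero_eq_eval_zero, ← Polynomial.coeff_zero_eq_eval_zero, coeff_dco]

theorem D'_alg (D : Derivation ℤ ℂ ℂ) (D' : Derivation ℤ (RatFunc ℂ) (RatFunc ℂ))
    (h1 : ∀ c, D' (RatFunc.C c) = RatFunc.C (D c)) (h2 : D' RatFunc.X = 0) (p : ℂ[X]) :
    D' (algebraMap ℂ[X] (RatFunc ℂ) p) = algebraMap ℂ[X] (RatFunc ℂ) (dco D p) := by
  induction p using Polynomial.induction_on' with
  | add p q hp hq => simp only [map_add, hp, hq]
  | monomial j a =>
    rw [dco_monomial, ← Polynomial.C_mul_X_pow_eq_monomial, ← Polynomial.C_mul_X_pow_eq_monomial,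
      RingHom.map_mul, RingHom.map_mul, RingHom.map_pow, RatFunc.algebraMap_C,
      RatFunc.algebraMap_C, RatFunc.algebraMap_X, Derivation.leibniz, Derivation.leibniz_pow, h2,
      h1]
    simp only [smul_eq_mul, mul_zero, smul_zero, zero_add]
    ring

end J2_aux

open J2_aux in
theorem pr_J2 : S_J2 := by
  intro D D' h1 h2 r c ⟨a, b, hb, hr, ha⟩
  refine ⟨dco D a * b - a * dco D b, b * b, ?_, ?_, ?_⟩
  · rw [Polynomial.eval_mul]
    exact mul_ne_zero hb hb
  · have hA := D'_alg D D' h1 h2 a
    have hB := D'_alg D D' h1 h2 b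
    have hL := congrArg D' hr
    rw [Derivation.leibniz, hA, hB] at hL
    simp only [smul_eq_mul] at hL
    rw [map_mul, map_sub, map_mul, map_mul, ← hL, ← hr]
    ring
  · rw [Polynomial.eval_sub, Polynomial.eval_mul, Polynomial.eval_mul, Polynomial.eval_mul,
      eval_dco, eval_dco, ha, Derivation.leibniz]
    simp only [smul_eq_mul]
    ring

end RC
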