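import Pool.Agent.Work.MP_0ac1ea_ag.RC.CStmts2

/-!
# J3: expansion at 0
-/

open Polynomial

namespace RC

namespace J3_aux

/-- the power series `X^m (1 - X)` -/
noncomputable def U (m : ℕ) : PowerSeries ℂ := PowerSeries.X ^ m * (1 - PowerSeries.X)

theorem jL_U (m : ℕ) : jL (U m) = uLam m := by
  rw [U, map_mul, map_pow, map_sub, map_one]
  rfl

/-- substitution of `U` -/
noncomputable def sb (m : ℕ) : ℂ[X] →+* PowerSeries ℂ :=
  Polynomial.eval₂RingHom (PowerSeries.C) (U m)

theorem ev_eq (m : ℕ) (ev : RatFunc ℂ →+* Lam) (h1 : ∀ c, ev (RatFunc.C c) = cL c)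
    (h2 : ev RatFunc.X = uLam m) (p : ℂ[X]) :
    ev (algebraMap ℂ[X] (RatFunc ℂ) p) = jL (sb m p) := by
  have h : ev.comp (algebraMap ℂ[X] (RatFunc ℂ)) = jL.comp (sb m) := by
    apply Polynomial.ringHom_ext
    · intro c
      rw [RingHom.comp_apply, RingHom.comp_apply, RatFunc.algebraMap_C, h1]
      simp [sb, cL]
    · rw [RingHom.comp_apply, RingHom.comp_apply, RatFunc.algebraMap_X, h2, ← jL_U]
      simp [sb]
  exact congrArg (fun g : ℂ[X] →+* Lam => g p) h

theorem cc_sb (m : ℕ) (hm : 1 ≤ m) (p : ℂ[X]) :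
    PowerSeries.constantCoeff (sb m p) = p.eval 0 := by
  have hU : PowerSeries.constantCoeff (U m) = 0 := by
    rw [U, map_mul, map_pow, PowerSeries.constantCoeff_X, zero_pow (by omega), zero_mul]
  have h : (PowerSeries.constantCoeff (R := ℂ)).comp (sb m) = Polynomial.evalRingHom 0 := by
    apply Polynomial.ringHom_ext
    · intro c
      simp [sb]
    · simp [sb, hU]
  exact congrArg (fun g : ℂ[X] →+* ℂ => g p) h

end J3_aux

open J3_aux in
theorem pr_J3 : S_J3 := by
  intro m hm ev h1 h2 r c hr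
  obtain ⟨a, b, hb, hab, ha⟩ := hr
  have e1 : ev r * jL (sb m b) = jL (sb m a) := by
    rw [← ev_eq m ev h1 h2, ← ev_eq m ev h1 h2, ← map_mul, hab]
  have hB : PowerSeries.constantCoeff (sb m b) ≠ 0 := by
    rw [cc_sb m hm]; exact hb
  have hinv : sb m b * (sb m b)⁻¹ = 1 := PowerSeries.mul_inv_cancel _ hB
  have hX : (X : ℂ[X]) ∣ a - C c * b := by
    rw [Polynomial.X_dvd_iff, Polynomial.coeff_zero_eq_eval_zero, Polynomial.eval_sub,
      Polynomial.eval_mul, Polynomial.eval_C, ha, sub_self]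
  obtain ⟨q, hq⟩ := hX
  have hq' : sb m a = PowerSeries.C c * sb m b + U m * sb m q := by
    have h3 : sb m (a - C c * b) = sb m (X * q) := by rw [hq]
    rw [map_sub, map_mul, map_mul] at h3
    have h4 : sb m (C c) = PowerSeries.C c := by simp [sb]
    have h5 : sb m X = U m := by simp [sb]
    rw [h4, h5] at h3
    rw [← h3]; ring
  refine ⟨(1 - PowerSeries.X) * sb m q * (sb m b)⁻¹, ?_⟩
  have e2 : ev r = jL (sb m a * (sb m b)⁻¹) := by
    rw [map_mul, ← e1, mul_assoc, ← map_mul, hinv, map_one, mul_one]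
  rw [e2, hq']
  have e3 : (PowerSeries.C c * sb m b + U m * sb m q) * (sb m b)⁻¹ =
      PowerSeries.C c + PowerSeries.X ^ m * ((1 - PowerSeries.X) * sb m q * (sb m b)⁻¹) := by
    have e4 : (PowerSeries.C c * sb m b + U m * sb m q) * (sb m b)⁻¹ =
        PowerSeries.C c * (sb m b * (sb m b)⁻¹) + U m * sb m q * (sb m b)⁻¹ := by ring
    rw [e4, hinv, mul_one, U]
    ring
  rw [e3, map_add]
  rfl

end RC
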