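import Pool.Agent.Work.MP_0ac1ea_ag.RC.CStmts5
import Pool.Agent.Work.MP_0ac1ea_ag.RC.Basic

/-!
# Item JW (helper31)
-/

open Polynomial

namespace RC

theorem NJW_coeff (A : Polynomial (PowerSeries ℂ)) (k : ℕ) :
    PowerSeries.coeff k (jP A) = jL (∑ i ∈ Finset.range (A.natDegree + 1),
      PowerSeries.C (PowerSeries.coeff k (A.coeff i)) * PowerSeries.X ^ i) := by
  rw [jP, Polynomial.coe_eval₂RingHom, Polynomial.eval₂_eq_sum_range, map_sum, map_sum]
  refine Finset.sum_congr rfl fun i _ => ?_
  rw [← map_pow, PowerSeries.coeff_mul_C, PowerSeries.coeff_map, map_mul, map_pow, jL_X, jL_C]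

theorem NJW_jP_injective : Function.Injective jP := by
  rw [injective_iff_map_eq_zero]
  intro A hA
  have h1 : ∀ k j, PowerSeries.coeff k (A.coeff j) = 0 := by
    intro k j
    by_cases hj : j < A.natDegree + 1
    · have h2 := NJW_coeff A k
      rw [hA, map_zero, ← map_zero jL] at h2
      have h3 := congrArg (PowerSeries.coeff j) (jL_injective h2)
      rw [map_zero, map_sum, Finset.sum_eq_single j] at h3
      · rw [PowerSeries.coeff_C_mul, PowerSeries.coeff_X_pow, if_pos rfl, mul_one] at h3
        exact h3.symm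
      · intro i _ hij
        rw [PowerSeries.coeff_C_mul, PowerSeries.coeff_X_pow, if_neg (Ne.symm hij), mul_zero]
      · intro h
        exact absurd (Finset.mem_range.2 hj) h
    · rw [Polynomial.coeff_eq_zero_of_natDegree_lt (by omega), map_zero]
  ext j k
  rw [h1 k j]
  simp

theorem pr_JW : S_JW := by
  refine ⟨⟨Polynomial.eval₂RingHom (PowerSeries.map PowerSeries.C) lamW, ?_, ?_, ?_⟩,
    NJW_jP_injective, ?_⟩
  · have h : (iW.comp (Polynomial.eval₂RingHom (PowerSeries.map PowerSeries.C) lamW)) = jP := by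
      refine Polynomial.ringHom_ext ?_ ?_
      · intro c
        rw [RingHom.comp_apply, jP, Polynomial.coe_eval₂RingHom, Polynomial.coe_eval₂RingHom,
          Polynomial.eval₂_C, Polynomial.eval₂_C]
        ext n : 1
        rw [coeff_iW, PowerSeries.coeff_map, PowerSeries.coeff_map, jL_C]
      · rw [RingHom.comp_apply, jP, Polynomial.coe_eval₂RingHom, Polynomial.coe_eval₂RingHom,
          Polynomial.eval₂_X, Polynomial.eval₂_X, iW_lamW]
    intro A
    exact RingHom.congr_fun h A
  · intro c
    rw [Polynomial.coe_eval₂RingHom, Polynomial.eval₂_C]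
  · rw [Polynomial.coe_eval₂RingHom, Polynomial.eval₂_X]
  · exact (IsFractionRing.injective (Polynomial Lam) (RatFunc Lam)).comp
      (Polynomial.map_injective jL jL_injective)

end RC
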