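import Pool.Agent.Work.MP_0ac1ea_ag.RC.CStmts3
import Pool.Agent.Work.MP_0ac1ea_ag.RC.Basic

/-!
# Item LEMV: Lemma V (assembly)
-/

open Polynomial

namespace RC

theorem pr_LEMV (hV1 : S_V1) (hV2 : S_V2) : S_LEMV := by
  intro k _ _ F _ _ hF R hR m
  obtain ⟨R', hRR', m', hFG, hm', hfr⟩ := hV1 k F hF R hR m
  haveI : Algebra.FiniteType k R' := (Subalgebra.fg_iff_finiteType R').mp hFG
  obtain ⟨θ', hinj, hc, h0⟩ := hV2 k R' m'
  haveI : IsFractionRing R' F := by
    refine IsFractionRing.of_field R' F ?_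
    intro z
    obtain ⟨b, c, hc0, hbc⟩ := hfr z
    exact ⟨b, c, by
      have : (algebraMap R' F c) ≠ 0 := hc0
      field_simp
      exact hbc⟩
  have hj : Function.Injective (jL.comp θ') := jL_injective.comp hinj
  refine ⟨IsFractionRing.lift (K := F) hj, ?_, ?_⟩
  · intro c
    have h1 : algebraMap k F c = algebraMap R' F (algebraMap k R' c) := rfl
    rw [h1, IsFractionRing.lift_algebraMap, RingHom.comp_apply, hc]
    rfl
  · intro r
    refine ⟨θ' ⟨r, hRR' r.2⟩, ?_, ?_⟩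
    · exact IsFractionRing.lift_algebraMap hj (⟨r, hRR' r.2⟩ : R')
    · rw [h0, hm']

end RC
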