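import Pool.Agent.Work.MP_0ac1ea_ag.RC.CStmts3

/-!
# Item LINE: the generic line is injective
-/

open Polynomial

namespace RC

theorem pr_LINE : S_LINE := by
  intro k e c hc
  rw [injective_iff_map_eq_zero]
  intro p hp
  have h1 : ((Polynomial.evalRingHom (1 : ℂ)).comp
      (MvPolynomial.eval₂Hom (Polynomial.C.comp k.subtype)
        (fun i => Polynomial.C (c i) * Polynomial.X) : MvPolynomial (Fin e) k →+* ℂ[X])) =
      (MvPolynomial.aeval c : MvPolynomial (Fin e) k →ₐ[k] ℂ).toRingHom := by
    apply MvPolynomial.ringHom_ext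
    · intro r
      simp only [RingHom.comp_apply, MvPolynomial.eval₂Hom_C, Polynomial.coe_evalRingHom,
        Polynomial.eval_C]
      show k.subtype r = MvPolynomial.aeval c (MvPolynomial.C r)
      rw [MvPolynomial.aeval_C]
      rfl
    · intro i
      simp only [RingHom.comp_apply, MvPolynomial.eval₂Hom_X', Polynomial.coe_evalRingHom,
        Polynomial.eval_mul, Polynomial.eval_C, Polynomial.eval_X, mul_one]
      show c i = MvPolynomial.aeval c (MvPolynomial.X i)
      rw [MvPolynomial.aeval_X]
  have h2 := congrArg (fun f : MvPolynomial (Fin e) k →+* ℂ => f p) h1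
  simp only [RingHom.comp_apply, hp, map_zero] at h2
  have h3 : MvPolynomial.aeval c p = 0 := h2.symm
  exact (map_eq_zero_iff _ hc).1 h3

end RC
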