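import Pool.Agent.Work.MP_0ac1ea_ag.RC.CStmts3

/-!
# Item MAPK: extension of scalars for curves
-/

open Polynomial

namespace RC

theorem pr_MAPK (hMAPR : S_MAPR) : S_MAPK := by
  intro L _ ι _ M y S F K _ _ θ f0 hf0
  obtain ⟨Θ, h1, h2, h3, -, -⟩ := hMAPR F K θ
  refine ⟨Θ.comp f0, ?_, ?_, ?_, ?_⟩
  · obtain ⟨d, hd, hd2⟩ := hf0
    refine ⟨fun i => (d i).map θ, ?_, ?_⟩
    · rw [← Polynomial.map_sum, hd, Polynomial.map_one]
    · intro i j hj
      obtain ⟨n, hn⟩ := hd2 i j hj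
      refine ⟨n.map θ, ?_⟩
      rw [RingHom.comp_apply, ← h1, ← map_mul, hn, h1]
  · intro l p c h
    exact h2 (f0 l) p c h
  · intro l c h
    exact h3 (f0 l) c h
  · intro l c h
    rw [RingHom.comp_apply, h, ← RatFunc.algebraMap_C, h1, Polynomial.map_C, RatFunc.algebraMap_C]

end RC
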