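import Pool.Agent.Work.MP_0ac1ea_ag.RC.CStmts3

/-!
# Item MAPR: coefficientwise extension to rational functions, regular values
-/

open Polynomial

namespace RC

namespace MAPR_aux

variable {F K : Type} [Field F] [Field K]

theorem inj (θ : F →+* K) : Function.Injective
    ((algebraMap K[X] (RatFunc K)).comp (Polynomial.mapRingHom θ)) := by
  intro a b h
  have h1 := (IsFractionRing.injective K[X] (RatFunc K)) h
  exact Polynomial.map_injective θ θ.injective h1

noncomputable def T (θ : F →+* K) : RatFunc F →+* RatFunc K :=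
  IsFractionRing.lift (K := RatFunc F) (inj θ)

theorem T_alg (θ : F →+* K) (p : F[X]) : T θ (algebraMap F[X] (RatFunc F) p)
    = algebraMap K[X] (RatFunc K) (p.map θ) := by
  rw [T, IsFractionRing.lift_algebraMap]; rfl

/-- cross multiplication -/
theorem nd (r : RatFunc F) :
    r * algebraMap F[X] (RatFunc F) r.denom = algebraMap F[X] (RatFunc F) r.num := by
  have hd : algebraMap F[X] (RatFunc F) r.denom ≠ 0 := by
    rw [Ne, map_eq_zero_iff _ (IsFractionRing.injective F[X] (RatFunc F))]
    exact r.denom_ne_zero
  have h := RatFunc.num_div_denom r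
  rw [div_eq_iff hd] at h
  exact h.symm

theorem cross (θ : F →+* K) (r : RatFunc F) (a' b' : K[X])
    (h : T θ r * algebraMap K[X] (RatFunc K) b' = algebraMap K[X] (RatFunc K) a') :
    (r.num.map θ) * b' = a' * (r.denom.map θ) := by
  apply IsFractionRing.injective K[X] (RatFunc K)
  have h2 := congrArg (T θ) (nd r)
  rw [map_mul, T_alg, T_alg] at h2
  rw [map_mul, map_mul, ← h2, ← h]
  ring

end MAPR_aux

open MAPR_aux in
theorem pr_MAPR : S_MAPR := by
  intro F K _ _ θ
  refine ⟨T θ, T_alg θ, ?_, ?_, ?_, ?_⟩
  · rintro r p c ⟨a, b, hb, hr, ha⟩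
    refine ⟨a.map θ, b.map θ, ?_, ?_, ?_⟩
    · rw [Polynomial.eval_map_apply]
      exact (map_ne_zero θ).mpr hb
    · rw [← T_alg, ← T_alg, ← map_mul, hr]
    · rw [Polynomial.eval_map_apply, Polynomial.eval_map_apply, ha, map_mul]
  · rintro r c ⟨a, b, hb, hd, hr, ha⟩
    refine ⟨a.map θ, b.map θ, ?_, ?_, ?_, ?_⟩
    · exact (Polynomial.map_ne_zero_iff θ.injective).mpr hb
    · rw [Polynomial.natDegree_map, Polynomial.natDegree_map]; exact hd
    · rw [← T_alg, ← T_alg, ← map_mul, hr]
    · rw [Polynomial.natDegree_map, Polynomial.coeff_map, Polynomial.leadingCoeff_map, ha, map_mul]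
  · rintro r p c ⟨a', b', hb, hr, ha⟩
    have hx := cross θ r a' b' hr
    have he := congrArg (Polynomial.eval (θ p)) hx
    rw [Polynomial.eval_mul, Polynomial.eval_mul, Polynomial.eval_map_apply,
      Polynomial.eval_map_apply, ha] at he
    have he2 : θ (r.num.eval p) = c * θ (r.denom.eval p) := by
      apply mul_right_cancel₀ hb
      rw [he]; ring
    have hd : r.denom.eval p ≠ 0 := by
      intro h0
      rw [h0, map_zero, mul_zero, map_eq_zero] at he2
      obtain ⟨u, v, huv⟩ := RatFunc.isCoprime_num_denom r
      have := congrArg (Polynomial.eval p) huv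
      rw [Polynomial.eval_add, Polynomial.eval_mul, Polynomial.eval_mul, h0, he2] at this
      simp at this
    refine ⟨r.num.eval p / r.denom.eval p, ?_, r.num, r.denom, hd, ?_, ?_⟩
    · rw [map_div₀, he2, mul_div_assoc, div_self ((map_ne_zero θ).mpr hd), mul_one]
    · exact nd r
    · rw [div_mul_cancel₀ _ hd]
  · rintro r c ⟨a', b', hb, hdeg, hr, ha⟩
    have hx := cross θ r a' b' hr
    have hden : r.denom ≠ 0 := r.denom_ne_zero
    have hdenm : r.denom.map θ ≠ 0 := (Polynomial.map_ne_zero_iff θ.injective).mpr hden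
    have hle : r.num.natDegree ≤ r.denom.natDegree := by
      by_cases hn : r.num = 0
      · rw [hn]; simp
      · have hnm : r.num.map θ ≠ 0 := (Polynomial.map_ne_zero_iff θ.injective).mpr hn
        have ha0 : a' ≠ 0 := by
          rintro rfl
          rw [zero_mul] at hx
          exact (mul_ne_zero hnm hb) hx
        have h1 := congrArg Polynomial.natDegree hx
        rw [Polynomial.natDegree_mul hnm hb, Polynomial.natDegree_mul ha0 hdenm,
          Polynomial.natDegree_map, Polynomial.natDegree_map] at h1
        omega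
    have hc := congrArg (fun q => Polynomial.coeff q (r.denom.natDegree + b'.natDegree)) hx
    beta_reduce at hc
    rw [Polynomial.coeff_mul_add_eq_of_natDegree_le (by rw [Polynomial.natDegree_map]; exact hle)
      le_rfl, add_comm r.denom.natDegree,
      Polynomial.coeff_mul_add_eq_of_natDegree_le hdeg
      (by rw [Polynomial.natDegree_map]), Polynomial.coeff_map, Polynomial.coeff_map, ha] at hc
    have hbl : b'.coeff b'.natDegree ≠ 0 := by
      rw [Polynomial.coeff_natDegree]; exact Polynomial.leadingCoeff_ne_zero.mpr hb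
    have he2 : θ (r.num.coeff r.denom.natDegree) = c * θ (r.denom.coeff r.denom.natDegree) := by
      apply mul_right_cancel₀ hbl
      rw [hc, Polynomial.coeff_natDegree (p := b')]; ring
    have hd : r.denom.coeff r.denom.natDegree ≠ 0 := by
      rw [Polynomial.coeff_natDegree]; exact Polynomial.leadingCoeff_ne_zero.mpr hden
    refine ⟨r.num.coeff r.denom.natDegree / r.denom.coeff r.denom.natDegree, ?_, r.num, r.denom,
      hden, hle, ?_, ?_⟩
    · rw [map_div₀, he2, mul_div_assoc, div_self ((map_ne_zero θ).mpr hd), mul_one]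
    · exact nd r
    · rw [← Polynomial.coeff_natDegree (p := r.denom), div_mul_cancel₀ _ hd]

end RC
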