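import Pool.Agent.Work.MP_0ac1ea_ag.RC.CStmts5
import Pool.Agent.Work.MP_0ac1ea_ag.RC.Basic

/-!
# The change of coordinate `u ↦ 1 - u`
-/

open Polynomial

namespace RC

namespace NMOB

/-- `p ↦ p(1 - X)` -/
noncomputable def phi : ℂ[X] →+* ℂ[X] := Polynomial.compRingHom (1 - X)

theorem phi_apply (p : ℂ[X]) : phi p = p.comp (1 - X) := rfl

theorem phi_phi (p : ℂ[X]) : phi (phi p) = p := by
  rw [phi_apply, phi_apply, comp_assoc]; simp

theorem phi_injective : Function.Injective phi := fun p q h => by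
  rw [← phi_phi p, h, phi_phi]

theorem one_sub_X : (1 - X : ℂ[X]) = C (-1) * X + C 1 := by
  simp [sub_eq_add_neg, add_comm]

theorem natDegree_phi (p : ℂ[X]) : (phi p).natDegree = p.natDegree := by
  have h : (1 - X : ℂ[X]).natDegree = 1 := by
    rw [one_sub_X]; exact natDegree_linear (by norm_num)
  rw [phi_apply, natDegree_comp, h, mul_one]

theorem leadingCoeff_phi (p : ℂ[X]) :
    (phi p).leadingCoeff = p.leadingCoeff * (-1) ^ p.natDegree := by
  have h : (1 - X : ℂ[X]).natDegree = 1 := by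
    rw [one_sub_X]; exact natDegree_linear (by norm_num)
  have h2 : (1 - X : ℂ[X]).leadingCoeff = -1 := by
    rw [one_sub_X]; exact leadingCoeff_linear (by norm_num)
  rw [phi_apply, leadingCoeff_comp (by omega), h2]

theorem eval_phi (p : ℂ[X]) (t : ℂ) : (phi p).eval (1 - t) = p.eval t := by
  rw [phi_apply, eval_comp]; simp

/-- the extension to rational functions -/
noncomputable def Phi : RatFunc ℂ →+* RatFunc ℂ :=
  IsFractionRing.lift (A := ℂ[X]) (K := RatFunc ℂ)
    (g := (algebraMap ℂ[X] (RatFunc ℂ)).comp phi)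
    ((IsFractionRing.injective ℂ[X] (RatFunc ℂ)).comp phi_injective)

theorem Phi_algebraMap (p : ℂ[X]) :
    Phi (algebraMap ℂ[X] (RatFunc ℂ) p) = algebraMap ℂ[X] (RatFunc ℂ) (phi p) := by
  unfold Phi
  rw [IsFractionRing.lift_algebraMap]
  rfl

theorem rel {r : RatFunc ℂ} {a b : ℂ[X]}
    (h : r * algebraMap ℂ[X] (RatFunc ℂ) b = algebraMap ℂ[X] (RatFunc ℂ) a) :
    Phi r * algebraMap ℂ[X] (RatFunc ℂ) (phi b) = algebraMap ℂ[X] (RatFunc ℂ) (phi a) := by
  rw [← Phi_algebraMap, ← Phi_algebraMap, ← map_mul, h]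

end NMOB

open NMOB

theorem pr_MOB : S_MOB := by
  intro L _ ι _ M y S f hf
  refine ⟨Phi.comp f, ?_, ?_, ?_, ?_⟩
  · obtain ⟨d, hd1, hd2⟩ := hf
    refine ⟨fun i => phi (d i), by rw [← map_sum, hd1, map_one], fun i j hj => ?_⟩
    obtain ⟨n, hn⟩ := hd2 i j hj
    exact ⟨phi n, rel hn⟩
  · rintro l p c ⟨a, b, h1, h2, h3⟩
    exact ⟨phi a, phi b, by rw [eval_phi]; exact h1, rel h2, by rw [eval_phi, eval_phi]; exact h3⟩
  · rintro l c ⟨a, b, h1, h2, h3, h4⟩
    refine ⟨phi a, phi b, ?_, by rw [natDegree_phi, natDegree_phi]; exact h2, rel h3, ?_⟩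
    · intro h
      exact h1 (phi_injective (by rw [h, map_zero]))
    · rw [natDegree_phi, leadingCoeff_phi, ← mul_assoc, ← h4]
      rcases h2.eq_or_lt with h | h
      · rw [← h, ← leadingCoeff]
        conv_lhs => rw [← natDegree_phi a, ← leadingCoeff]
        rw [leadingCoeff_phi]
      · rw [coeff_eq_zero_of_natDegree_lt h, zero_mul]
        exact coeff_eq_zero_of_natDegree_lt (by rw [natDegree_phi]; exact h)
  · intro l c h
    show Phi (f l) = _
    rw [h, ← RatFunc.algebraMap_C, Phi_algebraMap, phi_apply, C_comp]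

end RC
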