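import Pool.Agent.Work.MP_0ac1ea_ag.RC.CStmts6
import Pool.Agent.Work.MP_0ac1ea_ag.RC.Basic

/-!
# The Newton lemma: assembly
-/

open Polynomial

namespace RC

namespace NEWT_aux

/-- the constants `k₁ → W` -/
private noncomputable def cc (k₁ : Subfield ℂ) : k₁ →+* W :=
  ((PowerSeries.C (R := PowerSeries ℂ)).comp (PowerSeries.C (R := ℂ))).comp k₁.subtype

private theorem iW_cc (k₁ : Subfield ℂ) : iW.comp (cc k₁) = cA.comp k₁.subtype := by
  ext1 a
  simp only [cc, RingHom.comp_apply]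
  rw [iW_C, jL_C]
  rfl

private theorem evP_map {k₁ : Subfield ℂ} {L : Type} [Field L] [Algebra k₁ L] {n : ℕ}
    (t : Fin n → L) (G : L →+* Ann) (hG : Ov k₁ cA G) (v : L)
    (Q : Polynomial (MvPolynomial (Fin n) k₁)) :
    evP (cA.comp k₁.subtype) (fun i => G (t i)) (G v) Q = G (evP (algebraMap k₁ L) t v Q) := by
  unfold evP
  rw [Polynomial.hom_eval₂]
  congr 1
  apply MvPolynomial.ringHom_ext
  · intro a
    simp only [MvPolynomial.coe_eval₂Hom, MvPolynomial.eval₂_C, RingHom.comp_apply]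
    exact (hG a).symm
  · intro i
    simp only [MvPolynomial.coe_eval₂Hom, MvPolynomial.eval₂_X, RingHom.comp_apply]

private theorem den_of_dvd {L : Type} [Field L] (G : L →+* Ann) (l : L) (h w H : W)
    (hw : iW h * G l = iW w) (hd : h ∣ H) : ∃ b, iW H * G l = iW b := by
  obtain ⟨c, rfl⟩ := hd
  refine ⟨c * w, ?_⟩
  rw [map_mul, map_mul, ← hw]
  ring

end NEWT_aux

open NEWT_aux in
theorem pr_NEWT (hFIX : S_NFIX) (hPOL : S_NPOL) (hTAY : S_NTAY) (hUNI : S_NUNI) : S_NEWT := by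
  classical
  intro k₁ L _ _ M n y t ht y0 G hG hG0 hden
  choose P hP0 hP1 using fun j => hPOL k₁ L n t ht (y j)
  choose Hd wd hHd hwd using hden
  set p1 : Fin M → L := fun j => evP (algebraMap k₁ L) t (y j) (derivative (P j)) with hp1
  have hp1ne : ∀ j, p1 j ≠ 0 := hP1
  set H : W := (∏ i, Hd (t i)) * ((∏ j, Hd (y j)) * ∏ j, Hd (p1 j)⁻¹) with hHdef
  have hH0 : PowerSeries.constantCoeff H ≠ 0 := by
    rw [hHdef, map_mul, map_mul, map_prod, map_prod, map_prod]
    refine mul_ne_zero (Finset.prod_ne_zero_iff.mpr fun i _ => hHd _)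
      (mul_ne_zero (Finset.prod_ne_zero_iff.mpr fun i _ => hHd _)
        (Finset.prod_ne_zero_iff.mpr fun i _ => hHd _))
  have hdt : ∀ i, ∃ b, iW H * G (t i) = iW b := fun i =>
    den_of_dvd G (t i) _ _ H (hwd (t i))
      (dvd_mul_of_dvd_left (Finset.dvd_prod_of_mem (fun i => Hd (t i)) (Finset.mem_univ i)) _)
  have hdy : ∀ j, ∃ b, iW H * G (y j) = iW b := fun j =>
    den_of_dvd G (y j) _ _ H (hwd (y j))
      (dvd_mul_of_dvd_right (dvd_mul_of_dvd_left
        (Finset.dvd_prod_of_mem (fun j => Hd (y j)) (Finset.mem_univ j)) _) _)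
  have hdp : ∀ j, ∃ b, iW H * G (p1 j)⁻¹ = iW b := fun j =>
    den_of_dvd G (p1 j)⁻¹ _ _ H (hwd (p1 j)⁻¹)
      (dvd_mul_of_dvd_right (dvd_mul_of_dvd_right
        (Finset.dvd_prod_of_mem (fun j => Hd (p1 j)⁻¹) (Finset.mem_univ j)) _) _)
  choose N hN using fun j => hTAY k₁ Ann W iW (cc k₁) n (P j) (fun i => G (t i)) (G (y j)) H
    hdt (hdy j)
  refine ⟨H, 2 * (1 + ∑ j, N j), hH0, ?_⟩
  intro F hF hF0 ζ hFt j
  set q : ℕ := 2 * (1 + ∑ j, N j) with hq
  have hNj : N j ≤ ∑ j, N j := Finset.single_le_sum (fun _ _ => Nat.zero_le _) (Finset.mem_univ j)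
  have hbq : 2 * (N j + 1) ≤ q := by omega
  obtain ⟨w0, R, hR⟩ := hN j (N j + 1) q (by omega) lamW ζ
  obtain ⟨r, hr⟩ := hdp j
  obtain ⟨z, hz⟩ := hFIX (-(r * H ^ (q - 2 * (N j + 1)) * w0)) (-(Polynomial.C r * R))
  have hz' : z = -(r * H ^ (q - 2 * (N j + 1)) * w0) - lamW * (r * R.eval z) := by
    conv_lhs => rw [hz]
    rw [Polynomial.eval_neg, Polynomial.eval_mul, Polynomial.eval_C]
    ring
  have hg1 : G (p1 j) * iW r = iW H := by
    rw [← hr]
    calc G (p1 j) * (iW H * G (p1 j)⁻¹) = iW H * (G (p1 j) * G (p1 j)⁻¹) := by ring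
      _ = iW H * G (p1 j * (p1 j)⁻¹) := by rw [map_mul G]
      _ = iW H := by rw [mul_inv_cancel₀ (hp1ne j), map_one, mul_one]
  have hiH : iW H ≠ 0 := by
    intro h
    have h1 : H = 0 := iW_injective (by rw [h, map_zero])
    exact hH0 (by rw [h1, map_zero])
  have hir : iW r ≠ 0 := by
    intro h
    rw [h, mul_zero] at hg1
    exact hiH hg1.symm
  have hfun : (fun i => G (t i) + iW (lamW * H ^ q * ζ i)) = fun i => F (t i) := by
    funext i
    exact (hFt i).symm
  have h1 := hR z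
  rw [iW_cc, hfun, evP_map t G hG (y j) (P j), evP_map t G hG (y j) (derivative (P j)), hP0 j,
    map_zero, mul_zero, zero_add] at h1
  have hroot : evP (cA.comp k₁.subtype) (fun i => F (t i))
      (G (y j) + iW (lamW * H ^ (N j + 1) * z)) (P j) = 0 := by
    have h2 : iW r * (iW H ^ N j * evP (cA.comp k₁.subtype) (fun i => F (t i))
      (G (y j) + iW (lamW * H ^ (N j + 1) * z)) (P j)) = 0 := by
      rw [h1]
      have hHq : H ^ q = H ^ (2 * (N j + 1)) * H ^ (q - 2 * (N j + 1)) := by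
        rw [← pow_add]
        congr 1
        omega
      have h3 : lamW * H ^ (2 * (N j + 1)) * (z + r * H ^ (q - 2 * (N j + 1)) * w0
          + lamW * (r * R.eval z)) = 0 := by
        have : z + r * H ^ (q - 2 * (N j + 1)) * w0 + lamW * (r * R.eval z) = 0 := by
          linear_combination hz'
        rw [this, mul_zero]
      have h4 : H ^ N j * H * (lamW * H ^ (N j + 1) * z)
          + r * (lamW * H ^ q * w0 + lamW ^ 2 * H ^ (2 * (N j + 1)) * R.eval z) = 0 := by
        rw [hHq]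
        linear_combination h3
      have h5 := congrArg iW h4
      rw [map_zero, map_add, map_mul, map_mul, map_mul iW r] at h5
      rw [mul_add]
      have h6 : iW r * (iW H ^ N j * G (evP (algebraMap k₁ L) t (y j) (derivative (P j)))
          * iW (lamW * H ^ (N j + 1) * z)) = iW (H ^ N j) * iW H
          * iW (lamW * H ^ (N j + 1) * z) := by
        rw [map_pow, ← hg1]
        ring
      rw [h6]
      exact h5
    rcases mul_eq_zero.mp h2 with h | h
    · exact absurd h hir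
    · rcases mul_eq_zero.mp h with h | h
      · exact absurd h (pow_ne_zero _ hiH)
      · exact h
  have hfy := hUNI k₁ L n t F hF y0 hF0 (P j) (y j) (hP0 j) (hP1 j)
    (G (y j) + iW (lamW * H ^ (N j + 1) * z))
    (PowerSeries.C (y0 (y j)) + PowerSeries.constantCoeff (lamW * H ^ (N j + 1) * z))
    (by rw [map_add, map_add, hG0, constantCoeff_iW, jL_C])
    (by
      rw [map_add, map_mul, map_mul, map_mul, map_mul]
      simp [lamW])
    hroot
  exact ⟨H ^ (N j + 1) * z, by rw [hfy, mul_assoc]⟩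

end RC
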