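import Pool.Agent.Work.MP_0ac1ea_ag.RC.CStmts3

/-!
# Item NOE: Noether normalisation centred at a rational point
-/

open MvPolynomial

namespace RC

namespace NOE_aux

variable {k : Type} [Field k] {s : ℕ}

/-- translation of the variables -/
noncomputable def tr (a : Fin s → k) : MvPolynomial (Fin s) k →ₐ[k] MvPolynomial (Fin s) k :=
  MvPolynomial.aeval (fun i => MvPolynomial.X i - MvPolynomial.C (a i))

theorem tr_X (a : Fin s → k) (i : Fin s) :
    tr a (MvPolynomial.X i) = MvPolynomial.X i - MvPolynomial.C (a i) := by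
  simp [tr]

theorem tr_comp (a b : Fin s → k) (h : ∀ i, a i + b i = 0) : (tr a).comp (tr b) = AlgHom.id k _ := by
  apply MvPolynomial.algHom_ext
  intro i
  have hb : b i = - a i := by linear_combination h i
  simp only [AlgHom.comp_apply, tr_X, map_sub, AlgHom.id_apply, hb]
  rw [show (MvPolynomial.C (-a i) : MvPolynomial (Fin s) k) = algebraMap k _ (-a i) from rfl,
    AlgHom.commutes, MvPolynomial.algebraMap_eq, map_neg]
  ring

/-- translation as an automorphism -/
noncomputable def trE (a : Fin s → k) : MvPolynomial (Fin s) k ≃ₐ[k] MvPolynomial (Fin s) k :=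
  AlgEquiv.ofAlgHom (tr a) (tr (fun i => - a i)) (tr_comp _ _ (by intro i; ring))
    (tr_comp _ _ (by intro i; ring))

theorem trE_X (a : Fin s → k) (i : Fin s) :
    trE a (MvPolynomial.X i) = MvPolynomial.X i - MvPolynomial.C (a i) := tr_X a i

end NOE_aux

theorem pr_NOE : S_NOE := by
  intro k _ R _ _ _ _ m
  obtain ⟨s, g, hinj, hint⟩ := exists_integral_inj_algHom_of_fg k R
  refine ⟨s, g.comp (NOE_aux.trE (fun i => m (g (MvPolynomial.X i)))).toAlgHom, ?_, ?_, ?_⟩
  · exact hinj.comp (AlgEquiv.injective _)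
  · have h1 : (NOE_aux.trE (fun i => m (g (MvPolynomial.X i)))).toAlgHom.toRingHom.IsIntegral :=
      RingHom.isIntegral_of_surjective _ (AlgEquiv.surjective _)
    exact RingHom.IsIntegral.trans _ _ h1 hint
  · intro i
    have h : (g.comp (NOE_aux.trE (fun i => m (g (MvPolynomial.X i)))).toAlgHom)
        (MvPolynomial.X i) = g (MvPolynomial.X i) - g (MvPolynomial.C (m (g (MvPolynomial.X i)))) := by
      change g (NOE_aux.trE _ (MvPolynomial.X i)) = _
      rw [NOE_aux.trE_X, map_sub]
    rw [h, map_sub, show (MvPolynomial.C (m (g (MvPolynomial.X i))) : MvPolynomial (Fin s) k)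
      = algebraMap k _ (m (g (MvPolynomial.X i))) from rfl, AlgHom.commutes, AlgHom.commutes]
    simp

end RC
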