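import Pool.Agent.Work.MP_0ac1ea_ag.RC.CStmts6

/-!
# Item NPOL: a separable equation over the polynomial ring of a transcendence basis
-/

open Polynomial

namespace RC

theorem NPOL_exists {k₁ : Subfield ℂ} {L : Type} [Field L] [Algebra k₁ L] {n : ℕ}
    {t : Fin n → L} (ht : IsTranscendenceBasis k₁ t) (y : L) :
    ∃ P : Polynomial (MvPolynomial (Fin n) k₁), P ≠ 0 ∧ evP (algebraMap k₁ L) t y P = 0 := by
  have halg : Algebra.IsAlgebraic (Algebra.adjoin k₁ (Set.range t)) L := ht.isAlgebraic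
  obtain ⟨p, hp0, hp⟩ := halg.isAlgebraic y
  let e := ht.1.aevalEquiv
  have he : ∀ a : Algebra.adjoin k₁ (Set.range t),
      MvPolynomial.aeval t (e.symm a) = (a : L) := by
    intro a
    have h1 := ht.1.algebraMap_aevalEquiv (e.symm a)
    rw [← h1]
    have h2 : ht.1.aevalEquiv (e.symm a) = a := e.apply_symm_apply a
    rw [h2]
    rfl
  refine ⟨p.map (e.symm : Algebra.adjoin k₁ (Set.range t) →+* MvPolynomial (Fin n) k₁), ?_, ?_⟩
  · rw [Ne, Polynomial.map_eq_zero_iff e.symm.injective]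
    exact hp0
  · rw [evP, Polynomial.eval₂_map]
    rw [Polynomial.aeval_def] at hp
    rw [← hp]
    congr 1
    refine RingHom.ext fun a => ?_
    exact he a

theorem pr_NPOL : S_NPOL := by
  classical
  intro k₁ L _ _ n t ht y
  have hex : ∃ m : ℕ, ∃ P : Polynomial (MvPolynomial (Fin n) k₁), P ≠ 0 ∧
      evP (algebraMap k₁ L) t y P = 0 ∧ P.natDegree = m := by
    obtain ⟨P, h1, h2⟩ := NPOL_exists ht y
    exact ⟨_, P, h1, h2, rfl⟩
  obtain ⟨P, hP0, hP, hPm⟩ := Nat.find_spec hex
  have hdeg : P.natDegree ≠ 0 := by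
    intro h0
    rw [Polynomial.eq_C_of_natDegree_eq_zero h0, evP, Polynomial.eval₂_C] at hP
    have h1 : P.coeff 0 = 0 := by
      have h2 := ht.1
      rw [algebraicIndependent_iff] at h2
      exact h2 _ hP
    apply hP0
    rw [Polynomial.eq_C_of_natDegree_eq_zero h0, h1, Polynomial.C_0]
  refine ⟨P, hP, fun hd => ?_⟩
  have hd0 : derivative P ≠ 0 := fun h => hdeg (Polynomial.natDegree_eq_zero_of_derivative_eq_zero h)
  have hlt := Polynomial.natDegree_derivative_lt hdeg
  have hle := Nat.find_min' hex ⟨derivative P, hd0, hd, rfl⟩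
  rw [← hPm] at hle
  exact absurd hlt (not_lt.mpr hle)

end RC
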