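import Pool.Agent.Work.MP_0ac1ea_ag.RC.CStmts6

/-!
# Item NTAY: Taylor expansion with denominators
-/

open Polynomial

namespace RC

namespace NTAY_aux

variable {k A B : Type} [CommRing k] [CommRing A] [CommRing B]

/-- the inductive statement -/
def Good (i : B →+* A) (c : k →+* B) {n : ℕ} (u : Fin n → A) (v : A) (H : B)
    (P : Polynomial (MvPolynomial (Fin n) k)) (N : ℕ) : Prop :=
  ∃ e0 e1 : B, i H ^ N * evP (i.comp c) u v P = i e0 ∧
    i H ^ N * evP (i.comp c) u v (derivative P) = i e1 ∧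
    ∀ (b q : ℕ), b ≤ q → ∀ (l : B) (ζ : Fin n → B), ∃ (w0 : B) (R : Polynomial B),
    ∀ z : B, i H ^ N * evP (i.comp c) (fun j => u j + i (l * H ^ q * ζ j)) (v + i (l * H ^ b * z)) P
      = i e0 + i e1 * i (l * H ^ b * z) + i (l * H ^ q * w0 + l ^ 2 * H ^ (2 * b) * R.eval z)

theorem evP_add {n : ℕ} (c : k →+* A) (u : Fin n → A) (v : A)
    (P Q : Polynomial (MvPolynomial (Fin n) k)) : evP c u v (P + Q) = evP c u v P + evP c u v Q := by
  simp [evP]

theorem evP_mul {n : ℕ} (c : k →+* A) (u : Fin n → A) (v : A)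
    (P Q : Polynomial (MvPolynomial (Fin n) k)) : evP c u v (P * Q) = evP c u v P * evP c u v Q := by
  simp [evP, Polynomial.eval₂_mul]

theorem evP_X {n : ℕ} (c : k →+* A) (u : Fin n → A) (v : A) :
    evP c u v (X : Polynomial (MvPolynomial (Fin n) k)) = v := by
  simp [evP]

theorem evP_CX {n : ℕ} (c : k →+* A) (u : Fin n → A) (v : A) (j : Fin n) :
    evP c u v (C (MvPolynomial.X j) : Polynomial (MvPolynomial (Fin n) k)) = u j := by
  simp [evP]

theorem evP_CC {n : ℕ} (c : k →+* A) (u : Fin n → A) (v : A) (r : k) :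
    evP c u v (C (MvPolynomial.C r) : Polynomial (MvPolynomial (Fin n) k)) = c r := by
  simp [evP]

theorem evP_zero {n : ℕ} (c : k →+* A) (u : Fin n → A) (v : A) :
    evP c u v (0 : Polynomial (MvPolynomial (Fin n) k)) = 0 := by
  simp [evP]

theorem good_CC (i : B →+* A) (c : k →+* B) {n : ℕ} (u : Fin n → A) (v : A) (H : B) (r : k) :
    Good i c u v H (C (MvPolynomial.C r)) 0 := by
  refine ⟨c r, 0, by simp [evP_CC], by simp [evP_zero], ?_⟩
  intro b q _ l ζ
  refine ⟨0, 0, fun z => ?_⟩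
  simp [evP_CC]

theorem good_add (i : B →+* A) (c : k →+* B) {n : ℕ} (u : Fin n → A) (v : A) (H : B)
    (P Q : Polynomial (MvPolynomial (Fin n) k)) (N M : ℕ) (hP : Good i c u v H P N)
    (hQ : Good i c u v H Q M) : Good i c u v H (P + Q) (N + M) := by
  obtain ⟨e0, e1, h0, h1, h2⟩ := hP
  obtain ⟨f0, f1, g0, g1, g2⟩ := hQ
  refine ⟨H ^ M * e0 + H ^ N * f0, H ^ M * e1 + H ^ N * f1, ?_, ?_, ?_⟩
  · rw [evP_add, map_add, map_mul, map_mul, map_pow, map_pow, ← h0, ← g0]; ring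
  · rw [derivative_add, evP_add, map_add, map_mul, map_mul, map_pow, map_pow, ← h1, ← g1]; ring
  · intro b q hbq l ζ
    obtain ⟨w0, R, hR⟩ := h2 b q hbq l ζ
    obtain ⟨w0', R', hR'⟩ := g2 b q hbq l ζ
    refine ⟨H ^ M * w0 + H ^ N * w0', C (H ^ M) * R + C (H ^ N) * R', fun z => ?_⟩
    have e1' := hR z
    have e2' := hR' z
    rw [evP_add]
    have : ∀ a b : A, i H ^ (N + M) * (a + b) = i H ^ M * (i H ^ N * a) + i H ^ N * (i H ^ M * b) := by
      intro a b; ring
    rw [this, e1', e2']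
    simp only [eval_add, eval_mul, eval_C]
    simp only [map_add, map_mul, map_pow]
    ring

theorem good_CX (i : B →+* A) (c : k →+* B) {n : ℕ} (u : Fin n → A) (v : A) (H : B)
    (P : Polynomial (MvPolynomial (Fin n) k)) (N : ℕ) (hP : Good i c u v H P N) (j : Fin n)
    (hu : ∃ b, i H * u j = i b) : Good i c u v H (P * C (MvPolynomial.X j)) (N + 1) := by
  obtain ⟨e0, e1, h0, h1, h2⟩ := hP
  obtain ⟨β, hβ⟩ := hu
  have hd : derivative (P * C (MvPolynomial.X j)) = derivative P * C (MvPolynomial.X j) := by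
    rw [derivative_mul, derivative_C, mul_zero, add_zero]
  refine ⟨e0 * β, e1 * β, ?_, ?_, ?_⟩
  · rw [evP_mul, evP_CX, map_mul, ← h0, ← hβ]; ring
  · rw [hd, evP_mul, evP_CX, map_mul, ← h1, ← hβ]; ring
  · intro b q hbq l ζ
    obtain ⟨w0, R, hR⟩ := h2 b q hbq l ζ
    refine ⟨w0 * β + e0 * H * ζ j + w0 * l * H ^ q * H * ζ j,
      C (H ^ (q - b) * H * e1 * ζ j) * X + R * C β + R * C (H * l * H ^ q * ζ j), fun z => ?_⟩
    have e1' := hR z
    rw [evP_mul, evP_CX]
    have h3 : ∀ a : A, i H ^ (N + 1) * (a * (u j + i (l * H ^ q * ζ j)))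
        = (i H ^ N * a) * (i H * u j + i H * i (l * H ^ q * ζ j)) := by
      intro a; ring
    rw [h3, e1', hβ]
    obtain ⟨d, rfl⟩ := Nat.exists_eq_add_of_le hbq
    have hd2 : b + d - b = d := by omega
    rw [hd2]
    simp only [← map_mul, ← map_add]
    congr 1
    simp only [eval_add, eval_mul, eval_C, eval_X]
    ring

theorem good_X (i : B →+* A) (c : k →+* B) {n : ℕ} (u : Fin n → A) (v : A) (H : B)
    (P : Polynomial (MvPolynomial (Fin n) k)) (N : ℕ) (hP : Good i c u v H P N)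
    (hv : ∃ b, i H * v = i b) : Good i c u v H (P * X) (N + 1) := by
  obtain ⟨e0, e1, h0, h1, h2⟩ := hP
  obtain ⟨β, hβ⟩ := hv
  have hd : derivative (P * X) = derivative P * X + P := by
    rw [derivative_mul, derivative_X, mul_one]
  refine ⟨e0 * β, e1 * β + H * e0, ?_, ?_, ?_⟩
  · rw [evP_mul, evP_X, map_mul, ← h0, ← hβ]; ring
  · rw [hd, evP_add, evP_mul, evP_X, map_add, map_mul, map_mul, ← h1, ← hβ, ← h0]; ring
  · intro b q hbq l ζ
    obtain ⟨w0, R, hR⟩ := h2 b q hbq l ζ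
    refine ⟨w0 * β,
      R * C β + C (e1 * H) * X ^ 2 + C (H ^ (q - b) * H * w0) * X + R * C (H * l * H ^ b) * X,
      fun z => ?_⟩
    have e1' := hR z
    rw [evP_mul, evP_X]
    have h3 : ∀ a : A, i H ^ (N + 1) * (a * (v + i (l * H ^ b * z)))
        = (i H ^ N * a) * (i H * v + i H * i (l * H ^ b * z)) := by
      intro a; ring
    rw [h3, e1', hβ]
    obtain ⟨d, rfl⟩ := Nat.exists_eq_add_of_le hbq
    have hd2 : b + d - b = d := by omega
    rw [hd2]
    simp only [← map_mul, ← map_add]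
    congr 1
    simp only [eval_add, eval_mul, eval_C, eval_X, eval_pow]
    ring

theorem good (i : B →+* A) (c : k →+* B) {n : ℕ} (u : Fin n → A) (v : A) (H : B)
    (hu : ∀ j, ∃ b, i H * u j = i b) (hv : ∃ b, i H * v = i b)
    (P : Polynomial (MvPolynomial (Fin n) k)) : ∃ N, Good i c u v H P N := by
  have hC : ∀ a : MvPolynomial (Fin n) k, ∃ N, Good i c u v H (C a) N := by
    intro a
    induction a using MvPolynomial.induction_on with
    | C r => exact ⟨0, good_CC i c u v H r⟩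
    | add p q hp hq =>
      obtain ⟨N, hN⟩ := hp
      obtain ⟨M, hM⟩ := hq
      exact ⟨N + M, by rw [map_add]; exact good_add i c u v H _ _ N M hN hM⟩
    | mul_X p j hp =>
      obtain ⟨N, hN⟩ := hp
      exact ⟨N + 1, by rw [map_mul]; exact good_CX i c u v H _ N hN j (hu j)⟩
  induction P using Polynomial.induction_on with
  | C a => exact hC a
  | add p q hp hq =>
    obtain ⟨N, hN⟩ := hp
    obtain ⟨M, hM⟩ := hq
    exact ⟨N + M, good_add i c u v H _ _ N M hN hM⟩
  | monomial m a hp =>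
    obtain ⟨N, hN⟩ := hp
    refine ⟨N + 1, ?_⟩
    rw [pow_succ, ← mul_assoc]
    exact good_X i c u v H _ N hN hv

end NTAY_aux

open NTAY_aux in
theorem pr_NTAY : S_NTAY := by
  intro k A B _ _ _ i c n P u v H hu hv
  obtain ⟨N, e0, e1, h0, h1, h2⟩ := good i c u v H hu hv P
  refine ⟨N, fun b q hbq l ζ => ?_⟩
  obtain ⟨w0, R, hR⟩ := h2 b q hbq l ζ
  refine ⟨w0, R, fun z => ?_⟩
  rw [hR z, h0, h1]

end RC
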