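import Pool.Agent.Work.MP_0ac1ea_ag.RC.CStmts6
import Pool.Agent.Work.MP_0ac1ea_ag.RC.Basic

/-!
# Item NUNI: uniqueness of the root with a given residue
-/

open Polynomial

namespace RC

namespace NUNI_aux

/-- series with constant coefficient in `ℂ[[λ]]` -/
noncomputable def O : Subring Ann := (jL.range).comap (PowerSeries.constantCoeff (R := Lam))

lemma mem_O (g : Ann) : g ∈ O ↔ ∃ p : PowerSeries ℂ, PowerSeries.constantCoeff g = jL p := by
  constructor
  · rintro ⟨p, hp⟩
    exact ⟨p, hp.symm⟩
  · rintro ⟨p, hp⟩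
    exact ⟨p, hp.symm⟩

noncomputable def eJ : PowerSeries ℂ ≃+* jL.range :=
  RingEquiv.ofBijective jL.rangeRestrict
    ⟨fun _ _ h => jL_injective (congrArg Subtype.val h), jL.rangeRestrict_surjective⟩

/-- the residue -/
noncomputable def res : O →+* ℂ :=
  (PowerSeries.constantCoeff (R := ℂ)).comp ((eJ.symm : jL.range →+* PowerSeries ℂ).comp
    (((PowerSeries.constantCoeff (R := Lam)).comp O.subtype).codRestrict jL.range
      (fun g => g.2)))

lemma res_eq (g : O) (p : PowerSeries ℂ) (h : PowerSeries.constantCoeff (g : Ann) = jL p) :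
    res g = PowerSeries.constantCoeff p := by
  have h1 : (((PowerSeries.constantCoeff (R := Lam)).comp O.subtype).codRestrict jL.range
      (fun g => g.2)) g = eJ p := by
    apply Subtype.ext
    exact h
  show PowerSeries.constantCoeff (eJ.symm _) = _
  rw [h1, RingEquiv.symm_apply_apply]

end NUNI_aux

open NUNI_aux

theorem pr_NUNI : S_NUNI := by
  intro k₁ L _ _ n t F hOv y0 hres P y hP hP' f p hf hp hPf
  let Fo : L →+* O := F.codRestrict O (fun l => by
    obtain ⟨p, hp, _⟩ := hres l
    exact (mem_O _).2 ⟨p, hp⟩)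
  have hFo : ∀ l, ((Fo l : O) : Ann) = F l := fun l => rfl
  have hresF : ∀ l, res (Fo l) = y0 l := by
    intro l
    obtain ⟨q, hq, hq2⟩ := hres l
    rw [res_eq (Fo l) q hq, hq2]
  let fO : O := ⟨f, (mem_O _).2 ⟨p, hf⟩⟩
  have hresf : res fO = y0 y := by
    rw [res_eq fO p hf, hp]
  let c' : MvPolynomial (Fin n) k₁ →+* O := Fo.comp (MvPolynomial.eval₂Hom (algebraMap k₁ L) t)
  have hc' : O.subtype.comp c' = MvPolynomial.eval₂Hom (cA.comp k₁.subtype) (fun i => F (t i)) := by
    apply MvPolynomial.ringHom_ext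
    · intro a
      show F (MvPolynomial.eval₂Hom (algebraMap k₁ L) t (MvPolynomial.C a)) = _
      rw [MvPolynomial.coe_eval₂Hom, MvPolynomial.eval₂_C, MvPolynomial.coe_eval₂Hom,
        MvPolynomial.eval₂_C, hOv]
      rfl
    · intro i
      show F (MvPolynomial.eval₂Hom (algebraMap k₁ L) t (MvPolynomial.X i)) = _
      rw [MvPolynomial.coe_eval₂Hom, MvPolynomial.eval₂_X, MvPolynomial.coe_eval₂Hom,
        MvPolynomial.eval₂_X]
  have hev : ∀ Q : Polynomial (MvPolynomial (Fin n) k₁),
      (Q.map c').eval (Fo y) = Fo (evP (algebraMap k₁ L) t y Q) := by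
    intro Q
    rw [Polynomial.eval_map, evP, Polynomial.hom_eval₂]
  have h1 : (P.map c').eval (Fo y) = 0 := by
    rw [hev, hP, map_zero]
  have h2 : (P.map c').eval fO = 0 := by
    apply Subtype.ext
    have : O.subtype ((P.map c').eval fO) = evP (cA.comp k₁.subtype) (fun i => F (t i)) f P := by
      rw [Polynomial.eval_map, Polynomial.hom_eval₂, hc', evP]
      rfl
    rw [hPf] at this
    exact this
  have h3 : res ((derivative (P.map c')).eval (Fo y)) ≠ 0 := by
    rw [Polynomial.derivative_map, hev, hresF]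
    rw [Ne, map_eq_zero]
    exact hP'
  obtain ⟨κ, hκ⟩ := Polynomial.binomExpansion (P.map c') (Fo y) (fO - Fo y)
  rw [add_sub_cancel, h1, h2, zero_add] at hκ
  have h4 : (fO - Fo y) * ((derivative (P.map c')).eval (Fo y) + κ * (fO - Fo y)) = 0 := by
    linear_combination -hκ
  rcases mul_eq_zero.1 h4 with h5 | h5
  · have h6 : fO = Fo y := sub_eq_zero.1 h5
    exact (congrArg Subtype.val h6).symm
  · exfalso
    apply h3
    have h6 := congrArg res h5
    rw [map_add, map_mul, map_sub, hresf, hresF, sub_self, mul_zero, add_zero, map_zero] at h6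
    exact h6

end RC
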