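import Pool.Agent.Work.MP_0ac1ea_ag.RC.CStmts5
import Pool.Agent.Work.MP_0ac1ea_ag.RC.Basic

/-!
# Item O0: polynomials outside
-/

open Polynomial

namespace RC

namespace NO0

theorem key1 (m : ℕ) : lam⁻¹ ^ (m + 1) * uLam m = lam⁻¹ - 1 := by
  have h := lam_ne_zero
  have h1 : lam⁻¹ ^ m * lam ^ m = 1 := by rw [← mul_pow, inv_mul_cancel₀ h, one_pow]
  unfold uLam
  calc lam⁻¹ ^ (m + 1) * (lam ^ m * (1 - lam))
      = (lam⁻¹ ^ m * lam ^ m) * (lam⁻¹ * (1 - lam)) := by ring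
    _ = lam⁻¹ - 1 := by rw [h1, one_mul, mul_sub, mul_one, inv_mul_cancel₀ h]

theorem key2 (m e i : ℕ) (hi : i ≤ e) :
    iS (X ^ ((m + 1) * e)) * uLam m ^ i = iS ((X - 1) ^ i * X ^ ((m + 1) * (e - i))) := by
  rw [map_mul, map_pow, map_pow, map_pow, map_sub, map_one, iS_X, ← key1 m]
  have h : (m + 1) * e = (m + 1) * i + (m + 1) * (e - i) := by
    rw [← mul_add, Nat.add_sub_cancel' hi]
  rw [h, pow_add, pow_mul, mul_pow]
  ring

end NO0

theorem pr_O0 : S_O0 := by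
  intro ε m _ θ hθ p e he
  refine ⟨∑ i ∈ Finset.range (e + 1), ε (p.coeff i) *
    PowerSeries.C ((X - 1) ^ i * X ^ ((m + 1) * (e - i))), ?_, ?_, fun σ => ?_⟩
  · have hp : θ (algebraMap ℂ[X] (RatFunc ℂ) p) = ∑ i ∈ Finset.range (e + 1),
        iO (ε (p.coeff i)) * PowerSeries.C (uLam m) ^ i := by
      conv_lhs => rw [Polynomial.as_sum_range_C_mul_X_pow' p (Nat.lt_succ_of_le he)]
      rw [map_sum, map_sum]
      refine Finset.sum_congr rfl fun i _ => ?_
      rw [map_mul, map_pow, RatFunc.algebraMap_C, RatFunc.algebraMap_X, map_mul, map_pow,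
        hθ.C, hθ.X]
    rw [hp, iO_C, Finset.mul_sum, map_sum]
    refine Finset.sum_congr rfl fun i hi => ?_
    have hi' : i ≤ e := Nat.lt_succ_iff.mp (Finset.mem_range.mp hi)
    rw [map_mul, iO_C, ← NO0.key2 m e i hi', map_mul PowerSeries.C,
      map_pow PowerSeries.C (uLam m) i]
    ring
  · rw [map_sum]
    refine Finset.sum_congr rfl fun i _ => ?_
    rw [map_mul, hθ.red, PowerSeries.constantCoeff_C]
  · rw [map_sum]
    refine Finset.sum_congr rfl fun i _ => ?_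
    rw [map_mul, evS_C]
    simp

end RC
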