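import Pool.Agent.Work.MP_0ac1ea_ag.RC.CStmts5
import Pool.Agent.Work.MP_0ac1ea_ag.RC.Basic

/-!
# Denominators outside
-/

open Polynomial

namespace RC

theorem pr_O1 (hO0 : S_O0) : S_O1 := by
  intro ε m hm θ hθ r
  have hr : r * algebraMap ℂ[X] (RatFunc ℂ) r.denom = algebraMap ℂ[X] (RatFunc ℂ) r.num := by
    have h := RatFunc.num_div_denom r
    have h2 : algebraMap ℂ[X] (RatFunc ℂ) r.denom ≠ 0 :=
      RatFunc.algebraMap_ne_zero r.denom_ne_zero
    exact ((div_eq_iff h2).1 h).symm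
  obtain ⟨q1, h1, -, -⟩ := hO0 ε m hm θ hθ r.denom (max r.denom.natDegree r.num.natDegree)
    (le_max_left _ _)
  obtain ⟨q2, h2, -, -⟩ := hO0 ε m hm θ hθ r.num (max r.denom.natDegree r.num.natDegree)
    (le_max_right _ _)
  refine ⟨q1, q2, ?_, ?_⟩
  · intro h0
    have h3 := congrArg PowerSeries.constantCoeff h1
    rw [constantCoeff_iO, h0, map_zero, map_mul, constantCoeff_iO] at h3
    rcases mul_eq_zero.1 h3 with h4 | h4
    · rw [PowerSeries.constantCoeff_C] at h4
      exact pow_ne_zero _ Polynomial.X_ne_zero (iS_injective (h4.trans (map_zero iS).symm))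
    · let φ : RatFunc ℂ →+* Lam := (PowerSeries.constantCoeff (R := Lam)).comp θ
      have h5 : φ (algebraMap ℂ[X] (RatFunc ℂ) r.denom) = 0 := h4
      exact RatFunc.algebraMap_ne_zero r.denom_ne_zero (φ.injective (h5.trans (map_zero φ).symm))
  · rw [← h1, mul_assoc, ← map_mul, mul_comm _ r, hr, h2]

end RC
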