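import Pool.Agent.Work.MP_0ac1ea_ag.RC.CStmts5
import Pool.Agent.Work.MP_0ac1ea_ag.RC.Basic

/-!
# Item O2: certificate outside
-/

set_option autoImplicit false

open Polynomial

namespace RC

theorem pr_O2 (hO0 : S_O0) : S_O2 := by
  intro ε m hm θ hθ L _ ι _ M y S f hf
  obtain ⟨d, hd, hn⟩ := hf
  have hn' : ∀ i, ∀ j, ∃ n : ℂ[X], j ∈ S i →
      f (y j) * algebraMap ℂ[X] (RatFunc ℂ) (d i) = algebraMap ℂ[X] (RatFunc ℂ) n := by
    intro i j
    by_cases hj : j ∈ S i
    · obtain ⟨n, hn1⟩ := hn i j hj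
      exact ⟨n, fun _ => hn1⟩
    · exact ⟨0, fun h => absurd h hj⟩
  choose n hn using hn'
  set e := (∑ i, (d i).natDegree) + ∑ i, ∑ j, (n i j).natDegree with he
  have hde : ∀ i, (d i).natDegree ≤ e := by
    intro i
    have h1 : (d i).natDegree ≤ ∑ i, (d i).natDegree :=
      Finset.single_le_sum (f := fun i => (d i).natDegree) (fun _ _ => Nat.zero_le _)
        (Finset.mem_univ i)
    omega
  have hne : ∀ i j, (n i j).natDegree ≤ e := by
    intro i j
    have h1 : (n i j).natDegree ≤ ∑ j, (n i j).natDegree :=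
      Finset.single_le_sum (f := fun j => (n i j).natDegree) (fun _ _ => Nat.zero_le _)
        (Finset.mem_univ j)
    have h2 : ∑ j, (n i j).natDegree ≤ ∑ i, ∑ j, (n i j).natDegree :=
      Finset.single_le_sum (f := fun i => ∑ j, (n i j).natDegree) (fun _ _ => Nat.zero_le _)
        (Finset.mem_univ i)
    omega
  have h0 : ∀ i, ∃ q : Out, iO (PowerSeries.C (Polynomial.X ^ ((m + 1) * e))) *
      θ (algebraMap ℂ[X] (RatFunc ℂ) (d i)) = iO q := by
    intro i
    obtain ⟨q, hq, _⟩ := hO0 ε m hm θ hθ (d i) e (hde i)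
    exact ⟨q, hq⟩
  choose d' hd' using h0
  refine ⟨(m + 1) * e, d', ?_, ?_⟩
  · apply iO_injective
    rw [map_sum, ← Finset.sum_congr rfl (fun i _ => hd' i), ← Finset.mul_sum, ← map_sum,
      ← map_sum, hd, map_one, map_one, mul_one]
  · intro i j hj
    obtain ⟨q, hq, _⟩ := hO0 ε m hm θ hθ (n i j) e (hne i j)
    refine ⟨q, ?_⟩
    rw [← hd' i, ← hq, ← hn i j hj, map_mul]
    ring

end RC
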