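import Pool.Agent.Work.MP_0ac1ea_ag.RC.CStmts5
import Pool.Agent.Work.MP_0ac1ea_ag.RC.Basic

/-!
# Item O3 : values outside at finite points
-/

open Polynomial

namespace RC

namespace NO3

theorem scal (m e i : ℕ) (hi : i ≤ e) (ν σ : ℂ) (hσ : σ ≠ 0)
    (hν : (σ⁻¹) ^ m * (1 - σ⁻¹) = ν) :
    (σ - 1) ^ i * σ ^ ((m + 1) * (e - i)) = σ ^ ((m + 1) * e) * ν ^ i := by
  obtain ⟨j, rfl⟩ := Nat.exists_eq_add_of_le hi
  have h1 : σ ^ (m + 1) * ν = σ - 1 := by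
    rw [← hν]
    have h2 : σ ^ m * σ⁻¹ ^ m = 1 := by
      rw [← mul_pow, mul_inv_cancel₀ hσ, one_pow]
    calc σ ^ (m + 1) * (σ⁻¹ ^ m * (1 - σ⁻¹))
        = (σ ^ m * σ⁻¹ ^ m) * (σ - σ * σ⁻¹) := by ring
      _ = σ - 1 := by rw [h2, mul_inv_cancel₀ hσ, one_mul]
  rw [← h1, Nat.add_sub_cancel_left, mul_pow, ← pow_mul]
  have h3 : (m + 1) * (i + j) = (m + 1) * i + (m + 1) * j := by ring
  rw [h3, pow_add]
  ring

theorem evq (ε : ℂ →+* Out) (m e : ℕ) (ν σ : ℂ) (hσ : σ ≠ 0)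
    (hν : (σ⁻¹) ^ m * (1 - σ⁻¹) = ν) (hεν : ε ν = PowerSeries.C (Polynomial.C ν))
    (p : ℂ[X]) (hp : p.natDegree ≤ e) :
    (∑ i ∈ Finset.range (e + 1), evS σ (ε (p.coeff i)) *
      PowerSeries.C ((σ - 1) ^ i * σ ^ ((m + 1) * (e - i))))
      = PowerSeries.C (σ ^ ((m + 1) * e)) * ((evS σ).comp ε) (p.eval ν) := by
  have hφ : ((evS σ).comp ε) ν = PowerSeries.C ν := by
    rw [RingHom.comp_apply, hεν, evS_C, Polynomial.eval_C]
  rw [Polynomial.eval_eq_sum_range' (Nat.lt_succ_of_le hp), map_sum, Finset.mul_sum]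
  refine Finset.sum_congr rfl fun i hi => ?_
  have hi' : i ≤ e := Nat.lt_succ_iff.mp (Finset.mem_range.mp hi)
  rw [scal m e i hi' ν σ hσ hν, map_mul ((evS σ).comp ε), map_pow ((evS σ).comp ε), hφ,
    map_mul PowerSeries.C, map_pow PowerSeries.C ν i, RingHom.comp_apply]
  ring

end NO3

theorem pr_O3 (hO0 : S_O0) : S_O3 := by
  intro k ε hε m hm θ hθ r ν c σ hνk hck hr hσ hν
  obtain ⟨a, b, hb, hab, hac⟩ := hr
  obtain ⟨B, hB1, -, hB3⟩ := hO0 ε m hm θ hθ b (max a.natDegree b.natDegree) (le_max_right _ _)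
  obtain ⟨A, hA1, -, hA3⟩ := hO0 ε m hm θ hθ a (max a.natDegree b.natDegree) (le_max_left _ _)
  have hεν := hε ν hνk
  have hB4 := (hB3 σ).trans (NO3.evq ε m _ ν σ hσ hν hεν b (le_max_right _ _))
  have hA4 := (hA3 σ).trans (NO3.evq ε m _ ν σ hσ hν hεν a (le_max_left _ _))
  refine ⟨A, B, ?_, ?_, ?_⟩
  · rw [← hB1, ← hA1, ← hab, map_mul]
    ring
  · rw [hB4]
    refine mul_ne_zero ?_ ?_
    · intro h
      have h1 : σ ^ ((m + 1) * max a.natDegree b.natDegree) = 0 := by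
        have := congrArg PowerSeries.constantCoeff h
        simpa only [PowerSeries.constantCoeff_C, map_zero] using this
      exact pow_ne_zero _ hσ h1
    · intro h
      exact hb ((RingHom.injective ((evS σ).comp ε)) (by rw [h, map_zero]))
  · have hc : ((evS σ).comp ε) c = PowerSeries.C c := by
      rw [RingHom.comp_apply, hε c hck, evS_C, Polynomial.eval_C]
    rw [hA4, hB4, hac, map_mul, hc]
    ring

end RC
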