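import Pool.Agent.Work.MP_0ac1ea_ag.RC.CStmts5
import Pool.Agent.Work.MP_0ac1ea_ag.RC.Basic

/-!
# O4: values outside at infinity
-/

set_option autoImplicit false

open Polynomial

namespace RC

namespace NO4

/-- at `σ = 0` only the top term survives -/
theorem sum_zero (ε : ℂ →+* Out) (hε : ∀ c, evS 0 (ε c) = PowerSeries.C c) (m e : ℕ)
    (p : ℂ[X]) :
    ∑ i ∈ Finset.range (e + 1), evS 0 (ε (p.coeff i)) *
      PowerSeries.C (((0 : ℂ) - 1) ^ i * (0 : ℂ) ^ ((m + 1) * (e - i))) =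
        PowerSeries.C (p.coeff e * ((0 : ℂ) - 1) ^ e) := by
  rw [Finset.sum_eq_single e]
  · rw [hε, Nat.sub_self, Nat.mul_zero, pow_zero, mul_one, ← map_mul]
  · intro i hi hie
    have hi' := Finset.mem_range.mp hi
    have : (m + 1) * (e - i) ≠ 0 := by
      apply Nat.mul_ne_zero (Nat.succ_ne_zero m)
      omega
    rw [zero_pow this, mul_zero, map_zero, mul_zero]
  · intro h
    exact absurd (Finset.mem_range.mpr (Nat.lt_succ_self e)) h

end NO4

theorem pr_O4 (hO0 : S_O0) : S_O4 := by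
  intro ε hε m hm θ hθ r c hr
  obtain ⟨a, b, hb, hdeg, hrab, hcoef⟩ := hr
  obtain ⟨A, hA1, -, hA3⟩ := hO0 ε m hm θ hθ a b.natDegree hdeg
  obtain ⟨B, hB1, -, hB3⟩ := hO0 ε m hm θ hθ b b.natDegree le_rfl
  have hA := hA3 0
  have hB := hB3 0
  rw [NO4.sum_zero ε hε] at hA hB
  refine ⟨A, B, ?_, ?_, ?_⟩
  · rw [← hA1, ← hB1, ← hrab, map_mul]
    ring
  · rw [hB]
    intro h
    have h0 : b.coeff b.natDegree * ((0 : ℂ) - 1) ^ b.natDegree = 0 := by
      have := congrArg PowerSeries.constantCoeff h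
      simpa using this
    rcases mul_eq_zero.mp h0 with h1 | h1
    · exact hb (Polynomial.leadingCoeff_eq_zero.mp h1)
    · exact absurd h1 (pow_ne_zero _ (by norm_num))
  · rw [hA, hB, ← map_mul, hcoef]
    congr 1
    rw [Polynomial.leadingCoeff]
    ring

end RC
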