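import Pool.Agent.Work.MP_0ac1ea_ag.RC.CStmts5
import Pool.Agent.Work.MP_0ac1ea_ag.RC.Basic

/-!
# Certificate for `ψ`
-/

open Polynomial

namespace RC

namespace NPCERT

theorem fin_bez {F κ : Type} [Field F] (T : Finset κ) (g : F[X]) (n : κ → F[X]) :
    ∃ (t a : F[X]) (b : κ → F[X]), t = a * g + ∑ j ∈ T, b j * n j ∧ t ∣ g ∧
      ∀ j ∈ T, t ∣ n j := by
  classical
  induction T using Finset.induction_on with
  | empty => exact ⟨g, 1, fun _ => 0, by simp, dvd_rfl, by simp⟩
  | insert j0 T hj ih =>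
    obtain ⟨t, a, b, h1, h2, h3⟩ := ih
    refine ⟨EuclideanDomain.gcd t (n j0), EuclideanDomain.gcdA t (n j0) * a,
      fun j => if j = j0 then EuclideanDomain.gcdB t (n j0)
        else EuclideanDomain.gcdA t (n j0) * b j, ?_, ?_, ?_⟩
    · have h4 : ∑ j ∈ T, (if j = j0 then EuclideanDomain.gcdB t (n j0)
          else EuclideanDomain.gcdA t (n j0) * b j) * n j =
          EuclideanDomain.gcdA t (n j0) * ∑ j ∈ T, b j * n j := by
        rw [Finset.mul_sum]
        refine Finset.sum_congr rfl fun j hjT => ?_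
        have hne : j ≠ j0 := by
          rintro rfl
          exact hj hjT
        rw [if_neg hne]
        ring
      rw [Finset.sum_insert hj]
      beta_reduce
      rw [if_pos rfl, h4, EuclideanDomain.gcd_eq_gcd_ab]
      have h5 : t * EuclideanDomain.gcdA t (n j0) =
          EuclideanDomain.gcdA t (n j0) * (a * g + ∑ j ∈ T, b j * n j) := by
        rw [← h1]; ring
      rw [h5]
      ring
    · exact (EuclideanDomain.gcd_dvd_left _ _).trans h2
    · intro j hjT
      rcases Finset.mem_insert.mp hjT with rfl | h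
      · exact EuclideanDomain.gcd_dvd_right _ _
      · exact (EuclideanDomain.gcd_dvd_left _ _).trans (h3 j h)

theorem bez {F κ : Type} [Field F] (T : Finset κ) (r : κ → RatFunc F) :
    ∃ (g : F[X]) (n : κ → F[X]) (a : F[X]) (b : κ → F[X]), g ≠ 0 ∧
      (∀ j ∈ T, r j * algebraMap F[X] (RatFunc F) g = algebraMap F[X] (RatFunc F) (n j)) ∧
      a * g + ∑ j ∈ T, b j * n j = 1 := by
  classical
  let s : Set F[X] := {g | g ≠ 0 ∧ ∃ n : κ → F[X], ∀ j ∈ T,
    r j * algebraMap F[X] (RatFunc F) g = algebraMap F[X] (RatFunc F) (n j)}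
  have hne : s.Nonempty := by
    refine ⟨∏ j ∈ T, (r j).denom, Finset.prod_ne_zero_iff.mpr fun j _ => RatFunc.denom_ne_zero _,
      fun j => (r j).num * ∏ i ∈ T.erase j, (r i).denom, fun j hj => ?_⟩
    rw [← Finset.mul_prod_erase T _ hj, map_mul, map_mul, ← mul_assoc]
    congr 1
    have h1 := RatFunc.num_div_denom (r j)
    have h2 : algebraMap F[X] (RatFunc F) (r j).denom ≠ 0 :=
      (map_ne_zero_iff _ (RatFunc.algebraMap_injective F)).mpr (RatFunc.denom_ne_zero _)
    rw [div_eq_iff h2] at h1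
    exact h1.symm
  obtain ⟨g, ⟨hg0, n, hn⟩, hmin⟩ :=
    (measure (fun p : F[X] => p.natDegree)).wf.has_min s hne
  obtain ⟨t, a, b, h1, h2, h3⟩ := fin_bez T g n
  have ht0 : t ≠ 0 := by
    rintro rfl
    exact hg0 (zero_dvd_iff.mp h2)
  obtain ⟨g', hg'⟩ := h2
  choose n' hn' using h3
  have hg'0 : g' ≠ 0 := by
    rintro rfl
    rw [mul_zero] at hg'
    exact hg0 hg'
  have ht : algebraMap F[X] (RatFunc F) t ≠ 0 :=
    (map_ne_zero_iff _ (RatFunc.algebraMap_injective F)).mpr ht0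
  have hs : g' ∈ s := by
    refine ⟨hg'0, fun j => if hj : j ∈ T then n' j hj else 0, fun j hj => ?_⟩
    simp only [dif_pos hj]
    have h4 := hn j hj
    rw [hg', hn' j hj, map_mul, map_mul] at h4
    apply mul_left_cancel₀ ht
    rw [← h4]
    ring
  have hdeg : g.natDegree ≤ g'.natDegree := not_lt.mp (hmin g' hs)
  have ht1 : t.natDegree = 0 := by
    have h5 := natDegree_mul ht0 hg'0
    rw [← hg'] at h5
    omega
  obtain ⟨c, hct⟩ := natDegree_eq_zero.mp ht1
  have hc0 : c ≠ 0 := by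
    rintro rfl
    exact ht0 (by rw [← hct, map_zero])
  refine ⟨g, n, C c⁻¹ * a, fun j => C c⁻¹ * b j, hg0, hn, ?_⟩
  have h6 : C c⁻¹ * t = 1 := by
    rw [← hct, ← C_mul, inv_mul_cancel₀ hc0, C_1]
  rw [← h6]
  conv_rhs => rw [h1]
  rw [mul_add, Finset.mul_sum, mul_assoc]
  congr 1
  exact Finset.sum_congr rfl fun j _ => by ring

theorem clr (p : Polynomial Lam) : ∃ k0 : ℕ, ∀ k ≥ k0, ∃ q : Polynomial (PowerSeries ℂ),
    q.map jL = C (lam ^ k) * p := by
  induction p using Polynomial.induction_on' with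
  | add p q hp hq =>
    obtain ⟨k1, h1⟩ := hp
    obtain ⟨k2, h2⟩ := hq
    refine ⟨k1 + k2, fun k hk => ?_⟩
    obtain ⟨a, ha⟩ := h1 k (by omega)
    obtain ⟨b, hb⟩ := h2 k (by omega)
    exact ⟨a + b, by rw [Polynomial.map_add, ha, hb, mul_add]⟩
  | monomial n a =>
    obtain ⟨k1, s, hs⟩ := exists_pow_mul a
    refine ⟨k1, fun k hk => ⟨monomial n (PowerSeries.X ^ (k - k1) * s), ?_⟩⟩
    rw [Polynomial.map_monomial, C_mul_monomial, map_mul, map_pow, jL_X, ← hs, ← mul_assoc,
      ← pow_add, Nat.sub_add_cancel hk]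

theorem clrs {κ : Type} (T : Finset κ) (p : κ → Polynomial Lam) :
    ∃ k0 : ℕ, ∀ k ≥ k0, ∃ q : κ → Polynomial (PowerSeries ℂ),
      ∀ j ∈ T, (q j).map jL = C (lam ^ k) * p j := by
  choose k0 hk0 using fun j => clr (p j)
  refine ⟨∑ j ∈ T, k0 j, fun k hk => ?_⟩
  have h1 : ∀ j ∈ T, ∃ q : Polynomial (PowerSeries ℂ), q.map jL = C (lam ^ k) * p j :=
    fun j hj => hk0 j k ((Finset.single_le_sum (f := k0) (fun _ _ => Nat.zero_le _) hj).trans hk)
  classical
  choose q hq using h1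
  refine ⟨fun j => if hj : j ∈ T then q j hj else 0, fun j hj => ?_⟩
  simp only [dif_pos hj]
  exact hq j hj

theorem map_C_X (c : ℕ) : (C ((PowerSeries.X : PowerSeries ℂ) ^ c) : Polynomial (PowerSeries ℂ)).map
    jL = C (lam ^ c) := by
  rw [Polynomial.map_C, map_pow, jL_X]

/-- denominators with a Bezout relation -/
theorem denoms {κ : Type} (T : Finset κ) (r : κ → RatFunc Lam) :
    ∃ (δ : Polynomial (PowerSeries ℂ)) (n : κ → Polynomial (PowerSeries ℂ)), δ ≠ 0 ∧
      (∀ j ∈ T, r j * jR δ = jR (n j)) ∧ ∃ c0 : ℕ, ∀ c ≥ c0,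
        ∃ (A : Polynomial (PowerSeries ℂ)) (B : κ → Polynomial (PowerSeries ℂ)),
          A * δ + ∑ j ∈ T, B j * n j = C (PowerSeries.X ^ c) := by
  obtain ⟨g, n, a, b, hg, hn, hb⟩ := bez T r
  obtain ⟨k1, hk1⟩ := clr g
  obtain ⟨k2, hk2⟩ := clrs T n
  obtain ⟨δ, hδ⟩ := hk1 (k1 + k2) (by omega)
  obtain ⟨n', hn'⟩ := hk2 (k1 + k2) (by omega)
  obtain ⟨k3, hk3⟩ := clr a
  obtain ⟨k4, hk4⟩ := clrs T b
  have hlam : ∀ k, (C (lam ^ k) : Polynomial Lam) ≠ 0 := fun k =>
    C_ne_zero.mpr (pow_ne_zero k lam_ne_zero)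
  refine ⟨δ, n', ?_, ?_, k1 + k2 + k3 + k4, ?_⟩
  · rintro rfl
    rw [Polynomial.map_zero] at hδ
    exact (mul_ne_zero (hlam _) hg) hδ.symm
  · intro j hj
    show r j * algebraMap (Polynomial Lam) (RatFunc Lam) (Polynomial.map jL δ) =
      algebraMap (Polynomial Lam) (RatFunc Lam) (Polynomial.map jL (n' j))
    rw [hδ, hn' j hj, map_mul, map_mul, ← hn j hj]
    ring
  · intro c hc
    obtain ⟨A, hA⟩ := hk3 (c - (k1 + k2)) (by omega)
    obtain ⟨B, hB⟩ := hk4 (c - (k1 + k2)) (by omega)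
    refine ⟨A, B, ?_⟩
    apply Polynomial.map_injective jL jL_injective
    rw [map_C_X, Polynomial.map_add, Polynomial.map_mul, hA, hδ, Polynomial.map_sum]
    have h1 : ∑ j ∈ T, Polynomial.map jL (B j * n' j) =
        C (lam ^ (c - (k1 + k2))) * C (lam ^ (k1 + k2)) * ∑ j ∈ T, b j * n j := by
      rw [Finset.mul_sum]
      refine Finset.sum_congr rfl fun j hj => ?_
      rw [Polynomial.map_mul, hB j hj, hn' j hj]
      ring
    rw [h1]
    have h2 : C (lam ^ (c - (k1 + k2))) * a * (C (lam ^ (k1 + k2)) * g) +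
        C (lam ^ (c - (k1 + k2))) * C (lam ^ (k1 + k2)) * ∑ j ∈ T, b j * n j =
        C (lam ^ (c - (k1 + k2))) * C (lam ^ (k1 + k2)) * (a * g + ∑ j ∈ T, b j * n j) := by
      ring
    rw [h2, hb, mul_one, ← C_mul, ← pow_add, Nat.sub_add_cancel (by omega)]

theorem jP_C (a : PowerSeries ℂ) : jP (C a) = PowerSeries.map cL a := by
  simp [jP]

theorem jP_C_X (c : ℕ) : jP (C (PowerSeries.X ^ c)) = PowerSeries.X ^ c := by
  rw [jP_C, map_pow, PowerSeries.map_X]

theorem iO_map_C (a : PowerSeries ℂ) : iO (PowerSeries.map (Polynomial.C) a) =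
    PowerSeries.map cL a := by
  ext n
  rw [coeff_iO, PowerSeries.coeff_map, PowerSeries.coeff_map, iS_C]

/-- polynomials outside -/
theorem outp (A : Polynomial (PowerSeries ℂ)) (D : ℕ) (hD : A.natDegree ≤ D) :
    ∃ q : Out, iO q * PowerSeries.C (lam ^ D) = jP A := by
  refine ⟨∑ k ∈ Finset.range (D + 1), PowerSeries.map (Polynomial.C) (A.coeff k) *
    PowerSeries.C (Polynomial.X ^ (D - k)), ?_⟩
  have h1 : jP A = ∑ k ∈ Finset.range (D + 1), PowerSeries.map cL (A.coeff k) *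
      PowerSeries.C lam ^ k := by
    show Polynomial.eval₂ (PowerSeries.map cL) (PowerSeries.C lam) A = _
    exact Polynomial.eval₂_eq_sum_range' _ (Nat.lt_succ_of_le hD) _
  rw [h1, map_sum, Finset.sum_mul]
  refine Finset.sum_congr rfl fun k hk => ?_
  have hk' : k ≤ D := Nat.lt_succ_iff.mp (Finset.mem_range.mp hk)
  rw [map_mul, iO_map_C, iO_C, map_pow, iS_X, mul_assoc, ← map_mul, ← map_pow]
  congr 2
  have h2 : lam ^ D = lam ^ (D - k) * lam ^ k := by rw [← pow_add, Nat.sub_add_cancel hk']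
  rw [h2, ← mul_assoc, ← mul_pow, inv_mul_cancel₀ lam_ne_zero, one_pow, one_mul]

/-- a relation between `ψ` and polynomials passes to `Ψ` -/
theorem rel_transfer (hP : Function.Injective jP) (hR : Function.Injective jR) {F : Ann}
    {r : RatFunc Lam} (h : Rel F r) {δ n : Polynomial (PowerSeries ℂ)}
    (hn : r * jR δ = jR n) : F * jP δ = jP n := by
  obtain ⟨A, B, hB, h1, h2⟩ := h
  have h3 : A * δ = n * B := by
    apply hR
    rw [map_mul, map_mul, ← h1, ← hn]
    ring
  have hB' : jP B ≠ 0 := by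
    intro h0
    exact hB (hP (by rw [h0, map_zero]))
  apply mul_right_cancel₀ hB'
  rw [← map_mul, ← h3, map_mul, ← h2]
  ring

end NPCERT

open NPCERT in
theorem pr_PCERT (hGCD : S_GCD) (hJW : S_JW) : S_PCERT := by
  intro L _ ι _ M y S Ψ ψ hrel ⟨N, d, hd, hdS⟩ ⟨E, e, he, heS⟩
  obtain ⟨⟨jW, hjW, _, _⟩, hP, hR⟩ := hJW
  choose δ n hδ hn c0 hc0 using fun i => denoms (S i) (fun j => ψ (y j))
  set c := ∑ i, c0 i with hc
  have hcc : ∀ i, ∃ (A : Polynomial (PowerSeries ℂ)) (B : Fin M → Polynomial (PowerSeries ℂ)),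
      A * δ i + ∑ j ∈ S i, B j * n i j = C (PowerSeries.X ^ c) := fun i =>
    hc0 i c (Finset.single_le_sum (f := c0) (fun _ _ => Nat.zero_le _) (Finset.mem_univ i))
  choose A B hAB using hcc
  have hΨ : ∀ i, ∀ j ∈ S i, Ψ (y j) * jP (δ i) = jP (n i j) := fun i j hj =>
    rel_transfer hP hR (hrel (y j)) (hn i j hj)
  -- the Bezout relation in `Ann`
  have hX : ∀ i, (PowerSeries.X : Ann) ^ c =
      (jP (A i) + ∑ j ∈ S i, jP (B i j) * Ψ (y j)) * jP (δ i) := by
    intro i
    rw [← jP_C_X, ← hAB i, map_add, map_mul, map_sum, add_mul, Finset.sum_mul]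
    congr 1
    refine Finset.sum_congr rfl fun j hj => ?_
    rw [map_mul, ← hΨ i j hj]
    ring
  -- inside
  have hin : ∀ i, ∃ u : W, d i * PowerSeries.X ^ c = u * jW (δ i) := by
    intro i
    choose! w hw using hdS i
    refine ⟨d i * jW (A i) + ∑ j ∈ S i, jW (B i j) * w j, ?_⟩
    apply iW_injective
    rw [map_mul, map_pow, iW_X, hX i, map_mul, map_add, map_mul, hjW, hjW, map_sum, ← mul_assoc,
      mul_add, Finset.mul_sum]
    congr 2
    refine Finset.sum_congr rfl fun j hj => ?_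
    rw [map_mul, hjW, ← hw j hj]
    ring
  choose u hu using hin
  -- outside
  set K := ∑ i, ((A i).natDegree + ∑ j ∈ S i, (B i j).natDegree + (δ i).natDegree) with hK
  have hKi : ∀ i, (A i).natDegree + ∑ j ∈ S i, (B i j).natDegree + (δ i).natDegree ≤ K := fun i =>
    Finset.single_le_sum
      (f := fun i => (A i).natDegree + ∑ j ∈ S i, (B i j).natDegree + (δ i).natDegree)
      (fun _ _ => Nat.zero_le _) (Finset.mem_univ i)
  choose δ' hδ' using fun i => outp (δ i) (δ i).natDegree le_rfl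
  have hout : ∀ i, ∃ v : Out, e i * (PowerSeries.X ^ c * PowerSeries.C (Polynomial.X ^ K)) =
      v * δ' i := by
    intro i
    choose! w hw using heS i
    obtain ⟨a, ha⟩ := outp (A i) (K - (δ i).natDegree) (by have := hKi i; omega)
    have hb0 : ∀ j ∈ S i, ∃ q : Out, iO q * PowerSeries.C (lam ^ (K - (δ i).natDegree)) =
        jP (B i j) := by
      intro j hj
      refine outp (B i j) _ ?_
      have h1 := hKi i
      have h2 := Finset.single_le_sum (f := fun j => (B i j).natDegree)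
        (fun _ _ => Nat.zero_le _) hj
      omega
    choose! b hb using hb0
    refine ⟨e i * a + ∑ j ∈ S i, b j * w j, ?_⟩
    apply iO_injective
    have hlam : (PowerSeries.C (lam ^ K) : Ann) * iO (PowerSeries.C (Polynomial.X ^ K)) = 1 := by
      have h0 : lam ^ K * iS (Polynomial.X ^ K) = 1 := by
        rw [map_pow, iS_X, ← mul_pow, mul_inv_cancel₀ lam_ne_zero, one_pow]
      rw [iO_C, ← map_mul, h0, map_one]
    have h3 : iO (e i) * (PowerSeries.X : Ann) ^ c =
        iO ((e i * a + ∑ j ∈ S i, b j * w j) * δ' i) * PowerSeries.C (lam ^ K) := by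
      have hle : (δ i).natDegree ≤ K := by have := hKi i; omega
      have h4 : lam ^ K = lam ^ (K - (δ i).natDegree) * lam ^ (δ i).natDegree := by
        rw [← pow_add, Nat.sub_add_cancel hle]
      have h5 : iO (e i) * (jP (A i) + ∑ j ∈ S i, jP (B i j) * Ψ (y j)) =
          iO (e i * a + ∑ j ∈ S i, b j * w j) * PowerSeries.C (lam ^ (K - (δ i).natDegree)) := by
        rw [mul_add, map_add, map_mul, map_sum, add_mul, Finset.sum_mul, Finset.mul_sum, ← ha]
        congr 1
        · ring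
        · refine Finset.sum_congr rfl fun j hj => ?_
          rw [map_mul, ← hw j hj, ← hb j hj]
          ring
      rw [hX i, ← mul_assoc, h5, ← hδ' i, h4, map_mul, map_mul]
      ring
    rw [map_mul, map_mul, map_pow, iO_X, ← mul_assoc, h3, mul_assoc, hlam, mul_one]
  choose v hv using hout
  obtain ⟨g, hg⟩ := hGCD ι δ hδ jW hjW (c + N) u (by
      rw [Finset.sum_congr rfl fun i _ => (hu i).symm, ← Finset.sum_mul, hd, ← pow_add, add_comm])
    c (E + K) v δ' hδ' (by
      rw [Finset.sum_congr rfl fun i _ => (hv i).symm, ← Finset.sum_mul, he, pow_add, map_mul]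
      ring)
  refine ⟨fun i => g i * (δ i).map jL, hg, fun i j hj => ⟨g i * (n i j).map jL, ?_⟩⟩
  have h1 : ψ (y j) * algebraMap (Polynomial Lam) (RatFunc Lam) ((δ i).map jL) =
      algebraMap (Polynomial Lam) (RatFunc Lam) ((n i j).map jL) := hn i j hj
  rw [map_mul, map_mul, ← h1]
  ring

end RC
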