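import Pool.Agent.Work.MP_0ac1ea_ag.RC.CStmts5
import Pool.Agent.Work.MP_0ac1ea_ag.RC.Basic

/-!
# Transfer of the value at `λ = 0` (item PIN)
-/

open Polynomial

namespace RC

namespace NPIN

theorem jR_apply (A : Polynomial (PowerSeries ℂ)) :
    jR A = algebraMap (Polynomial Lam) (RatFunc Lam) (A.map jL) := rfl

theorem modLam_jW (jW : Polynomial (PowerSeries ℂ) →+* W)
    (hC : ∀ c, jW (Polynomial.C c) = PowerSeries.map (PowerSeries.C) c)
    (hX : jW Polynomial.X = lamW) (A : Polynomial (PowerSeries ℂ)) :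
    modLam (jW A) = A.coeff 0 := by
  have h : modLam.comp jW = (Polynomial.evalRingHom (0 : PowerSeries ℂ)) := by
    refine Polynomial.ringHom_ext (fun c => ?_) ?_
    · rw [RingHom.comp_apply, hC, Polynomial.coe_evalRingHom, Polynomial.eval_C]
      ext n
      rw [coeff_modLam, PowerSeries.coeff_map, PowerSeries.constantCoeff_C]
    · rw [RingHom.comp_apply, hX, modLam_lamW, Polynomial.coe_evalRingHom, Polynomial.eval_X]
  have h2 := congrArg (fun f => f A) h
  simp only [RingHom.comp_apply, Polynomial.coe_evalRingHom] at h2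
  rw [h2, Polynomial.coeff_zero_eq_eval_zero]

theorem aux (jW : Polynomial (PowerSeries ℂ) →+* W)
    (hC : ∀ c, jW (Polynomial.C c) = PowerSeries.map (PowerSeries.C) c)
    (hX : jW Polynomial.X = lamW) (hR : Function.Injective jR) (r : RatFunc Lam) (z : ℂ) (e w : W)
    (he : modLam e ≠ 0) (hw : modLam w = PowerSeries.C z * modLam e) (N : ℕ) :
    ∀ A B : Polynomial (PowerSeries ℂ), B.natDegree ≤ N → B ≠ 0 → r * jR B = jR A →
      e * jW A = w * jW B → RegVal r 0 (cL z) := by
  induction N with
  | zero =>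
    intro A B hN hB h1 h2
    have h3 := congrArg modLam h2
    rw [map_mul, map_mul, modLam_jW jW hC hX, modLam_jW jW hC hX, hw] at h3
    have h4 : A.coeff 0 = PowerSeries.C z * B.coeff 0 := by
      apply mul_left_cancel₀ he
      rw [h3]; ring
    have hB0 : B.coeff 0 ≠ 0 := by
      intro h
      apply hB
      rw [Polynomial.eq_C_of_natDegree_le_zero hN, h, map_zero]
    refine ⟨A.map jL, B.map jL, ?_, h1, ?_⟩
    · rw [← Polynomial.coeff_zero_eq_eval_zero, Polynomial.coeff_map]
      exact fun h => hB0 (jL_injective (by rw [h, map_zero]))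
    · rw [← Polynomial.coeff_zero_eq_eval_zero, ← Polynomial.coeff_zero_eq_eval_zero,
        Polynomial.coeff_map, Polynomial.coeff_map, h4, map_mul, jL_C]
  | succ N ih =>
    intro A B hN hB h1 h2
    have h3 := congrArg modLam h2
    rw [map_mul, map_mul, modLam_jW jW hC hX, modLam_jW jW hC hX, hw] at h3
    have h4 : A.coeff 0 = PowerSeries.C z * B.coeff 0 := by
      apply mul_left_cancel₀ he
      rw [h3]; ring
    by_cases hB0 : B.coeff 0 = 0
    · have hA0 : A.coeff 0 = 0 := by rw [h4, hB0, mul_zero]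
      obtain ⟨A1, rfl⟩ := Polynomial.X_dvd_iff.mpr hA0
      obtain ⟨B1, rfl⟩ := Polynomial.X_dvd_iff.mpr hB0
      have hB1 : B1 ≠ 0 := right_ne_zero_of_mul hB
      refine ih A1 B1 ?_ hB1 ?_ ?_
      · rw [Polynomial.natDegree_X_mul hB1] at hN
        omega
      · have hX0 : jR Polynomial.X ≠ 0 := by
          intro h
          exact Polynomial.X_ne_zero (hR (by rw [h, map_zero]))
        apply mul_left_cancel₀ hX0
        rw [← map_mul, ← h1, map_mul]
        ring
      · apply mul_left_cancel₀ lamW_ne_zero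
        rw [map_mul, map_mul, hX] at h2
        calc lamW * (e * jW A1) = e * (lamW * jW A1) := by ring
          _ = w * (lamW * jW B1) := h2
          _ = _ := by ring
    · refine ⟨A.map jL, B.map jL, ?_, h1, ?_⟩
      · rw [← Polynomial.coeff_zero_eq_eval_zero, Polynomial.coeff_map]
        exact fun h => hB0 (jL_injective (by rw [h, map_zero]))
      · rw [← Polynomial.coeff_zero_eq_eval_zero, ← Polynomial.coeff_zero_eq_eval_zero,
          Polynomial.coeff_map, Polynomial.coeff_map, h4, map_mul, jL_C]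

end NPIN

theorem pr_PIN (hJW : S_JW) : S_PIN := by
  intro F r hrel z e w he h1 hw
  obtain ⟨⟨jW, hj, hC, hX⟩, hP, hR⟩ := hJW
  obtain ⟨A, B, hB, h2, h3⟩ := hrel
  refine NPIN.aux jW hC hX hR r z e w he hw B.natDegree A B le_rfl hB h2 ?_
  apply iW_injective
  rw [map_mul, map_mul, hj, hj, ← h3, ← h1]
  ring

end RC
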