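import Pool.Agent.Work.MP_0ac1ea_ag.RC.CStmts5
import Pool.Agent.Work.MP_0ac1ea_ag.RC.Basic

/-!
# `W ∩ λ^e Out` consists of polynomials in `λ` over `ℂ[[η]]`
-/

open Polynomial

namespace RC

namespace NPOLY

/-- truncation plus a multiple of `X ^ n` -/
theorem trunc_split (p : PowerSeries ℂ) (n : ℕ) :
    ∃ p' : PowerSeries ℂ, p = (∑ i ∈ Finset.range n, PowerSeries.C (PowerSeries.coeff i p) *
      PowerSeries.X ^ i) + PowerSeries.X ^ n * p' ∧ ∀ i, PowerSeries.coeff i p' =
        PowerSeries.coeff (n + i) p := by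
  refine ⟨PowerSeries.mk fun i => PowerSeries.coeff (n + i) p, ?_, fun i => by
    rw [PowerSeries.coeff_mk]⟩
  ext k
  rw [map_add, map_sum, PowerSeries.coeff_X_pow_mul', PowerSeries.coeff_mk]
  have h1 : ∀ i ∈ Finset.range n, PowerSeries.coeff k (PowerSeries.C (PowerSeries.coeff i p) *
      PowerSeries.X ^ i) = if k = i then PowerSeries.coeff k p else 0 := by
    intro i _
    rw [PowerSeries.coeff_C_mul, PowerSeries.coeff_X_pow]
    split_ifs with h
    · rw [h, mul_one]
    · rw [mul_zero]
  rw [Finset.sum_congr rfl h1, Finset.sum_ite_eq]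
  by_cases hk : k < n
  · rw [if_pos (Finset.mem_range.mpr hk), if_neg (by omega), add_zero]
  · rw [if_neg (by simpa using hk), if_pos (by omega), zero_add]
    congr 2
    omega

theorem coeff_zero (p : PowerSeries ℂ) (q : ℂ[X]) (e : ℤ) (h : jL p = lam ^ e * iS q)
    (i : ℕ) (hi : e.toNat < i) : PowerSeries.coeff i p = 0 := by
  obtain ⟨p', h1, h2⟩ := trunc_split p (e.toNat + 1)
  rcases le_total 0 e with he | he
  · -- `e ≥ 0`
    obtain ⟨n, hn⟩ := Int.eq_ofNat_of_zero_le he
    have hen : e.toNat = n := by omega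
    rw [hen] at h1 h2 hi
    -- `jL (X * p') = iS (q - q1)`
    have h3 : jL (PowerSeries.X * p') = iS (q - ∑ j ∈ Finset.range (n + 1),
        Polynomial.C (PowerSeries.coeff j p) * Polynomial.X ^ (n - j)) := by
      have h4 : lam ^ n * jL (PowerSeries.X * p') = lam ^ n * iS (q - ∑ j ∈ Finset.range (n + 1),
        Polynomial.C (PowerSeries.coeff j p) * Polynomial.X ^ (n - j)) := by
        rw [map_sub, mul_sub]
        have h5 : lam ^ n * iS q = jL p := by
          rw [h, hn, zpow_natCast]
        rw [h5]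
        have h6 : lam ^ n * iS (∑ j ∈ Finset.range (n + 1),
            Polynomial.C (PowerSeries.coeff j p) * Polynomial.X ^ (n - j))
            = jL (∑ j ∈ Finset.range (n + 1), PowerSeries.C (PowerSeries.coeff j p) *
              PowerSeries.X ^ j) := by
          rw [map_sum, map_sum, Finset.mul_sum]
          refine Finset.sum_congr rfl fun j hj => ?_
          have hj' : j ≤ n := Nat.lt_succ_iff.mp (Finset.mem_range.mp hj)
          rw [map_mul, map_mul, map_pow, map_pow, iS_C, iS_X, jL_C, jL_X]
          have h7 : lam ^ n = lam ^ j * lam ^ (n - j) := by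
            rw [← pow_add, Nat.add_sub_cancel' hj']
          have h8 : lam ^ (n - j) * (lam⁻¹) ^ (n - j) = 1 := by
            rw [← mul_pow, mul_inv_cancel₀ lam_ne_zero, one_pow]
          calc lam ^ n * (cL (PowerSeries.coeff j p) * lam⁻¹ ^ (n - j))
              = cL (PowerSeries.coeff j p) * lam ^ j * (lam ^ (n - j) * lam⁻¹ ^ (n - j)) := by
                rw [h7]; ring
            _ = _ := by rw [h8, mul_one]
        rw [h6]
        have h9 := congrArg jL h1
        rw [map_add] at h9
        rw [h9, add_sub_cancel_left, map_mul, map_mul, map_pow, jL_X, pow_succ, mul_assoc]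
      exact mul_left_cancel₀ (pow_ne_zero n lam_ne_zero) h4
    obtain ⟨c, hc, -⟩ := split_unique _ _ h3
    have hc0 : c = 0 := by
      have := congrArg PowerSeries.constantCoeff hc
      simpa using this.symm
    rw [hc0, map_zero] at hc
    have hp' : p' = 0 := by
      rcases mul_eq_zero.mp hc with h' | h'
      · exact absurd h' PowerSeries.X_ne_zero
      · exact h'
    obtain ⟨j, rfl⟩ : ∃ j, i = n + 1 + j := ⟨i - (n + 1), by omega⟩
    rw [← h2, hp', map_zero]
  · -- `e ≤ 0`
    rcases he.lt_or_eq with he | he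
    · obtain ⟨n, hn⟩ := Int.eq_ofNat_of_zero_le (neg_nonneg.mpr he.le)
      have hn0 : n ≠ 0 := by omega
      have h3 : jL (PowerSeries.X ^ n * p) = iS q := by
        rw [map_mul, map_pow, jL_X, h, ← mul_assoc, ← zpow_natCast lam n,
          ← zpow_add₀ lam_ne_zero]
        have : (n : ℤ) + e = 0 := by omega
        rw [this, zpow_zero, one_mul]
      obtain ⟨c, hc, -⟩ := split_unique _ _ h3
      have hc0 : c = 0 := by
        have := congrArg PowerSeries.constantCoeff hc
        rw [map_mul, map_pow, PowerSeries.constantCoeff_X, zero_pow hn0, zero_mul] at this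
        simpa using this.symm
      rw [hc0, map_zero] at hc
      rcases mul_eq_zero.mp hc with h' | h'
      · exact absurd h' (pow_ne_zero n PowerSeries.X_ne_zero)
      · rw [h', map_zero]
    · rw [he, zpow_zero, one_mul] at h
      obtain ⟨c, hc, -⟩ := split_unique _ _ h
      have hi0 : i ≠ 0 := by omega
      rw [hc, PowerSeries.coeff_C, if_neg hi0]

end NPOLY

open NPOLY in
theorem pr_POLY : S_POLY := by
  intro w q e h
  refine ⟨∑ i ∈ Finset.range (e.toNat + 1), Polynomial.C (PowerSeries.mk fun k =>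
    PowerSeries.coeff i (PowerSeries.coeff k w)) * Polynomial.X ^ i, ?_⟩
  have hk : ∀ k, jL (PowerSeries.coeff k w) = lam ^ e * iS (PowerSeries.coeff k q) := by
    intro k
    have := congrArg (PowerSeries.coeff k) h
    rwa [coeff_iW, PowerSeries.coeff_C_mul, coeff_iO] at this
  ext k
  rw [coeff_iW, map_sum, map_sum]
  obtain ⟨p', h1, h2⟩ := trunc_split (PowerSeries.coeff k w) (e.toNat + 1)
  have hp' : p' = 0 := by
    ext i
    rw [h2, map_zero]
    exact coeff_zero _ _ e (hk k) _ (by omega)
  rw [hp', mul_zero, add_zero] at h1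
  conv_rhs => rw [h1]
  rw [map_sum]
  refine Finset.sum_congr rfl fun i _ => ?_
  rw [map_mul, map_pow, map_mul jL, map_pow jL, jL_C, jL_X]
  have h3 : jP Polynomial.X = PowerSeries.C lam := by simp [jP]
  have h4 : ∀ c, jP (Polynomial.C c) = PowerSeries.map cL c := by intro c; simp [jP]
  rw [h3, h4, ← map_pow, PowerSeries.coeff_mul_C, PowerSeries.coeff_map, PowerSeries.coeff_mk]

end RC
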