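import Pool.Agent.Work.MP_0ac1ea_ag.RC.CStmts5
import Pool.Agent.Work.MP_0ac1ea_ag.RC.Basic

/-!
# Transfer of outside values (item PVAL)
-/

open Polynomial

namespace RC

namespace NPVAL

theorem iO_map (a : PowerSeries ℂ) :
    iO (PowerSeries.map (Polynomial.C) a) = PowerSeries.map cL a := by
  ext n
  rw [coeff_iO, PowerSeries.coeff_map, PowerSeries.coeff_map, iS_C]

theorem evS_map (σ : ℂ) (a : PowerSeries ℂ) :
    evS σ (PowerSeries.map (Polynomial.C) a) = a := by
  ext n
  rw [coeff_evS, PowerSeries.coeff_map, Polynomial.eval_C]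

/-- the `s`-version of a polynomial in `λ` -/
noncomputable def rv (n : ℕ) (A : Polynomial (PowerSeries ℂ)) : Out :=
  ∑ i ∈ Finset.range (n + 1), PowerSeries.map (Polynomial.C) (A.coeff i) *
    PowerSeries.C (Polynomial.X ^ (n - i))

theorem iO_rv (n : ℕ) (A : Polynomial (PowerSeries ℂ)) (hn : A.natDegree ≤ n) :
    iO (rv n A) = PowerSeries.C (lam⁻¹ ^ n) * jP A := by
  have h1 : jP A = ∑ i ∈ Finset.range (n + 1), (PowerSeries.map cL) (A.coeff i) *
      (PowerSeries.C lam) ^ i := by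
    change Polynomial.eval₂ _ _ A = _
    rw [Polynomial.eval₂_eq_sum_range' _ (Nat.lt_succ_of_le hn)]
  rw [h1, rv, map_sum, Finset.mul_sum]
  refine Finset.sum_congr rfl fun i hi => ?_
  have hi' : i ≤ n := Nat.lt_succ_iff.mp (Finset.mem_range.mp hi)
  rw [map_mul, iO_map, iO_C, map_pow, iS_X]
  have h2 : lam⁻¹ ^ (n - i) = lam⁻¹ ^ n * lam ^ i := by
    rw [← Nat.sub_add_cancel hi', pow_add, Nat.add_sub_cancel, mul_assoc, ← mul_pow,
      inv_mul_cancel₀ lam_ne_zero, one_pow, mul_one]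
  rw [h2, map_mul, map_pow PowerSeries.C lam i]
  ring

theorem evS_rv (σ : ℂ) (n : ℕ) (A : Polynomial (PowerSeries ℂ)) :
    evS σ (rv n A) = ∑ i ∈ Finset.range (n + 1), A.coeff i * PowerSeries.C (σ ^ (n - i)) := by
  rw [rv, map_sum]
  refine Finset.sum_congr rfl fun i _ => ?_
  rw [map_mul, evS_map, evS_C, Polynomial.eval_pow, Polynomial.eval_X]

theorem evS_rv_ne (σ : ℂ) (hσ : σ ≠ 0) (n : ℕ) (A : Polynomial (PowerSeries ℂ))
    (hn : A.natDegree ≤ n) :
    evS σ (rv n A) = PowerSeries.C (σ ^ n) * A.eval (PowerSeries.C σ⁻¹) := by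
  rw [evS_rv, Polynomial.eval_eq_sum_range' (Nat.lt_succ_of_le hn), Finset.mul_sum]
  refine Finset.sum_congr rfl fun i hi => ?_
  have hi' : i ≤ n := Nat.lt_succ_iff.mp (Finset.mem_range.mp hi)
  have h2 : σ ^ (n - i) = σ ^ n * σ⁻¹ ^ i := by
    conv_rhs => rw [← Nat.sub_add_cancel hi', pow_add, mul_assoc, ← mul_pow,
      mul_inv_cancel₀ hσ, one_pow, mul_one]
  rw [h2, map_mul, map_pow PowerSeries.C σ⁻¹ i]
  ring

theorem evS_rv_zero (n : ℕ) (A : Polynomial (PowerSeries ℂ)) :
    evS 0 (rv n A) = A.coeff n := by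
  rw [evS_rv, Finset.sum_eq_single n]
  · simp
  · intro i hi hin
    have hi' : i ≤ n := Nat.lt_succ_iff.mp (Finset.mem_range.mp hi)
    rw [zero_pow (by omega), map_zero, mul_zero]
  · intro h
    exact absurd (Finset.mem_range.mpr (Nat.lt_succ_self n)) h

theorem key (A B : Polynomial (PowerSeries ℂ)) (A' B' : Out)
    (h : iO B' * jP A = iO A' * jP B) (n : ℕ) (hA : A.natDegree ≤ n) (hB : B.natDegree ≤ n) :
    B' * rv n A = A' * rv n B := by
  apply iO_injective
  rw [map_mul, map_mul, iO_rv n A hA, iO_rv n B hB]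
  calc iO B' * (PowerSeries.C (lam⁻¹ ^ n) * jP A)
      = PowerSeries.C (lam⁻¹ ^ n) * (iO B' * jP A) := by ring
    _ = PowerSeries.C (lam⁻¹ ^ n) * (iO A' * jP B) := by rw [h]
    _ = _ := by ring

theorem key2 (A B : Polynomial (PowerSeries ℂ)) (A' B' : Out)
    (h : iO B' * jP A = iO A' * jP B) (n : ℕ) (hA : A.natDegree ≤ n) (hB : B.natDegree ≤ n)
    (σ c : ℂ) (h1 : evS σ B' ≠ 0) (h2 : evS σ A' = PowerSeries.C c * evS σ B') :
    evS σ (rv n A) = PowerSeries.C c * evS σ (rv n B) := by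
  have h3 := congrArg (evS σ) (key A B A' B' h n hA hB)
  rw [map_mul, map_mul, h2] at h3
  apply mul_left_cancel₀ h1
  rw [h3]; ring

theorem aux (hP : Function.Injective jP) (hR : Function.Injective jR) (r : RatFunc Lam)
    (σ c : ℂ) (hσ : σ ≠ 0) (A' B' : Out) (hB' : evS σ B' ≠ 0)
    (hA' : evS σ A' = PowerSeries.C c * evS σ B') (N : ℕ) :
    ∀ A B : Polynomial (PowerSeries ℂ), B.natDegree ≤ N → B ≠ 0 → r * jR B = jR A →
      iO B' * jP A = iO A' * jP B → RegVal r (cL σ⁻¹) (cL c) := by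
  have hfin : ∀ A B : Polynomial (PowerSeries ℂ), B.eval (PowerSeries.C σ⁻¹) ≠ 0 →
      r * jR B = jR A → A.eval (PowerSeries.C σ⁻¹) = PowerSeries.C c *
        B.eval (PowerSeries.C σ⁻¹) → RegVal r (cL σ⁻¹) (cL c) := by
    intro A B h1 h2 h3
    have hev : ∀ P : Polynomial (PowerSeries ℂ), (P.map jL).eval (cL σ⁻¹)
        = jL (P.eval (PowerSeries.C σ⁻¹)) := by
      intro P
      rw [← jL_C, Polynomial.eval_map, Polynomial.eval₂_hom]
    refine ⟨A.map jL, B.map jL, ?_, h2, ?_⟩
    · rw [hev]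
      exact fun h => h1 (jL_injective (by rw [h, map_zero]))
    · rw [hev, hev, h3, map_mul, jL_C]
  have hval : ∀ A B : Polynomial (PowerSeries ℂ), iO B' * jP A = iO A' * jP B →
      A.eval (PowerSeries.C σ⁻¹) = PowerSeries.C c * B.eval (PowerSeries.C σ⁻¹) := by
    intro A B h
    have h1 := key2 A B A' B' h (max A.natDegree B.natDegree) (le_max_left _ _)
      (le_max_right _ _) σ c hB' hA'
    rw [evS_rv_ne σ hσ _ A (le_max_left _ _), evS_rv_ne σ hσ _ B (le_max_right _ _)] at h1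
    have h2 : (PowerSeries.C (σ ^ max A.natDegree B.natDegree) : PowerSeries ℂ) ≠ 0 := by
      intro h
      have := congrArg PowerSeries.constantCoeff h
      rw [PowerSeries.constantCoeff_C, map_zero] at this
      exact pow_ne_zero _ hσ this
    apply mul_left_cancel₀ h2
    rw [h1]; ring
  induction N with
  | zero =>
    intro A B hN hB h1 h2
    refine hfin A B ?_ h1 (hval A B h2)
    rw [Polynomial.eq_C_of_natDegree_le_zero hN, Polynomial.eval_C]
    intro h
    apply hB
    rw [Polynomial.eq_C_of_natDegree_le_zero hN, h, map_zero]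
  | succ N ih =>
    intro A B hN hB h1 h2
    by_cases hB0 : B.eval (PowerSeries.C σ⁻¹) = 0
    · have hA0 : A.eval (PowerSeries.C σ⁻¹) = 0 := by rw [hval A B h2, hB0, mul_zero]
      obtain ⟨A1, rfl⟩ := Polynomial.dvd_iff_isRoot.mpr hA0
      obtain ⟨B1, rfl⟩ := Polynomial.dvd_iff_isRoot.mpr hB0
      have hB1 : B1 ≠ 0 := right_ne_zero_of_mul hB
      have hπ : (Polynomial.X - Polynomial.C (PowerSeries.C σ⁻¹ : PowerSeries ℂ)) ≠ 0 :=
        Polynomial.X_sub_C_ne_zero _
      refine ih A1 B1 ?_ hB1 ?_ ?_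
      · rw [Polynomial.natDegree_mul hπ hB1, Polynomial.natDegree_X_sub_C] at hN
        omega
      · have hX0 : jR (Polynomial.X - Polynomial.C (PowerSeries.C σ⁻¹ : PowerSeries ℂ)) ≠ 0 := by
          intro h
          exact hπ (hR (by rw [h, map_zero]))
        apply mul_left_cancel₀ hX0
        rw [← map_mul, ← h1, map_mul]
        ring
      · have hX0 : jP (Polynomial.X - Polynomial.C (PowerSeries.C σ⁻¹ : PowerSeries ℂ)) ≠ 0 := by
          intro h
          exact hπ (hP (by rw [h, map_zero]))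
        apply mul_left_cancel₀ hX0
        rw [map_mul jP, map_mul jP] at h2
        calc _ = iO B' * (jP (Polynomial.X - Polynomial.C (PowerSeries.C σ⁻¹)) * jP A1) := by ring
          _ = _ := h2
          _ = _ := by ring
    · exact hfin A B hB0 h1 (hval A B h2)

end NPVAL

theorem pr_PVAL (hJW : S_JW) : S_PVAL := by
  intro F r hrel σ c hout
  obtain ⟨⟨jW, hj, hC, hX⟩, hP, hR⟩ := hJW
  obtain ⟨A, B, hB, h2, h3⟩ := hrel
  obtain ⟨A', B', h4, h5, h6⟩ := hout
  have h7 : iO B' * jP A = iO A' * jP B := by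
    rw [← h3, ← h4]; ring
  refine ⟨fun hσ => ?_, fun hσ => ?_⟩
  · exact NPVAL.aux hP hR r σ c hσ A' B' h5 h6 B.natDegree A B le_rfl hB h2 h7
  · subst hσ
    have h1 := NPVAL.key2 A B A' B' h7 (max A.natDegree B.natDegree) (le_max_left _ _)
      (le_max_right _ _) 0 c h5 h6
    rw [NPVAL.evS_rv_zero, NPVAL.evS_rv_zero] at h1
    have hle : A.natDegree ≤ B.natDegree := by
      by_contra hlt
      rw [not_le] at hlt
      rw [max_eq_left hlt.le, Polynomial.coeff_eq_zero_of_natDegree_lt hlt, mul_zero,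
        Polynomial.coeff_natDegree, Polynomial.leadingCoeff_eq_zero] at h1
      rw [h1, Polynomial.natDegree_zero] at hlt
      exact absurd hlt (Nat.not_lt_zero _)
    rw [max_eq_right hle] at h1
    refine ⟨A.map jL, B.map jL, ?_, ?_, h2, ?_⟩
    · intro h
      exact hB (Polynomial.map_injective jL jL_injective (by rw [h, Polynomial.map_zero]))
    · rw [Polynomial.natDegree_map_eq_of_injective jL_injective,
        Polynomial.natDegree_map_eq_of_injective jL_injective]
      exact hle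
    · rw [Polynomial.leadingCoeff, Polynomial.natDegree_map_eq_of_injective jL_injective,
        Polynomial.coeff_map, Polynomial.coeff_map, h1, map_mul, jL_C]

end RC
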