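import Pool.Agent.Work.MP_0ac1ea_ag.RC.CStmts5
import Pool.Agent.Work.MP_0ac1ea_ag.RC.Basic

/-!
# Root of `l^m (1 - l) = ν`
-/

open Polynomial

namespace RC

theorem pr_ROOT : S_ROOT := by
  intro m hm ν hν
  by_cases h0 : ν = 0
  · exact ⟨1, isAlgebraic_one, one_ne_zero, by rw [h0]; simp⟩
  · have hdeg : (X ^ m * (1 - X) - C ν : ℂ[X]).degree ≠ 0 := by
      have h1 : (X ^ m * (1 - X) - C ν : ℂ[X]).natDegree = m + 1 := by
        have e : (X ^ m * (1 - X) - C ν : ℂ[X]) = -(X ^ (m + 1) - X ^ m + C ν) := by ring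
        rw [e, natDegree_neg]
        compute_degree!
      intro h
      have h2 : (X ^ m * (1 - X) - C ν : ℂ[X]).natDegree = 0 := natDegree_eq_of_degree_eq_some h
      rw [h1] at h2
      exact absurd h2 (by omega)
    obtain ⟨μ, hμ⟩ := IsAlgClosed.exists_root _ hdeg
    have hμ' : μ ^ m * (1 - μ) = ν := by
      have := hμ
      simp only [IsRoot.def, eval_sub, eval_mul, eval_pow, eval_X, eval_one, eval_C] at this
      linear_combination this
    refine ⟨μ, ?_, ?_, hμ'⟩
    · have h2 : ν = aeval μ (X ^ m * (1 - X) : ℚ[X]) := by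
        rw [← hμ']; simp
      rw [h2] at hν
      have hnd : (X ^ m * (1 - X) : ℚ[X]).natDegree ≠ 0 := by
        have h1 : (X ^ m * (1 - X) : ℚ[X]).natDegree = m + 1 := by
          have e : (X ^ m * (1 - X) : ℚ[X]) = -(X ^ (m + 1) - X ^ m) := by ring
          rw [e, natDegree_neg]
          compute_degree!
        omega
      exact IsAlgebraic.of_aeval _ hnd (by
        refine mem_nonZeroDivisors_of_ne_zero ?_
        intro h
        have h3 := leadingCoeff_eq_zero.mp h
        rw [h3] at hnd
        simp at hnd) hν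
    · rintro rfl
      apply h0
      rw [← hμ', zero_pow (by omega), zero_mul]

end RC
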