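import Pool.Agent.Work.MP_0ac1ea_ag.RC.CStmts5
import Pool.Agent.Work.MP_0ac1ea_ag.RC.Basic

/-!
# Item SPLIT: multiplicative splitting of `ℂ((λ))[[η]]`
-/

open Polynomial

namespace RC

namespace NSPLIT

/-- the power series part of a Laurent series -/
noncomputable def sp (f : Lam) : PowerSeries ℂ := (split f).choose
/-- the principal part of a Laurent series -/
noncomputable def sq (f : Lam) : ℂ[X] := (split f).choose_spec.choose

theorem sp_sq (f : Lam) : f = jL (sp f) + iS (sq f) := (split f).choose_spec.choose_spec.1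

/-- the recursion -/
noncomputable def g (F : Ann) : ℕ → PowerSeries ℂ × ℂ[X]
  | 0 => (1, 1)
  | (k + 1) =>
    (sp (PowerSeries.coeff (k + 1) F - ∑ i : Fin k, jL (g F (i.1 + 1)).1 * iS (g F (k - i.1)).2),
     sq (PowerSeries.coeff (k + 1) F - ∑ i : Fin k, jL (g F (i.1 + 1)).1 * iS (g F (k - i.1)).2))
  termination_by k => k
  decreasing_by all_goals omega

theorem g_zero (F : Ann) : g F 0 = (1, 1) := by rw [g]

theorem g_succ (F : Ann) (k : ℕ) : jL (g F (k + 1)).1 + iS (g F (k + 1)).2
    = PowerSeries.coeff (k + 1) F - ∑ i ∈ Finset.range k, jL (g F (i + 1)).1 * iS (g F (k - i)).2 := by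
  rw [g]
  dsimp only
  rw [← sp_sq, Finset.sum_range]

theorem factor (F : Ann) (hF : PowerSeries.constantCoeff F = 1) :
    ∃ (u : W) (v : Out), PowerSeries.constantCoeff u = 1 ∧ PowerSeries.constantCoeff v = 1 ∧
      F = iW u * iO v := by
  refine ⟨PowerSeries.mk fun k => (g F k).1, PowerSeries.mk fun k => (g F k).2, ?_, ?_, ?_⟩
  · rw [← PowerSeries.coeff_zero_eq_constantCoeff_apply, PowerSeries.coeff_mk, g_zero]
  · rw [← PowerSeries.coeff_zero_eq_constantCoeff_apply, PowerSeries.coeff_mk, g_zero]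
  · ext n : 1
    rw [PowerSeries.coeff_mul]
    rw [Finset.Nat.sum_antidiagonal_eq_sum_range_succ
      (fun i j => PowerSeries.coeff i (iW (PowerSeries.mk fun k => (g F k).1)) *
        PowerSeries.coeff j (iO (PowerSeries.mk fun k => (g F k).2)))]
    simp only [coeff_iW, coeff_iO, PowerSeries.coeff_mk]
    rcases n with _ | k
    · rw [Finset.sum_range_one, g_zero]
      simp only [map_one, mul_one]
      rw [PowerSeries.coeff_zero_eq_constantCoeff_apply, hF]
    · rw [Finset.sum_range_succ, Finset.sum_range_succ', g_zero]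
      have h0 : k + 1 - (k + 1) = 0 := by omega
      rw [h0, g_zero, Nat.sub_zero]
      simp only [map_one, mul_one, one_mul]
      have h1 : ∑ i ∈ Finset.range k, jL (g F (i + 1)).1 * iS (g F (k + 1 - (i + 1))).2
          = ∑ i ∈ Finset.range k, jL (g F (i + 1)).1 * iS (g F (k - i)).2 := by
        refine Finset.sum_congr rfl fun i _ => ?_
        have : k + 1 - (i + 1) = k - i := by omega
        rw [this]
      rw [h1]
      have h2 := g_succ F k
      linear_combination -h2

end NSPLIT

theorem pr_SPLIT : S_SPLIT := by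
  intro F hF
  obtain ⟨e, p, hp, hfe⟩ := unit_form (PowerSeries.constantCoeff F) hF
  have hpu : IsUnit p := by
    rw [PowerSeries.isUnit_iff_constantCoeff]
    exact isUnit_iff_ne_zero.mpr hp
  have hjp : jL p ≠ 0 := by
    intro h
    apply hF
    rw [hfe, h, mul_zero]
  have hle : lam ^ e ≠ 0 := zpow_ne_zero _ lam_ne_zero
  obtain ⟨u, v, hu, hv, huv⟩ := NSPLIT.factor
    (PowerSeries.C ((lam ^ e)⁻¹) * PowerSeries.C ((jL p)⁻¹) * F) (by
      rw [map_mul, map_mul, PowerSeries.constantCoeff_C, PowerSeries.constantCoeff_C, hfe]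
      field_simp)
  refine ⟨e, PowerSeries.C p * u, v, ?_, ?_, ?_⟩
  · refine IsUnit.mul (hpu.map _) ?_
    rw [PowerSeries.isUnit_iff_constantCoeff, hu]
    exact isUnit_one
  · rw [PowerSeries.isUnit_iff_constantCoeff, hv]
    exact isUnit_one
  · rw [map_mul, iW_C]
    have h1 : (PowerSeries.C (lam ^ e) : Ann) * PowerSeries.C (jL p) * (iW u * iO v) = F := by
      rw [← huv]
      have h2 : (PowerSeries.C (lam ^ e) : Ann) * PowerSeries.C ((lam ^ e)⁻¹) = 1 := by
        rw [← map_mul, mul_inv_cancel₀ hle, map_one]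
      have h3 : (PowerSeries.C (jL p) : Ann) * PowerSeries.C ((jL p)⁻¹) = 1 := by
        rw [← map_mul, mul_inv_cancel₀ hjp, map_one]
      linear_combination F * PowerSeries.C (jL p) * PowerSeries.C ((jL p)⁻¹) * h2 + F * h3
    rw [← h1]
    ring

end RC
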