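import Pool.Agent.Work.MP_0ac1ea_ag.RC.CStmts3

open Polynomial
open scoped TensorProduct

namespace RC
namespace TDOM_aux

/-- weak Nullstellensatz: a nonzero element is not killed by some point -/
theorem exists_algHom {k : Type} [Field k] [IsAlgClosed k] {R : Type} [CommRing R] [IsDomain R]
    [Algebra k R] [Algebra.FiniteType k R] (r : R) (hr : r ≠ 0) : ∃ φ : R →ₐ[k] k, φ r ≠ 0 := by
  have hJ : IsJacobsonRing R := isJacobsonRing_of_finiteType (A := k)
  have h0 : (⊥ : Ideal R).jacobson = ⊥ :=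
    hJ.out (Ideal.IsPrime.isRadical Ideal.isPrime_bot)
  have h1 : r ∉ (⊥ : Ideal R).jacobson := by rw [h0]; simpa using hr
  rw [Ideal.jacobson, Ideal.mem_sInf] at h1
  push Not at h1
  obtain ⟨M, ⟨_, hM⟩, hrM⟩ := h1
  letI := Ideal.Quotient.field M
  have hfin : Module.Finite k (R ⧸ M) := finite_of_finite_type_of_isJacobsonRing k (R ⧸ M)
  have hbij : Function.Bijective (algebraMap k (R ⧸ M)) :=
    IsAlgClosed.algebraMap_bijective_of_isIntegral
  let e : k ≃ₐ[k] (R ⧸ M) := AlgEquiv.ofBijective (Algebra.ofId k (R ⧸ M)) hbij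
  refine ⟨(e.symm : (R ⧸ M) →ₐ[k] k).comp (Ideal.Quotient.mkₐ k M), ?_⟩
  intro h
  apply hrM
  rw [← Ideal.Quotient.eq_zero_iff_mem]
  have h2 : e.symm (Ideal.Quotient.mk M r) = 0 := h
  simpa using h2

variable {k : Type} [Field k] {R : Type} [CommRing R] [Algebra k R]
  {A : Type} [CommRing A] [Algebra k A]

/-- evaluation at a point -/
noncomputable def ev (φ : R →ₐ[k] k) : A ⊗[k] R →ₐ[k] A :=
  Algebra.TensorProduct.lift (AlgHom.id k A) ((Algebra.ofId k A).comp φ)
    (fun _ _ => Commute.all _ _)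

theorem ev_tmul (φ : R →ₐ[k] k) (a : A) (r : R) : ev φ (a ⊗ₜ[k] r) = φ r • a := by
  simp [ev, Algebra.ofId_apply, Algebra.smul_def, mul_comm]

theorem repr_ev {ι : Type*} [DecidableEq ι] (b : Module.Basis ι k A) (φ : R →ₐ[k] k) (f : A ⊗[k] R) (i : ι) :
    b.repr (ev φ f) i = φ (TensorProduct.equivFinsuppOfBasisLeft b f i) := by
  induction f using TensorProduct.induction_on with
  | zero => simp
  | tmul a r =>
    rw [ev_tmul, TensorProduct.equivFinsuppOfBasisLeft_apply_tmul_apply]
    simp [mul_comm]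
  | add x y hx hy => simp [hx, hy]

end TDOM_aux

open TDOM_aux in
theorem pr_TDOM : S_TDOM := by
  classical
  intro k _ _ R _ _ _ _ A _ _ _
  have hnt : Nontrivial (A ⊗[k] R) := by
    obtain ⟨φ, -⟩ := exists_algHom (k := k) (1 : R) one_ne_zero
    refine ⟨1, 0, fun h => ?_⟩
    have h1 := congrArg (ev (A := A) φ) h
    simp at h1
  have hnz : NoZeroDivisors (A ⊗[k] R) := by
    refine ⟨fun {f g} hfg => ?_⟩
    set b := Module.Basis.ofVectorSpace k A with hb
    by_contra hcon
    push Not at hcon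
    obtain ⟨hf, hg⟩ := hcon
    have hf' : ∃ i, TensorProduct.equivFinsuppOfBasisLeft (N := R) b f i ≠ 0 := by
      by_contra hall
      push Not at hall
      apply hf
      apply (TensorProduct.equivFinsuppOfBasisLeft (N := R) b).injective
      rw [map_zero]
      exact Finsupp.ext hall
    have hg' : ∃ i, TensorProduct.equivFinsuppOfBasisLeft (N := R) b g i ≠ 0 := by
      by_contra hall
      push Not at hall
      apply hg
      apply (TensorProduct.equivFinsuppOfBasisLeft (N := R) b).injective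
      rw [map_zero]
      exact Finsupp.ext hall
    obtain ⟨i, hi⟩ := hf'
    obtain ⟨j, hj⟩ := hg'
    obtain ⟨φ, hφ⟩ := exists_algHom (k := k) _ (mul_ne_zero hi hj)
    rw [map_mul] at hφ
    have hφ1 := left_ne_zero_of_mul hφ
    have hφ2 := right_ne_zero_of_mul hφ
    rw [← repr_ev] at hφ1 hφ2
    have h0 : ev φ f * ev φ g = 0 := by rw [← map_mul, hfg, map_zero]
    rcases mul_eq_zero.mp h0 with h | h
    · rw [h] at hφ1
      simp at hφ1
    · rw [h] at hφ2
      simp at hφ2
  exact NoZeroDivisors.to_isDomain _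

end RC
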