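import Pool.Agent.Work.MP_0ac1ea_ag.RC.CStmts2
import Pool.Agent.Work.MP_0ac1ea_ag.RC.Basic

open Polynomial

namespace RC

namespace TH_aux

/-! ### the difference property is stable under the field operations -/

section Abs

variable {K : Type} [Field K] {n : ℕ} (f g : K →+* Ann) (ev : K →+* Lam)
  (D' : Fin n → K → K) (e : Fin n → Ann) (N : ℕ)

/-- the linear part -/
noncomputable def lin (r : K) : Ann := ∑ i, PowerSeries.C (ev (D' i r)) * e i

/-- the difference property -/
def Good (r : K) : Prop := (PowerSeries.X : Ann) ^ (N + 1) ∣ g r - f r - lin ev D' e r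

/-- additivity and the Leibniz rule -/
def Der : Prop := (∀ i r s, D' i (r + s) = D' i r + D' i s) ∧
  ∀ i r s, D' i (r * s) = r * D' i s + s * D' i r

theorem lin_add (hd : Der D') (r s : K) :
    lin ev D' e (r + s) = lin ev D' e r + lin ev D' e s := by
  simp only [lin, hd.1, map_add, add_mul, Finset.sum_add_distrib]

theorem lin_mul (hd : Der D') (r s : K) : lin ev D' e (r * s)
    = PowerSeries.C (ev r) * lin ev D' e s + PowerSeries.C (ev s) * lin ev D' e r := by
  simp only [lin]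
  rw [Finset.mul_sum, Finset.mul_sum, ← Finset.sum_add_distrib]
  refine Finset.sum_congr rfl fun i _ => ?_
  rw [hd.2]
  simp only [map_add, map_mul]
  ring

theorem lin_one (hd : Der D') : lin ev D' e 1 = 0 := by
  unfold lin
  refine Finset.sum_eq_zero fun i _ => ?_
  have h := hd.2 i 1 1
  rw [mul_one, one_mul] at h
  have h2 : D' i 1 = 0 := by
    linear_combination -h
  rw [h2, map_zero, map_zero, zero_mul]

variable {e} in
theorem lin_dvd (he : ∀ i, (PowerSeries.X : Ann) ^ N ∣ e i) (r : K) :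
    (PowerSeries.X : Ann) ^ N ∣ lin ev D' e r :=
  Finset.dvd_sum fun i _ => Dvd.dvd.mul_left (he i) _

theorem eq_const_add (x : Ann) : ∃ p : Ann, x = PowerSeries.C (PowerSeries.constantCoeff x)
    + PowerSeries.X * p := by
  refine ⟨PowerSeries.mk fun i => PowerSeries.coeff (i + 1) x, ?_⟩
  rw [add_comm]
  exact PowerSeries.eq_X_mul_shift_add_const x

theorem good_add (hd : Der D') (r s : K) (hr : Good f g ev D' e N r) (hs : Good f g ev D' e N s) :
    Good f g ev D' e N (r + s) := by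
  unfold Good at *
  rw [lin_add ev D' e hd, map_add, map_add]
  have : g r + g s - (f r + f s) - (lin ev D' e r + lin ev D' e s)
      = (g r - f r - lin ev D' e r) + (g s - f s - lin ev D' e s) := by ring
  rw [this]
  exact dvd_add hr hs

variable {e N} in
theorem good_mul (hd : Der D') (hN : 1 ≤ N) (he : ∀ i, (PowerSeries.X : Ann) ^ N ∣ e i)
    (hf : ∀ r, PowerSeries.constantCoeff (f r) = ev r)
    (r s : K) (hr : Good f g ev D' e N r) (hs : Good f g ev D' e N s) :
    Good f g ev D' e N (r * s) := by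
  unfold Good at *
  obtain ⟨A, hA⟩ := hr
  obtain ⟨B, hB⟩ := hs
  obtain ⟨p, hp⟩ := eq_const_add (f r)
  obtain ⟨q, hq⟩ := eq_const_add (f s)
  rw [hf] at hp hq
  obtain ⟨u, hu⟩ := lin_dvd ev D' N he r
  obtain ⟨v, hv⟩ := lin_dvd ev D' N he s
  have hgr : g r = f r + lin ev D' e r + PowerSeries.X ^ (N + 1) * A := by
    rw [← hA]; ring
  have hgs : g s = f s + lin ev D' e s + PowerSeries.X ^ (N + 1) * B := by
    rw [← hB]; ring
  obtain ⟨M, rfl⟩ : ∃ M, N = M + 1 := ⟨N - 1, by omega⟩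
  refine ⟨p * v + q * u + f r * B + A * f s + PowerSeries.X ^ M * u * v
    + PowerSeries.X ^ (M + 1) * u * B + PowerSeries.X ^ (M + 1) * A * v
    + PowerSeries.X ^ (M + 2) * A * B, ?_⟩
  rw [lin_mul ev D' e hd, map_mul, map_mul, hgr, hgs]
  have h1 : f r - PowerSeries.C (ev r) = PowerSeries.X * p := by
    conv_lhs => rw [hp]
    ring
  have h2 : f s - PowerSeries.C (ev s) = PowerSeries.X * q := by
    conv_lhs => rw [hq]
    ring
  calc (f r + lin ev D' e r + PowerSeries.X ^ (M + 1 + 1) * A)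
        * (f s + lin ev D' e s + PowerSeries.X ^ (M + 1 + 1) * B) - f r * f s
        - (PowerSeries.C (ev r) * lin ev D' e s + PowerSeries.C (ev s) * lin ev D' e r)
      = (f r - PowerSeries.C (ev r)) * lin ev D' e s + (f s - PowerSeries.C (ev s)) * lin ev D' e r
        + f r * (PowerSeries.X ^ (M + 1 + 1) * B) + (PowerSeries.X ^ (M + 1 + 1) * A) * f s
        + (lin ev D' e r + PowerSeries.X ^ (M + 1 + 1) * A)
          * (lin ev D' e s + PowerSeries.X ^ (M + 1 + 1) * B) := by ring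
    _ = _ := by
      rw [h1, h2, hu, hv]
      ring

variable {e N} in
theorem good_inv (hd : Der D') (he : ∀ i, (PowerSeries.X : Ann) ^ N ∣ e i)
    (hf : ∀ r, PowerSeries.constantCoeff (f r) = ev r)
    (hg : ∀ r, PowerSeries.constantCoeff (g r) = ev r)
    (r : K) (hr0 : r ≠ 0) (hr : Good f g ev D' e N r) : Good f g ev D' e N r⁻¹ := by
  unfold Good at *
  obtain ⟨A, hA⟩ := hr
  obtain ⟨p, hp⟩ := eq_const_add (g r)
  obtain ⟨q, hq⟩ := eq_const_add (f r⁻¹)
  rw [hg] at hp
  rw [hf] at hq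
  obtain ⟨u, hu⟩ := lin_dvd ev D' N he r
  obtain ⟨v, hv⟩ := lin_dvd ev D' N he r⁻¹
  have hgr : g r = f r + lin ev D' e r + PowerSeries.X ^ (N + 1) * A := by
    rw [← hA]; ring
  have hg1 : g r * g r⁻¹ = 1 := by rw [← map_mul, mul_inv_cancel₀ hr0, map_one]
  have hf1 : f r * f r⁻¹ = 1 := by rw [← map_mul, mul_inv_cancel₀ hr0, map_one]
  have hl : PowerSeries.C (ev r) * lin ev D' e r⁻¹ + PowerSeries.C (ev r⁻¹) * lin ev D' e r = 0 := by
    rw [← lin_mul ev D' e hd, mul_inv_cancel₀ hr0, lin_one ev D' e hd]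
  have h1 : g r - PowerSeries.C (ev r) = PowerSeries.X * p := by
    conv_lhs => rw [hp]
    ring
  have h2 : f r⁻¹ - PowerSeries.C (ev r⁻¹) = PowerSeries.X * q := by
    conv_lhs => rw [hq]
    ring
  have key : g r * (g r⁻¹ - f r⁻¹ - lin ev D' e r⁻¹)
      = PowerSeries.X ^ (N + 1) * (-(q * u) - A * f r⁻¹ - p * v) := by
    calc g r * (g r⁻¹ - f r⁻¹ - lin ev D' e r⁻¹)
        = g r * g r⁻¹ - g r * f r⁻¹ - g r * lin ev D' e r⁻¹ := by ring
      _ = f r * f r⁻¹ - (f r + lin ev D' e r + PowerSeries.X ^ (N + 1) * A) * f r⁻¹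
          - g r * lin ev D' e r⁻¹ := by rw [hg1, hf1, ← hgr]
      _ = - (lin ev D' e r * (f r⁻¹ - PowerSeries.C (ev r⁻¹))) - PowerSeries.X ^ (N + 1) * A * f r⁻¹
          - (g r - PowerSeries.C (ev r)) * lin ev D' e r⁻¹
          - (PowerSeries.C (ev r) * lin ev D' e r⁻¹ + PowerSeries.C (ev r⁻¹) * lin ev D' e r) := by
            ring
      _ = _ := by
        rw [hl, h1, h2, hu, hv]
        ring
  refine ⟨g r⁻¹ * (-(q * u) - A * f r⁻¹ - p * v), ?_⟩
  calc g r⁻¹ - f r⁻¹ - lin ev D' e r⁻¹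
      = (g r * g r⁻¹) * (g r⁻¹ - f r⁻¹ - lin ev D' e r⁻¹) := by rw [hg1, one_mul]
    _ = g r⁻¹ * (g r * (g r⁻¹ - f r⁻¹ - lin ev D' e r⁻¹)) := by ring
    _ = _ := by rw [key]; ring

end Abs

/-- a ring homomorphism out of `ℂ(u)` -/
theorem exists_theta (φ : ℂ →+* Ann) (m : ℕ) (ev : RatFunc ℂ →+* Lam)
    (hC : ∀ c, ev (RatFunc.C c) = cL c) (hX : ev RatFunc.X = uLam m)
    (hφ : ∀ c, PowerSeries.constantCoeff (φ c) = cL c) :
    ∃ θ : RatFunc ℂ →+* Ann, (∀ c, θ (RatFunc.C c) = φ c) ∧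
      θ RatFunc.X = PowerSeries.C (uLam m) ∧
      ∀ r, PowerSeries.constantCoeff (θ r) = ev r := by
  set τ : ℂ[X] →+* Ann := Polynomial.eval₂RingHom φ (PowerSeries.C (uLam m)) with hτ
  have h1 : (PowerSeries.constantCoeff (R := Lam)).comp τ
      = ev.comp (algebraMap ℂ[X] (RatFunc ℂ)) := by
    apply Polynomial.ringHom_ext
    · intro c
      rw [RingHom.comp_apply, RingHom.comp_apply, RatFunc.algebraMap_C, hC, hτ,
        Polynomial.coe_eval₂RingHom, Polynomial.eval₂_C, hφ]
    · rw [RingHom.comp_apply, RingHom.comp_apply, RatFunc.algebraMap_X, hX, hτ,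
        Polynomial.coe_eval₂RingHom, Polynomial.eval₂_X, PowerSeries.constantCoeff_C]
  have h2 : ∀ p : ℂ[X], PowerSeries.constantCoeff (τ p) = ev (algebraMap ℂ[X] (RatFunc ℂ) p) :=
    fun p => congrArg (fun f : ℂ[X] →+* Lam => f p) h1
  have hunit : ∀ y : nonZeroDivisors ℂ[X], IsUnit (τ y) := by
    intro y
    rw [PowerSeries.isUnit_iff_constantCoeff, h2, isUnit_iff_ne_zero]
    have hy : (y : ℂ[X]) ≠ 0 := nonZeroDivisors.ne_zero y.2
    rw [Ne, map_eq_zero]
    exact fun h => hy ((IsFractionRing.injective ℂ[X] (RatFunc ℂ)) (by rw [h, map_zero]))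
  have hθ : ∀ p : ℂ[X], (IsLocalization.lift (S := RatFunc ℂ) hunit)
      (algebraMap ℂ[X] (RatFunc ℂ) p) = τ p := fun p => IsLocalization.lift_eq hunit p
  refine ⟨IsLocalization.lift (S := RatFunc ℂ) hunit, ?_, ?_, ?_⟩
  · intro c
    rw [← RatFunc.algebraMap_C, hθ, hτ, Polynomial.coe_eval₂RingHom, Polynomial.eval₂_C]
  · rw [← RatFunc.algebraMap_X, hθ, hτ, Polynomial.coe_eval₂RingHom, Polynomial.eval₂_X]
  · have h3 : (PowerSeries.constantCoeff (R := Lam)).comp
        (IsLocalization.lift (S := RatFunc ℂ) hunit) = ev := by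
      apply IsLocalization.ringHom_ext (nonZeroDivisors ℂ[X])
      refine RingHom.ext fun p => ?_
      rw [RingHom.comp_apply, RingHom.comp_apply, RingHom.comp_apply, hθ, h2]
    exact fun r => congrArg (fun f : RatFunc ℂ →+* Lam => f r) h3

end TH_aux

open TH_aux in
theorem pr_TH : S_TH := by
  intro k n D ε hε m hm ev hC hX D' hD'C hD'X
  have hex := fun a : Small n => exists_theta (iO.comp (ε a)) m ev hC hX (fun c => by
    rw [RingHom.comp_apply, constantCoeff_iO, hε.red, iS_C])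
  choose θ hθC hθX hθev using hex
  refine ⟨θ, fun a c => hθC a c, hθX, hθev, ?_⟩
  intro r a a' N hN hdiv
  set e : Fin n → Ann := fun i => iO (a'.1 i - a.1 i) with he
  have hediv : ∀ i, (PowerSeries.X : Ann) ^ N ∣ e i := by
    intro i
    have := map_dvd iO (hdiv i)
    rwa [map_pow, iO_X] at this
  have hd : Der (fun i => ⇑(D' i)) := by
    refine ⟨fun i r s => map_add _ _ _, fun i r s => ?_⟩
    exact (D' i).leibniz r s
  have hcon : ∀ c, Good (θ a) (θ a') ev (fun i => ⇑(D' i)) e N (RatFunc.C c) := by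
    intro c
    have h := map_dvd iO (hε.diff a a' N hN hdiv c)
    rw [map_pow, iO_X, map_sub, map_sub, map_sum] at h
    unfold Good
    rw [hθC, hθC, RingHom.comp_apply, RingHom.comp_apply]
    have h2 : lin ev (fun i => ⇑(D' i)) e (RatFunc.C c)
        = ∑ i, iO ((a'.1 i - a.1 i) * PowerSeries.C (Polynomial.C (D i c))) := by
      unfold lin
      refine Finset.sum_congr rfl fun i _ => ?_
      change PowerSeries.C (ev (D' i (RatFunc.C c))) * iO (a'.1 i - a.1 i) = _
      rw [hD'C, hC, map_mul, iO_C, iS_C, mul_comm]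
    rw [h2]
    exact h
  have hXg : Good (θ a) (θ a') ev (fun i => ⇑(D' i)) e N RatFunc.X := by
    unfold Good
    have h2 : lin ev (fun i => ⇑(D' i)) e RatFunc.X = 0 := by
      unfold lin
      refine Finset.sum_eq_zero fun i _ => ?_
      change PowerSeries.C (ev (D' i RatFunc.X)) * iO (a'.1 i - a.1 i) = _
      rw [hD'X, map_zero, map_zero, zero_mul]
    rw [hθX, hθX, h2, sub_self, sub_zero]
    exact dvd_zero _
  have hpol : ∀ p : ℂ[X], Good (θ a) (θ a') ev (fun i => ⇑(D' i)) e N (algebraMap ℂ[X] (RatFunc ℂ) p) := by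
    intro p
    induction p using Polynomial.induction_on with
    | C c => rw [RatFunc.algebraMap_C]; exact hcon c
    | add p q hp hq => rw [map_add]; exact good_add _ _ _ _ _ _ hd _ _ hp hq
    | monomial j c hj =>
      rw [pow_succ, ← mul_assoc, map_mul, RatFunc.algebraMap_X]
      exact good_mul _ _ _ _ hd hN hediv (hθev a) _ _ hj hXg
  have hall : Good (θ a) (θ a') ev (fun i => ⇑(D' i)) e N r := by
    obtain ⟨p, q, hq, rfl⟩ := IsFractionRing.div_surjective (A := ℂ[X]) r
    rw [div_eq_mul_inv]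
    have hq0 : algebraMap ℂ[X] (RatFunc ℂ) q ≠ 0 := by
      intro h
      exact nonZeroDivisors.ne_zero hq
        ((IsFractionRing.injective ℂ[X] (RatFunc ℂ)) (by rw [h, map_zero]))
    exact good_mul _ _ _ _ hd hN hediv (hθev a) _ _ (hpol p)
      (good_inv _ _ _ _ hd hediv (hθev a) (hθev a') _ hq0 (hpol q))
  exact hall

end RC
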