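import Pool.Agent.Work.MP_0ac1ea_ag.RC.CStmts3

/-!
# Item V1: enlarging the coordinate ring
-/

open Polynomial

namespace RC

theorem V1_point (k : Type) [Field k] [IsAlgClosed k] (A : Type) [CommRing A] [Algebra k A]
    [Algebra.FiniteType k A] (M : Ideal A) [M.IsMaximal] :
    ∃ m : A →ₐ[k] k, ∀ a, a ∈ M ↔ m a = 0 := by
  let _ : Field (A ⧸ M) := Ideal.Quotient.field M
  have hfin : Module.Finite k (A ⧸ M) := finite_of_finite_type_of_isJacobsonRing k (A ⧸ M)
  have hbij : Function.Bijective (algebraMap k (A ⧸ M)) :=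
    IsAlgClosed.algebraMap_bijective_of_isIntegral
  let e : k ≃ₐ[k] (A ⧸ M) := AlgEquiv.ofBijective (Algebra.ofId k (A ⧸ M)) hbij
  refine ⟨e.symm.toAlgHom.comp (Ideal.Quotient.mkₐ k M), ?_⟩
  intro a
  have h1 : (e.symm.toAlgHom.comp (Ideal.Quotient.mkₐ k M)) a =
      e.symm (Ideal.Quotient.mk M a) := rfl
  rw [h1, EmbeddingLike.map_eq_zero_iff, Ideal.Quotient.eq_zero_iff_mem]

theorem pr_V1 : S_V1 := by
  classical
  intro k _ F _ _ hF R hR m
  obtain ⟨s, hs⟩ := hF
  obtain ⟨t, ht⟩ := hR
  -- a valuation ring dominating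
  have hker : (RingHom.ker m.toRingHom : Ideal R) ≠ ⊤ := RingHom.ker_ne_top _
  obtain ⟨B, hB1, hB2⟩ := Ideal.image_subset_nonunits_valuationSubring
    (A := R.toSubring) (RingHom.ker m.toRingHom : Ideal R) hker
  let f' : F → F := fun f => if f ∈ B then f else f⁻¹
  have hf'B : ∀ f, f' f ∈ B := by
    intro f
    show (if f ∈ B then f else f⁻¹) ∈ B
    split_ifs with h
    · exact h
    · exact (B.mem_or_inv_mem f).resolve_left h
  let R' : Subalgebra k F := Algebra.adjoin k ((t : Set F) ∪ f' '' (s : Set F))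
  have hRR' : R ≤ R' := by
    rw [← ht]
    exact Algebra.adjoin_mono Set.subset_union_left
  have hsR' : Algebra.adjoin k (f' '' (s : Set F)) ≤ R' :=
    Algebra.adjoin_mono Set.subset_union_right
  let BS : Subalgebra k F :=
    { B.toSubring with
      algebraMap_mem' := fun c => hB1 (R.algebraMap_mem c) }
  have hR'B : R' ≤ BS := by
    apply Algebra.adjoin_le
    rintro x (hx | ⟨f, _, rfl⟩)
    · have : x ∈ R := by
        rw [← ht]
        exact Algebra.subset_adjoin hx
      exact hB1 this
    · exact hf'B f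
  have hR'FG : R'.FG := by
    refine ⟨t ∪ s.image f', ?_⟩
    rw [Finset.coe_union, Finset.coe_image]
  have hft : Algebra.FiniteType k R' := (Subalgebra.fg_iff_finiteType R').1 hR'FG
  -- the prime
  let j : R' →+* B :=
    { toFun := fun x => ⟨x.1, hR'B x.2⟩
      map_one' := rfl
      map_mul' := fun _ _ => rfl
      map_zero' := rfl
      map_add' := fun _ _ => rfl }
  let p' : Ideal R' := (IsLocalRing.maximalIdeal B).comap j
  have hp' : p' ≠ ⊤ := Ideal.comap_ne_top j (IsLocalRing.maximalIdeal.isMaximal B).ne_top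
  obtain ⟨M, hM, hpM⟩ := Ideal.exists_le_maximal p' hp'
  obtain ⟨m', hm'⟩ := V1_point k R' M
  refine ⟨R', hRR', m', hR'FG, ?_, ?_⟩
  · intro r
    have h1 : (r - algebraMap k R (m r)) ∈ (RingHom.ker m.toRingHom : Ideal R) := by
      rw [RingHom.mem_ker]
      show m (r - algebraMap k R (m r)) = 0
      rw [map_sub, AlgHom.commutes, sub_eq_zero]
      rfl
    have h2 : ((r - algebraMap k R (m r) : R) : F) ∈ B.nonunits :=
      hB2 ⟨r - algebraMap k R (m r), h1, rfl⟩
    have h3 : (⟨((r - algebraMap k R (m r) : R) : F), hRR' (r - algebraMap k R (m r)).2⟩ : R') ∈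
        M := by
      apply hpM
      show j _ ∈ IsLocalRing.maximalIdeal B
      obtain ⟨h4, h5⟩ := ValuationSubring.mem_nonunits_iff_exists_mem_maximalIdeal.1 h2
      exact h5
    have h4 := (hm' _).1 h3
    have h5 : (⟨((r - algebraMap k R (m r) : R) : F), hRR' (r - algebraMap k R (m r)).2⟩ : R') =
        (⟨(r : F), hRR' r.2⟩ : R') - algebraMap k R' (m r) := rfl
    rw [h5, map_sub, AlgHom.commutes, sub_eq_zero] at h4
    exact h4
  · intro a
    have h1 : a ∈ IntermediateField.adjoin k (f' '' (s : Set F)) := by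
      have h2 : IntermediateField.adjoin k (s : Set F) ≤
          IntermediateField.adjoin k (f' '' (s : Set F)) := by
        rw [IntermediateField.adjoin_le_iff]
        intro f hf
        have h3 : f' f ∈ IntermediateField.adjoin k (f' '' (s : Set F)) :=
          IntermediateField.subset_adjoin _ _ ⟨f, hf, rfl⟩
        by_cases h : f ∈ B
        · have h4 : f' f = f := if_pos h
          rw [h4] at h3
          exact h3
        · have h4 : f' f = f⁻¹ := if_neg h
          rw [h4] at h3
          have h5 := inv_mem h3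
          rwa [inv_inv] at h5
      apply h2
      rw [hs]
      trivial
    obtain ⟨b, hb, c, hc, rfl⟩ := IntermediateField.mem_adjoin_iff_div.1 h1
    by_cases hc0 : c = 0
    · refine ⟨0, 1, one_ne_zero, ?_⟩
      rw [hc0, div_zero]
      simp
    · exact ⟨⟨b, hsR' hb⟩, ⟨c, hsR' hc⟩, hc0, div_mul_cancel₀ b hc0⟩

end RC
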