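import Pool.Agent.Work.MP_0ac1ea_ag.RC.CStmts3

/-!
# Item V2: generic formal arc (assembly)
-/

open Polynomial

namespace RC

theorem pr_V2 (hNOE : S_NOE) (hAIN : S_AIN) (hLINE : S_LINE) (hVCUR : S_VCUR)
    (hCURVE : S_CURVE) : S_V2 := by
  intro k _ _ R _ _ _ _ m
  obtain ⟨e, g, hg, hgi, hm⟩ := hNOE k R m
  rcases e with _ | e
  · -- dimension zero
    have h1 : (algebraMap k R).IsIntegral := by
      have h2 : algebraMap k R = g.toRingHom.comp (algebraMap k (MvPolynomial (Fin 0) k)) := by
        ext c
        simp
      rw [h2]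
      refine RingHom.IsIntegral.trans _ _ ?_ hgi
      refine RingHom.isIntegral_of_surjective _ ?_
      rw [MvPolynomial.algebraMap_eq]
      exact MvPolynomial.C_surjective (Fin 0)
    have : Algebra.IsIntegral k R := ⟨h1⟩
    have hb : Function.Bijective (algebraMap k R) :=
      IsAlgClosed.algebraMap_bijective_of_isIntegral
    have hminj : Function.Injective m := by
      intro a b hab
      obtain ⟨a', rfl⟩ := hb.2 a
      obtain ⟨b', rfl⟩ := hb.2 b
      rw [m.commutes, m.commutes] at hab
      have : a' = b' := hab
      rw [this]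
    refine ⟨(PowerSeries.C).comp (k.subtype.comp m.toRingHom), ?_, ?_, ?_⟩
    · intro a b hab
      have h3 : PowerSeries.C ((m a : k) : ℂ) = PowerSeries.C ((m b : k) : ℂ) := hab
      exact hminj (Subtype.ext (PowerSeries.C_injective h3))
    · intro c
      change PowerSeries.C ((m (algebraMap k R c) : k) : ℂ) = _
      rw [m.commutes]
      rfl
    · intro r
      change PowerSeries.constantCoeff (PowerSeries.C ((m r : k) : ℂ)) = _
      simp
  · obtain ⟨c, hc⟩ := hAIN k (e + 1)
    obtain ⟨T, _, _, _, _, _, r, h, hr, hrm, hh, hhX⟩ := hVCUR k R m e g hg hgi hm c hc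
    obtain ⟨ψ, hψ, hψC, hψr⟩ := hCURVE T r hr
    refine ⟨ψ.comp h, ?_, ?_, ?_⟩
    · -- injectivity
      have hcomp : h.comp g.toRingHom = (algebraMap ℂ[X] T).comp
          (MvPolynomial.eval₂Hom (Polynomial.C.comp k.subtype)
            (fun i => Polynomial.C (c i) * Polynomial.X)) := by
        refine MvPolynomial.ringHom_ext (fun a => ?_) (fun i => ?_)
        · simp only [RingHom.comp_apply, MvPolynomial.eval₂Hom_C]
          change h (g (MvPolynomial.C a)) = _
          rw [← MvPolynomial.algebraMap_eq, g.commutes, hh]
          rfl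
        · simp only [RingHom.comp_apply, MvPolynomial.eval₂Hom_X']
          exact hhX i
      have hinj : Function.Injective (h.comp g.toRingHom) := by
        rw [hcomp]
        exact (FaithfulSMul.algebraMap_injective ℂ[X] T).comp (hLINE k (e + 1) c hc)
      letI : Algebra (MvPolynomial (Fin (e + 1)) k) R := g.toRingHom.toAlgebra
      have : Algebra.IsIntegral (MvPolynomial (Fin (e + 1)) k) R := ⟨hgi⟩
      have hker : RingHom.ker h = ⊥ := by
        refine Ideal.eq_bot_of_comap_eq_bot (R := MvPolynomial (Fin (e + 1)) k) ?_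
        rw [eq_bot_iff]
        intro p hp
        have h1 : h (g p) = 0 := hp
        have h2 : p = 0 := hinj (by rw [map_zero]; exact h1)
        exact h2
      have hhinj : Function.Injective h := (RingHom.injective_iff_ker_eq_bot h).2 hker
      exact hψ.comp hhinj
    · intro a
      change ψ (h (algebraMap k R a)) = _
      rw [hh, hψC]
    · intro a
      change PowerSeries.constantCoeff (ψ (h a)) = _
      rw [hψr, hrm]

end RC
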