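import Pool.Agent.Work.MP_0ac1ea_ag.RC.CStmts3

/-!
# Item VCUR: the curve in `Spec (ℂ ⊗ R)`
-/

open Polynomial
open scoped TensorProduct

namespace RC

namespace VCUR_aux

variable (k : Subfield ℂ) (R : Type) [CommRing R] [Algebra k R] (e : ℕ)
  (g : MvPolynomial (Fin (e + 1)) k →ₐ[k] R)

/-- `X_i ↦ 1 ⊗ g (X_i)` -/
noncomputable def phi : MvPolynomial (Fin (e + 1)) ℂ →ₐ[ℂ] (ℂ ⊗[k] R) :=
  MvPolynomial.aeval (fun i => (1 : ℂ) ⊗ₜ[k] g (MvPolynomial.X i))

lemma phi_X (i : Fin (e + 1)) :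
    phi k R e g (MvPolynomial.X i) = (1 : ℂ) ⊗ₜ[k] g (MvPolynomial.X i) := by
  simp [phi]

lemma phi_map (f : MvPolynomial (Fin (e + 1)) k) :
    phi k R e g (MvPolynomial.map (algebraMap k ℂ) f) = (1 : ℂ) ⊗ₜ[k] g f := by
  have h : ((phi k R e g).toRingHom.comp (MvPolynomial.map (algebraMap k ℂ))) =
      ((Algebra.TensorProduct.includeRight : R →ₐ[k] ℂ ⊗[k] R).toRingHom.comp g.toRingHom) := by
    apply MvPolynomial.ringHom_ext
    · intro r
      simp [phi, MvPolynomial.map_C]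
    · intro i
      simp [phi]
  exact RingHom.congr_fun h f

lemma phi_inj (hg : Function.Injective g) : Function.Injective (phi k R e g) := by
  have h1 : (phi k R e g).comp
      ((MvPolynomial.algebraTensorAlgEquiv (σ := Fin (e + 1)) k ℂ).toAlgHom) =
      (Algebra.TensorProduct.map (AlgHom.id ℂ ℂ) g) := by
    ext i
    simp [phi]
  have h2 : Function.Injective (Algebra.TensorProduct.map (AlgHom.id ℂ ℂ) g) := by
    have h3 : Function.Injective (LinearMap.lTensor ℂ g.toLinearMap) :=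
      Module.Flat.lTensor_preserves_injective_linearMap (M := ℂ) g.toLinearMap hg
    intro a b hab
    apply h3
    exact hab
  intro a b hab
  obtain ⟨a', rfl⟩ := (MvPolynomial.algebraTensorAlgEquiv (σ := Fin (e + 1)) k ℂ).surjective a
  obtain ⟨b', rfl⟩ := (MvPolynomial.algebraTensorAlgEquiv (σ := Fin (e + 1)) k ℂ).surjective b
  congr 1
  apply h2
  rw [← h1]
  exact hab

lemma phi_int (hg : g.toRingHom.IsIntegral) : (phi k R e g).toRingHom.IsIntegral := by
  intro b
  induction b using TensorProduct.induction_on with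
  | zero => exact RingHom.isIntegralElem_zero _
  | add x y hx hy => exact RingHom.IsIntegralElem.add _ hx hy
  | tmul z a =>
    have h1 : z ⊗ₜ[k] a = (z ⊗ₜ[k] (1 : R)) * ((1 : ℂ) ⊗ₜ[k] a) := by
      rw [Algebra.TensorProduct.tmul_mul_tmul, mul_one, one_mul]
    rw [h1]
    apply RingHom.IsIntegralElem.mul
    · have h2 : z ⊗ₜ[k] (1 : R) = (phi k R e g).toRingHom (MvPolynomial.C z) := by
        show _ = phi k R e g (MvPolynomial.C z)
        rw [← MvPolynomial.algebraMap_eq, AlgHom.commutes]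
        rfl
      rw [h2]
      exact RingHom.isIntegralElem_map _
    · obtain ⟨p, hp, hpa⟩ := hg a
      refine ⟨p.map (MvPolynomial.map (algebraMap k ℂ)), hp.map _, ?_⟩
      rw [Polynomial.eval₂_map]
      have h3 : ((phi k R e g).toRingHom.comp (MvPolynomial.map (algebraMap k ℂ))) =
          ((Algebra.TensorProduct.includeRight : R →ₐ[k] ℂ ⊗[k] R).toRingHom.comp
            g.toRingHom) := by
        exact RingHom.ext fun f => phi_map k R e g f
      rw [h3]
      have h4 := congrArg (Algebra.TensorProduct.includeRight : R →ₐ[k] ℂ ⊗[k] R).toRingHom hpa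
      rw [Polynomial.hom_eval₂, map_zero] at h4
      exact h4

end VCUR_aux

open VCUR_aux

theorem pr_VCUR (hTDOM : S_TDOM) (hGODOWN : S_GODOWN) : S_VCUR := by
  intro k _ R _ _ _ _ m e g hginj hgint hgm c hc
  haveI hB : IsDomain (ℂ ⊗[k] R) := hTDOM k R ℂ
  have hphi := phi_inj k R e g hginj
  have hint := phi_int k R e g hgint
  -- c 0 ≠ 0
  have hc0 : c 0 ≠ 0 := by
    have := hc.ne_zero 0
    exact this
  letI algAB : Algebra (MvPolynomial (Fin (e + 1)) ℂ) (ℂ ⊗[k] R) :=
    (phi k R e g).toRingHom.toAlgebra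
  haveI : Algebra.IsIntegral (MvPolynomial (Fin (e + 1)) ℂ) (ℂ ⊗[k] R) := ⟨hint⟩
  haveI : FaithfulSMul (MvPolynomial (Fin (e + 1)) ℂ) (ℂ ⊗[k] R) := by
    rw [faithfulSMul_iff_algebraMap_injective]
    exact hphi
  let rho : MvPolynomial (Fin (e + 1)) ℂ →ₐ[ℂ] ℂ[X] :=
    MvPolynomial.aeval (fun i => Polynomial.C (c i) * Polynomial.X)
  have hrhoX : ∀ i, rho (MvPolynomial.X i) = Polynomial.C (c i) * Polynomial.X := by
    intro i; simp [rho]
  have hrhoC : ∀ z : ℂ, rho (MvPolynomial.C z) = Polynomial.C z := by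
    intro z
    rw [← MvPolynomial.algebraMap_eq, AlgHom.commutes]
    rfl
  let mC : (ℂ ⊗[k] R) →ₐ[ℂ] ℂ :=
    Algebra.TensorProduct.lift (AlgHom.id ℂ ℂ) ((Algebra.ofId k ℂ).comp m) (fun _ _ => mul_comm _ _)
  have hmC : ∀ z a, mC (z ⊗ₜ[k] a) = z * (m a : ℂ) := by
    intro z a
    simp only [mC]
    rfl
  let p : Ideal (MvPolynomial (Fin (e + 1)) ℂ) := RingHom.ker rho
  let Q : Ideal (ℂ ⊗[k] R) := RingHom.ker mC
  haveI hp : p.IsPrime := RingHom.ker_isPrime _
  haveI hQ : Q.IsPrime := RingHom.ker_isPrime _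
  let q : Ideal (MvPolynomial (Fin (e + 1)) ℂ) :=
    Q.comap (algebraMap (MvPolynomial (Fin (e + 1)) ℂ) (ℂ ⊗[k] R))
  haveI hq : q.IsPrime := Ideal.comap_isPrime _ _
  have hcomp : ∀ f, mC (phi k R e g f) = (rho f).eval 0 := by
    intro f
    have : mC.comp (phi k R e g) = (Polynomial.aeval (0 : ℂ)).comp rho := by
      apply MvPolynomial.algHom_ext
      intro i
      rw [AlgHom.comp_apply, AlgHom.comp_apply, phi_X, hmC, hgm, hrhoX]
      simp
    have h2 := AlgHom.congr_fun this f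
    rw [AlgHom.comp_apply, AlgHom.comp_apply, Polynomial.coe_aeval_eq_eval] at h2
    exact h2
  have hpq : p ≤ q := by
    intro f hf
    have hf' : rho f = 0 := hf
    show mC (phi k R e g f) = 0
    rw [hcomp, hf', Polynomial.eval_zero]
  obtain ⟨P, hP, hPQ, hPp⟩ := hGODOWN (MvPolynomial (Fin (e + 1)) ℂ) (ℂ ⊗[k] R) p q hpq Q rfl
  haveI := hP
  have hPp' : ∀ f, phi k R e g f ∈ P ↔ rho f = 0 := by
    intro f
    have : f ∈ P.comap (algebraMap (MvPolynomial (Fin (e + 1)) ℂ) (ℂ ⊗[k] R)) ↔ f ∈ p := by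
      rw [hPp]
    exact this
  let mk : (ℂ ⊗[k] R) →+* (ℂ ⊗[k] R) ⧸ P := Ideal.Quotient.mk P
  let t0 : (ℂ ⊗[k] R) ⧸ P := mk ((c 0)⁻¹ ⊗ₜ[k] g (MvPolynomial.X 0))
  let incl : ℂ →+* (ℂ ⊗[k] R) := (Algebra.TensorProduct.includeLeft : ℂ →ₐ[ℂ] ℂ ⊗[k] R).toRingHom
  let kap : ℂ[X] →+* (ℂ ⊗[k] R) ⧸ P := Polynomial.eval₂RingHom (mk.comp incl) t0
  have hkapC : ∀ z, kap (Polynomial.C z) = mk (z ⊗ₜ[k] 1) := by
    intro z
    simp [kap, incl]
  have hkapX : kap Polynomial.X = t0 := by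
    simp [kap]
  have hkr : kap.comp rho.toRingHom = mk.comp (phi k R e g).toRingHom := by
    apply MvPolynomial.ringHom_ext
    · intro z
      show kap (rho (MvPolynomial.C z)) = mk (phi k R e g (MvPolynomial.C z))
      rw [hrhoC, hkapC, ← MvPolynomial.algebraMap_eq, AlgHom.commutes]
      rfl
    · intro i
      show kap (rho (MvPolynomial.X i)) = mk (phi k R e g (MvPolynomial.X i))
      rw [hrhoX, map_mul, hkapC, hkapX]
      show mk _ * mk _ = _
      rw [← map_mul, Algebra.TensorProduct.tmul_mul_tmul, one_mul]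
      have h1 : phi k R e g (MvPolynomial.X i - MvPolynomial.C (c i * (c 0)⁻¹) *
          MvPolynomial.X 0) ∈ P := by
        rw [hPp', map_sub, map_mul, hrhoX, hrhoX, hrhoC, ← mul_assoc, ← Polynomial.C_mul]
        rw [mul_assoc (c i), inv_mul_cancel₀ hc0, mul_one, sub_self]
      have h2 : phi k R e g (MvPolynomial.X i) - (c i * (c 0)⁻¹) ⊗ₜ[k] g (MvPolynomial.X 0) ∈
          P := by
        have h3 : phi k R e g (MvPolynomial.X i - MvPolynomial.C (c i * (c 0)⁻¹) *
          MvPolynomial.X 0) = phi k R e g (MvPolynomial.X i) -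
            (c i * (c 0)⁻¹) ⊗ₜ[k] g (MvPolynomial.X 0) := by
          rw [map_sub, map_mul, ← MvPolynomial.algebraMap_eq, AlgHom.commutes, phi_X k R e g 0]
          congr 1
          rw [Algebra.TensorProduct.algebraMap_apply, Algebra.TensorProduct.tmul_mul_tmul]
          simp
        rw [← h3]
        exact h1
      exact ((Ideal.Quotient.eq).2 h2).symm
  have hkr' : ∀ f, kap (rho f) = mk (phi k R e g f) := fun f => RingHom.congr_fun hkr f
  have hrhosurj : Function.Surjective rho := by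
    intro f
    refine ⟨(Polynomial.aeval (MvPolynomial.C (c 0)⁻¹ * MvPolynomial.X 0)) f, ?_⟩
    have : rho.comp (Polynomial.aeval (MvPolynomial.C (c 0)⁻¹ * MvPolynomial.X 0)) =
        AlgHom.id ℂ ℂ[X] := by
      apply Polynomial.algHom_ext
      rw [AlgHom.comp_apply, Polynomial.aeval_X, map_mul, hrhoC, hrhoX, ← mul_assoc,
        ← Polynomial.C_mul, inv_mul_cancel₀ hc0]
      simp
    exact AlgHom.congr_fun this f
  have hkapinj : Function.Injective kap := by
    rw [injective_iff_map_eq_zero]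
    intro f hf
    obtain ⟨F, rfl⟩ := hrhosurj f
    rw [hkr'] at hf
    exact (hPp' F).1 (Ideal.Quotient.eq_zero_iff_mem.1 hf)
  -- finiteness
  have hfin1 : (phi k R e g).toRingHom.Finite := by
    apply RingHom.IsIntegral.to_finite hint
    apply RingHom.FiniteType.of_comp_finiteType (f := (MvPolynomial.C : ℂ →+* _))
    have h1 : (phi k R e g).toRingHom.comp MvPolynomial.C = algebraMap ℂ (ℂ ⊗[k] R) := by
      ext1 z
      show phi k R e g (MvPolynomial.C z) = _
      rw [← MvPolynomial.algebraMap_eq, AlgHom.commutes]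
    rw [h1, RingHom.finiteType_algebraMap]
    infer_instance
  have hfin2 : (kap.comp rho.toRingHom).Finite := by
    rw [hkr]
    exact RingHom.Finite.comp (RingHom.Finite.of_surjective _ Ideal.Quotient.mk_surjective) hfin1
  have hfin3 : kap.Finite := RingHom.Finite.of_comp_finite hfin2
  let r : (ℂ ⊗[k] R) ⧸ P →+* ℂ := Ideal.Quotient.lift P mC.toRingHom (fun a ha => hPQ ha)
  have hr : ∀ b, r (mk b) = mC b := fun b => Ideal.Quotient.lift_mk _ _ _
  refine ⟨(ℂ ⊗[k] R) ⧸ P, inferInstance, inferInstance, kap.toAlgebra, hfin3, ?_, r,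
    mk.comp (Algebra.TensorProduct.includeRight : R →ₐ[k] ℂ ⊗[k] R).toRingHom, ?_, ?_, ?_, ?_⟩
  · letI := kap.toAlgebra
    exact (faithfulSMul_iff_algebraMap_injective ℂ[X] ((ℂ ⊗[k] R) ⧸ P)).2 hkapinj
  · intro f
    show r (kap f) = f.eval 0
    have : r.comp kap = Polynomial.evalRingHom 0 := by
      apply Polynomial.ringHom_ext
      · intro z
        rw [RingHom.comp_apply, hkapC, hr, hmC]
        simp
      · rw [RingHom.comp_apply, hkapX]
        show r (mk _) = _
        rw [hr, hmC, hgm]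
        simp
    exact RingHom.congr_fun this f
  · intro a
    show r (mk ((1 : ℂ) ⊗ₜ[k] a)) = _
    rw [hr, hmC, one_mul]
  · intro a
    show mk ((1 : ℂ) ⊗ₜ[k] (algebraMap k R a)) = kap (Polynomial.C (a : ℂ))
    rw [hkapC]
    congr 1
    rw [Algebra.algebraMap_eq_smul_one, ← TensorProduct.smul_tmul, Algebra.smul_def, mul_one]
    rfl
  · intro i
    show mk ((1 : ℂ) ⊗ₜ[k] g (MvPolynomial.X i)) = kap (Polynomial.C (c i) * Polynomial.X)
    rw [← hrhoX, hkr', phi_X]

end RC
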