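import Pool.Agent.Work.MP_0ac1ea_ag.RC.CStmts2

/-!
# Item ZREL: linear disjointness and relations
-/

set_option autoImplicit false

open Polynomial

namespace RC

theorem pr_ZREL : S_ZREL := by
  classical
  intro k₁ k hk L _ _ M y T x hx hgen z hz P hP
  -- the monomials
  let w : ({j // j ∈ T} →₀ ℕ) → L := fun μ => ∏ i ∈ μ.support, y i ^ μ i
  have hw : ∀ μ, MvPolynomial.aeval (fun j : {j // j ∈ T} => y j)
      (MvPolynomial.monomial μ (1 : k₁)) = w μ := by
    intro μ
    rw [MvPolynomial.aeval_monomial, map_one, one_mul]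
    rfl
  let V : Submodule k₁ L := Submodule.span k₁ (w '' (P.support : Set _))
  have hfin : Module.Finite k₁ V :=
    Module.Finite.span_of_finite k₁ ((Finset.finite_toSet P.support).image w)
  let b := Module.finBasis k₁ V
  have hbi : LinearIndependent k₁ (fun i => (b i : L)) :=
    b.linearIndependent.map' V.subtype (Submodule.ker_subtype V)
  have hV : V ≤ LinearMap.range
      (MvPolynomial.aeval (R := k₁) (fun j : {j // j ∈ T} => y j)).toLinearMap := by
    refine Submodule.span_le.mpr ?_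
    rintro _ ⟨μ, _, rfl⟩
    exact ⟨MvPolynomial.monomial μ 1, hw μ⟩
  have hQ : ∀ i, ∃ Q : MvPolynomial {j // j ∈ T} k₁,
      MvPolynomial.aeval (fun j : {j // j ∈ T} => y j) Q = (b i : L) := by
    intro i
    obtain ⟨Q, hQ⟩ := hV (b i).2
    exact ⟨Q, hQ⟩
  choose Q hQ using hQ
  have hwV : ∀ μ ∈ P.support, w μ ∈ V := fun μ hμ =>
    Submodule.subset_span ⟨μ, hμ, rfl⟩
  have hc : ∀ μ : {j // j ∈ T} →₀ ℕ, ∃ c : Fin (Module.finrank k₁ V) → k₁, μ ∈ P.support →
      w μ = ∑ i, c i • (b i : L) := by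
    intro μ
    by_cases hμ : μ ∈ P.support
    · refine ⟨fun i => b.repr ⟨w μ, hwV μ hμ⟩ i, fun _ => ?_⟩
      have h1 := congrArg (Subtype.val) (b.sum_repr ⟨w μ, hwV μ hμ⟩)
      simp only [Submodule.coe_sum, Submodule.coe_smul] at h1
      exact h1.symm
    · exact ⟨0, fun h => absurd h hμ⟩
  choose c hc using hc
  -- values at `z`
  let β : Fin (Module.finrank k₁ V) → ℂ := fun i =>
    MvPolynomial.eval₂ k₁.subtype (fun j : {j // j ∈ T} => z j) (Q i)
  have hzm : ∀ μ ∈ P.support, ∏ i ∈ μ.support, z i ^ μ i = ∑ i, (c μ i : ℂ) * β i := by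
    intro μ hμ
    have h1 := hz.2 (MvPolynomial.monomial μ 1 - ∑ i, MvPolynomial.C (c μ i) * Q i) (by
      rw [map_sub, hw, map_sum, hc μ hμ, sub_eq_zero]
      refine Finset.sum_congr rfl (fun i _ => ?_)
      rw [map_mul, MvPolynomial.aeval_C, hQ, Algebra.smul_def])
    rw [MvPolynomial.eval₂_sub, MvPolynomial.eval₂_monomial, map_one, one_mul,
      MvPolynomial.eval₂_sum, sub_eq_zero] at h1
    refine h1.trans (Finset.sum_congr rfl (fun i _ => ?_))
    rw [MvPolynomial.eval₂_mul, MvPolynomial.eval₂_C]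
    rfl
  have hxm : ∀ μ ∈ P.support, ∏ i ∈ μ.support, x (y i) ^ μ i =
      ∑ i, (c μ i : ℂ) * x (b i : L) := by
    intro μ hμ
    have h1 : x (w μ) = ∏ i ∈ μ.support, x (y i) ^ μ i := by
      show x (∏ i ∈ μ.support, y i ^ μ i) = _
      rw [map_prod]
      exact Finset.prod_congr rfl (fun i _ => map_pow _ _ _)
    rw [← h1, hc μ hμ, map_sum]
    refine Finset.sum_congr rfl (fun i _ => ?_)
    rw [Algebra.smul_def, map_mul, hx]
    rfl
  -- relation
  have hrel := hgen _ _ hbi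
  rw [Fintype.linearIndependent_iff] at hrel
  have hg := hrel (fun i => ∑ μ ∈ P.support, P.coeff μ * ⟨(c μ i : ℂ), hk (c μ i).2⟩) (by
    rw [MvPolynomial.eval₂_eq, Finset.sum_congr rfl (fun μ hμ => by rw [hxm μ hμ])] at hP
    rw [← hP]
    simp only [Finset.sum_smul]
    rw [Finset.sum_comm]
    refine Finset.sum_congr rfl (fun μ _ => ?_)
    rw [Finset.mul_sum]
    refine Finset.sum_congr rfl (fun i _ => ?_)
    show (((P.coeff μ * ⟨(c μ i : ℂ), hk (c μ i).2⟩ : k) : ℂ)) * x (b i : L) = _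
    rw [MulMemClass.coe_mul, mul_assoc]
    rfl)
  rw [MvPolynomial.eval₂_eq, Finset.sum_congr rfl (fun μ hμ => by rw [hzm μ hμ])]
  have h2 : ∀ i, ∑ μ ∈ P.support, ((P.coeff μ : k) : ℂ) * (c μ i : ℂ) = 0 := by
    intro i
    have h3 := congrArg (Subtype.val) (hg i)
    simp only [AddSubmonoidClass.coe_finsetSum, MulMemClass.coe_mul] at h3
    exact h3
  have h4 : ∀ μ, k.subtype (P.coeff μ) = ((P.coeff μ : k) : ℂ) := fun μ => rfl
  simp only [h4, Finset.mul_sum]
  rw [Finset.sum_comm]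
  refine Finset.sum_eq_zero (fun i _ => ?_)
  have h5 := congrArg (fun t => t * β i) (h2 i)
  simp only [Finset.sum_mul, zero_mul] at h5
  rw [← h5]
  exact Finset.sum_congr rfl (fun μ _ => by ring)

end RC
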