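import Pool.Agent.Work.MP_0ac1ea_ag.RC.I_DEXT
import Pool.Agent.Work.MP_0ac1ea_ag.RC.I_TH
import Pool.Agent.Work.MP_0ac1ea_ag.RC.I_GENAI
import Pool.Agent.Work.MP_0ac1ea_ag.RC.I_EVU
import Pool.Agent.Work.MP_0ac1ea_ag.RC.I_DER
import Pool.Agent.Work.MP_0ac1ea_ag.RC.I_J1
import Pool.Agent.Work.MP_0ac1ea_ag.RC.I_J2
import Pool.Agent.Work.MP_0ac1ea_ag.RC.I_J3
import Pool.Agent.Work.MP_0ac1ea_ag.RC.I_EQ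
import Pool.Agent.Work.MP_0ac1ea_ag.RC.I_O0
import Pool.Agent.Work.MP_0ac1ea_ag.RC.I_O1
import Pool.Agent.Work.MP_0ac1ea_ag.RC.I_O2
import Pool.Agent.Work.MP_0ac1ea_ag.RC.I_O3
import Pool.Agent.Work.MP_0ac1ea_ag.RC.I_O4
import Pool.Agent.Work.MP_0ac1ea_ag.RC.I_SPLIT
import Pool.Agent.Work.MP_0ac1ea_ag.RC.I_POLY
import Pool.Agent.Work.MP_0ac1ea_ag.RC.I_JW
import Pool.Agent.Work.MP_0ac1ea_ag.RC.I_PSI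
import Pool.Agent.Work.MP_0ac1ea_ag.RC.I_GCD
import Pool.Agent.Work.MP_0ac1ea_ag.RC.I_PCERT
import Pool.Agent.Work.MP_0ac1ea_ag.RC.I_PVAL
import Pool.Agent.Work.MP_0ac1ea_ag.RC.I_PIN
import Pool.Agent.Work.MP_0ac1ea_ag.RC.I_EMB
import Pool.Agent.Work.MP_0ac1ea_ag.RC.I_MAPR
import Pool.Agent.Work.MP_0ac1ea_ag.RC.I_MAPK
import Pool.Agent.Work.MP_0ac1ea_ag.RC.I_MOB
import Pool.Agent.Work.MP_0ac1ea_ag.RC.I_TB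
import Pool.Agent.Work.MP_0ac1ea_ag.RC.I_ROOT
import Pool.Agent.Work.MP_0ac1ea_ag.RC.I_CNT
import Pool.Agent.Work.MP_0ac1ea_ag.RC.I_F0
import Pool.Agent.Work.MP_0ac1ea_ag.RC.I_ZREL
import Pool.Agent.Work.MP_0ac1ea_ag.RC.I_V1
import Pool.Agent.Work.MP_0ac1ea_ag.RC.I_TDOM
import Pool.Agent.Work.MP_0ac1ea_ag.RC.I_GODOWN
import Pool.Agent.Work.MP_0ac1ea_ag.RC.I_NOE
import Pool.Agent.Work.MP_0ac1ea_ag.RC.I_AIN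
import Pool.Agent.Work.MP_0ac1ea_ag.RC.I_LINE
import Pool.Agent.Work.MP_0ac1ea_ag.RC.I_DVRX
import Pool.Agent.Work.MP_0ac1ea_ag.RC.I_CURVE
import Pool.Agent.Work.MP_0ac1ea_ag.RC.I_VCUR
import Pool.Agent.Work.MP_0ac1ea_ag.RC.I_V2
import Pool.Agent.Work.MP_0ac1ea_ag.RC.I_LEMV
import Pool.Agent.Work.MP_0ac1ea_ag.RC.I_ARC
import Pool.Agent.Work.MP_0ac1ea_ag.RC.I_GSUB
import Pool.Agent.Work.MP_0ac1ea_ag.RC.I_GDEN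
import Pool.Agent.Work.MP_0ac1ea_ag.RC.I_GINF
import Pool.Agent.Work.MP_0ac1ea_ag.RC.I_GCER0
import Pool.Agent.Work.MP_0ac1ea_ag.RC.I_GCOMB
import Pool.Agent.Work.MP_0ac1ea_ag.RC.I_G
import Pool.Agent.Work.MP_0ac1ea_ag.RC.I_NPOL
import Pool.Agent.Work.MP_0ac1ea_ag.RC.I_NTAY
import Pool.Agent.Work.MP_0ac1ea_ag.RC.I_NUNI
import Pool.Agent.Work.MP_0ac1ea_ag.RC.I_NEWT
import Pool.Agent.Work.MP_0ac1ea_ag.RC.AsmStep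
import Pool.Agent.Work.MP_0ac1ea_ag.RC.BlockC0

/-!
# Block C: wiring of the core theorem
-/

namespace RC

theorem v_all : S_LEMV :=
  pr_LEMV pr_V1 (pr_V2 pr_NOE pr_AIN pr_LINE (pr_VCUR pr_TDOM pr_GODOWN) (pr_CURVE pr_DVRX))

theorem arc_all : S_ARC :=
  pr_ARC (pr_F0 pr_MAPR) (pr_MAPK pr_MAPR) pr_ZREL v_all

theorem g_all : S_G := pr_G pr_GSUB pr_GDEN pr_GINF pr_GCER0 pr_GCOMB

theorem newt_of (hNFIX : S_NFIX) : S_NEWT := pr_NEWT hNFIX pr_NPOL pr_NTAY pr_NUNI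

theorem step_of (hNFIX : S_NFIX) (hEPS : S_EPS) : S_STEP :=
  asm_STEP arc_all g_all (NEWT0_of_NEWT (newt_of hNFIX)) pr_DER pr_GENAI hEPS pr_DEXT pr_EVU pr_TH
    pr_J1 pr_J2 pr_J3 pr_EQ (pr_O1 pr_O0) (pr_O2 pr_O0) (pr_O3 pr_O0) (pr_O4 pr_O0)
    (pr_PSI pr_SPLIT pr_POLY pr_JW) (pr_PCERT pr_GCD pr_JW) (pr_PVAL pr_JW) (pr_PIN pr_JW) pr_EMB
    (pr_MAPK pr_MAPR) pr_MOB pr_TB pr_ROOT pr_CNT

theorem core_of (hNFIX : S_NFIX) (hEPS : S_EPS) : S_CORE :=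
  asm_CORE (step_of hNFIX hEPS)

end RC
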