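import Pool.Agent.Work.MP_0ac1ea_ag.RC.HStmts

/-!
# Item ATLAS: an affine atlas of an integral scheme of finite type over `ℂ`
-/

set_option autoImplicit false

open AlgebraicGeometry CategoryTheory Limits TopologicalSpace Opposite

namespace RC

namespace NHATLAS

variable {X : Scheme.{0}} (π : X ⟶ SpecC)

/-- the structure map on sections -/
noncomputable def rU (U : X.Opens) : CommRingCat.of ℂ ⟶ Γ(X, U) :=
  (Scheme.ΓSpecIso (.of ℂ)).inv ≫ π.appLE ⊤ U le_top

theorem rU_map {U V : X.Opens} (h : U ≤ V) :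
    rU π V ≫ X.presheaf.map (homOfLE h).op = rU π U := by
  rw [rU, Category.assoc, Scheme.Hom.appLE_map]; rfl

theorem fromSpec_comp {U : X.Opens} (hU : IsAffineOpen U) :
    hU.fromSpec ≫ π = Spec.map (rU π U) := by
  rw [← IsAffineOpen.SpecMap_appLE_fromSpec π (isAffineOpen_top _) hU le_top,
    IsAffineOpen.fromSpec_top, Scheme.isoSpec_Spec_inv, ← Spec.map_comp]
  rfl

theorem rU_germ [IsIntegral X] (U : X.Opens) [Nonempty U] [Nonempty (⊤ : X.Opens)] :
    rU π U ≫ X.germToFunctionField U = rU π ⊤ ≫ X.germToFunctionField ⊤ := by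
  rw [← rU_map π (le_top : U ≤ ⊤), Category.assoc]
  congr 1
  exact X.presheaf.germ_res _ _ _

end NHATLAS

open NHATLAS in
theorem pr_ATLAS : S_ATLAS := by
  intro X π _ _ _
  have hcpt : CompactSpace X := QuasiCompact.compactSpace_of_compactSpace π
  have hne : Nonempty X := inferInstance
  have hneT : Nonempty (⊤ : X.Opens) := ⟨⟨hne.some, trivial⟩⟩
  have hex : ∀ x : X, ∃ W : X.Opens, IsAffineOpen W ∧ x ∈ W := fun x => by
    obtain ⟨W, h1, h2, _⟩ := exists_isAffineOpen_mem_and_subset (TopologicalSpace.Opens.mem_top x)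
    exact ⟨W, h1, h2⟩
  choose W hW hxW using hex
  obtain ⟨t, ht⟩ := CompactSpace.elim_nhds_subcover (fun x => (W x : Set X))
    (fun x => (W x).isOpen.mem_nhds (hxW x))
  let _ : Field X.functionField := inferInstance
  let algK : Algebra ℂ X.functionField := (rU π ⊤ ≫ X.germToFunctionField ⊤).hom.toAlgebra
  have halg : ∀ (U : X.Opens) [Nonempty U] (z : ℂ), algebraMap ℂ X.functionField z =
      (X.germToFunctionField U).hom ((rU π U).hom z) := by
    intro U _ z
    change (rU π ⊤ ≫ X.germToFunctionField ⊤).hom z = _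
    rw [← rU_germ π U]
    rfl
  have hneW : ∀ x, Nonempty (W x) := fun x => ⟨⟨x, hxW x⟩⟩
  let A : {x // x ∈ t} → Subalgebra ℂ X.functionField := fun x =>
    { ((X.germToFunctionField (W x)).hom.range) with
      algebraMap_mem' := fun z => ⟨(rU π (W x)).hom z, (halg (W x) z).symm⟩ }
  let e : ∀ x : {x // x ∈ t}, Γ(X, W x) →+* A x := fun x =>
    (X.germToFunctionField (W x)).hom.rangeRestrict
  have he_val : ∀ (x : {x // x ∈ t}) (r : Γ(X, W x)),
      ((e x r : A x) : X.functionField) = (X.germToFunctionField (W x)).hom r := fun x r => rfl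
  have he_bij : ∀ x, Function.Bijective (e x) := by
    intro x
    refine ⟨fun a b hab => ?_, fun a => ?_⟩
    · apply X.germToFunctionField_injective (W x)
      have := congrArg (fun r : A x => (r : X.functionField)) hab
      exact this
    · obtain ⟨r, hr⟩ := a.2
      exact ⟨r, Subtype.ext hr⟩
  have he_alg : ∀ (x : {x // x ∈ t}), (e x).comp (rU π (W x)).hom = algebraMap ℂ (A x) := by
    intro x
    refine RingHom.ext fun z => Subtype.ext ?_
    exact (halg (W x) z).symm
  let c : ∀ x : {x // x ∈ t}, Spec (.of (A x)) ⟶ X := fun x =>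
    Spec.map (CommRingCat.ofHom (e x)) ≫ (hW x).fromSpec
  have hiso : ∀ x, IsIso (CommRingCat.ofHom (e x)) := fun x =>
    (RingEquiv.ofBijective (e x) (he_bij x)).toCommRingCatIso.isIso_hom
  refine ⟨X.functionField, inferInstance, algK, {x // x ∈ t}, inferInstance, ?_, A, c, ?_⟩
  · have hx0 : hne.some ∈ ⋃ x ∈ t, (W x : Set X) := by rw [ht]; trivial
    simp only [Set.mem_iUnion] at hx0
    obtain ⟨x, hx, _⟩ := hx0
    exact ⟨⟨x, hx⟩⟩
  · refine ⟨?_, ?_, ?_, ?_, ?_⟩
    · intro x
      have h1 : (π.appLE ⊤ (W x) le_top).hom.FiniteType :=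
        π.finiteType_appLE (isAffineOpen_top _) (hW x) le_top
      have h2 : (algebraMap ℂ (A x)).FiniteType := by
        rw [← he_alg x]
        refine RingHom.FiniteType.comp (RingHom.FiniteType.of_surjective _ (he_bij x).2) ?_
        rw [rU, CommRingCat.hom_comp]
        refine RingHom.FiniteType.comp h1 (RingHom.FiniteType.of_surjective _ ?_)
        exact (Scheme.ΓSpecIso (.of ℂ)).symm.commRingCatIsoToRingEquiv.surjective
      have h3 : Algebra.FiniteType ℂ (A x) := h2
      exact (Subalgebra.fg_iff_finiteType _).mpr h3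
    · intro x
      have := hiso x
      exact inferInstanceAs (IsOpenImmersion (Spec.map (CommRingCat.ofHom (e x)) ≫ (hW x).fromSpec))
    · intro x
      change (Spec.map (CommRingCat.ofHom (e x)) ≫ (hW x).fromSpec) ≫ π = _
      rw [Category.assoc, fromSpec_comp, ← Spec.map_comp]
      congr 1
      exact CommRingCat.hom_ext (he_alg x)
    · intro y
      have hy : y ∈ ⋃ x ∈ t, (W x : Set X) := by rw [ht]; trivial
      simp only [Set.mem_iUnion] at hy
      obtain ⟨x, hx, hyx⟩ := hy
      refine ⟨⟨x, hx⟩, ?_⟩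
      have := hiso ⟨x, hx⟩
      have h1 : y ∈ Set.range (hW x).fromSpec := by
        rw [(hW x).range_fromSpec]; exact hyx
      obtain ⟨y', hy'⟩ := h1
      have h2 : Function.Surjective (Spec.map (CommRingCat.ofHom (e ⟨x, hx⟩))) :=
        (Scheme.homeoOfIso (asIso (Spec.map (CommRingCat.ofHom (e ⟨x, hx⟩))))).surjective
      obtain ⟨y'', hy''⟩ := h2 y'
      refine ⟨y'', ?_⟩
      change (Spec.map (CommRingCat.ofHom (e ⟨x, hx⟩)) ≫ (hW x).fromSpec) y'' = y
      rw [Scheme.Hom.comp_apply, hy'', hy']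
    · have key : ∀ x : {x // x ∈ t}, sp ((A x).val : A x →+* X.functionField) ≫ c x =
          X.fromSpecStalk (genericPoint X) := by
        intro x
        change sp ((A x).val : A x →+* X.functionField) ≫
          Spec.map (CommRingCat.ofHom (e x)) ≫ (hW x).fromSpec = _
        have hg : genericPoint X ∈ W x :=
          ((genericPoint_spec X).mem_open_set_iff (W x).isOpen).mpr
            (by rw [Set.univ_inter]; exact ⟨(x : X), hxW x⟩)
        rw [← (hW x).fromSpecStalk_eq_fromSpecStalk hg, IsAffineOpen.fromSpecStalk,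
          ← Category.assoc]
        congr 1
        rw [sp, ← Spec.map_comp]
        rfl
      intro x y
      rw [key x, key y]

end RC
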