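import Pool.Agent.Work.MP_0ac1ea_ag.RC.HStmts

/-!
# Base change: homomorphisms over `k₁` extend to homomorphisms over `ℂ`
-/

set_option autoImplicit false

open Polynomial TensorProduct

namespace RC

namespace NHBC

section

variable (k₁ : Subfield ℂ) {K : Type} [Field K] [Algebra ℂ K] (L : IntermediateField k₁ K)

/-- the multiplication map `ℂ ⊗ L → K` -/
noncomputable def mul : ℂ ⊗[k₁] L →ₐ[ℂ] K :=
  Algebra.TensorProduct.lift (Algebra.ofId ℂ K) L.val (fun _ _ => Commute.all _ _)

theorem mul_tmul (z : ℂ) (l : L) : mul k₁ L (z ⊗ₜ l) = algebraMap ℂ K z * l := by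
  simp [mul, Algebra.ofId_apply]

theorem mul_injective (hLD : ∀ (m : ℕ) (v : Fin m → K), (∀ i, v i ∈ L) →
    LinearIndependent k₁ v → LinearIndependent ℂ v) : Function.Injective (mul k₁ L) := by
  classical
  let b := Module.Free.chooseBasis k₁ L
  let bT := Algebra.TensorProduct.basis ℂ b
  have hv : LinearIndependent k₁ (fun i => (b i : K)) := by
    have := b.linearIndependent.map' (L.val.toLinearMap)
      (LinearMap.ker_eq_bot.mpr L.val.injective)
    exact this
  have hC : LinearIndependent ℂ (fun i => (b i : K)) := by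
    rw [linearIndependent_iff_finset_linearIndependent]
    intro s
    let e := s.equivFin
    have h1 : LinearIndependent k₁ (fun i : Fin s.card => (b (e.symm i) : K)) := by
      have := hv.comp (fun i : Fin s.card => ((e.symm i : s) : _))
        (fun i j hij => e.symm.injective (Subtype.ext hij))
      exact this
    have h2 := hLD _ _ (fun i => (b (e.symm i)).2) h1
    have h3 := h2.comp e e.injective
    have h4 : ((fun i : Fin s.card => (b (e.symm i) : K)) ∘ e)
        = ((fun i => (b i : K)) ∘ (Subtype.val : s → _)) := by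
      funext i
      simp
    rw [h4] at h3
    exact h3
  have hb : ∀ i, mul k₁ L (bT i) = (b i : K) := by
    intro i
    rw [show bT i = 1 ⊗ₜ b i from Algebra.TensorProduct.basis_apply b i, mul_tmul, map_one,
      one_mul]
  rw [injective_iff_map_eq_zero]
  intro x hx
  have h5 : Finsupp.linearCombination ℂ (fun i => (b i : K)) (bT.repr x) = 0 := by
    have h6 : (mul k₁ L).toLinearMap (Finsupp.linearCombination ℂ bT (bT.repr x)) = 0 := by
      rw [Module.Basis.linearCombination_repr]
      exact hx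
    rw [LinearMap.map_finsupp_linearCombination] at h6
    have h7 : ((mul k₁ L).toLinearMap ∘ bT) = (fun i => (b i : K)) := by
      funext i
      exact hb i
    rw [h7] at h6
    exact h6
  have h8 := (linearIndependent_iff.mp hC) _ h5
  exact bT.repr.map_eq_zero_iff.mp h8

theorem main (hLD : ∀ (m : ℕ) (v : Fin m → K), (∀ i, v i ∈ L) →
    LinearIndependent k₁ v → LinearIndependent ℂ v) (R : Type) [CommRing R] [Algebra ℂ R]
    (θ : L →+* R) (hθ : ∀ z : k₁, θ (algebraMap k₁ L z) = algebraMap ℂ R z) :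
    ∃ g : Algebra.adjoin ℂ (L : Set K) →ₐ[ℂ] R, ∀ (l : L)
      (h : (l : K) ∈ Algebra.adjoin ℂ (L : Set K)), g ⟨l, h⟩ = θ l := by
  have hinj : Function.Injective (mul k₁ L) := mul_injective k₁ L hLD
  have hle : Algebra.adjoin ℂ (L : Set K) ≤ (mul k₁ L).range := by
    apply Algebra.adjoin_le
    intro l hl
    exact ⟨1 ⊗ₜ (⟨l, hl⟩ : L), by
      change mul k₁ L (1 ⊗ₜ (⟨l, hl⟩ : L)) = l
      rw [mul_tmul, map_one, one_mul]⟩
  let θ' : L →ₐ[k₁] R := { θ with commutes' := fun z => hθ z }
  let hh : ℂ ⊗[k₁] L →ₐ[ℂ] R :=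
    Algebra.TensorProduct.lift (Algebra.ofId ℂ R) θ' (fun _ _ => Commute.all _ _)
  refine ⟨hh.comp (((AlgEquiv.ofInjective (mul k₁ L) hinj).symm : _ →ₐ[ℂ] _).comp
    (Subalgebra.inclusion hle)), fun l h => ?_⟩
  have h1 : (AlgEquiv.ofInjective (mul k₁ L) hinj).symm (Subalgebra.inclusion hle ⟨l, h⟩)
      = 1 ⊗ₜ l := by
    rw [AlgEquiv.symm_apply_eq]
    apply Subtype.ext
    change (l : K) = mul k₁ L (1 ⊗ₜ l)
    rw [mul_tmul, map_one, one_mul]
  rw [AlgHom.comp_apply, AlgHom.comp_apply]
  change hh ((AlgEquiv.ofInjective (mul k₁ L) hinj).symm (Subalgebra.inclusion hle ⟨l, h⟩)) = θ l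
  rw [h1]
  simp only [hh, Algebra.TensorProduct.lift_tmul, map_one, one_mul]
  rfl

end

end NHBC

theorem pr_BC : S_BC := by
  intro k₁ K _ _ M y hLD R _ _ θ hθ
  exact NHBC.main k₁ _ hLD R θ hθ

end RC
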