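import Pool.Agent.Work.MP_0ac1ea_ag.RC.HStmts

/-!
# Block H, item CERTINF: the certificate at infinity
-/

set_option autoImplicit false

open AlgebraicGeometry CategoryTheory Limits Polynomial

namespace RC

namespace NHCERTINF

/-- substitution of the inverse of the variable -/
noncomputable abbrev e1 : ℂ[X] →+* RatFunc ℂ := evE RatFunc.C uR 1

theorem e1_reflect (N : ℕ) (P : ℂ[X]) (hP : P.natDegree ≤ N) :
    e1 (reflect N P) * RatFunc.X ^ N = algebraMap ℂ[X] (RatFunc ℂ) P := by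
  let _ : Invertible (RatFunc.X : RatFunc ℂ) := invertibleOfNonzero RatFunc.X_ne_zero
  have h := eval₂_reflect_mul_pow (RatFunc.C : ℂ →+* RatFunc ℂ) RatFunc.X N P hP
  have h1 : eval₂ (RatFunc.C : ℂ →+* RatFunc ℂ) RatFunc.X P = algebraMap ℂ[X] (RatFunc ℂ) P := by
    have : (eval₂RingHom (RatFunc.C : ℂ →+* RatFunc ℂ) RatFunc.X) =
        (algebraMap ℂ[X] (RatFunc ℂ)) := by
      refine Polynomial.ringHom_ext (fun a => ?_) ?_
      · simp
      · simp
    rw [← this]
    rfl
  rw [h1] at h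
  rw [← h]
  simp [e1, evE, uR]

theorem rel_reflect (N : ℕ) (r : RatFunc ℂ) (A B : ℂ[X]) (hA : A.natDegree ≤ N)
    (hB : B.natDegree ≤ N)
    (h : r * algebraMap ℂ[X] (RatFunc ℂ) B = algebraMap ℂ[X] (RatFunc ℂ) A) :
    r * e1 (reflect N B) = e1 (reflect N A) := by
  have hX : (RatFunc.X : RatFunc ℂ) ^ N ≠ 0 := pow_ne_zero _ RatFunc.X_ne_zero
  apply mul_right_cancel₀ hX
  rw [mul_assoc, e1_reflect N B hB, e1_reflect N A hA, h]

theorem reflect_sum {ι : Type} (s : Finset ι) (N : ℕ) (d : ι → ℂ[X]) :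
    reflect N (∑ i ∈ s, d i) = ∑ i ∈ s, reflect N (d i) := by
  ext k
  simp [coeff_reflect]

theorem coprime_X (b : ℂ[X]) (hb : b.coeff 0 ≠ 0) : IsCoprime X b := by
  refine ⟨- (C (b.coeff 0)⁻¹ * divX b), C (b.coeff 0)⁻¹, ?_⟩
  have h := divX_mul_X_add b
  have h2 : (C (b.coeff 0)⁻¹ : ℂ[X]) * C (b.coeff 0) = 1 := by
    rw [← C_mul, inv_mul_cancel₀ hb, C_1]
  calc - (C (b.coeff 0)⁻¹ * divX b) * X + C (b.coeff 0)⁻¹ * b
      = - (C (b.coeff 0)⁻¹ * divX b) * X + C (b.coeff 0)⁻¹ * (divX b * X + C (b.coeff 0)) := by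
        rw [h]
    _ = C (b.coeff 0)⁻¹ * C (b.coeff 0) := by ring
    _ = 1 := h2

theorem infty (r : RatFunc ℂ) (h : ∃ v, RegValInf r v) :
    ∃ b n : ℂ[X], b.coeff 0 ≠ 0 ∧ r * e1 b = e1 n := by
  obtain ⟨v, a, b, hb, hab, h1, -⟩ := h
  refine ⟨reflect b.natDegree b, reflect b.natDegree a, ?_, rel_reflect _ _ _ _ hab le_rfl h1⟩
  rw [coeff_reflect, revAt_le (Nat.zero_le _), Nat.sub_zero]
  exact leadingCoeff_ne_zero.2 hb

end NHCERTINF

open NHCERTINF in
theorem pr_CERTINF : S_CERTINF := by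
  classical
  intro L _ ι _ _ M y S f hC hI
  obtain ⟨d, hd, hn⟩ := hC
  choose n hn using hn
  obtain ⟨i0⟩ := (inferInstance : Nonempty ι)
  -- a bound for the degrees
  obtain ⟨N, hN1, hN2⟩ : ∃ N, (∀ i, (d i).natDegree ≤ N) ∧
      ∀ i j (h : j ∈ S i), (n i j h).natDegree ≤ N := by
    refine ⟨∑ i, ((d i).natDegree + ∑ j, if h : j ∈ S i then (n i j h).natDegree else 0), ?_, ?_⟩
    · intro i
      refine le_trans ?_ (Finset.single_le_sum (f := fun i => ((d i).natDegree +
        ∑ j, if h : j ∈ S i then (n i j h).natDegree else 0)) (fun _ _ => Nat.zero_le _)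
        (Finset.mem_univ i))
      exact Nat.le_add_right _ _
    · intro i j h
      refine le_trans ?_ (Finset.single_le_sum (f := fun i => ((d i).natDegree +
        ∑ j, if h : j ∈ S i then (n i j h).natDegree else 0)) (fun _ _ => Nat.zero_le _)
        (Finset.mem_univ i))
      refine le_trans ?_ (Nat.le_add_left _ _)
      have h3 := Finset.single_le_sum (f := fun j => if h : j ∈ S i then (n i j h).natDegree else 0)
        (fun _ _ => Nat.zero_le _) (Finset.mem_univ j)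
      simp only [dif_pos h] at h3
      exact h3
  -- near infinity
  choose b ν hb hν using fun j : Fin M => infty (f (y j)) (hI (y j))
  have hb0 : (∏ j ∈ S i0, b j).coeff 0 ≠ 0 := by
    rw [coeff_zero_eq_eval_zero, eval_prod]
    refine Finset.prod_ne_zero_iff.2 fun j _ => ?_
    rw [← coeff_zero_eq_eval_zero]
    exact hb j
  obtain ⟨p, q, hpq⟩ := (coprime_X _ hb0).pow_left (m := N)
  refine ⟨fun i => p * reflect N (d i) + if i = i0 then q * ∏ j ∈ S i0, b j else 0, ?_, ?_⟩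
  · rw [Finset.sum_add_distrib, ← Finset.mul_sum, ← reflect_sum, hd, Finset.sum_ite_eq' ,
      if_pos (Finset.mem_univ _), ← C_1, reflect_C, C_1, one_mul]
    exact hpq
  · intro i j hj
    have h1 := rel_reflect N (f (y j)) (n i j hj) (d i) (hN2 i j hj) (hN1 i) (hn i j hj)
    by_cases hi : i = i0
    · subst hi
      refine ⟨p * reflect N (n i j hj) + q * (ν j * ∏ l ∈ (S i).erase j, b l), ?_⟩
      simp only [if_true]
      rw [← Finset.mul_prod_erase (S i) b hj]
      simp only [map_add, map_mul]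
      linear_combination (e1 p) * h1 + (e1 q) * e1 (∏ l ∈ (S i).erase j, b l) * (hν j)
    · refine ⟨p * reflect N (n i j hj), ?_⟩
      simp only [if_neg hi, add_zero, map_mul]
      linear_combination (e1 p) * h1

end RC
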