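import Pool.Agent.Work.MP_0ac1ea_ag.RC.HStmts

/-!
# The certificate from regularity at all points
-/

set_option autoImplicit false

open Polynomial

namespace RC

namespace NHCERTLOC

/-- the ideal of denominators -/
noncomputable def den {L : Type} [Field L] {M : ℕ} (y : Fin M → L) (S : Finset (Fin M))
    (f : L →+* RatFunc ℂ) : Ideal ℂ[X] where
  carrier := {d | ∀ j ∈ S, ∃ n : ℂ[X],
    f (y j) * algebraMap ℂ[X] (RatFunc ℂ) d = algebraMap ℂ[X] (RatFunc ℂ) n}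
  zero_mem' := fun j _ => ⟨0, by simp⟩
  add_mem' := by
    intro a b ha hb j hj
    obtain ⟨n, hn⟩ := ha j hj
    obtain ⟨m, hm⟩ := hb j hj
    exact ⟨n + m, by rw [map_add, map_add, mul_add, hn, hm]⟩
  smul_mem' := by
    intro c x hx j hj
    obtain ⟨n, hn⟩ := hx j hj
    exact ⟨c * n, by rw [smul_eq_mul, map_mul, map_mul, ← hn]; ring⟩

theorem exists_common_zero (m : Ideal ℂ[X]) (hm : m ≠ ⊤) : ∃ p : ℂ, ∀ q ∈ m, q.eval p = 0 := by
  obtain ⟨g, hg⟩ := IsPrincipalIdealRing.principal m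
  have hd : g.degree ≠ 0 := by
    intro h0
    apply hm
    have hu : IsUnit g := Polynomial.isUnit_iff_degree_eq_zero.mpr h0
    rw [hg]
    exact Ideal.span_singleton_eq_top.mpr hu
  obtain ⟨p, hp⟩ := IsAlgClosed.exists_root g hd
  refine ⟨p, fun q hq => ?_⟩
  rw [hg] at hq
  obtain ⟨c, rfl⟩ := Ideal.mem_span_singleton'.mp hq
  rw [Polynomial.eval_mul, show g.eval p = 0 from hp, mul_zero]

theorem exists_den {L : Type} [Field L] {M : ℕ} (y : Fin M → L) (S : Finset (Fin M))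
    (f : L →+* RatFunc ℂ) (p : ℂ) (h : ∀ j ∈ S, ∃ v, RegVal (f (y j)) p v) :
    ∃ B ∈ den y S f, B.eval p ≠ 0 := by
  classical
  have h1 : ∀ j, ∃ b : ℂ[X], b.eval p ≠ 0 ∧ (j ∈ S → ∃ a : ℂ[X],
      f (y j) * algebraMap ℂ[X] (RatFunc ℂ) b = algebraMap ℂ[X] (RatFunc ℂ) a) := by
    intro j
    by_cases hj : j ∈ S
    · obtain ⟨v, a, b, hb, hab, -⟩ := h j hj
      exact ⟨b, hb, fun _ => ⟨a, hab⟩⟩
    · exact ⟨1, by simp, fun hj' => absurd hj' hj⟩
  choose b hb hab using h1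
  refine ⟨∏ j ∈ S, b j, ?_, ?_⟩
  · intro j hj
    obtain ⟨a, ha⟩ := hab j hj
    refine ⟨a * ∏ l ∈ S.erase j, b l, ?_⟩
    rw [← Finset.mul_prod_erase S b hj, map_mul, map_mul, ← ha, mul_assoc]
  · rw [Polynomial.eval_prod]
    exact Finset.prod_ne_zero_iff.mpr fun j _ => hb j

end NHCERTLOC

open NHCERTLOC in
theorem pr_CERTLOC : S_CERTLOC := by
  intro L _ ι _ M y S f h
  have htop : (⨆ i ∈ (Finset.univ : Finset ι), den y (S i) f) = ⊤ := by
    by_contra hne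
    obtain ⟨p, hp⟩ := exists_common_zero _ hne
    obtain ⟨i, hi⟩ := h p
    obtain ⟨B, hB, hB0⟩ := exists_den y (S i) f p hi
    exact hB0 (hp B (le_iSup₂ (f := fun i (_ : i ∈ (Finset.univ : Finset ι)) =>
      den y (S i) f) i (Finset.mem_univ i) hB))
  have h1 : (1 : ℂ[X]) ∈ (⨆ i ∈ (Finset.univ : Finset ι), den y (S i) f) := by
    rw [htop]; trivial
  obtain ⟨μ, hμ⟩ := (Submodule.mem_iSup_finset_iff_exists_sum (s := Finset.univ)
    (p := fun i => den y (S i) f) 1).mp h1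
  exact ⟨fun i => (μ i : ℂ[X]), hμ, fun i j hj => (μ i).2 j hj⟩

end RC
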