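import Pool.Agent.Work.MP_0ac1ea_ag.RC.HStmts

set_option autoImplicit false

namespace RC

/-- coefficients of an element -/
theorem pr_COEF : S_COEF := by
  intro K _ _ M y T a ha
  induction ha using Algebra.adjoin_induction with
  | mem x hx => exact ⟨∅, fun k₁ _ => Algebra.subset_adjoin hx⟩
  | algebraMap z =>
    refine ⟨{z}, fun k₁ h => ?_⟩
    have hz : z ∈ k₁ := h z (Finset.mem_singleton_self z)
    have h2 : algebraMap ℂ K z = algebraMap k₁ K ⟨z, hz⟩ := rfl
    rw [h2]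
    exact Subalgebra.algebraMap_mem _ _
  | add x x' _ _ hx hx' =>
    obtain ⟨C1, h1⟩ := hx
    obtain ⟨C2, h2⟩ := hx'
    classical
    exact ⟨C1 ∪ C2, fun k₁ h => add_mem (h1 k₁ fun z hz => h z (Finset.mem_union_left _ hz))
      (h2 k₁ fun z hz => h z (Finset.mem_union_right _ hz))⟩
  | mul x x' _ _ hx hx' =>
    obtain ⟨C1, h1⟩ := hx
    obtain ⟨C2, h2⟩ := hx'
    classical
    exact ⟨C1 ∪ C2, fun k₁ h => mul_mem (h1 k₁ fun z hz => h z (Finset.mem_union_left _ hz))
      (h2 k₁ fun z hz => h z (Finset.mem_union_right _ hz))⟩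

end RC
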