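import Pool.Agent.Work.MP_0ac1ea_ag.RC.HStmts

set_option autoImplicit false

open AlgebraicGeometry CategoryTheory Limits

namespace RC

namespace NHDIM0

theorem bij {K : Type} [Field K] [Algebra ℂ K] (A : Subalgebra ℂ K) (hA : A = ⊥) :
    Function.Bijective (algebraMap ℂ A) := by
  refine ⟨RingHom.injective _, ?_⟩
  rintro ⟨x, hx⟩
  rw [hA, Algebra.mem_bot] at hx
  obtain ⟨z, hz⟩ := hx
  exact ⟨z, Subtype.ext hz⟩

theorem isIso_sp {K : Type} [Field K] [Algebra ℂ K] (A : Subalgebra ℂ K) (hA : A = ⊥) :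
    IsIso (sp (algebraMap ℂ A)) := by
  have h : IsIso (CommRingCat.ofHom (algebraMap ℂ A)) :=
    (RingEquiv.ofBijective (algebraMap ℂ A) (bij A hA)).toCommRingCatIso.isIso_hom
  infer_instance

theorem subsing {K : Type} [Field K] [Algebra ℂ K] (A : Subalgebra ℂ K) (hA : A = ⊥) :
    Subsingleton (Spec (.of A)) := by
  have h1 : Function.Injective (PrimeSpectrum.comap (algebraMap ℂ A)) :=
    PrimeSpectrum.comap_injective_of_surjective _ (bij A hA).2
  have h2 : Subsingleton (PrimeSpectrum A) := h1.subsingleton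
  exact h2

end NHDIM0

open NHDIM0 in
/-- dimension zero -/
theorem pr_DIM0 : S_DIM0 := by
  intro X π _ K _ _ ι _ A c hat hbot f hf
  obtain ⟨i⟩ := (inferInstance : Nonempty ι)
  have hiso : IsIso (c i ≫ π) := by
    rw [hat.isOver i]
    exact isIso_sp (A i) (hbot i)
  have hopen : IsOpenImmersion (c i) := hat.isOpen i
  have hne : ∀ j, Nonempty (Spec (.of (A j)) : Scheme.{0}) := fun j => inferInstance
  have hsurj : Function.Surjective (c i) := by
    intro x
    obtain ⟨j, q', hq'⟩ := hat.covers x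
    have hopenj : IsOpenImmersion (c j) := hat.isOpen j
    have h1 : ((c i).opensRange : Set X).Nonempty := by
      obtain ⟨p⟩ := hne i
      exact ⟨c i p, p, rfl⟩
    have h2 : ((c j).opensRange : Set X).Nonempty := by
      obtain ⟨p⟩ := hne j
      exact ⟨c j p, p, rfl⟩
    obtain ⟨y, ⟨p, hp⟩, ⟨q, hq⟩⟩ := nonempty_preirreducible_inter
      (c i).opensRange.isOpen (c j).opensRange.isOpen h1 h2
    have hs := subsing (A j) (hbot j)
    have : q = q' := Subsingleton.elim _ _
    refine ⟨p, ?_⟩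
    rw [hp, ← hq, this, hq']
  have hc : IsIso (c i) := by
    rw [isIso_iff_isOpenImmersion_and_surjective]
    exact ⟨hopen, ⟨hsurj⟩⟩
  have hπ : IsIso π := IsIso.of_isIso_comp_left (c i) π
  refine ⟨inv π, ?_⟩
  rw [← cancel_mono π, Category.assoc, IsIso.inv_hom_id, Category.comp_id]
  exact hf

end RC
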