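import Pool.Agent.Work.MP_0ac1ea_ag.RC.HStmts2

/-!
# Item EXT: extension of a homomorphism of the function field to all charts
-/

set_option autoImplicit false

open AlgebraicGeometry CategoryTheory Limits

namespace RC

theorem pr_EXT (hBC : S_BC) : S_EXT := by
  intro X π K _ _ ι A c k₁ M y T hM R _ _ θ hθ
  obtain ⟨g, hg⟩ := hBC k₁ K M y hM.ld R θ hθ
  have hyL : ∀ i, (y '' T i : Set K) ⊆ (Lk k₁ y : Set K) := by
    rintro i _ ⟨j, _, rfl⟩
    exact IntermediateField.subset_adjoin _ _ ⟨j, rfl⟩
  have hle : ∀ i, A i ≤ Algebra.adjoin ℂ ((Lk k₁ y : IntermediateField k₁ K) : Set K) := by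
    intro i
    rw [hM.gens i]
    exact Algebra.adjoin_mono (hyL i)
  refine ⟨fun i => g.comp (Subalgebra.inclusion (hle i)), ?_, ?_⟩
  · intro i r l hrl
    have h1 : (l : K) ∈ Algebra.adjoin ℂ ((Lk k₁ y : IntermediateField k₁ K) : Set K) :=
      Algebra.subset_adjoin l.2
    have h2 := hg l h1
    rw [← h2]
    change g _ = g _
    congr 1
    exact Subtype.ext hrl
  · intro i j
    obtain ⟨s, hs0, hsk, hs⟩ := hM.ov i j
    have hsL : (s : K) ∈ Lk k₁ y := by
      have : Algebra.adjoin k₁ (y '' T i) ≤ (Lk k₁ y).toSubalgebra :=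
        Algebra.adjoin_le (hyL i)
      exact this hsk
    refine hs R _ _ ?_ ?_
    · have h1 : g (Subalgebra.inclusion (hle i) s) = θ ⟨(s : K), hsL⟩ := by
        rw [← hg ⟨(s : K), hsL⟩ (Algebra.subset_adjoin hsL)]
        rfl
      change IsUnit (g (Subalgebra.inclusion (hle i) s))
      rw [h1]
      refine IsUnit.map θ (IsUnit.mk0 _ ?_)
      intro h
      apply hs0
      exact Subtype.ext (congrArg (Subtype.val : Lk k₁ y → K) h)
    · intro a b N hab
      change g (Subalgebra.inclusion (hle j) a) * g (Subalgebra.inclusion (hle i) s) ^ N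
        = g (Subalgebra.inclusion (hle i) b)
      rw [← map_pow, ← map_mul]
      congr 1
      exact Subtype.ext hab

end RC
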