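import Pool.Agent.Work.MP_0ac1ea_ag.RC.HStmts

set_option autoImplicit false

open AlgebraicGeometry CategoryTheory Limits Polynomial

namespace RC

namespace NHGENPT

theorem ev_inj (κ : Fin 2) :
    Function.Injective (evE (RatFunc.C : ℂ →+* RatFunc ℂ) uR κ) := by
  have h0 : ∀ p : ℂ[X], eval₂ (RatFunc.C : ℂ →+* RatFunc ℂ) RatFunc.X p = 0 → p = 0 := by
    intro p hp
    have h1 : algebraMap ℂ[X] (RatFunc ℂ) p = eval₂ (RatFunc.C : ℂ →+* RatFunc ℂ) RatFunc.X p := by
      have : (algebraMap ℂ[X] (RatFunc ℂ)) = eval₂RingHom (RatFunc.C : ℂ →+* RatFunc ℂ) RatFunc.X := by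
        refine Polynomial.ringHom_ext (fun a => ?_) ?_
        · simp
        · simp
      rw [this]
      rfl
    rw [← h1] at hp
    exact (map_eq_zero_iff _ (IsFractionRing.injective ℂ[X] (RatFunc ℂ))).mp hp
  rw [injective_iff_map_eq_zero]
  intro p hp
  rcases (show κ = 0 ∨ κ = 1 by fin_cases κ <;> simp) with rfl | rfl
  · apply h0
    simpa [evE, uR] using hp
  · have hX : (RatFunc.X : RatFunc ℂ) ≠ 0 := RatFunc.X_ne_zero
    have hp' : eval₂ (RatFunc.C : ℂ →+* RatFunc ℂ) (RatFunc.X⁻¹) p = 0 := by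
      simpa [evE, uR] using hp
    let _ : Invertible (RatFunc.X⁻¹ : RatFunc ℂ) := invertibleOfNonzero (inv_ne_zero hX)
    have h2 := Polynomial.eval₂_reverse_mul_pow (RatFunc.C : ℂ →+* RatFunc ℂ) (RatFunc.X⁻¹) p
    rw [hp', mul_eq_zero] at h2
    rcases h2 with h2 | h2
    · rw [invOf_eq_inv, inv_inv] at h2
      have := h0 _ h2
      rwa [Polynomial.reverse_eq_zero] at this
    · exact absurd h2 (pow_ne_zero _ (inv_ne_zero hX))

theorem comap_bot {R E : Type} [CommRing R] [Field E] (φ : R →+* E)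
    (hφ : Function.Injective φ) (y : PrimeSpectrum E) :
    (PrimeSpectrum.comap φ y).asIdeal = ⊥ := by
  rw [PrimeSpectrum.comap_asIdeal]
  have e2 : y.asIdeal = ⊥ := by
    have := y.isPrime
    rcases Ideal.eq_bot_or_top y.asIdeal with h | h
    · exact h
    · exact absurd h this.ne_top
  rw [e2]
  exact Ideal.comap_bot_of_injective _ hφ

theorem gen_mem {R E : Type} [CommRing R] [Field E] (φ : R →+* E)
    (hφ : Function.Injective φ) (y : PrimeSpectrum E) (x : PrimeSpectrum R)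
    (V : TopologicalSpace.Opens (PrimeSpectrum R)) (hx : x ∈ V) :
    PrimeSpectrum.comap φ y ∈ V := by
  have hy : PrimeSpectrum.comap φ y ⤳ x := by
    rw [← PrimeSpectrum.le_iff_specializes, ← PrimeSpectrum.asIdeal_le_asIdeal,
      comap_bot φ hφ]
    exact bot_le
  exact hy.mem_open V.isOpen hx

end NHGENPT

theorem pr_GENPT : S_GENPT := by
  intro X π K _ _ ι A c hA f hf κ a i z hz
  have := hA.isOpen i
  -- the open set of the chart
  set U : X.Opens := (c i).opensRange with hU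
  set q : Spec (.of ℂ[X]) ⟶ X := chart ℂ κ ≫ f with hq
  have hmem : ∀ x : SpecC, (sp (Polynomial.evalRingHom a)) x ∈ q ⁻¹ᵁ U := by
    intro x
    have h1 : q ((sp (Polynomial.evalRingHom a)) x) = (sp (z : A i →+* ℂ) ≫ c i) x := by
      rw [← hz, pt, hq, Category.assoc]
      rfl
    change q ((sp (Polynomial.evalRingHom a)) x) ∈ U
    rw [h1]
    exact ⟨(sp (z : A i →+* ℂ)) x, rfl⟩
  have hgen : ∀ y : Spec (.of (RatFunc ℂ)),
      (sp (evE (RatFunc.C : ℂ →+* RatFunc ℂ) uR κ)) y ∈ q ⁻¹ᵁ U := by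
    intro y
    exact NHGENPT.gen_mem _ (NHGENPT.ev_inj κ) y _ (q ⁻¹ᵁ U) (hmem (⊥ : PrimeSpectrum ℂ))
  have hrange : Set.range (gen ≫ f) ⊆ Set.range (c i) := by
    rintro _ ⟨y, rfl⟩
    have := hgen y
    have h3 : (gen ≫ f) y = q ((sp (evE (RatFunc.C : ℂ →+* RatFunc ℂ) uR κ)) y) := by
      rw [gen, ← gE_eq _ _ κ, hq, Category.assoc]
      rfl
    rw [h3]
    exact this
  set l := IsOpenImmersion.lift (c i) (gen ≫ f) hrange with hl
  have hl2 : l ≫ c i = gen ≫ f := IsOpenImmersion.lift_fac _ _ _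
  obtain ⟨g, hg⟩ : ∃ g : A i →+* RatFunc ℂ, sp g = l := by
    refine ⟨(Spec.preimage l).hom, ?_⟩
    exact Spec.map_preimage l
  have hlin : g.comp (algebraMap ℂ (A i)) = algebraMap ℂ (RatFunc ℂ) := by
    have h4 : sp (g.comp (algebraMap ℂ (A i))) = sp (algebraMap ℂ (RatFunc ℂ)) := by
      rw [sp_comp, ← hA.isOver i, ← Category.assoc, hg, hl2, Category.assoc, hf, gen, gE,
        Category.assoc, PLs, chart_toSpec]
      have h5 : (evE (RatFunc.C : ℂ →+* RatFunc ℂ) uR 0).comp Polynomial.C =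
          algebraMap ℂ (RatFunc ℂ) := by
        ext r
        simp [evE, RatFunc.algebraMap_eq_C]
      rw [← h5, sp_comp]
    have h6 := Spec.map_injective h4
    exact congrArg CommRingCat.Hom.hom h6
  refine ⟨{ g with commutes' := fun r => RingHom.congr_fun hlin r }, ?_⟩
  rw [← hl2, ← hg]
  rfl

end RC
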