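import Pool.Agent.Work.MP_0ac1ea_ag.RC.HStmts

/-!
# Morphisms from certificates
-/

set_option autoImplicit false

open AlgebraicGeometry CategoryTheory Limits

namespace RC

namespace NHGLUE

universe u

/-- two morphisms to a separated scheme which agree on a scheme theoretically dominant `W ⟶ T` are
equal -/
theorem ext_dom {T W Y Z : Scheme.{u}} {f g : T ⟶ Y}
    (s : Y ⟶ Z) [IsSeparated s] (h : f ≫ s = g ≫ s)
    (ι : W ⟶ T) [IsSchemeTheoreticallyDominant ι] (hU : ι ≫ f = ι ≫ g) : f = g := by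
  let X' : Over Z := Over.mk (f ≫ s)
  let Y' : Over Z := Over.mk s
  let U' : Over Z := Over.mk (ι ≫ f ≫ s)
  let f' : X' ⟶ Y' := Over.homMk f
  let g' : X' ⟶ Y' := Over.homMk g
  let ι' : U' ⟶ X' := Over.homMk ι
  have : IsSeparated Y'.hom := ‹_›
  have hcomm : ι' ≫ f' = ι' ≫ g' := by
    ext1; exact hU
  have hfac : (equalizer.lift ι' hcomm).left ≫ (equalizer.ι f' g').left = ι := by
    rw [← Over.comp_left, equalizer.lift_ι]
    rfl
  have hker : (equalizer.ι f' g').left.ker = ⊥ := by
    have h1 := Scheme.Hom.le_ker_comp (equalizer.lift ι' hcomm).left (equalizer.ι f' g').left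
    have h2 : ((equalizer.lift ι' hcomm).left ≫ (equalizer.ι f' g').left).ker = ⊥ := by
      rw [hfac]
      exact ι.ker_eq_bot
    exact le_bot_iff.1 (h1.trans h2.le)
  have : IsIso (equalizer.ι f' g').left :=
    IsClosedImmersion.isIso_iff_ker_eq_bot.2 hker
  rw [← cancel_epi (equalizer.ι f' g').left]
  exact congr($(equalizer.condition f' g').left)

theorem dom_sp {R S : Type} [CommRing R] [CommRing S] (φ : R →+* S)
    (hφ : Function.Injective φ) : IsSchemeTheoreticallyDominant (sp φ) := by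
  constructor
  have h0 : (sp φ).appTop = (Scheme.ΓSpecIso (.of R)).hom ≫ CommRingCat.ofHom φ ≫
      (Scheme.ΓSpecIso (.of S)).inv := by
    rw [Scheme.ΓSpecIso_inv_naturality, Iso.hom_inv_id_assoc]
  have hinj : Function.Injective (sp φ).appTop := by
    rw [h0]
    intro a b hab
    have h2 := congrArg (Scheme.ΓSpecIso (.of S)).hom hab
    have h3 : ∀ x, (Scheme.ΓSpecIso (.of S)).hom (((Scheme.ΓSpecIso (.of R)).hom ≫
        CommRingCat.ofHom φ ≫ (Scheme.ΓSpecIso (.of S)).inv) x)
        = φ ((Scheme.ΓSpecIso (.of R)).hom x) := by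
      intro x
      rw [← CommRingCat.comp_apply, Category.assoc, Category.assoc, Iso.inv_hom_id,
        Category.comp_id, CommRingCat.comp_apply]
      rfl
    rw [h3, h3] at h2
    have h4 := hφ h2
    have h5 := congrArg (Scheme.ΓSpecIso (.of R)).inv h4
    have h6 : ∀ x, (Scheme.ΓSpecIso (.of R)).inv ((Scheme.ΓSpecIso (.of R)).hom x) = x := by
      intro x
      rw [← CommRingCat.comp_apply, Iso.hom_inv_id]
      rfl
    rwa [h6, h6] at h5
  refine Scheme.IdealSheafData.ext_of_isAffine ?_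
  have h7 : Function.Injective ((sp φ).app ⊤).hom := hinj
  simp only [(sp φ).ker_apply ⟨⊤, isAffineOpen_top (Spec (.of R))⟩,
    Scheme.IdealSheafData.ideal_bot, Pi.bot_apply, ← RingHom.injective_iff_ker_eq_bot]
  exact h7

theorem dom_of_comp_mono {W T Y : Scheme.{u}} (ι : W ⟶ T) (m : T ⟶ Y) [Mono m] [Flat m]
    [IsSchemeTheoreticallyDominant (ι ≫ m)] [QuasiCompact (ι ≫ m)] :
    IsSchemeTheoreticallyDominant ι := by
  have H : IsPullback (𝟙 W) ι (ι ≫ m) m := by
    refine IsPullback.of_isLimit' ⟨by simp⟩ ?_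
    refine PullbackCone.IsLimit.mk _ (fun s => s.fst) (fun s => by simp) (fun s => ?_)
      (fun s t h1 h2 => by simpa using h1)
    rw [← cancel_mono m, Category.assoc]
    exact s.condition
  exact IsSchemeTheoreticallyDominant.of_isPullback H

section

variable {R : Type} [CommRing R] {J : Type} (s : J → R) (hs : Ideal.span (Set.range s) = ⊤)

/-- the localisation map -/
noncomputable abbrev lm (j : J) : Spec (.of (Localization.Away (s j))) ⟶ Spec (.of R) :=
  sp (algebraMap R (Localization.Away (s j)))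

include hs in
theorem glue_span {X : Scheme.{0}} (m : ∀ j, Spec (.of (Localization.Away (s j))) ⟶ X)
    (H : ∀ i j, pullback.fst (lm s i) (lm s j) ≫ m i = pullback.snd (lm s i) (lm s j) ≫ m j) :
    ∃ g : Spec (.of R) ⟶ X, ∀ j, lm s j ≫ g = m j := by
  let 𝒰 : (Spec (.of R)).AffineOpenCover :=
    Scheme.affineOpenCoverOfSpanRangeEqTop (R := CommRingCat.of R) s hs
  let 𝒱 : (Spec (.of R)).OpenCover := 𝒰.openCover
  exact ⟨𝒱.glueMorphisms m H, fun j => 𝒱.ι_glueMorphisms m H j⟩

include hs in
theorem hom_ext_span {X : Scheme.{0}} (f g : Spec (.of R) ⟶ X) (H : ∀ j, lm s j ≫ f = lm s j ≫ g) :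
    f = g := by
  let 𝒰 : (Spec (.of R)).AffineOpenCover :=
    Scheme.affineOpenCoverOfSpanRangeEqTop (R := CommRingCat.of R) s hs
  let 𝒱 : (Spec (.of R)).OpenCover := 𝒰.openCover
  exact 𝒱.hom_ext _ _ H

instance (j : J) : IsOpenImmersion (lm s j) :=
  IsOpenImmersion.of_isLocalization (S := Localization.Away (s j)) (s j)

end

/-- the localisation of `R` embeds in `E` -/
theorem exists_lift {R E : Type} [CommRing R] [CommRing E] (φ : R →+* E)
    (hφ : Function.Injective φ) (d : R) (hd : IsUnit (φ d)) :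
    ∃ φj : Localization.Away d →+* E, Function.Injective φj ∧ φj.comp (algebraMap R _) = φ := by
  refine ⟨IsLocalization.Away.lift d hd, ?_, IsLocalization.Away.lift_comp _ _⟩
  refine (IsLocalization.lift_injective_iff _).2 fun x y => ?_
  rw [hφ.eq_iff]
  refine ⟨fun h => ?_, fun h => by rw [h]⟩
  obtain ⟨⟨c, n, rfl⟩, hc⟩ := (IsLocalization.eq_iff_exists (Submonoid.powers d) _).1 h
  apply hφ
  have h1 := congrArg φ hc
  simp only [map_mul, map_pow] at h1
  exact (hd.pow n).mul_left_cancel h1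

/-- a homomorphism with values in the image of the localisation -/
theorem exists_factor {R E A : Type} [CommRing R] [CommRing E] [CommRing A] (φ : R →+* E)
    (d : R) (hd : IsUnit (φ d)) (φj : Localization.Away d →+* E) (hinj : Function.Injective φj)
    (hφj : φj.comp (algebraMap R _) = φ) (θ : A →+* E)
    (hn : ∀ a : A, ∃ (N : ℕ) (n : R), θ a * φ d ^ N = φ n) :
    ∃ h : A →+* Localization.Away d, φj.comp h = θ := by
  have h1 : ∀ a, ∃ b, φj b = θ a := by
    intro a
    obtain ⟨N, n, h⟩ := hn a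
    refine ⟨IsLocalization.mk' (Localization.Away d) n
      (⟨d ^ N, N, rfl⟩ : Submonoid.powers d), ?_⟩
    refine (hd.pow N).mul_right_cancel ?_
    rw [h, ← hφj, RingHom.comp_apply, RingHom.comp_apply, ← map_pow, ← map_mul, ← map_pow]
    congr 1
    exact IsLocalization.mk'_spec (Localization.Away d) n
      (⟨d ^ N, N, rfl⟩ : Submonoid.powers d)
  choose h h2 using h1
  refine ⟨⟨⟨⟨h, ?_⟩, ?_⟩, ?_, ?_⟩, ?_⟩
  · apply hinj; rw [h2, map_one, map_one]
  · intro x y; apply hinj; simp only [map_mul, h2]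
  · apply hinj; change φj (h 0) = _; rw [h2, map_zero, map_zero]
  · intro x y; apply hinj; change φj (h _) = φj (h _ + h _); rw [map_add, h2, h2, h2, map_add]
  · ext a; exact h2 a

end NHGLUE

open NHGLUE

theorem pr_GLUE : S_GLUE := by
  intro X π _ K _ _ ι _ A c hA R E _ _ _ φ hφ θ hθ hθC d hd hu hn
  classical
  -- the elements of the cover
  let s : {i : ι // d i ≠ 0} → R := fun j => d j.1
  have hspan : Ideal.span (Set.range s) = ⊤ := by
    rw [Ideal.eq_top_iff_one, ← hd]
    refine Ideal.sum_mem _ fun i _ => ?_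
    by_cases h : d i = 0
    · rw [h]; exact Ideal.zero_mem _
    · exact Ideal.subset_span ⟨⟨i, h⟩, rfl⟩
  have hloc : ∀ j, ∃ φj : Localization.Away (s j) →+* E, Function.Injective φj ∧
      φj.comp (algebraMap R _) = φ := fun j => exists_lift φ hφ (s j) (hu j.1 j.2)
  choose φl hφl hφl2 using hloc
  have hh : ∀ j, ∃ h : A j.1 →+* Localization.Away (s j), (φl j).comp h = θ j.1 := fun j =>
    exists_factor φ (s j) (hu j.1 j.2) (φl j) (hφl j) (hφl2 j) (θ j.1) (hn j.1)
  choose h hh2 using hh
  obtain ⟨m, hmd⟩ : ∃ m : ∀ j, Spec (.of (Localization.Away (s j))) ⟶ X,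
    ∀ j, m j = sp (h j) ≫ c j.1 := ⟨fun j => sp (h j) ≫ c j.1, fun _ => rfl⟩
  have hm : ∀ j, sp (φl j) ≫ m j = sp (θ j.1) ≫ c j.1 := by
    intro j
    rw [hmd, sp_comp_assoc, hh2]
  have hmπ : ∀ j, m j ≫ π = lm s j ≫ sp (algebraMap ℂ R) := by
    intro j
    have h0 : (h j).comp (algebraMap ℂ (A j.1)) =
        (algebraMap R (Localization.Away (s j))).comp (algebraMap ℂ R) := by
      refine RingHom.ext fun z => ?_
      apply hφl j
      have h1 := congrArg (fun f : A j.1 →+* E => f (algebraMap ℂ (A j.1) z)) (hh2 j)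
      have h2 := congrArg (fun f : R →+* E => f (algebraMap ℂ R z)) (hφl2 j)
      exact h1.trans ((hθC j.1 z).trans h2.symm)
    rw [hmd, Category.assoc, hA.isOver, lm, ← sp_comp, ← sp_comp, h0]
  have hfac : ∀ j, sp (φl j) ≫ lm s j = sp φ := by
    intro j
    rw [lm, ← sp_comp, hφl2]
  have hdom : IsSchemeTheoreticallyDominant (sp φ) := dom_sp φ hφ
  have hglue : ∀ i j, pullback.fst (lm s i) (lm s j) ≫ m i =
      pullback.snd (lm s i) (lm s j) ≫ m j := by
    intro i j
    let e : Spec (.of E) ⟶ pullback (lm s i) (lm s j) :=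
      pullback.lift (sp (φl i)) (sp (φl j)) ((hfac i).trans (hfac j).symm)
    have he1 : e ≫ pullback.fst (lm s i) (lm s j) = sp (φl i) := pullback.lift_fst _ _ _
    have he2 : e ≫ pullback.snd (lm s i) (lm s j) = sp (φl j) := pullback.lift_snd _ _ _
    have he3 : e ≫ (pullback.fst (lm s i) (lm s j) ≫ lm s i) = sp φ := by
      rw [← Category.assoc, he1]; exact hfac i
    have h1 : IsSchemeTheoreticallyDominant (e ≫ (pullback.fst (lm s i) (lm s j) ≫ lm s i)) := by
      rw [he3]; exact hdom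
    have h2 : QuasiCompact (e ≫ (pullback.fst (lm s i) (lm s j) ≫ lm s i)) := by
      rw [he3]; infer_instance
    have h3 : IsSchemeTheoreticallyDominant e :=
      dom_of_comp_mono e (pullback.fst (lm s i) (lm s j) ≫ lm s i)
    refine ext_dom π ?_ e ?_
    · rw [Category.assoc, Category.assoc, hmπ, hmπ, ← Category.assoc, ← Category.assoc,
        pullback.condition]
    · rw [← Category.assoc, ← Category.assoc, he1, he2, hm, hm]
      exact hθ _ _
  obtain ⟨g, hg⟩ := glue_span s hspan m hglue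
  refine ⟨g, ?_, ?_⟩
  · refine hom_ext_span s hspan _ _ fun j => ?_
    rw [← Category.assoc, hg, hmπ]
  · intro i
    by_cases hJ : Nonempty {i : ι // d i ≠ 0}
    · obtain ⟨j⟩ := hJ
      rw [← hfac j, Category.assoc, hg, hm]
      exact hθ _ _
    · have h0 : (1 : R) = 0 := by
        rw [← hd]
        refine Finset.sum_eq_zero fun i _ => ?_
        by_contra h
        exact hJ ⟨⟨i, h⟩⟩
      have h1 : (1 : E) = 0 := by rw [← map_one φ, h0, map_zero]
      have : Subsingleton E := subsingleton_of_zero_eq_one h1.symm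
      have : IsEmpty (Spec (.of E)) := inferInstanceAs (IsEmpty (PrimeSpectrum E))
      exact (isInitialOfIsEmpty (X := Spec (.of E))).hom_ext _ _

end RC
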