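import Pool.Agent.Work.MP_0ac1ea_ag.RC.HStmts

/-!
# Block H, item INJ: injectivity of the evaluation maps
-/

set_option autoImplicit false

open AlgebraicGeometry CategoryTheory Limits Polynomial

namespace RC

namespace NHINJ

theorem evE_C {R E : Type} [CommRing R] [CommRing E] (φ : R →+* E) (u : Eˣ) (κ : Fin 2) (c : R) :
    evE φ u κ (C c) = φ c := by
  simp [evE]

theorem evE_X {R E : Type} [CommRing R] [CommRing E] (φ : R →+* E) (u : Eˣ) (κ : Fin 2) :
    evE φ u κ X = (if κ = 0 then (u : E) else ((u⁻¹ : Eˣ) : E)) := by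
  simp [evE]

theorem inj0 (κ : Fin 2) : Function.Injective (evE (RatFunc.C : ℂ →+* RatFunc ℂ) uR κ) := by
  rw [injective_iff_map_eq_zero]
  intro B hB
  have key : ∀ P : ℂ[X], eval₂ (RatFunc.C : ℂ →+* RatFunc ℂ) RatFunc.X P = 0 → P = 0 := by
    intro P hP
    have h1 : eval₂ (RatFunc.C : ℂ →+* RatFunc ℂ) RatFunc.X P = algebraMap ℂ[X] (RatFunc ℂ) P := by
      have : (eval₂RingHom (RatFunc.C : ℂ →+* RatFunc ℂ) RatFunc.X) =
          (algebraMap ℂ[X] (RatFunc ℂ)) := by
        refine Polynomial.ringHom_ext (fun a => ?_) ?_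
        · simp
        · simp
      rw [← this]
      rfl
    rw [h1] at hP
    exact (map_eq_zero_iff _ (IsFractionRing.injective ℂ[X] (RatFunc ℂ))).1 hP
  rcases (show κ = 0 ∨ κ = 1 by fin_cases κ <;> simp) with rfl | rfl
  · apply key
    simpa [evE, uR] using hB
  · let _ : Invertible (RatFunc.X : RatFunc ℂ) := invertibleOfNonzero RatFunc.X_ne_zero
    have h2 : eval₂ (RatFunc.C : ℂ →+* RatFunc ℂ) (RatFunc.X)⁻¹ B = 0 := by
      simpa [evE, uR] using hB
    let _ : Invertible ((RatFunc.X : RatFunc ℂ)⁻¹) :=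
      invertibleOfNonzero (inv_ne_zero RatFunc.X_ne_zero)
    have h3 := (eval₂_reverse_eq_zero_iff (RatFunc.C : ℂ →+* RatFunc ℂ)
      ((RatFunc.X : RatFunc ℂ)⁻¹) B).2 h2
    have h4 : (⅟((RatFunc.X : RatFunc ℂ)⁻¹)) = RatFunc.X := by
      rw [invOf_eq_inv, inv_inv]
    rw [h4] at h3
    exact reverse_eq_zero.1 (key _ h3)

/-- the inclusion of the polynomials with complex coefficients -/
noncomputable abbrev il : ℂ[X] →+* (DualNumber ℂ)[X] :=
  mapRingHom (TrivSqZeroExt.inlHom ℂ ℂ)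

theorem decomp (B : (DualNumber ℂ)[X]) : ∃ B0 B1 : ℂ[X],
    B = il B0 + C (TrivSqZeroExt.inr 1) * il B1 := by
  induction B using Polynomial.induction_on' with
  | add p q hp hq =>
    obtain ⟨p0, p1, hp⟩ := hp
    obtain ⟨q0, q1, hq⟩ := hq
    refine ⟨p0 + q0, p1 + q1, ?_⟩
    rw [hp, hq, map_add, map_add]
    ring
  | monomial n a =>
    refine ⟨monomial n a.fst, monomial n a.snd, ?_⟩
    simp only [coe_mapRingHom, map_monomial, C_mul_monomial, ← map_add]
    congr 1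
    ext <;> simp

theorem evE_il (κ : Fin 2) (P : ℂ[X]) :
    evE cE uE κ (il P) = TrivSqZeroExt.inl (evE (RatFunc.C : ℂ →+* RatFunc ℂ) uR κ P) := by
  have h : (evE cE uE κ).comp il = (TrivSqZeroExt.inlHom (RatFunc ℂ) (RatFunc ℂ)).comp
      (evE (RatFunc.C : ℂ →+* RatFunc ℂ) uR κ) := by
    refine Polynomial.ringHom_ext (fun a => ?_) ?_
    · simp only [RingHom.comp_apply, coe_mapRingHom, map_C, evE_C]
      ext <;> simp [cE]
    · simp only [RingHom.comp_apply, coe_mapRingHom, map_X, evE_X]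
      rcases (show κ = 0 ∨ κ = 1 by fin_cases κ <;> simp) with rfl | rfl
      · simp [uE]
      · simp [uE]
  exact congrArg (fun f => f P) h

theorem evE_decomp (κ : Fin 2) (B0 B1 : ℂ[X]) :
    evE cE uE κ (il B0 + C (TrivSqZeroExt.inr 1) * il B1) =
      TrivSqZeroExt.inl (evE (RatFunc.C : ℂ →+* RatFunc ℂ) uR κ B0) +
        TrivSqZeroExt.inr (evE (RatFunc.C : ℂ →+* RatFunc ℂ) uR κ B1) := by
  rw [map_add, map_mul, evE_il, evE_il, evE_C]
  ext <;> simp [cE]

theorem eval_fst (a : DualNumber ℂ) (B0 B1 : ℂ[X]) :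
    (eval a (il B0 + C (TrivSqZeroExt.inr 1) * il B1)).fst = eval a.fst B0 := by
  have h : ∀ P : ℂ[X], (eval a (il P)).fst = eval a.fst P := by
    intro P
    have h : ((TrivSqZeroExt.fstHom ℂ ℂ ℂ).toRingHom.comp (evalRingHom a)).comp il =
        evalRingHom a.fst := by
      refine Polynomial.ringHom_ext (fun a => ?_) ?_
      · simp
      · simp
    exact congrArg (fun f => f P) h
  rw [eval_add, eval_mul, TrivSqZeroExt.fst_add, TrivSqZeroExt.fst_mul, h, eval_C,
    TrivSqZeroExt.fst_inr, zero_mul, add_zero]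

end NHINJ

open NHINJ in
theorem pr_INJ : S_INJ := by
  refine ⟨inj0, fun κ => ?_, fun κ a B hB => ?_, fun κ a B hB => ?_⟩
  · rw [injective_iff_map_eq_zero]
    intro B hB
    obtain ⟨B0, B1, rfl⟩ := decomp B
    rw [evE_decomp] at hB
    have h0 := congrArg TrivSqZeroExt.fst hB
    have h1 := congrArg TrivSqZeroExt.snd hB
    simp only [TrivSqZeroExt.fst_add, TrivSqZeroExt.snd_add, TrivSqZeroExt.fst_inl,
      TrivSqZeroExt.fst_inr, TrivSqZeroExt.snd_inl, TrivSqZeroExt.snd_inr, add_zero, zero_add,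
      TrivSqZeroExt.fst_zero, TrivSqZeroExt.snd_zero] at h0 h1
    rw [(map_eq_zero_iff _ (inj0 κ)).1 h0, (map_eq_zero_iff _ (inj0 κ)).1 h1]
    simp
  · have h : B ≠ 0 := by
      rintro rfl
      simp at hB
    rw [isUnit_iff_ne_zero]
    exact fun h' => h ((map_eq_zero_iff _ (inj0 κ)).1 h')
  · obtain ⟨B0, B1, rfl⟩ := decomp B
    rw [TrivSqZeroExt.isUnit_iff_isUnit_fst] at hB ⊢
    rw [eval_fst] at hB
    have h : B0 ≠ 0 := by
      rintro rfl
      simp at hB
    rw [evE_decomp, TrivSqZeroExt.fst_add, TrivSqZeroExt.fst_inl, TrivSqZeroExt.fst_inr, add_zero,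
      isUnit_iff_ne_zero]
    exact fun h' => h ((map_eq_zero_iff _ (inj0 κ)).1 h')

end RC
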