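import Pool.Agent.Work.MP_0ac1ea_ag.RC.HStmts

/-!
# Item K1: field of definition
-/

set_option autoImplicit false

open MvPolynomial

namespace RC

namespace NHK1

variable {M : ℕ}

/-- a `k`-linear functional applied to the coefficients -/
private noncomputable def Lam (k : Subfield ℂ) (lam : ℂ →ₗ[k] k) (h : MvPolynomial (Fin M) ℂ) :
    MvPolynomial (Fin M) k :=
  ∑ m ∈ h.support, monomial m (lam (coeff m h))

private theorem coeff_Lam (k : Subfield ℂ) (lam : ℂ →ₗ[k] k) (h : MvPolynomial (Fin M) ℂ)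
    (m : Fin M →₀ ℕ) : coeff m (Lam k lam h) = lam (coeff m h) := by
  classical
  unfold Lam
  rw [coeff_sum]
  simp only [coeff_monomial]
  rw [Finset.sum_ite_eq']
  split_ifs with hm
  · rfl
  · rw [notMem_support_iff.1 hm, map_zero]

private theorem Lam_add (k : Subfield ℂ) (lam : ℂ →ₗ[k] k) (f g : MvPolynomial (Fin M) ℂ) :
    Lam k lam (f + g) = Lam k lam f + Lam k lam g := by
  refine MvPolynomial.ext _ _ fun m => ?_
  rw [coeff_add, coeff_Lam, coeff_Lam, coeff_Lam, coeff_add, map_add]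

private theorem Lam_zero (k : Subfield ℂ) (lam : ℂ →ₗ[k] k) :
    Lam k lam (0 : MvPolynomial (Fin M) ℂ) = 0 := by
  refine MvPolynomial.ext _ _ fun m => ?_
  rw [coeff_Lam, coeff_zero, coeff_zero, map_zero]

private theorem Lam_mul (k : Subfield ℂ) (lam : ℂ →ₗ[k] k) (h : MvPolynomial (Fin M) ℂ)
    (G : MvPolynomial (Fin M) k) :
    Lam k lam (h * MvPolynomial.map (algebraMap k ℂ) G) = Lam k lam h * G := by
  classical
  refine MvPolynomial.ext _ _ fun m => ?_
  rw [coeff_Lam, coeff_mul, coeff_mul, map_sum]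
  refine Finset.sum_congr rfl fun x _ => ?_
  rw [coeff_Lam, coeff_map]
  have h1 : coeff x.1 h * (algebraMap k ℂ) (coeff x.2 G) = (coeff x.2 G) • coeff x.1 h := by
    rw [Algebra.smul_def, mul_comm]
  rw [h1, map_smul, smul_eq_mul, mul_comm]

private theorem aeval_map' (k : Subfield ℂ) (K : Type) [Field K] [Algebra ℂ K] (y : Fin M → K)
    (G : MvPolynomial (Fin M) k) :
    (aeval y (MvPolynomial.map (algebraMap k ℂ) G) : K) = aeval y G := by
  rw [aeval_map_algebraMap]

private theorem step0 (k : Subfield ℂ) (K : Type) [Field K] [Algebra ℂ K] (y : Fin M → K)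
    (gs : Finset (MvPolynomial (Fin M) ℂ))
    (hgs : Ideal.span (gs : Set (MvPolynomial (Fin M) ℂ)) =
      RingHom.ker (aeval y : MvPolynomial (Fin M) ℂ →ₐ[ℂ] K))
    (hk : ∀ g ∈ gs, ∀ m, coeff m g ∈ k) (lam : ℂ →ₗ[k] k) (F : MvPolynomial (Fin M) ℂ)
    (hF : (aeval y F : K) = 0) : (aeval y (Lam k lam F) : K) = 0 := by
  have hF' : F ∈ Ideal.span (gs : Set (MvPolynomial (Fin M) ℂ)) := by
    rw [hgs]; exact hF
  have key : ∀ a : MvPolynomial (Fin M) ℂ, (aeval y (Lam k lam (a * F)) : K) = 0 := by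
    refine Submodule.span_induction (p := fun f _ => ∀ a : MvPolynomial (Fin M) ℂ,
      (aeval y (Lam k lam (a * f)) : K) = 0) ?_ ?_ ?_ ?_ hF'
    · intro g hg a
      have hg' : (aeval y g : K) = 0 := by
        have : g ∈ RingHom.ker (aeval y : MvPolynomial (Fin M) ℂ →ₐ[ℂ] K) := by
          rw [← hgs]; exact Ideal.subset_span hg
        exact this
      have hmem : g ∈ Set.range (MvPolynomial.map (algebraMap k ℂ) :
          MvPolynomial (Fin M) k →+* MvPolynomial (Fin M) ℂ) := by
        rw [MvPolynomial.mem_range_map_iff_coeffs_subset]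
        intro z hz
        obtain ⟨m, hm⟩ := (MvPolynomial.mem_coeffs_iff.1 hz)
        rw [hm.2]
        exact ⟨⟨_, hk g hg m⟩, rfl⟩
      obtain ⟨G, rfl⟩ := hmem
      rw [Lam_mul, map_mul, ← aeval_map' k K y G, hg', mul_zero]
    · intro a
      rw [mul_zero, Lam_zero, map_zero]
    · intro f g _ _ hf hg a
      rw [mul_add, Lam_add, map_add, hf, hg, add_zero]
    · intro b f _ hf a
      rw [smul_eq_mul, ← mul_assoc]
      exact hf _
  simpa using key 1

private theorem step1 (k : Subfield ℂ) (K : Type) [Field K] [Algebra ℂ K] (y : Fin M → K)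
    (gs : Finset (MvPolynomial (Fin M) ℂ))
    (hgs : Ideal.span (gs : Set (MvPolynomial (Fin M) ℂ)) =
      RingHom.ker (aeval y : MvPolynomial (Fin M) ℂ →ₐ[ℂ] K))
    (hk : ∀ g ∈ gs, ∀ m, coeff m g ∈ k) (n : ℕ) (P : Fin n → MvPolynomial (Fin M) k)
    (hP : LinearIndependent k fun i => (aeval y (P i) : K)) :
    LinearIndependent ℂ fun i => (aeval y (P i) : K) := by
  rw [Fintype.linearIndependent_iff] at hP ⊢
  intro c hc i
  rw [← Module.forall_dual_apply_eq_zero_iff k (c i)]
  intro lam
  have h0 : (aeval y (∑ i, C (c i) * MvPolynomial.map (algebraMap k ℂ) (P i)) : K) = 0 := by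
    rw [map_sum, ← hc]
    refine Finset.sum_congr rfl fun i _ => ?_
    rw [map_mul, aeval_map', aeval_C, Algebra.smul_def]
  have h1 := step0 k K y gs hgs hk lam _ h0
  have h2 : Lam k lam (∑ i, C (c i) * MvPolynomial.map (algebraMap k ℂ) (P i)) =
      ∑ i, C (lam (c i)) * P i := by
    have hs : ∀ s : Finset (Fin n), Lam k lam (∑ i ∈ s, C (c i) *
        MvPolynomial.map (algebraMap k ℂ) (P i)) = ∑ i ∈ s, C (lam (c i)) * P i := by
      intro s
      classical
      induction s using Finset.induction_on with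
      | empty => simp [Lam_zero]
      | insert a s ha ih =>
        rw [Finset.sum_insert ha, Finset.sum_insert ha, Lam_add, ih, Lam_mul]
        congr 2
        refine MvPolynomial.ext _ _ fun m => ?_
        rw [coeff_Lam, coeff_C, coeff_C]
        split_ifs
        · rfl
        · exact map_zero _
    exact hs _
  rw [h2] at h1
  refine hP (fun i => lam (c i)) ?_ i
  rw [← h1, map_sum]
  refine Finset.sum_congr rfl fun i _ => ?_
  rw [map_mul, aeval_C, Algebra.smul_def]

private theorem step2 (k : Subfield ℂ) (K : Type) [Field K] [Algebra ℂ K] (y : Fin M → K)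
    (gs : Finset (MvPolynomial (Fin M) ℂ))
    (hgs : Ideal.span (gs : Set (MvPolynomial (Fin M) ℂ)) =
      RingHom.ker (aeval y : MvPolynomial (Fin M) ℂ →ₐ[ℂ] K))
    (hk : ∀ g ∈ gs, ∀ m, coeff m g ∈ k) : LD k y := by
  classical
  intro n v hv hlin
  have hv' : ∀ i, ∃ r s : MvPolynomial (Fin M) k, v i = aeval y r / aeval y s := by
    intro i
    exact (IntermediateField.mem_adjoin_range_iff k y (v i)).1 (hv i)
  choose r s hrs using hv'
  have hs : ∀ i, (aeval y (s i) : K) ≠ 0 := by
    intro i h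
    apply hlin.ne_zero i
    rw [hrs i, h, div_zero]
  set S : K := ∏ i, aeval y (s i) with hS
  have hS0 : S ≠ 0 := Finset.prod_ne_zero_iff.2 fun i _ => hs i
  have hb : ∀ i, (aeval y (r i * ∏ j ∈ Finset.univ.erase i, s j) : K) = S * v i := by
    intro i
    rw [map_mul, map_prod, hrs i, hS, ← Finset.mul_prod_erase Finset.univ _ (Finset.mem_univ i)]
    field_simp [hs i]
  have hlin' : LinearIndependent k fun i => (aeval y (r i * ∏ j ∈ Finset.univ.erase i, s j) : K) := by
    have h1 := hlin.map' (LinearMap.mulLeft k S) (by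
      rw [LinearMap.ker_eq_bot]
      intro a b hab
      exact mul_left_cancel₀ hS0 hab)
    have h2 : (fun i => (aeval y (r i * ∏ j ∈ Finset.univ.erase i, s j) : K)) =
        (LinearMap.mulLeft k S) ∘ v := by
      funext i
      exact hb i
    rw [h2]
    exact h1
  have h3 := step1 k K y gs hgs hk n _ hlin'
  have h2 : (fun i => (aeval y (r i * ∏ j ∈ Finset.univ.erase i, s j) : K)) =
      (LinearMap.mulLeft ℂ S) ∘ v := by
    funext i
    exact hb i
  rw [h2] at h3
  exact LinearIndependent.of_comp _ h3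

end NHK1

open NHK1 in
theorem pr_K1 (acl : S_ACL) : S_K1 := by
  classical
  intro K _ _ M y C
  obtain ⟨gs, hgs⟩ := (isNoetherianRing_iff_ideal_fg (MvPolynomial (Fin M) ℂ)).1 inferInstance
    (RingHom.ker (aeval y : MvPolynomial (Fin M) ℂ →ₐ[ℂ] K))
  obtain ⟨k, hk, hac, hc⟩ := acl ((C : Set ℂ) ∪ ⋃ g ∈ gs, (g.coeffs : Set ℂ)) (by
    refine (Finset.countable_toSet C).union ?_
    refine Set.Countable.biUnion (Finset.countable_toSet gs) fun g _ => ?_
    exact Finset.countable_toSet _)
  refine ⟨k, hac, hc, fun z hz => hk (Or.inl hz), step2 k K y gs hgs fun g hg m => ?_⟩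
  by_cases h0 : coeff m g = 0
  · rw [h0]; exact k.zero_mem
  · refine hk (Or.inr ?_)
    refine Set.mem_biUnion hg ?_
    exact MvPolynomial.coeff_mem_coeffs m h0

end RC
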