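import Pool.Agent.Work.MP_0ac1ea_ag.RC.HStmts

/-!
# Block H, item LIFT: points and tangent vectors in a chart
-/

set_option autoImplicit false

open AlgebraicGeometry CategoryTheory Limits Polynomial

namespace RC

namespace NHLIFT

theorem sp_injective {R S : Type} [CommRing R] [CommRing S] {φ ψ : R →+* S}
    (h : sp φ = sp ψ) : φ = ψ := by
  have h1 := Spec.map_injective h
  exact congrArg CommRingCat.Hom.hom h1

theorem exists_sp {R S : Type} [CommRing R] [CommRing S] (f : Spec (.of S) ⟶ Spec (.of R)) :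
    ∃ φ : R →+* S, f = sp φ := by
  refine ⟨(Spec.preimage f).hom, ?_⟩
  rw [sp]
  exact (Spec.map_preimage f).symm

theorem subsing_C : Subsingleton ↥SpecC :=
  inferInstanceAs (Subsingleton (PrimeSpectrum ℂ))

theorem subsing_E : Subsingleton ↥SpecE := by
  refine (show Subsingleton (PrimeSpectrum (DualNumber ℂ)) from ⟨fun p q => ?_⟩)
  have h : ∀ p : PrimeSpectrum (DualNumber ℂ), p.asIdeal = Ideal.span {DualNumber.eps} := by
    intro p
    have hp := p.2
    rcases DualNumber.ideal_trichotomy p.asIdeal with h | h | h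
    · exfalso
      have h1 : (DualNumber.eps : DualNumber ℂ) * DualNumber.eps ∈ p.asIdeal := by
        rw [DualNumber.eps_mul_eps]; exact Ideal.zero_mem _
      have h2 : (DualNumber.eps : DualNumber ℂ) ∈ p.asIdeal := by
        rcases hp.mem_or_mem h1 with h2 | h2 <;> exact h2
      rw [h] at h2
      have h3 : (DualNumber.eps : DualNumber ℂ) = 0 := h2
      have := congrArg TrivSqZeroExt.snd h3
      simp at this
    · exact h
    · exact absurd h hp.ne_top
  exact PrimeSpectrum.ext ((h p).trans (h q).symm)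

end NHLIFT

open NHLIFT in
theorem pr_LIFT : S_LIFT := by
  intro X π K _ _ ι A c hc
  constructor
  · intro x hx
    have := subsing_C
    obtain ⟨s0⟩ : Nonempty ↥SpecC := inferInstanceAs (Nonempty (PrimeSpectrum ℂ))
    obtain ⟨i, hi⟩ := hc.covers (x s0)
    have := hc.isOpen i
    have hr : Set.range x ⊆ Set.range (c i) := by
      rintro _ ⟨s, rfl⟩
      rw [Subsingleton.elim s s0]; exact hi
    obtain ⟨φ, hφ⟩ := exists_sp (IsOpenImmersion.lift (c i) x hr)
    have hfac := IsOpenImmersion.lift_fac (c i) x hr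
    rw [hφ] at hfac
    have hlin : φ.comp (algebraMap ℂ (A i)) = RingHom.id ℂ := by
      apply sp_injective
      rw [sp_comp, ← hc.isOver i, ← Category.assoc, hfac, hx]
      exact (Spec.map_id _).symm
    refine ⟨i, { φ with commutes' := fun z => ?_ }, hfac.symm⟩
    exact RingHom.congr_fun hlin z
  · intro i z v hv
    have := subsing_C
    have := subsing_E
    have := hc.isOpen i
    obtain ⟨s0⟩ : Nonempty ↥SpecC := inferInstanceAs (Nonempty (PrimeSpectrum ℂ))
    have hr : Set.range v ⊆ Set.range (c i) := by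
      rintro _ ⟨s, rfl⟩
      rw [Subsingleton.elim s (ptE s0)]
      have h1 : v (ptE s0) = (ptE ≫ v) s0 := rfl
      rw [h1, hv.2]
      exact ⟨sp (z : A i →+* ℂ) s0, rfl⟩
    obtain ⟨φ, hφ⟩ := exists_sp (IsOpenImmersion.lift (c i) v hr)
    have hfac := IsOpenImmersion.lift_fac (c i) v hr
    rw [hφ] at hfac
    have hlin : φ.comp (algebraMap ℂ (A i)) = algebraMap ℂ (DualNumber ℂ) := by
      apply sp_injective
      rw [sp_comp, ← hc.isOver i, ← Category.assoc, hfac, hv.1]
      rfl
    have hfst : (TrivSqZeroExt.fstHom ℂ ℂ ℂ).toRingHom.comp φ = (z : A i →+* ℂ) := by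
      apply sp_injective
      rw [← cancel_mono (c i), ← hv.2, ← hfac, sp_comp, Category.assoc]
      rfl
    refine ⟨{ φ with commutes' := fun z => ?_ }, hfac.symm, fun a => ?_⟩
    · exact RingHom.congr_fun hlin z
    · exact RingHom.congr_fun hfst a

end RC
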