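import Pool.Agent.Work.MP_0ac1ea_ag.RC.HStmts

/-!
# Item LOCREG: functions on a chart are regular along the curve
-/

set_option autoImplicit false

open AlgebraicGeometry CategoryTheory Limits Polynomial

namespace RC

namespace NHLOCREG

theorem sp_inj {R S : Type} [CommRing R] [CommRing S] {f g : R →+* S} (h : sp f = sp g) :
    f = g := by
  have h1 := Spec.map_injective h
  exact congrArg CommRingCat.Hom.hom h1

theorem sp_surj {R S : Type} [CommRing R] [CommRing S] (f : Spec (.of S) ⟶ Spec (.of R)) :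
    ∃ φ : R →+* S, sp φ = f :=
  ⟨(Spec.preimage f).hom, Spec.map_preimage f⟩

theorem evE_ne_zero (κ : Fin 2) (p : ℂ[X]) (hp : p ≠ 0) : evE RatFunc.C uR κ p ≠ 0 := by
  have h0 : ∀ q : ℂ[X], q ≠ 0 → eval₂ RatFunc.C (RatFunc.X : RatFunc ℂ) q ≠ 0 := by
    intro q hq
    have e : eval₂ RatFunc.C (RatFunc.X : RatFunc ℂ) q = algebraMap ℂ[X] (RatFunc ℂ) q := by
      rw [← RatFunc.algebraMap_X]
      have : (RatFunc.C : ℂ →+* RatFunc ℂ) = (algebraMap ℂ[X] (RatFunc ℂ)).comp Polynomial.C := by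
        ext x
        simp
      rw [this, ← Polynomial.hom_eval₂, Polynomial.eval₂_C_X]
    rw [e]
    exact RatFunc.algebraMap_ne_zero hq
  rcases (show κ = 0 ∨ κ = 1 by fin_cases κ <;> simp) with rfl | rfl
  · exact h0 p hp
  · show eval₂ RatFunc.C (((uR⁻¹ : (RatFunc ℂ)ˣ) : RatFunc ℂ)) p ≠ 0
    have hX : (RatFunc.X : RatFunc ℂ) ≠ 0 := RatFunc.X_ne_zero
    have e1 : ((uR⁻¹ : (RatFunc ℂ)ˣ) : RatFunc ℂ) = RatFunc.X⁻¹ := by
      rw [Units.val_inv_eq_inv_val]
      rfl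
    rw [e1]
    let _ : Invertible (RatFunc.X⁻¹ : RatFunc ℂ) :=
      ⟨RatFunc.X, mul_inv_cancel₀ hX, inv_mul_cancel₀ hX⟩
    rw [← eval₂_reverse_mul_pow RatFunc.C (RatFunc.X⁻¹ : RatFunc ℂ) p]
    refine mul_ne_zero ?_ (pow_ne_zero _ (inv_ne_zero hX))
    exact h0 _ (fun h => hp (Polynomial.reverse_eq_zero.1 h))

end NHLOCREG

open NHLOCREG in
theorem pr_LOCREG : S_LOCREG := by
  intro X π K _ _ ι A c hA f hf κ a i z hz g hg r
  have : IsOpenImmersion (c i) := hA.isOpen i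
  -- the chart of the curve
  let F : Spec (.of ℂ[X]) ⟶ X := chart ℂ κ ≫ f
  let x0 : PrimeSpectrum ℂ := ⊥
  let y0 : PrimeSpectrum ℂ[X] := PrimeSpectrum.comap (Polynomial.evalRingHom a) x0
  let F1 : PrimeSpectrum ℂ[X] → X := fun y => F y
  have hF1 : Continuous F1 := F.continuous
  have hO : IsOpen (F1 ⁻¹' Set.range (c i)) := (c i).opensRange.2.preimage hF1
  have hy0 : y0 ∈ F1 ⁻¹' Set.range (c i) := by
    show F1 y0 ∈ Set.range (c i)
    have h1 : (pt κ a ≫ f) x0 = (sp (z : A i →+* ℂ) ≫ c i) x0 := by rw [hz]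
    refine ⟨sp (z : A i →+* ℂ) x0, ?_⟩
    rw [← Scheme.Hom.comp_apply, ← h1]
    rfl
  obtain ⟨B, hB1, hB2⟩ : ∃ B : ℂ[X], y0 ∈ PrimeSpectrum.basicOpen B ∧
      ∀ y : PrimeSpectrum ℂ[X], y ∈ PrimeSpectrum.basicOpen B → F1 y ∈ Set.range (c i) := by
    obtain ⟨V, ⟨B, rfl⟩, h1, h2⟩ :=
      PrimeSpectrum.isTopologicalBasis_basic_opens.exists_subset_of_mem_open hy0 hO
    exact ⟨B, h1, fun y hy => h2 hy⟩
  have hBa : B.eval a ≠ 0 := by
    rw [PrimeSpectrum.mem_basicOpen] at hB1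
    intro h
    apply hB1
    show Polynomial.evalRingHom a B ∈ (⊥ : PrimeSpectrum ℂ).asIdeal
    rw [Polynomial.coe_evalRingHom, h]
    exact Ideal.zero_mem _
  have hB0 : B ≠ 0 := by
    rintro rfl
    simp at hBa
  let L := Localization.Away B
  let F' : Spec (.of L) ⟶ X := sp (algebraMap ℂ[X] L) ≫ F
  have hrange : Set.range F' ⊆ Set.range (c i) := by
    rintro _ ⟨y, rfl⟩
    rw [Scheme.Hom.comp_apply]
    refine hB2 (PrimeSpectrum.comap (algebraMap ℂ[X] L) y) ?_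
    have h1 : (PrimeSpectrum.comap (algebraMap ℂ[X] L) y) ∈
        Set.range (PrimeSpectrum.comap (algebraMap ℂ[X] L)) := ⟨y, rfl⟩
    rw [PrimeSpectrum.localization_away_comap_range L B] at h1
    exact h1
  obtain ⟨e, he⟩ := sp_surj (IsOpenImmersion.lift (c i) F' hrange)
  have he2 : sp e ≫ c i = sp (algebraMap ℂ[X] L) ≫ chart ℂ κ ≫ f := by
    rw [he, IsOpenImmersion.lift_fac]
  -- the two specialisations
  have hu1 : IsUnit (evE RatFunc.C uR κ B) := (evE_ne_zero κ B hB0).isUnit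
  have hu2 : IsUnit (Polynomial.evalRingHom a B) := by
    rw [Polynomial.coe_evalRingHom]
    exact hBa.isUnit
  let h : L →+* RatFunc ℂ := IsLocalization.Away.lift B hu1
  let k : L →+* ℂ := IsLocalization.Away.lift B hu2
  have hh : h.comp (algebraMap ℂ[X] L) = evE RatFunc.C uR κ := IsLocalization.Away.lift_comp B hu1
  have hk : k.comp (algebraMap ℂ[X] L) = Polynomial.evalRingHom a :=
    IsLocalization.Away.lift_comp B hu2
  have hh2 : sp h ≫ sp (algebraMap ℂ[X] L) = sp (evE RatFunc.C uR κ) := by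
    rw [← hh]
    exact (sp_comp (algebraMap ℂ[X] L) h).symm
  have hk2 : sp k ≫ sp (algebraMap ℂ[X] L) = sp (Polynomial.evalRingHom a) := by
    rw [← hk]
    exact (sp_comp (algebraMap ℂ[X] L) k).symm
  have h1 : h.comp e = g := by
    apply sp_inj
    rw [← cancel_mono (c i), sp_comp e h, Category.assoc, he2, ← hg, gen, ← gE_eq RatFunc.C uR κ,
      ← hh2, Category.assoc, Category.assoc]
  have h2 : k.comp e = (z : A i →+* ℂ) := by
    apply sp_inj
    rw [← cancel_mono (c i), sp_comp e k, Category.assoc, he2, ← hz, pt, ← hk2,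
      Category.assoc, Category.assoc]
  obtain ⟨n, A0, hA0⟩ := IsLocalization.Away.surj B (e r)
  refine ⟨A0, B ^ n, ?_, ?_, ?_⟩
  · rw [Polynomial.eval_pow]
    exact pow_ne_zero _ hBa
  · rw [← h1, ← hh]
    rw [RingHom.comp_apply, RingHom.comp_apply, RingHom.comp_apply, ← map_mul, map_pow, hA0]
  · have h3 := congrArg k hA0
    rw [map_mul, map_pow] at h3
    have h4 : k (algebraMap ℂ[X] L B) = B.eval a := congrArg (fun φ => φ B) hk
    have h5 : k (algebraMap ℂ[X] L A0) = A0.eval a := congrArg (fun φ => φ A0) hk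
    have h6 : k (e r) = z r := congrArg (fun φ => φ r) h2
    rw [h4, h5, h6] at h3
    rw [Polynomial.eval_pow]
    exact h3.symm

end RC
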