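import Pool.Agent.Work.MP_0ac1ea_ag.RC.H_REGK

/-!
# Moebius transformations
-/

open Polynomial

namespace RC

namespace NHMOB2

/-- homogenisation of degree `n` -/
noncomputable def hg {S : Type} [CommRing S] (φ : ℂ →+* S) (n : ℕ) (A : ℂ[X]) (w0 w1 : S) : S :=
  ∑ i ∈ Finset.range (n + 1), φ (A.coeff i) * w1 ^ i * w0 ^ (n - i)

theorem hg_one {S : Type} [CommRing S] (φ : ℂ →+* S) (n : ℕ) (A : ℂ[X]) (hA : A.natDegree ≤ n)
    (x : S) : hg φ n A 1 x = eval₂ φ x A := by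
  rw [hg, eval₂_eq_sum_range' φ (Nat.lt_succ_of_le hA)]
  simp

theorem hg_smul {S : Type} [CommRing S] (φ : ℂ →+* S) (n : ℕ) (A : ℂ[X]) (c w0 w1 : S) :
    hg φ n A (c * w0) (c * w1) = c ^ n * hg φ n A w0 w1 := by
  rw [hg, hg, Finset.mul_sum]
  refine Finset.sum_congr rfl fun i hi => ?_
  have hi' : i ≤ n := Nat.lt_succ_iff.1 (Finset.mem_range.1 hi)
  have : c ^ n = c ^ i * c ^ (n - i) := by rw [← pow_add]; congr 1; omega
  rw [this, mul_pow, mul_pow]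
  ring

theorem hg_reflect {S : Type} [CommRing S] (φ : ℂ →+* S) (n : ℕ) (A : ℂ[X]) (w0 w1 : S) :
    hg φ n (reflect n A) w0 w1 = hg φ n A w1 w0 := by
  rw [hg, hg, ← Finset.sum_range_reflect]
  refine Finset.sum_congr rfl fun i hi => ?_
  have hi' : i ≤ n := Nat.lt_succ_iff.1 (Finset.mem_range.1 hi)
  have h1 : n + 1 - 1 - i = n - i := by omega
  have h2 : n - (n - i) = i := by omega
  rw [h1, h2, coeff_reflect, revAt_le (Nat.sub_le n i), h2]
  ring

theorem hg_map {S S' : Type} [CommRing S] [CommRing S'] (φ : ℂ →+* S) (ψ : S →+* S') (n : ℕ)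
    (A : ℂ[X]) (w0 w1 : S) : ψ (hg φ n A w0 w1) = hg (ψ.comp φ) n A (ψ w0) (ψ w1) := by
  rw [hg, hg, map_sum]
  refine Finset.sum_congr rfl fun i _ => ?_
  rw [map_mul, map_mul, map_pow, map_pow]
  rfl

theorem hg_div {S : Type} [Field S] (φ : ℂ →+* S) (n : ℕ) (A : ℂ[X]) (hA : A.natDegree ≤ n)
    (w0 w1 : S) (h0 : w0 ≠ 0) : eval₂ φ (w1 / w0) A * w0 ^ n = hg φ n A w0 w1 := by
  rw [← hg_one φ n A hA, mul_comm, ← hg_smul, mul_one, mul_div_cancel₀ _ h0]

/-- the transformed polynomial -/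
noncomputable def tr (α β γ δ : ℂ) (n : ℕ) (A : ℂ[X]) : ℂ[X] :=
  hg (C : ℂ →+* ℂ[X]) n A (C γ * X + C δ) (C α * X + C β)

theorem tr_eval (α β γ δ : ℂ) (n : ℕ) (A : ℂ[X]) (p : ℂ) :
    (tr α β γ δ n A).eval p = hg (RingHom.id ℂ) n A (γ * p + δ) (α * p + β) := by
  rw [tr, ← coe_evalRingHom, hg_map]
  congr 1
  · ext; simp
  · simp
  · simp

theorem lin_natDegree (a b : ℂ) : (C a * X + C b : ℂ[X]).natDegree ≤ 1 := natDegree_linear_le

theorem lin_pow_natDegree (a b : ℂ) (i : ℕ) : ((C a * X + C b : ℂ[X]) ^ i).natDegree ≤ i := by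
  have := natDegree_pow_le_of_le i (lin_natDegree a b)
  simpa using this

theorem lin_pow_coeff (a b : ℂ) (i : ℕ) : ((C a * X + C b : ℂ[X]) ^ i).coeff i = a ^ i := by
  have := coeff_pow_of_natDegree_le (m := i) (lin_natDegree a b)
  simpa using this

theorem tr_natDegree (α β γ δ : ℂ) (n : ℕ) (A : ℂ[X]) : (tr α β γ δ n A).natDegree ≤ n := by
  rw [tr, hg]
  refine natDegree_sum_le_of_forall_le _ _ fun i hi => ?_
  have hi' : i ≤ n := Nat.lt_succ_iff.1 (Finset.mem_range.1 hi)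
  rw [mul_assoc]
  refine (natDegree_C_mul_le _ _).trans ?_
  refine (natDegree_mul_le_of_le (lin_pow_natDegree _ _ _) (lin_pow_natDegree _ _ _)).trans ?_
  omega

theorem tr_coeff (α β γ δ : ℂ) (n : ℕ) (A : ℂ[X]) :
    (tr α β γ δ n A).coeff n = hg (RingHom.id ℂ) n A γ α := by
  rw [tr, hg, hg, finsetSum_coeff]
  refine Finset.sum_congr rfl fun i hi => ?_
  have hi' : i ≤ n := Nat.lt_succ_iff.1 (Finset.mem_range.1 hi)
  rw [mul_assoc, coeff_C_mul]
  have h := coeff_mul_add_eq_of_natDegree_le (lin_pow_natDegree α β i) (lin_pow_natDegree γ δ (n - i))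
  rw [show i + (n - i) = n by omega] at h
  rw [h, lin_pow_coeff, lin_pow_coeff, RingHom.id_apply, mul_assoc]

/-- regularity in homogeneous coordinates -/
def RegH (r : RatFunc ℂ) (w0 w1 v : ℂ) : Prop :=
  ∃ (n : ℕ) (A B : ℂ[X]), A.natDegree ≤ n ∧ B.natDegree ≤ n ∧
    hg (RingHom.id ℂ) n B w0 w1 ≠ 0 ∧
    r * algebraMap ℂ[X] (RatFunc ℂ) B = algebraMap ℂ[X] (RatFunc ℂ) A ∧
    hg (RingHom.id ℂ) n A w0 w1 = v * hg (RingHom.id ℂ) n B w0 w1

theorem regH_smul {r : RatFunc ℂ} {w0 w1 v : ℂ} (c : ℂ) (hc : c ≠ 0) (h : RegH r w0 w1 v) :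
    RegH r (c * w0) (c * w1) v := by
  obtain ⟨n, A, B, hA, hB, hB0, hr, hv⟩ := h
  refine ⟨n, A, B, hA, hB, ?_, hr, ?_⟩
  · rw [hg_smul]; exact mul_ne_zero (pow_ne_zero _ hc) hB0
  · rw [hg_smul, hg_smul, hv]; ring

theorem natDegree_reflect_le (n : ℕ) (p : ℂ[X]) (hp : p.natDegree ≤ n) :
    (reflect n p).natDegree ≤ n := by
  rw [natDegree_le_iff_coeff_eq_zero]
  intro N hN
  rw [coeff_reflect, revAt_eq_self_of_lt hN]
  exact coeff_eq_zero_of_natDegree_lt (lt_of_le_of_lt hp hN)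

theorem regH_of_regK {κ : Fin 2} {r : RatFunc ℂ} {a v : ℂ} (h : RegK κ r a v) :
    RegH r (vec κ a).1 (vec κ a).2 v := by
  obtain ⟨A, B, hB, hr, hv⟩ := h
  set n := max A.natDegree B.natDegree with hn
  have hA' : A.natDegree ≤ n := le_max_left _ _
  have hB' : B.natDegree ≤ n := le_max_right _ _
  have hev : ∀ P : ℂ[X], P.natDegree ≤ n → hg (RingHom.id ℂ) n P 1 a = P.eval a := by
    intro P hP
    rw [hg_one _ _ _ hP, eval₂_id]
  rcases (show κ = 0 ∨ κ = 1 by fin_cases κ <;> simp) with rfl | rfl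
  · refine ⟨n, A, B, hA', hB', ?_, ?_, ?_⟩
    · simp only [vec, if_true]
      rw [hev B hB']; exact hB
    · rw [NHREGK.evE_zero, NHREGK.evE_zero] at hr
      exact hr
    · simp only [vec, if_true]
      rw [hev B hB', hev A hA']; exact hv
  · refine ⟨n, reflect n A, reflect n B, natDegree_reflect_le n A hA',
      natDegree_reflect_le n B hB', ?_, ?_, ?_⟩
    · simp only [vec, one_ne_zero, if_false]
      rw [hg_reflect, hev B hB']; exact hB
    · rw [← NHREGK.evE_one_reflect n _ (natDegree_reflect_le n A hA'),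
        ← NHREGK.evE_one_reflect n _ (natDegree_reflect_le n B hB'), reflect_reflect,
        reflect_reflect, ← mul_assoc, hr]
    · simp only [vec, one_ne_zero, if_false]
      rw [hg_reflect, hg_reflect, hev B hB', hev A hA']; exact hv

theorem exists_vec (w0 w1 : ℂ) (h : w0 ≠ 0 ∨ w1 ≠ 0) : ∃ (κ : Fin 2) (a c : ℂ), c ≠ 0 ∧
    w0 = c * (vec κ a).1 ∧ w1 = c * (vec κ a).2 := by
  by_cases h0 : w0 = 0
  · have h1 : w1 ≠ 0 := by
      rcases h with h | h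
      · exact absurd h0 h
      · exact h
    refine ⟨1, 0, w1, h1, ?_, ?_⟩
    · simp [vec, h0]
    · simp [vec]
  · refine ⟨0, w1 / w0, w0, h0, ?_, ?_⟩
    · simp [vec]
    · simp [vec, mul_div_cancel₀ _ h0]

section

variable (α β γ δ : ℂ)

/-- the Moebius transformation -/
noncomputable def mu : RatFunc ℂ :=
  algebraMap ℂ[X] (RatFunc ℂ) (C α * X + C β) / algebraMap ℂ[X] (RatFunc ℂ) (C γ * X + C δ)

variable {α β γ δ}

theorem den_ne (hdet : α * δ - β * γ ≠ 0) : (C γ * X + C δ : ℂ[X]) ≠ 0 := by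
  intro h
  apply hdet
  have h1 := congrArg (fun p => p.coeff 1) h
  have h0 := congrArg (fun p => p.coeff 0) h
  simp at h1 h0
  rw [h1, h0]; ring

theorem mu_trans (hdet : α * δ - β * γ ≠ 0) (p : ℂ[X]) (hp : p ≠ 0) :
    eval₂ (RatFunc.C : ℂ →+* RatFunc ℂ) (mu α β γ δ) p ≠ 0 := by
  intro h
  have halg : IsAlgebraic ℂ (mu α β γ δ) := by
    refine ⟨p, hp, ?_⟩
    rw [aeval_def]
    exact h
  have h2 : IsIntegral ℂ (mu α β γ δ) := halg.isIntegral
  obtain ⟨t, ht⟩ := minpoly.mem_range_of_degree_eq_one ℂ (mu α β γ δ)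
    (IsAlgClosed.degree_eq_one_of_irreducible ℂ (minpoly.irreducible h2))
  have hne : algebraMap ℂ[X] (RatFunc ℂ) (C γ * X + C δ) ≠ 0 := by
    exact (map_ne_zero_iff _ (RatFunc.algebraMap_injective ℂ)).2 (den_ne hdet)
  have h3 : algebraMap ℂ[X] (RatFunc ℂ) (C t * (C γ * X + C δ)) =
      algebraMap ℂ[X] (RatFunc ℂ) (C α * X + C β) := by
    rw [mu, eq_div_iff hne] at ht
    rw [map_mul, ← ht]
    rfl
  have h4 := RatFunc.algebraMap_injective ℂ h3
  apply hdet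
  have h1 := congrArg (fun p => p.coeff 1) h4
  have h0 := congrArg (fun p => p.coeff 0) h4
  simp at h1 h0
  rw [← h1, ← h0]; ring

theorem inj (hdet : α * δ - β * γ ≠ 0) :
    Function.Injective (eval₂RingHom (RatFunc.C : ℂ →+* RatFunc ℂ) (mu α β γ δ)) := by
  rw [injective_iff_map_eq_zero]
  intro p hp
  by_contra h
  exact mu_trans hdet p h hp

/-- the automorphism of `ℂ(u)` -/
noncomputable def sg (hdet : α * δ - β * γ ≠ 0) : RatFunc ℂ →+* RatFunc ℂ :=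
  IsFractionRing.lift (A := ℂ[X]) (K := RatFunc ℂ) (inj hdet)

theorem sg_algebraMap (hdet : α * δ - β * γ ≠ 0) (p : ℂ[X]) :
    sg hdet (algebraMap ℂ[X] (RatFunc ℂ) p) =
      eval₂ (RatFunc.C : ℂ →+* RatFunc ℂ) (mu α β γ δ) p := by
  rw [sg, IsFractionRing.lift_algebraMap]; rfl

theorem sg_tr (hdet : α * δ - β * γ ≠ 0) (n : ℕ) (A : ℂ[X]) (hA : A.natDegree ≤ n) :
    sg hdet (algebraMap ℂ[X] (RatFunc ℂ) A) *
      algebraMap ℂ[X] (RatFunc ℂ) (C γ * X + C δ) ^ n =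
      algebraMap ℂ[X] (RatFunc ℂ) (tr α β γ δ n A) := by
  have hne : algebraMap ℂ[X] (RatFunc ℂ) (C γ * X + C δ) ≠ 0 := by
    exact (map_ne_zero_iff _ (RatFunc.algebraMap_injective ℂ)).2 (den_ne hdet)
  rw [sg_algebraMap, mu, hg_div _ _ _ hA _ _ hne, tr, hg_map]
  congr 1

theorem sg_eq (hdet : α * δ - β * γ ≠ 0) (n : ℕ) (A B : ℂ[X]) (hA : A.natDegree ≤ n)
    (hB : B.natDegree ≤ n) (r : RatFunc ℂ)
    (hr : r * algebraMap ℂ[X] (RatFunc ℂ) B = algebraMap ℂ[X] (RatFunc ℂ) A) :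
    sg hdet r * algebraMap ℂ[X] (RatFunc ℂ) (tr α β γ δ n B) =
      algebraMap ℂ[X] (RatFunc ℂ) (tr α β γ δ n A) := by
  rw [← sg_tr hdet n A hA, ← sg_tr hdet n B hB, ← mul_assoc, ← map_mul, hr]

theorem sg_regVal (hdet : α * δ - β * γ ≠ 0) {r : RatFunc ℂ} {p v : ℂ}
    (h : RegH r (γ * p + δ) (α * p + β) v) : RegVal (sg hdet r) p v := by
  obtain ⟨n, A, B, hA, hB, hB0, hr, hv⟩ := h
  refine ⟨tr α β γ δ n A, tr α β γ δ n B, ?_, sg_eq hdet n A B hA hB r hr, ?_⟩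
  · rw [tr_eval]; exact hB0
  · rw [tr_eval, tr_eval]; exact hv

theorem sg_regValInf (hdet : α * δ - β * γ ≠ 0) {r : RatFunc ℂ} {v : ℂ}
    (h : RegH r γ α v) : RegValInf (sg hdet r) v := by
  obtain ⟨n, A, B, hA, hB, hB0, hr, hv⟩ := h
  have hBn : (tr α β γ δ n B).natDegree = n := by
    refine le_antisymm (tr_natDegree _ _ _ _ _ _) (le_natDegree_of_ne_zero ?_)
    rw [tr_coeff]; exact hB0
  refine ⟨tr α β γ δ n A, tr α β γ δ n B, ?_, ?_, sg_eq hdet n A B hA hB r hr, ?_⟩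
  · intro h
    apply hB0
    rw [← tr_coeff α β γ δ n B, h, coeff_zero]
  · rw [hBn]; exact tr_natDegree _ _ _ _ _ _
  · rw [leadingCoeff, hBn, tr_coeff, tr_coeff]; exact hv

end

end NHMOB2

open NHMOB2 in
theorem pr_MOB2 : S_MOB2 := by
  intro κ κ' a a' hdet
  have hd : (vec κ' a').2 * (vec κ a).1 - (vec κ a).2 * (vec κ' a').1 ≠ 0 := by
    intro h
    apply hdet
    rw [detP, ← h]; ring
  refine ⟨sg hd, ?_, ?_, ?_, ?_⟩
  · intro c
    rw [← RatFunc.algebraMap_C, sg_algebraMap, eval₂_C, RatFunc.algebraMap_C]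
  · intro r v h
    refine sg_regVal hd ?_
    simpa using regH_of_regK h
  · intro r v h
    exact sg_regValInf hd (regH_of_regK h)
  · intro p
    obtain ⟨κ'', a'', c, hc, h1, h2⟩ := exists_vec ((vec κ' a').1 * p + (vec κ a).1)
      ((vec κ' a').2 * p + (vec κ a).2) (by
        by_contra hcon
        push Not at hcon
        apply hd
        linear_combination (vec κ' a').2 * hcon.1 - (vec κ' a').1 * hcon.2)
    refine ⟨κ'', a'', fun r v h => sg_regVal hd ?_⟩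
    rw [h1, h2]
    exact regH_smul c hc (regH_of_regK h)

end RC
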