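import Pool.Agent.Work.MP_0ac1ea_ag.RC.HStmts2

/-!
# Item MODEL: existence of a model over a countable algebraically closed field
-/

set_option autoImplicit false

open AlgebraicGeometry CategoryTheory Limits

namespace RC

open Classical in
theorem pr_MODEL (hATLAS : S_ATLAS) (hOV2 : S_OV2) (hOMEGA : S_OMEGA) (hLIFT : S_LIFT)
    (hK1 : S_K1) (hCOEF : S_COEF) : S_MODEL := by
  intro X π _ _ _ Ω hΩ r x hx
  obtain ⟨K, _, _, ι, _, hι, A, c, hA⟩ := hATLAS X π
  -- generators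
  have hfg : ∀ i, ∃ s : Finset K, Algebra.adjoin ℂ (s : Set K) = A i := fun i => hA.fg i
  choose s hs using hfg
  let tot : Finset K := Finset.univ.biUnion s
  let M : ℕ := tot.card
  let y : Fin M → K := fun j => (tot.equivFin.symm j : K)
  let T : ι → Finset (Fin M) := fun i => Finset.univ.filter (fun j => y j ∈ s i)
  have hyT : ∀ i, (y '' T i : Set K) = s i := by
    intro i
    ext k
    constructor
    · rintro ⟨j, hj, rfl⟩
      exact (Finset.mem_filter.mp hj).2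
    · intro hk
      have hkt : k ∈ tot := Finset.mem_biUnion.mpr ⟨i, Finset.mem_univ _, hk⟩
      refine ⟨tot.equivFin ⟨k, hkt⟩, ?_, ?_⟩
      · refine Finset.mem_filter.mpr ⟨Finset.mem_univ _, ?_⟩
        change ((tot.equivFin.symm (tot.equivFin ⟨k, hkt⟩) : tot) : K) ∈ s i
        rw [Equiv.symm_apply_apply]
        exact hk
      · change ((tot.equivFin.symm (tot.equivFin ⟨k, hkt⟩) : tot) : K) = k
        rw [Equiv.symm_apply_apply]
  have hgens : ∀ i, A i = Algebra.adjoin ℂ (y '' T i) := by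
    intro i
    rw [hyT i, hs i]
  have hyA : ∀ i, ∀ j ∈ T i, y j ∈ A i := by
    intro i j hj
    rw [hgens i]
    exact Algebra.subset_adjoin ⟨j, hj, rfl⟩
  have hycov : ∀ l : Fin M, ∃ i, y l ∈ A i := by
    intro l
    have h1 : y l ∈ tot := (tot.equivFin.symm l).2
    obtain ⟨i, _, hi⟩ := Finset.mem_biUnion.mp h1
    refine ⟨i, ?_⟩
    rw [← hs i]
    exact Algebra.subset_adjoin hi
  -- coefficients
  have hco : ∀ i (a : A i), ∃ C : Finset ℂ, ∀ k₁ : Subfield ℂ, (∀ z ∈ C, z ∈ k₁) →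
      (a : K) ∈ Algebra.adjoin k₁ (y '' T i) := fun i a =>
    hCOEF K M y (T i) (a : K) (by rw [← hgens i]; exact a.2)
  choose Cf hCf using hco
  -- points
  have hpt : ∀ t, ∃ (i : ι) (z : A i →ₐ[ℂ] ℂ), x t = sp (z : A i →+* ℂ) ≫ c i := fun t =>
    (hLIFT X π K ι A c hA).1 (x t) (hx t)
  choose ip zp hzp using hpt
  -- intersections
  choose so hso0 hsoa hsou using fun i j => hOV2 X π K ι A c hA i j
  -- fractions
  have hfr0 : ∀ i (l : Fin M), ∃ s b : A i, s ≠ 0 ∧ y l * (s : K) = b := by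
    intro i l
    obtain ⟨j, hj⟩ := hycov l
    obtain ⟨N, b, hb⟩ := hsoa i j ⟨y l, hj⟩
    exact ⟨so i j ^ N, b, pow_ne_zero _ (hso0 i j), by rw [← hb]; rfl⟩
  choose sf bf hsf0 hbf using hfr0
  -- the open set
  obtain ⟨i0⟩ := hι
  obtain ⟨m, a, b, ha, hb, hab⟩ := hOMEGA X π K ι A c hA Ω hΩ i0
  let C : Finset ℂ :=
    (Finset.univ.biUnion fun i : ι => Finset.univ.biUnion fun j : ι => Cf i (so i j)) ∪
    (Finset.univ.biUnion fun i : ι => Finset.univ.biUnion fun l : Fin M =>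
      Cf i (sf i l) ∪ Cf i (bf i l)) ∪
    (Finset.univ.biUnion fun r : Fin m => Cf i0 (a r) ∪ Cf i0 (b r)) ∪
    (Finset.univ.biUnion fun t : Fin r => (T (ip t)).attach.image fun j : {j // j ∈ T (ip t)} =>
      zp t ⟨y (j : Fin M), hyA _ _ j.2⟩)
  obtain ⟨k₁, hk1, hk1c, hCk, hLD⟩ := hK1 K M y C
  have hC1 : ∀ i j, ∀ z ∈ Cf i (so i j), z ∈ k₁ := fun i j z hz => hCk z (by
    refine Finset.mem_union_left _ (Finset.mem_union_left _ (Finset.mem_union_left _ ?_))
    exact Finset.mem_biUnion.mpr ⟨i, Finset.mem_univ _,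
      Finset.mem_biUnion.mpr ⟨j, Finset.mem_univ _, hz⟩⟩)
  have hC2 : ∀ i l, ∀ z ∈ Cf i (sf i l) ∪ Cf i (bf i l), z ∈ k₁ := fun i l z hz => hCk z (by
    refine Finset.mem_union_left _ (Finset.mem_union_left _ (Finset.mem_union_right _ ?_))
    exact Finset.mem_biUnion.mpr ⟨i, Finset.mem_univ _,
      Finset.mem_biUnion.mpr ⟨l, Finset.mem_univ _, hz⟩⟩)
  have hC3 : ∀ r, ∀ z ∈ Cf i0 (a r) ∪ Cf i0 (b r), z ∈ k₁ := fun r z hz => hCk z (by
    refine Finset.mem_union_left _ (Finset.mem_union_right _ ?_)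
    exact Finset.mem_biUnion.mpr ⟨r, Finset.mem_univ _, hz⟩)
  have hC4 : ∀ t (j : Fin M) (hj : j ∈ T (ip t)), zp t ⟨y j, hyA _ _ hj⟩ ∈ k₁ := fun t j hj =>
    hCk _ (by
      refine Finset.mem_union_right _ ?_
      exact Finset.mem_biUnion.mpr ⟨t, Finset.mem_univ _,
        Finset.mem_image.mpr ⟨⟨j, hj⟩, Finset.mem_attach _ _, rfl⟩⟩)
  have hLk : ∀ i, ∀ a : K, a ∈ Algebra.adjoin k₁ (y '' T i) → a ∈ Lk k₁ y := by
    intro i a ha
    have : Algebra.adjoin k₁ (y '' T i) ≤ (Lk k₁ y).toSubalgebra := by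
      refine Algebra.adjoin_le ?_
      rintro _ ⟨j, _, rfl⟩
      exact IntermediateField.subset_adjoin _ _ ⟨j, rfl⟩
    exact this ha
  refine ⟨K, inferInstance, inferInstance, ι, inferInstance, ⟨i0⟩, A, c, k₁, M, y, T, ?_, hk1,
    hk1c, ?_, i0, m, a, b, ha, hb, ?_, ?_, hab⟩
  · refine ⟨hA, hLD, hgens, ?_, ?_⟩
    · intro i l
      refine ⟨sf i l, hCf i _ k₁ fun z hz => hC2 i l z (Finset.mem_union_left _ hz), bf i l,
        hCf i _ k₁ fun z hz => hC2 i l z (Finset.mem_union_right _ hz), ?_, hbf i l⟩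
      intro h
      exact hsf0 i l (Subtype.ext h)
    · intro i j
      exact ⟨so i j, hso0 i j, hCf i _ k₁ (hC1 i j), hsou i j⟩
  · intro t
    refine ⟨ip t, zp t, hzp t, ?_⟩
    intro r j hj hr
    have : r = ⟨y j, hyA _ _ hj⟩ := Subtype.ext hr
    rw [this]
    exact hC4 t j hj
  · exact fun r => hLk i0 _ (hCf i0 _ k₁ fun z hz => hC3 r z (Finset.mem_union_left _ hz))
  · exact fun r => hLk i0 _ (hCf i0 _ k₁ fun z hz => hC3 r z (Finset.mem_union_right _ hz))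

end RC
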