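import Pool.Agent.Work.MP_0ac1ea_ag.RC.HStmts

/-!
# Functions with the same image in the function field agree on the intersections of charts
-/

set_option autoImplicit false

open AlgebraicGeometry CategoryTheory Limits Polynomial

namespace RC

namespace NHOV1

/-- the pull back of functions along a morphism to an affine scheme -/
noncomputable def ga {A : Type} [CommRing A] {Y : Scheme.{0}} (w : Y ⟶ Spec (.of A)) :
    A →+* Γ(Y, ⊤) := ((Scheme.ΓSpecIso (.of A)).inv ≫ w.appTop).hom

theorem ga_comp {A : Type} [CommRing A] {Y Z : Scheme.{0}} (v : Z ⟶ Y) (w : Y ⟶ Spec (.of A))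
    (a : A) : ga (v ≫ w) a = v.appTop (ga w a) := by
  simp [ga]

theorem ga_sp {A B : Type} [CommRing A] [CommRing B] (φ : A →+* B) (a : A) :
    ga (sp φ) a = (Scheme.ΓSpecIso (.of B)).inv (φ a) := by
  have h := Scheme.ΓSpecIso_inv_naturality (CommRingCat.ofHom φ)
  rw [ga, sp, ← h]
  rfl

theorem inv_inj {B : Type} [CommRing B] {x y : B}
    (h : (Scheme.ΓSpecIso (.of B)).inv x = (Scheme.ΓSpecIso (.of B)).inv y) : x = y := by
  have h2 := congrArg (Scheme.ΓSpecIso (.of B)).hom h
  have h3 : ∀ z : B, (Scheme.ΓSpecIso (.of B)).hom ((Scheme.ΓSpecIso (.of B)).inv z) = z := by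
    intro z
    simp
  rwa [h3, h3] at h2

end NHOV1

open NHOV1

theorem pr_OV1 : S_OV1 := by
  intro X π K _ _ ι A c hc i j R _ g g' h s b a hab
  have := hc.isOpen i
  have := hc.isOpen j
  let P := pullback (c i) (c j)
  let e : Spec (.of K) ⟶ P := pullback.lift _ _ (hc.gen i j)
  let w : Spec (.of R) ⟶ P := pullback.lift _ _ h
  have he1 : e ≫ pullback.fst (c i) (c j) = sp ((A i).val : A i →+* K) := pullback.lift_fst _ _ _
  have he2 : e ≫ pullback.snd (c i) (c j) = sp ((A j).val : A j →+* K) := pullback.lift_snd _ _ _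
  have hw1 : w ≫ pullback.fst (c i) (c j) = sp g := pullback.lift_fst _ _ _
  have hw2 : w ≫ pullback.snd (c i) (c j) = sp g' := pullback.lift_snd _ _ _
  have hinj : Function.Injective ((A i).val : A i →+* K) := Subtype.val_injective
  have hd : IsDominant (e ≫ pullback.fst (c i) (c j)) := by
    rw [he1]
    constructor
    have h1 := (RingHom.injective_iff_ker_eq_bot _).1 hinj
    exact (PrimeSpectrum.denseRange_comap_iff_ker_le_nilRadical _).2 (h1.le.trans bot_le)
  have : IsDominant e := IsDominant.of_comp_of_isOpenImmersion e (pullback.fst (c i) (c j))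
  have : IsReduced (Spec (.of (A i))) := inferInstance
  have : IsReduced P := isReduced_of_isOpenImmersion (pullback.fst (c i) (c j))
  have : IsSchemeTheoreticallyDominant e := .of_isDominant e
  have : QuasiCompact (e ≫ pullback.fst (c i) (c j)) := by
    rw [he1]; infer_instance
  have : QuasiCompact e := QuasiCompact.of_comp e (pullback.fst (c i) (c j))
  have hx : ga (pullback.snd (c i) (c j)) a * ga (pullback.fst (c i) (c j)) s =
      ga (pullback.fst (c i) (c j)) b := by
    apply e.app_injective ⊤
    change e.appTop _ = e.appTop _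
    rw [map_mul, ← ga_comp, ← ga_comp, ← ga_comp, he1, he2, ga_sp, ga_sp, ga_sp, ← map_mul]
    exact congrArg _ hab
  have hy := congrArg w.appTop hx
  rw [map_mul, ← ga_comp, ← ga_comp, ← ga_comp, hw1, hw2, ga_sp, ga_sp, ga_sp, ← map_mul] at hy
  exact inv_inj hy

end RC
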