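import Pool.Agent.Work.MP_0ac1ea_ag.RC.HStmts

/-!
# Item OV2: the intersection of two charts contains a basic open
-/

set_option autoImplicit false

open AlgebraicGeometry CategoryTheory Limits Polynomial

namespace RC

namespace NHOV2

theorem sp_inj {R S : Type} [CommRing R] [CommRing S] {φ ψ : R →+* S} (h : sp φ = sp ψ) :
    φ = ψ := by
  have h1 := Spec.map_injective h
  have h2 := congrArg CommRingCat.Hom.hom h1
  exact h2

/-- the basic open and the lift -/
theorem exists_lift {X : Scheme.{0}} (K : Type) [Field K] (P Q : Type) [CommRing P] [CommRing Q]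
    (cP : Spec (.of P) ⟶ X) (cQ : Spec (.of Q) ⟶ X) [IsOpenImmersion cP] [IsOpenImmersion cQ]
    (vP : P →+* K) (vQ : Q →+* K) (h : sp vP ≫ cP = sp vQ ≫ cQ) :
    ∃ (s : P) (e : Q →+* Localization.Away s), vP s ≠ 0 ∧
      sp (algebraMap P (Localization.Away s)) ≫ cP = sp e ≫ cQ := by
  let x0 : Spec (.of K) := (⊥ : PrimeSpectrum K)
  let y : Spec (.of P) := (sp vP) x0
  have hy : y ∈ cP ⁻¹ᵁ cQ.opensRange := by
    show cP y ∈ cQ.opensRange
    have h1 : cP y = cQ ((sp vQ) x0) := by
      show cP ((sp vP) x0) = cQ ((sp vQ) x0)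
      rw [← Scheme.Hom.comp_apply, ← Scheme.Hom.comp_apply, h]
    rw [h1]
    exact ⟨_, rfl⟩
  obtain ⟨U', ⟨s, rfl⟩, hyU, hU⟩ := TopologicalSpace.Opens.isBasis_iff_nbhd.1
    (PrimeSpectrum.isBasis_basic_opens (R := P)) hy
  have hs0 : vP s ≠ 0 := by
    intro h0
    apply hyU
    show vP s ∈ (⊥ : Ideal K)
    rw [h0]
    exact Ideal.zero_mem _
  have hrange : Set.range (sp (algebraMap P (Localization.Away s)) ≫ cP) ⊆ Set.range cQ := by
    rintro _ ⟨z, rfl⟩
    rw [Scheme.Hom.comp_apply]
    have h1 : (sp (algebraMap P (Localization.Away s))) z ∈ PrimeSpectrum.basicOpen s := by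
      show algebraMap P (Localization.Away s) s ∉ (z : PrimeSpectrum _).asIdeal
      intro h2
      exact (z : PrimeSpectrum (Localization.Away s)).isPrime.ne_top
        (Ideal.eq_top_of_isUnit_mem _ h2 (IsLocalization.Away.algebraMap_isUnit s))
    exact hU h1
  let e' := IsOpenImmersion.lift cQ (sp (algebraMap P (Localization.Away s)) ≫ cP) hrange
  refine ⟨s, (Spec.preimage e').hom, hs0, ?_⟩
  have h3 : sp (Spec.preimage e').hom = e' := by
    rw [sp, CommRingCat.ofHom_hom, Spec.map_preimage]
  rw [h3]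
  exact (IsOpenImmersion.lift_fac _ _ _).symm

end NHOV2

open NHOV2

theorem pr_OV2 : S_OV2 := by
  intro X π K _ _ ι A c hA i j
  have := hA.isOpen i
  have := hA.isOpen j
  obtain ⟨s, e, hs0, he⟩ := exists_lift K (A i) (A j) (c i) (c j) ((A i).val : A i →+* K)
    ((A j).val : A j →+* K) (hA.gen i j)
  have hsK : IsUnit (((A i).val : A i →+* K) s) := isUnit_iff_ne_zero.2 hs0
  let κ : Localization.Away s →+* K := IsLocalization.Away.lift s hsK
  have hκ : κ.comp (algebraMap (A i) (Localization.Away s)) = ((A i).val : A i →+* K) :=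
    IsLocalization.Away.lift_comp s hsK
  have hκe : κ.comp e = ((A j).val : A j →+* K) := by
    apply sp_inj
    rw [← cancel_mono (c j), sp_comp, Category.assoc, ← he,
      sp_comp_assoc (algebraMap (A i) (Localization.Away s)) κ (c i), hκ]
    exact hA.gen i j
  have hfrac : ∀ a : A j, ∃ (N : ℕ) (b : A i), e a * algebraMap (A i) (Localization.Away s) s ^ N
      = algebraMap (A i) (Localization.Away s) b ∧ (a : K) * (s : K) ^ N = b := by
    intro a
    obtain ⟨N, b, hb⟩ := IsLocalization.Away.surj s (e a)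
    refine ⟨N, b, hb, ?_⟩
    have h1 := congrArg κ hb
    rw [map_mul, map_pow] at h1
    have h2 : ∀ x : A i, κ (algebraMap (A i) (Localization.Away s) x) = (x : K) :=
      fun x => RingHom.congr_fun hκ x
    have h3 : κ (e a) = (a : K) := RingHom.congr_fun hκe a
    rw [h2, h2, h3] at h1
    exact h1
  refine ⟨s, ?_, ?_, ?_⟩
  · intro h0
    apply hs0
    rw [h0, map_zero]
  · intro a
    obtain ⟨N, b, -, hb⟩ := hfrac a
    exact ⟨N, b, hb⟩
  · intro R _ g g' hu hg
    let gh : Localization.Away s →+* R := IsLocalization.Away.lift s hu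
    have hgh : gh.comp (algebraMap (A i) (Localization.Away s)) = g :=
      IsLocalization.Away.lift_comp s hu
    have heq : gh.comp e = g' := by
      ext a
      obtain ⟨N, b, hb1, hb2⟩ := hfrac a
      have h1 := congrArg gh hb1
      rw [map_mul, map_pow] at h1
      have h2 : ∀ x : A i, gh (algebraMap (A i) (Localization.Away s) x) = g x :=
        fun x => RingHom.congr_fun hgh x
      rw [h2, h2] at h1
      have h3 := hg a b N hb2
      exact (hu.pow N).mul_right_cancel (h1.trans h3.symm)
    rw [← heq, sp_comp, Category.assoc, ← he,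
      sp_comp_assoc (algebraMap (A i) (Localization.Away s)) gh (c i), hgh]

end RC
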