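import Pool.Agent.Work.MP_0ac1ea_ag.RC.HStmts

/-!
# The projective line commutes with base change
-/

set_option autoImplicit false

open AlgebraicGeometry CategoryTheory Limits Polynomial

namespace RC

namespace NHP1ISO

/-- a point of the chart `j` which lies in the chart `i ≠ j` has an invertible coordinate -/
theorem X_notMem {R : Type} [CommRing R] {i j : Fin 2} (hij : i ≠ j) (y : Spec (.of R[X]))
    (hy : chart R j y ∈ Set.range (chart R i)) : (X : R[X]) ∉ PrimeSpectrum.asIdeal y := by
  have hov : sp (toLaurent R j) ≫ chart R j = ovι R := by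
    rcases (show j = 0 ∨ j = 1 by fin_cases j <;> simp) with rfl | rfl
    · exact toLaurent_chart_zero R
    · exact toLaurent_chart_one R
  have hmem : chart R j y ∈ (ovι R).opensRange := by
    rw [opensRange_ovι]
    rcases (show i = 0 ∧ j = 1 ∨ i = 1 ∧ j = 0 by
      fin_cases i <;> fin_cases j <;> simp at hij ⊢) with ⟨rfl, rfl⟩ | ⟨rfl, rfl⟩
    · exact ⟨hy, ⟨y, rfl⟩⟩
    · exact ⟨⟨y, rfl⟩, hy⟩
  obtain ⟨z, hz⟩ := hmem
  rw [← hov] at hz
  have hz' : sp (toLaurent R j) z = y := by
    apply (chart R j).isOpenEmbedding.injective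
    rw [← hz]
    rfl
  intro hX
  rw [← hz'] at hX
  have h1 : toLaurent R j X ∈ PrimeSpectrum.asIdeal z := hX
  have h2 : IsUnit (toLaurent R j X) := by
    rcases (show j = 0 ∨ j = 1 by fin_cases j <;> simp) with rfl | rfl
    · rw [toLaurent_zero_X]; exact LaurentPolynomial.isUnit_T 1
    · rw [toLaurent_one_X]; exact LaurentPolynomial.isUnit_T (-1)
  exact z.isPrime.ne_top (Ideal.eq_top_of_isUnit_mem _ h1 h2)

/-- a point of the chart `j` with an invertible coordinate lies in all charts -/
theorem mem_range_chart {S : Type} [CommRing S] (i j : Fin 2) (y : Spec (.of S[X]))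
    (hy : (X : S[X]) ∉ PrimeSpectrum.asIdeal y) : chart S j y ∈ Set.range (chart S i) := by
  have hp : (PrimeSpectrum.asIdeal y).IsPrime := y.isPrime
  let K : Type := (PrimeSpectrum.asIdeal y).ResidueField
  let q : S[X] →+* K := algebraMap S[X] (PrimeSpectrum.asIdeal y).ResidueField
  have hker : RingHom.ker q = PrimeSpectrum.asIdeal y := Ideal.ker_algebraMap_residueField _
  have hqX : q X ≠ 0 := by
    intro h
    apply hy
    rw [← hker]
    exact h
  obtain ⟨u, hu⟩ : ∃ u : Kˣ, evE (q.comp C) u j = q := by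
    rcases (show j = 0 ∨ j = 1 by fin_cases j <;> simp) with rfl | rfl
    · refine ⟨Units.mk0 (q X) hqX, Polynomial.ringHom_ext (fun a => ?_) ?_⟩
      · simp [evE]
      · simp [evE]
    · refine ⟨(Units.mk0 (q X) hqX)⁻¹, Polynomial.ringHom_ext (fun a => ?_) ?_⟩
      · simp [evE]
      · simp [evE]
  have h1 : sp q ≫ chart S j = sp (evE (q.comp C) u i) ≫ chart S i := by
    rw [gE_eq, ← gE_eq (q.comp C) u j, hu]
  let o : Spec (.of K) := (⊥ : PrimeSpectrum K)
  have h2 : sp q o = y := by
    apply PrimeSpectrum.ext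
    exact hker
  have h3 := congr($h1 o)
  rw [← h2]
  exact ⟨sp (evE (q.comp C) u i) o, h3.symm⟩

theorem preimage {R S : Type} [CommRing R] [CommRing S] (φ : R →+* S) (i : Fin 2) :
    P1.map φ ⁻¹ᵁ (chart R i).opensRange = (chart S i).opensRange := by
  have hc : ∀ (j : Fin 2) (y : Spec (.of S[X])),
      P1.map φ (chart S j y) = chart R j (sp (mapRingHom φ) y) :=
    fun j y => congr($(chart_map φ j) y)
  ext x
  constructor
  · intro hx
    have hx' : P1.map φ x ∈ Set.range (chart R i) := hx
    obtain ⟨j, y, rfl⟩ : ∃ (j : Fin 2) (y : Spec (.of S[X])), chart S j y = x :=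
      (cover S).exists_eq x
    by_cases hij : i = j
    · subst hij
      exact ⟨y, rfl⟩
    · rw [hc] at hx'
      have h1 := X_notMem hij _ hx'
      refine mem_range_chart i j y fun hy => h1 ?_
      change mapRingHom φ X ∈ PrimeSpectrum.asIdeal y
      rwa [coe_mapRingHom, map_X]
  · rintro ⟨y, rfl⟩
    exact ⟨sp (mapRingHom φ) y, (hc i y).symm⟩

theorem aff {R S : Type} [CommRing R] [CommRing S] (φ : R →+* S) :
    IsPullback (sp (mapRingHom φ)) (sp (C : S →+* S[X])) (sp (C : R →+* R[X])) (sp φ) := by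
  algebraize [φ, mapRingHom φ]
  exact isPullback_SpecMap_of_isPushout _ _ _ _
    (CommRingCat.isPushout_of_isPushout R (Polynomial R) S (Polynomial S))

end NHP1ISO

theorem pr_P1ISO : S_P1ISO := by
  intro R S _ _ φ
  have sq : ∀ i, IsPullback (chart S i) (sp (mapRingHom φ)) (P1.map φ) (chart R i) := fun i =>
    (IsOpenImmersion.isPullback _ _ _ _ (chart_map φ i) (NHP1ISO.preimage φ i)).flip
  refine Scheme.isPullback_of_openCover _ _ _ _ (cover R) fun i => ?_
  refine (NHP1ISO.aff φ).of_iso (sq i).isoPullback (Iso.refl _) (Iso.refl _) (Iso.refl _)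
    ?_ ?_ ?_ ?_
  · exact (Category.comp_id _).trans (sq i).isoPullback_hom_snd.symm
  · have h : sp (C : S →+* S[X]) =
        (sq i).isoPullback.hom ≫ pullback.fst (P1.map φ) (chart R i) ≫ P1.toSpec S := by
      rw [← Category.assoc, (sq i).isoPullback_hom_fst]
      exact (chart_toSpec S i).symm
    exact (Category.comp_id _).trans h
  · exact (Category.comp_id _).trans ((chart_toSpec R i).symm.trans (Category.id_comp _).symm)
  · exact (Category.comp_id _).trans (Category.id_comp _).symm

end RC
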