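import Pool.Agent.Work.MP_0ac1ea_ag.RC.HStmts

/-!
# Points of the projective line
-/

set_option autoImplicit false

open AlgebraicGeometry CategoryTheory Limits Polynomial

attribute [local instance] MvPolynomial.gradedAlgebra

namespace RC

/-- a point of the projective line with values in `ℂ` is `pt i a` -/
theorem pr_PT : S_PT := by
  intro p hp
  have hsub : Subsingleton SpecC := inferInstanceAs (Subsingleton (PrimeSpectrum ℂ))
  obtain ⟨x0⟩ : Nonempty SpecC := inferInstanceAs (Nonempty (PrimeSpectrum ℂ))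
  obtain ⟨i, hi⟩ : ∃ i : Fin 2, p x0 ∈ Set.range (chart ℂ i) := by
    have hx : p x0 ∈ ⨆ i : Fin 2, Proj.basicOpen (gr ℂ) (MvPolynomial.X i) := by
      rw [iSup_chart]; trivial
    rw [TopologicalSpace.Opens.mem_iSup] at hx
    obtain ⟨i, hi⟩ := hx
    rw [← opensRange_chart] at hi
    exact ⟨i, hi⟩
  have hr : Set.range p ⊆ Set.range (chart ℂ i) := by
    rintro _ ⟨y, rfl⟩
    rw [Subsingleton.elim y x0]
    exact hi
  have hl : IsOpenImmersion.lift (chart ℂ i) p hr ≫ chart ℂ i = p :=
    IsOpenImmersion.lift_fac _ _ _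
  obtain ⟨ρ, hρ⟩ : ∃ ρ : Polynomial ℂ →+* ℂ, sp ρ = IsOpenImmersion.lift (chart ℂ i) p hr :=
    ⟨(Spec.preimage (IsOpenImmersion.lift (chart ℂ i) p hr)).hom, Spec.map_preimage _⟩
  rw [← hρ] at hl
  have hC : ρ.comp Polynomial.C = RingHom.id ℂ := by
    have h1 : sp (ρ.comp Polynomial.C) = sp (RingHom.id ℂ) := by
      rw [sp_comp]
      have h2 : sp ρ ≫ chart ℂ i ≫ PLs = 𝟙 _ := by
        rw [← Category.assoc, hl]
        exact hp
      rw [show chart ℂ i ≫ PLs = sp Polynomial.C from chart_toSpec ℂ i] at h2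
      rw [h2]
      exact (Spec.map_id _).symm
    have h3 := Spec.map_injective h1
    exact congrArg CommRingCat.Hom.hom h3
  refine ⟨i, ρ Polynomial.X, ?_⟩
  rw [← hl, pt]
  have h4 : ρ = Polynomial.evalRingHom (ρ Polynomial.X) := by
    refine Polynomial.ringHom_ext (fun a => ?_) ?_
    · have := congrArg (fun f : ℂ →+* ℂ => f a) hC
      simpa using this
    · simp
  rw [← h4]

end RC
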