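import Pool.Agent.Work.MP_0ac1ea_ag.RC.HStmts

set_option autoImplicit false

open AlgebraicGeometry CategoryTheory Limits Polynomial

namespace RC

private theorem nhpteq_cross (a a' : ℂ) (h : a * a' = 1) :
    (pt 0 a : SpecC ⟶ PL) = pt 1 a' := by
  have ha : a ≠ 0 := left_ne_zero_of_mul_eq_one h
  have ha' : a' = a⁻¹ := eq_inv_of_mul_eq_one_right h
  have e0 : evE (RingHom.id ℂ) (Units.mk0 a ha) 0 = Polynomial.evalRingHom a := by
    refine Polynomial.ringHom_ext (fun c => ?_) ?_
    · simp [evE]
    · simp [evE]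
  have e1 : evE (RingHom.id ℂ) (Units.mk0 a ha) 1 = Polynomial.evalRingHom a' := by
    refine Polynomial.ringHom_ext (fun c => ?_) ?_
    · simp [evE]
    · simp [evE, ha']
  have h0 := gE_eq (RingHom.id ℂ) (Units.mk0 a ha) 0
  have h1 := gE_eq (RingHom.id ℂ) (Units.mk0 a ha) 1
  rw [e0] at h0
  rw [e1] at h1
  exact h0.trans h1.symm

/-- equality of points of the projective line -/
theorem pr_PTEQ : S_PTEQ := by
  intro κ κ' a a' h
  rcases (show κ = 0 ∨ κ = 1 by fin_cases κ <;> simp) with rfl | rfl
  · rcases (show κ' = 0 ∨ κ' = 1 by fin_cases κ' <;> simp) with rfl | rfl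
    · have : a' - a = 0 := by simpa [detP, vec] using h
      rw [sub_eq_zero.mp this]
    · have : 1 - a * a' = 0 := by simpa [detP, vec] using h
      exact nhpteq_cross a a' (sub_eq_zero.mp this).symm
  · rcases (show κ' = 0 ∨ κ' = 1 by fin_cases κ' <;> simp) with rfl | rfl
    · have : a * a' - 1 = 0 := by simpa [detP, vec] using h
      exact (nhpteq_cross a' a (by rw [mul_comm]; exact sub_eq_zero.mp this)).symm
    · have : a - a' = 0 := by simpa [detP, vec] using h
      rw [sub_eq_zero.mp this]

end RC
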