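import Pool.Agent.Work.MP_0ac1ea_ag.RC.HStmts

/-!
# Regularity on the two charts
-/

open Polynomial

namespace RC

namespace NHREGK

theorem evE_zero (p : ℂ[X]) :
    evE (RatFunc.C : ℂ →+* RatFunc ℂ) uR 0 p = algebraMap ℂ[X] (RatFunc ℂ) p := by
  have h : evE (RatFunc.C : ℂ →+* RatFunc ℂ) uR 0 = algebraMap ℂ[X] (RatFunc ℂ) := by
    refine Polynomial.ringHom_ext (fun a => ?_) ?_
    · simp [evE, RatFunc.algebraMap_C]
    · simp [evE, uR, RatFunc.algebraMap_X]
  rw [h]

theorem evE_one_reflect (n : ℕ) (p : ℂ[X]) (hp : p.natDegree ≤ n) :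
    evE (RatFunc.C : ℂ →+* RatFunc ℂ) uR 1 (reflect n p) * RatFunc.X ^ n
      = algebraMap ℂ[X] (RatFunc ℂ) p := by
  rw [← evE_zero]
  have h1 : (evE (RatFunc.C : ℂ →+* RatFunc ℂ) uR 1 (reflect n p))
      = eval₂ (RatFunc.C : ℂ →+* RatFunc ℂ) (RatFunc.X)⁻¹ (reflect n p) := by
    simp [evE, uR]
  have h2 : (evE (RatFunc.C : ℂ →+* RatFunc ℂ) uR 0 p)
      = eval₂ (RatFunc.C : ℂ →+* RatFunc ℂ) (RatFunc.X) p := by
    simp [evE, uR]
  let _ : Invertible (RatFunc.X : RatFunc ℂ) := invertibleOfNonzero RatFunc.X_ne_zero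
  have h3 := eval₂_reflect_mul_pow (RatFunc.C : ℂ →+* RatFunc ℂ) (RatFunc.X) n p hp
  rw [h1, h2, ← h3, invOf_eq_inv]

theorem eval_zero_reflect (n : ℕ) (p : ℂ[X]) : (reflect n p).eval 0 = p.coeff n := by
  rw [← coeff_zero_eq_eval_zero, coeff_reflect, revAt_le (Nat.zero_le n), Nat.sub_zero]

end NHREGK

open NHREGK in
theorem pr_REGK : S_REGK := by
  refine ⟨fun r p v => ?_, fun r v => ⟨?_, ?_⟩⟩
  · simp only [RegVal, RegK, evE_zero]
  · rintro ⟨a, b, hb, hab, hr, hv⟩
    refine ⟨reflect b.natDegree a, reflect b.natDegree b, ?_, ?_, ?_⟩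
    · rw [eval_zero_reflect]
      exact leadingCoeff_ne_zero.2 hb
    · have hX : (RatFunc.X : RatFunc ℂ) ^ b.natDegree ≠ 0 := pow_ne_zero _ RatFunc.X_ne_zero
      refine mul_right_cancel₀ hX ?_
      rw [mul_assoc, evE_one_reflect _ _ le_rfl, evE_one_reflect _ _ hab, hr]
    · rw [eval_zero_reflect, eval_zero_reflect, hv]; rfl
  · rintro ⟨A, B, hB, hr, hv⟩
    set n := max A.natDegree B.natDegree with hn
    have hA' : A.natDegree ≤ n := le_max_left _ _
    have hB' : B.natDegree ≤ n := le_max_right _ _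
    have hdegle : ∀ p : ℂ[X], p.natDegree ≤ n → (reflect n p).natDegree ≤ n := by
      intro p hp
      rw [natDegree_le_iff_coeff_eq_zero]
      intro N hN
      rw [coeff_reflect, revAt_eq_self_of_lt hN]
      exact coeff_eq_zero_of_natDegree_lt (lt_of_le_of_lt hp hN)
    have hcn : ∀ p : ℂ[X], (reflect n p).coeff n = p.eval 0 := by
      intro p
      rw [coeff_reflect, revAt_le le_rfl, Nat.sub_self, coeff_zero_eq_eval_zero]
    have hBn : (reflect n B).natDegree = n := by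
      refine le_antisymm (hdegle B hB') (le_natDegree_of_ne_zero ?_)
      rw [hcn]; exact hB
    refine ⟨reflect n A, reflect n B, ?_, ?_, ?_, ?_⟩
    · intro h
      apply hB
      rw [← hcn, h, coeff_zero]
    · rw [hBn]; exact hdegle A hA'
    · rw [← evE_one_reflect n _ (hdegle A hA'), ← evE_one_reflect n _ (hdegle B hB'),
        reflect_reflect, reflect_reflect, ← mul_assoc, hr]
    · rw [leadingCoeff, hBn, hcn, hcn, hv]

end RC
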