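import Pool.Agent.Work.MP_0ac1ea_ag.RC.HStmts

/-!
# Uniqueness of extensions to a possibly non reduced affine scheme
-/

set_option autoImplicit false

open AlgebraicGeometry CategoryTheory Limits

namespace RC

universe u

/-- two morphisms of an affine scheme `T` to a separated scheme which agree on `W ⟶ T` are equal
if `Γ(T) → Γ(W)` is injective -/
theorem sep_ext_of_appTop_injective {T W Y Z : Scheme.{u}} [IsAffine T] {f g : T ⟶ Y}
    (s : Y ⟶ Z) [IsSeparated s] (h : f ≫ s = g ≫ s)
    (ι : W ⟶ T) (hι : Function.Injective ι.appTop) (hU : ι ≫ f = ι ≫ g) : f = g := by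
  let X' : Over Z := Over.mk (f ≫ s)
  let Y' : Over Z := Over.mk s
  let U' : Over Z := Over.mk (ι ≫ f ≫ s)
  let f' : X' ⟶ Y' := Over.homMk f
  let g' : X' ⟶ Y' := Over.homMk g
  let ι' : U' ⟶ X' := Over.homMk ι
  have : IsSeparated Y'.hom := ‹_›
  have hX : IsAffine X'.left := ‹IsAffine T›
  have hcomm : ι' ≫ f' = ι' ≫ g' := by
    ext1; exact hU
  have hfac : (equalizer.lift ι' hcomm).left ≫ (equalizer.ι f' g').left = ι := by
    rw [← Over.comp_left, equalizer.lift_ι]
    rfl
  have hinj : Function.Injective (equalizer.ι f' g').left.appTop := by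
    intro a b hab
    apply hι
    have h1 : ι.appTop = (equalizer.ι f' g').left.appTop ≫
        (equalizer.lift ι' hcomm).left.appTop := by
      rw [← Scheme.Hom.comp_appTop, hfac]
    rw [h1]
    exact congrArg (equalizer.lift ι' hcomm).left.appTop hab
  have : IsIso (equalizer.ι f' g').left :=
    IsClosedImmersion.isIso_of_injective_of_isAffine hinj
  rw [← cancel_epi (equalizer.ι f' g').left]
  exact congr($(equalizer.condition f' g').left)

/-- `A ⟶ B` injective, `X` separated over `Z`: two morphisms `Spec A ⟶ X` over `Z` which agree on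
`Spec B` are equal. (`A` may be non reduced.) -/
theorem sep_ext {A B : CommRingCat.{u}} (φ : A ⟶ B) (hφ : Function.Injective φ.hom)
    {Y Z : Scheme.{u}} (s : Y ⟶ Z) [IsSeparated s] {f g : Spec A ⟶ Y} (h : f ≫ s = g ≫ s)
    (hU : Spec.map φ ≫ f = Spec.map φ ≫ g) : f = g := by
  refine sep_ext_of_appTop_injective s h (Spec.map φ) ?_ hU
  have h1 : (Spec.map φ).appTop = (Scheme.ΓSpecIso A).hom ≫ φ ≫ (Scheme.ΓSpecIso B).inv := by
    rw [Scheme.ΓSpecIso_inv_naturality, Iso.hom_inv_id_assoc]
  rw [h1]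
  intro a b hab
  have h2 := congrArg (Scheme.ΓSpecIso B).hom hab
  have h3 : ∀ x, (Scheme.ΓSpecIso B).hom (((Scheme.ΓSpecIso A).hom ≫ φ ≫ (Scheme.ΓSpecIso B).inv) x)
      = φ.hom ((Scheme.ΓSpecIso A).hom x) := by
    intro x
    rw [← CommRingCat.comp_apply, Category.assoc, Category.assoc, Iso.inv_hom_id, Category.comp_id,
      CommRingCat.comp_apply]
  rw [h3, h3] at h2
  have h4 := hφ h2
  have h5 := congrArg (Scheme.ΓSpecIso A).inv h4
  have h6 : ∀ x, (Scheme.ΓSpecIso A).inv ((Scheme.ΓSpecIso A).hom x) = x := by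
    intro x
    rw [← CommRingCat.comp_apply, Iso.hom_inv_id]
    rfl
  rwa [h6, h6] at h5

/-- `h` a nonzerodivisor of `A`, `X` separated over `Z`: two morphisms `Spec A ⟶ X` over `Z` which
agree on `D(h)` are equal. -/
theorem sep_ext_away {A : Type u} [CommRing A] (h : A) (hh : h ∈ nonZeroDivisors A)
    {Y Z : Scheme.{u}} (s : Y ⟶ Z) [IsSeparated s] {f g : Spec (.of A) ⟶ Y} (hs : f ≫ s = g ≫ s)
    (hU : Spec.map (CommRingCat.ofHom (algebraMap A (Localization.Away h))) ≫ f =
      Spec.map (CommRingCat.ofHom (algebraMap A (Localization.Away h))) ≫ g) : f = g := by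
  refine sep_ext (CommRingCat.ofHom (algebraMap A (Localization.Away h))) ?_ s hs hU
  exact IsLocalization.injective (Localization.Away h) (M := Submonoid.powers h)
    (Submonoid.powers_le.2 hh)

/-- uniqueness of extensions to a separated scheme -/
theorem pr_SEP : S_SEP := by
  intro X π _ R E _ _ φ hφ a b h1 h2
  exact sep_ext (CommRingCat.ofHom φ) hφ π h1 h2

end RC
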