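import Pool.Agent.Work.MP_0ac1ea_ag.RC.CStmts

/-!
# Statements of the items of the algebraic core: blocks G (punctured surface), I (inside
deformations), E (equation), M (matching)
-/

open Polynomial

namespace RC

/-! ## Block G -/

/-- substitution `t = λ`, `w = η/λ^N` on polynomials in `w` over `ℂ((t))` -/
noncomputable def sigN (N : ℕ) : Polynomial Lam →+* Ann :=
  Polynomial.eval₂RingHom (PowerSeries.C) (PowerSeries.C (lam⁻¹ ^ N) * PowerSeries.X)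

def S_GSUB : Prop := ∀ (L : Type) [Field L] (N : ℕ) (D : L →+* RatFunc Lam) (v : L → Lam)
  (_ : ∀ l, RegVal (D l) 0 (v l)),
  ∃ G : L →+* Ann, (∀ l, PowerSeries.constantCoeff (G l) = v l) ∧
    ∀ (l : L) (a b : Polynomial Lam),
      D l * algebraMap (Polynomial Lam) (RatFunc Lam) b
        = algebraMap (Polynomial Lam) (RatFunc Lam) a → G l * sigN N b = sigN N a

def S_GDEN : Prop := ∀ (N : ℕ) (a b : Polynomial Lam) (_ : b.eval 0 ≠ 0) (g : Ann),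
  g * sigN N b = sigN N a → ∃ H w : W, PowerSeries.constantCoeff H ≠ 0 ∧ iW H * g = iW w

def S_GINF : Prop := ∀ (q : ℕ) (a b : Fin q → Polynomial Lam) (p : Fin q → PowerSeries ℂ)
  (_ : ∀ t, b t ≠ 0) (_ : ∀ t, (a t).natDegree ≤ (b t).natDegree)
  (_ : ∀ t, (a t).coeff (b t).natDegree = jL (p t) * (b t).leadingCoeff),
  ∃ N0 : ℕ, ∀ N ≥ N0, ∀ g : Fin q → Ann, (∀ t, g t * sigN N (b t) = sigN N (a t)) →
    ∃ (e : W) (c : ℂ) (d : ℕ), c ≠ 0 ∧ modLam e = PowerSeries.C c * PowerSeries.X ^ d ∧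
      ∀ t, ∃ w : W, iW e * g t = iW w ∧
        modLam w = PowerSeries.C (PowerSeries.constantCoeff (p t)) * modLam e

def S_GCER0 : Prop := ∀ (ι : Type) [Fintype ι] (M : ℕ) (S : ι → Finset (Fin M))
  (d : ι → Polynomial Lam) (_ : ∑ i, d i = 1) (n : ι → Fin M → Polynomial Lam) (N : ℕ)
  (g : Fin M → Ann) (_ : ∀ i, ∀ j ∈ S i, g j * sigN N (d i) = sigN N (n i j)),
  ∃ (c : ℕ) (e : ι → W), ∑ i, e i = lamW ^ c ∧ ∀ i, ∀ j ∈ S i, ∃ w, iW (e i) * g j = iW w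

def S_GCOMB : Prop := ∀ (ι : Type) [Fintype ι] (e : ι → W) (c : ℕ) (_ : ∑ i, e i = lamW ^ c)
  (E : W) (a : ℂ) (_ : a ≠ 0) (d : ℕ) (_ : modLam E = PowerSeries.C a * PowerSeries.X ^ d),
  ∃ (N : ℕ) (u : ι → W) (v : W), ∑ i, u i * e i + v * E = PowerSeries.X ^ N

/-- STEP (c): the punctured surface `G`. -/
def S_G : Prop := ∀ (k₁ : Subfield ℂ) (L : Type) [Field L] [Algebra k₁ L]
  (ι : Type) [Fintype ι] (M : ℕ) (y : Fin M → L) (S : ι → Finset (Fin M))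
  (y0 : L →+* ℂ) (D : L →+* RatFunc Lam) (X : L →+* Lam) (_ : Ov k₁ cRL D) (_ : Cert y S D)
  (_ : ∀ l, RegVal (D l) 0 (cL (y0 l))) (_ : ∀ l, RegValInf (D l) (X l))
  (i0 : ι) (z : Fin M → ℂ)
  (_ : ∀ j ∈ S i0, ∃ p : PowerSeries ℂ, X (y j) = jL p ∧ PowerSeries.constantCoeff p = z j),
  ∃ G : L →+* Ann, Ov k₁ cA G ∧
    (∀ l, PowerSeries.constantCoeff (G l) = cL (y0 l)) ∧
    (∀ l, ∃ H w : W, PowerSeries.constantCoeff H ≠ 0 ∧ iW H * G l = iW w) ∧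
    (∃ e : W, modLam e ≠ 0 ∧ ∀ j ∈ S i0, ∃ w : W, iW e * G (y j) = iW w ∧
      modLam w = PowerSeries.C (z j) * modLam e) ∧
    (∃ (N : ℕ) (d : ι → W), ∑ i, d i = PowerSeries.X ^ N ∧
      ∀ i, ∀ j ∈ S i, ∃ w : W, iW (d i) * G (y j) = iW w)

/-! ## Block I -/

/-- evaluation `T = λ` -/
def S_EVL : Prop := ∃ ev : PowerSeries W →+* W, (∀ w, ev (PowerSeries.C w) = w) ∧
  ev PowerSeries.X = lamW

/-- exponential of a derivation -/
def S_EXP : Prop := ∀ (R A : Type) [CommRing R] [CommRing A] [Algebra ℚ A] (g : R →+* A)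
  (δ : Derivation ℤ R R), ∃ E : R →+* PowerSeries A, ∀ (r : R) (m : ℕ),
    PowerSeries.coeff m (E r) = algebraMap ℚ A (1 / (m.factorial : ℚ)) * g ((⇑δ)^[m] r)

/-- iterates of a derivation are polynomials of bounded degree -/
def S_DEG : Prop := ∀ (k₁ : Subfield ℂ) (R : Type) [CommRing R] [Algebra k₁ R] (M : ℕ)
  (y : Fin M → R) (δ : Derivation ℤ R R) (_ : ∀ c : k₁, δ (algebraMap k₁ R c) = 0)
  (p : Fin M → MvPolynomial (Fin M) k₁) (κ : ℕ) (_ : 1 ≤ κ)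
  (_ : ∀ j, δ (y j) = MvPolynomial.aeval y (p j)) (_ : ∀ j, (p j).totalDegree ≤ κ) (m : ℕ)
  (P : MvPolynomial (Fin M) k₁),
  ∃ Q : MvPolynomial (Fin M) k₁, Q.totalDegree ≤ P.totalDegree + m * (κ - 1) ∧
    (⇑δ)^[m] (MvPolynomial.aeval y P) = MvPolynomial.aeval y Q

/-- one parameter inside deformation -/
def S_I1 : Prop := ∀ (k₁ : Subfield ℂ) (R : Type) [CommRing R] [Algebra k₁ R] (M : ℕ)
  (y : Fin M → R) (_ : Algebra.adjoin k₁ (Set.range y) = ⊤)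
  (δ : Derivation ℤ R R) (_ : ∀ c : k₁, δ (algebraMap k₁ R c) = 0)
  (p : Fin M → MvPolynomial (Fin M) k₁) (κ : ℕ) (_ : 1 ≤ κ)
  (_ : ∀ j, δ (y j) = MvPolynomial.aeval y (p j)) (_ : ∀ j, (p j).totalDegree ≤ κ)
  (G : R →+* Ann) (_ : ∀ c : k₁, G (algebraMap k₁ R c) = cA c) (H : W)
  (_ : PowerSeries.constantCoeff H ≠ 0) (_ : ∀ j, ∃ w : W, iW H * G (y j) = iW w) (ζ : W),
  ∃ G' : R →+* Ann, (∀ c : k₁, G' (algebraMap k₁ R c) = cA c) ∧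
    (∀ r : R, δ r = 1 → G' r = G r + iW (lamW * H ^ κ * ζ)) ∧
    (∀ r : R, δ r = 0 → G' r = G r) ∧
    ∀ j, ∃ w : W, G' (y j) = G (y j) + iW (lamW * w)

/-- STEP (d), inside deformations, `n` parameters -/
def S_I : Prop := ∀ (k₁ : Subfield ℂ) (R : Type) [CommRing R] [Algebra k₁ R] (M n : ℕ)
  (y : Fin M → R) (_ : Algebra.adjoin k₁ (Set.range y) = ⊤)
  (δ : Fin n → Derivation ℤ R R) (_ : ∀ i, ∀ c : k₁, δ i (algebraMap k₁ R c) = 0)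
  (p : Fin n → Fin M → MvPolynomial (Fin M) k₁) (κ : ℕ) (_ : 1 ≤ κ)
  (_ : ∀ i j, δ i (y j) = MvPolynomial.aeval y (p i j)) (_ : ∀ i j, (p i j).totalDegree ≤ κ)
  (x : Fin n → R) (_ : ∀ i i', δ i (x i') = if i = i' then 1 else 0)
  (G : R →+* Ann) (_ : ∀ c : k₁, G (algebraMap k₁ R c) = cA c) (H : W)
  (_ : PowerSeries.constantCoeff H ≠ 0) (_ : ∀ j, ∃ w : W, iW H * G (y j) = iW w)
  (ζ : Fin n → W),
  ∃ G' : R →+* Ann, (∀ c : k₁, G' (algebraMap k₁ R c) = cA c) ∧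
    (∀ i, G' (x i) = G (x i) + iW (lamW * H ^ κ * ζ i)) ∧
    ∀ j, ∃ w : W, G' (y j) = G (y j) + iW (lamW * w)

/-- extension of the inside deformation to the field `L` -/
def S_IEXT : Prop := ∀ (k₁ : Subfield ℂ) (L : Type) [Field L] [Algebra k₁ L] (M : ℕ)
  (y : Fin M → L) (_ : IntermediateField.adjoin k₁ (Set.range y) = ⊤)
  (y0 : L →+* ℂ) (_ : Ov k₁ (RingHom.id ℂ) y0)
  (G' : Algebra.adjoin k₁ (Set.range y) →+* Ann)
  (_ : ∀ c : k₁, G' (algebraMap k₁ _ c) = cA c)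
  (_ : ∀ j, ∃ p : PowerSeries ℂ, PowerSeries.constantCoeff
      (G' ⟨y j, Algebra.subset_adjoin ⟨j, rfl⟩⟩) = jL p ∧ PowerSeries.constantCoeff p = y0 (y j)),
  ∃ F : L →+* Ann, Ov k₁ cA F ∧ (∀ r : Algebra.adjoin k₁ (Set.range y), F (r : L) = G' r) ∧
    ∀ l, ∃ p : PowerSeries ℂ, PowerSeries.constantCoeff (F l) = jL p ∧
      PowerSeries.constantCoeff p = y0 l

/-- derivations of `L` dual to a transcendence basis among the coordinates, with one more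
coordinate making the coordinate ring stable -/
def S_DERL : Prop := ∀ (k₁ : Subfield ℂ) (L : Type) [Field L] [Algebra k₁ L] (M : ℕ)
  (y : Fin M → L) (_ : IntermediateField.adjoin k₁ (Set.range y) = ⊤),
  ∃ (n : ℕ) (c : Fin n → Fin M) (δ : Fin n → Derivation ℤ L L) (g : L)
    (p : Fin n → Fin (M + 1) → MvPolynomial (Fin (M + 1)) k₁),
    IsTranscendenceBasis k₁ (fun i => y (c i)) ∧
    (∀ i, ∀ a : k₁, δ i (algebraMap k₁ L a) = 0) ∧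
    (∀ i i', δ i (y (c i')) = if i = i' then 1 else 0) ∧
    ∀ i j, δ i ((Fin.snoc y g : Fin (M + 1) → L) j)
      = MvPolynomial.aeval (Fin.snoc y g : Fin (M + 1) → L) (p i j)

/-- the derivations restrict to the coordinate ring -/
def S_RES : Prop := ∀ (k₁ : Subfield ℂ) (L : Type) [Field L] [Algebra k₁ L] (M : ℕ)
  (y : Fin M → L) (δ : Derivation ℤ L L) (_ : ∀ a : k₁, δ (algebraMap k₁ L a) = 0)
  (p : Fin M → MvPolynomial (Fin M) k₁) (_ : ∀ j, δ (y j) = MvPolynomial.aeval y (p j)),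
  ∃ δ' : Derivation ℤ (Algebra.adjoin k₁ (Set.range y)) (Algebra.adjoin k₁ (Set.range y)),
    ∀ r : Algebra.adjoin k₁ (Set.range y), ((δ' r : Algebra.adjoin k₁ (Set.range y)) : L) = δ r

/-! ## Block E -/

/-- derivations of `ℂ` over `k` with prescribed values on an algebraically independent family -/
def S_DER : Prop := ∀ (k : Subfield ℂ) (n : ℕ) (t : Fin n → ℂ) (_ : AlgebraicIndependent k t)
  (v : Fin n → ℂ), ∃ D : Derivation ℤ ℂ ℂ, (∀ c ∈ k, D c = 0) ∧ ∀ i, D (t i) = v i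

/-- generic points preserve algebraic independence -/
def S_GENAI : Prop := ∀ (k₁ k : Subfield ℂ) (_ : k₁ ≤ k) (L : Type) [Field L] [Algebra k₁ L]
  (x : L →+* ℂ) (_ : Ov k₁ (RingHom.id ℂ) x) (_ : GenOver k₁ k x) (n : ℕ) (t : Fin n → L)
  (_ : AlgebraicIndependent k₁ t), AlgebraicIndependent k (fun i => x (t i))

/-- properties of a family `ε_a : ℂ → ℂ[s][[η]]` with `ε_a = id + Σ a_i D_i + ...` -/
structure EpsProps (k : Subfield ℂ) {n : ℕ} (D : Fin n → Derivation ℤ ℂ ℂ)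
    (ε : Small n → ℂ →+* Out) : Prop where
  const : ∀ a, ∀ c ∈ k, ε a c = PowerSeries.C (Polynomial.C c)
  red : ∀ a c, PowerSeries.constantCoeff (ε a c) = Polynomial.C c
  diff : ∀ (a a' : Small n) (N : ℕ), 1 ≤ N →
    (∀ i, (PowerSeries.X : Out) ^ N ∣ a'.1 i - a.1 i) → ∀ c, (PowerSeries.X : Out) ^ (N + 1) ∣
      ε a' c - ε a c - ∑ i, (a'.1 i - a.1 i) * PowerSeries.C (Polynomial.C (D i c))
  inf : ∀ a : Small n, (∀ i, evS 0 (a.1 i) = 0) → ∀ c, evS 0 (ε a c) = PowerSeries.C c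

def S_EPS : Prop := ∀ (k : Subfield ℂ) (n : ℕ) (D : Fin n → Derivation ℤ ℂ ℂ)
  (_ : ∀ i, ∀ c ∈ k, D i c = 0), ∃ ε : Small n → ℂ →+* Out, EpsProps k D ε

/-- exponential of a topologically nilpotent derivation of `R[[η]]` -/
def S_EXPD : Prop := ∀ (R : Type) [CommRing R] [Algebra ℚ R]
  (δ : Derivation ℤ (PowerSeries R) (PowerSeries R))
  (_ : ∀ f, (PowerSeries.X : PowerSeries R) ∣ δ f) (_ : δ PowerSeries.X = 0),
  ∃ E : PowerSeries R →+* PowerSeries R, ∀ (f : PowerSeries R) (N : ℕ),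
    (PowerSeries.X : PowerSeries R) ^ (N + 1) ∣ E f - ∑ m ∈ Finset.range (N + 1),
      algebraMap ℚ (PowerSeries R) (1 / (m.factorial : ℚ)) * (⇑δ)^[m] f

/-- coefficientwise extension of a derivation of `ℂ` to `ℂ(u)` -/
def S_DEXT : Prop := ∀ (D : Derivation ℤ ℂ ℂ), ∃ D' : Derivation ℤ (RatFunc ℂ) (RatFunc ℂ),
  (∀ c, D' (RatFunc.C c) = RatFunc.C (D c)) ∧ D' RatFunc.X = 0

/-- `ℂ(u) → ℂ((λ))`, `u ↦ λ^m(1-λ)` -/
def S_EVU : Prop := ∀ m : ℕ, 1 ≤ m → ∃ ev : RatFunc ℂ →+* Lam,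
  (∀ c, ev (RatFunc.C c) = cL c) ∧ ev RatFunc.X = uLam m

def S_TH : Prop := ∀ (k : Subfield ℂ) (n : ℕ) (D : Fin n → Derivation ℤ ℂ ℂ)
  (ε : Small n → ℂ →+* Out) (_ : EpsProps k D ε) (m : ℕ) (_ : 1 ≤ m)
  (ev : RatFunc ℂ →+* Lam) (_ : ∀ c, ev (RatFunc.C c) = cL c)
  (_ : ev RatFunc.X = uLam m) (D' : Fin n → Derivation ℤ (RatFunc ℂ) (RatFunc ℂ))
  (_ : ∀ i c, D' i (RatFunc.C c) = RatFunc.C (D i c)) (_ : ∀ i, D' i RatFunc.X = 0),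
  ∃ θ : Small n → RatFunc ℂ →+* Ann, (∀ a c, θ a (RatFunc.C c) = iO (ε a c)) ∧
    (∀ a, θ a RatFunc.X = PowerSeries.C (uLam m)) ∧
    (∀ a r, PowerSeries.constantCoeff (θ a r) = ev r) ∧
    ∀ r (a a' : Small n) (N : ℕ), 1 ≤ N →
      (∀ i, (PowerSeries.X : Out) ^ N ∣ a'.1 i - a.1 i) → (PowerSeries.X : Ann) ^ (N + 1) ∣
        θ a' r - θ a r - ∑ i, PowerSeries.C (ev (D' i r)) * iO (a'.1 i - a.1 i)

def S_J1 : Prop := ∀ (n : ℕ) (D : Fin n → Derivation ℤ ℂ ℂ)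
  (D' : Fin n → Derivation ℤ (RatFunc ℂ) (RatFunc ℂ))
  (_ : ∀ i c, D' i (RatFunc.C c) = RatFunc.C (D i c)) (_ : ∀ i, D' i RatFunc.X = 0)
  (r : Fin n → RatFunc ℂ) (v : Fin n → ℂ) (_ : ∀ i, RegValInf (r i) (v i))
  (_ : ∀ i j, D j (v i) = if i = j then 1 else 0),
  (Matrix.of fun i j => D' j (r i)).det ≠ 0

def S_J2 : Prop := ∀ (D : Derivation ℤ ℂ ℂ) (D' : Derivation ℤ (RatFunc ℂ) (RatFunc ℂ))
  (_ : ∀ c, D' (RatFunc.C c) = RatFunc.C (D c)) (_ : D' RatFunc.X = 0)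
  (r : RatFunc ℂ) (c : ℂ) (_ : RegVal r 0 c), RegVal (D' r) 0 (D c)

def S_J3 : Prop := ∀ (m : ℕ) (_ : 1 ≤ m) (ev : RatFunc ℂ →+* Lam)
  (_ : ∀ c, ev (RatFunc.C c) = cL c) (_ : ev RatFunc.X = uLam m)
  (r : RatFunc ℂ) (c : ℂ) (_ : RegVal r 0 c),
  ∃ p : PowerSeries ℂ, ev r = cL c + jL (PowerSeries.X ^ m * p)

/-- STEP (e): the equation -/
def S_EQ : Prop := ∀ (n : ℕ) (P : Small n → Fin n → Ann) (J : Matrix (Fin n) (Fin n) Lam)
  (_ : J.det ≠ 0)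
  (_ : ∀ (a a' : Small n) (N : ℕ), 1 ≤ N →
    (∀ i, (PowerSeries.X : Out) ^ N ∣ a'.1 i - a.1 i) → ∀ i, (PowerSeries.X : Ann) ^ (N + 1) ∣
      P a' i - P a i - ∑ j, PowerSeries.C (J i j) * iO (a'.1 j - a.1 j))
  (ω : W) (_ : PowerSeries.constantCoeff ω ≠ 0)
  (_ : ∀ i j, ∃ w : PowerSeries ℂ, J i j = jL (PowerSeries.constantCoeff ω * w))
  (γ : Fin n → Ann)
  (_ : ∀ a i, ∃ w : PowerSeries ℂ, PowerSeries.constantCoeff (P a i)
    - PowerSeries.constantCoeff (γ i) = jL (PowerSeries.constantCoeff ω * w)),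
  ∃ (a : Small n) (ζ : Fin n → W), (∀ i, evS 0 (a.1 i) = 0) ∧
    ∀ i, P a i = γ i + iW (ω * ζ i)

/-! ## Block M -/

/-- STEP (f): matching -/
def S_M : Prop := ∀ (k₁ : Subfield ℂ) (L : Type) [Field L] [Algebra k₁ L] (n : ℕ)
  (t : Fin n → L) (_ : IsTranscendenceBasis k₁ t) (F G : L →+* Ann) (_ : Ov k₁ cA F)
  (_ : Ov k₁ cA G) (y0 : L →+* ℂ)
  (_ : ∀ l, ∃ p : PowerSeries ℂ, PowerSeries.constantCoeff (F l) = jL p ∧
    PowerSeries.constantCoeff p = y0 l)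
  (_ : ∀ l, ∃ p : PowerSeries ℂ, PowerSeries.constantCoeff (G l) = jL p ∧
    PowerSeries.constantCoeff p = y0 l)
  (_ : ∀ i, F (t i) = G (t i)), F = G

end RC
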