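import Pool.Agent.Work.MP_0ac1ea_ag.RC.CStmts3

/-!
# Statement: embedding `ℂ((η)) → ℂ` over a countable field (replaces descent)
-/

open Polynomial

namespace RC

/-- an embedding of `ℂ((η))` into `ℂ` over a countable subfield -/
def S_EMB : Prop := ∀ (k : Subfield ℂ) [Countable k], ∃ θ : Lam →+* ℂ, ∀ c ∈ k, θ (cL c) = c

/-- a transcendence basis among the coordinates -/
def S_TB : Prop := ∀ (k₁ : Subfield ℂ) (L : Type) [Field L] [Algebra k₁ L] (M : ℕ)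
  (y : Fin M → L) (_ : IntermediateField.adjoin k₁ (Set.range y) = ⊤),
  ∃ (n : ℕ) (c : Fin n → Fin M), IsTranscendenceBasis k₁ (fun i => y (c i))

/-- roots of `λ^m(1-λ) = ν` away from `0` -/
def S_ROOT : Prop := ∀ (m : ℕ) (_ : 1 ≤ m) (ν : ℂ) (_ : IsAlgebraic ℚ ν),
  ∃ μ : ℂ, IsAlgebraic ℚ μ ∧ μ ≠ 0 ∧ μ ^ m * (1 - μ) = ν

/-- `ℂ[[η]][λ] → W` and injectivity -/
def S_JW : Prop := (∃ jW : Polynomial (PowerSeries ℂ) →+* W, (∀ A, iW (jW A) = jP A) ∧
  (∀ c, jW (Polynomial.C c) = PowerSeries.map (PowerSeries.C) c) ∧ jW Polynomial.X = lamW) ∧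
  Function.Injective jP ∧ Function.Injective jR

end RC
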