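import Pool.Agent.Work.MP_0ac1ea_ag.RC.HStmts
import Pool.Agent.Work.MP_0ac1ea_ag.RC.CStmts2
import Pool.Agent.Work.MP_0ac1ea_ag.RC.CStmts5

/-!
# Item TAU: `c ↦ c + ε D(c)` with prescribed tangent vectors
-/

set_option autoImplicit false

namespace RC

namespace NHTAU

/-- `c ↦ c + ε D(c)` -/
noncomputable def tau (D : Derivation ℤ ℂ ℂ) : ℂ →+* DualNumber ℂ where
  toFun c := TrivSqZeroExt.inl c + TrivSqZeroExt.inr (D c)
  map_one' := by
    rw [D.map_one_eq_zero, TrivSqZeroExt.inr_zero, add_zero, TrivSqZeroExt.inl_one]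
  map_mul' a b := by
    ext
    · simp
    · simp [D.leibniz, mul_comm]
  map_zero' := by simp
  map_add' a b := by
    ext
    · simp
    · simp

theorem tau_fst (D : Derivation ℤ ℂ ℂ) (c : ℂ) : (tau D c).fst = c := by simp [tau]

theorem tau_snd (D : Derivation ℤ ℂ ℂ) (c : ℂ) : (tau D c).snd = D c := by simp [tau]

/-- two lifts of a generic point which agree on a transcendence basis are equal -/
theorem uniq (k₁ : Subfield ℂ) (L : Type) [Field L] [Algebra k₁ L] (n : ℕ) (t : Fin n → L)
    (ht : IsTranscendenceBasis k₁ t) (f g : L →+* DualNumber ℂ)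
    (h1 : ∀ c : k₁, f (algebraMap k₁ L c) = g (algebraMap k₁ L c))
    (h2 : ∀ l, (f l).fst = (g l).fst) (h3 : ∀ i, f (t i) = g (t i)) : f = g := by
  let E : Subfield L :=
    { carrier := {l | f l = g l}
      mul_mem' := by
        intro a b ha hb
        change f (a * b) = g (a * b)
        rw [map_mul, map_mul, show f a = g a from ha, show f b = g b from hb]
      one_mem' := by change f 1 = g 1; rw [map_one, map_one]
      add_mem' := by
        intro a b ha hb
        change f (a + b) = g (a + b)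
        rw [map_add, map_add, show f a = g a from ha, show f b = g b from hb]
      zero_mem' := by change f 0 = g 0; rw [map_zero, map_zero]
      neg_mem' := by
        intro a ha
        change f (-a) = g (-a)
        rw [map_neg, map_neg, show f a = g a from ha]
      inv_mem' := by
        intro a ha
        change f a⁻¹ = g a⁻¹
        by_cases ha0 : a = 0
        · rw [ha0, inv_zero, map_zero, map_zero]
        · have h4 : f a⁻¹ * f a = 1 := by rw [← map_mul, inv_mul_cancel₀ ha0, map_one]
          have h5 : g a * g a⁻¹ = 1 := by rw [← map_mul, mul_inv_cancel₀ ha0, map_one]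
          have h6 : f a = g a := ha
          calc f a⁻¹ = f a⁻¹ * (g a * g a⁻¹) := by rw [h5, mul_one]
            _ = f a⁻¹ * f a * g a⁻¹ := by rw [h6]; ring
            _ = g a⁻¹ := by rw [h4, one_mul] }
  have hE : ∀ e : E, f (e : L) = g (e : L) := fun e => e.2
  let : Algebra E (DualNumber ℂ) := (f.comp E.subtype).toAlgebra
  have halgmap : ∀ e : E, algebraMap E (DualNumber ℂ) e = f (e : L) := fun e => rfl
  -- `L` is algebraic over `E`
  have hadj : ∀ a : Algebra.adjoin k₁ (Set.range t), (a : L) ∈ E := by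
    intro a
    have h4 : Algebra.adjoin k₁ (Set.range t) ≤
        { E.toSubring.toSubsemiring with
          algebraMap_mem' := fun c => h1 c } := by
      rw [Algebra.adjoin_le_iff]
      rintro _ ⟨i, rfl⟩
      exact h3 i
    exact h4 a.2
  have hal : Algebra.IsAlgebraic E L := by
    refine ⟨fun l => ?_⟩
    obtain ⟨p, hp0, hp⟩ := (ht.isAlgebraic).isAlgebraic l
    let φ : Algebra.adjoin k₁ (Set.range t) →+* E :=
      (algebraMap (Algebra.adjoin k₁ (Set.range t)) L).codRestrict E hadj
    have hφ : ∀ a, ((φ a : E) : L) = a := fun a => rfl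
    have hφi : Function.Injective φ := by
      intro a b hab
      apply Subtype.ext
      rw [← hφ a, ← hφ b, hab]
    refine ⟨p.map φ, (Polynomial.map_ne_zero_iff hφi).mpr hp0, ?_⟩
    rw [Polynomial.aeval_def, Polynomial.eval₂_map, ← hp, Polynomial.aeval_def]
    rfl
  have hL0 : CharZero L := charZero_of_injective_algebraMap (algebraMap k₁ L).injective
  have hE0 : CharZero E := E.subtype.charZero
  have hsep : Algebra.IsSeparable E L := inferInstance
  have hunr : Algebra.FormallyUnramified E L := Algebra.FormallyUnramified.of_isSeparable E L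
  let f' : L →ₐ[E] DualNumber ℂ := { f with commutes' := fun e => rfl }
  let g' : L →ₐ[E] DualNumber ℂ := { g with commutes' := fun e => (hE e).symm }
  have hnil : IsNilpotent (RingHom.ker (TrivSqZeroExt.fstHom ℂ ℂ ℂ : DualNumber ℂ →+* ℂ)) :=
    ⟨2, TrivSqZeroExt.kerIdeal_sq ℂ ℂ⟩
  have h7 : f' = g' := by
    refine Algebra.FormallyUnramified.lift_unique_of_ringHom
      (TrivSqZeroExt.fstHom ℂ ℂ ℂ : DualNumber ℂ →+* ℂ) hnil f' g' ?_
    ext l
    exact h2 l
  ext1 l
  exact AlgHom.congr_fun h7 l

end NHTAU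

open NHTAU in
theorem pr_TAU (hDER : S_DER) (hGEN : S_GENAI) (hTB : S_TB) : S_TAU := by
  intro k₁ k hk _ _ L _ _ M y hy y0 x hy0 hx hy0k hgen v w hv hw hv0 hw0
  obtain ⟨n, c, ht⟩ := hTB k₁ L M y hy
  set t : Fin n → L := fun i => y (c i) with ht'
  let y0' : L →ₐ[k₁] ℂ := { y0 with commutes' := fun a => hy0 a }
  have hai0 : AlgebraicIndependent k₁ (fun i => y0 (t i)) :=
    ht.1.map' (f := y0') y0.injective
  obtain ⟨D1, hD1, hD1t⟩ := hDER k₁ n (fun i => y0 (t i)) hai0 (fun i => (v (t i)).snd)
  have hai1 : AlgebraicIndependent k (fun i => x (t i)) := hGEN k₁ k hk L x hx hgen n t ht.1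
  obtain ⟨D2, hD2, hD2t⟩ := hDER k n (fun i => x (t i)) hai1
    (fun i => (w (t i)).snd - D1 (x (t i)))
  have hDk : ∀ a ∈ k₁, (D1 + D2) a = 0 := by
    intro a ha
    rw [Derivation.add_apply, hD1 a ha, hD2 a (hk ha), add_zero]
  have hc : ∀ a ∈ k₁, tau (D1 + D2) a = TrivSqZeroExt.inl a := by
    intro a ha
    ext
    · rw [tau_fst, TrivSqZeroExt.fst_inl]
    · rw [tau_snd, hDk a ha, TrivSqZeroExt.snd_inl]
  refine ⟨tau (D1 + D2), tau_fst _, hc, ?_, ?_⟩
  · have h1 : (tau (D1 + D2)).comp y0 = v := by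
      refine uniq k₁ L n t ht _ _ (fun a => ?_) (fun l => ?_) (fun i => ?_)
      · rw [RingHom.comp_apply, hy0 a, hv a]
        exact hc _ a.2
      · rw [RingHom.comp_apply, tau_fst, hv0]
      · ext
        · rw [RingHom.comp_apply, tau_fst, hv0]
        · rw [RingHom.comp_apply, tau_snd, Derivation.add_apply, hD1t i, hD2 _ (hy0k _), add_zero]
    intro l
    rw [← h1]
    rfl
  · have h1 : (tau (D1 + D2)).comp x = w := by
      refine uniq k₁ L n t ht _ _ (fun a => ?_) (fun l => ?_) (fun i => ?_)
      · rw [RingHom.comp_apply, hx a, hw a]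
        exact hc _ a.2
      · rw [RingHom.comp_apply, tau_fst, hw0]
      · ext
        · rw [RingHom.comp_apply, tau_fst, hw0]
        · rw [RingHom.comp_apply, tau_snd, Derivation.add_apply, hD2t i, add_sub_cancel]
    intro l
    rw [← h1]
    rfl

end RC
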