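import Pool.Agent.Work.MP_0ac1ea_ag.RC.HStmts

/-!
# The homomorphism of the function field from homomorphisms of the charts
-/

set_option autoImplicit false

open Polynomial

namespace RC

namespace NHTHETA

theorem exists_quot (k₁ : Subfield ℂ) {K : Type} [Field K] [Algebra ℂ K] {M : ℕ}
    (y : Fin M → K) (T : Finset (Fin M))
    (h : ∀ l : Fin M, ∃ s ∈ Algebra.adjoin k₁ (y '' T), ∃ b ∈ Algebra.adjoin k₁ (y '' T),
      s ≠ 0 ∧ y l * s = b) (x : K) (hx : x ∈ IntermediateField.adjoin k₁ (Set.range y)) :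
    ∃ p ∈ Algebra.adjoin k₁ (y '' T), ∃ q ∈ Algebra.adjoin k₁ (y '' T), q ≠ 0 ∧ x * q = p := by
  induction hx using IntermediateField.adjoin_induction with
  | mem x hx =>
    obtain ⟨l, rfl⟩ := hx
    obtain ⟨s, hs, b, hb, hs0, hsb⟩ := h l
    exact ⟨b, hb, s, hs, hs0, hsb⟩
  | algebraMap z => exact ⟨algebraMap k₁ K z, Subalgebra.algebraMap_mem _ z, 1,
      Subalgebra.one_mem _, one_ne_zero, mul_one _⟩
  | add x y _ _ hx hy =>
    obtain ⟨p, hp, q, hq, hq0, h1⟩ := hx
    obtain ⟨p', hp', q', hq', hq0', h1'⟩ := hy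
    refine ⟨p * q' + p' * q, Subalgebra.add_mem _ (Subalgebra.mul_mem _ hp hq')
      (Subalgebra.mul_mem _ hp' hq), q * q', Subalgebra.mul_mem _ hq hq', mul_ne_zero hq0 hq0', ?_⟩
    rw [← h1, ← h1']; ring
  | inv x _ hx =>
    obtain ⟨p, hp, q, hq, hq0, h1⟩ := hx
    by_cases hx0 : x = 0
    · exact ⟨0, Subalgebra.zero_mem _, 1, Subalgebra.one_mem _, one_ne_zero, by simp [hx0]⟩
    · refine ⟨q, hq, p, hp, ?_, ?_⟩
      · rw [← h1]; exact mul_ne_zero hx0 hq0
      · rw [← h1, ← mul_assoc, inv_mul_cancel₀ hx0, one_mul]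
  | mul x y _ _ hx hy =>
    obtain ⟨p, hp, q, hq, hq0, h1⟩ := hx
    obtain ⟨p', hp', q', hq', hq0', h1'⟩ := hy
    refine ⟨p * p', Subalgebra.mul_mem _ hp hp', q * q', Subalgebra.mul_mem _ hq hq',
      mul_ne_zero hq0 hq0', ?_⟩
    rw [← h1, ← h1']; ring

theorem adjoin_le_adjoin (k₁ : Subfield ℂ) {K : Type} [Field K] [Algebra ℂ K] (S : Set K) (x : K)
    (hx : x ∈ Algebra.adjoin k₁ S) : x ∈ Algebra.adjoin ℂ S := by
  induction hx using Algebra.adjoin_induction with
  | mem x hx => exact Algebra.subset_adjoin hx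
  | algebraMap z => exact Subalgebra.algebraMap_mem (Algebra.adjoin ℂ S) (z : ℂ)
  | add x y _ _ hx hy => exact Subalgebra.add_mem _ hx hy
  | mul x y _ _ hx hy => exact Subalgebra.mul_mem _ hx hy

theorem adjoin_le_field (k₁ : Subfield ℂ) {K : Type} [Field K] [Algebra ℂ K] {M : ℕ}
    (y : Fin M → K) (T : Finset (Fin M)) (x : K) (hx : x ∈ Algebra.adjoin k₁ (y '' T)) :
    x ∈ IntermediateField.adjoin k₁ (Set.range y) := by
  have h : Algebra.adjoin k₁ (y '' T) ≤
      (IntermediateField.adjoin k₁ (Set.range y)).toSubalgebra := by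
    apply Algebra.adjoin_le
    rintro _ ⟨l, _, rfl⟩
    exact IntermediateField.subset_adjoin _ _ ⟨l, rfl⟩
  exact h hx

end NHTHETA

open NHTHETA in
theorem pr_THETA : S_THETA := by
  intro k₁ K _ _ M y ι hι A T hA hsb F _ _ g hcomp hunit
  obtain ⟨i0⟩ := hι
  have hpq : ∀ x : IntermediateField.adjoin k₁ (Set.range y), ∃ p q : A i0,
      IsUnit (g i0 q) ∧ (x : K) * q = p := by
    intro x
    obtain ⟨p, hp, q, hq, hq0, h1⟩ := exists_quot k₁ y (T i0) (hsb i0) x x.2
    have hp' : p ∈ A i0 := by rw [hA]; exact adjoin_le_adjoin k₁ _ p hp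
    have hq' : q ∈ A i0 := by rw [hA]; exact adjoin_le_adjoin k₁ _ q hq
    exact ⟨⟨p, hp'⟩, ⟨q, hq'⟩, hunit i0 ⟨q, hq'⟩ (adjoin_le_field k₁ y (T i0) q hq)
      (fun h => hq0 (congrArg Subtype.val h)), h1⟩
  choose p q hq hxpq using hpq
  let θ : IntermediateField.adjoin k₁ (Set.range y) → F := fun x =>
    g i0 (p x) * ((hq x).unit⁻¹ : Fˣ)
  have hθq : ∀ x, θ x * g i0 (q x) = g i0 (p x) := by
    intro x
    simp only [θ]
    rw [mul_assoc, IsUnit.val_inv_mul, mul_one]
  have key : ∀ (x : IntermediateField.adjoin k₁ (Set.range y)) (r s : A i0), (x : K) * s = r →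
      θ x * g i0 s = g i0 r := by
    intro x r s h
    have h1 : p x * s = r * q x := by
      apply Subtype.ext
      change (p x : K) * s = r * q x
      rw [← hxpq, ← h]; ring
    have h2 : g i0 (p x) * g i0 s = g i0 r * g i0 (q x) := by
      rw [← map_mul, h1, map_mul]
    apply (hq x).mul_right_cancel
    rw [← h2, ← hθq]; ring
  let Θ : IntermediateField.adjoin k₁ (Set.range y) →+* F :=
    { toFun := θ
      map_one' := by
        have := key 1 1 1 (by simp)
        simpa using this
      map_mul' := by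
        intro x x'
        have h1 := key (x * x') (p x * p x') (q x * q x') (by
          change (x : K) * x' * (q x * q x') = p x * p x'
          rw [← hxpq, ← hxpq]; ring)
        rw [map_mul, map_mul] at h1
        apply (hq x').mul_right_cancel
        apply (hq x).mul_right_cancel
        calc θ (x * x') * g i0 (q x') * g i0 (q x)
            = θ (x * x') * (g i0 (q x) * g i0 (q x')) := by ring
          _ = (θ x * g i0 (q x)) * (θ x' * g i0 (q x')) := by rw [h1, hθq, hθq]
          _ = _ := by ring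
      map_zero' := by
        have := key 0 0 1 (by simp)
        simpa using this
      map_add' := by
        intro x x'
        have h1 := key (x + x') (p x * q x' + p x' * q x) (q x * q x') (by
          change ((x : K) + x') * (q x * q x') = p x * q x' + p x' * q x
          rw [← hxpq, ← hxpq]; ring)
        rw [map_mul, map_add, map_mul, map_mul] at h1
        apply (hq x').mul_right_cancel
        apply (hq x).mul_right_cancel
        calc θ (x + x') * g i0 (q x') * g i0 (q x)
            = θ (x + x') * (g i0 (q x) * g i0 (q x')) := by ring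
          _ = (θ x * g i0 (q x)) * g i0 (q x') + (θ x' * g i0 (q x')) * g i0 (q x) := by
              rw [h1, hθq, hθq]
          _ = _ := by ring }
  refine ⟨Θ, fun z => ?_, fun i r l h => ?_⟩
  · have h1 := key (algebraMap k₁ _ z) (algebraMap ℂ (A i0) (z : ℂ)) 1 (by
      change (algebraMap k₁ K z) * 1 = algebraMap ℂ K (z : ℂ)
      rw [mul_one]
      rfl)
    rw [map_one, mul_one, AlgHom.commutes] at h1
    exact h1
  · have h1 := hcomp i0 i (q l) (p l) r (by rw [h, hxpq])
    apply (hq l).mul_right_cancel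
    exact (hθq l).trans h1.symm

end RC
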