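import Pool.Agent.Work.MP_0ac1ea_ag.RC.HStmts

/-!
# Block H, item VALG: values of a curve at a point
-/

set_option autoImplicit false

open AlgebraicGeometry CategoryTheory Limits Polynomial

namespace RC

namespace NHVALG

theorem sp_inj {R S : Type} [CommRing R] [CommRing S] {φ ψ : R →+* S} (h : sp φ = sp ψ) :
    φ = ψ := by
  have h1 := Spec.map_injective h
  exact congrArg CommRingCat.Hom.hom h1

section

variable {R E : Type} [CommRing R] [CommRing E]

/-- the denominators -/
noncomputable abbrev Mo (a : R) : Submonoid R[X] := (IsUnit.submonoid R).comap (evalRingHom a)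

theorem mem_Mo {a : R} {B : R[X]} : B ∈ Mo a ↔ IsUnit (B.eval a) := Iff.rfl

variable (φ : R →+* E) (u : Eˣ) (κ : Fin 2) (a : R)
  (hu : ∀ B : R[X], IsUnit (B.eval a) → IsUnit (evE φ u κ B))

/-- extension of `evE` -/
noncomputable def bet : Localization (Mo a) →+* E :=
  IsLocalization.lift (M := Mo a) (g := evE φ u κ) (fun y => hu y.1 y.2)

theorem bet_alg (B : R[X]) : bet φ u κ a hu (algebraMap R[X] (Localization (Mo a)) B) =
    evE φ u κ B := IsLocalization.lift_eq _ _

/-- extension of the evaluation -/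
noncomputable def del : Localization (Mo a) →+* R :=
  IsLocalization.lift (M := Mo a) (g := evalRingHom a) (fun y => y.2)

theorem del_alg (B : R[X]) : del a (algebraMap R[X] (Localization (Mo a)) B) =
    B.eval a := IsLocalization.lift_eq _ _

theorem bet_inj (hi : Function.Injective (evE φ u κ)) : Function.Injective (bet φ u κ a hu) := by
  rw [injective_iff_map_eq_zero]
  intro z hz
  obtain ⟨⟨x, s⟩, h⟩ := IsLocalization.surj (Mo a) z
  have h1 := congrArg (bet φ u κ a hu) h
  rw [map_mul, hz, zero_mul, bet_alg] at h1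
  have h2 : x = 0 := (map_eq_zero_iff _ hi).1 h1.symm
  rw [h2, map_zero] at h
  exact (IsLocalization.map_units (Localization (Mo a)) s).mul_left_eq_zero.1 h

theorem exists_frac (s : E) (v : R) (h : RegG φ u κ s a v) :
    ∃ g : Localization (Mo a), bet φ u κ a hu g = s ∧ del a g = v := by
  obtain ⟨A, B, hB, h1, h2⟩ := h
  obtain ⟨b, hb⟩ := IsLocalization.map_units (Localization (Mo a)) (⟨B, hB⟩ : Mo a)
  have hb : (b : Localization (Mo a)) = algebraMap R[X] (Localization (Mo a)) B := hb
  refine ⟨algebraMap R[X] (Localization (Mo a)) A * ((b⁻¹ : (Localization (Mo a))ˣ) :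
    Localization (Mo a)), ?_, ?_⟩
  · have h3 := hu B hB
    apply h3.mul_right_cancel
    rw [h1, ← bet_alg φ u κ a hu B, ← bet_alg φ u κ a hu A, ← map_mul, ← hb, mul_assoc,
      Units.inv_mul, mul_one]
  · apply hB.mul_right_cancel
    rw [← h2, ← del_alg a B, ← del_alg a A, ← map_mul, ← hb, mul_assoc,
      Units.inv_mul, mul_one]

end

end NHVALG

open NHVALG in
theorem pr_VALG (sep : S_SEP) : S_VALG := by
  intro X π _ K _ _ ι A c hc R E _ _ _ φ u κ a hi hu F hF i θ hθ z hz
  have hbi := bet_inj φ u κ a hu hi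
  choose g hg1 hg2 using fun r : A i => exists_frac φ u κ a hu (θ r) (z r) (hz r)
  obtain ⟨γ, hγ⟩ : ∃ γ : A i →+* Localization (Mo a), ∀ r, γ r = g r := by
    refine ⟨{
      toFun := g
      map_one' := hbi ?_
      map_mul' := fun x y => hbi ?_
      map_zero' := hbi ?_
      map_add' := fun x y => hbi ?_ }, fun r => rfl⟩
    · rw [hg1, map_one, map_one]
    · rw [map_mul, hg1, hg1, hg1, map_mul]
    · rw [hg1, map_zero, map_zero]
    · rw [map_add, hg1, hg1, hg1, map_add]
  have hβγ : (bet φ u κ a hu).comp γ = θ := RingHom.ext fun r => by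
    rw [RingHom.comp_apply, hγ, hg1]
  have hδγ : (del a).comp γ = (z : A i →+* R) := RingHom.ext fun r => by
    rw [RingHom.comp_apply, hγ, hg2]
    rfl
  have hβα : (bet φ u κ a hu).comp (algebraMap R[X] (Localization (Mo a))) = evE φ u κ :=
    RingHom.ext fun r => bet_alg φ u κ a hu r
  have hδα : (del a).comp (algebraMap R[X] (Localization (Mo a))) = evalRingHom a :=
    RingHom.ext fun r => del_alg a r
  -- compatibility with the structure morphisms
  have hlin : θ.comp (algebraMap ℂ (A i)) = φ.comp (algebraMap ℂ R) := by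
    apply sp_inj
    rw [sp_comp, ← hc.isOver i, ← Category.assoc, ← hθ, Category.assoc, hF, gE, Category.assoc,
      ← Category.assoc (chart R 0), chart_toSpec]
    change sp (evE φ u 0) ≫ sp C ≫ sp (algebraMap ℂ R) = _
    rw [← sp_comp, ← sp_comp]
    refine congrArg (fun f => sp f) (RingHom.ext fun x => ?_)
    simp [evE]
  have key : sp (algebraMap R[X] (Localization (Mo a))) ≫ chart R κ ≫ F = sp γ ≫ c i := by
    apply sep X π (Localization (Mo a)) E (bet φ u κ a hu) hbi
    · rw [Category.assoc, Category.assoc, Category.assoc, hF, hc.isOver i,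
        ← Category.assoc (chart R κ), chart_toSpec]
      change sp _ ≫ sp C ≫ sp (algebraMap ℂ R) = _
      rw [← sp_comp, ← sp_comp, ← sp_comp]
      refine congrArg (fun f => sp f) (RingHom.ext fun x => hbi ?_)
      have h1 : θ (algebraMap ℂ (A i) x) = φ (algebraMap ℂ R x) := congrArg (fun f => f x) hlin
      simp only [RingHom.comp_apply]
      rw [bet_alg, hγ, hg1, h1]
      simp [evE]
    · rw [sp_comp_assoc, sp_comp_assoc, hβα, hβγ, ← hθ, ← Category.assoc, gE_eq]
  rw [pt, Category.assoc, ← hδα, sp_comp, Category.assoc, key, sp_comp_assoc, hδγ]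

end RC
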