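import Pool.Agent.Work.MP_0ac1ea_ag.RC.H_FINAL

/-!
# Block H (schemes): very free curves
-/

set_option autoImplicit false

open AlgebraicGeometry CategoryTheory Limits Polynomial

namespace RC

theorem plext (sep : S_SEP) (inj : S_INJ) {X : Scheme.{0}} {π : X ⟶ SpecC} [IsSeparated π]
    {a b : PL ⟶ X} (hab : a ≫ π = b ≫ π) (hg : gen ≫ a = gen ≫ b) : a = b := by
  refine P1.hom_ext fun κ => ?_
  refine sep X π _ _ (evE RatFunc.C uR κ) (inj.1 κ) _ _ ?_ ?_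
  · rw [Category.assoc, Category.assoc, hab]
  · rw [← Category.assoc, ← Category.assoc, gE_eq]
    exact hg

/-- reduction modulo `ε` -/
noncomputable def fstC : DualNumber ℂ →+* ℂ := (TrivSqZeroExt.fstHom ℂ ℂ ℂ).toRingHom

/-- reduction modulo `ε` -/
noncomputable def fstR : RE →+* RatFunc ℂ :=
  (TrivSqZeroExt.fstHom (RatFunc ℂ) (RatFunc ℂ) (RatFunc ℂ)).toRingHom

theorem fstC_apply (x : DualNumber ℂ) : fstC x = x.fst := rfl

theorem fstR_apply (x : RE) : fstR x = x.fst := rfl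

theorem gen_map : gen ≫ P1.map fstC = sp fstR ≫ gE cE uE := by
  rw [gen, gE, gE, Category.assoc, chart_map, ← Category.assoc, ← sp_comp, ← Category.assoc,
    ← sp_comp]
  congr 2
  refine Polynomial.ringHom_ext (fun a => ?_) ?_
  · simp [evE, fstC_apply, fstR_apply, cE]
  · simp [evE, fstR_apply, uE]

theorem evE_map {τ : ℂ →+* DualNumber ℂ} {τu : RatFunc ℂ →+* RE}
    (h1 : ∀ c, τu (RatFunc.C c) = cE (τ c)) (h2 : τu RatFunc.X = uE) (κ : Fin 2) (p : ℂ[X]) :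
    evE cE uE κ (p.map τ) = τu (evE RatFunc.C uR κ p) := by
  have h3 : (evE cE uE κ).comp (Polynomial.mapRingHom τ) = τu.comp (evE RatFunc.C uR κ) := by
    refine Polynomial.ringHom_ext (fun a => ?_) ?_
    · simp [evE, h1]
    · rcases (show κ = 0 ∨ κ = 1 by fin_cases κ <;> simp) with rfl | rfl
      · simp [evE, uR, h2]
      · have h4 : Units.map (τu : RatFunc ℂ →* RE) uR = uE := Units.ext h2
        have h5 : ((uE⁻¹ : REˣ) : RE) = τu ((uR⁻¹ : (RatFunc ℂ)ˣ) : RatFunc ℂ) := by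
          rw [← h4, ← map_inv]
          rfl
        simp [evE, h5]
  exact RingHom.congr_fun h3 p

theorem ringHom_eq_of_gens {k₁ : Subfield ℂ} {L : Type} [Field L] [Algebra k₁ L] {M : ℕ}
    {y : Fin M → L} (hy : IntermediateField.adjoin k₁ (Set.range y) = ⊤) {E : Type} [Field E]
    {g g' : L →+* E} (h0 : ∀ z : k₁, g (algebraMap k₁ L z) = g' (algebraMap k₁ L z))
    (hj : ∀ j, g (y j) = g' (y j)) : g = g' := by
  ext l
  have hl : l ∈ IntermediateField.adjoin k₁ (Set.range y) := by rw [hy]; trivial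
  induction hl using IntermediateField.adjoin_induction with
  | mem x hx =>
    obtain ⟨j, rfl⟩ := hx
    exact hj j
  | algebraMap z => exact h0 z
  | add x z hx hz h1 h2 => rw [map_add, map_add, h1, h2]
  | inv x hx h1 => rw [map_inv₀, map_inv₀, h1]
  | mul x z hx hz h1 h2 => rw [map_mul, map_mul, h1, h2]

theorem adjoin_le_A {k₁ : Subfield ℂ} {K : Type} [Field K] [Algebra ℂ K] {S : Set K}
    {B : Subalgebra ℂ K} (hB : B = Algebra.adjoin ℂ S) {a : K} (ha : a ∈ Algebra.adjoin k₁ S) :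
    a ∈ B := by
  rw [hB]
  induction ha using Algebra.adjoin_induction with
  | mem x hx => exact Algebra.subset_adjoin hx
  | algebraMap z =>
    have : algebraMap k₁ K z = algebraMap ℂ K (z : ℂ) := rfl
    rw [this]
    exact Subalgebra.algebraMap_mem _ _
  | add x z _ _ h1 h2 => exact add_mem h1 h2
  | mul x z _ _ h1 h2 => exact mul_mem h1 h2

theorem adjoin_le_Lk {k₁ : Subfield ℂ} {K : Type} [Field K] [Algebra ℂ K] {M : ℕ}
    {y : Fin M → K} {T : Finset (Fin M)} {a : K} (ha : a ∈ Algebra.adjoin k₁ (y '' T)) :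
    a ∈ Lk k₁ y := by
  have h : Algebra.adjoin k₁ (y '' T) ≤ (Lk k₁ y).toSubalgebra :=
    Algebra.adjoin_le (by
      rintro _ ⟨j, -, rfl⟩
      exact IntermediateField.subset_adjoin _ _ ⟨j, rfl⟩)
  exact h ha

/-- a tangent vector at a generic point as a homomorphism of the function field -/
theorem exists_tangent (theta : S_THETA) {X : Scheme.{0}} {π : X ⟶ SpecC} {K : Type} [Field K]
    [Algebra ℂ K] {ι : Type} {A : ι → Subalgebra ℂ K} {c : ∀ i, Spec (.of (A i)) ⟶ X}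
    {k₁ : Subfield ℂ} {M : ℕ} {y : Fin M → K} {T : ι → Finset (Fin M)}
    (hM : Mdl π K A c k₁ y T) {y0 : Lk k₁ y →+* ℂ} (hy0 : Ov k₁ (RingHom.id ℂ) y0) (i : ι)
    (Y0 : A i →ₐ[ℂ] ℂ) (hY0 : ∀ (r : A i) (l : Lk k₁ y), (r : K) = l → Y0 r = y0 l)
    (v : A i →ₐ[ℂ] DualNumber ℂ) (hv : ∀ a, (v a).fst = Y0 a) :
    ∃ V : Lk k₁ y →+* DualNumber ℂ,
      (∀ z : k₁, V (algebraMap k₁ _ z) = TrivSqZeroExt.inl (z : ℂ)) ∧
      (∀ (r : A i) (l : Lk k₁ y), (r : K) = l → V l = v r) ∧ ∀ l, (V l).fst = y0 l := by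
  obtain ⟨V, hV1, hV2⟩ := theta k₁ K M y Unit (fun _ => A i) (fun _ => T i) (fun _ => hM.gens i)
    (fun _ => hM.fr i) (DualNumber ℂ) (fun _ => v)
    (by
      intro _ _ s b a hab
      rw [← map_mul]
      congr 1
      exact Subtype.ext hab)
    (by
      intro _ r hr hr0
      rw [TrivSqZeroExt.isUnit_iff_isUnit_fst, hv, isUnit_iff_ne_zero,
        hY0 r ⟨r, hr⟩ rfl, Ne, map_eq_zero]
      intro h
      exact hr0 (Subtype.ext (congrArg (fun l : Lk k₁ y => (l : K)) h)))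
  refine ⟨V, fun z => hV1 z, fun r l h => hV2 () r l h, ?_⟩
  have h1 : fstC.comp V = y0 := by
    refine ringHom_eq_of_gens (adjoin_yL k₁ y) (fun z => ?_) (fun j => ?_)
    · rw [RingHom.comp_apply, hV1, hy0 z]
      rfl
    · obtain ⟨s, hs, b, hb, hs0, hsb⟩ := hM.fr i j
      have hsL := adjoin_le_Lk hs
      have hbL := adjoin_le_Lk hb
      have hsA := adjoin_le_A (hM.gens i) hs
      have hbA := adjoin_le_A (hM.gens i) hb
      have h2 : (yL k₁ y j) * ⟨s, hsL⟩ = (⟨b, hbL⟩ : Lk k₁ y) := Subtype.ext hsb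
      have h3 : V ⟨s, hsL⟩ = v ⟨s, hsA⟩ := hV2 () ⟨s, hsA⟩ ⟨s, hsL⟩ rfl
      have h4 : V ⟨b, hbL⟩ = v ⟨b, hbA⟩ := hV2 () ⟨b, hbA⟩ ⟨b, hbL⟩ rfl
      have h5 : fstC (V ⟨s, hsL⟩) = y0 ⟨s, hsL⟩ := by
        rw [h3, fstC_apply, hv, hY0 ⟨s, hsA⟩ ⟨s, hsL⟩ rfl]
      have h6 : fstC (V ⟨b, hbL⟩) = y0 ⟨b, hbL⟩ := by
        rw [h4, fstC_apply, hv, hY0 ⟨b, hbA⟩ ⟨b, hbL⟩ rfl]
      have h7 : fstC (V (yL k₁ y j)) * y0 ⟨s, hsL⟩ = y0 (yL k₁ y j) * y0 ⟨s, hsL⟩ := by
        rw [← h5, ← map_mul, ← map_mul, h2, h6, h5, ← map_mul, h2]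
      refine mul_right_cancel₀ ?_ h7
      rw [Ne, map_eq_zero]
      intro h
      exact hs0 (congrArg (fun l : Lk k₁ y => (l : K)) h)
  intro l
  exact RingHom.congr_fun h1 l

theorem pt_toSpec {R : Type} [CommRing R] (κ : Fin 2) (a : R) :
    pt κ a ≫ P1.toSpec R = 𝟙 (Spec (.of R)) := by
  rw [pt, Category.assoc, chart_toSpec, ← Spec.map_comp]
  refine Eq.trans (congrArg Spec.map ?_) (Spec.map_id _)
  refine CommRingCat.hom_ext (RingHom.ext fun w => ?_)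
  simp

theorem isPt_pt (κ : Fin 2) (a : ℂ) : IsPt PLs (pt κ a) := pt_toSpec κ a

theorem pt_map {R S : Type} [CommRing R] [CommRing S] (φ : R →+* S) (κ : Fin 2) (a : R) :
    pt κ (φ a) ≫ P1.map φ = sp φ ≫ pt κ a := by
  rw [pt, pt, Category.assoc, chart_map, ← Category.assoc, ← Category.assoc, ← sp_comp, ← sp_comp]
  congr 2
  refine Polynomial.ringHom_ext (fun w => ?_) ?_
  · simp
  · simp

/-- the projective line over `ℂ[ε]` -/
theorem pbE (p1iso : S_P1ISO) : IsPullback (P1.map (algebraMap ℂ (DualNumber ℂ)))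
    (P1.toSpec (DualNumber ℂ)) PLs sE := p1iso ℂ (DualNumber ℂ) (algebraMap ℂ _)

/-- the projective line over `ℂ[ε]` -/
noncomputable def eE (p1iso : S_P1ISO) : P1 (DualNumber ℂ) ≅ PLE := (pbE p1iso).isoPullback

theorem eE_hom_fst (p1iso : S_P1ISO) : (eE p1iso).hom ≫ pullback.fst PLs sE =
    P1.map (algebraMap ℂ (DualNumber ℂ)) := (pbE p1iso).isoPullback_hom_fst

theorem eE_hom_snd (p1iso : S_P1ISO) : (eE p1iso).hom ≫ pullback.snd PLs sE =
    P1.toSpec (DualNumber ℂ) := (pbE p1iso).isoPullback_hom_snd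

theorem eE_inv_snd (p1iso : S_P1ISO) : (eE p1iso).inv ≫ P1.toSpec (DualNumber ℂ) =
    pullback.snd PLs sE := (pbE p1iso).isoPullback_inv_snd

theorem map_fstC_alg : P1.map fstC ≫ P1.map (algebraMap ℂ (DualNumber ℂ)) = 𝟙 PL := by
  refine P1.hom_ext fun i => ?_
  rw [← Category.assoc, chart_map, Category.assoc, chart_map, ← Category.assoc, ← sp_comp,
    Category.comp_id]
  refine Eq.trans (congrArg (· ≫ chart ℂ i) ?_) (Category.id_comp _)
  refine Eq.trans (congrArg Spec.map ?_) (Spec.map_id _)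
  refine CommRingCat.hom_ext (Polynomial.ringHom_ext (fun w => ?_) ?_)
  · simp [fstC_apply]
    rfl
  · simp

theorem zeroE_eq (p1iso : S_P1ISO) : zeroE = P1.map fstC ≫ (eE p1iso).hom := by
  refine pullback.hom_ext ?_ ?_
  · rw [zeroE, pullback.lift_fst, Category.assoc, eE_hom_fst, map_fstC_alg]
  · rw [zeroE, pullback.lift_snd, Category.assoc, eE_hom_snd, (p1iso _ _ fstC).w]
    rfl

theorem secE_eq (p1iso : S_P1ISO) (κ : Fin 2) (a : ℂ) : secE (pt κ a) (isPt_pt κ a) =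
    pt κ (algebraMap ℂ (DualNumber ℂ) a) ≫ (eE p1iso).hom := by
  refine pullback.hom_ext ?_ ?_
  · rw [secE, pullback.lift_fst, Category.assoc, eE_hom_fst, pt_map]
    rfl
  · rw [secE, pullback.lift_snd, Category.assoc, eE_hom_snd, pt_toSpec]

theorem pr_VF (mk : S_MK) (valm : S_VALM) (lift : S_LIFT) (theta : S_THETA) (tau : S_TAU)
    (tu : S_TU) (p1iso : S_P1ISO) (inj : S_INJ) (sep : S_SEP) (regk : S_REGK) : S_VF := by
  intro X π _ K _ _ ι _ _ A c k₁ M y T hM k hkk _ _ y0 x hy0 hx hy0k hxg Y0 X0 hY0 hX0 f hf hcert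
    hv0 hvi F hF G hG hGf i hP hQ hpq
  refine ⟨pt 0 0, pt 1 0, isPt_pt 0 0, isPt_pt 1 0, hpq, fun v w hv hw => ?_⟩
  rw [hP] at hv
  rw [hQ] at hw
  obtain ⟨v', rfl, hv'⟩ := (lift X π K ι A c hM.atlas).2 i (Y0 i) v hv
  obtain ⟨w', rfl, hw'⟩ := (lift X π K ι A c hM.atlas).2 i (X0 i) w hw
  obtain ⟨V, hV1, hV2, hV3⟩ := exists_tangent theta hM hy0 i (Y0 i) (hY0 i) v' hv'
  obtain ⟨W, hW1, hW2, hW3⟩ := exists_tangent theta hM hx i (X0 i) (hX0 i) w' hw'
  obtain ⟨τ, hτ1, hτ2, hτ3, hτ4⟩ := tau k₁ k hkk (Lk k₁ y) M (yL k₁ y) (adjoin_yL k₁ y) y0 x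
    hy0 hx hy0k hxg V W hV1 hW1 hV3 hW3
  obtain ⟨τu, hτu1, hτu2, hτu3⟩ := tu τ hτ1
  have hcE : ∀ z : ℂ, cE (algebraMap ℂ (DualNumber ℂ) z) = algebraMap ℂ RE z := by
    intro z
    ext
    · simp [cE]
      rfl
    · simp [cE]
      exact map_zero RatFunc.C
  obtain ⟨F', G', hF', hG', hGf'⟩ := mk X π K ι A c k₁ M y T hM (DualNumber ℂ) RE cE uE hcE
    inj.2.1 τ τu hτu1 hτu2 (fun z hz => hτ2 z hz) f hf hcert (fun l => ⟨_, hvi l⟩)
  have hval : ∀ (κ : Fin 2) (w : A i →ₐ[ℂ] DualNumber ℂ) (g : Lk k₁ y →+* ℂ)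
      (_ : ∀ (r : A i) (l : Lk k₁ y), (r : K) = l → τ (g l) = w r),
      (∀ j, RegK κ (f (yL k₁ y j)) 0 (g (yL k₁ y j))) →
      pt κ (algebraMap ℂ (DualNumber ℂ) 0) ≫ F' = sp (w : A i →+* DualNumber ℂ) ≫ c i := by
    intro κ w g hg hw
    refine valm X π K ι A c k₁ M y T hM (DualNumber ℂ) RE cE uE hcE κ _ (inj.2.1 κ)
      (inj.2.2.2 κ _) F' hF' i (G' i) (hG' i) w ?_
    intro r j hj hr
    obtain ⟨A', B', h1, h2, h3⟩ := hw j
    have h0 : ∀ P : ℂ[X], (P.map τ).eval (algebraMap ℂ (DualNumber ℂ) 0) = τ (P.eval 0) := by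
      intro P
      rw [map_zero, Polynomial.eval_zero_map]
    refine ⟨A'.map τ, B'.map τ, ?_, ?_, ?_⟩
    · rw [h0]
      exact (isUnit_iff_ne_zero.2 h1).map τ
    · rw [hGf' i r (yL k₁ y j) hr, evE_map hτu1 hτu2, evE_map hτu1 hτu2, ← map_mul, h2]
    · rw [h0, h0, h3, map_mul, hg r (yL k₁ y j) hr]
  refine ⟨(eE p1iso).inv ≫ F', ⟨?_, ?_⟩, ?_, ?_⟩
  · rw [Category.assoc, hF', ← Category.assoc, eE_inv_snd, pullback.condition]
    rfl
  · rw [zeroE_eq p1iso, Category.assoc, Iso.hom_inv_id_assoc]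
    refine plext (π := π) sep inj ?_ ?_
    · rw [Category.assoc, hF', ← Category.assoc, (p1iso _ _ fstC).w, Category.assoc, ← sp_comp]
      rw [IsCurve] at hF
      rw [hF]
      refine Eq.trans (congrArg (PLs ≫ ·) ?_) (Category.comp_id _)
      refine Eq.trans (congrArg Spec.map ?_) (Spec.map_id _)
      exact CommRingCat.hom_ext (RingHom.ext fun x => rfl)
    · rw [← Category.assoc, gen_map, Category.assoc, hG' i, hG i, ← Category.assoc, ← sp_comp]
      congr 2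
      have h1 : ∀ a (ha : a ∈ Algebra.adjoin ℂ (y '' T i)) (ha' : a ∈ A i),
          fstR (G' i ⟨a, ha'⟩) = G i ⟨a, ha'⟩ := by
        intro a ha
        induction ha using Algebra.adjoin_induction with
        | mem a ha =>
          intro ha'
          obtain ⟨j, hj, rfl⟩ := ha
          rw [hGf' i ⟨y j, ha'⟩ (yL k₁ y j) rfl, hGf i ⟨y j, ha'⟩ (yL k₁ y j) rfl, fstR_apply,
            hτu3]
        | algebraMap z =>
          intro ha'
          have h2 : (⟨algebraMap ℂ K z, ha'⟩ : A i) = algebraMap ℂ (A i) z := rfl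
          rw [h2, AlgHom.commutes, AlgHom.commutes]
          rfl
        | add a b ha hb h1 h2 =>
          intro hab
          rw [← hM.gens i] at ha hb
          have h3 : (⟨a + b, hab⟩ : A i) = ⟨a, ha⟩ + ⟨b, hb⟩ := rfl
          rw [h3, map_add, map_add, map_add, h1, h2]
        | mul a b ha hb h1 h2 =>
          intro hab
          rw [← hM.gens i] at ha hb
          have h3 : (⟨a * b, hab⟩ : A i) = ⟨a, ha⟩ * ⟨b, hb⟩ := rfl
          rw [h3, map_mul, map_mul, map_mul, h1, h2]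
      ext r
      exact h1 r (hM.gens i ▸ r.2) r.2
  · rw [secE_eq p1iso, Category.assoc, Iso.hom_inv_id_assoc]
    refine hval 0 v' y0 (fun r l hrl => ?_) (fun j => (regk.1 _ _ _).1 (hv0 _))
    rw [hτ3, hV2 r l hrl]
  · rw [secE_eq p1iso, Category.assoc, Iso.hom_inv_id_assoc]
    refine hval 1 w' x (fun r l hrl => ?_) (fun j => (regk.2 _ _).1 (hvi _))
    rw [hτ4, hW2 r l hrl]

end RC
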