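import Pool.Agent.Work.MP_0ac1ea_ag.RC.CStmts6

/-!
# Item NFIX: `λ`-adic fixed points in `W`
-/

open PowerSeries

namespace RC

namespace NFIX_aux

theorem dvd_iff (m : ℕ) (g : W) :
    lamW ^ m ∣ g ↔ ∀ k, ∀ j < m, coeff j (coeff k g) = 0 := by
  have hl : lamW ^ m = PowerSeries.C ((X : PowerSeries ℂ) ^ m) := by
    rw [lamW, ← map_pow]
  constructor
  · rintro ⟨h, rfl⟩ k
    rw [hl, coeff_C_mul]
    exact X_pow_dvd_iff.mp (Dvd.intro _ rfl)
  · intro h
    have h1 : ∀ k, ∃ q, coeff k g = (X : PowerSeries ℂ) ^ m * q :=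
      fun k => X_pow_dvd_iff.mpr (h k)
    choose q hq using h1
    refine ⟨PowerSeries.mk q, ?_⟩
    ext k : 1
    rw [hl, coeff_C_mul, coeff_mk, hq]

/-- the iteration -/
noncomputable def it (w0 : W) (R : Polynomial W) : ℕ → W
  | 0 => w0
  | n + 1 => w0 + lamW * R.eval (it w0 R n)

theorem it_step (w0 : W) (R : Polynomial W) (n : ℕ) :
    lamW ^ (n + 1) ∣ it w0 R (n + 1) - it w0 R n := by
  induction n with
  | zero => exact ⟨R.eval w0, by simp [it]⟩
  | succ n ih =>
    have h1 : it w0 R (n + 1 + 1) - it w0 R (n + 1)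
        = lamW * (R.eval (it w0 R (n + 1)) - R.eval (it w0 R n)) := by
      show (w0 + lamW * R.eval (it w0 R (n + 1))) - (w0 + lamW * R.eval (it w0 R n)) = _
      ring
    rw [h1, pow_succ' lamW (n + 1)]
    exact mul_dvd_mul_left _ (ih.trans (Polynomial.sub_dvd_eval_sub _ _ _))

theorem it_far (w0 : W) (R : Polynomial W) (n d : ℕ) :
    lamW ^ (n + 1) ∣ it w0 R (n + d) - it w0 R n := by
  induction d with
  | zero => simp
  | succ d ih =>
    have h2 : it w0 R (n + (d + 1)) - it w0 R n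
        = (it w0 R (n + d + 1) - it w0 R (n + d)) + (it w0 R (n + d) - it w0 R n) := by
      rw [← Nat.add_assoc]; ring
    rw [h2]
    exact dvd_add ((pow_dvd_pow _ (by omega)).trans (it_step w0 R (n + d))) ih

/-- the limit -/
noncomputable def lim (w0 : W) (R : Polynomial W) : W :=
  PowerSeries.mk fun k => PowerSeries.mk fun j => coeff j (coeff k (it w0 R j))

theorem lim_sub (w0 : W) (R : Polynomial W) (n : ℕ) :
    lamW ^ (n + 1) ∣ lim w0 R - it w0 R n := by
  rw [dvd_iff]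
  intro k j hj
  rw [map_sub, map_sub, lim, coeff_mk, coeff_mk]
  obtain ⟨d, rfl⟩ : ∃ d, n = j + d := ⟨n - j, by omega⟩
  have h3 := (dvd_iff _ _).mp (it_far w0 R j d) k j (by omega)
  rw [map_sub, map_sub, sub_eq_zero] at h3
  rw [h3, sub_self]

end NFIX_aux

open NFIX_aux in
theorem pr_NFIX : S_NFIX := by
  intro w0 R
  refine ⟨lim w0 R, ?_⟩
  rw [← sub_eq_zero]
  have key : ∀ n : ℕ, lamW ^ (n + 1) ∣ lim w0 R - (w0 + lamW * R.eval (lim w0 R)) := by
    intro n
    have h1 : lim w0 R - (w0 + lamW * R.eval (lim w0 R))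
        = (lim w0 R - it w0 R (n + 1))
          + lamW * (R.eval (it w0 R n) - R.eval (lim w0 R)) := by
      show _ = (lim w0 R - (w0 + lamW * R.eval (it w0 R n))) + _
      ring
    rw [h1]
    refine dvd_add ((pow_dvd_pow _ (by omega)).trans (lim_sub w0 R (n + 1))) ?_
    refine Dvd.dvd.mul_left ?_ _
    rw [← neg_sub, dvd_neg]
    exact (lim_sub w0 R n).trans (Polynomial.sub_dvd_eval_sub _ _ _)
  ext k j
  exact (dvd_iff _ _).mp (key j) k j (by omega)

end RC
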