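import Pool.Agent.Work.MP_0ac1ea_ag.RC.CStmts5
import Pool.Agent.Work.MP_0ac1ea_ag.RC.Basic

/-!
# Item TB (helper31): a transcendence basis among the coordinates
-/

namespace RC

theorem pr_TB : S_TB := by
  classical
  intro k₁ L _ _ M y hy
  have halg : Algebra.IsAlgebraic (Algebra.adjoin k₁ (Set.range y)) L := by
    refine ⟨fun x => ?_⟩
    have h1 : IsAlgebraic (IntermediateField.adjoin k₁ (Set.range y)) x := by
      have hx : x ∈ IntermediateField.adjoin k₁ (Set.range y) := by rw [hy]; trivial
      exact isAlgebraic_algebraMap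
        (⟨x, hx⟩ : IntermediateField.adjoin k₁ (Set.range y))
    exact IntermediateField.isAlgebraic_adjoin_iff.1 h1
  obtain ⟨t, ht, hb⟩ := exists_isTranscendenceBasis_subset (R := k₁) (Set.range y)
  have htf : t.Finite := (Set.finite_range y).subset ht
  obtain ⟨n, e⟩ := Finite.exists_equiv_fin t (h := htf.to_subtype)
  obtain ⟨e⟩ := e
  have hch : ∀ i : Fin n, ∃ c : Fin M, y c = ((e.symm i : t) : L) := fun i => ht (e.symm i).2
  choose c hc using hch
  refine ⟨n, c, ?_⟩
  have h2 : (fun i => y (c i)) = (Subtype.val : t → L) ∘ e.symm := funext fun i => hc i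
  rw [h2]
  exact (isTranscendenceBasis_equiv' (R := k₁) e.symm rfl).2 hb
end RC
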