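import Pool.Agent.Work.MP_0ac1ea_ag.RC.H_ACL
import Pool.Agent.Work.MP_0ac1ea_ag.RC.H_ATLAS
import Pool.Agent.Work.MP_0ac1ea_ag.RC.H_BC
import Pool.Agent.Work.MP_0ac1ea_ag.RC.H_CERTINF
import Pool.Agent.Work.MP_0ac1ea_ag.RC.H_CERTLOC
import Pool.Agent.Work.MP_0ac1ea_ag.RC.H_COEF
import Pool.Agent.Work.MP_0ac1ea_ag.RC.H_DIM0
import Pool.Agent.Work.MP_0ac1ea_ag.RC.H_EXT
import Pool.Agent.Work.MP_0ac1ea_ag.RC.H_FINAL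
import Pool.Agent.Work.MP_0ac1ea_ag.RC.H_GENPT
import Pool.Agent.Work.MP_0ac1ea_ag.RC.H_GLUE
import Pool.Agent.Work.MP_0ac1ea_ag.RC.H_INJ
import Pool.Agent.Work.MP_0ac1ea_ag.RC.H_K1
import Pool.Agent.Work.MP_0ac1ea_ag.RC.H_LIFT
import Pool.Agent.Work.MP_0ac1ea_ag.RC.H_LOCREG
import Pool.Agent.Work.MP_0ac1ea_ag.RC.H_MOB2
import Pool.Agent.Work.MP_0ac1ea_ag.RC.H_MODEL
import Pool.Agent.Work.MP_0ac1ea_ag.RC.H_OMEGA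
import Pool.Agent.Work.MP_0ac1ea_ag.RC.H_OV1
import Pool.Agent.Work.MP_0ac1ea_ag.RC.H_OV2
import Pool.Agent.Work.MP_0ac1ea_ag.RC.H_P1ISO
import Pool.Agent.Work.MP_0ac1ea_ag.RC.H_PT
import Pool.Agent.Work.MP_0ac1ea_ag.RC.H_PTEQ
import Pool.Agent.Work.MP_0ac1ea_ag.RC.H_REGK
import Pool.Agent.Work.MP_0ac1ea_ag.RC.H_SEP
import Pool.Agent.Work.MP_0ac1ea_ag.RC.H_TAU
import Pool.Agent.Work.MP_0ac1ea_ag.RC.H_THETA
import Pool.Agent.Work.MP_0ac1ea_ag.RC.H_TU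
import Pool.Agent.Work.MP_0ac1ea_ag.RC.H_VALG
import Pool.Agent.Work.MP_0ac1ea_ag.RC.H_VF
import Pool.Agent.Work.MP_0ac1ea_ag.RC.CoreAsm
import Pool.Agent.Work.MP_0ac1ea_ag.RC.I_NFIX
import Pool.Agent.Work.MP_0ac1ea_ag.RC.I_DER
import Pool.Agent.Work.MP_0ac1ea_ag.RC.I_GENAI
import Pool.Agent.Work.MP_0ac1ea_ag.RC.I_TB

/-!
# Block H (schemes): wiring
-/

set_option autoImplicit false

open AlgebraicGeometry CategoryTheory Limits Polynomial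

namespace RC

theorem final_of (mk : S_MK) (valm : S_VALM) (algc : S_ALGC) (genx : S_GENX) (eps : S_EPS) :
    FinalStmt :=
  final_stmt (pr_MODEL pr_ATLAS pr_OV2 pr_OMEGA pr_LIFT (pr_K1 pr_ACL) pr_COEF) (pr_EXT pr_BC) mk
    valm algc (pr_VF mk valm pr_LIFT pr_THETA (pr_TAU pr_DER pr_GENAI pr_TB) pr_TU pr_P1ISO pr_INJ
    pr_SEP pr_REGK) (core_of pr_NFIX eps) genx pr_ACL pr_INJ pr_REGK

end RC
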