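import Pool.Agent.Work.MP_0ac1ea_ag.RC.Defs

/-!
# Statements of the items of the algebraic core (block C)
-/

open Polynomial

namespace RC

/-- `f : L → A` is a homomorphism over the field `k₁` (which acts on `A` through `i : ℂ → A`) -/
def Ov {L A : Type} [Field L] [CommRing A] (k₁ : Subfield ℂ) [Algebra k₁ L] (i : ℂ →+* A)
    (f : L →+* A) : Prop := ∀ c : k₁, f (algebraMap k₁ L c) = i (c : ℂ)

/-- constants `ℂ → ℂ((λ))[[η]]` -/
noncomputable def cA : ℂ →+* Ann := (PowerSeries.C).comp cL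
/-- constants `ℂ → ℂ(u)` -/
noncomputable def cR : ℂ →+* RatFunc ℂ := RatFunc.C
/-- constants `ℂ → ℂ((t))(w)` -/
noncomputable def cRL : ℂ →+* RatFunc Lam := (RatFunc.C).comp cL

/-- `x` is generic over `k`: `x(L)` and `k` are linearly disjoint over `k₁` -/
def GenOver {L : Type} [Field L] (k₁ k : Subfield ℂ) [Algebra k₁ L] (x : L →+* ℂ) : Prop :=
  ∀ (m : ℕ) (v : Fin m → L), LinearIndependent k₁ v → LinearIndependent k (fun i => x (v i))

/-- `z` is a point (with coordinates in `k₁`) of the chart `k₁[y_j : j ∈ T]` -/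
def ChartPt {L : Type} [Field L] {M : ℕ} (k₁ : Subfield ℂ) [Algebra k₁ L] (y : Fin M → L)
    (T : Finset (Fin M)) (z : Fin M → ℂ) : Prop :=
  (∀ j ∈ T, z j ∈ k₁) ∧ ∀ P : MvPolynomial {j // j ∈ T} k₁,
    MvPolynomial.aeval (fun j : {j // j ∈ T} => y j) P = 0 →
    MvPolynomial.eval₂ k₁.subtype (fun j : {j // j ∈ T} => z j) P = 0

/-- finite generation of a field over a subfield of `ℂ` -/
def FGField (k : Subfield ℂ) (F : Type) [Field F] [Algebra k F] : Prop :=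
  ∃ s : Finset F, IntermediateField.adjoin k (s : Set F) = ⊤

/-- LEMMA V. -/
def S_LEMV : Prop := ∀ (k : Subfield ℂ) [IsAlgClosed k] [Countable k] (F : Type) [Field F]
  [Algebra k F] (_ : FGField k F) (R : Subalgebra k F) (_ : R.FG) (m : R →ₐ[k] k),
  ∃ θ : F →+* Lam, Ov k cL θ ∧
    ∀ r : R, ∃ p : PowerSeries ℂ, θ (r : F) = jL p ∧ PowerSeries.constantCoeff p = (m r : ℂ)

/-- LEMMA V, part 1: enlarge the ring to one with full fraction field. -/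
def S_V1 : Prop := ∀ (k : Subfield ℂ) [IsAlgClosed k] (F : Type) [Field F]
  [Algebra k F] (_ : FGField k F) (R : Subalgebra k F) (_ : R.FG) (m : R →ₐ[k] k),
  ∃ (R' : Subalgebra k F) (hR : R ≤ R') (m' : R' →ₐ[k] k), R'.FG ∧
    (∀ r : R, m' ⟨r, hR r.2⟩ = m r) ∧ ∀ a : F, ∃ b c : R', (c : F) ≠ 0 ∧ a * c = b

/-- LEMMA V, part 2: generic formal arc through a point of an affine variety. -/
def S_V2 : Prop := ∀ (k : Subfield ℂ) [IsAlgClosed k] [Countable k] (R : Type) [CommRing R]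
  [IsDomain R] [Algebra k R] [Algebra.FiniteType k R] (m : R →ₐ[k] k),
  ∃ θ : R →+* PowerSeries ℂ, Function.Injective θ ∧
    (∀ c : k, θ (algebraMap k R c) = PowerSeries.C (c : ℂ)) ∧
    ∀ r, PowerSeries.constantCoeff (θ r) = (m r : ℂ)

/-- the field of definition of a curve -/
def S_F0 : Prop := ∀ (k₁ k : Subfield ℂ) (_ : k₁ ≤ k) (L : Type) [Field L] [Algebra k₁ L]
  (ι : Type) [Fintype ι] (M : ℕ) (y : Fin M → L)
  (_ : IntermediateField.adjoin k₁ (Set.range y) = ⊤) (S : ι → Finset (Fin M))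
  (y0 x : L →+* ℂ) (_ : Ov k₁ (RingHom.id ℂ) y0) (_ : Ov k₁ (RingHom.id ℂ) x)
  (_ : ∀ l, y0 l ∈ k) (f : L →+* RatFunc ℂ) (_ : Ov k₁ cR f) (_ : Cert y S f)
  (_ : ∀ l, RegVal (f l) 0 (y0 l)) (_ : ∀ l, RegValInf (f l) (x l)),
  ∃ (F : IntermediateField k ℂ) (f0 : L →+* RatFunc F), F.FG ∧
    (∀ c : k₁, f0 (algebraMap k₁ L c) = RatFunc.C (algebraMap k F ⟨c, ‹k₁ ≤ k› c.2⟩)) ∧
    Cert y S f0 ∧ (∀ l, ∃ v : F, (v : ℂ) = y0 l ∧ RegVal (f0 l) 0 v) ∧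
    (∀ l, ∃ v : F, (v : ℂ) = x l ∧ RegValInf (f0 l) v)

/-- extension of scalars for curves -/
def S_MAPK : Prop := ∀ (L : Type) [Field L] (ι : Type) [Fintype ι] (M : ℕ) (y : Fin M → L)
  (S : ι → Finset (Fin M)) (F K : Type) [Field F] [Field K] (θ : F →+* K)
  (f0 : L →+* RatFunc F) (_ : Cert y S f0),
  ∃ D : L →+* RatFunc K, Cert y S D ∧
    (∀ l p c, RegVal (f0 l) p c → RegVal (D l) (θ p) (θ c)) ∧
    (∀ l c, RegValInf (f0 l) c → RegValInf (D l) (θ c)) ∧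
    (∀ l c, f0 l = RatFunc.C c → D l = RatFunc.C (θ c))

/-- linear disjointness and relations: a relation over `k` between the `x(y_j)`, `j ∈ T`, holds
for every chart point over `k₁` -/
def S_ZREL : Prop := ∀ (k₁ k : Subfield ℂ) (_ : k₁ ≤ k) (L : Type) [Field L] [Algebra k₁ L]
  (M : ℕ) (y : Fin M → L) (T : Finset (Fin M)) (x : L →+* ℂ) (_ : Ov k₁ (RingHom.id ℂ) x)
  (_ : GenOver k₁ k x) (z : Fin M → ℂ) (_ : ChartPt k₁ y T z)
  (P : MvPolynomial {j // j ∈ T} k),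
  MvPolynomial.eval₂ k.subtype (fun j : {j // j ∈ T} => x (y j)) P = 0 →
  MvPolynomial.eval₂ k.subtype (fun j : {j // j ∈ T} => z j) P = 0

/-- STEP (b): the degenerating family `D`. -/
def S_ARC : Prop := ∀ (k₁ k : Subfield ℂ) (_ : k₁ ≤ k) [IsAlgClosed k₁] [IsAlgClosed k]
  [Countable k] (L : Type) [Field L] [Algebra k₁ L]
  (ι : Type) [Fintype ι] (M : ℕ) (y : Fin M → L)
  (_ : IntermediateField.adjoin k₁ (Set.range y) = ⊤) (S : ι → Finset (Fin M))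
  (y0 x : L →+* ℂ) (_ : Ov k₁ (RingHom.id ℂ) y0) (_ : Ov k₁ (RingHom.id ℂ) x)
  (_ : ∀ l, y0 l ∈ k) (_ : GenOver k₁ k x) (f : L →+* RatFunc ℂ) (_ : Ov k₁ cR f)
  (_ : Cert y S f) (_ : ∀ l, RegVal (f l) 0 (y0 l)) (_ : ∀ l, RegValInf (f l) (x l))
  (i0 : ι) (z : Fin M → ℂ) (_ : ChartPt k₁ y (S i0) z),
  ∃ (D : L →+* RatFunc Lam) (X : L →+* Lam), Ov k₁ cRL D ∧ Cert y S D ∧
    (∀ l, RegVal (D l) 0 (cL (y0 l))) ∧ (∀ l, RegValInf (D l) (X l)) ∧
    ∀ j ∈ S i0, ∃ p : PowerSeries ℂ, X (y j) = jL p ∧ PowerSeries.constantCoeff p = z j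

end RC
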