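import Pool.Agent.Work.MP_0ac1ea_ag.RC.CStmts

/-!
# Statements of the items of the algebraic core: block V (Lemma V), details
-/

open Polynomial
open scoped TensorProduct

namespace RC

/-- tensor products of domains over an algebraically closed field are domains -/
def S_TDOM : Prop := ∀ (k : Type) [Field k] [IsAlgClosed k] (R : Type) [CommRing R] [IsDomain R]
  [Algebra k R] [Algebra.FiniteType k R] (A : Type) [CommRing A] [IsDomain A] [Algebra k A],
  IsDomain (A ⊗[k] R)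

/-- going down for integral extensions of a normal domain -/
def S_GODOWN : Prop := ∀ (A B : Type) [CommRing A] [IsDomain A] [IsIntegrallyClosed A]
  [CommRing B] [IsDomain B] [Algebra A B] [Algebra.IsIntegral A B] [FaithfulSMul A B]
  (p q : Ideal A) [p.IsPrime] [q.IsPrime] (_ : p ≤ q) (Q : Ideal B) [Q.IsPrime]
  (_ : Q.comap (algebraMap A B) = q),
  ∃ P : Ideal B, P.IsPrime ∧ P ≤ Q ∧ P.comap (algebraMap A B) = p

/-- Noether normalisation centred at a rational point -/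
def S_NOE : Prop := ∀ (k : Type) [Field k] (R : Type) [CommRing R] [IsDomain R]
  [Algebra k R] [Algebra.FiniteType k R] (m : R →ₐ[k] k),
  ∃ (e : ℕ) (g : MvPolynomial (Fin e) k →ₐ[k] R), Function.Injective g ∧
    g.toRingHom.IsIntegral ∧ ∀ i, m (g (MvPolynomial.X i)) = 0

/-- algebraically independent complex numbers over a countable field -/
def S_AIN : Prop := ∀ (k : Subfield ℂ) [Countable k] (n : ℕ), ∃ c : Fin n → ℂ,
  AlgebraicIndependent k c

/-- the generic line `S_i ↦ c_i t` -/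
def S_LINE : Prop := ∀ (k : Subfield ℂ) (e : ℕ) (c : Fin e → ℂ) (_ : AlgebraicIndependent k c),
  Function.Injective (MvPolynomial.eval₂Hom (Polynomial.C.comp k.subtype)
    (fun i => Polynomial.C (c i) * Polynomial.X) : MvPolynomial (Fin e) k →+* ℂ[X])

/-- a discrete valuation ring over `ℂ` with residue field `ℂ` embeds into `ℂ[[t]]` -/
def S_DVRX : Prop := ∀ (O : Type) [CommRing O] [IsDomain O] [IsDiscreteValuationRing O]
  [Algebra ℂ O] (r : O →ₐ[ℂ] ℂ),
  ∃ ψ : O →+* PowerSeries ℂ, Function.Injective ψ ∧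
    (∀ c : ℂ, ψ (algebraMap ℂ O c) = PowerSeries.C c) ∧
    ∀ a, PowerSeries.constantCoeff (ψ a) = r a

/-- a point on a curve (a domain integral over `ℂ[t]`, the point lying over `t = 0`) has a formal
parametrisation -/
def S_CURVE : Prop := ∀ (T : Type) [CommRing T] [IsDomain T] [Algebra ℂ[X] T]
  [Module.Finite ℂ[X] T] [FaithfulSMul ℂ[X] T] (r : T →+* ℂ)
  (_ : ∀ p : ℂ[X], r (algebraMap ℂ[X] T p) = p.eval 0),
  ∃ ψ : T →+* PowerSeries ℂ, Function.Injective ψ ∧
    (∀ c : ℂ, ψ (algebraMap ℂ[X] T (Polynomial.C c)) = PowerSeries.C c) ∧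
    ∀ a, PowerSeries.constantCoeff (ψ a) = r a

/-- the curve in `Spec (ℂ ⊗ R)` -/
def S_VCUR : Prop := ∀ (k : Subfield ℂ) [IsAlgClosed k] (R : Type) [CommRing R]
  [IsDomain R] [Algebra k R] [Algebra.FiniteType k R] (m : R →ₐ[k] k) (e : ℕ)
  (g : MvPolynomial (Fin (e + 1)) k →ₐ[k] R) (_ : Function.Injective g)
  (_ : g.toRingHom.IsIntegral) (_ : ∀ i, m (g (MvPolynomial.X i)) = 0)
  (c : Fin (e + 1) → ℂ) (_ : AlgebraicIndependent k c),
  ∃ (T : Type) (_ : CommRing T) (_ : IsDomain T) (_ : Algebra ℂ[X] T)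
    (_ : Module.Finite ℂ[X] T) (_ : FaithfulSMul ℂ[X] T) (r : T →+* ℂ) (h : R →+* T),
    (∀ p : ℂ[X], r (algebraMap ℂ[X] T p) = p.eval 0) ∧ (∀ a, r (h a) = (m a : ℂ)) ∧
    (∀ a : k, h (algebraMap k R a) = algebraMap ℂ[X] T (Polynomial.C (a : ℂ))) ∧
    ∀ i, h (g (MvPolynomial.X i)) = algebraMap ℂ[X] T (Polynomial.C (c i) * Polynomial.X)

/-- coefficientwise extension of a field homomorphism to rational functions -/
def S_MAPR : Prop := ∀ (F K : Type) [Field F] [Field K] (θ : F →+* K),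
  ∃ Θ : RatFunc F →+* RatFunc K, (∀ p : F[X], Θ (algebraMap F[X] (RatFunc F) p)
      = algebraMap K[X] (RatFunc K) (p.map θ)) ∧
    (∀ r (p c : F), RegVal r p c → RegVal (Θ r) (θ p) (θ c)) ∧
    (∀ r (c : F), RegValInf r c → RegValInf (Θ r) (θ c)) ∧
    (∀ r (p : F) (c : K), RegVal (Θ r) (θ p) c → ∃ v : F, θ v = c ∧ RegVal r p v) ∧
    (∀ r (c : K), RegValInf (Θ r) c → ∃ v : F, θ v = c ∧ RegValInf r v)

end RC
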