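import Pool.Agent.Work.MP_0ac1ea_ag.RC.CStmts2
import Pool.Agent.Work.MP_0ac1ea_ag.RC.CStmts4

/-!
# Statements of the items of the algebraic core: blocks O (outside), P (globalise),
N (descent), Q (core step)
-/

open Polynomial

namespace RC

/-! ## Block O : the outside curve `θ_a ∘ f` -/

/-- what we use about `θ_a` -/
structure ThProps (ε : ℂ →+* Out) (m : ℕ) (θ : RatFunc ℂ →+* Ann) : Prop where
  C : ∀ c, θ (RatFunc.C c) = iO (ε c)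
  X : θ RatFunc.X = PowerSeries.C (uLam m)
  red : ∀ c, PowerSeries.constantCoeff (ε c) = Polynomial.C c

/-- denominators outside -/
def S_O1 : Prop := ∀ (ε : ℂ →+* Out) (m : ℕ) (_ : 1 ≤ m) (θ : RatFunc ℂ →+* Ann)
  (_ : ThProps ε m θ) (r : RatFunc ℂ), ∃ Q q : Out,
    PowerSeries.constantCoeff Q ≠ 0 ∧ iO Q * θ r = iO q

/-- polynomials outside: `s^E θ(p) ∈ Out` -/
def S_O0 : Prop := ∀ (ε : ℂ →+* Out) (m : ℕ) (_ : 1 ≤ m) (θ : RatFunc ℂ →+* Ann)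
  (_ : ThProps ε m θ) (p : ℂ[X]) (e : ℕ) (_ : p.natDegree ≤ e), ∃ q : Out,
    iO (PowerSeries.C (Polynomial.X ^ ((m + 1) * e))) * θ (algebraMap ℂ[X] (RatFunc ℂ) p) = iO q ∧
    PowerSeries.constantCoeff q = ∑ i ∈ Finset.range (e + 1), Polynomial.C (p.coeff i) *
      ((Polynomial.X - 1) ^ i * Polynomial.X ^ ((m + 1) * (e - i))) ∧
    (∀ σ : ℂ, evS σ q = ∑ i ∈ Finset.range (e + 1), evS σ (ε (p.coeff i)) *
      PowerSeries.C ((σ - 1) ^ i * σ ^ ((m + 1) * (e - i))))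

/-- certificate outside -/
def S_O2 : Prop := ∀ (ε : ℂ →+* Out) (m : ℕ) (_ : 1 ≤ m) (θ : RatFunc ℂ →+* Ann)
  (_ : ThProps ε m θ) (L : Type) [Field L] (ι : Type) [Fintype ι] (M : ℕ) (y : Fin M → L)
  (S : ι → Finset (Fin M)) (f : L →+* RatFunc ℂ) (_ : Cert y S f),
  ∃ (E : ℕ) (d : ι → Out), ∑ i, d i = PowerSeries.C (Polynomial.X ^ E) ∧
    ∀ i, ∀ j ∈ S i, ∃ w : Out, iO (d i) * θ (f (y j)) = iO w

/-- values outside at finite points -/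
def S_O3 : Prop := ∀ (k : Subfield ℂ) (ε : ℂ →+* Out)
  (_ : ∀ c ∈ k, ε c = PowerSeries.C (Polynomial.C c)) (m : ℕ) (_ : 1 ≤ m)
  (θ : RatFunc ℂ →+* Ann) (_ : ThProps ε m θ) (r : RatFunc ℂ) (ν c σ : ℂ) (_ : ν ∈ k)
  (_ : c ∈ k) (_ : RegVal r ν c) (_ : σ ≠ 0) (_ : (σ⁻¹) ^ m * (1 - σ⁻¹) = ν), OutVal (θ r) σ c

/-- values outside at infinity -/
def S_O4 : Prop := ∀ (ε : ℂ →+* Out) (_ : ∀ c, evS 0 (ε c) = PowerSeries.C c) (m : ℕ)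
  (_ : 1 ≤ m) (θ : RatFunc ℂ →+* Ann) (_ : ThProps ε m θ) (r : RatFunc ℂ) (c : ℂ)
  (_ : RegValInf r c), OutVal (θ r) 0 c

/-! ## Block P : globalisation -/

/-- `ℂ[[η]][λ] → ℂ((λ))[[η]]` -/
noncomputable def jP : Polynomial (PowerSeries ℂ) →+* Ann :=
  Polynomial.eval₂RingHom (PowerSeries.map cL) (PowerSeries.C lam)

/-- `ℂ[[η]][λ] → ℂ((η))(λ)` (here `Lam` is used as `ℂ((η))`) -/
noncomputable def jR : Polynomial (PowerSeries ℂ) →+* RatFunc Lam :=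
  (algebraMap (Polynomial Lam) (RatFunc Lam)).comp (Polynomial.mapRingHom jL)

/-- `F ∈ ℂ((λ))[[η]]` and `r ∈ ℂ((η))(λ)` are the same function -/
def Rel (F : Ann) (r : RatFunc Lam) : Prop :=
  ∃ A B : Polynomial (PowerSeries ℂ), B ≠ 0 ∧ r * jR B = jR A ∧ F * jP B = jP A

/-- multiplicative splitting -/
def S_SPLIT : Prop := ∀ F : Ann, PowerSeries.constantCoeff F ≠ 0 →
  ∃ (e : ℤ) (u : W) (v : Out), IsUnit u ∧ IsUnit v ∧ F = PowerSeries.C (lam ^ e) * iW u * iO v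

/-- `W ∩ λ^e Out` consists of polynomials in `λ` over `ℂ[[η]]` -/
def S_POLY : Prop := ∀ (w : W) (q : Out) (e : ℤ), iW w = PowerSeries.C (lam ^ e) * iO q →
  ∃ A : Polynomial (PowerSeries ℂ), jP A = iW w

/-- existence of `ψ` -/
def S_PSI : Prop := ∀ (k₁ : Subfield ℂ) (L : Type) [Field L] [Algebra k₁ L] (M : ℕ)
  (y : Fin M → L) (_ : IntermediateField.adjoin k₁ (Set.range y) = ⊤)
  (Ψ : L →+* Ann) (_ : Ov k₁ cA Ψ)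
  (_ : ∀ j, ∃ H w : W, PowerSeries.constantCoeff H ≠ 0 ∧ iW H * Ψ (y j) = iW w)
  (_ : ∀ j, ∃ Q q : Out, PowerSeries.constantCoeff Q ≠ 0 ∧ iO Q * Ψ (y j) = iO q),
  ∃ ψ : L →+* RatFunc Lam, Ov k₁ cRL ψ ∧ ∀ l, Rel (Ψ l) (ψ l)

/-- gcd lemma -/
def S_GCD : Prop := ∀ (ι : Type) [Fintype ι] (δ : ι → Polynomial (PowerSeries ℂ))
  (_ : ∀ i, δ i ≠ 0)
  (jW : Polynomial (PowerSeries ℂ) →+* W) (_ : ∀ A, iW (jW A) = jP A)
  (N : ℕ) (u : ι → W) (_ : ∑ i, u i * jW (δ i) = PowerSeries.X ^ N)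
  (N' E : ℕ) (v : ι → Out) (δ' : ι → Out)
  (_ : ∀ i, iO (δ' i) * PowerSeries.C (lam ^ (δ i).natDegree) = jP (δ i))
  (_ : ∑ i, v i * δ' i = PowerSeries.X ^ N' * PowerSeries.C (Polynomial.X ^ E)),
  ∃ c : ι → Polynomial Lam, ∑ i, c i * (δ i).map jL = 1

/-- certificate for `ψ` -/
def S_PCERT : Prop := ∀ (L : Type) [Field L] (ι : Type) [Fintype ι] (M : ℕ) (y : Fin M → L)
  (S : ι → Finset (Fin M)) (Ψ : L →+* Ann) (ψ : L →+* RatFunc Lam)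
  (_ : ∀ l, Rel (Ψ l) (ψ l))
  (_ : ∃ (N : ℕ) (d : ι → W), ∑ i, d i = PowerSeries.X ^ N ∧
      ∀ i, ∀ j ∈ S i, ∃ w : W, iW (d i) * Ψ (y j) = iW w)
  (_ : ∃ (E : ℕ) (d : ι → Out), ∑ i, d i = PowerSeries.C (Polynomial.X ^ E) ∧
    ∀ i, ∀ j ∈ S i, ∃ w : Out, iO (d i) * Ψ (y j) = iO w), Cert y S ψ

/-- transfer of outside values -/
def S_PVAL : Prop := ∀ (F : Ann) (r : RatFunc Lam) (_ : Rel F r) (σ c : ℂ) (_ : OutVal F σ c),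
  (σ ≠ 0 → RegVal r (cL σ⁻¹) (cL c)) ∧ (σ = 0 → RegValInf r (cL c))

/-- transfer of the value at `λ = 0` -/
def S_PIN : Prop := ∀ (F : Ann) (r : RatFunc Lam) (_ : Rel F r) (z : ℂ) (e w : W)
  (_ : modLam e ≠ 0) (_ : iW e * F = iW w) (_ : modLam w = PowerSeries.C z * modLam e),
  RegVal r 0 (cL z)

/-! ## Block N : descent -/

/-- STEP (h): a curve over an extension field `K` of `ℂ` with finitely many prescribed values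
at `ℂ`-points specialises to a curve over `ℂ` -/
def S_DESC : Prop := ∀ (K : Type) [Field K] (i : ℂ →+* K) (k₁ : Subfield ℂ) (L : Type) [Field L]
  [Algebra k₁ L] (ι : Type) [Fintype ι] (M : ℕ) (y : Fin M → L)
  (_ : IntermediateField.adjoin k₁ (Set.range y) = ⊤) (S : ι → Finset (Fin M))
  (y0 x : L →+* ℂ) (_ : Ov k₁ (RingHom.id ℂ) y0) (_ : Ov k₁ (RingHom.id ℂ) x) (p0 : ℂ)
  (ψ : L →+* RatFunc K) (_ : Ov k₁ ((RatFunc.C).comp i) ψ) (_ : Cert y S ψ)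
  (_ : ∀ l, RegVal (ψ l) (i p0) (i (y0 l))) (_ : ∀ l, RegValInf (ψ l) (i (x l)))
  (r : ℕ) (ν : Fin r → ℂ) (ci : Fin r → ι) (zz : Fin r → Fin M → ℂ)
  (_ : ∀ t, ∀ j ∈ S (ci t), RegVal (ψ (y j)) (i (ν t)) (i (zz t j))),
  ∃ f : L →+* RatFunc ℂ, Ov k₁ cR f ∧ Cert y S f ∧ (∀ l, RegVal (f l) p0 (y0 l)) ∧
    (∀ l, RegValInf (f l) (x l)) ∧ ∀ t, ∀ j ∈ S (ci t), RegVal (f (y j)) (ν t) (zz t j)

/-- specialisation (Nullstellensatz): finitely many elements of `K`, the nonzero ones stay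
nonzero -/
def S_NULL : Prop := ∀ (K : Type) [Field K] (i : ℂ →+* K) (s : Finset K),
  ∃ (R : Subring K) (ρ : R →+* ℂ), (∀ a ∈ s, a ∈ R) ∧ (∀ c : ℂ, ∃ h : i c ∈ R, ρ ⟨i c, h⟩ = c) ∧
    ∀ a ∈ s, a ≠ 0 → ∀ h : a ∈ R, ρ ⟨a, h⟩ ≠ 0

/-- Moebius `u ↦ 1 - u` -/
def S_MOB : Prop := ∀ (L : Type) [Field L] (ι : Type) [Fintype ι] (M : ℕ) (y : Fin M → L)
  (S : ι → Finset (Fin M)) (f : L →+* RatFunc ℂ) (_ : Cert y S f),
  ∃ f' : L →+* RatFunc ℂ, Cert y S f' ∧ (∀ l p c, RegVal (f l) p c → RegVal (f' l) (1 - p) c) ∧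
    (∀ l c, RegValInf (f l) c → RegValInf (f' l) c) ∧
    (∀ l c, f l = RatFunc.C c → f' l = RatFunc.C c)

/-! ## Block Q : the core step -/

/-- `P_r`: a curve through `y0` at `0`, `x` at `∞`, and the `r` chart points `zz t` -/
def HasCurve {L : Type} [Field L] (k₁ : Subfield ℂ) [Algebra k₁ L] {ι : Type} [Fintype ι]
    {M : ℕ} (y : Fin M → L) (S : ι → Finset (Fin M)) (y0 x : L →+* ℂ) (r : ℕ)
    (ci : Fin r → ι) (zz : Fin r → Fin M → ℂ) : Prop :=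
  ∃ (f : L →+* RatFunc ℂ) (ν : Fin r → ℂ), Ov k₁ cR f ∧ Cert y S f ∧
    (∀ l, RegVal (f l) 0 (y0 l)) ∧ (∀ l, RegValInf (f l) (x l)) ∧
    (∀ t, IsAlgebraic ℚ (ν t)) ∧ ∀ t, ∀ j ∈ S (ci t), RegVal (f (y j)) (ν t) (zz t j)

/-- the core step `P_r → P_{r+1}` -/
def S_STEP : Prop := ∀ (k₁ k : Subfield ℂ) (_ : k₁ ≤ k) [IsAlgClosed k₁] [IsAlgClosed k]
  [Countable k] (L : Type) [Field L] [Algebra k₁ L]
  (ι : Type) [Fintype ι] (M : ℕ) (y : Fin M → L)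
  (_ : IntermediateField.adjoin k₁ (Set.range y) = ⊤) (S : ι → Finset (Fin M))
  (y0 x : L →+* ℂ) (_ : Ov k₁ (RingHom.id ℂ) y0) (_ : Ov k₁ (RingHom.id ℂ) x)
  (_ : ∀ l, y0 l ∈ k) (_ : GenOver k₁ k x) (r : ℕ) (ci : Fin r → ι) (zz : Fin r → Fin M → ℂ)
  (_ : ∀ t, ChartPt k₁ y (S (ci t)) (zz t)) (_ : HasCurve k₁ y S y0 x r ci zz)
  (i0 : ι) (z : Fin M → ℂ) (_ : ChartPt k₁ y (S i0) z),
  HasCurve k₁ y S y0 x (r + 1) (Fin.snoc ci i0 : Fin (r + 1) → ι)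
    (Fin.snoc zz z : Fin (r + 1) → Fin M → ℂ)

/-- the core theorem: `P_0 → P_r` -/
def S_CORE : Prop := ∀ (k₁ k : Subfield ℂ) (_ : k₁ ≤ k) [IsAlgClosed k₁] [IsAlgClosed k]
  [Countable k] (L : Type) [Field L] [Algebra k₁ L]
  (ι : Type) [Fintype ι] (M : ℕ) (y : Fin M → L)
  (_ : IntermediateField.adjoin k₁ (Set.range y) = ⊤) (S : ι → Finset (Fin M))
  (y0 x : L →+* ℂ) (_ : Ov k₁ (RingHom.id ℂ) y0) (_ : Ov k₁ (RingHom.id ℂ) x)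
  (_ : ∀ l, y0 l ∈ k) (_ : GenOver k₁ k x)
  (_ : HasCurve k₁ y S y0 x 0 Fin.elim0 Fin.elim0)
  (r : ℕ) (ci : Fin r → ι) (zz : Fin r → Fin M → ℂ)
  (_ : ∀ t, ChartPt k₁ y (S (ci t)) (zz t)), HasCurve k₁ y S y0 x r ci zz

end RC
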