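import Pool.Agent.Work.MP_0ac1ea_ag.RC.CStmts2

/-!
# Statements of the items of the algebraic core: the Newton lemma (replaces blocks I and M)
-/

open Polynomial

namespace RC

/-- value of `P ∈ k[T_1..T_n][Y]` at `(u, v)`; `c : k → A` on the constants -/
noncomputable def evP {k A : Type} [CommRing k] [CommRing A] {n : ℕ} (c : k →+* A)
    (u : Fin n → A) (v : A) (P : Polynomial (MvPolynomial (Fin n) k)) : A :=
  Polynomial.eval₂ (MvPolynomial.eval₂Hom c u) v P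

/-- `λ`-adic fixed points in `W` -/
def S_NFIX : Prop := ∀ (w0 : W) (R : Polynomial W), ∃ w : W, w = w0 + lamW * R.eval w

/-- a separable equation over the polynomial ring of a transcendence basis -/
def S_NPOL : Prop := ∀ (k₁ : Subfield ℂ) (L : Type) [Field L] [Algebra k₁ L] (n : ℕ)
  (t : Fin n → L) (_ : IsTranscendenceBasis k₁ t) (y : L),
  ∃ P : Polynomial (MvPolynomial (Fin n) k₁), evP (algebraMap k₁ L) t y P = 0 ∧
    evP (algebraMap k₁ L) t y (derivative P) ≠ 0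

/-- Taylor expansion with denominators -/
def S_NTAY : Prop := ∀ (k A B : Type) [CommRing k] [CommRing A] [CommRing B] (i : B →+* A)
  (c : k →+* B) (n : ℕ) (P : Polynomial (MvPolynomial (Fin n) k)) (u : Fin n → A) (v : A) (H : B)
  (_ : ∀ j, ∃ b, i H * u j = i b) (_ : ∃ b, i H * v = i b),
  ∃ N : ℕ, ∀ (b q : ℕ), b ≤ q → ∀ (l : B) (ζ : Fin n → B), ∃ (w0 : B) (R : Polynomial B),
    ∀ z : B, i H ^ N * evP (i.comp c) (fun j => u j + i (l * H ^ q * ζ j)) (v + i (l * H ^ b * z)) P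
      = i H ^ N * evP (i.comp c) u v P
        + i H ^ N * evP (i.comp c) u v (derivative P) * i (l * H ^ b * z)
        + i (l * H ^ q * w0 + l ^ 2 * H ^ (2 * b) * R.eval z)

/-- uniqueness of the root with a given residue -/
def S_NUNI : Prop := ∀ (k₁ : Subfield ℂ) (L : Type) [Field L] [Algebra k₁ L] (n : ℕ)
  (t : Fin n → L) (F : L →+* Ann) (_ : Ov k₁ cA F) (y0 : L →+* ℂ)
  (_ : ∀ l, ∃ p : PowerSeries ℂ, PowerSeries.constantCoeff (F l) = jL p ∧
    PowerSeries.constantCoeff p = y0 l)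
  (P : Polynomial (MvPolynomial (Fin n) k₁)) (y : L)
  (_ : evP (algebraMap k₁ L) t y P = 0) (_ : evP (algebraMap k₁ L) t y (derivative P) ≠ 0)
  (f : Ann) (p : PowerSeries ℂ) (_ : PowerSeries.constantCoeff f = jL p)
  (_ : PowerSeries.constantCoeff p = y0 y)
  (_ : evP (cA.comp k₁.subtype) (fun i => F (t i)) f P = 0), F y = f

/-- STEPS (d), (f): the Newton lemma -/
def S_NEWT : Prop := ∀ (k₁ : Subfield ℂ) (L : Type) [Field L] [Algebra k₁ L] (M n : ℕ)
  (y : Fin M → L) (t : Fin n → L) (_ : IsTranscendenceBasis k₁ t) (y0 : L →+* ℂ)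
  (G : L →+* Ann) (_ : Ov k₁ cA G) (_ : ∀ l, PowerSeries.constantCoeff (G l) = cL (y0 l))
  (_ : ∀ l, ∃ H w : W, PowerSeries.constantCoeff H ≠ 0 ∧ iW H * G l = iW w),
  ∃ (H : W) (q : ℕ), PowerSeries.constantCoeff H ≠ 0 ∧ ∀ F : L →+* Ann, Ov k₁ cA F →
    (∀ l, ∃ p : PowerSeries ℂ, PowerSeries.constantCoeff (F l) = jL p ∧
      PowerSeries.constantCoeff p = y0 l) →
    ∀ ζ : Fin n → W, (∀ i, F (t i) = G (t i) + iW (lamW * H ^ q * ζ i)) →
    ∀ j, ∃ w : W, F (y j) = G (y j) + iW (lamW * w)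

end RC
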