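import Pool.Agent.Work.MP_0ac1ea_ag.RC.CStmts

/-!
# Sub-statements of Lemma V (block V)
-/

open Polynomial TensorProduct

namespace RC

/-- Noether normalisation through a given point -/
def S_V2A : Prop := ∀ (k : Subfield ℂ) [IsAlgClosed k] (R : Type) [CommRing R]
  [IsDomain R] [Algebra k R] [Algebra.FiniteType k R] (m : R →ₐ[k] k),
  ∃ (e : ℕ) (g : MvPolynomial (Fin e) k →ₐ[k] R), Function.Injective g ∧
    g.toRingHom.IsIntegral ∧ ∀ i, m (g (MvPolynomial.X i)) = 0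

/-- a domain over an algebraically closed field stays a domain -/
def S_V2B : Prop := ∀ (k : Subfield ℂ) [IsAlgClosed k] (R : Type) [CommRing R]
  [IsDomain R] [Algebra k R], IsDomain (ℂ ⊗[k] R)

/-- a discrete valuation ring with residue field `ℂ` embeds into `ℂ[[X]]` -/
def S_V2C1 : Prop := ∀ (A : Type) [CommRing A] [IsDomain A] [IsDiscreteValuationRing A]
  [Algebra ℂ A] (m : A →ₐ[ℂ] ℂ), ∃ θ : A →ₐ[ℂ] PowerSeries ℂ, Function.Injective θ ∧
    ∀ a, PowerSeries.constantCoeff (θ a) = m a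

/-- a one dimensional domain with a point has a formal arc through the point -/
def S_V2C2 : Prop := ∀ (A : Type) [CommRing A] [IsDomain A] [Algebra ℂ A]
  (t : ℂ[X] →ₐ[ℂ] A) (_ : Function.Injective t) (_ : t.toRingHom.IsIntegral)
  [Algebra.FiniteType ℂ A] (m : A →ₐ[ℂ] ℂ), ∃ θ : A →ₐ[ℂ] PowerSeries ℂ,
    Function.Injective θ ∧ ∀ a, PowerSeries.constantCoeff (θ a) = m a

/-- arcs in a given direction -/
def S_V2C : Prop := ∀ (T : Type) [CommRing T] [IsDomain T] [Algebra ℂ T]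
  [Algebra.FiniteType ℂ T] (e : ℕ)
  (g : MvPolynomial (Fin e) ℂ →ₐ[ℂ] T) (_ : Function.Injective g) (_ : g.toRingHom.IsIntegral)
  (m : T →ₐ[ℂ] ℂ) (_ : ∀ i, m (g (MvPolynomial.X i)) = 0) (c : Fin e → ℂ) (_ : ∃ i, c i ≠ 0),
  ∃ (θ : T →ₐ[ℂ] PowerSeries ℂ) (τ : PowerSeries ℂ), τ ≠ 0 ∧ PowerSeries.constantCoeff τ = 0 ∧
    (∀ i, θ (g (MvPolynomial.X i)) = PowerSeries.C (c i) * τ) ∧
    ∀ a, PowerSeries.constantCoeff (θ a) = m a

/-- a family of complex numbers algebraically independent over a countable field -/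
def S_AI : Prop := ∀ (k : Subfield ℂ) [Countable k] (e : ℕ), ∃ c : Fin e → ℂ,
  AlgebraicIndependent k c

end RC
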