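import Mathlib

/-!
# Rationally connected ⇒ strongly rationally connected: algebraic core, definitions

`λ` is the variable of `Lam = ℂ((λ))`, `η` the outer variable.
-/

open Polynomial

namespace RC

/-- `ℂ((λ))`, with its field structure only (a `def`, to avoid instance diamonds) -/
def Lam : Type := LaurentSeries ℂ

noncomputable instance : Field Lam := inferInstanceAs (Field (LaurentSeries ℂ))

/-- `ℂ((λ))[[η]]` -/
abbrev Ann : Type := PowerSeries Lam
/-- `W = ℂ[[λ]][[η]]` -/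
abbrev W : Type := PowerSeries (PowerSeries ℂ)
/-- `Out = ℂ[s][[η]]`, `s = 1/λ` -/
abbrev Out : Type := PowerSeries (Polynomial ℂ)

/-- the inclusion `ℂ[[λ]] → ℂ((λ))` -/
noncomputable def jL : PowerSeries ℂ →+* Lam := HahnSeries.ofPowerSeries ℤ ℂ
/-- the constants `ℂ → ℂ((λ))` -/
noncomputable def cL : ℂ →+* Lam := jL.comp PowerSeries.C
/-- `λ ∈ ℂ((λ))` -/
noncomputable def lam : Lam := jL PowerSeries.X
/-- `W → ℂ((λ))[[η]]` -/
noncomputable def iW : W →+* Ann := PowerSeries.map jL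
/-- `ℂ[s] → ℂ((λ))`, `s ↦ 1/λ` -/
noncomputable def iS : Polynomial ℂ →+* Lam := Polynomial.eval₂RingHom cL lam⁻¹
/-- `Out → ℂ((λ))[[η]]` -/
noncomputable def iO : Out →+* Ann := PowerSeries.map iS
/-- `λ ∈ W` -/
noncomputable def lamW : W := PowerSeries.C (PowerSeries.X)
/-- reduction modulo `λ`: `W → ℂ[[η]]` -/
noncomputable def modLam : W →+* PowerSeries ℂ := PowerSeries.map PowerSeries.constantCoeff
/-- evaluation `s = σ` : `Out → ℂ[[η]]` -/
noncomputable def evS (σ : ℂ) : Out →+* PowerSeries ℂ := PowerSeries.map (Polynomial.evalRingHom σ)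
/-- `u = λ^m (1 - λ)` in `ℂ((λ))` -/
noncomputable def uLam (m : ℕ) : Lam := lam ^ m * (1 - lam)

/-- families of parameters `a ∈ (η ℂ[s][[η]])^n` -/
abbrev Small (n : ℕ) : Type := {a : Fin n → Out // ∀ i, PowerSeries.constantCoeff (a i) = 0}

/-- `r ∈ F(u)` is regular at `u = p` with value `c` -/
def RegVal {F : Type} [Field F] (r : RatFunc F) (p c : F) : Prop :=
  ∃ a b : F[X], b.eval p ≠ 0 ∧
    r * algebraMap F[X] (RatFunc F) b = algebraMap F[X] (RatFunc F) a ∧ a.eval p = c * b.eval p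

/-- `r ∈ F(u)` is regular at `u = ∞` with value `c` -/
def RegValInf {F : Type} [Field F] (r : RatFunc F) (c : F) : Prop :=
  ∃ a b : F[X], b ≠ 0 ∧ a.natDegree ≤ b.natDegree ∧
    r * algebraMap F[X] (RatFunc F) b = algebraMap F[X] (RatFunc F) a ∧
    a.coeff b.natDegree = c * b.leadingCoeff

/-- `f : L → F(u)` is a morphism from the affine line over `F` to the variety with charts
`k[y_j : j ∈ S i]` -/
def Cert {L : Type} [Field L] {ι : Type} [Fintype ι] {M : ℕ} (y : Fin M → L)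
    (S : ι → Finset (Fin M)) {F : Type} [Field F] (f : L →+* RatFunc F) : Prop :=
  ∃ d : ι → F[X], ∑ i, d i = 1 ∧ ∀ i, ∀ j ∈ S i, ∃ n : F[X],
    f (y j) * algebraMap F[X] (RatFunc F) (d i) = algebraMap F[X] (RatFunc F) n

/-- `r ∈ ℂ((λ))[[η]]` is regular at the outside point `s = σ` with value `c ∈ ℂ` -/
def OutVal (r : Ann) (σ c : ℂ) : Prop :=
  ∃ A B : Out, iO B * r = iO A ∧ evS σ B ≠ 0 ∧ evS σ A = PowerSeries.C c * evS σ B

end RC
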