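import Pool.Agent.Work.MP_0ac1ea_ag.RC.HP1

/-!
# The statement: rationally connected ⇒ strongly rationally connected

`X` is a variety over `ℂ`: an integral scheme with a separated morphism of finite type
`π : X ⟶ Spec ℂ`. (Smoothness is not needed.)
-/

set_option autoImplicit false

open AlgebraicGeometry CategoryTheory Limits

attribute [local instance] MvPolynomial.gradedAlgebra

namespace RC

/-- `Spec ℂ` -/
noncomputable abbrev SpecC : Scheme.{0} := Spec (.of ℂ)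

/-- the projective line over `ℂ`: `Proj ℂ[X₀, X₁]` -/
noncomputable abbrev PL : Scheme.{0} := P1 ℂ

/-- the structure morphism of the projective line -/
noncomputable abbrev PLs : PL ⟶ SpecC := P1.toSpec ℂ

/-- `Spec ℂ[ε]`, `ε² = 0` -/
noncomputable abbrev SpecE : Scheme.{0} := Spec (.of (DualNumber ℂ))

/-- the structure morphism of `Spec ℂ[ε]` -/
noncomputable def sE : SpecE ⟶ SpecC := Spec.map (CommRingCat.ofHom (algebraMap ℂ (DualNumber ℂ)))

/-- the closed point `ε = 0` of `Spec ℂ[ε]` -/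
noncomputable def ptE : SpecC ⟶ SpecE :=
  Spec.map (CommRingCat.ofHom (TrivSqZeroExt.fstHom ℂ ℂ ℂ).toRingHom)

theorem ptE_sE : ptE ≫ sE = 𝟙 SpecC := by
  rw [ptE, sE, ← Spec.map_comp]
  refine Eq.trans (congrArg Spec.map ?_) (Spec.map_id _)
  exact CommRingCat.hom_ext (RingHom.ext fun x => rfl)

/-- `ℙ¹ × Spec ℂ[ε]` -/
noncomputable abbrev PLE : Scheme.{0} := pullback PLs sE

/-- the inclusion `ε = 0` of `ℙ¹` in `ℙ¹ × Spec ℂ[ε]` -/
noncomputable def zeroE : PL ⟶ PLE :=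
  pullback.lift (𝟙 PL) (PLs ≫ ptE) (by rw [Category.id_comp, Category.assoc, ptE_sE,
    Category.comp_id])

/-- the section `p × Spec ℂ[ε]` of `ℙ¹ × Spec ℂ[ε]` -/
noncomputable def secE (p : SpecC ⟶ PL) (hp : p ≫ PLs = 𝟙 _) : SpecE ⟶ PLE :=
  pullback.lift (sE ≫ p) (𝟙 SpecE) (by rw [Category.assoc, hp, Category.comp_id, Category.id_comp])

section

variable {X : Scheme.{0}} (π : X ⟶ SpecC)

/-- `x` is a `ℂ`-point of `X` -/
def IsPt (x : SpecC ⟶ X) : Prop := x ≫ π = 𝟙 _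

/-- `f : ℙ¹ ⟶ X` is a complete rational curve -/
def IsCurve (f : PL ⟶ X) : Prop := f ≫ π = PLs

/-- the point `x` is in the image of the curve `f` -/
def Through (f : PL ⟶ X) (x : SpecC ⟶ X) : Prop := ∃ p : SpecC ⟶ PL, IsPt PLs p ∧ p ≫ f = x

/-- `f` is constant -/
def IsConst (f : PL ⟶ X) : Prop := ∃ x : SpecC ⟶ X, f = PLs ≫ x

/-- two general points `x, y` of `X` lie on a (nonconstant) complete rational curve -/
def RatConn : Prop :=
  ∃ Ω : (pullback π π).Opens, Dense (Ω : Set ↥(pullback π π)) ∧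
    ∀ (x y : SpecC ⟶ X) (hx : IsPt π x) (hy : IsPt π y),
      (∀ s, pullback.lift x y (hx.trans hy.symm) s ∈ Ω) →
      ∃ f : PL ⟶ X, IsCurve π f ∧ ¬ IsConst f ∧ Through f x ∧ Through f y

/-- `v` is a tangent vector of `X` at the point `x` -/
def IsTangent (x : SpecC ⟶ X) (v : SpecE ⟶ X) : Prop := v ≫ π = sE ∧ ptE ≫ v = x

/-- `F` is a first order deformation of the curve `f`, i.e. a section of `f^* T_X` -/
def IsDeform (f : PL ⟶ X) (F : PLE ⟶ X) : Prop :=
  F ≫ π = pullback.fst PLs sE ≫ PLs ∧ zeroE ≫ F = f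

/-- the curve `f` is very free: for some points `p ≠ q` of `ℙ¹`, the evaluation map
`H⁰(ℙ¹, f^* T_X) → T_{f(p)} X ⊕ T_{f(q)} X` is surjective. If `X` is smooth this is equivalent to
`f^* T_X = ⊕ 𝒪(a_i)` with all `a_i ≥ 1`. -/
def VeryFree (f : PL ⟶ X) : Prop :=
  ∃ (p q : SpecC ⟶ PL) (hp : IsPt PLs p) (hq : IsPt PLs q), p ≠ q ∧
    ∀ v w : SpecE ⟶ X, IsTangent π (p ≫ f) v → IsTangent π (q ≫ f) w →
      ∃ F : PLE ⟶ X, IsDeform π f F ∧ secE p hp ≫ F = v ∧ secE q hq ≫ F = w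

/-- every finite set of points of the open subset `V` is joined by a very free curve -/
def Joined (V : X.Opens) : Prop :=
  ∀ S : Set (SpecC ⟶ X), S.Finite → (∀ x ∈ S, IsPt π x ∧ ∀ s, x s ∈ V) →
    ∃ f : PL ⟶ X, IsCurve π f ∧ VeryFree π f ∧ ∀ x ∈ S, Through f x

end

/-- the final statement -/
def FinalStmt : Prop :=
  ∀ (X : Scheme.{0}) (π : X ⟶ SpecC) [IsIntegral X] [IsSeparated π] [LocallyOfFiniteType π]
    [QuasiCompact π], RatConn π → Joined π ⊤

end RC
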