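import Pool.Agent.Work.MP_0ac1ea_ag.RC.HStmts2

/-!
# Item ALGC: from a curve in `X` through two points to an algebraic curve
-/

set_option autoImplicit false

open AlgebraicGeometry CategoryTheory Limits Polynomial

namespace RC

namespace NHALGC

/-- `pt κ a` is a point of the projective line -/
theorem isPt_pt (κ : Fin 2) (a : ℂ) : IsPt PLs (pt κ a : SpecC ⟶ PL) := by
  rw [IsPt, pt, Category.assoc, chart_toSpec, ← Spec.map_comp]
  refine Eq.trans (congrArg Spec.map ?_) (Spec.map_id _)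
  refine CommRingCat.hom_ext (RingHom.ext fun w => ?_)
  simp

section Reg

variable (inj : S_INJ) (κ : Fin 2) (a : ℂ)

include inj

theorem reg_unique {r : RatFunc ℂ} {v w : ℂ} (h : RegK κ r a v) (h' : RegK κ r a w) : v = w := by
  obtain ⟨A, B, hB, hr, hv⟩ := h
  obtain ⟨A', B', hB', hr', hv'⟩ := h'
  have h1 : evE (RatFunc.C : ℂ →+* RatFunc ℂ) uR κ (A * B') =
      evE (RatFunc.C : ℂ →+* RatFunc ℂ) uR κ (A' * B) := by
    rw [map_mul, map_mul, ← hr, ← hr']; ring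
  have h2 := inj.1 κ h1
  have h3 := congrArg (fun p => p.eval a) h2
  simp only [eval_mul] at h3
  rw [hv, hv'] at h3
  have h4 : (v - w) * (B.eval a * B'.eval a) = 0 := by linear_combination h3
  rcases mul_eq_zero.1 h4 with h5 | h5
  · exact sub_eq_zero.1 h5
  · exact absurd h5 (mul_ne_zero hB hB')

omit inj in
theorem reg_zero : RegK κ 0 a 0 := ⟨0, 1, by simp, by simp, by simp⟩

omit inj in
theorem reg_C (c : ℂ) : RegK κ (RatFunc.C c) a c := by
  refine ⟨C c, 1, by simp, ?_, by simp⟩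
  simp [evE]

omit inj in
theorem reg_add {r s : RatFunc ℂ} {v w : ℂ} (h : RegK κ r a v) (h' : RegK κ s a w) :
    RegK κ (r + s) a (v + w) := by
  obtain ⟨A, B, hB, hr, hv⟩ := h
  obtain ⟨A', B', hB', hr', hv'⟩ := h'
  refine ⟨A * B' + A' * B, B * B', ?_, ?_, ?_⟩
  · rw [eval_mul]; exact mul_ne_zero hB hB'
  · rw [map_mul, map_add, map_mul, map_mul, ← hr, ← hr']; ring
  · rw [eval_add, eval_mul, eval_mul, eval_mul, hv, hv']; ring

omit inj in
theorem reg_mul {r s : RatFunc ℂ} {v w : ℂ} (h : RegK κ r a v) (h' : RegK κ s a w) :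
    RegK κ (r * s) a (v * w) := by
  obtain ⟨A, B, hB, hr, hv⟩ := h
  obtain ⟨A', B', hB', hr', hv'⟩ := h'
  refine ⟨A * A', B * B', ?_, ?_, ?_⟩
  · rw [eval_mul]; exact mul_ne_zero hB hB'
  · rw [map_mul, map_mul, ← hr, ← hr']; ring
  · rw [eval_mul, eval_mul, hv, hv']; ring

omit inj in
theorem reg_inv {r : RatFunc ℂ} {v : ℂ} (h : RegK κ r a v) (hr0 : r ≠ 0) (hv0 : v ≠ 0) :
    RegK κ r⁻¹ a v⁻¹ := by
  obtain ⟨A, B, hB, hr, hv⟩ := h
  refine ⟨B, A, ?_, ?_, ?_⟩
  · rw [hv]; exact mul_ne_zero hv0 hB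
  · rw [← hr, ← mul_assoc, inv_mul_cancel₀ hr0, one_mul]
  · rw [hv, ← mul_assoc, inv_mul_cancel₀ hv0, one_mul]

end Reg

/-- regularity on the whole function field -/
theorem reg_all {K : Type} [Field K] [Algebra ℂ K] {ι : Type} [Nonempty ι]
    {A : ι → Subalgebra ℂ K} {k₁ : Subfield ℂ} {M : ℕ} {y : Fin M → K}
    {T : ι → Finset (Fin M)} (gens : ∀ i, A i = Algebra.adjoin ℂ (y '' T i))
    (fr : ∀ i (l : Fin M), ∃ s ∈ Algebra.adjoin k₁ (y '' T i),
      ∃ b ∈ Algebra.adjoin k₁ (y '' T i), s ≠ 0 ∧ y l * s = b)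
    {θ : Lk k₁ y →+* RatFunc ℂ} (hθ : Ov k₁ cR θ) {x : Lk k₁ y →+* ℂ}
    (hx : Ov k₁ (RingHom.id ℂ) x) (κ : Fin 2) (a : ℂ)
    (h : ∀ i (r : A i) (l : Lk k₁ y), (r : K) = l → RegK κ (θ l) a (x l)) (l : Lk k₁ y) :
    RegK κ (θ l) a (x l) := by
  obtain ⟨i⟩ := ‹Nonempty ι›
  have hsub : ∀ s ∈ Algebra.adjoin k₁ (y '' T i), s ∈ A i ∧ s ∈ Lk k₁ y := by
    intro s hs
    constructor
    · rw [gens i]
      induction hs using Algebra.adjoin_induction with
      | mem z hz => exact Algebra.subset_adjoin hz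
      | algebraMap z => exact Subalgebra.algebraMap_mem (Algebra.adjoin ℂ (y '' T i)) (z : ℂ)
      | add z w _ _ h1 h2 => exact add_mem h1 h2
      | mul z w _ _ h1 h2 => exact mul_mem h1 h2
    · have : Algebra.adjoin k₁ (y '' T i) ≤ (Lk k₁ y).toSubalgebra :=
        Algebra.adjoin_le (by
          rintro _ ⟨j, _, rfl⟩
          exact IntermediateField.subset_adjoin _ _ ⟨j, rfl⟩)
      exact this hs
  have hinv : ∀ l : Lk k₁ y, RegK κ (θ l) a (x l) → RegK κ (θ l⁻¹) a (x l⁻¹) := by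
    intro l hl
    by_cases h0 : l = 0
    · rw [h0, inv_zero, map_zero, map_zero]; exact reg_zero κ a
    · rw [map_inv₀, map_inv₀]
      exact reg_inv κ a hl ((_root_.map_ne_zero θ).2 h0) ((_root_.map_ne_zero x).2 h0)
  obtain ⟨l, hl⟩ := l
  have key : ∀ l (hl : l ∈ IntermediateField.adjoin k₁ (Set.range y)),
      RegK κ (θ ⟨l, hl⟩) a (x ⟨l, hl⟩) := by
    intro l hl
    induction hl using IntermediateField.adjoin_induction with
    | mem z hz =>
      obtain ⟨j, rfl⟩ := hz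
      obtain ⟨s, hs, b, hb, hs0, hsb⟩ := fr i j
      have h1 : RegK κ (θ ⟨s, (hsub s hs).2⟩) a (x ⟨s, (hsub s hs).2⟩) :=
        h i ⟨s, (hsub s hs).1⟩ _ rfl
      have h2 : RegK κ (θ ⟨b, (hsub b hb).2⟩) a (x ⟨b, (hsub b hb).2⟩) :=
        h i ⟨b, (hsub b hb).1⟩ _ rfl
      have h3 := reg_mul κ a h2 (hinv _ h1)
      rw [← map_mul, ← map_mul] at h3
      have h4 : (⟨b, (hsub b hb).2⟩ : Lk k₁ y) * (⟨s, (hsub s hs).2⟩ : Lk k₁ y)⁻¹
          = ⟨y j, IntermediateField.subset_adjoin _ _ ⟨j, rfl⟩⟩ := by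
        apply Subtype.ext
        change b * s⁻¹ = y j
        rw [← hsb, mul_assoc, mul_inv_cancel₀ hs0, mul_one]
      rw [h4] at h3
      exact h3
    | algebraMap z =>
      have h1 : (⟨algebraMap k₁ K z, IntermediateField.algebraMap_mem _ z⟩ : Lk k₁ y)
          = algebraMap k₁ (Lk k₁ y) z := rfl
      rw [h1, hθ z, hx z]
      exact reg_C κ a _
    | add z w hz hw h1 h2 =>
      have h3 := reg_add κ a h1 h2
      rw [← map_add, ← map_add] at h3
      exact h3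
    | inv z hz h1 =>
      exact hinv ⟨z, hz⟩ h1
    | mul z w hz hw h1 h2 =>
      have h3 := reg_mul κ a h1 h2
      rw [← map_mul, ← map_mul] at h3
      exact h3
  exact key l hl

end NHALGC

open NHALGC in
theorem pr_ALGC (hPT : S_PT) (hPTEQ : S_PTEQ) (hGENPT : S_GENPT) (hLOCREG : S_LOCREG)
    (hTHETA : S_THETA) (hOV1 : S_OV1) (hLIFT : S_LIFT) (hMOB2 : S_MOB2) (hCERTLOC : S_CERTLOC)
    (hINJ : S_INJ) (hDIM0 : S_DIM0) : S_ALGC := by
  intro X π _ K _ _ ι _ _ A c k₁ M y T hM k hk y0 x hy0 hx hy0k hxg Y0 X0 hY0 hX0 p0 q0 hp0 hq0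
    f hf hfc hfp hfq
  obtain ⟨p, hp, hpf⟩ := hfp
  obtain ⟨q, hq, hqf⟩ := hfq
  obtain ⟨κ, a, rfl⟩ := hPT p hp
  obtain ⟨κ', a', rfl⟩ := hPT q hq
  -- the two points are distinct
  have hne : p0 ≠ q0 := by
    intro hpq
    apply hfc
    -- the coordinate rings are `ℂ`
    have hYX : ∀ i, (Y0 i : A i →+* ℂ) = (X0 i : A i →+* ℂ) := by
      intro i
      have h1 : sp (Y0 i : A i →+* ℂ) ≫ c i = sp (X0 i : A i →+* ℂ) ≫ c i := by
        rw [← hp0 i, ← hq0 i, hpq]
      have := hM.atlas.isOpen i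
      have h2 := (cancel_mono (c i)).1 h1
      have h3 := Spec.map_injective h2
      exact congrArg CommRingCat.Hom.hom h3
    have hxy : ∀ i (l : Lk k₁ y) (r : A i), (r : K) = l → x l = y0 l := by
      intro i l r hr
      rw [← hX0 i r l hr, ← hY0 i r l hr]
      exact (congrArg (fun φ : A i →+* ℂ => φ r) (hYX i)).symm
    have hk1 : ∀ l : Lk k₁ y, x l ∈ k → ∃ z : k₁, (l : K) = algebraMap ℂ K (z : ℂ) := by
      intro l hl
      by_contra hcon
      have hli : LinearIndependent k₁ ![(1 : Lk k₁ y), l] := by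
        rw [LinearIndependent.pair_iff]
        intro s t hst
        have ht : t = 0 := by
          by_contra ht
          apply hcon
          refine ⟨-(s / t), ?_⟩
          have h1 := congrArg (fun m : Lk k₁ y => (m : K)) hst
          have h2 : algebraMap k₁ K s * 1 + algebraMap k₁ K t * (l : K) = 0 := by
            rw [← Algebra.smul_def, ← Algebra.smul_def]
            exact h1
          have h3 : (l : K) = algebraMap k₁ K (-(s / t)) := by
            rw [map_neg, map_div₀]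
            have h4 : algebraMap k₁ K t ≠ 0 := (_root_.map_ne_zero _).2 ht
            field_simp
            linear_combination h2
          exact h3
        refine ⟨?_, ht⟩
        rw [ht, zero_smul, add_zero] at hst
        simpa using hst
      have h1 := hxg 2 _ hli
      have h2 : (fun i => x (![(1 : Lk k₁ y), l] i)) = ![x 1, x l] := by
        ext i; fin_cases i <;> rfl
      rw [h2, LinearIndependent.pair_iff] at h1
      have h3 := h1 ⟨x l, hl⟩ (-1) (by
        rw [map_one, neg_one_smul, Subfield.smul_def, smul_eq_mul, mul_one, add_neg_cancel])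
      exact absurd h3.2 (neg_ne_zero.2 one_ne_zero)
    refine hDIM0 X π K ι A c hM.atlas ?_ f hf
    intro i
    rw [hM.gens i, eq_bot_iff]
    refine Algebra.adjoin_le ?_
    rintro _ ⟨j, hj, rfl⟩
    have hyA : y j ∈ A i := by
      rw [hM.gens i]; exact Algebra.subset_adjoin ⟨j, hj, rfl⟩
    obtain ⟨z, hz⟩ := hk1 (yL k₁ y j) (by
      rw [hxy i (yL k₁ y j) ⟨y j, hyA⟩ rfl]
      exact hy0k _)
    exact Algebra.mem_bot.2 ⟨(z : ℂ), hz.symm⟩
  refine ⟨?_, hne⟩
  have hdet : detP κ a κ' a' ≠ 0 := by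
    intro h
    apply hne
    rw [← hpf, ← hqf, hPTEQ κ κ' a a' h]
  -- the generic point
  choose g hg using fun i => hGENPT X π K ι A c hM.atlas f hf κ a i (Y0 i) (hpf.trans (hp0 i))
  have hreg0 : ∀ i (r : A i), RegK κ (g i r) a (Y0 i r) := fun i r =>
    hLOCREG X π K ι A c hM.atlas f hf κ a i (Y0 i) (hpf.trans (hp0 i)) _ (hg i) r
  have hregI : ∀ i (r : A i), RegK κ' (g i r) a' (X0 i r) := fun i r =>
    hLOCREG X π K ι A c hM.atlas f hf κ' a' i (X0 i) (hqf.trans (hq0 i)) _ (hg i) r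
  obtain ⟨θ, hθ, hθg⟩ := hTHETA k₁ K M y ι A T hM.gens hM.fr (RatFunc ℂ) g (by
    intro i j s b e he
    exact hOV1 X π K ι A c hM.atlas i j (RatFunc ℂ) (g i) (g j) ((hg i).symm.trans (hg j)) s b e he)
    (by
      intro i r hr hr0
      refine IsUnit.mk0 _ fun h0 => hr0 ?_
      have h1 := hreg0 i r
      rw [h0] at h1
      have h2 : Y0 i r = 0 := reg_unique hINJ κ a h1 (reg_zero κ a)
      rw [hY0 i r ⟨r, hr⟩ rfl] at h2
      have h3 := (map_eq_zero y0).1 h2
      exact Subtype.ext (congrArg (Subtype.val : Lk k₁ y → K) h3))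
  have hθO : Ov k₁ cR θ := by
    intro z
    rw [hθ z]
    rfl
  have hR0 : ∀ l, RegK κ (θ l) a (y0 l) := by
    refine reg_all hM.gens hM.fr hθO hy0 κ a ?_
    intro i r l hrl
    rw [hθg i r l hrl, ← hY0 i r l hrl]
    exact hreg0 i r
  have hRI : ∀ l, RegK κ' (θ l) a' (x l) := by
    refine reg_all hM.gens hM.fr hθO hx κ' a' ?_
    intro i r l hrl
    rw [hθg i r l hrl, ← hX0 i r l hrl]
    exact hregI i r
  obtain ⟨σ, hσC, hσ0, hσI, hσp⟩ := hMOB2 κ κ' a a' hdet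
  refine ⟨σ.comp θ, Fin.elim0, ?_, ?_, fun l => hσ0 _ _ (hR0 l), fun l => hσI _ _ (hRI l),
    fun t => t.elim0, fun t => t.elim0⟩
  · intro z
    rw [RingHom.comp_apply, hθO z]
    exact hσC _
  · refine hCERTLOC (Lk k₁ y) ι M (yL k₁ y) T _ ?_
    intro s
    obtain ⟨κ'', a'', hs⟩ := hσp s
    obtain ⟨i, z, hz⟩ := (hLIFT X π K ι A c hM.atlas).1 (pt κ'' a'' ≫ f) (by
      have h1 := isPt_pt κ'' a''
      rw [IsPt] at h1 ⊢
      rw [Category.assoc, hf, h1])
    refine ⟨i, fun j hj => ?_⟩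
    have hyA : y j ∈ A i := by
      rw [hM.gens i]; exact Algebra.subset_adjoin ⟨j, hj, rfl⟩
    refine ⟨z ⟨y j, hyA⟩, hs _ _ ?_⟩
    rw [hθg i ⟨y j, hyA⟩ (yL k₁ y j) rfl]
    exact hLOCREG X π K ι A c hM.atlas f hf κ'' a'' i z hz _ (hg i) _

end RC
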