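import Pool.Agent.Work.MP_0ac1ea_ag.RC.HStmts2

/-!
# Block H (schemes): final wiring
-/

set_option autoImplicit false

open AlgebraicGeometry CategoryTheory Limits Polynomial

namespace RC

theorem adjoin_yL (k₁ : Subfield ℂ) {K : Type} [Field K] [Algebra ℂ K] {M : ℕ} (y : Fin M → K) :
    IntermediateField.adjoin k₁ (Set.range (yL k₁ y)) = ⊤ := by
  rw [eq_top_iff]
  rintro ⟨l, hl⟩ -
  have h : ∀ l (hl : l ∈ IntermediateField.adjoin k₁ (Set.range y)),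
      (⟨l, hl⟩ : Lk k₁ y) ∈ IntermediateField.adjoin k₁ (Set.range (yL k₁ y)) := by
    intro l hl
    induction hl using IntermediateField.adjoin_induction with
    | mem x hx =>
      obtain ⟨j, rfl⟩ := hx
      exact IntermediateField.subset_adjoin _ _ ⟨j, rfl⟩
    | algebraMap z => exact IntermediateField.algebraMap_mem _ z
    | add x z hx hz h1 h2 => exact add_mem h1 h2
    | inv x hx h1 => exact inv_mem h1
    | mul x z hx hz h1 h2 => exact mul_mem h1 h2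
  exact h l hl

theorem mem_of_gens {k₁ k : Subfield ℂ} {L : Type} [Field L] [Algebra k₁ L] {M : ℕ}
    {y : Fin M → L} (hy : IntermediateField.adjoin k₁ (Set.range y) = ⊤) (hk : k₁ ≤ k)
    {y0 : L →+* ℂ} (h0 : Ov k₁ (RingHom.id ℂ) y0) (hj : ∀ j, y0 (y j) ∈ k) (l : L) : y0 l ∈ k := by
  have hl : l ∈ IntermediateField.adjoin k₁ (Set.range y) := by rw [hy]; trivial
  induction hl using IntermediateField.adjoin_induction with
  | mem x hx =>
    obtain ⟨j, rfl⟩ := hx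
    exact hj j
  | algebraMap z =>
    rw [h0 z]
    exact hk z.2
  | add x z hx hz h1 h2 => rw [map_add]; exact add_mem h1 h2
  | inv x hx h1 => rw [map_inv₀]; exact inv_mem h1
  | mul x z hx hz h1 h2 => rw [map_mul]; exact mul_mem h1 h2

theorem isPt_sp {X : Scheme.{0}} {π : X ⟶ SpecC} {K : Type} [Field K] [Algebra ℂ K] {ι : Type}
    {A : ι → Subalgebra ℂ K} {c : ∀ i, Spec (.of (A i)) ⟶ X} (hA : IsAtlas π K A c) (i : ι)
    (z : A i →ₐ[ℂ] ℂ) : IsPt π (sp (z : A i →+* ℂ) ≫ c i) := by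
  rw [IsPt, Category.assoc, hA.isOver, ← sp_comp]
  refine Eq.trans (congrArg Spec.map ?_) (Spec.map_id _)
  refine CommRingCat.hom_ext (RingHom.ext fun w => ?_)
  exact z.commutes w

theorem nonvan {k₁ k : Subfield ℂ} {L : Type} [Field L] [Algebra k₁ L] {x y0 : L →+* ℂ}
    (hx : GenOver k₁ k x) (hy : ∀ l, y0 l ∈ k) {m : ℕ} {a b : Fin m → L}
    (ha : LinearIndependent k₁ a) (hb : ∃ r, b r ≠ 0) : ∑ r, x (a r) * y0 (b r) ≠ 0 := by
  intro h
  obtain ⟨r0, hr0⟩ := hb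
  have h1 := hx m a ha
  rw [Fintype.linearIndependent_iff] at h1
  have h2 := h1 (fun r => ⟨y0 (b r), hy _⟩) (by
    rw [← h]
    refine Finset.sum_congr rfl fun r _ => ?_
    rw [Subfield.smul_def, smul_eq_mul, mul_comm]) r0
  have h3 : y0 (b r0) = 0 := congrArg Subtype.val h2
  exact hr0 ((map_eq_zero y0).1 h3)

theorem linInd_Lk {k₁ : Subfield ℂ} {K : Type} [Field K] [Algebra ℂ K] {M : ℕ} {y : Fin M → K}
    {B : Subalgebra ℂ K} {m : ℕ} {a : Fin m → B} (ha : LinearIndependent ℂ a)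
    (a' : Fin m → Lk k₁ y) (haa : ∀ r, (a' r : K) = a r) : LinearIndependent k₁ a' := by
  have h1 : LinearIndependent ℂ (fun r => (a r : K)) :=
    ha.map' B.val.toLinearMap (LinearMap.ker_eq_bot.2 Subtype.val_injective)
  have h2 : LinearIndependent k₁ (fun r => (a r : K)) := by
    refine h1.restrict_scalars (R := k₁) ?_
    intro z w h
    have h3 : (algebraMap ℂ ℂ (z : ℂ)) = (w : ℂ) := by
      have h4 : (z • (1 : ℂ)) = w • (1 : ℂ) := h
      simpa [Subfield.smul_def] using h4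
    exact Subtype.ext h3
  have h5 : LinearIndependent k₁ ((Lk k₁ y).val.toLinearMap ∘ a') := by
    have : ((Lk k₁ y).val.toLinearMap ∘ a') = fun r => (a r : K) := by
      ext r
      exact haa r
    rw [this]
    exact h2
  exact LinearIndependent.of_comp _ h5

theorem final_stmt (model : S_MODEL) (ext : S_EXT) (mk : S_MK) (valm : S_VALM) (algc : S_ALGC)
    (vf : S_VF) (core : S_CORE) (genx : S_GENX) (acl : S_ACL) (inj : S_INJ) (regk : S_REGK) :
    FinalStmt := by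
  intro X π _ _ _ _ hRC S hS hSp
  obtain ⟨Ω, hΩ, hj⟩ := hRC
  obtain ⟨r, xs, -, hxs⟩ := hS.fin_param
  have hxs' : ∀ t, IsPt π (xs t) := fun t => (hSp (xs t) (hxs ▸ ⟨t, rfl⟩)).1
  obtain ⟨K, _, _, ι, _, _, A, c, k₁, M, y, T, hM, hk1, hk1c, hpts, i1, m, a, b, ha, hb, haL,
    hbL, hab⟩ := model X π Ω hΩ r xs hxs'
  have hgen := adjoin_yL k₁ y
  obtain ⟨y0, hy0, -⟩ := genx k₁ k₁ le_rfl (Lk k₁ y) M (yL k₁ y) hgen
  obtain ⟨k, hkC, hk, hkc⟩ := acl ((k₁ : Set ℂ) ∪ Set.range (fun j => y0 (yL k₁ y j)))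
    ((Set.to_countable _).union (Set.countable_range _))
  have hkk : k₁ ≤ k := fun z hz => hkC (Or.inl hz)
  have hy0k : ∀ l, y0 l ∈ k := mem_of_gens hgen hkk hy0 (fun j => hkC (Or.inr ⟨j, rfl⟩))
  obtain ⟨x, hx, hxg⟩ := genx k₁ k hkk (Lk k₁ y) M (yL k₁ y) hgen
  obtain ⟨Y0, hY0, hY0c⟩ := ext X π K ι A c k₁ M y T hM ℂ y0 hy0
  obtain ⟨X0, hX0, hX0c⟩ := ext X π K ι A c k₁ M y T hM ℂ x hx
  set p0 : SpecC ⟶ X := sp (Y0 i1 : A i1 →+* ℂ) ≫ c i1 with hp0
  set q0 : SpecC ⟶ X := sp (X0 i1 : A i1 →+* ℂ) ≫ c i1 with hq0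
  have hp0' : ∀ i, p0 = sp (Y0 i : A i →+* ℂ) ≫ c i := fun i => hY0c i1 i
  have hq0' : ∀ i, q0 = sp (X0 i : A i →+* ℂ) ≫ c i := fun i => hX0c i1 i
  have hPp : IsPt π p0 := isPt_sp hM.atlas i1 _
  have hPq : IsPt π q0 := isPt_sp hM.atlas i1 _
  -- the pair is in `Ω`
  have hsum : ∑ r, X0 i1 (a r) * Y0 i1 (b r) ≠ 0 := by
    have h1 : ∀ r, X0 i1 (a r) = x ⟨a r, haL r⟩ := fun r => hX0 i1 (a r) ⟨a r, haL r⟩ rfl
    have h2 : ∀ r, Y0 i1 (b r) = y0 ⟨b r, hbL r⟩ := fun r => hY0 i1 (b r) ⟨b r, hbL r⟩ rfl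
    simp only [h1, h2]
    refine nonvan hxg hy0k (linInd_Lk ha _ fun r => rfl) ?_
    obtain ⟨r0, hr0⟩ := hb
    exact ⟨r0, fun h => hr0 (Subtype.ext (congrArg (fun l : Lk k₁ y => (l : K)) h))⟩
  obtain ⟨f0, hf0, hf0c, hfq, hfp⟩ := hj q0 p0 hPq hPp (hab (X0 i1) (Y0 i1) hsum _)
  obtain ⟨hcur0, hne⟩ := algc X π K ι A c k₁ M y T hM k hkk y0 x hy0 hx hy0k hxg Y0 X0 hY0 hX0
    p0 q0 hp0' hq0' f0 hf0 hf0c hfp hfq
  -- the points
  choose ci z hz hzk using hpts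
  have hjA : ∀ i j, j ∈ T i → y j ∈ A i := by
    intro i j hj
    rw [hM.gens i]
    exact Algebra.subset_adjoin ⟨j, hj, rfl⟩
  classical
  set zz : Fin r → Fin M → ℂ := fun t j =>
    if h : j ∈ T (ci t) then z t ⟨y j, hjA _ j h⟩ else 0 with hzz
  have hzz' : ∀ t j (h : j ∈ T (ci t)), zz t j = z t ⟨y j, hjA _ j h⟩ := by
    intro t j h
    rw [hzz]
    simp only [dif_pos h]
  have hchart : ∀ t, ChartPt k₁ (yL k₁ y) (T (ci t)) (zz t) := by
    intro t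
    refine ⟨fun j hj => ?_, fun P hP => ?_⟩
    · rw [hzz' t j hj]
      exact hzk t _ j hj rfl
    · have h1 : (MvPolynomial.eval₂Hom ((algebraMap ℂ (A (ci t))).comp k₁.subtype)
          (fun j : {j // j ∈ T (ci t)} => (⟨y j, hjA _ j j.2⟩ : A (ci t)))) P = 0 := by
        apply Subtype.ext
        have h2 : (A (ci t)).val.toRingHom.comp (MvPolynomial.eval₂Hom
            ((algebraMap ℂ (A (ci t))).comp k₁.subtype)
            (fun j : {j // j ∈ T (ci t)} => (⟨y j, hjA _ j j.2⟩ : A (ci t)))) =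
            ((Lk k₁ y).val.toRingHom).comp (MvPolynomial.aeval
              (fun j : {j // j ∈ T (ci t)} => yL k₁ y j)).toRingHom := by
          refine MvPolynomial.ringHom_ext (fun w => ?_) (fun j => ?_)
          · simp
            rfl
          · simp [yL]
        have h3 := RingHom.congr_fun h2 P
        refine h3.trans ?_
        change ((MvPolynomial.aeval (fun j : {j // j ∈ T (ci t)} => yL k₁ y j) P : Lk k₁ y) : K) = 0
        rw [hP]
        rfl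
      have h4 : MvPolynomial.eval₂ k₁.subtype (fun j : {j // j ∈ T (ci t)} => zz t j) P =
          z t ((MvPolynomial.eval₂Hom ((algebraMap ℂ (A (ci t))).comp k₁.subtype)
            (fun j : {j // j ∈ T (ci t)} => (⟨y j, hjA _ j j.2⟩ : A (ci t)))) P) := by
        have h5 : MvPolynomial.eval₂Hom k₁.subtype (fun j : {j // j ∈ T (ci t)} => zz t j) =
            ((z t : A (ci t) →ₐ[ℂ] ℂ) : A (ci t) →+* ℂ).comp (MvPolynomial.eval₂Hom
              ((algebraMap ℂ (A (ci t))).comp k₁.subtype)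
              (fun j : {j // j ∈ T (ci t)} => (⟨y j, hjA _ j j.2⟩ : A (ci t)))) := by
          refine MvPolynomial.ringHom_ext (fun w => ?_) (fun j => ?_)
          · simp
          · simp [hzz' t j j.2]
        exact RingHom.congr_fun h5 P
      rw [h4, h1, map_zero]
  obtain ⟨f, ν, hf, hcert, hv0, hvi, -, hvt⟩ := core k₁ k hkk (Lk k₁ y) ι M (yL k₁ y) hgen T y0 x
    hy0 hx hy0k hxg hcur0 r ci zz hchart
  obtain ⟨F, G, hF, hG, hGf⟩ := mk X π K ι A c k₁ M y T hM ℂ (RatFunc ℂ) RatFunc.C uR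
    (fun z => rfl) inj.1 (RingHom.id ℂ) (RingHom.id _) (fun z => rfl) rfl (fun z _ => rfl)
    f hf hcert (fun l => ⟨_, hvi l⟩)
  have hF' : IsCurve π F := by
    refine hF.trans ?_
    have h1 : sp (algebraMap ℂ ℂ) = 𝟙 SpecC := Spec.map_id _
    rw [h1]
    exact Category.comp_id _
  have hval : ∀ (κ : Fin 2) (p : ℂ) (i : ι) (w : A i →ₐ[ℂ] ℂ),
      (∀ (r : A i) (j : Fin M), j ∈ T i → (r : K) = y j → RegK κ (f (yL k₁ y j)) p (w r)) →
      pt κ p ≫ F = sp (w : A i →+* ℂ) ≫ c i := by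
    intro κ p i w hw
    refine valm X π K ι A c k₁ M y T hM ℂ (RatFunc ℂ) RatFunc.C uR (fun z => rfl) κ p (inj.1 κ)
      (inj.2.2.1 κ p) F hF i (G i) (hG i) w ?_
    intro r j hj hr
    obtain ⟨A', B', h1, h2, h3⟩ := hw r j hj hr
    refine ⟨A', B', isUnit_iff_ne_zero.2 h1, ?_, h3⟩
    rw [hGf i r (yL k₁ y j) hr]
    exact h2
  have hP0 : ∀ i, (pt 0 0 : SpecC ⟶ PL) ≫ F = sp (Y0 i : A i →+* ℂ) ≫ c i := by
    intro i
    refine hval 0 0 i (Y0 i) fun r j hj hr => ?_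
    rw [hY0 i r (yL k₁ y j) hr]
    exact (regk.1 _ _ _).1 (hv0 _)
  have hQ0 : ∀ i, (pt 1 0 : SpecC ⟶ PL) ≫ F = sp (X0 i : A i →+* ℂ) ≫ c i := by
    intro i
    refine hval 1 0 i (X0 i) fun r j hj hr => ?_
    rw [hX0 i r (yL k₁ y j) hr]
    exact (regk.2 _ _).1 (hvi _)
  have hpq : (pt 0 0 : SpecC ⟶ PL) ≠ pt 1 0 := by
    intro h
    apply hne
    rw [hp0' i1, hq0' i1, ← hP0, ← hQ0, h]
  refine ⟨F, hF', ?_, ?_⟩
  · exact vf X π K ι A c k₁ M y T hM k hkk y0 x hy0 hx hy0k hxg Y0 X0 hY0 hX0 f hf hcert hv0 hvi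
      F hF' G hG hGf i1 (hP0 i1) (hQ0 i1) hpq
  · intro w hw
    obtain ⟨t, rfl⟩ := (hxs ▸ hw : w ∈ Set.range xs)
    refine ⟨pt 0 (ν t), ?_, ?_⟩
    · rw [IsPt, pt, Category.assoc]
      have h1 : chart ℂ 0 ≫ PLs = Spec.map (CommRingCat.ofHom Polynomial.C) := chart_toSpec ℂ 0
      rw [h1, ← Spec.map_comp]
      refine Eq.trans (congrArg Spec.map ?_) (Spec.map_id _)
      refine CommRingCat.hom_ext (RingHom.ext fun w => ?_)
      simp
    · rw [hz t]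
      refine hval 0 (ν t) (ci t) (z t) fun r j hj hr => ?_
      have h1 : r = ⟨y j, hjA _ j hj⟩ := Subtype.ext hr
      rw [h1, ← hzz' t j hj]
      exact (regk.1 _ _ _).1 (hvt t j hj)

end RC
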