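import Pool.Agent.Work.MP_0ac1ea_ag.RC.HStmts
import Pool.Agent.Work.MP_0ac1ea_ag.RC.I_TDOM
import Pool.Agent.Work.MP_0ac1ea_ag.RC.I_EMB

/-!
# Existence of generic points
-/

set_option autoImplicit false

open Cardinal
open scoped TensorProduct

namespace RC

namespace NHGENX

/-- a countable field extension of a countable subfield of `ℂ` embeds in `ℂ` -/
theorem embedC (k : Subfield ℂ) [Countable k] (F : Type) [Field F] [Algebra k F] [Countable F] :
    Nonempty (F →ₐ[k] ℂ) := by
  have : FaithfulSMul k F :=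
    (faithfulSMul_iff_algebraMap_injective k F).2 (algebraMap k F).injective
  obtain ⟨ι, x, hx⟩ := exists_isTranscendenceBasis' k F
  obtain ⟨κ, w, hw⟩ := exists_isTranscendenceBasis' k ℂ
  have hκ : #ℂ = #κ :=
    IsAlgClosed.cardinal_eq_cardinal_transcendence_basis_of_aleph0_lt' w hw
      (Cardinal.mk_le_aleph0) (by rw [Cardinal.mk_complex]; exact Cardinal.aleph0_lt_continuum)
  have hι : #ι ≤ #κ := by
    rw [← hκ, Cardinal.mk_complex]
    refine le_trans (Cardinal.mk_le_of_injective hx.1.injective) ?_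
    exact le_trans Cardinal.mk_le_aleph0 Cardinal.aleph0_le_continuum
  obtain ⟨e⟩ := (Cardinal.le_def _ _).1 hι
  exact NEMB.embed x hx w hw.1 e

/-- a finitely generated algebra over a countable ring is countable -/
theorem countable_fg (k : Type) [CommRing k] [Countable k] (D : Type) [CommRing D] [Algebra k D]
    [Algebra.FiniteType k D] : Countable D := by
  obtain ⟨n, f, hf⟩ := Algebra.FiniteType.iff_quotient_mvPolynomial''.1
    (inferInstance : Algebra.FiniteType k D)
  have h1 : Countable (MvPolynomial (Fin n) k) := by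
    rw [← Cardinal.mk_le_aleph0_iff]
    refine le_trans MvPolynomial.cardinalMk_le_max ?_
    simp
  exact hf.countable

end NHGENX

open NHGENX in
theorem pr_GENX : S_GENX := by
  intro k₁ k hk _ _ L _ _ M y hy
  let : Algebra k₁ k := (Subfield.inclusion hk).toAlgebra
  set R := Algebra.adjoin k₁ (Set.range y) with hR
  have hft : Algebra.FiniteType k₁ R :=
    (Subalgebra.fg_iff_finiteType _).1
      (Subalgebra.fg_def.2 ⟨Set.range y, Set.finite_range y, rfl⟩)
  have hfr : IsFractionRing R L := by
    refine IsFractionRing.of_field R L fun z => ?_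
    have hz : z ∈ IntermediateField.adjoin k₁ (Set.range y) := by rw [hy]; trivial
    obtain ⟨a, ha, b, hb, hab⟩ := IntermediateField.mem_adjoin_iff_div.1 hz
    exact ⟨⟨a, ha⟩, ⟨b, hb⟩, hab⟩
  have hdom : IsDomain (k ⊗[k₁] R) := pr_TDOM k₁ R k
  have hftD : Algebra.FiniteType k (k ⊗[k₁] R) := Algebra.FiniteType.baseChange k
  have hcD : Countable (k ⊗[k₁] R) := countable_fg k _
  have hcF : Countable (FractionRing (k ⊗[k₁] R)) := by
    rw [← Cardinal.mk_le_aleph0_iff]
    rw [Cardinal.mk_fractionRing]
    exact Cardinal.mk_le_aleph0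
  obtain ⟨θ⟩ := embedC k (FractionRing (k ⊗[k₁] R))
  -- the map of `k ⊗ R` to `ℂ`
  let ψ : k ⊗[k₁] R →ₐ[k] ℂ := θ.comp (IsScalarTower.toAlgHom k _ _)
  have hψ : Function.Injective ψ :=
    θ.toRingHom.injective.comp (IsFractionRing.injective (k ⊗[k₁] R) _)
  let j : R →+* k ⊗[k₁] R := (Algebra.TensorProduct.includeRight : R →ₐ[k₁] k ⊗[k₁] R)
  have hj : Function.Injective j :=
    Algebra.TensorProduct.includeRight_injective (algebraMap k₁ k).injective
  have hψj : Function.Injective (ψ.toRingHom.comp j) := hψ.comp hj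
  let x : L →+* ℂ := IsFractionRing.lift hψj
  have hx : ∀ r : R, x (r : L) = ψ (1 ⊗ₜ r) := fun r => IsFractionRing.lift_algebraMap hψj r
  refine ⟨x, ?_, ?_⟩
  · intro c
    have h1 := hx (algebraMap k₁ R c)
    have h2 : ((algebraMap k₁ R c : R) : L) = algebraMap k₁ L c := rfl
    rw [h2] at h1
    rw [h1]
    have h3 : (1 : k) ⊗ₜ[k₁] (algebraMap k₁ R c) = algebraMap k (k ⊗[k₁] R) (algebraMap k₁ k c) := by
      rw [Algebra.TensorProduct.algebraMap_apply, Algebra.algebraMap_eq_smul_one,
        TensorProduct.tmul_smul, TensorProduct.smul_tmul', Algebra.algebraMap_eq_smul_one (A := k)]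
      rfl
    rw [h3, AlgHom.commutes]
    rfl
  · intro m v hv
    obtain ⟨s, hs⟩ := IsLocalization.exist_integer_multiples_of_finite (nonZeroDivisors R) v
    choose w hw using hs
    have hs0 : ((s : R) : L) ≠ 0 := by
      intro h0
      exact nonZeroDivisors.ne_zero s.2 (Subtype.ext h0)
    have hw' : ∀ i, (w i : L) = (s : R) * v i := fun i => by
      have := hw i
      rw [Algebra.smul_def] at this
      exact this
    -- `w` is linearly independent over `k₁`
    have hwi : LinearIndependent k₁ w := by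
      rw [Fintype.linearIndependent_iff] at hv ⊢
      intro g hg
      apply hv g
      have h1 := congrArg (fun z : R => (z : L)) hg
      simp only [AddSubmonoidClass.coe_finsetSum, ZeroMemClass.coe_zero] at h1
      have h2 : ((s : R) : L) * ∑ i, g i • v i = 0 := by
        rw [Finset.mul_sum, ← h1]
        refine Finset.sum_congr rfl fun i _ => ?_
        have h3 : ((g i • w i : R) : L) = g i • (w i : L) := rfl
        rw [h3, hw', mul_smul_comm]
      exact (mul_eq_zero.1 h2).resolve_left hs0
    have hwk : LinearIndependent k (fun i => (1 : k) ⊗ₜ[k₁] w i) :=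
      Module.Flat.linearIndependent_one_tmul hwi
    have hwc : LinearIndependent k (fun i => ψ ((1 : k) ⊗ₜ[k₁] w i)) :=
      hwk.map' ψ.toLinearMap (LinearMap.ker_eq_bot.2 hψ)
    rw [Fintype.linearIndependent_iff] at hwc ⊢
    intro g hg
    apply hwc g
    have h4 : ∀ i, ψ ((1 : k) ⊗ₜ[k₁] w i) = x ((s : R) : L) * x (v i) := fun i => by
      rw [← hx, hw', map_mul]
    have h5 : ∑ i, g i • ψ ((1 : k) ⊗ₜ[k₁] w i) = x ((s : R) : L) * ∑ i, g i • x (v i) := by
      rw [Finset.mul_sum]
      exact Finset.sum_congr rfl fun i _ => by rw [h4, mul_smul_comm]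
    rw [h5, hg, mul_zero]

end RC
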