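import Pool.Agent.Work.MP_0ac1ea_ag.RC.HStmts2

/-!
# Block H, item MK: construction of morphisms from the projective line
-/

set_option autoImplicit false

open AlgebraicGeometry CategoryTheory Limits Polynomial

namespace RC

namespace NHMK

section

variable {R E : Type} [CommRing R] [CommRing E] (φ : R →+* E) (u : Eˣ)

theorem evE_C' (κ : Fin 2) (c : R) : evE φ u κ (C c) = φ c := by
  simp [evE]

theorem evL_injective (h : Function.Injective (evE φ u 0)) : Function.Injective (evL φ u) := by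
  rw [injective_iff_map_eq_zero]
  intro x hx
  obtain ⟨n, p, hp⟩ := LaurentPolynomial.exists_T_pow x
  have h1 : evE φ u 0 p = 0 := by
    have h2 : (evL φ u) (toLaurent R 0 p) = evE φ u 0 p := by
      rw [← evL_toLaurent]; rfl
    have h3 : toLaurent R 0 p = Polynomial.toLaurent p := by rw [toLaurent_zero_eq]
    rw [← h2, h3, hp, map_mul, hx, zero_mul]
  have h4 : p = 0 := h (by rw [h1, map_zero])
  rw [h4, map_zero] at hp
  have h5 : x * LaurentPolynomial.T n * LaurentPolynomial.T (-n) = 0 := by rw [← hp, zero_mul]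
  rwa [mul_assoc, ← LaurentPolynomial.T_add, add_neg_cancel, LaurentPolynomial.T_zero,
    mul_one] at h5

end

theorem map_evE {R E : Type} [CommRing R] [CommRing E] (φ : R →+* E) (u : Eˣ) (τ : ℂ →+* R)
    (τu : RatFunc ℂ →+* E) (h1 : ∀ z, τu (RatFunc.C z) = φ (τ z)) (h2 : τu RatFunc.X = u)
    (κ : Fin 2) (p : ℂ[X]) : evE φ u κ (p.map τ) = τu (evE RatFunc.C uR κ p) := by
  have h3 : (evE φ u κ).comp (mapRingHom τ) = τu.comp (evE RatFunc.C uR κ) := by
    refine Polynomial.ringHom_ext (fun z => ?_) ?_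
    · simp [evE, h1]
    · have h4 : τu ((RatFunc.X : RatFunc ℂ)⁻¹) = ((u⁻¹ : Eˣ) : E) := by
        have h5 : τu ((RatFunc.X : RatFunc ℂ)⁻¹) * u = 1 := by
          rw [← h2, ← map_mul, inv_mul_cancel₀ RatFunc.X_ne_zero, map_one]
        calc τu ((RatFunc.X : RatFunc ℂ)⁻¹) = τu ((RatFunc.X : RatFunc ℂ)⁻¹) * u *
              ((u⁻¹ : Eˣ) : E) := by rw [mul_assoc, Units.mul_inv, mul_one]
          _ = _ := by rw [h5, one_mul]
      rcases (show κ = 0 ∨ κ = 1 by fin_cases κ <;> simp) with rfl | rfl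
      · simp [evE, uR, h2]
      · simp [evE, uR, h4]
  exact congrArg (fun f : ℂ[X] →+* E => f p) h3

theorem evE_zero' (p : ℂ[X]) : evE RatFunc.C uR 0 p = algebraMap ℂ[X] (RatFunc ℂ) p := by
  have h : evE RatFunc.C uR 0 = algebraMap ℂ[X] (RatFunc ℂ) := by
    refine Polynomial.ringHom_ext (fun z => ?_) ?_
    · simp [evE]
    · simp [evE, uR]
  rw [h]

end NHMK

open NHMK

theorem pr_MK (ext : S_EXT) (glue : S_GLUE) (certinf : S_CERTINF) (sep : S_SEP) (inj : S_INJ) :
    S_MK := by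
  intro X π _ K _ _ ι _ _ A c k₁ M y T hM R₀ E _ _ _ _ φ u hφ hinj τ τu hτu hτX hτk f hf hcert
    hinf
  -- the homomorphisms of the charts
  obtain ⟨G, hG, hGc⟩ := ext X π K ι A c k₁ M y T hM E (τu.comp f) (fun z => by
    rw [RingHom.comp_apply, hf z]
    change τu (RatFunc.C (z : ℂ)) = _
    rw [hτu, hτk _ z.2, hφ])
  -- the certificates
  have hcerts : ∀ κ : Fin 2, ∃ d : ι → ℂ[X], ∑ i, d i = 1 ∧ ∀ i, ∀ j ∈ T i, ∃ n : ℂ[X],
      f (yL k₁ y j) * evE RatFunc.C uR κ (d i) = evE RatFunc.C uR κ n := by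
    intro κ
    rcases (show κ = 0 ∨ κ = 1 by fin_cases κ <;> simp) with rfl | rfl
    · obtain ⟨d, h1, h2⟩ := hcert
      refine ⟨d, h1, fun i j hj => ?_⟩
      obtain ⟨n, hn⟩ := h2 i j hj
      exact ⟨n, by rw [evE_zero', evE_zero', hn]⟩
    · exact certinf _ ι M (yL k₁ y) T f hcert hinf
  choose d hd hdn using hcerts
  -- the morphisms of the charts
  have hg : ∀ κ : Fin 2, ∃ g : Spec (.of R₀[X]) ⟶ X, g ≫ π = sp (algebraMap ℂ R₀[X]) ∧
      ∀ i, sp (evE φ u κ) ≫ g = sp (G i : A i →+* E) ≫ c i := by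
    intro κ
    refine glue X π K ι A c hM.atlas R₀[X] E (evE φ u κ) (hinj κ) (fun i => (G i : A i →+* E)) hGc
      (fun i z => ?_) (fun i => (d κ i).map τ) ?_ (fun i hi => ?_) (fun i => ?_)
    · change G i (algebraMap ℂ (A i) z) = _
      rw [AlgHom.commutes, ← hφ, ← evE_C' φ u κ]
      rfl
    · rw [← Polynomial.map_sum, hd κ, Polynomial.map_one]
    · rw [map_evE φ u τ τu hτu hτX]
      have h1 : evE RatFunc.C uR κ (d κ i) ≠ 0 := by
        intro h0
        have h2 : d κ i = 0 := inj.1 κ (by rw [h0, map_zero])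
        exact hi (by rw [h2, Polynomial.map_zero])
      exact (IsUnit.mk0 _ h1).map τu
    · have key : ∀ x (_ : x ∈ Algebra.adjoin ℂ (y '' (T i : Set (Fin M)))) (hx : x ∈ A i),
          ∃ (N : ℕ) (n : R₀[X]), G i ⟨x, hx⟩ * evE φ u κ ((d κ i).map τ) ^ N = evE φ u κ n := by
        intro x hx
        induction hx using Algebra.adjoin_induction with
        | mem x hx =>
          obtain ⟨j, hj, rfl⟩ := hx
          intro hx
          obtain ⟨n, hn⟩ := hdn κ i j hj
          refine ⟨1, n.map τ, ?_⟩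
          rw [pow_one, map_evE φ u τ τu hτu hτX, map_evE φ u τ τu hτu hτX, ← hn, map_mul,
            hG i ⟨y j, hx⟩ (yL k₁ y j) rfl]
          rfl
        | algebraMap w =>
          intro hx
          refine ⟨0, C (algebraMap ℂ R₀ w), ?_⟩
          have h1 : (⟨algebraMap ℂ K w, hx⟩ : A i) = algebraMap ℂ (A i) w := rfl
          rw [h1, AlgHom.commutes, evE_C', hφ, pow_zero, mul_one]
        | add p q hp hq h1 h2 =>
          intro hx
          have hp' : p ∈ A i := by rw [hM.gens i]; exact hp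
          have hq' : q ∈ A i := by rw [hM.gens i]; exact hq
          have h3 : (⟨p + q, hx⟩ : A i) = ⟨p, hp'⟩ + ⟨q, hq'⟩ := rfl
          obtain ⟨N1, n1, e1⟩ := h1 hp'
          obtain ⟨N2, n2, e2⟩ := h2 hq'
          refine ⟨N1 + N2, n1 * ((d κ i).map τ) ^ N2 + n2 * ((d κ i).map τ) ^ N1, ?_⟩
          rw [h3, map_add, map_add, map_mul, map_mul, ← e1, ← e2, map_pow, map_pow]
          ring
        | mul p q hp hq h1 h2 =>
          intro hx
          have hp' : p ∈ A i := by rw [hM.gens i]; exact hp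
          have hq' : q ∈ A i := by rw [hM.gens i]; exact hq
          have h3 : (⟨p * q, hx⟩ : A i) = ⟨p, hp'⟩ * ⟨q, hq'⟩ := rfl
          obtain ⟨N1, n1, e1⟩ := h1 hp'
          obtain ⟨N2, n2, e2⟩ := h2 hq'
          refine ⟨N1 + N2, n1 * n2, ?_⟩
          rw [h3, map_mul, map_mul, ← e1, ← e2]
          ring
      intro r
      have hr : (r : K) ∈ Algebra.adjoin ℂ (y '' (T i : Set (Fin M))) := by
        rw [← hM.gens i]; exact r.2
      exact key r hr r.2
  choose g hgπ hgG using hg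
  -- the overlap
  have i0 : ι := Classical.arbitrary ι
  have hov : sp (toLaurent R₀ 0) ≫ g 0 = sp (toLaurent R₀ 1) ≫ g 1 := by
    refine sep X π (LaurentPolynomial R₀) E (evL φ u) (evL_injective φ u (hinj 0)) _ _ ?_ ?_
    · rw [Category.assoc, Category.assoc, hgπ, hgπ, ← sp_comp, ← sp_comp]
      have h1 : ∀ κ : Fin 2, (toLaurent R₀ κ).comp (algebraMap ℂ R₀[X]) =
          LaurentPolynomial.C.comp (algebraMap ℂ R₀) := by
        intro κ
        refine RingHom.ext fun z => ?_
        exact toLaurent_C R₀ κ _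
      rw [h1, h1]
    · rw [sp_comp_assoc, sp_comp_assoc, evL_toLaurent, evL_toLaurent, hgG 0 i0, hgG 1 i0]
  refine ⟨P1.glue g hov, G, ?_, ?_, ?_⟩
  · refine P1.hom_ext fun κ => ?_
    rw [← Category.assoc, chart_glue, hgπ, ← Category.assoc, chart_toSpec]
    exact sp_comp (algebraMap ℂ R₀) (Polynomial.C : R₀ →+* R₀[X])
  · intro i
    rw [gE, Category.assoc, chart_glue, hgG]
  · intro i r l hrl
    exact hG i r l hrl

end RC
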