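import Pool.Agent.Work.MP_0ac1ea_ag.RC.HStmts

/-!
# General pairs of points of a chart
-/

set_option autoImplicit false

open AlgebraicGeometry CategoryTheory Limits TensorProduct

namespace RC

namespace NHOMEGA

/-- a tensor is a sum with linearly independent left factors -/
theorem tensor_repr {A : Type} [CommRing A] [Algebra ℂ A] (G : A ⊗[ℂ] A) (hG : G ≠ 0) :
    ∃ (m : ℕ) (a b : Fin m → A), LinearIndependent ℂ a ∧ (∃ r, b r ≠ 0) ∧
      G = ∑ r, a r ⊗ₜ[ℂ] b r := by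
  classical
  let B := Module.Basis.ofVectorSpace ℂ A
  let f := TensorProduct.equivFinsuppOfBasisLeft (N := A) B G
  have hf : G = f.sum fun i n => B i ⊗ₜ[ℂ] n := by
    rw [← TensorProduct.equivFinsuppOfBasisLeft_symm_apply]
    exact ((TensorProduct.equivFinsuppOfBasisLeft (N := A) B).symm_apply_apply G).symm
  let e := f.support.equivFin
  refine ⟨f.support.card, fun r => B (e.symm r), fun r => f (e.symm r), ?_, ?_, ?_⟩
  · exact B.linearIndependent.comp _ (Subtype.val_injective.comp e.symm.injective)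
  · have hne : f.support.Nonempty := by
      rw [Finset.nonempty_iff_ne_empty]
      intro h0
      apply hG
      rw [hf, Finsupp.sum, h0, Finset.sum_empty]
    obtain ⟨i, hi⟩ := hne
    exact ⟨e ⟨i, hi⟩, by simpa using Finsupp.mem_support_iff.1 hi⟩
  · rw [e.symm.sum_comp (fun i : f.support => B i ⊗ₜ[ℂ] f i), hf, Finsupp.sum]
    exact (Finset.sum_coe_sort f.support (fun i => B i ⊗ₜ[ℂ] f i)).symm

section

variable {X : Scheme.{0}} (π : X ⟶ SpecC) {A : Type} [CommRing A] [Algebra ℂ A]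
  (c : Spec (.of A) ⟶ X) (hc : c ≫ π = sp (algebraMap ℂ A))

/-- the open immersion `Spec (A ⊗ A) → X × X` -/
noncomputable def qmap : Spec (.of (A ⊗[ℂ] A)) ⟶ pullback π π :=
  (pullbackSpecIso ℂ A A).inv ≫ pullback.map _ _ π π c c (𝟙 _)
    (by rw [Category.comp_id, hc]) (by rw [Category.comp_id, hc])

theorem qmap_open [IsOpenImmersion c] : IsOpenImmersion (qmap π c hc) := by
  unfold qmap
  infer_instance

theorem qmap_fst : qmap π c hc ≫ pullback.fst π π =
    Spec.map (CommRingCat.ofHom Algebra.TensorProduct.includeLeftRingHom) ≫ c := by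
  unfold qmap
  rw [Category.assoc, pullback.lift_fst, ← Category.assoc, pullbackSpecIso_inv_fst]

theorem qmap_snd : qmap π c hc ≫ pullback.snd π π =
    Spec.map (CommRingCat.ofHom (Algebra.TensorProduct.includeRight.toRingHom :
      A →+* A ⊗[ℂ] A)) ≫ c := by
  unfold qmap
  rw [Category.assoc, pullback.lift_snd, ← Category.assoc, pullbackSpecIso_inv_snd]
  rfl

/-- the point of `A ⊗ A` -/
noncomputable def pq (p q : A →ₐ[ℂ] ℂ) : A ⊗[ℂ] A →ₐ[ℂ] ℂ :=
  Algebra.TensorProduct.lift p q (fun _ _ => Commute.all _ _)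

theorem pq_tmul (p q : A →ₐ[ℂ] ℂ) (a b : A) : pq p q (a ⊗ₜ[ℂ] b) = p a * q b := by
  simp [pq]

theorem lift_eq (p q : A →ₐ[ℂ] ℂ)
    (h : (sp (p : A →+* ℂ) ≫ c) ≫ π = (sp (q : A →+* ℂ) ≫ c) ≫ π) :
    pullback.lift (sp (p : A →+* ℂ) ≫ c) (sp (q : A →+* ℂ) ≫ c) h =
      sp ((pq p q : A ⊗[ℂ] A →ₐ[ℂ] ℂ) : A ⊗[ℂ] A →+* ℂ) ≫ qmap π c hc := by
  apply pullback.hom_ext
  · rw [pullback.lift_fst, Category.assoc, qmap_fst, ← Category.assoc]
    congr 1
    change _ = sp _ ≫ sp _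
    rw [← sp_comp]
    congr 1
    ext a
    simp [pq]
  · rw [pullback.lift_snd, Category.assoc, qmap_snd, ← Category.assoc]
    congr 1
    change _ = sp _ ≫ sp _
    rw [← sp_comp]
    congr 1
    ext a
    simp [pq]

end

end NHOMEGA

open NHOMEGA in
theorem pr_OMEGA : S_OMEGA := by
  intro X π K _ _ ι A c hat Ω hΩ i
  have := hat.isOpen i
  have hc := hat.isOver i
  have hq := qmap_open π (c i) hc
  -- the image of the open immersion meets Ω
  have hnt : Nontrivial (A i ⊗[ℂ] A i) := inferInstance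
  have hne : Nonempty (PrimeSpectrum (A i ⊗[ℂ] A i)) := inferInstance
  obtain ⟨s0⟩ := hne
  obtain ⟨y, hy1, hy2⟩ := hΩ.inter_open_nonempty _ hq.base_open.isOpen_range
    ⟨_, Set.mem_range_self s0⟩
  obtain ⟨s, rfl⟩ := hy1
  -- a basic open set
  have hopen : IsOpen ((qmap π (c i) hc) ⁻¹' (Ω : Set ↥(pullback π π))) :=
    Ω.isOpen.preimage (qmap π (c i) hc).continuous
  obtain ⟨_, ⟨G, rfl⟩, hsG, hG⟩ :=
    PrimeSpectrum.isTopologicalBasis_basic_opens.exists_subset_of_mem_open (a := s) hy2 hopen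
  have hG0 : G ≠ 0 := by
    rintro rfl
    simp at hsG
  obtain ⟨m, a, b, ha, hb, hab⟩ := tensor_repr G hG0
  refine ⟨m, a, b, ha, hb, fun p q hpq h t => ?_⟩
  rw [lift_eq π (c i) hc p q h]
  have hmem : sp ((pq p q : A i ⊗[ℂ] A i →ₐ[ℂ] ℂ) : A i ⊗[ℂ] A i →+* ℂ) t ∈
      (PrimeSpectrum.basicOpen G : Set (PrimeSpectrum (A i ⊗[ℂ] A i))) := by
    change G ∉ Ideal.comap _ t.asIdeal
    rw [Ideal.mem_comap]
    intro h0
    have h1 : ((pq p q : A i ⊗[ℂ] A i →ₐ[ℂ] ℂ) : A i ⊗[ℂ] A i →+* ℂ) G ≠ 0 := by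
      rw [hab]
      simpa [pq_tmul, map_sum] using hpq
    have h2 : IsUnit (((pq p q : A i ⊗[ℂ] A i →ₐ[ℂ] ℂ) : A i ⊗[ℂ] A i →+* ℂ) G) :=
      isUnit_iff_ne_zero.2 h1
    exact t.isPrime.ne_top (Ideal.eq_top_of_isUnit_mem _ h0 h2)
  exact hG hmem

end RC
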