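import Pool.Agent.Work.MP_0ac1ea_ag.RC.HStmts

/-!
# Block H, item TU: extension of `c ↦ c + ε D(c)` to `ℂ(u)`
-/

set_option autoImplicit false

open Polynomial

namespace RC

private theorem tu_fst (τ : ℂ →+* DualNumber ℂ) (hτ : ∀ c, (τ c).fst = c) (p : ℂ[X]) :
    (Polynomial.eval₂RingHom (cE.comp τ) (uE : RE) p).fst =
      algebraMap ℂ[X] (RatFunc ℂ) p := by
  have h : ((TrivSqZeroExt.fstHom (RatFunc ℂ) (RatFunc ℂ) (RatFunc ℂ) : RE →ₐ[RatFunc ℂ] RatFunc ℂ) :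
      RE →+* RatFunc ℂ).comp (Polynomial.eval₂RingHom (cE.comp τ) (uE : RE)) =
      algebraMap ℂ[X] (RatFunc ℂ) := by
    refine Polynomial.ringHom_ext (fun a => ?_) ?_
    · simp [cE, hτ, RatFunc.algebraMap_C]
    · simp [uE, uR, RatFunc.algebraMap_X]
  exact congrArg (fun g : ℂ[X] →+* RatFunc ℂ => g p) h

private theorem tu_unit (τ : ℂ →+* DualNumber ℂ) (hτ : ∀ c, (τ c).fst = c)
    (p : nonZeroDivisors ℂ[X]) :
    IsUnit (Polynomial.eval₂RingHom (cE.comp τ) (uE : RE) p) := by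
  rw [TrivSqZeroExt.isUnit_iff_isUnit_fst, tu_fst τ hτ]
  exact IsLocalization.map_units (RatFunc ℂ) p

theorem pr_TU : S_TU := by
  intro τ hτ
  refine ⟨IsLocalization.lift (S := RatFunc ℂ) (tu_unit τ hτ), fun c => ?_, ?_, ?_⟩
  · rw [← RatFunc.algebraMap_C, IsLocalization.lift_eq]
    simp
  · rw [← RatFunc.algebraMap_X, IsLocalization.lift_eq]
    simp
  · intro r
    have h : ((TrivSqZeroExt.fstHom (RatFunc ℂ) (RatFunc ℂ) (RatFunc ℂ) :
        RE →ₐ[RatFunc ℂ] RatFunc ℂ) : RE →+* RatFunc ℂ).comp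
        (IsLocalization.lift (S := RatFunc ℂ) (tu_unit τ hτ)) = RingHom.id (RatFunc ℂ) := by
      refine IsLocalization.ringHom_ext (nonZeroDivisors ℂ[X]) ?_
      refine RingHom.ext fun p => ?_
      show (IsLocalization.lift (S := RatFunc ℂ) (tu_unit τ hτ) (algebraMap _ _ p)).fst = _
      rw [IsLocalization.lift_eq, tu_fst τ hτ]
      rfl
    exact congrArg (fun g : RatFunc ℂ →+* RatFunc ℂ => g r) h

end RC
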