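import Pool.Agent.Work.MP_0ac1ea_ag.RC.HStmts2

/-!
# Block H, item VALM: values of a morphism, tested on generators
-/

set_option autoImplicit false

open AlgebraicGeometry CategoryTheory Limits Polynomial

namespace RC

namespace NHVALM

section

variable {R E : Type} [CommRing R] [CommRing E] (φ : R →+* E) (u : Eˣ) (κ : Fin 2) (a : R)

theorem evE_C' (c : R) : evE φ u κ (C c) = φ c := by
  simp [evE]

theorem regG_const (c : R) : RegG φ u κ (φ c) a c := by
  refine ⟨C c, 1, ?_, ?_, ?_⟩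
  · rw [eval_one]; exact isUnit_one
  · rw [map_one, mul_one, evE_C']
  · rw [eval_C, eval_one, mul_one]

theorem regG_add {s t : E} {v w : R} (h1 : RegG φ u κ s a v) (h2 : RegG φ u κ t a w) :
    RegG φ u κ (s + t) a (v + w) := by
  obtain ⟨A1, B1, hB1, e1, f1⟩ := h1
  obtain ⟨A2, B2, hB2, e2, f2⟩ := h2
  refine ⟨A1 * B2 + A2 * B1, B1 * B2, ?_, ?_, ?_⟩
  · rw [eval_mul]; exact hB1.mul hB2
  · rw [map_add, map_mul, map_mul, map_mul, ← e1, ← e2]; ring
  · rw [eval_add, eval_mul, eval_mul, eval_mul, f1, f2]; ring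

theorem regG_mul {s t : E} {v w : R} (h1 : RegG φ u κ s a v) (h2 : RegG φ u κ t a w) :
    RegG φ u κ (s * t) a (v * w) := by
  obtain ⟨A1, B1, hB1, e1, f1⟩ := h1
  obtain ⟨A2, B2, hB2, e2, f2⟩ := h2
  refine ⟨A1 * A2, B1 * B2, ?_, ?_, ?_⟩
  · rw [eval_mul]; exact hB1.mul hB2
  · rw [map_mul, map_mul, ← e1, ← e2]; ring
  · rw [eval_mul, eval_mul, f1, f2]; ring

end

end NHVALM

open NHVALM

theorem pr_VALM (valg : S_VALG) : S_VALM := by
  intro X π _ K _ _ ι A c k₁ M y T hM R₀ E _ _ _ _ φ u hφ κ a hinj hun F hF i G hG z hz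
  refine valg X π K ι A c hM.atlas R₀ E φ u κ a hinj hun F hF i (G : A i →+* E) hG z ?_
  have key : ∀ x (_ : x ∈ Algebra.adjoin ℂ (y '' (T i : Set (Fin M)))) (hx : x ∈ A i),
      RegG φ u κ (G ⟨x, hx⟩) a (z ⟨x, hx⟩) := by
    intro x hx
    induction hx using Algebra.adjoin_induction with
    | mem x hx =>
      obtain ⟨j, hj, rfl⟩ := hx
      intro hx
      exact hz ⟨y j, hx⟩ j hj rfl
    | algebraMap w =>
      intro hx
      have h1 : (⟨algebraMap ℂ K w, hx⟩ : A i) = algebraMap ℂ (A i) w := rfl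
      rw [h1, AlgHom.commutes, AlgHom.commutes, ← hφ]
      exact regG_const φ u κ a _
    | add p q hp hq h1 h2 =>
      intro hx
      have hp' : p ∈ A i := by rw [hM.gens i]; exact hp
      have hq' : q ∈ A i := by rw [hM.gens i]; exact hq
      have h3 : (⟨p + q, hx⟩ : A i) = ⟨p, hp'⟩ + ⟨q, hq'⟩ := rfl
      rw [h3, map_add, map_add]
      exact regG_add φ u κ a (h1 hp') (h2 hq')
    | mul p q hp hq h1 h2 =>
      intro hx
      have hp' : p ∈ A i := by rw [hM.gens i]; exact hp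
      have hq' : q ∈ A i := by rw [hM.gens i]; exact hq
      have h3 : (⟨p * q, hx⟩ : A i) = ⟨p, hp'⟩ * ⟨q, hq'⟩ := rfl
      rw [h3, map_mul, map_mul]
      exact regG_mul φ u κ a (h1 hp') (h2 hq')
  intro r
  have hr : (r : K) ∈ Algebra.adjoin ℂ (y '' (T i : Set (Fin M))) := by
    rw [← hM.gens i]; exact r.2
  exact key r hr r.2

end RC
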