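import Pool.Agent.Work.MP_0ac1ea_ag.RC.CStmts2

/-!
# Exponential families of endomorphisms
-/

open Polynomial

namespace RC

namespace EPS_aux

/-- coefficientwise extension to power series of an additive map with the Leibniz rule -/
theorem exists_powerSeries {A : Type} [CommRing A] (d : A → A)
    (hadd : ∀ a b, d (a + b) = d a + d b) (hmul : ∀ a b, d (a * b) = a * d b + b * d a) :
    ∃ D : Derivation ℤ (PowerSeries A) (PowerSeries A),
      ∀ f n, PowerSeries.coeff n (D f) = d (PowerSeries.coeff n f) := by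
  let d' : A →+ A := AddMonoidHom.mk' d hadd
  let L : PowerSeries A →+ PowerSeries A := AddMonoidHom.mk'
    (fun f => PowerSeries.mk fun n => d (PowerSeries.coeff n f)) (by
      intro f g
      ext n
      simp [PowerSeries.coeff_mk, hadd])
  have hL : ∀ f n, PowerSeries.coeff n (L f) = d (PowerSeries.coeff n f) := by
    intro f n
    show PowerSeries.coeff n (PowerSeries.mk fun n => d (PowerSeries.coeff n f)) = _
    rw [PowerSeries.coeff_mk]
  refine ⟨Derivation.mk' L.toIntLinearMap ?_, ?_⟩
  · intro f g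
    show L (f * g) = f * L g + g * L f
    ext n
    rw [hL, map_add, PowerSeries.coeff_mul, PowerSeries.coeff_mul, mul_comm g, PowerSeries.coeff_mul]
    have h1 : d (∑ p ∈ Finset.HasAntidiagonal.antidiagonal n, PowerSeries.coeff p.1 f * PowerSeries.coeff p.2 g)
        = ∑ p ∈ Finset.HasAntidiagonal.antidiagonal n, d (PowerSeries.coeff p.1 f * PowerSeries.coeff p.2 g) :=
      map_sum d' _ _
    rw [h1, ← Finset.sum_add_distrib]
    refine Finset.sum_congr rfl fun p _ => ?_
    rw [hmul, hL, hL]
    ring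
  · intro f n
    exact hL f n

theorem exists_polynomial {A : Type} [CommRing A] (d : A → A)
    (hadd : ∀ a b, d (a + b) = d a + d b) (hmul : ∀ a b, d (a * b) = a * d b + b * d a) :
    ∃ D : Polynomial A → Polynomial A, (∀ a b, D (a + b) = D a + D b) ∧
      (∀ a b, D (a * b) = a * D b + b * D a) ∧ ∀ f n, (D f).coeff n = d (f.coeff n) := by
  have h0 : d 0 = 0 := by
    have := hadd 0 0
    simpa using this
  let d' : A →+ A := AddMonoidHom.mk' d hadd
  let D : Polynomial A → Polynomial A := fun f =>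
    ∑ i ∈ Finset.range (f.natDegree + 1), Polynomial.monomial i (d (f.coeff i))
  have hD : ∀ f n, (D f).coeff n = d (f.coeff n) := by
    intro f n
    simp only [D, Polynomial.finsetSum_coeff, Polynomial.coeff_monomial]
    rw [Finset.sum_ite_eq' (Finset.range (f.natDegree + 1)) n (fun i => d (f.coeff i))]
    split_ifs with h
    · rfl
    · rw [Finset.mem_range, not_lt] at h
      rw [Polynomial.coeff_eq_zero_of_natDegree_lt (by omega), h0]
  refine ⟨D, ?_, ?_, hD⟩
  · intro a b
    ext n
    rw [hD, Polynomial.coeff_add, hadd, Polynomial.coeff_add, hD, hD]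
  · intro a b
    ext n
    rw [hD, Polynomial.coeff_add, Polynomial.coeff_mul, Polynomial.coeff_mul, mul_comm b,
      Polynomial.coeff_mul]
    have h1 : d (∑ p ∈ Finset.HasAntidiagonal.antidiagonal n, a.coeff p.1 * b.coeff p.2)
        = ∑ p ∈ Finset.HasAntidiagonal.antidiagonal n, d (a.coeff p.1 * b.coeff p.2) :=
      map_sum d' _ _
    rw [h1, ← Finset.sum_add_distrib]
    refine Finset.sum_congr rfl fun p _ => ?_
    rw [hmul, hD, hD]
    ring

/-- the extension of a derivation of `ℂ` to `Out` -/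
theorem exists_hat (D : Derivation ℤ ℂ ℂ) : ∃ D' : Derivation ℤ Out Out,
    (∀ c, D' (PowerSeries.C (Polynomial.C c)) = PowerSeries.C (Polynomial.C (D c))) ∧
      D' PowerSeries.X = 0 := by
  unfold Out
  obtain ⟨P, hP1, hP2, hP3⟩ := exists_polynomial (fun c => D c) (fun a b => map_add D a b)
    (fun a b => by rw [Derivation.leibniz, smul_eq_mul, smul_eq_mul])
  obtain ⟨Q, hQ⟩ := exists_powerSeries P hP1 hP2
  have hP0 : P 0 = 0 := by
    have := hP1 0 0
    simpa using this
  have hP1' : P 1 = 0 := by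
    have := hP2 1 1
    simpa using this
  refine ⟨Q, ?_, ?_⟩
  · intro c
    ext n : 1
    refine (hQ _ _).trans ?_
    rw [PowerSeries.coeff_C, PowerSeries.coeff_C]
    split_ifs with h
    · ext k
      rw [hP3, Polynomial.coeff_C, Polynomial.coeff_C]
      split_ifs with h'
      · rfl
      · exact map_zero D
    · exact hP0
  · ext n : 1
    refine (hQ _ _).trans ?_
    rw [PowerSeries.coeff_X]
    split_ifs with h
    · rw [hP1']; rfl
    · rw [hP0]; rfl

theorem dvd_hat {D : Derivation ℤ Out Out} (hX : D PowerSeries.X = 0) (k : ℕ) (f : Out)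
    (h : (PowerSeries.X : Out) ^ k ∣ f) : (PowerSeries.X : Out) ^ k ∣ D f := by
  obtain ⟨g, rfl⟩ := h
  rw [Derivation.leibniz, Derivation.leibniz_pow, hX]
  simp

theorem eq_zero_of_dvd {R : Type} [CommRing R] (f : PowerSeries R)
    (h : ∀ N : ℕ, (PowerSeries.X : PowerSeries R) ^ (N + 1) ∣ f) : f = 0 := by
  ext n
  have := h n
  rw [PowerSeries.X_pow_dvd_iff] at this
  rw [this n (Nat.lt_succ_self n)]
  simp

/-- the defining property of the exponential of `a * D` -/
def IsExp (D : Derivation ℤ Out Out) (a : Out) (E : Out →+* Out) : Prop :=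
  ∀ (f : Out) (N : ℕ), (PowerSeries.X : Out) ^ (N + 1) ∣ E f - ∑ m ∈ Finset.range (N + 1),
      algebraMap ℚ Out (1 / (m.factorial : ℚ)) * (⇑(a • D))^[m] f

section one

variable {D : Derivation ℤ Out Out} (hX : D PowerSeries.X = 0) {a : Out}
  (ha : (PowerSeries.X : Out) ∣ a) {E : Out →+* Out} (hE : IsExp D a E)

include hE in
theorem exp_eq_self {f : Out} (hf : D f = 0) : E f = f := by
  rw [← sub_eq_zero]
  apply eq_zero_of_dvd
  intro N
  have h := hE f N
  have h2 : ∑ m ∈ Finset.range (N + 1),
      algebraMap ℚ Out (1 / (m.factorial : ℚ)) * (⇑(a • D))^[m] f = f := by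
    rw [Finset.sum_eq_single 0]
    · simp
    · intro m _ hm
      obtain ⟨m, rfl⟩ := Nat.exists_eq_succ_of_ne_zero hm
      rw [Nat.succ_eq_add_one, Function.iterate_succ_apply]
      have h3 : (⇑(a • D)) f = 0 := by
        rw [Derivation.smul_apply, hf, smul_zero]
      rw [h3]
      have h4 : ∀ k : ℕ, (⇑(a • D))^[k] 0 = 0 := by
        intro k
        induction k with
        | zero => rfl
        | succ k ih => rw [Function.iterate_succ_apply', ih, map_zero]
      rw [h4, mul_zero]
    · intro h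
      exact absurd (Finset.mem_range.2 (Nat.succ_pos N)) h
  rwa [h2] at h

include hE in
theorem exp_sub_self (f : Out) : (PowerSeries.X : Out) ∣ E f - f := by
  have h := hE f 0
  simpa using h

include hX hE in
theorem exp_sub_dvd (M : ℕ) (f : Out) (hf : (PowerSeries.X : Out) ^ M ∣ f) :
    (PowerSeries.X : Out) ^ (M + 1) ∣ E f - f := by
  obtain ⟨g, rfl⟩ := hf
  have hEX : E PowerSeries.X = PowerSeries.X := exp_eq_self hE hX
  rw [map_mul, map_pow, hEX, ← mul_sub, pow_succ]
  exact mul_dvd_mul_left _ (exp_sub_self hE g)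

include hX ha in
theorem iter_dvd (m : ℕ) (f : Out) : (PowerSeries.X : Out) ^ m ∣ (⇑(a • D))^[m] f := by
  induction m with
  | zero => simp
  | succ m ih =>
    rw [Function.iterate_succ_apply', Derivation.smul_apply, smul_eq_mul, pow_succ']
    exact mul_dvd_mul ha (dvd_hat hX m _ ih)

include hX ha in
theorem iter_sub_dvd {a' : Out} (ha' : (PowerSeries.X : Out) ∣ a') (N : ℕ)
    (haa : (PowerSeries.X : Out) ^ N ∣ a' - a) (m : ℕ) (f : Out) :
    (PowerSeries.X : Out) ^ (N + m) ∣ (⇑(a' • D))^[m + 1] f - (⇑(a • D))^[m + 1] f := by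
  induction m with
  | zero =>
    simp only [zero_add, Function.iterate_one, add_zero, Derivation.smul_apply, smul_eq_mul]
    rw [← sub_mul]
    exact haa.mul_right _
  | succ m ih =>
    rw [Function.iterate_succ_apply' _ (m + 1), Function.iterate_succ_apply' _ (m + 1)]
    set u := (⇑(a' • D))^[m + 1] f with hu
    set v := (⇑(a • D))^[m + 1] f with hv
    have h1 : (a' • D) u - (a • D) v = a' * D (u - v) + (a' - a) * D v := by
      simp only [Derivation.smul_apply, smul_eq_mul, map_sub]
      ring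
    rw [h1]
    apply dvd_add
    · have := mul_dvd_mul ha' (dvd_hat hX _ _ ih)
      rwa [← pow_succ', add_assoc] at this
    · have h2 := dvd_hat hX (m + 1) _ (iter_dvd hX ha (m + 1) f)
      have := mul_dvd_mul haa h2
      rwa [← pow_add] at this

include hX ha hE in
theorem exp_diff {a' : Out} (ha' : (PowerSeries.X : Out) ∣ a') {E' : Out →+* Out}
    (hE' : IsExp D a' E') (N : ℕ) (hN : 1 ≤ N) (haa : (PowerSeries.X : Out) ^ N ∣ a' - a)
    (f : Out) : (PowerSeries.X : Out) ^ (N + 1) ∣ E' f - E f - (a' - a) * D f := by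
  have h1 := hE f N
  have h2 := hE' f N
  obtain ⟨K, rfl⟩ : ∃ K, N = K + 1 := ⟨N - 1, by omega⟩
  rw [Finset.sum_range_succ', Finset.sum_range_succ'] at h1 h2
  have h3 : E' f - E f - (a' - a) * D f =
      (E' f - (∑ k ∈ Finset.range K, algebraMap ℚ Out (1 / ((k + 1 + 1).factorial : ℚ)) *
        (⇑(a' • D))^[k + 1 + 1] f + algebraMap ℚ Out (1 / ((0 + 1).factorial : ℚ)) *
        (⇑(a' • D))^[0 + 1] f + algebraMap ℚ Out (1 / ((0).factorial : ℚ)) *
        (⇑(a' • D))^[0] f)) -
      (E f - (∑ k ∈ Finset.range K, algebraMap ℚ Out (1 / ((k + 1 + 1).factorial : ℚ)) *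
        (⇑(a • D))^[k + 1 + 1] f + algebraMap ℚ Out (1 / ((0 + 1).factorial : ℚ)) *
        (⇑(a • D))^[0 + 1] f + algebraMap ℚ Out (1 / ((0).factorial : ℚ)) *
        (⇑(a • D))^[0] f)) +
      ∑ k ∈ Finset.range K, algebraMap ℚ Out (1 / ((k + 1 + 1).factorial : ℚ)) *
        ((⇑(a' • D))^[k + 1 + 1] f - (⇑(a • D))^[k + 1 + 1] f) := by
    simp only [zero_add, Nat.factorial_one, Nat.cast_one, div_one, map_one, one_mul,
      Function.iterate_one, Nat.factorial_zero, Function.iterate_zero, id_eq,
      Derivation.smul_apply, smul_eq_mul, mul_sub, Finset.sum_sub_distrib]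
    ring
  rw [h3]
  refine dvd_add (dvd_sub h2 h1) (Finset.dvd_sum fun k _ => Dvd.dvd.mul_left ?_ _)
  have h4 := iter_sub_dvd hX ha ha' (K + 1) haa (k + 1) f
  exact (pow_dvd_pow _ (by omega)).trans h4

include hE in
theorem exp_inf (h0 : evS 0 a = 0) (f : Out) : evS 0 (E f) = evS 0 f := by
  rw [← sub_eq_zero]
  apply eq_zero_of_dvd
  intro N
  have h := hE f N
  have h2 : evS 0 (∑ m ∈ Finset.range (N + 1),
      algebraMap ℚ Out (1 / (m.factorial : ℚ)) * (⇑(a • D))^[m] f) = evS 0 f := by
    rw [map_sum, Finset.sum_eq_single 0]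
    · simp
    · intro m _ hm
      obtain ⟨m, rfl⟩ := Nat.exists_eq_succ_of_ne_zero hm
      rw [Nat.succ_eq_add_one, Function.iterate_succ_apply', Derivation.smul_apply, smul_eq_mul,
        map_mul, map_mul, h0, zero_mul, mul_zero]
    · intro h
      exact absurd (Finset.mem_range.2 (Nat.succ_pos N)) h
  have h3 := map_dvd (evS 0) h
  rw [map_sub, h2, map_pow] at h3
  have h4 : evS 0 (PowerSeries.X : Out) = PowerSeries.X := PowerSeries.map_X _
  rwa [h4] at h3

end one

end EPS_aux

open EPS_aux in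
theorem pr_EPS (hEXPD : S_EXPD) : S_EPS := by
  intro k n D hDk
  choose Dh hDh1 hDhX using fun i => exists_hat (D i)
  -- the single exponentials
  have hE : ∀ (i : Fin n) (a : Out), PowerSeries.constantCoeff a = 0 →
      ∃ E : Out →+* Out, IsExp (Dh i) a E := by
    intro i a ha
    have hXa : (PowerSeries.X : Out) ∣ a := PowerSeries.X_dvd_iff.2 ha
    exact hEXPD (Polynomial ℂ) (a • Dh i)
      (fun f => by
        show (PowerSeries.X : Out) ∣ a * Dh i f
        exact hXa.mul_right _)
      (by
        show a * Dh i PowerSeries.X = 0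
        rw [hDhX, mul_zero])
  choose! E hE using hE
  have hXs : ∀ (a : Small n) i, (PowerSeries.X : Out) ∣ a.1 i := fun a i =>
    PowerSeries.X_dvd_iff.2 (a.2 i)
  -- composition
  have key : ∀ s : Finset (Fin n), ∃ F : Small n → Out →+* Out,
      (∀ a f, (∀ i, Dh i f = 0) → F a f = f) ∧
      (∀ a f, (PowerSeries.X : Out) ∣ F a f - f) ∧
      (∀ (a a' : Small n) (N : ℕ), 1 ≤ N → (∀ i, (PowerSeries.X : Out) ^ N ∣ a'.1 i - a.1 i) →
        ∀ f, (PowerSeries.X : Out) ^ (N + 1) ∣
          F a' f - F a f - ∑ i ∈ s, (a'.1 i - a.1 i) * Dh i f) ∧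
      (∀ a : Small n, (∀ i, evS 0 (a.1 i) = 0) → ∀ f, evS 0 (F a f) = evS 0 f) := by
    intro s
    induction s using Finset.induction_on with
    | empty =>
      refine ⟨fun _ => RingHom.id _, ?_, ?_, ?_, ?_⟩
      · intro a f _; rfl
      · intro a f; simp
      · intro a a' N _ _ f; simp
      · intro a _ f; rfl
    | insert j s hj ih =>
      obtain ⟨F, h1, h2, h3, h4⟩ := ih
      refine ⟨fun a => (E j (a.1 j)).comp (F a), ?_, ?_, ?_, ?_⟩
      · intro a f hf
        rw [RingHom.comp_apply, h1 a f hf, exp_eq_self (hE j _ (a.2 j)) (hf j)]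
      · intro a f
        rw [RingHom.comp_apply]
        have e1 := exp_sub_self (hE j _ (a.2 j)) (F a f)
        have e2 := dvd_add e1 (h2 a f)
        rwa [sub_add_sub_cancel] at e2
      · intro a a' N hN haa f
        rw [RingHom.comp_apply, RingHom.comp_apply, Finset.sum_insert hj]
        have g3 := h3 a a' N hN haa f
        -- `g' - g ∈ X^N`
        have g1 : (PowerSeries.X : Out) ^ N ∣ F a' f - F a f := by
          have e1 : (PowerSeries.X : Out) ^ N ∣
              F a' f - F a f - ∑ i ∈ s, (a'.1 i - a.1 i) * Dh i f :=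
            (pow_dvd_pow _ (Nat.le_succ N)).trans g3
          have e2 : (PowerSeries.X : Out) ^ N ∣ ∑ i ∈ s, (a'.1 i - a.1 i) * Dh i f :=
            Finset.dvd_sum fun i _ => (haa i).mul_right _
          have e3 := dvd_add e1 e2
          rwa [sub_add_cancel] at e3
        have e1 := exp_sub_dvd (hDhX j) (hE j _ (a'.2 j)) N _ g1
        have e2 := exp_diff (hDhX j) (hXs a j) (hE j _ (a.2 j)) (hXs a' j)
          (hE j _ (a'.2 j)) N hN (haa j) (F a f)
        have e3 : (PowerSeries.X : Out) ^ (N + 1) ∣ (a'.1 j - a.1 j) * Dh j (F a f - f) := by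
          rw [pow_succ]
          refine mul_dvd_mul (haa j) ?_
          have := dvd_hat (hDhX j) 1 (F a f - f) (by simpa using h2 a f)
          simpa using this
        have e4 := dvd_add (dvd_add (dvd_add e1 e2) e3) g3
        have e5 : E j (a'.1 j) (F a' f) - E j (a.1 j) (F a f) -
            ((a'.1 j - a.1 j) * Dh j f + ∑ i ∈ s, (a'.1 i - a.1 i) * Dh i f) =
            E j (a'.1 j) (F a' f - F a f) - (F a' f - F a f) +
              (E j (a'.1 j) (F a f) - E j (a.1 j) (F a f) - (a'.1 j - a.1 j) * Dh j (F a f)) +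
              (a'.1 j - a.1 j) * Dh j (F a f - f) +
              (F a' f - F a f - ∑ i ∈ s, (a'.1 i - a.1 i) * Dh i f) := by
          rw [map_sub, map_sub]
          ring
        rw [e5]
        exact e4
      · intro a ha f
        rw [RingHom.comp_apply, exp_inf (hE j _ (a.2 j)) (ha j), h4 a ha]
  obtain ⟨F, h1, h2, h3, h4⟩ := key Finset.univ
  refine ⟨fun a => (F a).comp (PowerSeries.C.comp Polynomial.C), ?_, ?_, ?_, ?_⟩
  · intro a c hc
    show F a (PowerSeries.C (Polynomial.C c)) = _
    apply h1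
    intro i
    rw [hDh1, hDk i c hc]
    simp
  · intro a c
    show PowerSeries.constantCoeff (F a (PowerSeries.C (Polynomial.C c))) = _
    have e := h2 a (PowerSeries.C (Polynomial.C c))
    rw [PowerSeries.X_dvd_iff, map_sub, sub_eq_zero] at e
    rw [e, PowerSeries.constantCoeff_C]
  · intro a a' N hN haa c
    show _ ∣ F a' (PowerSeries.C (Polynomial.C c)) - F a (PowerSeries.C (Polynomial.C c)) - _
    have e := h3 a a' N hN haa (PowerSeries.C (Polynomial.C c))
    simp only [hDh1] at e
    exact e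
  · intro a ha c
    show evS 0 (F a (PowerSeries.C (Polynomial.C c))) = _
    rw [h4 a ha]
    unfold evS
    rw [PowerSeries.map_C]
    simp

end RC
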