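import Pool.Agent.Work.MP_0ac1ea_ag.RC.CStmts2

/-!
# Exponential of a topologically nilpotent derivation
-/

open Polynomial

namespace RC

namespace EXPD_aux

variable {A : Type} [CommRing A]

theorem iter_mul (d : A → A) (hadd : ∀ a b, d (a + b) = d a + d b)
    (hd : ∀ a b, d (a * b) = a * d b + b * d a) (m : ℕ) (f g : A) :
    d^[m] (f * g) = ∑ ij ∈ Finset.HasAntidiagonal.antidiagonal m,
      Nat.choose m ij.1 • (d^[ij.1] f * d^[ij.2] g) := by
  induction m with
  | zero => simp
  | succ n ih =>
    rw [Finset.sum_antidiagonal_choose_succ_nsmul (M := A)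
      (fun i j => d^[i] f * d^[j] g) n]
    let d' : A →+ A := AddMonoidHom.mk' d hadd
    have h1 : d^[n + 1] (f * g) = d' (d^[n] (f * g)) := Function.iterate_succ_apply' _ _ _
    have h2 : ∀ a, d' a = d a := fun _ => rfl
    rw [h1, ih, map_sum, ← Finset.sum_add_distrib]
    refine Finset.sum_congr rfl fun x _ => ?_
    have h3 : n.choose x.2 = n.choose x.1 := by
      have := Finset.HasAntidiagonal.mem_antidiagonal.1 ‹_›
      exact (Nat.choose_symm_of_eq_add (by omega)).symm
    rw [map_nsmul, h2, hd, Function.iterate_succ_apply', Function.iterate_succ_apply',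
      h3, ← nsmul_add]
    congr 1
    ring

/-- normalised iterates -/
noncomputable def D [Algebra ℚ A] (d : A → A) (m : ℕ) (f : A) : A :=
  algebraMap ℚ A (1 / (m.factorial : ℚ)) * d^[m] f

theorem D_mul [Algebra ℚ A] (d : A → A) (hadd : ∀ a b, d (a + b) = d a + d b)
    (hd : ∀ a b, d (a * b) = a * d b + b * d a) (m : ℕ) (f g : A) :
    D d m (f * g) = ∑ ij ∈ Finset.HasAntidiagonal.antidiagonal m, D d ij.1 f * D d ij.2 g := by
  unfold D
  rw [iter_mul d hadd hd, Finset.mul_sum]
  refine Finset.sum_congr rfl fun ij hij => ?_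
  have h : (Nat.choose m ij.1 : ℚ) = (m.factorial : ℚ) / ((ij.1.factorial : ℚ) * (ij.2.factorial : ℚ)) := by
    have h1 := Finset.HasAntidiagonal.mem_antidiagonal.1 hij
    rw [← h1, Nat.choose_symm_add, Nat.add_choose, Nat.cast_div (Nat.factorial_mul_factorial_dvd_factorial_add _ _)]
    · push_cast; rfl
    · exact_mod_cast (Nat.mul_pos (Nat.factorial_pos _) (Nat.factorial_pos _)).ne'
  have h2 : algebraMap ℚ A (1 / (m.factorial : ℚ)) * (Nat.choose m ij.1 : A)
      = algebraMap ℚ A (1 / (ij.1.factorial : ℚ)) * algebraMap ℚ A (1 / (ij.2.factorial : ℚ)) := by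
    rw [← map_natCast (algebraMap ℚ A), ← map_mul, ← map_mul, h]
    congr 1
    have h3 : (m.factorial : ℚ) ≠ 0 := by exact_mod_cast (Nat.factorial_pos _).ne'
    field_simp
  rw [nsmul_eq_mul, ← mul_assoc, h2]
  ring

end EXPD_aux

open EXPD_aux in
theorem pr_EXPD : S_EXPD := by
  intro R _ _ δ hδ hX
  have hadd : ∀ a b, δ (a + b) = δ a + δ b := fun a b => map_add δ a b
  have hleib : ∀ a b, δ (a * b) = a * δ b + b * δ a := fun a b => by
    rw [Derivation.leibniz, smul_eq_mul, smul_eq_mul]
  -- powers of X divide the iterates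
  have hXk : ∀ (k : ℕ) (g : PowerSeries R), δ (PowerSeries.X ^ k * g) = PowerSeries.X ^ k * δ g := by
    intro k g
    rw [Derivation.leibniz, Derivation.leibniz_pow, hX]
    simp
  have hdiv : ∀ (m : ℕ) (f : PowerSeries R), (PowerSeries.X : PowerSeries R) ^ m ∣ (⇑δ)^[m] f := by
    intro m
    induction m with
    | zero => intro f; simp
    | succ m ih =>
      intro f
      obtain ⟨g, hg⟩ := ih f
      rw [Function.iterate_succ_apply', hg, hXk, pow_succ]
      exact mul_dvd_mul_left _ (hδ g)
  have hD : ∀ (m : ℕ) (f : PowerSeries R), (PowerSeries.X : PowerSeries R) ^ m ∣ D (⇑δ) m f := by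
    intro m f
    exact Dvd.dvd.mul_left (hdiv m f) _
  let S : ℕ → PowerSeries R → PowerSeries R := fun K f => ∑ m ∈ Finset.range K, D (⇑δ) m f
  have hS : ∀ (N : ℕ) (f : PowerSeries R) (K : ℕ), N + 1 ≤ K →
      PowerSeries.coeff N (S K f) = PowerSeries.coeff N (S (N + 1) f) := by
    intro N f K hK
    induction K, hK using Nat.le_induction with
    | base => rfl
    | succ K hK ih =>
      simp only [S] at ih ⊢
      rw [Finset.sum_range_succ, map_add, ih]
      have : PowerSeries.coeff N (D (⇑δ) K f) = 0 :=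
        PowerSeries.X_pow_dvd_iff.1 (hD K f) N (by omega)
      rw [this, add_zero]
  let E : PowerSeries R → PowerSeries R := fun f =>
    PowerSeries.mk fun N => PowerSeries.coeff N (S (N + 1) f)
  have hE : ∀ (f : PowerSeries R) (N K : ℕ), N + 1 ≤ K →
      PowerSeries.coeff N (E f) = PowerSeries.coeff N (S K f) := by
    intro f N K hK
    simp only [E, PowerSeries.coeff_mk]
    exact (hS N f K hK).symm
  have hEdvd : ∀ (f : PowerSeries R) (N : ℕ), (PowerSeries.X : PowerSeries R) ^ (N + 1) ∣
      E f - S (N + 1) f := by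
    intro f N
    rw [PowerSeries.X_pow_dvd_iff]
    intro n hn
    rw [map_sub, hE f n (N + 1) hn, sub_self]
  have hone : ∀ m, D (⇑δ) (m + 1) (1 : PowerSeries R) = 0 := by
    intro m
    unfold D
    rw [Function.iterate_succ_apply, Derivation.map_one_eq_zero]
    have : (⇑δ)^[m] 0 = 0 := Function.iterate_fixed (map_zero δ) m
    rw [this, mul_zero]
  have hSadd : ∀ K f g, S K (f + g) = S K f + S K g := by
    intro K f g
    simp only [S]
    rw [← Finset.sum_add_distrib]
    refine Finset.sum_congr rfl fun m _ => ?_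
    unfold D
    rw [iterate_map_add, mul_add]
  have hSone : ∀ K, S (K + 1) 1 = 1 := by
    intro K
    simp only [S]
    rw [Finset.sum_range_succ']
    rw [Finset.sum_eq_zero (fun m _ => hone m)]
    simp [D]
  have hSzero : ∀ K, S K 0 = 0 := by
    intro K
    simp only [S]
    refine Finset.sum_eq_zero fun m _ => ?_
    unfold D
    rw [iterate_map_zero, mul_zero]
  have hSmul : ∀ N f g, (PowerSeries.X : PowerSeries R) ^ (N + 1) ∣
      S (N + 1) (f * g) - S (N + 1) f * S (N + 1) g := by
    intro N f g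
    -- product of partial sums
    have h1 : S (N + 1) f * S (N + 1) g
        = ∑ p ∈ Finset.range (N + 1) ×ˢ Finset.range (N + 1), D (⇑δ) p.1 f * D (⇑δ) p.2 g := by
      simp only [S]
      rw [Finset.sum_mul_sum, Finset.sum_product]
    have h2 : S (N + 1) (f * g)
        = ∑ p ∈ (Finset.range (N + 1) ×ˢ Finset.range (N + 1)).filter (fun p => p.1 + p.2 < N + 1),
            D (⇑δ) p.1 f * D (⇑δ) p.2 g := by
      simp only [S, D_mul (⇑δ) hadd hleib]
      rw [Finset.sum_sigma']
      refine Finset.sum_bij' (fun x _ => x.2) (fun p _ => ⟨p.1 + p.2, p⟩) ?_ ?_ ?_ ?_ ?_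
      · rintro ⟨m, p⟩ hx
        simp only [Finset.mem_sigma, Finset.mem_range, Finset.HasAntidiagonal.mem_antidiagonal] at hx
        simp only [Finset.mem_filter, Finset.mem_product, Finset.mem_range]
        omega
      · intro p hp
        simp only [Finset.mem_filter, Finset.mem_product, Finset.mem_range] at hp
        rw [Finset.mem_sigma, Finset.mem_range, Finset.HasAntidiagonal.mem_antidiagonal]
        exact ⟨hp.2, rfl⟩
      · rintro ⟨m, p⟩ hx
        simp only [Finset.mem_sigma, Finset.mem_range, Finset.HasAntidiagonal.mem_antidiagonal] at hx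
        obtain ⟨h3, h4⟩ := hx
        subst h4
        rfl
      · intro p hp
        rfl
      · intro x hx
        rfl
    rw [h1, h2, ← Finset.sum_filter_add_sum_filter_not
      (Finset.range (N + 1) ×ˢ Finset.range (N + 1)) (fun p => p.1 + p.2 < N + 1)]
    rw [sub_add_cancel_left]
    rw [dvd_neg]
    refine Finset.dvd_sum fun p hp => ?_
    simp only [Finset.mem_filter, not_lt] at hp
    have h5 : (PowerSeries.X : PowerSeries R) ^ (p.1 + p.2) ∣ D (⇑δ) p.1 f * D (⇑δ) p.2 g := by
      rw [pow_add]
      exact mul_dvd_mul (hD _ _) (hD _ _)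
    exact (pow_dvd_pow _ hp.2).trans h5
  refine ⟨{ toFun := E, map_one' := ?_, map_mul' := ?_, map_zero' := ?_, map_add' := ?_ }, ?_⟩
  · ext N
    rw [hE 1 N (N + 1) le_rfl, hSone]
  · intro f g
    ext N
    have h1 : (PowerSeries.X : PowerSeries R) ^ (N + 1) ∣ E (f * g) - E f * E g := by
      have e1 := hEdvd (f * g) N
      have e2 := hSmul N f g
      have e3 := hEdvd f N
      have e4 := hEdvd g N
      have : E (f * g) - E f * E g = (E (f * g) - S (N + 1) (f * g))
          + (S (N + 1) (f * g) - S (N + 1) f * S (N + 1) g)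
          - (E f - S (N + 1) f) * E g - S (N + 1) f * (E g - S (N + 1) g) := by ring
      rw [this]
      exact dvd_sub (dvd_sub (dvd_add e1 e2) (e3.mul_right _)) (e4.mul_left _)
    have h2 := PowerSeries.X_pow_dvd_iff.1 h1 N (Nat.lt_succ_self N)
    rw [map_sub, sub_eq_zero] at h2
    exact h2
  · ext N
    rw [hE 0 N (N + 1) le_rfl, hSzero]
  · intro f g
    ext N
    rw [hE (f + g) N (N + 1) le_rfl, hSadd, map_add, map_add, hE f N (N + 1) le_rfl,
      hE g N (N + 1) le_rfl]
  · intro f N
    exact hEdvd f N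

end RC
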