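import Pool.Agent.Work.MP_0ac1ea_ag.RC.H_ACL
import Pool.Agent.Work.MP_0ac1ea_ag.RC.H_ALGC
import Pool.Agent.Work.MP_0ac1ea_ag.RC.H_ATLAS
import Pool.Agent.Work.MP_0ac1ea_ag.RC.H_BC
import Pool.Agent.Work.MP_0ac1ea_ag.RC.H_CERTINF
import Pool.Agent.Work.MP_0ac1ea_ag.RC.H_CERTLOC
import Pool.Agent.Work.MP_0ac1ea_ag.RC.H_COEF
import Pool.Agent.Work.MP_0ac1ea_ag.RC.H_DIM0
import Pool.Agent.Work.MP_0ac1ea_ag.RC.H_EXT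
import Pool.Agent.Work.MP_0ac1ea_ag.RC.H_GENPT
import Pool.Agent.Work.MP_0ac1ea_ag.RC.H_GENX
import Pool.Agent.Work.MP_0ac1ea_ag.RC.H_GLUE
import Pool.Agent.Work.MP_0ac1ea_ag.RC.H_INJ
import Pool.Agent.Work.MP_0ac1ea_ag.RC.H_K1
import Pool.Agent.Work.MP_0ac1ea_ag.RC.H_LIFT
import Pool.Agent.Work.MP_0ac1ea_ag.RC.H_LOCREG
import Pool.Agent.Work.MP_0ac1ea_ag.RC.H_MOB2
import Pool.Agent.Work.MP_0ac1ea_ag.RC.H_MODEL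
import Pool.Agent.Work.MP_0ac1ea_ag.RC.H_OMEGA
import Pool.Agent.Work.MP_0ac1ea_ag.RC.H_OV1
import Pool.Agent.Work.MP_0ac1ea_ag.RC.H_OV2
import Pool.Agent.Work.MP_0ac1ea_ag.RC.H_P1ISO
import Pool.Agent.Work.MP_0ac1ea_ag.RC.H_PT
import Pool.Agent.Work.MP_0ac1ea_ag.RC.H_PTEQ
import Pool.Agent.Work.MP_0ac1ea_ag.RC.H_REGK
import Pool.Agent.Work.MP_0ac1ea_ag.RC.H_SEP
import Pool.Agent.Work.MP_0ac1ea_ag.RC.H_TAU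
import Pool.Agent.Work.MP_0ac1ea_ag.RC.H_THETA
import Pool.Agent.Work.MP_0ac1ea_ag.RC.H_TU
import Pool.Agent.Work.MP_0ac1ea_ag.RC.H_VALG
import Pool.Agent.Work.MP_0ac1ea_ag.RC.H_VF
import Pool.Agent.Work.MP_0ac1ea_ag.RC.H_FINAL
import Pool.Agent.Work.MP_0ac1ea_ag.RC.H_MK
import Pool.Agent.Work.MP_0ac1ea_ag.RC.H_VALM
import Pool.Agent.Work.MP_0ac1ea_ag.RC.CoreAsm
import Pool.Agent.Work.MP_0ac1ea_ag.RC.I_NFIX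
import Pool.Agent.Work.MP_0ac1ea_ag.RC.I_EPS
import Pool.Agent.Work.MP_0ac1ea_ag.RC.I_EXPD

/-!
# Final wiring
-/

namespace RC

theorem FinalAsm.final_of (hEPS : S_EPS) (hMK : S_MK) (hVALM : S_VALM) : FinalStmt :=
  final_stmt (pr_MODEL pr_ATLAS pr_OV2 pr_OMEGA pr_LIFT (pr_K1 pr_ACL) pr_COEF) (pr_EXT pr_BC)
    hMK hVALM
    (pr_ALGC pr_PT pr_PTEQ pr_GENPT pr_LOCREG pr_THETA pr_OV1 pr_LIFT pr_MOB2 pr_CERTLOC pr_INJ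
      pr_DIM0)
    (pr_VF hMK hVALM pr_LIFT pr_THETA (pr_TAU pr_DER pr_GENAI pr_TB) pr_TU pr_P1ISO pr_INJ pr_SEP
      pr_REGK)
    (core_of pr_NFIX hEPS) pr_GENX pr_ACL pr_INJ pr_REGK

theorem mk_all : S_MK := pr_MK (pr_EXT pr_BC) pr_GLUE pr_CERTINF pr_SEP pr_INJ

theorem final_thm : FinalStmt :=
  FinalAsm.final_of (pr_EPS pr_EXPD) mk_all (pr_VALM (pr_VALG pr_SEP))

end RC
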