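import Pool.Agent.Work.MP_0ac1ea_ag.RC.Final
import Pool.Agent.Work.MP_0ac1ea_ag.RC.CStmts3

/-!
# Block H (schemes): definitions
-/

set_option autoImplicit false

open AlgebraicGeometry CategoryTheory Limits

namespace RC

/-- the morphism of spectra of a ring homomorphism -/
noncomputable abbrev sp {R S : Type} [CommRing R] [CommRing S] (φ : R →+* S) :
    Spec (.of S) ⟶ Spec (.of R) := Spec.map (CommRingCat.ofHom φ)

theorem sp_comp {R S T : Type} [CommRing R] [CommRing S] [CommRing T] (φ : R →+* S)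
    (ψ : S →+* T) : sp (ψ.comp φ) = sp ψ ≫ sp φ := by
  rw [sp, sp, sp, ← Spec.map_comp]
  rfl

theorem sp_comp_assoc {R S T : Type} [CommRing R] [CommRing S] [CommRing T] (φ : R →+* S)
    (ψ : S →+* T) {Z : Scheme.{0}} (g : Spec (.of R) ⟶ Z) : sp ψ ≫ sp φ ≫ g = sp (ψ.comp φ) ≫ g := by
  rw [sp_comp, Category.assoc]

/-- the point with coordinate `a : R` on the chart `i` of `ℙ¹_R` -/
noncomputable def pt {R : Type} [CommRing R] (i : Fin 2) (a : R) : Spec (.of R) ⟶ P1 R :=
  sp (Polynomial.evalRingHom a) ≫ chart R i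

/-- `R[T] → E`, `T ↦ u` on the chart `0`, `T ↦ u⁻¹` on the chart `1` -/
noncomputable def evE {R E : Type} [CommRing R] [CommRing E] (φ : R →+* E) (u : Eˣ) (i : Fin 2) :
    Polynomial R →+* E :=
  Polynomial.eval₂RingHom φ (if i = 0 then (u : E) else ((u⁻¹ : Eˣ) : E))

/-- the `E`-point of `ℙ¹_R` with coordinate the unit `u` -/
noncomputable def gE {R E : Type} [CommRing R] [CommRing E] (φ : R →+* E) (u : Eˣ) :
    Spec (.of E) ⟶ P1 R := sp (evE φ u 0) ≫ chart R 0

/-- `R[T, T⁻¹] → E` -/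
noncomputable def evL {R E : Type} [CommRing R] [CommRing E] (φ : R →+* E) (u : Eˣ) :
    LaurentPolynomial R →+* E := LaurentPolynomial.eval₂ φ u

theorem evL_toLaurent {R E : Type} [CommRing R] [CommRing E] (φ : R →+* E) (u : Eˣ) (i : Fin 2) :
    (evL φ u).comp (toLaurent R i) = evE φ u i := by
  refine Polynomial.ringHom_ext (fun a => ?_) ?_
  · simp [evL, evE, toLaurent]
  · fin_cases i <;> simp [evL, evE, toLaurent]

/-- both charts define the same `E`-point -/
theorem gE_eq {R E : Type} [CommRing R] [CommRing E] (φ : R →+* E) (u : Eˣ) (i : Fin 2) :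
    sp (evE φ u i) ≫ chart R i = gE φ u := by
  have h : ∀ i : Fin 2, sp (evE φ u i) ≫ chart R i = sp (evL φ u) ≫ ovι R := by
    intro i
    rw [← evL_toLaurent, sp_comp, Category.assoc]
    congr 1
    rcases (show i = 0 ∨ i = 1 by fin_cases i <;> simp) with rfl | rfl
    · exact toLaurent_chart_zero R
    · exact toLaurent_chart_one R
  rw [h i, gE, h 0]

/-- the coordinate `u` of `ℂ(u)`, as a unit -/
noncomputable def uR : (RatFunc ℂ)ˣ := Units.mk0 RatFunc.X RatFunc.X_ne_zero

/-- the generic point of `ℙ¹` -/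
noncomputable def gen : Spec (.of (RatFunc ℂ)) ⟶ PL := gE (RatFunc.C) uR

/-- the coordinate `T` of `S[T, T⁻¹]`, as a unit -/
noncomputable def uT (S : Type) [CommRing S] : (LaurentPolynomial S)ˣ :=
  ⟨LaurentPolynomial.T 1, LaurentPolynomial.T (-1), T_inv S, by rw [mul_comm, T_inv S]⟩

theorem toLaurent_mapRingHom {R S : Type} [CommRing R] [CommRing S] (φ : R →+* S) (i : Fin 2) :
    (toLaurent S i).comp (Polynomial.mapRingHom φ) =
      evE (LaurentPolynomial.C.comp φ) (uT S) i := by
  refine Polynomial.ringHom_ext (fun a => ?_) ?_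
  · simp [toLaurent, evE]
  · rcases (show i = 0 ∨ i = 1 by fin_cases i <;> simp) with rfl | rfl
    · simp [toLaurent, evE, uT]
    · simp [toLaurent, evE, uT]

/-- base change of the projective line -/
noncomputable def P1.map {R S : Type} [CommRing R] [CommRing S] (φ : R →+* S) : P1 S ⟶ P1 R :=
  P1.glue (fun i => sp (Polynomial.mapRingHom φ) ≫ chart R i) (by
    have h : ∀ i : Fin 2, sp (toLaurent S i) ≫ sp (Polynomial.mapRingHom φ) ≫ chart R i =
        gE (LaurentPolynomial.C.comp φ) (uT S) := by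
      intro i
      rw [← gE_eq _ _ i, ← Category.assoc, ← sp_comp, toLaurent_mapRingHom]
    exact (h 0).trans (h 1).symm)

theorem chart_map {R S : Type} [CommRing R] [CommRing S] (φ : R →+* S) (i : Fin 2) :
    chart S i ≫ P1.map φ = sp (Polynomial.mapRingHom φ) ≫ chart R i := chart_glue _ _ i

/-- an atlas of `X` by affine charts, whose coordinate rings are subalgebras of a field `K` -/
structure IsAtlas {X : Scheme.{0}} (π : X ⟶ SpecC) (K : Type) [Field K] [Algebra ℂ K] {ι : Type}
    (A : ι → Subalgebra ℂ K) (c : ∀ i, Spec (.of (A i)) ⟶ X) : Prop where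
  fg : ∀ i, (A i).FG
  isOpen : ∀ i, IsOpenImmersion (c i)
  isOver : ∀ i, c i ≫ π = sp (algebraMap ℂ (A i))
  covers : ∀ x : X, ∃ i, x ∈ Set.range (c i)
  gen : ∀ i j, sp ((A i).val : A i →+* K) ≫ c i = sp ((A j).val : A j →+* K) ≫ c j

end RC
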