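import Mathlib

/-!
# The projective line over a commutative ring
-/

set_option autoImplicit false

open AlgebraicGeometry CategoryTheory Limits

attribute [local instance] MvPolynomial.gradedAlgebra

namespace RC

/-- the standard grading on `R[X₀, X₁]` -/
noncomputable abbrev gr (R : Type) [CommRing R] : ℕ → Submodule R (MvPolynomial (Fin 2) R) :=
  MvPolynomial.homogeneousSubmodule (Fin 2) R

/-- the projective line over `R` -/
noncomputable abbrev P1 (R : Type) [CommRing R] : Scheme.{0} := Proj (gr R)

/-- the structure morphism of the projective line -/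
noncomputable def P1.toSpec (R : Type) [CommRing R] : P1 R ⟶ Spec (.of R) :=
  Proj.toSpecZero (gr R) ≫ Spec.map (CommRingCat.ofHom (algebraMap R (gr R 0)))

section

variable (R : Type) [CommRing R]

theorem X_mem (i : Fin 2) : (MvPolynomial.X i : MvPolynomial (Fin 2) R) ∈ gr R 1 :=
  MvPolynomial.isHomogeneous_X R i

/-- put `X i = 1`, the other variable is `T` -/
noncomputable def dehom (i : Fin 2) : MvPolynomial (Fin 2) R →ₐ[R] Polynomial R :=
  MvPolynomial.aeval fun j => if j = i then 1 else Polynomial.X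

theorem dehom_self (i : Fin 2) : dehom R i (MvPolynomial.X i) = 1 := by
  simp [dehom]

theorem dehom_ne {i j : Fin 2} (h : j ≠ i) : dehom R i (MvPolynomial.X j) = Polynomial.X := by
  simp [dehom, h]

/-- the coordinate ring of the chart `X i ≠ 0` -/
noncomputable def toPoly (i : Fin 2) :
    HomogeneousLocalization.Away (gr R) (MvPolynomial.X i) →+* Polynomial R :=
  (Localization.awayLift (dehom R i : MvPolynomial (Fin 2) R →+* Polynomial R) (MvPolynomial.X i)
    (by rw [RingHom.coe_coe, dehom_self]; exact isUnit_one)).comp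
    (algebraMap _ (Localization (Submonoid.powers (MvPolynomial.X i : MvPolynomial (Fin 2) R))))

theorem toPoly_mk (i : Fin 2) (n : ℕ) (a : MvPolynomial (Fin 2) R) (ha : a ∈ gr R (n • 1)) :
    toPoly R i (HomogeneousLocalization.Away.mk (gr R) (X_mem R i) n a ha) = dehom R i a := by
  rw [toPoly, RingHom.comp_apply, HomogeneousLocalization.algebraMap_apply,
    HomogeneousLocalization.Away.val_mk]
  have := Localization.awayLift_mk (R := MvPolynomial (Fin 2) R)
    (f := (dehom R i : MvPolynomial (Fin 2) R →+* Polynomial R)) (r := MvPolynomial.X i) a 1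
    (by rw [RingHom.coe_coe, dehom_self, mul_one]) n
  rw [this]
  simp

/-- the coordinate `T` of the chart -/
noncomputable def coordT (i : Fin 2) :
    HomogeneousLocalization.Away (gr R) (MvPolynomial.X i : MvPolynomial (Fin 2) R) :=
  HomogeneousLocalization.Away.mk (gr R) (X_mem R i) 1 (MvPolynomial.X (1 - i)) (X_mem R (1 - i))

theorem one_sub_ne (i : Fin 2) : (1 - i : Fin 2) ≠ i := by
  fin_cases i <;> decide

theorem toPoly_coordT (i : Fin 2) : toPoly R i (coordT R i) = Polynomial.X := by
  rw [coordT, toPoly_mk, dehom_ne R (one_sub_ne i)]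

theorem toPoly_surjective (i : Fin 2) : Function.Surjective (toPoly R i) := by
  intro p
  induction p using Polynomial.induction_on' with
  | add p q hp hq =>
    obtain ⟨x, rfl⟩ := hp
    obtain ⟨y, rfl⟩ := hq
    exact ⟨x + y, map_add _ _ _⟩
  | monomial n c =>
    refine ⟨HomogeneousLocalization.Away.mk (gr R) (X_mem R i) 0 (MvPolynomial.C c)
      (by rw [zero_smul]; exact MvPolynomial.isHomogeneous_C _ c) * coordT R i ^ n, ?_⟩
    rw [map_mul, map_pow, toPoly_coordT, toPoly_mk]
    simp [dehom, Polynomial.C_mul_X_pow_eq_monomial]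

theorem dehom_injOn (i : Fin 2) (n : ℕ) (a : MvPolynomial (Fin 2) R) (ha : a.IsHomogeneous n)
    (h : dehom R i a = 0) : a = 0 := by
  have key : ∀ d : Fin 2 →₀ ℕ, d.degree = n → (dehom R i a).coeff (d (1 - i)) = a.coeff d := by
    intro d hd
    have h1 : dehom R i a = ∑ e ∈ a.support, Polynomial.monomial (e (1 - i)) (a.coeff e) := by
      conv_lhs => rw [a.as_sum]
      rw [map_sum]
      refine Finset.sum_congr rfl fun e _ => ?_
      rw [dehom, MvPolynomial.aeval_monomial]
      rw [← Polynomial.C_mul_X_pow_eq_monomial, Finsupp.prod_fintype _ _ (by simp)]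
      congr 1
      rw [Fin.prod_univ_two]
      fin_cases i <;> simp
    rw [h1, Polynomial.finsetSum_coeff]
    simp only [Polynomial.coeff_monomial]
    by_cases hda : d ∈ a.support
    · rw [Finset.sum_eq_single d]
      · rw [if_pos rfl]
      · intro e he hne
        rw [if_neg]
        intro h2
        apply hne
        have he' := ha (MvPolynomial.mem_support_iff.1 he)
        rw [Finsupp.weight_apply, Finsupp.sum_fintype _ _ (by simp), Fin.sum_univ_two] at he'
        rw [Finsupp.degree_eq_sum, Fin.sum_univ_two] at hd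
        ext j
        fin_cases i <;> fin_cases j <;> simp at * <;> omega
      · intro h2
        exact absurd hda h2
    · rw [MvPolynomial.notMem_support_iff.1 hda]
      refine Finset.sum_eq_zero fun e he => ?_
      rw [if_neg]
      intro h2
      apply hda
      have he' := ha (MvPolynomial.mem_support_iff.1 he)
      rw [Finsupp.weight_apply, Finsupp.sum_fintype _ _ (by simp), Fin.sum_univ_two] at he'
      rw [Finsupp.degree_eq_sum, Fin.sum_univ_two] at hd
      have : d = e := by
        ext j
        fin_cases i <;> fin_cases j <;> simp at * <;> omega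
      rw [this]
      exact he
  ext d
  by_cases hd : d.degree = n
  · rw [← key d hd, h]
    simp
  · rw [ha.coeff_eq_zero hd]
    simp

theorem toPoly_injective (i : Fin 2) : Function.Injective (toPoly R i) := by
  rw [injective_iff_map_eq_zero]
  intro x hx
  obtain ⟨n, a, ha, rfl⟩ := HomogeneousLocalization.Away.mk_surjective (gr R) (X_mem R i) x
  rw [toPoly_mk] at hx
  have h0 := dehom_injOn R i (n • 1) a ha hx
  subst h0
  ext
  rw [HomogeneousLocalization.Away.val_mk, HomogeneousLocalization.val_zero, Localization.mk_zero]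

/-- the coordinate ring of the chart `X i ≠ 0` is `R[T]` -/
noncomputable def awayEquiv (i : Fin 2) :
    HomogeneousLocalization.Away (gr R) (MvPolynomial.X i : MvPolynomial (Fin 2) R) ≃+*
      Polynomial R :=
  RingEquiv.ofBijective (toPoly R i) ⟨toPoly_injective R i, toPoly_surjective R i⟩

/-- the charts of the projective line: chart `0` has the coordinate `X₁ / X₀`, chart `1` has the
coordinate `X₀ / X₁` -/
noncomputable def chart (i : Fin 2) : Spec (.of (Polynomial R)) ⟶ P1 R :=
  Spec.map (awayEquiv R i).toCommRingCatIso.hom ≫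
    Proj.awayι (gr R) (MvPolynomial.X i) (X_mem R i) one_pos

instance (i : Fin 2) : IsOpenImmersion (chart R i) := by
  unfold chart
  infer_instance

/-- `R[T] → R[T, T⁻¹]`: on the chart `0` this is `T ↦ T`, on the chart `1` this is `T ↦ T⁻¹` -/
noncomputable def toLaurent (i : Fin 2) : Polynomial R →+* LaurentPolynomial R :=
  Polynomial.eval₂RingHom LaurentPolynomial.C
    (if i = 0 then LaurentPolynomial.T 1 else LaurentPolynomial.T (-1))

/-- `X₀ ↦ 1`, `X₁ ↦ T` -/
noncomputable def evT : MvPolynomial (Fin 2) R →ₐ[R] LaurentPolynomial R :=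
  MvPolynomial.aeval fun j => if j = 0 then 1 else LaurentPolynomial.T 1

theorem evT_X0 : evT R (MvPolynomial.X 0) = 1 := by simp [evT]

theorem evT_X1 : evT R (MvPolynomial.X 1) = LaurentPolynomial.T 1 := by simp [evT]

theorem toLaurent_C (i : Fin 2) (c : R) :
    toLaurent R i (Polynomial.C c) = LaurentPolynomial.C c := by simp [toLaurent]

theorem toLaurent_zero_X : toLaurent R 0 Polynomial.X = LaurentPolynomial.T 1 := by
  simp [toLaurent]

theorem toLaurent_one_X : toLaurent R 1 Polynomial.X = LaurentPolynomial.T (-1) := by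
  simp [toLaurent]

theorem T_inv : (LaurentPolynomial.T 1 : LaurentPolynomial R) * LaurentPolynomial.T (-1) = 1 := by
  rw [← LaurentPolynomial.T_add]
  simp

theorem evT_XX : evT R (MvPolynomial.X 0 * MvPolynomial.X 1) = LaurentPolynomial.T 1 := by
  simp [evT]

/-- the coordinate ring of the intersection of the charts -/
noncomputable def ov : HomogeneousLocalization.Away (gr R)
    (MvPolynomial.X 0 * MvPolynomial.X 1 : MvPolynomial (Fin 2) R) →+* LaurentPolynomial R :=
  (Localization.awayLift (evT R : MvPolynomial (Fin 2) R →+* LaurentPolynomial R)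
    (MvPolynomial.X 0 * MvPolynomial.X 1)
    (by rw [RingHom.coe_coe, evT_XX]; exact LaurentPolynomial.isUnit_T 1)).comp
    (algebraMap _ (Localization
      (Submonoid.powers (MvPolynomial.X 0 * MvPolynomial.X 1 : MvPolynomial (Fin 2) R))))

theorem XX_mem : (MvPolynomial.X 0 * MvPolynomial.X 1 : MvPolynomial (Fin 2) R) ∈
    gr R (1 + 1) := (MvPolynomial.isHomogeneous_X R 0).mul (MvPolynomial.isHomogeneous_X R 1)

theorem ov_mk (n : ℕ) (a : MvPolynomial (Fin 2) R) (ha : a ∈ gr R (n • (1 + 1))) :
    ov R (HomogeneousLocalization.Away.mk (gr R) (XX_mem R) n a ha) =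
      evT R a * LaurentPolynomial.T (-1) ^ n := by
  rw [ov, RingHom.comp_apply, HomogeneousLocalization.algebraMap_apply,
    HomogeneousLocalization.Away.val_mk]
  exact Localization.awayLift_mk (R := MvPolynomial (Fin 2) R)
    (f := (evT R : MvPolynomial (Fin 2) R →+* LaurentPolynomial R))
    (r := MvPolynomial.X 0 * MvPolynomial.X 1) a (LaurentPolynomial.T (-1))
    (by rw [RingHom.coe_coe, evT_XX, T_inv]) n

theorem toLaurent_dehom_zero (a : MvPolynomial (Fin 2) R) :
    toLaurent R 0 (dehom R 0 a) = evT R a := by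
  induction a using MvPolynomial.induction_on with
  | C c => simp [toLaurent, dehom, evT]
  | add p q hp hq => rw [map_add, map_add, map_add, hp, hq]
  | mul_X p j hp =>
    rw [map_mul, map_mul, map_mul, hp]
    congr 1
    fin_cases j <;> simp [toLaurent, dehom, evT]

theorem toLaurent_dehom_one (n : ℕ) (a : MvPolynomial (Fin 2) R) (ha : a.IsHomogeneous n) :
    toLaurent R 1 (dehom R 1 a) * LaurentPolynomial.T 1 ^ n = evT R a := by
  conv_lhs => rw [a.as_sum]
  conv_rhs => rw [a.as_sum]
  rw [map_sum, map_sum, map_sum, Finset.sum_mul]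
  refine Finset.sum_congr rfl fun e he => ?_
  have he' := ha (MvPolynomial.mem_support_iff.1 he)
  rw [Finsupp.weight_apply, Finsupp.sum_fintype _ _ (by simp), Fin.sum_univ_two] at he'
  simp only [Pi.one_apply, smul_eq_mul, mul_one] at he'
  have h1 : (LaurentPolynomial.T (-1) : LaurentPolynomial R) ^ (e 0) *
      LaurentPolynomial.T 1 ^ (e 0) = 1 := by
    rw [← mul_pow, mul_comm (LaurentPolynomial.T (-1)), T_inv, one_pow]
  have h2 : (MvPolynomial.monomial e (a.coeff e) : MvPolynomial (Fin 2) R) =
      MvPolynomial.C (a.coeff e) * (MvPolynomial.X 0 ^ e 0 * MvPolynomial.X 1 ^ e 1) := by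
    rw [MvPolynomial.monomial_eq, Finsupp.prod_fintype _ _ (by simp), Fin.prod_univ_two]
  have h3 : dehom R 1 (MvPolynomial.C (a.coeff e)) = Polynomial.C (a.coeff e) := by
    rw [← MvPolynomial.algebraMap_eq, AlgHom.commutes]; rfl
  have h4 : evT R (MvPolynomial.C (a.coeff e)) = LaurentPolynomial.C (a.coeff e) := by
    rw [← MvPolynomial.algebraMap_eq, AlgHom.commutes]; rfl
  rw [h2, map_mul, map_mul, map_mul, map_pow, map_pow, map_mul, map_mul, map_mul, map_pow, map_pow,
    dehom_ne R (show (0 : Fin 2) ≠ 1 by decide), dehom_self, map_pow, map_pow, toLaurent_one_X,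
    map_one, one_pow, mul_one, evT_X0, evT_X1, one_pow, one_mul, ← he', pow_add, h3, h4,
    toLaurent_C, mul_assoc, ← mul_assoc (LaurentPolynomial.T (-1) ^ (e 0)), h1, one_mul]

theorem ov_awayMap_zero (x : HomogeneousLocalization.Away (gr R)
    (MvPolynomial.X 0 : MvPolynomial (Fin 2) R)) :
    ov R (HomogeneousLocalization.awayMap (gr R) (X_mem R 1) rfl x) =
      toLaurent R 0 (toPoly R 0 x) := by
  obtain ⟨n, a, ha, rfl⟩ := HomogeneousLocalization.Away.mk_surjective (gr R) (X_mem R 0) x
  rw [HomogeneousLocalization.awayMap_mk, toPoly_mk, toLaurent_dehom_zero]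
  refine (ov_mk R n _ _).trans ?_
  rw [map_mul, map_pow, mul_assoc, ← mul_pow, evT_X1, T_inv, one_pow, mul_one]

theorem ov_awayMap_one (x : HomogeneousLocalization.Away (gr R)
    (MvPolynomial.X 1 : MvPolynomial (Fin 2) R)) :
    ov R (HomogeneousLocalization.awayMap (gr R) (X_mem R 0) (mul_comm _ _) x) =
      toLaurent R 1 (toPoly R 1 x) := by
  obtain ⟨n, a, ha, rfl⟩ := HomogeneousLocalization.Away.mk_surjective (gr R) (X_mem R 1) x
  rw [HomogeneousLocalization.awayMap_mk, toPoly_mk]
  refine (ov_mk R n _ _).trans ?_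
  rw [map_mul, map_pow, ← toLaurent_dehom_one R (n • 1) a ha]
  rw [evT_X0, one_pow, mul_one, mul_assoc, smul_eq_mul, mul_one, ← mul_pow, T_inv, one_pow, mul_one]

theorem toLaurent_zero_eq : toLaurent R 0 = Polynomial.toLaurent := by
  ext x
  · simp [toLaurent]
  · simp [toLaurent]

theorem ov_injective : Function.Injective (ov R) := by
  rw [injective_iff_map_eq_zero]
  intro x hx
  obtain ⟨n, a, ha, rfl⟩ := HomogeneousLocalization.Away.mk_surjective (gr R) (XX_mem R) x
  rw [ov_mk] at hx
  have h1 : evT R a = 0 := by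
    have h2 : evT R a * LaurentPolynomial.T (-1) ^ n * LaurentPolynomial.T 1 ^ n = 0 := by
      rw [hx, zero_mul]
    rwa [mul_assoc, ← mul_pow, mul_comm (LaurentPolynomial.T (-1)), T_inv, one_pow, mul_one] at h2
  rw [← toLaurent_dehom_zero, toLaurent_zero_eq] at h1
  have h2 : dehom R 0 a = 0 :=
    Polynomial.toLaurent_injective (by rw [h1, map_zero])
  have h0 := dehom_injOn R 0 _ a ha h2
  subst h0
  ext
  rw [HomogeneousLocalization.Away.val_mk, HomogeneousLocalization.val_zero, Localization.mk_zero]

theorem ov_surjective : Function.Surjective (ov R) := by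
  intro p
  induction p using LaurentPolynomial.induction_on' with
  | add p q hp hq =>
    obtain ⟨x, rfl⟩ := hp
    obtain ⟨y, rfl⟩ := hq
    exact ⟨x + y, map_add _ _ _⟩
  | C_mul_T k c =>
    have h1 : 0 ≤ (k.natAbs : ℤ) + k := by omega
    have h2 : 0 ≤ (k.natAbs : ℤ) - k := by omega
    obtain ⟨u, hu⟩ := Int.eq_ofNat_of_zero_le h1
    obtain ⟨v, hv⟩ := Int.eq_ofNat_of_zero_le h2
    refine ⟨HomogeneousLocalization.Away.mk (gr R) (XX_mem R) k.natAbs
      (MvPolynomial.C c * (MvPolynomial.X 0 ^ v * MvPolynomial.X 1 ^ u)) ?_, ?_⟩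
    · have h3 := (MvPolynomial.isHomogeneous_C (Fin 2) c).mul
        (((MvPolynomial.isHomogeneous_X R (0 : Fin 2)).pow v).mul
          ((MvPolynomial.isHomogeneous_X R (1 : Fin 2)).pow u))
      have h4 : 0 + (1 * v + 1 * u) = k.natAbs • (1 + 1) := by
        rw [smul_eq_mul]; omega
      rw [h4] at h3
      exact h3
    · refine (ov_mk R _ _ _).trans ?_
      have h4 : evT R (MvPolynomial.C c) = LaurentPolynomial.C c := by
        rw [← MvPolynomial.algebraMap_eq, AlgHom.commutes]; rfl
      rw [map_mul, map_mul, map_pow, map_pow, evT_X0, evT_X1, one_pow, one_mul, h4, mul_assoc,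
        LaurentPolynomial.T_pow, LaurentPolynomial.T_pow, ← LaurentPolynomial.T_add]
      congr 2
      omega

/-- the open immersion of the intersection of the charts -/
noncomputable def ovι : Spec (.of (LaurentPolynomial R)) ⟶ P1 R :=
  Spec.map (CommRingCat.ofHom (ov R)) ≫
    Proj.awayι (gr R) (MvPolynomial.X 0 * MvPolynomial.X 1) (XX_mem R) (by norm_num)

theorem toLaurent_chart_zero :
    Spec.map (CommRingCat.ofHom (toLaurent R 0)) ≫ chart R 0 = ovι R := by
  rw [chart, ovι, ← Proj.SpecMap_awayMap_awayι (gr R) (X_mem R 0) one_pos (X_mem R 1) rfl,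
    ← Category.assoc, ← Category.assoc, ← Spec.map_comp, ← Spec.map_comp]
  congr 2
  exact CommRingCat.hom_ext (RingHom.ext fun x => (ov_awayMap_zero R x).symm)

theorem toLaurent_chart_one :
    Spec.map (CommRingCat.ofHom (toLaurent R 1)) ≫ chart R 1 = ovι R := by
  rw [chart, ovι, ← Proj.SpecMap_awayMap_awayι (gr R) (X_mem R 1) one_pos (X_mem R 0)
    (mul_comm _ _), ← Category.assoc, ← Category.assoc, ← Spec.map_comp, ← Spec.map_comp]
  congr 2
  exact CommRingCat.hom_ext (RingHom.ext fun x => (ov_awayMap_one R x).symm)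

theorem opensRange_chart (i : Fin 2) :
    (chart R i).opensRange = Proj.basicOpen (gr R) (MvPolynomial.X i) := by
  unfold chart
  rw [Scheme.Hom.opensRange_comp_of_isIso, Proj.opensRange_awayι]

instance : IsIso (CommRingCat.ofHom (ov R)) :=
  (RingEquiv.ofBijective (ov R) ⟨ov_injective R, ov_surjective R⟩).toCommRingCatIso.isIso_hom

instance : IsOpenImmersion (ovι R) := by
  unfold ovι
  infer_instance

theorem opensRange_ovι : (ovι R).opensRange = (chart R 0).opensRange ⊓ (chart R 1).opensRange := by
  rw [opensRange_chart, opensRange_chart, ← Proj.basicOpen_mul]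
  unfold ovι
  rw [Scheme.Hom.opensRange_comp_of_isIso, Proj.opensRange_awayι]

/-- the intersection of the charts -/
noncomputable def ovIso : pullback (chart R 0) (chart R 1) ≅ Spec (.of (LaurentPolynomial R)) :=
  IsOpenImmersion.isoOfRangeEq (pullback.fst (chart R 0) (chart R 1) ≫ chart R 0) (ovι R) (by
    rw [IsOpenImmersion.range_pullback_to_base_of_left]
    exact (congrArg (fun U : (P1 R).Opens => (U : Set (P1 R))) (opensRange_ovι R)).symm)

theorem ovIso_hom_ovι : (ovIso R).hom ≫ ovι R = pullback.fst (chart R 0) (chart R 1) ≫ chart R 0 :=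
  IsOpenImmersion.isoOfRangeEq_hom_fac ..

theorem ovIso_hom_fst : (ovIso R).hom ≫ Spec.map (CommRingCat.ofHom (toLaurent R 0)) =
    pullback.fst (chart R 0) (chart R 1) := by
  rw [← cancel_mono (chart R 0), Category.assoc, toLaurent_chart_zero, ovIso_hom_ovι]

theorem ovIso_hom_snd : (ovIso R).hom ≫ Spec.map (CommRingCat.ofHom (toLaurent R 1)) =
    pullback.snd (chart R 0) (chart R 1) := by
  rw [← cancel_mono (chart R 1), Category.assoc, toLaurent_chart_one, ovIso_hom_ovι,
    pullback.condition]

theorem iSup_chart : ⨆ i : Fin 2, Proj.basicOpen (gr R) (MvPolynomial.X i) = ⊤ := by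
  apply Proj.iSup_basicOpen_eq_top' (gr R) _ (fun i => ⟨1, X_mem R i⟩)
  rw [eq_top_iff]
  rintro p -
  induction p using MvPolynomial.induction_on with
  | C c =>
    exact Subalgebra.algebraMap_mem (Algebra.adjoin (gr R 0) _)
      (⟨MvPolynomial.C c, MvPolynomial.isHomogeneous_C _ c⟩ : gr R 0)
  | add p q hp hq => exact add_mem hp hq
  | mul_X p i hp => exact mul_mem hp (Algebra.subset_adjoin ⟨i, rfl⟩)

/-- the cover of the projective line by the two charts -/
noncomputable def cover : (P1 R).OpenCover where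
  I₀ := Fin 2
  X _ := Spec (.of (Polynomial R))
  f i := chart R i
  mem₀ := by
    rw [Scheme.presieve₀_mem_precoverage_iff]
    refine ⟨fun x => ?_, inferInstance⟩
    have hx : x ∈ ⨆ i : Fin 2, Proj.basicOpen (gr R) (MvPolynomial.X i) := by
      rw [iSup_chart]; trivial
    rw [TopologicalSpace.Opens.mem_iSup] at hx
    obtain ⟨i, hi⟩ := hx
    rw [← opensRange_chart] at hi
    exact ⟨i, hi⟩

variable {R}

/-- morphisms from the projective line are determined by their restrictions to the charts -/
theorem P1.hom_ext {Y : Scheme.{0}} {f g : P1 R ⟶ Y} (h : ∀ i, chart R i ≫ f = chart R i ≫ g) :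
    f = g :=
  (cover R).hom_ext _ _ h

theorem glue_aux {Y : Scheme.{0}} (g : Fin 2 → (Spec (.of (Polynomial R)) ⟶ Y))
    (h : Spec.map (CommRingCat.ofHom (toLaurent R 0)) ≫ g 0 =
      Spec.map (CommRingCat.ofHom (toLaurent R 1)) ≫ g 1) (i j : Fin 2) :
    pullback.fst (chart R i) (chart R j) ≫ g i = pullback.snd (chart R i) (chart R j) ≫ g j := by
  have h01 : pullback.fst (chart R 0) (chart R 1) ≫ g 0 =
      pullback.snd (chart R 0) (chart R 1) ≫ g 1 := by
    rw [← ovIso_hom_fst, ← ovIso_hom_snd, Category.assoc, Category.assoc, h]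
  have hii : ∀ i : Fin 2, pullback.fst (chart R i) (chart R i) =
      pullback.snd (chart R i) (chart R i) := fun i => by
    rw [← cancel_mono (chart R i), pullback.condition]
  rcases (show i = j ∨ (i = 0 ∧ j = 1) ∨ (i = 1 ∧ j = 0) by
    fin_cases i <;> fin_cases j <;> simp) with rfl | ⟨rfl, rfl⟩ | ⟨rfl, rfl⟩
  · rw [hii]
  · exact h01
  · rw [← pullbackSymmetry_hom_comp_snd (chart R 1) (chart R 0),
      ← pullbackSymmetry_hom_comp_fst (chart R 1) (chart R 0), Category.assoc, Category.assoc,
      ← h01]

/-- glue two morphisms on the charts to a morphism on the projective line -/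
noncomputable def P1.glue {Y : Scheme.{0}} (g : Fin 2 → (Spec (.of (Polynomial R)) ⟶ Y))
    (h : Spec.map (CommRingCat.ofHom (toLaurent R 0)) ≫ g 0 =
      Spec.map (CommRingCat.ofHom (toLaurent R 1)) ≫ g 1) : P1 R ⟶ Y :=
  (cover R).glueMorphisms g (glue_aux g h)

theorem chart_glue {Y : Scheme.{0}} (g : Fin 2 → (Spec (.of (Polynomial R)) ⟶ Y))
    (h : Spec.map (CommRingCat.ofHom (toLaurent R 0)) ≫ g 0 =
      Spec.map (CommRingCat.ofHom (toLaurent R 1)) ≫ g 1) (i : Fin 2) :
    chart R i ≫ P1.glue g h = g i :=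
  (cover R).ι_glueMorphisms g (glue_aux g h) i

variable (R)

theorem chart_toSpec (i : Fin 2) :
    chart R i ≫ P1.toSpec R = Spec.map (CommRingCat.ofHom Polynomial.C) := by
  rw [chart, P1.toSpec, Category.assoc, Proj.awayι_toSpecZero_assoc, ← Spec.map_comp,
    ← Spec.map_comp]
  congr 1
  refine CommRingCat.hom_ext (RingHom.ext fun x => ?_)
  change toPoly R i (HomogeneousLocalization.fromZeroRingHom (gr R) _ (algebraMap R (gr R 0) x)) =
    Polynomial.C x
  have h : HomogeneousLocalization.fromZeroRingHom (gr R)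
      (Submonoid.powers (MvPolynomial.X i : MvPolynomial (Fin 2) R)) (algebraMap R (gr R 0) x) =
      HomogeneousLocalization.Away.mk (gr R) (X_mem R i) 0 (MvPolynomial.C x)
        (by rw [zero_smul]; exact MvPolynomial.isHomogeneous_C _ x) := by
    ext
    rw [HomogeneousLocalization.Away.val_mk]
    first
      | (simp [HomogeneousLocalization.fromZeroRingHom]; done)
      | (simp [HomogeneousLocalization.fromZeroRingHom]; rfl)
  rw [h]
  refine (toPoly_mk R i 0 _ _).trans ?_
  rw [← MvPolynomial.algebraMap_eq, AlgHom.commutes]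
  rfl

end

end RC
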