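import Pool.Agent.Work.MP_0ac1ea_ag.RC.HDefs

/-!
# Block H (schemes): statements of the items
-/

set_option autoImplicit false

open AlgebraicGeometry CategoryTheory Limits Polynomial

namespace RC

/-! ## Scheme side -/

/-- existence of an atlas -/
def S_ATLAS : Prop := ∀ (X : Scheme.{0}) (π : X ⟶ SpecC) [IsIntegral X] [LocallyOfFiniteType π]
  [QuasiCompact π], ∃ (K : Type) (_ : Field K) (_ : Algebra ℂ K) (ι : Type) (_ : Fintype ι)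
    (_ : Nonempty ι) (A : ι → Subalgebra ℂ K) (c : ∀ i, Spec (.of (A i)) ⟶ X), IsAtlas π K A c

/-- sections with the same image in `K` are equal on the intersection of two charts -/
def S_OV1 : Prop := ∀ (X : Scheme.{0}) (π : X ⟶ SpecC) (K : Type) [Field K] [Algebra ℂ K]
  (ι : Type) (A : ι → Subalgebra ℂ K) (c : ∀ i, Spec (.of (A i)) ⟶ X) (_ : IsAtlas π K A c)
  (i j : ι) (R : Type) [CommRing R] (g : A i →+* R) (g' : A j →+* R)
  (_ : sp g ≫ c i = sp g' ≫ c j) (s b : A i) (a : A j) (_ : (a : K) * s = b), g' a * g s = g b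

/-- the intersection of two charts -/
def S_OV2 : Prop := ∀ (X : Scheme.{0}) (π : X ⟶ SpecC) (K : Type) [Field K] [Algebra ℂ K]
  (ι : Type) (A : ι → Subalgebra ℂ K) (c : ∀ i, Spec (.of (A i)) ⟶ X) (_ : IsAtlas π K A c)
  (i j : ι), ∃ s : A i, s ≠ 0 ∧
    (∀ a : A j, ∃ (N : ℕ) (b : A i), (a : K) * (s : K) ^ N = b) ∧
    ∀ (R : Type) [CommRing R] (g : A i →+* R) (g' : A j →+* R), IsUnit (g s) →
      (∀ (a : A j) (b : A i) (N : ℕ), (a : K) * (s : K) ^ N = b → g' a * g s ^ N = g b) →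
      sp g ≫ c i = sp g' ≫ c j

/-- uniqueness of extensions to a separated scheme -/
def S_SEP : Prop := ∀ (X : Scheme.{0}) (π : X ⟶ SpecC) [IsSeparated π] (R E : Type) [CommRing R]
  [CommRing E] (φ : R →+* E) (_ : Function.Injective φ) (a b : Spec (.of R) ⟶ X)
  (_ : a ≫ π = b ≫ π) (_ : sp φ ≫ a = sp φ ≫ b), a = b

/-- dimension zero -/
def S_DIM0 : Prop := ∀ (X : Scheme.{0}) (π : X ⟶ SpecC) [IsIntegral X] (K : Type) [Field K]
  [Algebra ℂ K] (ι : Type) [Nonempty ι] (A : ι → Subalgebra ℂ K)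
  (c : ∀ i, Spec (.of (A i)) ⟶ X) (_ : IsAtlas π K A c) (_ : ∀ i, A i = ⊥) (f : PL ⟶ X)
  (_ : IsCurve π f), IsConst f

/-- a general pair of points of a chart lies in the open set `Ω` -/
def S_OMEGA : Prop := ∀ (X : Scheme.{0}) (π : X ⟶ SpecC) (K : Type) [Field K] [Algebra ℂ K]
  (ι : Type) (A : ι → Subalgebra ℂ K) (c : ∀ i, Spec (.of (A i)) ⟶ X) (_ : IsAtlas π K A c)
  (Ω : (pullback π π).Opens) (_ : Dense (Ω : Set ↥(pullback π π))) (i : ι),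
  ∃ (m : ℕ) (a b : Fin m → A i), LinearIndependent ℂ a ∧ (∃ r, b r ≠ 0) ∧
    ∀ p q : A i →ₐ[ℂ] ℂ, ∑ r, p (a r) * q (b r) ≠ 0 →
      ∀ (h : (sp (p : A i →+* ℂ) ≫ c i) ≫ π = (sp (q : A i →+* ℂ) ≫ c i) ≫ π) (t : SpecC),
        pullback.lift (sp (p : A i →+* ℂ) ≫ c i) (sp (q : A i →+* ℂ) ≫ c i) h t ∈ Ω

/-- a point of `X` with values in `ℂ` or `ℂ[ε]` which is in a chart comes from a homomorphism of
the coordinate ring -/
def S_LIFT : Prop := ∀ (X : Scheme.{0}) (π : X ⟶ SpecC) (K : Type) [Field K] [Algebra ℂ K]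
  (ι : Type) (A : ι → Subalgebra ℂ K) (c : ∀ i, Spec (.of (A i)) ⟶ X) (_ : IsAtlas π K A c),
  (∀ x : SpecC ⟶ X, IsPt π x → ∃ (i : ι) (z : A i →ₐ[ℂ] ℂ), x = sp (z : A i →+* ℂ) ≫ c i) ∧
  ∀ (i : ι) (z : A i →ₐ[ℂ] ℂ) (v : SpecE ⟶ X), IsTangent π (sp (z : A i →+* ℂ) ≫ c i) v →
    ∃ z' : A i →ₐ[ℂ] DualNumber ℂ, v = sp (z' : A i →+* DualNumber ℂ) ≫ c i ∧
      ∀ a, (z' a).fst = z a

/-- points of the projective line -/
def S_PT : Prop := ∀ p : SpecC ⟶ PL, IsPt PLs p → ∃ (i : Fin 2) (a : ℂ), p = pt i a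

/-- the generic point of a curve which meets a chart -/
def S_GENPT : Prop := ∀ (X : Scheme.{0}) (π : X ⟶ SpecC) (K : Type) [Field K] [Algebra ℂ K]
  (ι : Type) (A : ι → Subalgebra ℂ K) (c : ∀ i, Spec (.of (A i)) ⟶ X) (_ : IsAtlas π K A c)
  (f : PL ⟶ X) (_ : IsCurve π f) (κ : Fin 2) (a : ℂ) (i : ι) (z : A i →ₐ[ℂ] ℂ)
  (_ : pt κ a ≫ f = sp (z : A i →+* ℂ) ≫ c i),
  ∃ g : A i →ₐ[ℂ] RatFunc ℂ, gen ≫ f = sp (g : A i →+* RatFunc ℂ) ≫ c i

/-- `r ∈ ℂ(u)` is regular at the point `pt κ a` of `ℙ¹`, with value `v` -/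
def RegK (κ : Fin 2) (r : RatFunc ℂ) (a v : ℂ) : Prop :=
  ∃ A B : ℂ[X], B.eval a ≠ 0 ∧ r * evE RatFunc.C uR κ B = evE RatFunc.C uR κ A ∧
    A.eval a = v * B.eval a

/-- functions on a chart are regular along the curve -/
def S_LOCREG : Prop := ∀ (X : Scheme.{0}) (π : X ⟶ SpecC) (K : Type) [Field K] [Algebra ℂ K]
  (ι : Type) (A : ι → Subalgebra ℂ K) (c : ∀ i, Spec (.of (A i)) ⟶ X) (_ : IsAtlas π K A c)
  (f : PL ⟶ X) (_ : IsCurve π f) (κ : Fin 2) (a : ℂ) (i : ι) (z : A i →ₐ[ℂ] ℂ)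
  (_ : pt κ a ≫ f = sp (z : A i →+* ℂ) ≫ c i) (g : A i →+* RatFunc ℂ)
  (_ : gen ≫ f = sp g ≫ c i), ∀ r : A i, RegK κ (g r) a (z r)

/-- morphisms of a chart of the projective line from certificates -/
def S_GLUE : Prop := ∀ (X : Scheme.{0}) (π : X ⟶ SpecC) [IsSeparated π] (K : Type) [Field K]
  [Algebra ℂ K] (ι : Type) [Fintype ι] (A : ι → Subalgebra ℂ K)
  (c : ∀ i, Spec (.of (A i)) ⟶ X) (_ : IsAtlas π K A c) (R E : Type) [CommRing R] [Algebra ℂ R]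
  [CommRing E] (φ : R →+* E) (_ : Function.Injective φ) (θ : ∀ i, A i →+* E)
  (_ : ∀ i j, sp (θ i) ≫ c i = sp (θ j) ≫ c j)
  (_ : ∀ i (z : ℂ), θ i (algebraMap ℂ (A i) z) = φ (algebraMap ℂ R z))
  (d : ι → R) (_ : ∑ i, d i = 1) (_ : ∀ i, d i ≠ 0 → IsUnit (φ (d i)))
  (_ : ∀ i, ∀ a : A i, ∃ (N : ℕ) (n : R), θ i a * φ (d i) ^ N = φ n),
  ∃ g : Spec (.of R) ⟶ X, g ≫ π = sp (algebraMap ℂ R) ∧ ∀ i, sp φ ≫ g = sp (θ i) ≫ c i

/-- `s ∈ E` is regular at the `R`-point with coordinate `a` of the chart `κ`, with value `v` -/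
def RegG {R E : Type} [CommRing R] [CommRing E] (φ : R →+* E) (u : Eˣ) (κ : Fin 2) (s : E)
    (a v : R) : Prop :=
  ∃ A B : R[X], IsUnit (B.eval a) ∧ s * evE φ u κ B = evE φ u κ A ∧ A.eval a = v * B.eval a

/-- values of a curve -/
def S_VALG : Prop := ∀ (X : Scheme.{0}) (π : X ⟶ SpecC) [IsSeparated π] (K : Type) [Field K]
  [Algebra ℂ K] (ι : Type) (A : ι → Subalgebra ℂ K) (c : ∀ i, Spec (.of (A i)) ⟶ X)
  (_ : IsAtlas π K A c) (R E : Type) [CommRing R] [Algebra ℂ R] [CommRing E] (φ : R →+* E)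
  (u : Eˣ) (κ : Fin 2) (a : R) (_ : Function.Injective (evE φ u κ))
  (_ : ∀ B : R[X], IsUnit (B.eval a) → IsUnit (evE φ u κ B)) (F : P1 R ⟶ X)
  (_ : F ≫ π = P1.toSpec R ≫ sp (algebraMap ℂ R)) (i : ι) (θ : A i →+* E)
  (_ : gE φ u ≫ F = sp θ ≫ c i) (z : A i →ₐ[ℂ] R) (_ : ∀ r : A i, RegG φ u κ (θ r) a (z r)),
  pt κ a ≫ F = sp (z : A i →+* R) ≫ c i

/-- the projective line commutes with base change -/
def S_P1ISO : Prop := ∀ (R S : Type) [CommRing R] [CommRing S] (φ : R →+* S),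
  IsPullback (P1.map φ) (P1.toSpec S) (P1.toSpec R) (sp φ)

/-- the ring of the generic point of `ℙ¹ × Spec ℂ[ε]` -/
abbrev RE : Type := DualNumber (RatFunc ℂ)

/-- `ℂ[ε] → ℂ(u)[ε]` -/
noncomputable def cE : DualNumber ℂ →+* RE where
  toFun x := TrivSqZeroExt.inl (RatFunc.C x.fst) + TrivSqZeroExt.inr (RatFunc.C x.snd)
  map_zero' := by simp
  map_one' := by simp
  map_add' x y := by ext <;> simp
  map_mul' x y := by ext <;> simp

/-- the coordinate `u` as a unit of `ℂ(u)[ε]` -/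
noncomputable def uE : REˣ := Units.map (TrivSqZeroExt.inlHom (RatFunc ℂ) (RatFunc ℂ)).toMonoidHom uR

/-- injectivity of the evaluation maps -/
def S_INJ : Prop :=
  (∀ κ, Function.Injective (evE (RatFunc.C : ℂ →+* RatFunc ℂ) uR κ)) ∧
  (∀ κ, Function.Injective (evE cE uE κ)) ∧
  (∀ κ (a : ℂ) (B : ℂ[X]), IsUnit (B.eval a) → IsUnit (evE (RatFunc.C : ℂ →+* RatFunc ℂ) uR κ B)) ∧
  (∀ κ (a : DualNumber ℂ) (B : (DualNumber ℂ)[X]), IsUnit (B.eval a) → IsUnit (evE cE uE κ B))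

/-- if two points have proportional homogeneous coordinates, they are equal -/
def vec (κ : Fin 2) (a : ℂ) : ℂ × ℂ := if κ = 0 then (1, a) else (a, 1)

/-- the determinant of the homogeneous coordinates of two points -/
def detP (κ : Fin 2) (a : ℂ) (κ' : Fin 2) (a' : ℂ) : ℂ :=
  (vec κ a).1 * (vec κ' a').2 - (vec κ a).2 * (vec κ' a').1

/-- equality of points of the projective line -/
def S_PTEQ : Prop := ∀ (κ κ' : Fin 2) (a a' : ℂ), detP κ a κ' a' = 0 →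
  (pt κ a : SpecC ⟶ PL) = pt κ' a'

/-! ## Algebraic side -/

/-- `k₁(y)` and `ℂ` are linearly disjoint over `k₁` in `K` -/
def LD (k₁ : Subfield ℂ) {K : Type} [Field K] [Algebra ℂ K] {M : ℕ} (y : Fin M → K) : Prop :=
  ∀ (m : ℕ) (v : Fin m → K), (∀ i, v i ∈ IntermediateField.adjoin k₁ (Set.range y)) →
    LinearIndependent k₁ v → LinearIndependent ℂ v

/-- a countable set of complex numbers is contained in a countable algebraically closed field -/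
def S_ACL : Prop := ∀ C : Set ℂ, C.Countable → ∃ k : Subfield ℂ, C ⊆ k ∧ IsAlgClosed k ∧ Countable k

/-- existence of a field of definition -/
def S_K1 : Prop := ∀ (K : Type) [Field K] [Algebra ℂ K] (M : ℕ) (y : Fin M → K) (C : Finset ℂ),
  ∃ k₁ : Subfield ℂ, IsAlgClosed k₁ ∧ Countable k₁ ∧ (∀ z ∈ C, z ∈ k₁) ∧ LD k₁ y

/-- coefficients of an element -/
def S_COEF : Prop := ∀ (K : Type) [Field K] [Algebra ℂ K] (M : ℕ) (y : Fin M → K)
  (T : Finset (Fin M)) (a : K) (_ : a ∈ Algebra.adjoin ℂ (y '' T)), ∃ C : Finset ℂ,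
  ∀ k₁ : Subfield ℂ, (∀ z ∈ C, z ∈ k₁) → a ∈ Algebra.adjoin k₁ (y '' T)

/-- base change: homomorphisms over `k₁` extend to homomorphisms over `ℂ` -/
def S_BC : Prop := ∀ (k₁ : Subfield ℂ) (K : Type) [Field K] [Algebra ℂ K] (M : ℕ)
  (y : Fin M → K) (_ : LD k₁ y) (R : Type) [CommRing R] [Algebra ℂ R]
  (θ : IntermediateField.adjoin k₁ (Set.range y) →+* R)
  (_ : ∀ z : k₁, θ (algebraMap k₁ _ z) = algebraMap ℂ R z),
  ∃ g : Algebra.adjoin ℂ ((IntermediateField.adjoin k₁ (Set.range y) : IntermediateField k₁ K) :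
      Set K) →ₐ[ℂ] R,
    ∀ (l : IntermediateField.adjoin k₁ (Set.range y))
      (h : (l : K) ∈ Algebra.adjoin ℂ
        ((IntermediateField.adjoin k₁ (Set.range y) : IntermediateField k₁ K) : Set K)),
      g ⟨l, h⟩ = θ l

/-- homomorphisms of the function field from homomorphisms of the charts -/
def S_THETA : Prop := ∀ (k₁ : Subfield ℂ) (K : Type) [Field K] [Algebra ℂ K] (M : ℕ)
  (y : Fin M → K) (ι : Type) [Nonempty ι] (A : ι → Subalgebra ℂ K) (T : ι → Finset (Fin M))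
  (_ : ∀ i, A i = Algebra.adjoin ℂ (y '' T i))
  (_ : ∀ i (l : Fin M), ∃ s ∈ Algebra.adjoin k₁ (y '' T i), ∃ b ∈ Algebra.adjoin k₁ (y '' T i),
    s ≠ 0 ∧ y l * s = b) (F : Type) [CommRing F] [Algebra ℂ F] (g : ∀ i, A i →ₐ[ℂ] F)
  (_ : ∀ i j (s b : A i) (a : A j), (a : K) * s = b → g j a * g i s = g i b)
  (_ : ∀ i (r : A i), (r : K) ∈ IntermediateField.adjoin k₁ (Set.range y) → r ≠ 0 →
    IsUnit (g i r)),
  ∃ θ : IntermediateField.adjoin k₁ (Set.range y) →+* F,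
    (∀ z : k₁, θ (algebraMap k₁ _ z) = algebraMap ℂ F z) ∧
    ∀ i (r : A i) (l : IntermediateField.adjoin k₁ (Set.range y)), (r : K) = l → θ l = g i r

/-- existence of generic points -/
def S_GENX : Prop := ∀ (k₁ k : Subfield ℂ) (_ : k₁ ≤ k) [IsAlgClosed k₁] [Countable k] (L : Type)
  [Field L] [Algebra k₁ L] (M : ℕ) (y : Fin M → L)
  (_ : IntermediateField.adjoin k₁ (Set.range y) = ⊤),
  ∃ x : L →+* ℂ, Ov k₁ (RingHom.id ℂ) x ∧ GenOver k₁ k x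

/-- regularity at the points of the charts -/
def S_REGK : Prop := (∀ r p v, RegVal r p v ↔ RegK 0 r p v) ∧
  (∀ r v, RegValInf r v ↔ RegK 1 r 0 v)

/-- Moebius transformations: move two distinct points to `0` and `∞` -/
def S_MOB2 : Prop := ∀ (κ κ' : Fin 2) (a a' : ℂ), detP κ a κ' a' ≠ 0 →
  ∃ σ : RatFunc ℂ →+* RatFunc ℂ, (∀ c, σ (RatFunc.C c) = RatFunc.C c) ∧
    (∀ r v, RegK κ r a v → RegVal (σ r) 0 v) ∧ (∀ r v, RegK κ' r a' v → RegValInf (σ r) v) ∧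
    ∀ p : ℂ, ∃ (κ'' : Fin 2) (a'' : ℂ), ∀ r v, RegK κ'' r a'' v → RegVal (σ r) p v

/-- the certificate from regularity at all points -/
def S_CERTLOC : Prop := ∀ (L : Type) [Field L] (ι : Type) [Fintype ι] (M : ℕ) (y : Fin M → L)
  (S : ι → Finset (Fin M)) (f : L →+* RatFunc ℂ)
  (_ : ∀ p : ℂ, ∃ i, ∀ j ∈ S i, ∃ v, RegVal (f (y j)) p v), Cert y S f

/-- the certificate at infinity -/
def S_CERTINF : Prop := ∀ (L : Type) [Field L] (ι : Type) [Fintype ι] [Nonempty ι] (M : ℕ)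
  (y : Fin M → L) (S : ι → Finset (Fin M)) (f : L →+* RatFunc ℂ) (_ : Cert y S f)
  (_ : ∀ l, ∃ v, RegValInf (f l) v),
  ∃ d : ι → ℂ[X], ∑ i, d i = 1 ∧ ∀ i, ∀ j ∈ S i, ∃ n : ℂ[X],
    f (y j) * evE RatFunc.C uR 1 (d i) = evE RatFunc.C uR 1 n

/-- an endomorphism `c ↦ c + ε D(c)` with prescribed tangent vectors at two generic points -/
def S_TAU : Prop := ∀ (k₁ k : Subfield ℂ) (_ : k₁ ≤ k) [IsAlgClosed k₁] [IsAlgClosed k]
  (L : Type) [Field L] [Algebra k₁ L] (M : ℕ) (y : Fin M → L)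
  (_ : IntermediateField.adjoin k₁ (Set.range y) = ⊤) (y0 x : L →+* ℂ)
  (_ : Ov k₁ (RingHom.id ℂ) y0) (_ : Ov k₁ (RingHom.id ℂ) x) (_ : ∀ l, y0 l ∈ k)
  (_ : GenOver k₁ k x) (v w : L →+* DualNumber ℂ)
  (_ : ∀ c : k₁, v (algebraMap k₁ L c) = TrivSqZeroExt.inl (c : ℂ))
  (_ : ∀ c : k₁, w (algebraMap k₁ L c) = TrivSqZeroExt.inl (c : ℂ))
  (_ : ∀ l, (v l).fst = y0 l) (_ : ∀ l, (w l).fst = x l),
  ∃ τ : ℂ →+* DualNumber ℂ, (∀ c, (τ c).fst = c) ∧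
    (∀ c ∈ k₁, τ c = TrivSqZeroExt.inl c) ∧ (∀ l, τ (y0 l) = v l) ∧ ∀ l, τ (x l) = w l

/-- extension of `c ↦ c + ε D(c)` to `ℂ(u)` -/
def S_TU : Prop := ∀ τ : ℂ →+* DualNumber ℂ, (∀ c, (τ c).fst = c) →
  ∃ τu : RatFunc ℂ →+* RE, (∀ c, τu (RatFunc.C c) = cE (τ c)) ∧ τu RatFunc.X = uE ∧
    ∀ r, (τu r).fst = r

end RC
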