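import Pool.Agent.Work.MP_0ac1ea_ag.RC.HStmts

/-!
# Block H (schemes): statements of the assembly lemmas
-/

set_option autoImplicit false

open AlgebraicGeometry CategoryTheory Limits Polynomial

namespace RC

/-- the function field over `k₁` -/
noncomputable abbrev Lk (k₁ : Subfield ℂ) {K : Type} [Field K] [Algebra ℂ K] {M : ℕ}
    (y : Fin M → K) : IntermediateField k₁ K := IntermediateField.adjoin k₁ (Set.range y)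

/-- the coordinates as elements of the function field over `k₁` -/
noncomputable def yL (k₁ : Subfield ℂ) {K : Type} [Field K] [Algebra ℂ K] {M : ℕ}
    (y : Fin M → K) (j : Fin M) : Lk k₁ y :=
  ⟨y j, IntermediateField.subset_adjoin _ _ ⟨j, rfl⟩⟩

/-- an atlas with a field of definition `k₁` -/
structure Mdl {X : Scheme.{0}} (π : X ⟶ SpecC) (K : Type) [Field K] [Algebra ℂ K] {ι : Type}
    (A : ι → Subalgebra ℂ K) (c : ∀ i, Spec (.of (A i)) ⟶ X) (k₁ : Subfield ℂ) {M : ℕ}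
    (y : Fin M → K) (T : ι → Finset (Fin M)) : Prop where
  atlas : IsAtlas π K A c
  ld : LD k₁ y
  gens : ∀ i, A i = Algebra.adjoin ℂ (y '' T i)
  fr : ∀ i (l : Fin M), ∃ s ∈ Algebra.adjoin k₁ (y '' T i), ∃ b ∈ Algebra.adjoin k₁ (y '' T i),
    s ≠ 0 ∧ y l * s = b
  ov : ∀ i j, ∃ s : A i, s ≠ 0 ∧ (s : K) ∈ Algebra.adjoin k₁ (y '' T i) ∧
    ∀ (R : Type) [CommRing R] (g : A i →+* R) (g' : A j →+* R), IsUnit (g s) →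
      (∀ (a : A j) (b : A i) (N : ℕ), (a : K) * (s : K) ^ N = b → g' a * g s ^ N = g b) →
      sp g ≫ c i = sp g' ≫ c j

/-- existence of a model (USES `ATLAS`, `OV2`, `OMEGA`, `LIFT`, `K1`, `COEF`) -/
def S_MODEL : Prop := ∀ (X : Scheme.{0}) (π : X ⟶ SpecC) [IsIntegral X] [LocallyOfFiniteType π]
  [QuasiCompact π] (Ω : (pullback π π).Opens) (_ : Dense (Ω : Set ↥(pullback π π)))
  (r : ℕ) (x : Fin r → (SpecC ⟶ X)) (_ : ∀ t, IsPt π (x t)),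
  ∃ (K : Type) (_ : Field K) (_ : Algebra ℂ K) (ι : Type) (_ : Fintype ι) (_ : Nonempty ι)
    (A : ι → Subalgebra ℂ K) (c : ∀ i, Spec (.of (A i)) ⟶ X) (k₁ : Subfield ℂ) (M : ℕ)
    (y : Fin M → K) (T : ι → Finset (Fin M)), Mdl π K A c k₁ y T ∧ IsAlgClosed k₁ ∧
    Countable k₁ ∧
    (∀ t, ∃ (i : ι) (z : A i →ₐ[ℂ] ℂ), x t = sp (z : A i →+* ℂ) ≫ c i ∧
      ∀ (r : A i) (j : Fin M), j ∈ T i → (r : K) = y j → z r ∈ k₁) ∧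
    ∃ (i : ι) (m : ℕ) (a b : Fin m → A i), LinearIndependent ℂ a ∧ (∃ r, b r ≠ 0) ∧
      (∀ r, (a r : K) ∈ Lk k₁ y) ∧ (∀ r, (b r : K) ∈ Lk k₁ y) ∧
      ∀ p q : A i →ₐ[ℂ] ℂ, ∑ r, p (a r) * q (b r) ≠ 0 →
        ∀ (h : (sp (p : A i →+* ℂ) ≫ c i) ≫ π = (sp (q : A i →+* ℂ) ≫ c i) ≫ π) (t : SpecC),
          pullback.lift (sp (p : A i →+* ℂ) ≫ c i) (sp (q : A i →+* ℂ) ≫ c i) h t ∈ Ω

/-- extension of a homomorphism of the function field to all charts (USES `BC`) -/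
def S_EXT : Prop := ∀ (X : Scheme.{0}) (π : X ⟶ SpecC) (K : Type) [Field K] [Algebra ℂ K]
  (ι : Type) (A : ι → Subalgebra ℂ K) (c : ∀ i, Spec (.of (A i)) ⟶ X) (k₁ : Subfield ℂ) (M : ℕ)
  (y : Fin M → K) (T : ι → Finset (Fin M)) (_ : Mdl π K A c k₁ y T) (R : Type) [CommRing R]
  [Algebra ℂ R] (θ : Lk k₁ y →+* R) (_ : ∀ z : k₁, θ (algebraMap k₁ _ z) = algebraMap ℂ R z),
  ∃ G : ∀ i, A i →ₐ[ℂ] R, (∀ i (r : A i) (l : Lk k₁ y), (r : K) = l → G i r = θ l) ∧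
    ∀ i j, sp (G i : A i →+* R) ≫ c i = sp (G j : A j →+* R) ≫ c j

/-- construction of morphisms `ℙ¹_{R₀} ⟶ X` (USES `EXT`, `GLUE`, `CERTINF`, `SEP`) -/
def S_MK : Prop := ∀ (X : Scheme.{0}) (π : X ⟶ SpecC) [IsSeparated π] (K : Type) [Field K]
  [Algebra ℂ K] (ι : Type) [Fintype ι] [Nonempty ι] (A : ι → Subalgebra ℂ K)
  (c : ∀ i, Spec (.of (A i)) ⟶ X) (k₁ : Subfield ℂ) (M : ℕ)
  (y : Fin M → K) (T : ι → Finset (Fin M)) (_ : Mdl π K A c k₁ y T)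
  (R₀ E : Type) [CommRing R₀] [Algebra ℂ R₀] [CommRing E] [Algebra ℂ E] (φ : R₀ →+* E) (u : Eˣ)
  (_ : ∀ z : ℂ, φ (algebraMap ℂ R₀ z) = algebraMap ℂ E z)
  (_ : ∀ κ, Function.Injective (evE φ u κ)) (τ : ℂ →+* R₀) (τu : RatFunc ℂ →+* E)
  (_ : ∀ z, τu (RatFunc.C z) = φ (τ z)) (_ : τu RatFunc.X = u)
  (_ : ∀ z ∈ k₁, τ z = algebraMap ℂ R₀ z) (f : Lk k₁ y →+* RatFunc ℂ) (_ : Ov k₁ cR f)
  (_ : Cert (yL k₁ y) T f) (_ : ∀ l, ∃ v, RegValInf (f l) v),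
  ∃ (F : P1 R₀ ⟶ X) (G : ∀ i, A i →ₐ[ℂ] E),
    F ≫ π = P1.toSpec R₀ ≫ sp (algebraMap ℂ R₀) ∧
    (∀ i, gE φ u ≫ F = sp (G i : A i →+* E) ≫ c i) ∧
    ∀ i (r : A i) (l : Lk k₁ y), (r : K) = l → G i r = τu (f l)

/-- values of a morphism, tested on generators (USES `VALG`) -/
def S_VALM : Prop := ∀ (X : Scheme.{0}) (π : X ⟶ SpecC) [IsSeparated π] (K : Type) [Field K]
  [Algebra ℂ K] (ι : Type) (A : ι → Subalgebra ℂ K)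
  (c : ∀ i, Spec (.of (A i)) ⟶ X) (k₁ : Subfield ℂ) (M : ℕ)
  (y : Fin M → K) (T : ι → Finset (Fin M)) (_ : Mdl π K A c k₁ y T)
  (R₀ E : Type) [CommRing R₀] [Algebra ℂ R₀] [CommRing E] [Algebra ℂ E] (φ : R₀ →+* E) (u : Eˣ)
  (_ : ∀ z : ℂ, φ (algebraMap ℂ R₀ z) = algebraMap ℂ E z) (κ : Fin 2) (a : R₀)
  (_ : Function.Injective (evE φ u κ)) (_ : ∀ B : R₀[X], IsUnit (B.eval a) → IsUnit (evE φ u κ B))
  (F : P1 R₀ ⟶ X) (_ : F ≫ π = P1.toSpec R₀ ≫ sp (algebraMap ℂ R₀)) (i : ι)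
  (G : A i →ₐ[ℂ] E) (_ : gE φ u ≫ F = sp (G : A i →+* E) ≫ c i) (z : A i →ₐ[ℂ] R₀)
  (_ : ∀ (r : A i) (j : Fin M), j ∈ T i → (r : K) = y j → RegG φ u κ (G r) a (z r)),
  pt κ a ≫ F = sp (z : A i →+* R₀) ≫ c i

/-- from a curve in `X` through two points to an algebraic curve
(USES `PT`, `PTEQ`, `GENPT`, `LOCREG`, `THETA`, `OV1`, `LIFT`, `MOB2`, `CERTLOC`, `INJ`, `DIM0`) -/
def S_ALGC : Prop := ∀ (X : Scheme.{0}) (π : X ⟶ SpecC) [IsIntegral X] (K : Type) [Field K]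
  [Algebra ℂ K] (ι : Type) [Fintype ι] [Nonempty ι] (A : ι → Subalgebra ℂ K)
  (c : ∀ i, Spec (.of (A i)) ⟶ X) (k₁ : Subfield ℂ) (M : ℕ)
  (y : Fin M → K) (T : ι → Finset (Fin M)) (_ : Mdl π K A c k₁ y T)
  (k : Subfield ℂ) (_ : k₁ ≤ k) (y0 x : Lk k₁ y →+* ℂ) (_ : Ov k₁ (RingHom.id ℂ) y0)
  (_ : Ov k₁ (RingHom.id ℂ) x) (_ : ∀ l, y0 l ∈ k) (_ : GenOver k₁ k x)
  (Y0 : ∀ i, A i →ₐ[ℂ] ℂ) (X0 : ∀ i, A i →ₐ[ℂ] ℂ)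
  (_ : ∀ i (r : A i) (l : Lk k₁ y), (r : K) = l → Y0 i r = y0 l)
  (_ : ∀ i (r : A i) (l : Lk k₁ y), (r : K) = l → X0 i r = x l)
  (p0 q0 : SpecC ⟶ X) (_ : ∀ i, p0 = sp (Y0 i : A i →+* ℂ) ≫ c i)
  (_ : ∀ i, q0 = sp (X0 i : A i →+* ℂ) ≫ c i)
  (f : PL ⟶ X) (_ : IsCurve π f) (_ : ¬ IsConst f) (_ : Through f p0) (_ : Through f q0),
  HasCurve k₁ (yL k₁ y) T y0 x 0 Fin.elim0 Fin.elim0 ∧ p0 ≠ q0

/-- very freeness (USES `MK`, `VALM`, `LIFT`, `THETA`, `TAU`, `TU`, `P1ISO`, `INJ`, `SEP`) -/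
def S_VF : Prop := ∀ (X : Scheme.{0}) (π : X ⟶ SpecC) [IsSeparated π] (K : Type) [Field K]
  [Algebra ℂ K] (ι : Type) [Fintype ι] [Nonempty ι] (A : ι → Subalgebra ℂ K)
  (c : ∀ i, Spec (.of (A i)) ⟶ X) (k₁ : Subfield ℂ) (M : ℕ)
  (y : Fin M → K) (T : ι → Finset (Fin M)) (_ : Mdl π K A c k₁ y T)
  (k : Subfield ℂ) (_ : k₁ ≤ k) [IsAlgClosed k₁] [IsAlgClosed k] (y0 x : Lk k₁ y →+* ℂ)
  (_ : Ov k₁ (RingHom.id ℂ) y0)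
  (_ : Ov k₁ (RingHom.id ℂ) x) (_ : ∀ l, y0 l ∈ k) (_ : GenOver k₁ k x)
  (Y0 : ∀ i, A i →ₐ[ℂ] ℂ) (X0 : ∀ i, A i →ₐ[ℂ] ℂ)
  (_ : ∀ i (r : A i) (l : Lk k₁ y), (r : K) = l → Y0 i r = y0 l)
  (_ : ∀ i (r : A i) (l : Lk k₁ y), (r : K) = l → X0 i r = x l)
  (f : Lk k₁ y →+* RatFunc ℂ) (_ : Ov k₁ cR f)
  (_ : Cert (yL k₁ y) T f) (_ : ∀ l, RegVal (f l) 0 (y0 l)) (_ : ∀ l, RegValInf (f l) (x l))
  (F : PL ⟶ X) (_ : IsCurve π F) (G : ∀ i, A i →ₐ[ℂ] RatFunc ℂ)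
  (_ : ∀ i, gen ≫ F = sp (G i : A i →+* RatFunc ℂ) ≫ c i)
  (_ : ∀ i (r : A i) (l : Lk k₁ y), (r : K) = l → G i r = f l)
  (i : ι) (_ : (pt 0 0 : SpecC ⟶ PL) ≫ F = sp (Y0 i : A i →+* ℂ) ≫ c i)
  (_ : (pt 1 0 : SpecC ⟶ PL) ≫ F = sp (X0 i : A i →+* ℂ) ≫ c i)
  (_ : (pt 0 0 : SpecC ⟶ PL) ≠ pt 1 0), VeryFree π F

end RC
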