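import Pool.Agent.Work.MP_0ac1ea_ag.RC.HStmts

set_option autoImplicit false

open Cardinal

namespace RC

theorem pr_ACL : S_ACL := by
  intro C hC
  have hC' : Countable C := hC.to_subtype
  have hMv : Countable (MvPolynomial C ℚ) := by
    rw [← mk_le_aleph0_iff]
    refine (MvPolynomial.cardinalMk_le_max (σ := C) (R := ℚ)).trans ?_
    refine max_le (max_le ?_ ?_) le_rfl
    · exact mk_le_aleph0_iff.mpr inferInstance
    · exact mk_le_aleph0_iff.mpr inferInstance
  have h0 : Countable (IntermediateField.adjoin ℚ C) := by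
    have hsub : ((IntermediateField.adjoin ℚ C : IntermediateField ℚ ℂ) : Set ℂ) ⊆
        Set.range (fun p : MvPolynomial C ℚ × MvPolynomial C ℚ =>
          MvPolynomial.aeval (Subtype.val : C → ℂ) p.1 /
            MvPolynomial.aeval (Subtype.val : C → ℂ) p.2) := by
      intro x hx
      obtain ⟨r, s, h⟩ := (IntermediateField.mem_adjoin_iff ℚ x).mp hx
      exact ⟨(r, s), h.symm⟩
    exact ((Set.countable_range _).mono hsub).to_subtype
  have h1 : Countable (algebraicClosure (IntermediateField.adjoin ℚ C) ℂ) := by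
    rw [← mk_le_aleph0_iff]
    refine (Algebra.IsAlgebraic.cardinalMk_le_max (IntermediateField.adjoin ℚ C)
      (algebraicClosure (IntermediateField.adjoin ℚ C) ℂ)).trans ?_
    exact max_le (mk_le_aleph0_iff.mpr h0) le_rfl
  refine ⟨(algebraicClosure (IntermediateField.adjoin ℚ C) ℂ).toSubfield, ?_, ?_, h1⟩
  · intro x hx
    exact algebraMap_mem (algebraicClosure (IntermediateField.adjoin ℚ C) ℂ)
      (⟨x, IntermediateField.subset_adjoin ℚ C hx⟩ : IntermediateField.adjoin ℚ C)
  · exact IsAlgClosure.isAlgClosed (IntermediateField.adjoin ℚ C)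
      (K := algebraicClosure (IntermediateField.adjoin ℚ C) ℂ)

end RC
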