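import Pool.Agent.Work.MP_0ac1ea_ag.RC.CStmts3

/-!
# Item AIN: algebraically independent complex numbers over a countable field
-/

open Polynomial

namespace RC

theorem pr_AIN : S_AIN := by
  intro k _ n
  obtain ⟨ι, x, hx⟩ := exists_isTranscendenceBasis' k ℂ
  have hinf : Infinite ι := by
    by_contra hfin
    rw [not_infinite_iff_finite] at hfin
    have h1 := IsAlgClosed.cardinal_le_max_transcendence_basis' x hx
    have h2 : Cardinal.mk k ≤ Cardinal.aleph0 := Cardinal.mk_le_aleph0
    have h3 : Cardinal.mk ι ≤ Cardinal.aleph0 := Cardinal.mk_le_aleph0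
    have h4 : Cardinal.mk ℂ ≤ Cardinal.aleph0 := by
      refine h1.trans ?_
      exact max_le (max_le h2 h3) le_rfl
    rw [Cardinal.mk_complex] at h4
    exact absurd h4 (not_le.mpr Cardinal.aleph0_lt_continuum)
  let e : Fin n ↪ ι := Fin.valEmbedding.trans (Infinite.natEmbedding ι)
  exact ⟨x ∘ e, hx.1.comp e e.injective⟩

end RC
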