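import Pool.Agent.Work.MP_0ac1ea_ag.RC.CStmts2

/-! Iterated derivations are polynomials of bounded degree -/

namespace RC
namespace DEG_aux

open MvPolynomial

lemma deg_pderiv {σ : Type*} {K : Type*} [CommSemiring K] (P : MvPolynomial σ K) (j : σ) :
    pderiv j P = 0 ∨ (pderiv j P).totalDegree + 1 ≤ P.totalDegree := by
  classical
  by_cases h0 : pderiv j P = 0
  · exact Or.inl h0
  right
  -- degree of each monomial term
  have hsum : pderiv j P = ∑ d ∈ P.support, monomial (d - Finsupp.single j 1) (coeff d P * (d j : K)) := by
    conv_lhs => rw [P.as_sum]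
    rw [map_sum]
    exact Finset.sum_congr rfl fun d _ => by rw [pderiv_monomial]
  have hex : ∃ d ∈ P.support, d j ≠ 0 := by
    by_contra hne
    push Not at hne
    apply h0
    rw [hsum]
    apply Finset.sum_eq_zero
    intro d hd
    rw [hne d hd]
    simp
  have hpos : 1 ≤ P.totalDegree := by
    obtain ⟨d, hd, hdj⟩ := hex
    have h1 := le_totalDegree hd
    have h2 : d j ≤ d.sum fun _ e => e := by
      rw [Finsupp.sum]
      by_cases hj : j ∈ d.support
      · exact Finset.single_le_sum (f := fun i => d i) (fun _ _ => Nat.zero_le _) hj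
      · simp only [Finsupp.mem_support_iff, not_not] at hj
        exact absurd hj hdj
    omega
  have hle : (pderiv j P).totalDegree ≤ P.totalDegree - 1 := by
    rw [hsum]
    apply totalDegree_finsetSum_le
    intro d hd
    by_cases hdj : d j = 0
    · rw [hdj]
      simp
    · refine (totalDegree_monomial_le _ _).trans ?_
      have h1 := le_totalDegree hd
      have h2 : d = (d - Finsupp.single j 1) + Finsupp.single j 1 := by
        ext i
        by_cases hi : j = i
        · subst hi
          simp
          omega
        · simp [hi]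
      have h3 : (d.sum fun _ e => e) = ((d - Finsupp.single j 1).sum fun _ e => e) + 1 := by
        conv_lhs => rw [h2]
        rw [Finsupp.sum_add_index' (fun _ => rfl) (fun _ _ _ => rfl)]
        simp
      have h4 : ((d - Finsupp.single j 1).sum fun _ e => e) ≤ P.totalDegree - 1 := by omega
      exact h4
  omega

theorem step (k₁ : Subfield ℂ) (R : Type) [CommRing R] [Algebra k₁ R] (M : ℕ)
    (y : Fin M → R) (δ : Derivation ℤ R R) (h0 : ∀ c : k₁, δ (algebraMap k₁ R c) = 0)
    (p : Fin M → MvPolynomial (Fin M) k₁) (hp : ∀ j, δ (y j) = aeval y (p j))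
    (P : MvPolynomial (Fin M) k₁) :
    δ (aeval y P) = aeval y (∑ j, pderiv j P * p j) := by
  classical
  induction P using MvPolynomial.induction_on with
  | C c => simp [h0 c]
  | add P Q hP hQ =>
    rw [map_add, map_add, hP, hQ, ← map_add, ← Finset.sum_add_distrib]
    congr 1
    exact Finset.sum_congr rfl fun j _ => by rw [map_add, add_mul]
  | mul_X P i hP =>
    rw [map_mul, aeval_X, Derivation.leibniz, hP, hp i]
    simp only [smul_eq_mul]
    have : (∑ j, pderiv j (P * X i) * p j) = P * p i + X i * ∑ j, pderiv j P * p j := by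
      rw [Finset.mul_sum]
      have h1 : ∀ j, pderiv j (P * X i) * p j = (if i = j then P * p i else 0) + X i * (pderiv j P * p j) := by
        intro j
        rw [Derivation.leibniz]
        by_cases hij : i = j
        · subst hij
          simp only [smul_eq_mul, pderiv_X_self, if_true]
          ring
        · rw [pderiv_X_of_ne hij]
          simp only [smul_eq_mul, if_neg hij]
          ring
      rw [Finset.sum_congr rfl fun j _ => h1 j, Finset.sum_add_distrib]
      simp
    rw [this]
    simp only [map_add, map_mul, aeval_X]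

theorem deg_step {K : Type*} [CommRing K] (M : ℕ) (p : Fin M → MvPolynomial (Fin M) K) (κ : ℕ) (hκ : 1 ≤ κ)
    (hd : ∀ j, (p j).totalDegree ≤ κ) (P : MvPolynomial (Fin M) K) :
    (∑ j, pderiv j P * p j).totalDegree ≤ P.totalDegree + (κ - 1) := by
  apply totalDegree_finsetSum_le
  intro j _
  rcases deg_pderiv P j with h | h
  · rw [h]
    simp
  · refine (totalDegree_mul _ _).trans ?_
    have := hd j
    omega

end DEG_aux

theorem pr_DEG : S_DEG := by
  intro k₁ R _ _ M y δ h0 p κ hκ hp hd m
  induction m with
  | zero =>
    intro P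
    exact ⟨P, by simp, rfl⟩
  | succ m ih =>
    intro P
    obtain ⟨Q, hQd, hQ⟩ := ih P
    refine ⟨∑ j, MvPolynomial.pderiv j Q * p j, ?_, ?_⟩
    · refine (DEG_aux.deg_step M p κ hκ hd Q).trans ?_
      have : (m + 1) * (κ - 1) = m * (κ - 1) + (κ - 1) := by ring
      omega
    · rw [Function.iterate_succ_apply', hQ, DEG_aux.step k₁ R M y δ h0 p hp Q]

end RC
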