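import Pool.Agent.Work.MP_0ac1ea_ag.RC.CStmts2

/-!
# Item DERL: dual derivations of a function field
-/

namespace RC
namespace DERL_aux

open scoped TensorProduct

open scoped IntermediateField.algebraAdjoinAdjoin in
/-- derivations with prescribed values on a transcendence basis (characteristic `0`) -/
theorem exists_der_basis {k E : Type} [Field k] [Field E] [Algebra k E] [CharZero k] {ι : Type}
    {t : ι → E} (ht : IsTranscendenceBasis k t) (v : ι → E) :
    ∃ D : Derivation k E E, ∀ i, D (t i) = v i := by
  classical
  have hb := ht.1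
  have h1 : Algebra.FormallyEtale (Algebra.adjoin k (Set.range t))
      (IntermediateField.adjoin k (Set.range t)) :=
    .of_isLocalization (nonZeroDivisors _)
  have h2 : Algebra.IsAlgebraic (IntermediateField.adjoin k (Set.range t)) E :=
    ht.isAlgebraic_field
  have h3 : Algebra.FormallyEtale (IntermediateField.adjoin k (Set.range t)) E :=
    .of_isSeparable _ E
  have h4 : Algebra.FormallyEtale (Algebra.adjoin k (Set.range t)) E :=
    .comp _ (IntermediateField.adjoin k (Set.range t)) _
  let A := Algebra.adjoin k (Set.range t)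
  let e : MvPolynomial ι k ≃ₐ[k] A := hb.aevalEquiv
  let _ : Module (MvPolynomial ι k) E := Module.compHom E (e : MvPolynomial ι k →+* A)
  have hsmul : ∀ (p : MvPolynomial ι k) (x : E), p • x = (e p) • x := fun _ _ => rfl
  have : IsScalarTower k (MvPolynomial ι k) E := by
    constructor
    intro a p x
    rw [hsmul, hsmul, map_smul, smul_assoc]
  let D0' : Derivation k (MvPolynomial ι k) E := MvPolynomial.mkDerivation k v
  let D0 : Derivation k A E :=
    { toFun := fun a => D0' (e.symm a)
      map_add' := by intro a b; simp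
      map_smul' := by intro a b; simp
      map_one_eq_zero' := by simp
      leibniz' := by
        intro a b
        change D0' (e.symm (a * b)) = a • D0' (e.symm b) + b • D0' (e.symm a)
        rw [map_mul, Derivation.leibniz, hsmul, hsmul, e.apply_symm_apply, e.apply_symm_apply] }
  let f : (Ω[A⁄k]) →ₗ[A] E := D0.liftKaehlerDifferential
  let g : (Ω[E⁄k]) →ₗ[E] E :=
    (f.liftBaseChange E).comp
      (KaehlerDifferential.tensorKaehlerEquivOfFormallyEtale k A E).symm.toLinearMap
  refine ⟨g.compDer (KaehlerDifferential.D k E), fun i => ?_⟩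
  have hi : t i = algebraMap A E (e (MvPolynomial.X i)) := by
    have : e (MvPolynomial.X i) = ⟨t i, Algebra.subset_adjoin ⟨i, rfl⟩⟩ := by
      apply Subtype.ext
      change algebraMap A E (hb.aevalEquiv (MvPolynomial.X i)) = t i
      rw [hb.algebraMap_aevalEquiv, MvPolynomial.aeval_X]
    rw [this]; rfl
  have : g (KaehlerDifferential.D k E (t i)) = v i := by
    rw [hi]
    change (f.liftBaseChange E) ((KaehlerDifferential.tensorKaehlerEquivOfFormallyEtale k A E).symm
      (KaehlerDifferential.D k E (algebraMap A E (e (MvPolynomial.X i))))) = v i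
    rw [KaehlerDifferential.tensorKaehlerEquivOfFormallyEtale_symm_D_algebraMap]
    rw [LinearMap.liftBaseChange_tmul, one_smul]
    change D0.liftKaehlerDifferential (KaehlerDifferential.D k A (e (MvPolynomial.X i))) = v i
    rw [Derivation.liftKaehlerDifferential_comp_D]
    change D0' (e.symm (e (MvPolynomial.X i))) = v i
    rw [e.symm_apply_apply]
    exact MvPolynomial.mkDerivation_X k v i
  exact this

/-- chain rule for a derivation over `k` -/
theorem der_aeval {k E : Type} [Field k] [Field E] [Algebra k E] {M : ℕ} (y : Fin M → E)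
    (D : Derivation k E E) (P : MvPolynomial (Fin M) k) :
    D (MvPolynomial.aeval y P) =
      ∑ j, MvPolynomial.aeval y (MvPolynomial.pderiv j P) * D (y j) := by
  classical
  induction P using MvPolynomial.induction_on with
  | C a => simp
  | add p q hp hq => simp [map_add, hp, hq, add_mul, Finset.sum_add_distrib]
  | mul_X p i hp =>
    rw [map_mul, Derivation.leibniz, hp, MvPolynomial.aeval_X]
    simp only [Derivation.leibniz, smul_eq_mul, map_add, map_mul, MvPolynomial.aeval_X, add_mul,
      Finset.sum_add_distrib, Finset.mul_sum]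
    congr 1
    · rw [Finset.sum_eq_single i]
      · simp
      · intro j _ hj
        simp [MvPolynomial.pderiv_X_of_ne hj.symm]
      · simp
    · apply Finset.sum_congr rfl
      intro j _
      ring

/-- common denominators -/
theorem common_denom {k E : Type} [Field k] [Field E] [Algebra k E] {M : ℕ} (y : Fin M → E)
    (hy : IntermediateField.adjoin k (Set.range y) = ⊤) {κ : Type} [Fintype κ] (z : κ → E) :
    ∃ (h0 : MvPolynomial (Fin M) k) (P : κ → MvPolynomial (Fin M) k),
      MvPolynomial.aeval y h0 ≠ 0 ∧
        ∀ q, z q * MvPolynomial.aeval y h0 = MvPolynomial.aeval y (P q) := by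
  classical
  have key : ∀ q, ∃ (A B : MvPolynomial (Fin M) k), MvPolynomial.aeval y B ≠ 0 ∧
      z q * MvPolynomial.aeval y B = MvPolynomial.aeval y A := by
    intro q
    have hq : z q ∈ IntermediateField.adjoin k (Set.range y) := by rw [hy]; trivial
    rw [IntermediateField.mem_adjoin_range_iff] at hq
    obtain ⟨r, s, hrs⟩ := hq
    by_cases hs : MvPolynomial.aeval y s = 0
    · refine ⟨0, 1, by simp, ?_⟩
      rw [hrs, hs]; simp
    · exact ⟨r, s, hs, by rw [hrs, div_mul_cancel₀ _ hs]⟩
  choose A B hB hA using key
  refine ⟨∏ q, B q, fun q => A q * ∏ q' ∈ Finset.univ.erase q, B q', ?_, ?_⟩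
  · rw [map_prod]
    exact Finset.prod_ne_zero_iff.mpr fun q _ => hB q
  · intro q
    rw [map_mul, ← hA q, mul_assoc, ← map_mul, Finset.mul_prod_erase _ _ (Finset.mem_univ q)]

theorem exists_basis {k E : Type} [Field k] [Field E] [Algebra k E] {M : ℕ} (y : Fin M → E)
    (hy : IntermediateField.adjoin k (Set.range y) = ⊤) :
    ∃ (n : ℕ) (c : Fin n → Fin M), IsTranscendenceBasis k (fun i => y (c i)) := by
  classical
  have : Algebra.IsAlgebraic (Algebra.adjoin k (Set.range y)) E := by
    constructor
    intro x
    have hx : x ∈ IntermediateField.adjoin k (Set.range y) := by rw [hy]; trivial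
    rw [IntermediateField.mem_adjoin_iff_div] at hx
    obtain ⟨r, hr, s, hs, rfl⟩ := hx
    have hr' : IsAlgebraic (Algebra.adjoin k (Set.range y)) r :=
      isAlgebraic_algebraMap (⟨r, hr⟩ : Algebra.adjoin k (Set.range y))
    have hs' : IsAlgebraic (Algebra.adjoin k (Set.range y)) s :=
      isAlgebraic_algebraMap (⟨s, hs⟩ : Algebra.adjoin k (Set.range y))
    rw [div_eq_mul_inv]
    exact hr'.mul hs'.inv
  obtain ⟨t, hts, ht⟩ := exists_isTranscendenceBasis_subset (R := k) (Set.range y)
  have : Finite t := (Set.finite_range y).subset hts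
  have : Fintype t := Fintype.ofFinite t
  have hc : ∀ x : t, ∃ j, y j = x := fun x => hts x.2
  choose c hc using hc
  let e := (Fintype.equivFin t).symm
  refine ⟨Fintype.card t, fun i => c (e i), ?_⟩
  rw [isTranscendenceBasis_equiv' (f := ((↑) : t → E)) e]
  · exact ht
  · funext i
    exact (hc (e i)).symm

end DERL_aux

open DERL_aux in
theorem pr_DERL : S_DERL := by
  classical
  intro k₁ L _ _ M y hy
  obtain ⟨n, c, hbasis⟩ := exists_basis y hy
  have hD : ∀ i : Fin n, ∃ D : Derivation k₁ L L, ∀ i', D (y (c i')) = if i = i' then 1 else 0 :=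
    fun i => exists_der_basis hbasis (fun i' => if i = i' then 1 else 0)
  choose D hD using hD
  obtain ⟨h0, P, hh0, hP⟩ := common_denom y hy (fun q : Fin n × Fin M => D q.1 (y q.2))
  set h := MvPolynomial.aeval y h0 with hh
  refine ⟨n, c, fun i => (D i).restrictScalars ℤ, h⁻¹, fun i =>
    (Fin.snoc (fun j => MvPolynomial.rename Fin.castSucc (P (i, j)) * MvPolynomial.X (Fin.last M))
      (-(MvPolynomial.X (Fin.last M)) ^ 3 * ∑ j, MvPolynomial.rename Fin.castSucc
        (MvPolynomial.pderiv j h0 * P (i, j))) :
        Fin (M + 1) → MvPolynomial (Fin (M + 1)) k₁), hbasis, ?_, ?_, ?_⟩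
  · intro i a
    change D i (algebraMap k₁ L a) = 0
    exact (D i).map_algebraMap a
  · intro i i'
    exact hD i i'
  · intro i j
    obtain ⟨Y, hY⟩ : ∃ Y : Fin (M + 1) → L, Y = Fin.snoc y h⁻¹ := ⟨_, rfl⟩
    have hY1 : ∀ j : Fin M, Y j.castSucc = y j := by intro j; rw [hY]; simp
    have hY2 : Y (Fin.last M) = h⁻¹ := by rw [hY]; simp
    have hcomp : ∀ Q : MvPolynomial (Fin M) k₁,
        MvPolynomial.aeval Y (MvPolynomial.rename Fin.castSucc Q) = MvPolynomial.aeval y Q := by
      intro Q
      rw [MvPolynomial.aeval_rename]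
      congr 2
      funext j
      exact hY1 j
    have hlast : MvPolynomial.aeval Y
        (MvPolynomial.X (Fin.last M) : MvPolynomial (Fin (M + 1)) k₁) = h⁻¹ := by
      rw [MvPolynomial.aeval_X, hY2]
    have hy' : ∀ j, D i (y j) = MvPolynomial.aeval y (P (i, j)) * h⁻¹ := by
      intro j
      rw [← hP (i, j)]
      field_simp
    rw [← hY]
    change D i (Y j) = _
    induction j using Fin.lastCases with
    | last =>
      rw [hY2, Derivation.leibniz_inv, hh, der_aeval]
      simp only [Fin.snoc_last, map_mul, map_sum, map_neg, map_pow, hlast, hcomp, smul_eq_mul]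
      rw [← hh]
      simp only [hy', Finset.mul_sum]
      apply Finset.sum_congr rfl
      intro j _
      ring
    | cast j =>
      rw [hY1]
      simp only [Fin.snoc_castSucc]
      rw [map_mul, hcomp, hlast, hy']

end RC
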