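import Pool.Agent.Work.MP_0ac1ea_ag.RC.CStmts2

/-!
# Item DEXT: coefficientwise extension of a derivation of `ℂ` to `ℂ(u)`
-/

open Polynomial

namespace RC

namespace DEXT_aux

variable (D : Derivation ℤ ℂ ℂ)

/-- `c ↦ c + D(c) ε` -/
noncomputable def g : ℂ →+* TrivSqZeroExt (RatFunc ℂ) (RatFunc ℂ) where
  toFun c := TrivSqZeroExt.inl (RatFunc.C c) + TrivSqZeroExt.inr (RatFunc.C (D c))
  map_one' := by
    rw [D.map_one_eq_zero, map_zero, map_one, TrivSqZeroExt.inr_zero, add_zero,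
      TrivSqZeroExt.inl_one]
  map_zero' := by
    simp
  map_mul' a b := by
    rw [D.leibniz]
    ext
    · simp
    · simp [map_add, map_mul]
      ring
  map_add' a b := by
    ext
    · simp
    · simp

/-- the homomorphism of `ℂ[X]` -/
noncomputable def psi : ℂ[X] →+* TrivSqZeroExt (RatFunc ℂ) (RatFunc ℂ) :=
  eval₂RingHom (g D) (TrivSqZeroExt.inl RatFunc.X)

theorem fst_psi (f : ℂ[X]) : (psi D f).fst = algebraMap ℂ[X] (RatFunc ℂ) f := by
  have h : (TrivSqZeroExt.fstHom (RatFunc ℂ) (RatFunc ℂ) (RatFunc ℂ)).toRingHom.comp (psi D) =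
      algebraMap ℂ[X] (RatFunc ℂ) := by
    refine Polynomial.ringHom_ext (fun c => ?_) ?_
    · simp [psi, g]
    · simp [psi]
  exact RingHom.congr_fun h f

theorem unit_psi (f : nonZeroDivisors ℂ[X]) : IsUnit (psi D f) := by
  rw [TrivSqZeroExt.isUnit_iff_isUnit_fst, fst_psi]
  exact IsLocalization.map_units (RatFunc ℂ) f

/-- the homomorphism of `ℂ(X)` -/
noncomputable def Psi : RatFunc ℂ →+* TrivSqZeroExt (RatFunc ℂ) (RatFunc ℂ) :=
  IsLocalization.lift (M := nonZeroDivisors ℂ[X]) (unit_psi D)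

theorem Psi_alg (f : ℂ[X]) : Psi D (algebraMap ℂ[X] (RatFunc ℂ) f) = psi D f :=
  IsLocalization.lift_eq (unit_psi D) f

theorem fst_Psi (r : RatFunc ℂ) : (Psi D r).fst = r := by
  have h : (TrivSqZeroExt.fstHom (RatFunc ℂ) (RatFunc ℂ) (RatFunc ℂ)).toRingHom.comp (Psi D) =
      RingHom.id _ := by
    refine IsLocalization.ringHom_ext (nonZeroDivisors ℂ[X]) ?_
    refine RingHom.ext (fun f => ?_)
    show (Psi D (algebraMap ℂ[X] (RatFunc ℂ) f)).fst = algebraMap ℂ[X] (RatFunc ℂ) f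
    rw [Psi_alg, fst_psi]
  exact RingHom.congr_fun h r

/-- a derivation over `ℤ` from an additive function with the Leibniz rule, for any `ℤ`-algebra
structure -/
theorem mkDer {K : Type} [Field K] (i : Algebra ℤ K) (f : K → K)
    (hadd : ∀ a b, f (a + b) = f a + f b) (hmul : ∀ a b, f (a * b) = a * f b + b * f a) :
    ∃ D' : @Derivation ℤ K K _ _ _ i _ (AddCommGroup.toIntModule K), ∀ r, D' r = f r := by
  obtain rfl : i = Ring.toIntAlgebra K := Subsingleton.elim _ _
  exact ⟨Derivation.mk' (AddMonoidHom.toIntLinearMap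
    { toFun := f
      map_zero' := by simpa using hadd 0 0
      map_add' := hadd }) hmul, fun r => rfl⟩

end DEXT_aux

theorem pr_DEXT : S_DEXT := by
  intro D
  obtain ⟨D', hD'⟩ := DEXT_aux.mkDer _ (fun r => (DEXT_aux.Psi D r).snd)
    (fun a b => by rw [map_add, TrivSqZeroExt.snd_add])
    (fun a b => by
      rw [map_mul, TrivSqZeroExt.snd_mul, DEXT_aux.fst_Psi, DEXT_aux.fst_Psi]
      simp [mul_comm])
  refine ⟨D', ?_, ?_⟩
  · intro c
    rw [hD']
    have h := DEXT_aux.Psi_alg D (C c)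
    rw [RatFunc.algebraMap_C] at h
    rw [h]
    simp [DEXT_aux.psi, DEXT_aux.g]
  · rw [hD']
    have h := DEXT_aux.Psi_alg D X
    rw [RatFunc.algebraMap_X] at h
    rw [h]
    simp [DEXT_aux.psi]

end RC
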