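import Pool.Agent.Work.MP_0ac1ea_ag.RC.CStmts2
import Pool.Agent.Work.MP_0ac1ea_ag.RC.Basic

/-!
# Item EQ: the equation (e), solved coefficient by coefficient
-/

open Polynomial

namespace RC

namespace EQ_aux

theorem exists_seq {α : Type*} (Q : ℕ → α → Prop) (R : ℕ → α → α → Prop) (h0 : ∃ x, Q 0 x)
    (hs : ∀ k x, Q k x → ∃ y, Q (k + 1) y ∧ R k x y) :
    ∃ f : ℕ → α, (∀ k, Q k (f k)) ∧ ∀ k, R k (f k) (f (k + 1)) := by
  classical
  obtain ⟨x0, hx0⟩ := h0
  choose! g hg1 hg2 using hs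
  let f : ℕ → α := fun k => Nat.rec x0 (fun k x => g k x) k
  have hf : ∀ k, Q k (f k) := by
    intro k
    induction k with
    | zero => exact hx0
    | succ k ih => exact hg1 k (f k) ih
  exact ⟨f, hf, fun k => hg2 k (f k) (hf k)⟩

/-- the limit of a sequence of power series which is stable modulo `X ^ (k+1)` -/
theorem limit {A : Type*} [CommRing A] (f : ℕ → PowerSeries A)
    (hf : ∀ k, (PowerSeries.X : PowerSeries A) ^ (k + 1) ∣ f (k + 1) - f k) (k : ℕ) :
    (PowerSeries.X : PowerSeries A) ^ (k + 1) ∣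
      (PowerSeries.mk fun m => PowerSeries.coeff m (f m)) - f k := by
  rw [PowerSeries.X_pow_dvd_iff]
  intro m hm
  rw [map_sub, PowerSeries.coeff_mk]
  have h1 : ∀ j, PowerSeries.coeff m (f (m + j)) = PowerSeries.coeff m (f m) := by
    intro j
    induction j with
    | zero => rfl
    | succ j ih =>
      rw [← ih]
      have h2 := (PowerSeries.X_pow_dvd_iff.1 (hf (m + j))) m (by omega)
      rw [map_sub, sub_eq_zero] at h2
      exact h2
  obtain ⟨j, rfl⟩ : ∃ j, k = m + j := ⟨k - m, by omega⟩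
  rw [h1, sub_self]

theorem step {n : ℕ} (P : Small n → Fin n → Ann) (J : Matrix (Fin n) (Fin n) Lam)
    (hJ : J.det ≠ 0)
    (hP : ∀ (a a' : Small n) (N : ℕ), 1 ≤ N →
      (∀ i, (PowerSeries.X : Out) ^ N ∣ a'.1 i - a.1 i) → ∀ i, (PowerSeries.X : Ann) ^ (N + 1) ∣
        P a' i - P a i - ∑ j, PowerSeries.C (J i j) * iO (a'.1 j - a.1 j))
    (ω : W)
    (hw : ∀ i j, ∃ w : PowerSeries ℂ, J i j = jL (PowerSeries.constantCoeff ω * w))
    (γ : Fin n → Ann) (K : ℕ) (hK : 1 ≤ K) (A : Small n) (Z : Fin n → W)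
    (hA : ∀ i, evS 0 (A.1 i) = 0)
    (hE : ∀ i, (PowerSeries.X : Ann) ^ K ∣ P A i - γ i - iW (ω * Z i)) :
    ∃ (A' : Small n) (Z' : Fin n → W), (∀ i, evS 0 (A'.1 i) = 0) ∧
      (∀ i, (PowerSeries.X : Ann) ^ (K + 1) ∣ P A' i - γ i - iW (ω * Z' i)) ∧
      (∀ i, (PowerSeries.X : Out) ^ K ∣ A'.1 i - A.1 i) ∧
      (∀ i, (PowerSeries.X : W) ^ K ∣ Z' i - Z i) := by
  classical
  choose w hw using hw
  choose E hE using hE
  let e : Fin n → Lam := fun i => PowerSeries.constantCoeff (E i)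
  let ρ : Fin n → Lam := J⁻¹.mulVec (-e)
  have hρ : J.mulVec ρ = -e := by
    change J.mulVec (J⁻¹.mulVec (-e)) = -e
    rw [Matrix.mulVec_mulVec, Matrix.mul_nonsing_inv J (isUnit_iff_ne_zero.2 hJ),
      Matrix.one_mulVec]
  have hsplit : ∀ j, ∃ (p : PowerSeries ℂ) (q : ℂ[X]), ρ j = jL p + iS q ∧ q.coeff 0 = 0 :=
    fun j => split (ρ j)
  choose p b hpb hb0 using hsplit
  let z : Fin n → PowerSeries ℂ := fun i => -∑ j, w i j * p j
  have hAsm : ∀ i, PowerSeries.constantCoeff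
      (A.1 i + PowerSeries.C (b i) * (PowerSeries.X : Out) ^ K) = 0 := by
    intro i
    rw [map_add, A.2 i, map_mul, map_pow, PowerSeries.constantCoeff_X, zero_pow (by omega),
      mul_zero, add_zero]
  let A' : Small n := ⟨fun i => A.1 i + PowerSeries.C (b i) * (PowerSeries.X : Out) ^ K, hAsm⟩
  let Z' : Fin n → W := fun i => Z i + PowerSeries.C (z i) * (PowerSeries.X : W) ^ K
  have hdA : ∀ i, A'.1 i - A.1 i = PowerSeries.C (b i) * (PowerSeries.X : Out) ^ K := by
    intro i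
    change A.1 i + PowerSeries.C (b i) * (PowerSeries.X : Out) ^ K - A.1 i = _
    ring
  have hdZ : ∀ i, Z' i - Z i = PowerSeries.C (z i) * (PowerSeries.X : W) ^ K := by
    intro i
    change Z i + PowerSeries.C (z i) * (PowerSeries.X : W) ^ K - Z i = _
    ring
  refine ⟨A', Z', ?_, ?_, ?_, ?_⟩
  · intro i
    change evS 0 (A.1 i + PowerSeries.C (b i) * (PowerSeries.X : Out) ^ K) = 0
    rw [map_add, hA i, map_mul, evS_C, ← Polynomial.coeff_zero_eq_eval_zero, hb0, map_zero,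
      zero_mul, add_zero]
  · intro i
    have h1 := hP A A' K hK (fun j => ⟨PowerSeries.C (b j), by rw [hdA]; ring⟩) i
    have h2 : ∑ j, PowerSeries.C (J i j) * iO (A'.1 j - A.1 j) =
        (PowerSeries.X : Ann) ^ K * PowerSeries.C (∑ j, J i j * iS (b j)) := by
      rw [map_sum, Finset.mul_sum]
      refine Finset.sum_congr rfl fun j _ => ?_
      rw [hdA, map_mul, iO_C, map_pow, iO_X, map_mul]
      ring
    have h3 : iW (ω * Z' i) = iW (ω * Z i) +
        (PowerSeries.X : Ann) ^ K * (iW ω * PowerSeries.C (jL (z i))) := by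
      have : Z' i = Z i + PowerSeries.C (z i) * (PowerSeries.X : W) ^ K := rfl
      have h9 : iW (PowerSeries.C (z i) * (PowerSeries.X : W) ^ K) =
          PowerSeries.C (jL (z i)) * (PowerSeries.X : Ann) ^ K := by
        rw [map_mul, iW_C, map_pow, iW_X]
      rw [this, mul_add, map_add, map_mul iW ω (PowerSeries.C (z i) * _), h9]
      ring
    have h4 : P A' i - γ i - iW (ω * Z' i) =
        (P A' i - P A i - ∑ j, PowerSeries.C (J i j) * iO (A'.1 j - A.1 j)) +
        (PowerSeries.X : Ann) ^ K * (E i + PowerSeries.C (∑ j, J i j * iS (b j)) -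
          iW ω * PowerSeries.C (jL (z i))) := by
      rw [h2, h3]
      have h5 := hE i
      linear_combination h5
    rw [h4]
    refine dvd_add h1 ?_
    rw [pow_succ]
    refine mul_dvd_mul_left _ ?_
    rw [PowerSeries.X_dvd_iff, map_sub, map_add, map_mul, PowerSeries.constantCoeff_C,
      PowerSeries.constantCoeff_C, constantCoeff_iW]
    have h6 : ∑ j, J i j * ρ j = - PowerSeries.constantCoeff (E i) := congrFun hρ i
    have h7 : ∑ j, J i j * ρ j = jL (PowerSeries.constantCoeff ω) * jL (∑ j, w i j * p j) +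
        ∑ j, J i j * iS (b j) := by
      rw [map_sum, Finset.mul_sum, ← Finset.sum_add_distrib]
      refine Finset.sum_congr rfl fun j _ => ?_
      rw [hpb j, mul_add, map_mul]
      congr 1
      rw [hw i j, map_mul]
      ring
    have h8 : jL (z i) = - jL (∑ j, w i j * p j) := by
      change jL (-∑ j, w i j * p j) = _
      rw [map_neg]
    rw [h8]
    rw [h7] at h6
    linear_combination h6
  · intro i
    rw [hdA]
    exact dvd_mul_left _ _
  · intro i
    rw [hdZ]
    exact dvd_mul_left _ _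

end EQ_aux

theorem pr_EQ : S_EQ := by
  classical
  intro n P J hJ hP ω hω hw γ h0
  obtain ⟨f, hf1, hf2⟩ := EQ_aux.exists_seq (α := Small n × (Fin n → W))
    (fun k s => (∀ i, evS 0 (s.1.1 i) = 0) ∧
      ∀ i, (PowerSeries.X : Ann) ^ (k + 1) ∣ P s.1 i - γ i - iW (ω * s.2 i))
    (fun k s s' => (∀ i, (PowerSeries.X : Out) ^ (k + 1) ∣ s'.1.1 i - s.1.1 i) ∧
      ∀ i, (PowerSeries.X : W) ^ (k + 1) ∣ s'.2 i - s.2 i)
    (by
      let A : Small n := ⟨fun _ => 0, fun _ => map_zero _⟩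
      choose w hw0 using h0 A
      refine ⟨(A, fun i => PowerSeries.C (w i)), fun i => map_zero _, fun i => ?_⟩
      have h9 : PowerSeries.constantCoeff (iW (ω * PowerSeries.C (w i))) =
          jL (PowerSeries.constantCoeff ω * w i) := by
        rw [constantCoeff_iW, map_mul PowerSeries.constantCoeff, PowerSeries.constantCoeff_C]
      rw [zero_add, pow_one, PowerSeries.X_dvd_iff, map_sub, map_sub, hw0 i]
      change _ - PowerSeries.constantCoeff (iW (ω * PowerSeries.C (w i))) = 0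
      rw [h9, sub_self])
    (by
      rintro k ⟨A, Z⟩ ⟨h1, h2⟩
      obtain ⟨A', Z', h3, h4, h5, h6⟩ := EQ_aux.step P J hJ hP ω hw γ (k + 1) (by omega) A Z h1 h2
      exact ⟨(A', Z'), ⟨h3, h4⟩, h5, h6⟩)
  -- the limits
  let a0 : Fin n → Out := fun i => PowerSeries.mk fun m => PowerSeries.coeff m ((f m).1.1 i)
  let ζ : Fin n → W := fun i => PowerSeries.mk fun m => PowerSeries.coeff m ((f m).2 i)
  have ha : ∀ k i, (PowerSeries.X : Out) ^ (k + 1) ∣ a0 i - (f k).1.1 i := fun k i =>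
    EQ_aux.limit (fun k => (f k).1.1 i) (fun k => (hf2 k).1 i) k
  have hz : ∀ k i, (PowerSeries.X : W) ^ (k + 1) ∣ ζ i - (f k).2 i := fun k i =>
    EQ_aux.limit (fun k => (f k).2 i) (fun k => (hf2 k).2 i) k
  have hsm : ∀ i, PowerSeries.constantCoeff (a0 i) = 0 := by
    intro i
    rw [← PowerSeries.coeff_zero_eq_constantCoeff_apply]
    change PowerSeries.coeff 0 (PowerSeries.mk fun m => PowerSeries.coeff m ((f m).1.1 i)) = 0
    rw [PowerSeries.coeff_mk, PowerSeries.coeff_zero_eq_constantCoeff_apply]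
    exact (f 0).1.2 i
  refine ⟨⟨a0, hsm⟩, ζ, ?_, ?_⟩
  · intro i
    ext m : 1
    change PowerSeries.coeff m (evS 0 (a0 i)) = _
    rw [coeff_evS]
    change (PowerSeries.coeff m (PowerSeries.mk fun m => PowerSeries.coeff m ((f m).1.1 i))).eval 0 = _
    rw [PowerSeries.coeff_mk, ← coeff_evS, (hf1 m).1 i]
  · intro i
    rw [← sub_eq_zero]
    ext m : 1
    rw [map_zero]
    have h1 := hP (f m).1 ⟨a0, hsm⟩ (m + 1) (by omega) (fun j => ha m j) i
    have h2 := (hf1 m).2 i
    have h3 : (PowerSeries.X : Ann) ^ (m + 1) ∣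
        ∑ j, PowerSeries.C (J i j) * iO (a0 j - (f m).1.1 j) := by
      refine Finset.dvd_sum fun j _ => dvd_mul_of_dvd_right ?_ _
      have h4 := map_dvd iO (ha m j)
      rw [map_pow, iO_X] at h4
      exact h4
    have h5 : (PowerSeries.X : Ann) ^ (m + 1) ∣ iW (ω * ζ i) - iW (ω * (f m).2 i) := by
      rw [← map_sub, ← mul_sub, map_mul]
      refine dvd_mul_of_dvd_right ?_ _
      have h4 := map_dvd iW (hz m i)
      rw [map_pow, iW_X] at h4
      exact h4
    have h6 : (PowerSeries.X : Ann) ^ (m + 1) ∣ P ⟨a0, hsm⟩ i - (γ i + iW (ω * ζ i)) := by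
      have h7 : P ⟨a0, hsm⟩ i - (γ i + iW (ω * ζ i)) =
          (P ⟨a0, hsm⟩ i - P (f m).1 i - ∑ j, PowerSeries.C (J i j) * iO (a0 j - (f m).1.1 j)) +
          (∑ j, PowerSeries.C (J i j) * iO (a0 j - (f m).1.1 j)) +
          (P (f m).1 i - γ i - iW (ω * (f m).2 i)) -
          (iW (ω * ζ i) - iW (ω * (f m).2 i)) := by ring
      rw [h7]
      refine dvd_sub (dvd_add (dvd_add ?_ h3) h2) h5
      exact (pow_dvd_pow _ (by omega)).trans h1
    exact (PowerSeries.X_pow_dvd_iff.1 h6) m (by omega)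

end RC
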