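import Pool.Agent.Work.MP_0ac1ea_ag.RC.CStmts2

/-!
# Item EVL: evaluation `T = λ` on `W[[T]]`
-/

open PowerSeries Finset

namespace RC

namespace EVL_aux

/-- reindexing of a fourfold sum over antidiagonals -/
theorem sum_reindex {R : Type} [AddCommMonoid R] (F : ℕ → ℕ → ℕ → ℕ → R) (j : ℕ) :
    ∑ p ∈ antidiagonal j, ∑ q ∈ antidiagonal p.2, ∑ s ∈ antidiagonal p.1, F s.1 q.1 s.2 q.2
      = ∑ p ∈ antidiagonal j, ∑ q ∈ antidiagonal p.1, ∑ s ∈ antidiagonal p.2,
          F q.1 q.2 s.1 s.2 := by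
  simp only [Finset.sum_sigma']
  refine Finset.sum_bij'
    (fun x _ => ⟨(x.2.2.1 + x.2.1.1, x.2.2.2 + x.2.1.2), ⟨(x.2.2.1, x.2.1.1),
      (x.2.2.2, x.2.1.2)⟩⟩)
    (fun x _ => ⟨(x.2.1.1 + x.2.2.1, x.2.1.2 + x.2.2.2), ⟨(x.2.1.2, x.2.2.2),
      (x.2.1.1, x.2.2.1)⟩⟩)
    ?_ ?_ ?_ ?_ ?_
  · rintro ⟨⟨p1, p2⟩, ⟨⟨q1, q2⟩, ⟨s1, s2⟩⟩⟩ h
    simp only [mem_sigma, HasAntidiagonal.mem_antidiagonal] at h ⊢
    obtain ⟨h1, h2, h3⟩ := h
    refine ⟨?_, ?_, ?_⟩
    · omega
    · trivial
    · trivial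
  · rintro ⟨⟨p1, p2⟩, ⟨⟨q1, q2⟩, ⟨s1, s2⟩⟩⟩ h
    simp only [mem_sigma, HasAntidiagonal.mem_antidiagonal] at h ⊢
    obtain ⟨h1, h2, h3⟩ := h
    refine ⟨?_, ?_, ?_⟩
    · omega
    · trivial
    · trivial
  · rintro ⟨⟨p1, p2⟩, ⟨⟨q1, q2⟩, ⟨s1, s2⟩⟩⟩ h
    simp only [mem_sigma, HasAntidiagonal.mem_antidiagonal] at h
    obtain ⟨h1, h2, h3⟩ := h
    subst h2 h3
    rfl
  · rintro ⟨⟨p1, p2⟩, ⟨⟨q1, q2⟩, ⟨s1, s2⟩⟩⟩ h
    simp only [mem_sigma, HasAntidiagonal.mem_antidiagonal] at h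
    obtain ⟨h1, h2, h3⟩ := h
    subst h2 h3
    rfl
  · rintro ⟨⟨p1, p2⟩, ⟨⟨q1, q2⟩, ⟨s1, s2⟩⟩⟩ h
    rfl

/-- `∑ g_b T^b ↦ ∑ g_b X^b` -/
noncomputable def mu (R : Type) [CommRing R] : PowerSeries (PowerSeries R) →+* PowerSeries R where
  toFun f := PowerSeries.mk fun j => ∑ p ∈ antidiagonal j, coeff p.1 (coeff p.2 f)
  map_one' := by
    ext j
    rw [coeff_mk, coeff_one]
    by_cases hj : j = 0
    · subst hj
      simp
    · rw [if_neg hj]
      refine Finset.sum_eq_zero ?_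
      rintro ⟨a, b⟩ h
      rw [HasAntidiagonal.mem_antidiagonal] at h
      simp only [coeff_one]
      split_ifs with h1
      · subst h1
        simp only at h
        rw [coeff_one, if_neg (by omega)]
      · simp
  map_mul' f g := by
    ext j
    rw [coeff_mul]
    simp only [coeff_mk]
    have h1 : ∀ p ∈ antidiagonal j, coeff p.1 (coeff p.2 (f * g))
        = ∑ q ∈ antidiagonal p.2, ∑ s ∈ antidiagonal p.1,
            coeff s.1 (coeff q.1 f) * coeff s.2 (coeff q.2 g) := by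
      intro p _
      rw [coeff_mul, map_sum]
      exact Finset.sum_congr rfl fun q _ => by rw [coeff_mul]
    rw [Finset.sum_congr rfl h1,
      sum_reindex (fun a b c d => coeff a (coeff b f) * coeff c (coeff d g))]
    exact Finset.sum_congr rfl fun p _ => by rw [Finset.sum_mul_sum]
  map_zero' := by
    ext j
    simp
  map_add' f g := by
    ext j
    simp [Finset.sum_add_distrib]

theorem mu_C {R : Type} [CommRing R] (g : PowerSeries R) : mu R (C g) = g := by
  ext j
  show coeff j (PowerSeries.mk fun j => ∑ p ∈ antidiagonal j, coeff p.1 (coeff p.2 (C g))) = _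
  rw [coeff_mk, Finset.sum_eq_single (j, 0)]
  · simp
  · rintro ⟨a, b⟩ h hne
    rw [HasAntidiagonal.mem_antidiagonal] at h
    simp only at h ⊢
    rw [coeff_C, if_neg (by rintro rfl; exact hne (by simp at h; rw [h]))]
    simp
  · intro h
    exact absurd (by simp) h

theorem mu_X {R : Type} [CommRing R] : mu R X = X := by
  ext j
  show coeff j (PowerSeries.mk fun j => ∑ p ∈ antidiagonal j,
    coeff p.1 (coeff p.2 (X : PowerSeries (PowerSeries R)))) = _
  rw [coeff_mk, coeff_X]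
  have h1 : ∀ p ∈ antidiagonal j, coeff p.1 (coeff p.2 (X : PowerSeries (PowerSeries R)))
      = if p = (0, 1) then (1 : R) else 0 := by
    rintro ⟨a, b⟩ _
    simp only [coeff_X]
    by_cases hb : b = 1
    · subst hb
      simp [coeff_one]
    · simp [hb]
  rw [Finset.sum_congr rfl h1, Finset.sum_ite_eq' (antidiagonal j) (0, 1)]
  simp only [HasAntidiagonal.mem_antidiagonal]
  by_cases hj : j = 1
  · subst hj; simp
  · rw [if_neg (by omega), if_neg hj]

/-- exchange of the two variables -/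
noncomputable def sw (A : Type) [CommRing A] :
    PowerSeries (PowerSeries A) →+* PowerSeries (PowerSeries A) where
  toFun f := PowerSeries.mk fun k => PowerSeries.mk fun m => coeff k (coeff m f)
  map_one' := by
    ext k m
    simp only [coeff_mk, coeff_one]
    by_cases hk : k = 0
    · by_cases hm : m = 0 <;> simp [hk, hm]
    · by_cases hm : m = 0
      · simp [hk, hm, coeff_one]
      · simp [hk, hm]
  map_mul' f g := by
    ext k m
    simp only [coeff_mul, coeff_mk, map_sum]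
    exact Finset.sum_comm
  map_zero' := by
    ext k m
    simp
  map_add' f g := by
    ext k m
    simp

theorem sw_C {A : Type} [CommRing A] (w : PowerSeries A) : sw A (C w) = PowerSeries.map C w := by
  ext k m
  show coeff m (coeff k (PowerSeries.mk fun k => PowerSeries.mk fun m =>
    coeff k (coeff m (C w)))) = _
  rw [coeff_mk, coeff_mk, coeff_map]
  by_cases hm : m = 0
  · subst hm; simp
  · simp [coeff_C, hm]

theorem sw_X {A : Type} [CommRing A] : sw A X = C X := by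
  ext k m
  show coeff m (coeff k (PowerSeries.mk fun k => PowerSeries.mk fun m =>
    coeff k (coeff m (X : PowerSeries (PowerSeries A))))) = _
  rw [coeff_mk, coeff_mk]
  by_cases hm : m = 1
  · subst hm
    by_cases hk : k = 0
    · subst hk; simp
    · simp [coeff_C, hk, coeff_one]
  · by_cases hk : k = 0
    · subst hk; simp [coeff_X, hm]
    · simp [coeff_X, coeff_C, hk, hm]

end EVL_aux

open EVL_aux in
theorem pr_EVL : S_EVL := by
  refine ⟨(PowerSeries.map (mu ℂ)).comp (sw (PowerSeries ℂ)), ?_, ?_⟩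
  · intro w
    rw [RingHom.comp_apply, sw_C]
    ext k : 1
    rw [coeff_map, coeff_map, mu_C]
  · rw [RingHom.comp_apply, sw_X, lamW, map_C, mu_X]

end RC
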