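import Pool.Agent.Work.MP_0ac1ea_ag.RC.CStmts2

/-!
# Item EXP: exponential of a derivation as a ring homomorphism
-/

open Polynomial

namespace RC

namespace EXP_aux

open Finset

theorem iter_zero {R : Type} [CommRing R] (δ : Derivation ℤ R R) (m : ℕ) : (⇑δ)^[m] 0 = 0 := by
  induction m with
  | zero => rfl
  | succ m ih => rw [Function.iterate_succ_apply', ih, map_zero]

theorem iter_add {R : Type} [CommRing R] (δ : Derivation ℤ R R) (m : ℕ) (r s : R) :
    (⇑δ)^[m] (r + s) = (⇑δ)^[m] r + (⇑δ)^[m] s := by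
  induction m with
  | zero => rfl
  | succ m ih =>
    rw [Function.iterate_succ_apply', Function.iterate_succ_apply',
      Function.iterate_succ_apply', ih, map_add]

theorem iter_mul {R : Type} [CommRing R] (δ : Derivation ℤ R R) (m : ℕ) (r s : R) :
    (⇑δ)^[m] (r * s) =
      ∑ ij ∈ antidiagonal m, Nat.choose m ij.1 • ((⇑δ)^[ij.1] r * (⇑δ)^[ij.2] s) := by
  induction m with
  | zero => simp
  | succ m ih =>
    rw [sum_antidiagonal_choose_succ_nsmul (M := R) (fun i j => (⇑δ)^[i] r * (⇑δ)^[j] s) m,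
      Function.iterate_succ_apply', ih, map_sum, ← sum_add_distrib]
    refine sum_congr rfl fun ij hij => ?_
    rw [map_nsmul, Derivation.leibniz, smul_eq_mul, smul_eq_mul, Function.iterate_succ_apply',
      Function.iterate_succ_apply', m.choose_symm_of_eq_add (mem_antidiagonal.1 hij).symm,
      nsmul_add]
    congr 2
    ring

theorem coef {A : Type} [CommRing A] [Algebra ℚ A] (m : ℕ) (ij : ℕ × ℕ)
    (hij : ij ∈ antidiagonal m) (x y : A) :
    algebraMap ℚ A (1 / (m.factorial : ℚ)) * (Nat.choose m ij.1 • (x * y)) =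
      algebraMap ℚ A (1 / (ij.1.factorial : ℚ)) * x *
        (algebraMap ℚ A (1 / (ij.2.factorial : ℚ)) * y) := by
  have h1 : (1 / (m.factorial : ℚ)) * (Nat.choose m ij.1 : ℚ) =
      (1 / (ij.1.factorial : ℚ)) * (1 / (ij.2.factorial : ℚ)) := by
    rw [HasAntidiagonal.mem_antidiagonal] at hij
    have h2 : m.choose ij.1 * ij.1.factorial * ij.2.factorial = m.factorial := by
      rw [← hij, Nat.choose_symm_add]
      exact Nat.add_choose_mul_factorial_mul_factorial ij.1 ij.2
    have h3 : (m.choose ij.1 : ℚ) * ij.1.factorial * ij.2.factorial = m.factorial := by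
      exact_mod_cast h2
    have h4 : (ij.1.factorial : ℚ) ≠ 0 := by exact_mod_cast Nat.factorial_ne_zero _
    have h5 : (ij.2.factorial : ℚ) ≠ 0 := by exact_mod_cast Nat.factorial_ne_zero _
    have h6 : (m.factorial : ℚ) ≠ 0 := by exact_mod_cast Nat.factorial_ne_zero _
    field_simp
    linarith
  have h2 : algebraMap ℚ A (1 / (m.factorial : ℚ)) * (Nat.choose m ij.1 : A) =
      algebraMap ℚ A (1 / (ij.1.factorial : ℚ)) * algebraMap ℚ A (1 / (ij.2.factorial : ℚ)) := by
    rw [← map_mul, ← h1, map_mul, map_natCast]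
  rw [nsmul_eq_mul, ← mul_assoc, h2]
  ring

end EXP_aux

theorem pr_EXP : S_EXP := by
  intro R A _ _ _ g δ
  refine ⟨{ toFun := fun r => PowerSeries.mk fun m =>
              algebraMap ℚ A (1 / (m.factorial : ℚ)) * g ((⇑δ)^[m] r)
            map_one' := ?_
            map_mul' := fun r s => ?_
            map_zero' := ?_
            map_add' := fun r s => ?_ }, fun r m => ?_⟩
  · ext m
    rw [PowerSeries.coeff_mk, PowerSeries.coeff_one]
    cases m with
    | zero => simp
    | succ m =>
      rw [Function.iterate_succ_apply, Derivation.map_one_eq_zero, EXP_aux.iter_zero, map_zero,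
        mul_zero, if_neg (Nat.succ_ne_zero m)]
  · ext m
    rw [PowerSeries.coeff_mk, PowerSeries.coeff_mul, EXP_aux.iter_mul, map_sum, Finset.mul_sum]
    refine Finset.sum_congr rfl fun ij hij => ?_
    rw [PowerSeries.coeff_mk, PowerSeries.coeff_mk, map_nsmul, map_mul]
    exact EXP_aux.coef m ij hij _ _
  · ext m
    rw [PowerSeries.coeff_mk, EXP_aux.iter_zero, map_zero, mul_zero, map_zero]
  · ext m
    rw [PowerSeries.coeff_mk, EXP_aux.iter_add, map_add, map_add, PowerSeries.coeff_mk,
      PowerSeries.coeff_mk, mul_add]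
  · show PowerSeries.coeff m (PowerSeries.mk fun m =>
      algebraMap ℚ A (1 / (m.factorial : ℚ)) * g ((⇑δ)^[m] r)) = _
    rw [PowerSeries.coeff_mk]

end RC
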