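import Pool.Agent.Work.MP_0ac1ea_ag.RC.CStmts2
import Pool.Agent.Work.MP_0ac1ea_ag.RC.Basic

open Polynomial

namespace RC

namespace GDEN_aux

theorem lift_const (f : Lam) : ∃ K0 : ℕ, ∀ K, K0 ≤ K → ∃ q : PowerSeries ℂ, lam ^ K * f = jL q := by
  obtain ⟨n, p, hp⟩ := exists_pow_mul f
  refine ⟨n, fun K hK => ⟨PowerSeries.X ^ (K - n) * p, ?_⟩⟩
  rw [map_mul, map_pow, jL_X, ← hp, ← mul_assoc, ← pow_add, Nat.sub_add_cancel hK]

theorem lift_poly (N : ℕ) (p : Polynomial Lam) : ∃ K0 : ℕ, ∀ K, K0 ≤ K → ∃ w : W,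
    iW w = PowerSeries.C (lam ^ K) * sigN N p := by
  induction p using Polynomial.induction_on' with
  | add p q hp hq =>
    obtain ⟨K1, h1⟩ := hp
    obtain ⟨K2, h2⟩ := hq
    refine ⟨max K1 K2, fun K hK => ?_⟩
    obtain ⟨w1, e1⟩ := h1 K (le_trans (le_max_left _ _) hK)
    obtain ⟨w2, e2⟩ := h2 K (le_trans (le_max_right _ _) hK)
    refine ⟨w1 + w2, ?_⟩
    rw [map_add, e1, e2, map_add, mul_add]
  | monomial n a =>
    obtain ⟨K0, hK0⟩ := lift_const (a * (lam⁻¹ ^ N) ^ n)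
    refine ⟨K0, fun K hK => ?_⟩
    obtain ⟨q, hq⟩ := hK0 K hK
    refine ⟨PowerSeries.C q * PowerSeries.X ^ n, ?_⟩
    rw [map_mul, iW_C, map_pow, iW_X, ← hq, sigN, Polynomial.coe_eval₂RingHom,
      Polynomial.eval₂_monomial, mul_pow, map_mul, map_mul, map_pow (PowerSeries.C) (lam⁻¹ ^ N) n]
    ring

theorem constantCoeff_sigN (N : ℕ) (p : Polynomial Lam) :
    PowerSeries.constantCoeff (sigN N p) = p.eval 0 := by
  have h : (PowerSeries.constantCoeff (R := Lam)).comp (sigN N) = Polynomial.evalRingHom 0 := by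
    apply Polynomial.ringHom_ext
    · intro a
      simp [sigN]
    · simp [sigN]
  have := congrArg (fun f : Polynomial Lam →+* Lam => f p) h
  simpa using this

end GDEN_aux

open GDEN_aux in
theorem pr_GDEN : S_GDEN := by
  intro N a b hb g hg
  obtain ⟨K1, h1⟩ := lift_poly N a
  obtain ⟨K2, h2⟩ := lift_poly N b
  obtain ⟨w, hw⟩ := h1 (max K1 K2) (le_max_left _ _)
  obtain ⟨H, hH⟩ := h2 (max K1 K2) (le_max_right _ _)
  refine ⟨H, w, ?_, ?_⟩
  · intro h0
    have h := congrArg PowerSeries.constantCoeff hH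
    rw [constantCoeff_iW, h0, map_zero, map_mul, constantCoeff_sigN,
      PowerSeries.constantCoeff_C] at h
    exact mul_ne_zero (pow_ne_zero _ lam_ne_zero) hb h.symm
  · rw [hH, hw, ← hg]
    ring

end RC
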