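import Mathlib
import Pool.Agent.Work.MP_0ac1ea_ag.RC.CStmts2

/-!
# Item I: inside deformation with `n` parameters
-/

namespace RC

theorem I_aux_step (hI1 : S_I1) (k₁ : Subfield ℂ) (R : Type) [CommRing R] [Algebra k₁ R]
    (M n : ℕ) (y : Fin M → R) (hy : Algebra.adjoin k₁ (Set.range y) = ⊤)
    (δ : Fin n → Derivation ℤ R R) (hδ : ∀ i, ∀ c : k₁, δ i (algebraMap k₁ R c) = 0)
    (p : Fin n → Fin M → MvPolynomial (Fin M) k₁) (κ : ℕ) (hκ : 1 ≤ κ)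
    (hp : ∀ i j, δ i (y j) = MvPolynomial.aeval y (p i j)) (hdeg : ∀ i j, (p i j).totalDegree ≤ κ)
    (x : Fin n → R) (hx : ∀ i i', δ i (x i') = if i = i' then 1 else 0)
    (G : R →+* Ann) (hG : ∀ c : k₁, G (algebraMap k₁ R c) = cA c) (H : W)
    (hH : PowerSeries.constantCoeff H ≠ 0) (hHy : ∀ j, ∃ w : W, iW H * G (y j) = iW w)
    (ζ : Fin n → W) (k : ℕ) (hk : k ≤ n) :
    ∃ G' : R →+* Ann, (∀ c : k₁, G' (algebraMap k₁ R c) = cA c) ∧
      (∀ i : Fin n, G' (x i) = G (x i) +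
        if (i : ℕ) < k then iW (lamW * H ^ κ * ζ i) else 0) ∧
      ∀ j, ∃ w : W, G' (y j) = G (y j) + iW (lamW * w) := by
  induction k with
  | zero =>
    refine ⟨G, hG, fun i => by simp, fun j => ⟨0, by simp⟩⟩
  | succ k ih =>
    obtain ⟨Gk, h1, h2, h3⟩ := ih (by omega)
    obtain ⟨G', g1, g2, g3, g4⟩ := hI1 k₁ R M y hy (δ ⟨k, by omega⟩) (hδ _) (p ⟨k, by omega⟩) κ hκ
      (hp _) (hdeg _) Gk h1 H hH (by
        intro j
        obtain ⟨w, hw⟩ := hHy j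
        obtain ⟨w', hw'⟩ := h3 j
        refine ⟨w + H * (lamW * w'), ?_⟩
        rw [hw', mul_add, hw, map_add, map_mul iW H]) (ζ ⟨k, by omega⟩)
    refine ⟨G', g1, ?_, ?_⟩
    · intro i
      by_cases hi : i = ⟨k, by omega⟩
      · subst hi
        rw [g2 _ (by rw [hx]; simp), h2]
        simp
      · have hne : (i : ℕ) ≠ k := fun h => hi (Fin.ext h)
        rw [g3 _ (by rw [hx, if_neg (Ne.symm hi)]), h2]
        by_cases hlt : (i : ℕ) < k
        · rw [if_pos hlt, if_pos (by omega)]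
        · rw [if_neg hlt, if_neg (by omega)]
    · intro j
      obtain ⟨w, hw⟩ := g4 j
      obtain ⟨w', hw'⟩ := h3 j
      refine ⟨w' + w, ?_⟩
      rw [hw, hw', mul_add, map_add, add_assoc]

theorem pr_I (hI1 : S_I1) : S_I := by
  intro k₁ R _ _ M n y hy δ hδ p κ hκ hp hdeg x hx G hG H hH hHy ζ
  obtain ⟨G', h1, h2, h3⟩ := I_aux_step hI1 k₁ R M n y hy δ hδ p κ hκ hp hdeg x hx G hG H hH hHy ζ
    n le_rfl
  refine ⟨G', h1, fun i => ?_, h3⟩
  rw [h2, if_pos i.2]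

end RC
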