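import Pool.Agent.Work.MP_0ac1ea_ag.RC.CStmts2
import Pool.Agent.Work.MP_0ac1ea_ag.RC.Basic

/-!
# IEXT: extension of the inside deformation to the field
-/

open Polynomial

namespace RC

theorem IEXT_claim (k₁ : Subfield ℂ) (L : Type) [Field L] [Algebra k₁ L] (M : ℕ)
    (y : Fin M → L) (y0 : L →+* ℂ) (h0 : Ov k₁ (RingHom.id ℂ) y0)
    (G' : Algebra.adjoin k₁ (Set.range y) →+* Ann)
    (hG : ∀ c : k₁, G' (algebraMap k₁ _ c) = cA c)
    (hy : ∀ j, ∃ p : PowerSeries ℂ, PowerSeries.constantCoeff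
      (G' ⟨y j, Algebra.subset_adjoin ⟨j, rfl⟩⟩) = jL p ∧ PowerSeries.constantCoeff p = y0 (y j))
    (r : L) (hr : r ∈ Algebra.adjoin k₁ (Set.range y)) :
    ∃ p : PowerSeries ℂ, PowerSeries.constantCoeff (G' ⟨r, hr⟩) = jL p ∧
      PowerSeries.constantCoeff p = y0 r := by
  induction hr using Algebra.adjoin_induction with
  | mem x hx =>
    obtain ⟨j, rfl⟩ := hx
    exact hy j
  | algebraMap c =>
    refine ⟨PowerSeries.C (c : ℂ), ?_, ?_⟩
    · have h1 : (⟨algebraMap k₁ L c, algebraMap_mem _ c⟩ : Algebra.adjoin k₁ (Set.range y)) =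
          algebraMap k₁ _ c := rfl
      rw [h1, hG c, cA, RingHom.comp_apply, PowerSeries.constantCoeff_C]
      rfl
    · rw [PowerSeries.constantCoeff_C, h0 c]
      rfl
  | add a b ha hb iha ihb =>
    obtain ⟨p, hp1, hp2⟩ := iha
    obtain ⟨q, hq1, hq2⟩ := ihb
    refine ⟨p + q, ?_, ?_⟩
    · have h1 : (⟨a + b, add_mem ha hb⟩ : Algebra.adjoin k₁ (Set.range y)) =
          ⟨a, ha⟩ + ⟨b, hb⟩ := rfl
      rw [h1, map_add, map_add, map_add, hp1, hq1]
    · rw [map_add, map_add, hp2, hq2]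
  | mul a b ha hb iha ihb =>
    obtain ⟨p, hp1, hp2⟩ := iha
    obtain ⟨q, hq1, hq2⟩ := ihb
    refine ⟨p * q, ?_, ?_⟩
    · have h1 : (⟨a * b, mul_mem ha hb⟩ : Algebra.adjoin k₁ (Set.range y)) =
          ⟨a, ha⟩ * ⟨b, hb⟩ := rfl
      rw [h1, map_mul, map_mul, map_mul, hp1, hq1]
    · rw [map_mul, map_mul, hp2, hq2]

theorem pr_IEXT : S_IEXT := by
  intro k₁ L _ _ M y htop y0 h0 G' hG hy
  have hcl := IEXT_claim k₁ L M y y0 h0 G' hG hy
  have hfr : IsFractionRing (Algebra.adjoin k₁ (Set.range y)) L := by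
    refine IsFractionRing.of_field _ _ fun z => ?_
    have hz : z ∈ IntermediateField.adjoin k₁ (Set.range y) := by rw [htop]; trivial
    obtain ⟨a, ha, b, hb, h⟩ := IntermediateField.mem_adjoin_iff_div.1 hz
    exact ⟨⟨a, ha⟩, ⟨b, hb⟩, h⟩
  have hunit : ∀ s : nonZeroDivisors (Algebra.adjoin k₁ (Set.range y)), IsUnit (G' s) := by
    rintro ⟨⟨b, hb⟩, hs⟩
    have hb0 : b ≠ 0 := by
      intro h
      have h1 : (⟨b, hb⟩ : Algebra.adjoin k₁ (Set.range y)) ≠ 0 := nonZeroDivisors.ne_zero hs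
      exact h1 (Subtype.ext h)
    obtain ⟨p, hp1, hp2⟩ := hcl b hb
    rw [PowerSeries.isUnit_iff_constantCoeff]
    show IsUnit (PowerSeries.constantCoeff (G' ⟨b, hb⟩))
    rw [hp1, isUnit_iff_ne_zero]
    intro h
    have h2 : p = 0 := jL_injective (by rw [h, map_zero])
    rw [h2, map_zero] at hp2
    exact hb0 ((map_eq_zero y0).1 hp2.symm)
  let F : L →+* Ann := IsLocalization.lift (M := nonZeroDivisors (Algebra.adjoin k₁ (Set.range y)))
    (g := G') hunit
  have hF : ∀ r : Algebra.adjoin k₁ (Set.range y), F (r : L) = G' r := by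
    intro r
    exact IsLocalization.lift_eq (S := L) hunit r
  refine ⟨F, ?_, hF, ?_⟩
  · intro c
    have := hF (algebraMap k₁ _ c)
    rw [hG] at this
    exact this
  · intro l
    have hz : l ∈ IntermediateField.adjoin k₁ (Set.range y) := by rw [htop]; trivial
    obtain ⟨a, ha, b, hb, h⟩ := IntermediateField.mem_adjoin_iff_div.1 hz
    by_cases hb0 : b = 0
    · rw [h, hb0, div_zero, map_zero, map_zero, map_zero]
      exact ⟨0, by rw [map_zero], by rw [map_zero]⟩
    · obtain ⟨p, hp1, hp2⟩ := hcl a ha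
      obtain ⟨q, hq1, hq2⟩ := hcl b hb
      have hq0 : PowerSeries.constantCoeff q ≠ 0 := by
        rw [hq2]
        intro h0
        exact hb0 ((map_eq_zero y0).1 h0)
      have hqq : q * q⁻¹ = 1 := PowerSeries.mul_inv_cancel q hq0
      have hla : l * b = a := by rw [h, div_mul_cancel₀ _ hb0]
      have hFl : F l * G' ⟨b, hb⟩ = G' ⟨a, ha⟩ := by
        rw [← hF ⟨b, hb⟩, ← hF ⟨a, ha⟩, ← map_mul]
        exact congrArg F hla
      have hc : PowerSeries.constantCoeff (F l) * jL q = jL p := by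
        rw [← hq1, ← hp1, ← map_mul, hFl]
      refine ⟨p * q⁻¹, ?_, ?_⟩
      · calc PowerSeries.constantCoeff (F l)
            = PowerSeries.constantCoeff (F l) * jL (q * q⁻¹) := by rw [hqq, map_one, mul_one]
          _ = (PowerSeries.constantCoeff (F l) * jL q) * jL q⁻¹ := by rw [map_mul, mul_assoc]
          _ = jL (p * q⁻¹) := by rw [hc, map_mul]
      · rw [map_mul, PowerSeries.constantCoeff_inv, hp2, hq2, h, map_div₀, div_eq_mul_inv]

end RC
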