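import Pool.Agent.Work.MP_0ac1ea_ag.RC.CStmts2
import Pool.Agent.Work.MP_0ac1ea_ag.RC.Basic

/-!
# Item M: matching of the two families (helper39)
-/

open Polynomial

namespace RC

namespace M_aux

/-- elements of `Ann` whose constant coefficient is a power series in `λ` -/
noncomputable def O : Subring Ann := jL.range.comap (PowerSeries.constantCoeff (R := Lam))

/-- `ℂ[[λ]] ≃ jL.range` -/
noncomputable def eq : PowerSeries ℂ ≃+* jL.range :=
  RingEquiv.ofBijective jL.rangeRestrict
    ⟨fun a b h => jL_injective (congrArg Subtype.val h), jL.rangeRestrict_surjective⟩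

theorem eq_apply (p : PowerSeries ℂ) : ((eq p : jL.range) : Lam) = jL p := rfl

/-- the constant coefficient on `O` -/
noncomputable def cc : O →+* jL.range :=
  ((PowerSeries.constantCoeff (R := Lam)).comp O.subtype).codRestrict jL.range fun x => x.2

/-- the residue homomorphism -/
noncomputable def res : O →+* ℂ :=
  (PowerSeries.constantCoeff (R := ℂ)).comp ((eq.symm : jL.range ≃+* PowerSeries ℂ) :
    jL.range →+* PowerSeries ℂ) |>.comp cc

theorem res_eq (f : O) (p : PowerSeries ℂ)
    (h : PowerSeries.constantCoeff (f : Ann) = jL p) : res f = PowerSeries.constantCoeff p := by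
  have h1 : cc f = eq p := Subtype.ext h
  change PowerSeries.constantCoeff (eq.symm (cc f)) = _
  rw [h1, RingEquiv.symm_apply_apply]

theorem main {E L : Type} [Field E] [CharZero E] [Field L] [Algebra E L] [Algebra.IsAlgebraic E L]
    (F G : L →+* O) (y0 : L →+* ℂ) (hF : ∀ l, res (F l) = y0 l) (hG : ∀ l, res (G l) = y0 l)
    (h : ∀ e : E, F (algebraMap E L e) = G (algebraMap E L e)) (y : L) : F y = G y := by
  have hint : IsIntegral E y := Algebra.IsIntegral.isIntegral y
  set m := minpoly E y with hm
  have hsep : m.Separable := (minpoly.irreducible hint).separable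
  have hder : aeval y (derivative m) ≠ 0 := hsep.aeval_derivative_ne_zero (minpoly.aeval E y)
  have hFG : G.comp (algebraMap E L) = F.comp (algebraMap E L) := RingHom.ext fun e => (h e).symm
  set P : Polynomial O := m.map (F.comp (algebraMap E L)) with hP
  have hPF : ∀ p : Polynomial E, (p.map (F.comp (algebraMap E L))).eval (F y) = F (aeval y p) := by
    intro p
    rw [eval_map, aeval_def, hom_eval₂]
  have hPG : ∀ p : Polynomial E, (p.map (F.comp (algebraMap E L))).eval (G y) = G (aeval y p) := by
    intro p
    rw [← hFG, eval_map, aeval_def, hom_eval₂]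
  have e1 : P.eval (F y) = 0 := by rw [hP, hPF, minpoly.aeval, map_zero]
  have e2 : P.eval (G y) = 0 := by rw [hP, hPG, minpoly.aeval, map_zero]
  have e3 : P.derivative.eval (G y) = G (aeval y (derivative m)) := by
    rw [hP, derivative_map, hPG]
  obtain ⟨k, hk⟩ := Polynomial.binomExpansion P (G y) (F y - G y)
  have e4 : G y + (F y - G y) = F y := by ring
  rw [e4, e1, e2, e3, zero_add] at hk
  have e5 : (F y - G y) * (G (aeval y (derivative m)) + k * (F y - G y)) = 0 := by
    rw [hk]; ring
  rcases mul_eq_zero.1 e5 with h0 | h0
  · exact sub_eq_zero.1 h0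
  · exfalso
    have h1 := congrArg res h0
    rw [map_add, map_mul, map_sub, hF, hG, hG, sub_self, mul_zero, add_zero, map_zero] at h1
    exact hder ((map_eq_zero y0).1 h1)

end M_aux

open M_aux in
theorem pr_M : S_M := by
  intro k₁ L _ _ n t ht F G hF hG y0 hyF hyG hFG
  -- the field where `F` and `G` agree
  let E : IntermediateField k₁ L :=
    { carrier := {l | F l = G l}
      mul_mem' := by
        intro a b ha hb
        change F (a * b) = G (a * b)
        rw [map_mul, map_mul]
        rw [show F a = G a from ha, show F b = G b from hb]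
      one_mem' := by
        change F 1 = G 1
        rw [map_one, map_one]
      add_mem' := by
        intro a b ha hb
        change F (a + b) = G (a + b)
        rw [map_add, map_add]
        rw [show F a = G a from ha, show F b = G b from hb]
      zero_mem' := by
        change F 0 = G 0
        rw [map_zero, map_zero]
      algebraMap_mem' := by
        intro c
        change F (algebraMap k₁ L c) = G (algebraMap k₁ L c)
        rw [hF, hG]
      inv_mem' := by
        intro a ha
        have ha' : F a = G a := ha
        change F a⁻¹ = G a⁻¹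
        rcases eq_or_ne a 0 with rfl | h0
        · rw [inv_zero, map_zero, map_zero]
        · have h1 : F a * F a⁻¹ = 1 := by rw [← map_mul, mul_inv_cancel₀ h0, map_one]
          have h2 : G a * G a⁻¹ = 1 := by rw [← map_mul, mul_inv_cancel₀ h0, map_one]
          calc F a⁻¹ = F a⁻¹ * (G a * G a⁻¹) := by rw [h2, mul_one]
            _ = (F a * F a⁻¹) * G a⁻¹ := by rw [ha']; ring
            _ = G a⁻¹ := by rw [h1, one_mul] }
  have hle : IntermediateField.adjoin k₁ (Set.range t) ≤ E := by
    rw [IntermediateField.adjoin_le_iff]
    rintro _ ⟨i, rfl⟩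
    exact hFG i
  have halg0 : Algebra.IsAlgebraic (IntermediateField.adjoin k₁ (Set.range t)) L :=
    ht.isAlgebraic_field
  have halg : Algebra.IsAlgebraic E L := by
    constructor
    intro y
    obtain ⟨p, hp0, hp⟩ := halg0.isAlgebraic y
    refine ⟨p.map (IntermediateField.inclusion hle).toRingHom, ?_, ?_⟩
    · rw [Ne, Polynomial.map_eq_zero_iff]
      · exact hp0
      · exact (IntermediateField.inclusion hle).toRingHom.injective
    · rw [aeval_def, eval₂_map]
      exact hp
  have hchar : CharZero E := by
    have h1 : CharZero k₁ := inferInstance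
    exact charZero_of_injective_algebraMap (algebraMap k₁ E).injective
  have hmemF : ∀ l, F l ∈ O := by
    intro l
    obtain ⟨p, hp, _⟩ := hyF l
    exact ⟨p, hp.symm⟩
  have hmemG : ∀ l, G l ∈ O := by
    intro l
    obtain ⟨p, hp, _⟩ := hyG l
    exact ⟨p, hp.symm⟩
  have key := main (E := E) (F.codRestrict O hmemF) (G.codRestrict O hmemG) y0
    (fun l => by
      obtain ⟨p, hp, hp'⟩ := hyF l
      rw [res_eq _ p hp, hp'])
    (fun l => by
      obtain ⟨p, hp, hp'⟩ := hyG l
      rw [res_eq _ p hp, hp'])
    (fun e => Subtype.ext e.2)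
  ext1 l
  exact congrArg Subtype.val (key l)

end RC
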