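import Pool.Agent.Work.MP_0ac1ea_ag.RC.CStmts5
import Pool.Agent.Work.MP_0ac1ea_ag.RC.Basic

/-!
# Item PSI: existence of `ψ`
-/

open Polynomial

namespace RC

namespace NPSI

theorem rel_unique (hP : Function.Injective jP) (hR : Function.Injective jR) {F : Ann}
    {r r' : RatFunc Lam} (h : Rel F r) (h' : Rel F r') : r = r' := by
  obtain ⟨A, B, hB, h1, h2⟩ := h
  obtain ⟨A', B', hB', h1', h2'⟩ := h'
  have h3 : A * B' = A' * B := by
    apply hP
    rw [map_mul, map_mul, ← h2, ← h2']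
    ring
  have h4 := congrArg jR h3
  rw [map_mul, map_mul, ← h1, ← h1'] at h4
  have hb : jR B ≠ 0 := (map_ne_zero_iff _ hR).mpr hB
  have hb' : jR B' ≠ 0 := (map_ne_zero_iff _ hR).mpr hB'
  have h5 : (jR B * jR B') * r = (jR B * jR B') * r' := by linear_combination h4
  exact mul_left_cancel₀ (mul_ne_zero hb hb') h5

theorem rel_add {F G : Ann} {r s : RatFunc Lam} (h : Rel F r) (h' : Rel G s) :
    Rel (F + G) (r + s) := by
  obtain ⟨A, B, hB, h1, h2⟩ := h
  obtain ⟨A', B', hB', h1', h2'⟩ := h'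
  refine ⟨A * B' + A' * B, B * B', mul_ne_zero hB hB', ?_, ?_⟩
  · rw [map_add, map_mul, map_mul, map_mul]
    linear_combination jR B' * h1 + jR B * h1'
  · rw [map_add, map_mul, map_mul, map_mul]
    linear_combination jP B' * h2 + jP B * h2'

theorem rel_mul {F G : Ann} {r s : RatFunc Lam} (h : Rel F r) (h' : Rel G s) :
    Rel (F * G) (r * s) := by
  obtain ⟨A, B, hB, h1, h2⟩ := h
  obtain ⟨A', B', hB', h1', h2'⟩ := h'
  refine ⟨A * A', B * B', mul_ne_zero hB hB', ?_, ?_⟩
  · rw [map_mul, map_mul, ← h1, ← h1']; ring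
  · rw [map_mul, map_mul, ← h2, ← h2']; ring

theorem rel_one : Rel 1 1 := ⟨1, 1, one_ne_zero, by rw [map_one, mul_one], by
  rw [map_one, mul_one]⟩

theorem rel_zero : Rel 0 0 := ⟨0, 1, one_ne_zero, by rw [map_one, mul_one, map_zero], by
  rw [map_one, mul_one, map_zero]⟩

theorem rel_const (c : ℂ) : Rel (cA c) (cRL c) := by
  refine ⟨Polynomial.C (PowerSeries.C c), 1, one_ne_zero, ?_, ?_⟩
  · rw [map_one, mul_one, jR, RingHom.comp_apply, Polynomial.coe_mapRingHom, Polynomial.map_C,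
      RatFunc.algebraMap_C]
    rfl
  · rw [map_one, mul_one, jP, Polynomial.coe_eval₂RingHom, Polynomial.eval₂_C,
      PowerSeries.map_C]
    rfl

theorem rel_inv (hP : Function.Injective jP) (hR : Function.Injective jR) {L : Type} [Field L]
    (Ψ : L →+* Ann) {l : L} {r : RatFunc Lam} (hl : l ≠ 0) (h : Rel (Ψ l) r) :
    Rel (Ψ l⁻¹) r⁻¹ := by
  obtain ⟨A, B, hB, h1, h2⟩ := h
  have hinv : Ψ l⁻¹ * Ψ l = 1 := by rw [← map_mul, inv_mul_cancel₀ hl, map_one]
  have h3 : Ψ l⁻¹ * jP A = jP B := by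
    rw [← h2, ← mul_assoc, hinv, one_mul]
  have hA : A ≠ 0 := by
    rintro rfl
    rw [map_zero, mul_zero] at h3
    exact (map_ne_zero_iff _ hP).mpr hB h3.symm
  have ha : jR A ≠ 0 := (map_ne_zero_iff _ hR).mpr hA
  have hr : r ≠ 0 := by
    rintro rfl
    rw [zero_mul] at h1
    exact ha h1.symm
  refine ⟨B, A, hA, ?_, h3⟩
  rw [← h1, ← mul_assoc, inv_mul_cancel₀ hr, one_mul]

/-- a function which is regular inside and outside is rational -/
theorem rel_y (hS : S_SPLIT) (hPo : S_POLY) (hR : Function.Injective jR) (Y : Ann)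
    (h1 : ∃ H w : W, PowerSeries.constantCoeff H ≠ 0 ∧ iW H * Y = iW w)
    (h2 : ∃ Q q : Out, PowerSeries.constantCoeff Q ≠ 0 ∧ iO Q * Y = iO q) :
    ∃ r : RatFunc Lam, Rel Y r := by
  obtain ⟨H, w, hH, hw⟩ := h1
  obtain ⟨Q, q, hQ, hq⟩ := h2
  have hQ0 : PowerSeries.constantCoeff (iO Q) ≠ 0 := by
    rw [constantCoeff_iO]
    exact (map_ne_zero_iff _ iS_injective).mpr hQ
  have hH0 : PowerSeries.constantCoeff (iW H) ≠ 0 := by
    rw [constantCoeff_iW]
    exact (map_ne_zero_iff _ jL_injective).mpr hH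
  have hQu : IsUnit (iO Q) := by
    rw [PowerSeries.isUnit_iff_constantCoeff]
    exact isUnit_iff_ne_zero.mpr hQ0
  obtain ⟨Qi, hQi⟩ := hQu.exists_right_inv
  have hF0 : PowerSeries.constantCoeff (iW H * Qi) ≠ 0 := by
    intro h
    apply hH0
    have h3 : iW H = iW H * Qi * iO Q := by
      rw [mul_assoc, mul_comm Qi, hQi, mul_one]
    rw [h3, map_mul, h, zero_mul]
  obtain ⟨e, u, v, hu, hv, hF⟩ := hS _ hF0
  obtain ⟨u', hu'⟩ := hu.exists_right_inv
  have hu1 : iW u' * iW u = 1 := by rw [← map_mul, mul_comm, hu', map_one]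
  have hH1 : iW H = PowerSeries.C (lam ^ e) * iW u * iO v * iO Q := by
    rw [← hF, mul_assoc, mul_comm Qi, hQi, mul_one]
  have h3 : iW (u' * H) = PowerSeries.C (lam ^ e) * iO (v * Q) := by
    rw [map_mul, map_mul, hH1]
    linear_combination PowerSeries.C (lam ^ e) * iO v * iO Q * hu1
  have h4 : iW (u' * w) = PowerSeries.C (lam ^ e) * iO (v * q) := by
    have h5 : iW (u' * w) = iW (u' * H) * Y := by
      rw [map_mul, map_mul, ← hw, mul_assoc]
    rw [h5, h3, map_mul, map_mul, ← hq]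
    ring
  obtain ⟨A0, hA0⟩ := hPo _ _ _ h3
  obtain ⟨A1, hA1⟩ := hPo _ _ _ h4
  have hA0' : A0 ≠ 0 := by
    rintro rfl
    rw [map_zero] at hA0
    have h6 : u' * H = 0 := iW_injective (by rw [← hA0, map_zero])
    have h7 : H = 0 := by
      have : u * (u' * H) = H := by rw [← mul_assoc, hu', one_mul]
      rw [← this, h6, mul_zero]
    exact hH (by rw [h7, map_zero])
  have ha : jR A0 ≠ 0 := (map_ne_zero_iff _ hR).mpr hA0'
  refine ⟨jR A1 / jR A0, A1, A0, hA0', div_mul_cancel₀ _ ha, ?_⟩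
  rw [hA0, hA1, map_mul, map_mul, ← hw]
  ring

end NPSI

open NPSI in
theorem pr_PSI (hS : S_SPLIT) (hPo : S_POLY) (hJ : S_JW) : S_PSI := by
  intro k₁ L _ _ M y hy Ψ hΨ hin hout
  obtain ⟨-, hP, hR⟩ := hJ
  let T : IntermediateField k₁ L :=
    { carrier := {l | ∃ r, Rel (Ψ l) r}
      mul_mem' := by
        rintro a b ⟨r, hr⟩ ⟨s, hs⟩
        exact ⟨r * s, by rw [map_mul]; exact rel_mul hr hs⟩
      one_mem' := ⟨1, by rw [map_one]; exact rel_one⟩
      add_mem' := by
        rintro a b ⟨r, hr⟩ ⟨s, hs⟩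
        exact ⟨r + s, by rw [map_add]; exact rel_add hr hs⟩
      zero_mem' := ⟨0, by rw [map_zero]; exact rel_zero⟩
      algebraMap_mem' := fun c => ⟨cRL c, by rw [hΨ c]; exact rel_const _⟩
      inv_mem' := by
        rintro a ⟨r, hr⟩
        by_cases ha : a = 0
        · rw [ha, inv_zero]
          exact ⟨0, by rw [map_zero]; exact rel_zero⟩
        · exact ⟨r⁻¹, rel_inv hP hR Ψ ha hr⟩ }
  have hT : ∀ l : L, ∃ r, Rel (Ψ l) r := by
    intro l
    have h1 : IntermediateField.adjoin k₁ (Set.range y) ≤ T := by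
      rw [IntermediateField.adjoin_le_iff]
      rintro _ ⟨j, rfl⟩
      exact rel_y hS hPo hR _ (hin j) (hout j)
    rw [hy] at h1
    exact h1 (IntermediateField.mem_top (x := l))
  choose f hf using hT
  refine ⟨{ toFun := f
            map_one' := rel_unique hP hR (hf 1) (by rw [map_one]; exact rel_one)
            map_mul' := fun a b => rel_unique hP hR (hf (a * b))
              (by rw [map_mul]; exact rel_mul (hf a) (hf b))
            map_zero' := rel_unique hP hR (hf 0) (by rw [map_zero]; exact rel_zero)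
            map_add' := fun a b => rel_unique hP hR (hf (a + b))
              (by rw [map_add]; exact rel_add (hf a) (hf b)) }, ?_, fun l => hf l⟩
  intro c
  exact rel_unique hP hR (hf (algebraMap k₁ L c)) (by rw [hΨ c]; exact rel_const _)

end RC
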