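import Pool.Agent.Work.MP_0ac1ea_ag.RC.CStmts2

namespace RC

open MvPolynomial

theorem pr_RES : S_RES := by
  intro k₁ L _ _ M y δ hδ p hp
  have hmem : ∀ r ∈ Algebra.adjoin k₁ (Set.range y), δ r ∈ Algebra.adjoin k₁ (Set.range y) := by
    intro r hr
    induction hr using Algebra.adjoin_induction with
    | mem x hx =>
      obtain ⟨j, rfl⟩ := hx
      rw [hp j]
      rw [← MvPolynomial.aeval_range] 
      exact ⟨p j, rfl⟩
    | algebraMap a => rw [hδ a]; exact Subalgebra.zero_mem _
    | add x z _ _ hx hz => rw [map_add]; exact Subalgebra.add_mem _ hx hz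
    | mul x z hx' hz' hx hz =>
      rw [Derivation.leibniz]
      exact Subalgebra.add_mem _ (Subalgebra.mul_mem _ hx' hz) (Subalgebra.mul_mem _ hz' hx)
  let f : (Algebra.adjoin k₁ (Set.range y)) →+ (Algebra.adjoin k₁ (Set.range y)) :=
    { toFun := fun r => ⟨δ r, hmem r r.2⟩
      map_zero' := by apply Subtype.ext; simp
      map_add' := by intro a b; apply Subtype.ext; simp }
  refine ⟨Derivation.mk' f.toIntLinearMap ?_, ?_⟩
  · intro a b
    apply Subtype.ext
    change δ ((a : L) * (b : L)) = _
    rw [Derivation.leibniz]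
    rfl
  · intro r
    rfl

end RC
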