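import Pool.Agent.Work.MP_0ac1ea_ag.RC.CStmts3

open Polynomial

namespace RC
namespace V2

/-- expansions along a uniformiser with a coefficient field -/
lemma expand {K V : Type*} [Field K] [CommRing V] [IsDomain V] [Algebra K V] (π : V) (hπ : π ≠ 0)
    (ρ : V →ₐ[K] K) (hρ : ∀ v, ρ v = 0 → ∃ w, v = π * w) (hρπ : ρ π = 0) :
    ∃ E : V →+* PowerSeries K, (∀ v, PowerSeries.constantCoeff (E v) = ρ v) ∧
      (∀ c, E (algebraMap K V c) = PowerSeries.C c) ∧
      ∀ v, E v = 0 → ∀ n : ℕ, π ^ n ∣ v := by
  have h1 : ∀ v : V, ∃ w, v - algebraMap K V (ρ v) = π * w := by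
    intro v
    apply hρ
    simp
  choose D hD using h1
  have hDe : ∀ v, v = algebraMap K V (ρ v) + π * D v := by
    intro v
    rw [← hD]; ring
  have hU : ∀ v c w, v = algebraMap K V c + π * w → ρ v = c ∧ D v = w := by
    intro v c w h
    have h2 : ρ v = c := by
      rw [h]; simp [hρπ]
    refine ⟨h2, ?_⟩
    have h3 := hDe v
    rw [h2] at h3
    have h4 : π * D v = π * w := by
      have := h3.symm.trans h
      exact add_left_cancel this
    exact mul_left_cancel₀ hπ h4
  let E0 : V → PowerSeries K := fun v => PowerSeries.mk (fun n => ρ (D^[n] v))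
  have hE0 : ∀ v, PowerSeries.coeff 0 (E0 v) = ρ v := by
    intro v; simp [E0]
  have hES : ∀ v n, PowerSeries.coeff (n + 1) (E0 v) = PowerSeries.coeff n (E0 (D v)) := by
    intro v n; simp [E0, Function.iterate_succ_apply]
  have hadd : ∀ n v w, PowerSeries.coeff n (E0 (v + w))
      = PowerSeries.coeff n (E0 v) + PowerSeries.coeff n (E0 w) := by
    intro n
    induction n with
    | zero => intro v w; simp [hE0]
    | succ n ih =>
      intro v w
      have h := hU (v + w) (ρ v + ρ w) (D v + D w) (by
        conv_lhs => rw [hDe v, hDe w]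
        rw [map_add]; ring)
      rw [hES, hES, hES, h.2, ih]
  have hconst : ∀ c : K, E0 (algebraMap K V c) = PowerSeries.C c := by
    intro c
    have h0 := hU 0 0 0 (by simp)
    have h := hU (algebraMap K V c) c 0 (by simp)
    have hz : ∀ n, D^[n] (0 : V) = 0 := by
      intro n
      induction n with
      | zero => rfl
      | succ n ih => rw [Function.iterate_succ_apply, h0.2, ih]
    ext n
    cases n with
    | zero => simp [hE0]
    | succ n => rw [hES, h.2]; simp [E0, hz]
  have hmul : ∀ n v w, PowerSeries.coeff n (E0 (v * w)) = PowerSeries.coeff n (E0 v * E0 w) := by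
    have hrec : ∀ v, E0 v = PowerSeries.C (ρ v) + PowerSeries.X * E0 (D v) := by
      intro v
      ext n
      cases n with
      | zero => rw [hE0]; simp
      | succ n => rw [hES, map_add, PowerSeries.coeff_succ_X_mul]; simp
    intro n
    induction n with
    | zero => intro v w; rw [hE0]; simp [PowerSeries.coeff_mul, hE0]
    | succ n ih =>
      intro v w
      have h := hU (v * w) (ρ v * ρ w) (D v * w + algebraMap K V (ρ v) * D w) (by
        rw [map_mul]
        linear_combination w * hDe v + algebraMap K V (ρ v) * hDe w)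
      rw [hES, h.2, hadd, ih, ih, hconst]
      conv_rhs => rw [hrec v]
      rw [add_mul, map_add, mul_assoc, PowerSeries.coeff_succ_X_mul, PowerSeries.coeff_C_mul,
        PowerSeries.coeff_C_mul, hES]
      ring
  refine ⟨{ toFun := E0, map_one' := ?_, map_mul' := ?_, map_zero' := ?_, map_add' := ?_ },
    ?_, ?_, ?_⟩
  · have := hconst 1; simpa using this
  · intro v w; ext n; exact hmul n v w
  · have := hconst 0; simpa using this
  · intro v w; ext n; rw [hadd]; simp
  · intro v
    have := hE0 v
    rw [PowerSeries.coeff_zero_eq_constantCoeff] at this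
    exact this
  · exact hconst
  · intro v hv n
    have hv' : E0 v = 0 := hv
    have key : ∀ n, ∀ v, (∀ i < n, PowerSeries.coeff i (E0 v) = 0) → π ^ n ∣ v := by
      intro n
      induction n with
      | zero => intro v _; simp
      | succ n ih =>
        intro v h
        have h0 := h 0 (Nat.succ_pos _)
        rw [hE0] at h0
        have h1 := hDe v
        rw [h0, map_zero, zero_add] at h1
        rw [h1, pow_succ']
        apply mul_dvd_mul_left
        apply ih
        intro i hi
        rw [← hES]
        exact h _ (by omega)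
    apply key
    intro i _
    rw [hv']; simp

/-- expansion of a DVR with coefficient field -/
lemma dvr {K V : Type*} [Field K] [CommRing V] [IsDomain V] [IsDiscreteValuationRing V]
    [Algebra K V] (ρ : V →ₐ[K] K) :
    ∃ E : V →+* PowerSeries K, Function.Injective E ∧
      (∀ v, PowerSeries.constantCoeff (E v) = ρ v) ∧
      (∀ c, E (algebraMap K V c) = PowerSeries.C c) := by
  obtain ⟨π, hπ⟩ := IsDiscreteValuationRing.exists_irreducible V
  have hker : RingHom.ker ρ = IsLocalRing.maximalIdeal V := by
    apply IsLocalRing.eq_maximalIdeal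
    exact RingHom.ker_isMaximal_of_surjective _ (fun c => ⟨algebraMap K V c, by simp⟩)
  have hm := (IsDiscreteValuationRing.irreducible_iff_uniformizer π).1 hπ
  obtain ⟨E, h1, h2, h3⟩ := expand π hπ.ne_zero ρ (by
    intro v hv
    have : v ∈ IsLocalRing.maximalIdeal V := by rw [← hker]; exact hv
    rw [hm, Ideal.mem_span_singleton] at this
    exact this) (by
    have : π ∈ RingHom.ker ρ := by rw [hker, hm]; exact Ideal.mem_span_singleton_self _
    exact this)
  refine ⟨E, ?_, h1, h2⟩
  rw [injective_iff_map_eq_zero]
  intro v hv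
  by_contra hv0
  obtain ⟨n, u, hu⟩ := IsDiscreteValuationRing.eq_unit_mul_pow_irreducible hv0 hπ
  have h4 := h3 v hv (n + 1)
  rw [hu] at h4
  have h5 : π ^ (n + 1) ∣ π ^ n := (Units.dvd_mul_left).1 h4
  have := (pow_dvd_pow_iff hπ.ne_zero hπ.not_isUnit).1 h5
  omega

lemma dedekind {K C : Type*} [Field K] [CommRing C] [IsDedekindDomain C] [Algebra K C]
    (σ : C →ₐ[K] K) (x : C) (hx : x ≠ 0) (hσ : σ x = 0) :
    ∃ E : C →+* PowerSeries K, Function.Injective E ∧
      (∀ v, PowerSeries.constantCoeff (E v) = σ v) ∧
      (∀ c, E (algebraMap K C c) = PowerSeries.C c) := by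
  let n : Ideal C := RingHom.ker σ
  have hn : n.IsMaximal :=
    RingHom.ker_isMaximal_of_surjective _ (fun c => ⟨algebraMap K C c, by simp⟩)
  have hn0 : n ≠ ⊥ := by
    intro h
    apply hx
    have : x ∈ n := hσ
    rw [h] at this
    simpa using this
  let V := Localization.AtPrime n
  have : IsDiscreteValuationRing V :=
    IsLocalization.AtPrime.isDiscreteValuationRing_of_dedekind_domain C hn0 V
  let ρ0 : V →+* K := IsLocalization.lift (M := n.primeCompl) (g := (σ : C →+* K)) (by
    intro y
    rw [isUnit_iff_ne_zero]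
    exact y.2)
  let ρ : V →ₐ[K] K := { ρ0 with
    commutes' := by
      intro c
      have : algebraMap K V c = algebraMap C V (algebraMap K C c) := by
        exact IsScalarTower.algebraMap_apply K C V c
      show ρ0 _ = _
      rw [this]
      simp [ρ0] }
  obtain ⟨E, h1, h2, h3⟩ := dvr ρ
  refine ⟨E.comp (algebraMap C V), ?_, ?_, ?_⟩
  · rw [RingHom.coe_comp]
    exact h1.comp (IsLocalization.injective V (Ideal.primeCompl_le_nonZeroDivisors n))
  · intro v
    rw [RingHom.comp_apply, h2]
    show ρ0 _ = _
    simp [ρ0]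
  · intro c
    rw [RingHom.comp_apply, ← IsScalarTower.algebraMap_apply K C V c, h3]

lemma zar {K C : Type*} [Field K] [IsAlgClosed K] [CommRing C] [Algebra K C]
    [Algebra.FiniteType K C] (n : Ideal C) [n.IsMaximal] :
    ∃ σ : C →ₐ[K] K, RingHom.ker σ = n := by
  let _ : Field (C ⧸ n) := Ideal.Quotient.field n
  have h1 : Module.Finite K (C ⧸ n) := finite_of_finite_type_of_isJacobsonRing K (C ⧸ n)
  have h2 : Function.Bijective (algebraMap K (C ⧸ n)) :=
    IsAlgClosed.algebraMap_bijective_of_isIntegral
  let e : K ≃ₐ[K] (C ⧸ n) := AlgEquiv.ofBijective (Algebra.ofId K (C ⧸ n)) h2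
  refine ⟨(e.symm : (C ⧸ n) →ₐ[K] K).comp (Ideal.Quotient.mkₐ K n), ?_⟩
  ext x
  rw [RingHom.mem_ker]
  simp [Ideal.Quotient.eq_zero_iff_mem]

/-- formal branch through a point of an affine curve -/
lemma curve {K T : Type*} [Field K] [IsAlgClosed K] [CharZero K] [CommRing T] [IsDomain T]
    [Algebra K T] [Algebra K[X] T] [IsScalarTower K K[X] T] [Module.Finite K[X] T]
    [FaithfulSMul K[X] T] (ρ : T →ₐ[K] K) (hρ : ρ (algebraMap K[X] T X) = 0) :
    ∃ θ : T →+* PowerSeries K, Function.Injective θ ∧
      (∀ v, PowerSeries.constantCoeff (θ v) = ρ v) ∧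
      (∀ c, θ (algebraMap K T c) = PowerSeries.C c) := by
  let L := FractionRing T
  let K' := FractionRing K[X]
  have : FaithfulSMul K[X] L := FaithfulSMul.trans K[X] T L
  let _ : Algebra K' L := FractionRing.liftAlgebra K[X] L
  have : IsScalarTower K[X] K' L := FractionRing.isScalarTower_liftAlgebra K[X] L
  have hint : Algebra.IsIntegral K[X] T := inferInstance
  have hfd : FiniteDimensional K' L := by
    obtain ⟨s, hs⟩ : (⊤ : Submodule K[X] T).FG := Module.Finite.fg_top
    let F := IntermediateField.adjoin K' ((algebraMap T L) '' (s : Set T))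
    have hT : ∀ t : T, algebraMap T L t ∈ F := by
      intro t
      have ht : t ∈ Submodule.span K[X] (s : Set T) := by rw [hs]; trivial
      induction ht using Submodule.span_induction with
      | mem x hx => exact IntermediateField.subset_adjoin _ _ ⟨x, hx, rfl⟩
      | zero => simp
      | add x y _ _ hx hy => rw [map_add]; exact F.add_mem hx hy
      | smul p x _ hx =>
        rw [Algebra.smul_def, map_mul]
        refine F.mul_mem ?_ hx
        rw [← IsScalarTower.algebraMap_apply K[X] T L, IsScalarTower.algebraMap_apply K[X] K' L]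
        exact F.algebraMap_mem _
    have hF : F = ⊤ := by
      rw [eq_top_iff]
      intro x _
      obtain ⟨a, b, _, rfl⟩ := IsFractionRing.div_surjective (A := T) x
      exact F.div_mem (hT a) (hT b)
    have h1 : FiniteDimensional K' F := by
      have : Finite ((algebraMap T L) '' (s : Set T)) := by
        exact (s.finite_toSet.image _)
      apply IntermediateField.finiteDimensional_adjoin
      rintro _ ⟨x, _, rfl⟩
      have h2 : IsIntegral K[X] (algebraMap T L x) := (hint.isIntegral x).algebraMap
      exact h2.tower_top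
    rw [hF] at h1
    exact Module.Finite.equiv (IntermediateField.topEquiv (F := K') (E := L)).toLinearEquiv
  have : CharZero K' := charZero_of_injective_algebraMap (FaithfulSMul.algebraMap_injective K K')
  have hdd : IsDedekindDomain (integralClosure K[X] L) := by
    exact integralClosure.isDedekindDomain K[X] K' L
  let C1 := integralClosure K[X] L
  have hfin : Module.Finite K[X] C1 := IsIntegralClosure.finite K[X] K' L C1
  have : Algebra.FiniteType K[X] C1 := inferInstance
  have hft : Algebra.FiniteType K C1 := Algebra.FiniteType.trans (inferInstance : Algebra.FiniteType K K[X]) this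
  let f : T →ₐ[K[X]] C1 := (Algebra.algHom K[X] T L).codRestrict C1 (by
    intro x
    exact (hint.isIntegral x).algebraMap)
  have hf : ∀ t, ((f t : C1) : L) = algebraMap T L t := fun t => rfl
  have hfi : Function.Injective f := by
    intro a b h
    have : algebraMap T L a = algebraMap T L b := by rw [← hf, ← hf, h]
    exact IsFractionRing.injective T L this
  let _ : Algebra T C1 := (f : T →+* C1).toAlgebra
  have : IsScalarTower K[X] T C1 := IsScalarTower.of_algebraMap_eq (fun p => (f.commutes p).symm)
  have : Algebra.IsIntegral T C1 := ⟨fun x => (Algebra.IsIntegral.isIntegral (R := K[X]) x).tower_top⟩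
  have hmax : (RingHom.ker ρ).IsMaximal :=
    RingHom.ker_isMaximal_of_surjective _ (fun c => ⟨algebraMap K T c, by simp⟩)
  obtain ⟨n2, hn2, hn2c⟩ := Ideal.exists_ideal_over_maximal_of_isIntegral (S := C1)
    (RingHom.ker ρ) (by
      have : RingHom.ker (algebraMap T C1) = ⊥ := (RingHom.injective_iff_ker_eq_bot _).1 hfi
      rw [this]; exact bot_le)
  obtain ⟨σ, hσ⟩ := zar (K := K) n2
  have hσρ : ∀ t, σ (f t) = ρ t := by
    intro t
    have h1 : t - algebraMap K T (ρ t) ∈ RingHom.ker ρ := by
      rw [RingHom.mem_ker]; simp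
    rw [← hn2c, Ideal.mem_comap] at h1
    rw [← hσ, RingHom.mem_ker] at h1
    have h2 : algebraMap T C1 (t - algebraMap K T (ρ t)) = f t - algebraMap K C1 (ρ t) := by
      have h3 : algebraMap T C1 (algebraMap K T (ρ t)) = algebraMap K C1 (ρ t) := by
        rw [IsScalarTower.algebraMap_apply K K[X] T, ← IsScalarTower.algebraMap_apply K[X] T C1,
          ← IsScalarTower.algebraMap_apply K K[X] C1]
      rw [map_sub, h3]
      rfl
    rw [h2, map_sub, AlgHom.commutes] at h1
    simpa [sub_eq_zero] using h1
  obtain ⟨E, hE1, hE2, hE3⟩ := dedekind σ (algebraMap K[X] C1 X) (by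
    intro h
    have h1 : algebraMap K[X] L X = 0 := by
      have := congrArg (fun z : C1 => (z : L)) h
      simp at this
    have h2 := FaithfulSMul.algebraMap_injective K[X] L
    rw [← map_zero (algebraMap K[X] L)] at h1
    exact Polynomial.X_ne_zero (h2 h1)) (by
    rw [IsScalarTower.algebraMap_apply K[X] T C1]
    exact (hσρ _).trans hρ)
  refine ⟨E.comp (f : T →+* C1), ?_, ?_, ?_⟩
  · exact hE1.comp hfi
  · intro v
    rw [RingHom.comp_apply, hE2]
    exact hσρ v
  · intro c
    rw [RingHom.comp_apply, ← hE3]
    congr 1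

open TensorProduct in
lemma tensorDomain {k K R : Type*} [Field k] [IsAlgClosed k] [CommRing K] [IsDomain K] [Algebra k K] [CommRing R]
    [IsDomain R] [Algebra k R] [Algebra.FiniteType k R] : IsDomain (R ⊗[k] K) := by
  classical
  let b := Module.Basis.ofVectorSpace k K
  let B := b.baseChange R
  have hnt : Nontrivial (R ⊗[k] K) := by
    infer_instance
  have hev : ∀ (χ : R →ₐ[k] k), ∃ e : R ⊗[k] K →+* K, ∀ x, e x = 0 → ∀ i, χ (B.repr x i) = 0 := by
    intro χ
    let e : R ⊗[k] K →ₐ[k] K := Algebra.TensorProduct.lift ((Algebra.ofId k K).comp χ) (AlgHom.id k K)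
      (fun _ _ => Commute.all _ _)
    refine ⟨e, ?_⟩
    intro x hx i
    have h1 : ∀ x, b.repr (e x) i = χ (B.repr x i) := by
      intro x
      induction x with
      | zero => simp
      | add x y hx hy => simp [hx, hy]
      | tmul r c =>
        simp only [e, B, Algebra.TensorProduct.lift_tmul, AlgHom.comp_apply, AlgHom.id_apply,
          Module.Basis.baseChange_repr_tmul, Algebra.ofId_apply, map_smul, smul_eq_mul]
        rw [← Algebra.smul_def, map_smul, Finsupp.smul_apply, smul_eq_mul, mul_comm]
    have h2 := h1 x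
    rw [← h2]
    have : (e x) = 0 := hx
    rw [this]; simp
  have hjac : ∀ r : R, (∀ χ : R →ₐ[k] k, χ r = 0) → r = 0 := by
    intro r hr
    have hJ : IsJacobsonRing R := isJacobsonRing_of_finiteType (A := k)
    have h1 : (⊥ : Ideal R).jacobson = ⊥ := hJ.out Ideal.isRadical_bot
    have h2 : r ∈ (⊥ : Ideal R).jacobson := by
      rw [Ideal.jacobson, Ideal.mem_sInf]
      intro n hn
      have := hn.2
      obtain ⟨σ, hσ⟩ := zar (K := k) n
      rw [← hσ]
      exact hr σ
    rw [h1] at h2
    simpa using h2
  have : NoZeroDivisors (R ⊗[k] K) := by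
    constructor
    intro x y hxy
    by_contra! h
    obtain ⟨hx, hy⟩ := h
    obtain ⟨i, hi⟩ : ∃ i, B.repr x i ≠ 0 := by
      by_contra! h
      apply hx
      apply B.repr.injective
      ext i; simp [h i]
    obtain ⟨j, hj⟩ : ∃ j, B.repr y j ≠ 0 := by
      by_contra! h
      apply hy
      apply B.repr.injective
      ext i; simp [h i]
    apply mul_ne_zero hi hj
    apply hjac
    intro χ
    obtain ⟨e, he⟩ := hev χ
    have h1 : e x * e y = 0 := by rw [← map_mul, hxy, map_zero]
    rcases mul_eq_zero.1 h1 with h | h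
    · rw [map_mul, he x h i, zero_mul]
    · rw [map_mul, he y h j, mul_zero]
  exact NoZeroDivisors.to_isDomain _


end V2
end RC
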